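import Pool.Agent.Lib.MP_62bfd3_lc.BW.M1
import Pool.Agent.Lib.MP_62bfd3_lc.BW.Fm2
import Pool.Agent.Lib.MP_62bfd3_lc.BW.Defs

section

/-!
# BW.B1 : the back-and-forth relations

PROOFS.  All by well-founded induction on `α` (for all tuples), with `bf_iff` (unfolding).
* `bf_sub` : let `l' = l.filter (· < a.length)`; the picked tuples are the same for `l` and `l'`, and the
  tuple picked by `l' ++ [a.length]` from `a ++ [c]` is `(picked by l from a) ++ [c]`.  The same
  for `b` (`b.length = a.length`).  Atomic part: picking from a picked tuple is picking with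
  composed indices.
* `bf_iso` : answer `c` by `f c` and `d` by `f.symm d`.
* `sr_iso` : transport tuples and automorphisms with `f`, by `bf_iso`, `bf_trans`.
* `sr_spec` : the infimum of a nonempty set of ordinals is attained (`csInf_mem`).
-/

namespace BW

variable {A B C : Type} {M : Str A} {N : Str B} {P : Str C} {α β : Ordinal.{0}}
  {a : List A} {b : List B} {c : List C}

theorem bf_iff : BF M N α a b ↔ AtEq M N a b ∧ ∀ β < α,
    (∀ c, ∃ d, BF M N β (a ++ [c]) (b ++ [d])) ∧ ∀ d, ∃ c, BF M N β (a ++ [c]) (b ++ [d]) := by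
  rw [BF]

theorem bf_length (h : BF M N α a b) : a.length = b.length := (bf_iff.1 h).1.1

theorem bf_mono (hβ : β ≤ α) (h : BF M N α a b) : BF M N β a b := by
  rw [bf_iff] at h ⊢
  exact ⟨h.1, fun γ hγ => h.2 γ (hγ.trans_le hβ)⟩

theorem bf_refl (M : Str A) (α : Ordinal.{0}) (a : List A) : BF M M α a a := by
  induction α using WellFoundedLT.induction generalizing a with
  | ind α ih =>
    rw [bf_iff]
    exact ⟨⟨rfl, fun _ _ => Iff.rfl, fun _ _ => Iff.rfl⟩,
      fun β hβ => ⟨fun c => ⟨c, ih β hβ _⟩, fun c => ⟨c, ih β hβ _⟩⟩⟩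

theorem bf_symm (h : BF M N α a b) : BF N M α b a := by
  induction α using WellFoundedLT.induction generalizing a b with
  | ind α ih =>
    rw [bf_iff] at h ⊢
    obtain ⟨⟨h1, h2, h3⟩, h4⟩ := h
    refine ⟨⟨h1.symm, fun i j => (h2 i j).symm, fun k l => (h3 k l).symm⟩, fun β hβ => ⟨?_, ?_⟩⟩
    · intro c
      obtain ⟨d, hd⟩ := (h4 β hβ).2 c
      exact ⟨d, ih β hβ hd⟩
    · intro c
      obtain ⟨d, hd⟩ := (h4 β hβ).1 c
      exact ⟨d, ih β hβ hd⟩

theorem bf_trans (h : BF M N α a b) (h' : BF N P α b c) : BF M P α a c := by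
  induction α using WellFoundedLT.induction generalizing a b c with
  | ind α ih =>
    rw [bf_iff] at h h' ⊢
    obtain ⟨⟨h1, h2, h3⟩, h4⟩ := h
    obtain ⟨⟨g1, g2, g3⟩, g4⟩ := h'
    refine ⟨⟨h1.trans g1, fun i j => (h2 i j).trans (g2 i j),
      fun k l => (h3 k l).trans (g3 k l)⟩, fun β hβ => ⟨?_, ?_⟩⟩
    · intro x
      obtain ⟨y, hy⟩ := (h4 β hβ).1 x
      obtain ⟨z, hz⟩ := (g4 β hβ).1 y
      exact ⟨z, ih β hβ hy hz⟩
    · intro z
      obtain ⟨y, hy⟩ := (g4 β hβ).2 z
      obtain ⟨x, hx⟩ := (h4 β hβ).2 y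
      exact ⟨x, ih β hβ hx hy⟩

private theorem B1_atEq_iso {f : A ≃ B} (hf : IsIso M N f) (a : List A) :
    AtEq M N a (a.map f) := by
  refine ⟨by simp, fun i j => ?_, fun k l => ?_⟩
  · rw [List.getElem?_map, List.getElem?_map]
    exact (Option.map_injective f.injective).eq_iff.symm
  · rw [hf k, List.map_filterMap]
    have : (fun i : ℕ => (a.map f)[i]?) = fun i : ℕ => Option.map f a[i]? := by
      funext i
      rw [List.getElem?_map]
    rw [this]

theorem bf_iso {f : A ≃ B} (hf : IsIso M N f) (α : Ordinal.{0}) (a : List A) :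
    BF M N α a (a.map f) := by
  induction α using WellFoundedLT.induction generalizing a with
  | ind α ih =>
    rw [bf_iff]
    refine ⟨B1_atEq_iso hf a, fun β hβ => ⟨fun c => ⟨f c, ?_⟩, fun d => ⟨f.symm d, ?_⟩⟩⟩
    · have := ih β hβ (a ++ [c])
      simpa using this
    · have := ih β hβ (a ++ [f.symm d])
      simpa using this

/-- picking with indices in range -/
private theorem B1_pick_get {A : Type} (a : List A) (l : List ℕ) (hl : ∀ i ∈ l, i < a.length)
    (i : ℕ) : (l.filterMap fun i => a[i]?)[i]? = a[(l[i]?).getD a.length]? := by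
  induction l generalizing i with
  | nil => simp
  | cons j l ih =>
    have hj : j < a.length := hl j (by simp)
    have hl' : ∀ i ∈ l, i < a.length := fun i hi => hl i (by simp [hi])
    have e : (List.filterMap (fun i => a[i]?) (j :: l)) =
        a[j] :: List.filterMap (fun i => a[i]?) l := by
      rw [List.filterMap_cons_some]
      exact List.getElem?_eq_getElem hj
    rw [e]
    cases i with
    | zero => simp [List.getElem?_eq_getElem hj]
    | succ i =>
      rw [List.getElem?_cons_succ, List.getElem?_cons_succ]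
      exact ih hl' i

/-- removing the indices out of range -/
private theorem B1_pick_filter {A : Type} (a : List A) (l : List ℕ) (n : ℕ) (hn : a.length = n) :
    (l.filterMap fun i => a[i]?) = ((l.filter (fun i => decide (i < n))).filterMap
      fun i => a[i]?) := by
  induction l with
  | nil => simp
  | cons j l ih =>
    by_cases hj : j < n
    · rw [List.filter_cons_of_pos (by simpa using hj), List.filterMap_cons, List.filterMap_cons, ih]
    · rw [List.filter_cons_of_neg (by simpa using hj), ← ih, List.filterMap_cons_none]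
      exact List.getElem?_eq_none (by omega)

/-- picking from a picked tuple -/
private theorem B1_pick_pick {A : Type} (a : List A) (l : List ℕ) (hl : ∀ i ∈ l, i < a.length)
    (n : ℕ) (hn : a.length = n) (m : List ℕ) :
    (m.filterMap fun i => (l.filterMap fun i => a[i]?)[i]?) =
      ((m.map fun i => (l[i]?).getD n).filterMap fun i => a[i]?) := by
  subst hn
  rw [List.filterMap_map]
  congr 1
  funext i
  exact B1_pick_get a l hl i

private theorem B1_pick_length {A : Type} (a : List A) (l : List ℕ) (hl : ∀ i ∈ l, i < a.length) :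
    (l.filterMap fun i => a[i]?).length = l.length := by
  induction l with
  | nil => simp
  | cons j l ih =>
    have hj : j < a.length := hl j (by simp)
    have hl' : ∀ i ∈ l, i < a.length := fun i hi => hl i (by simp [hi])
    have e : (List.filterMap (fun i => a[i]?) (j :: l)) =
        a[j] :: List.filterMap (fun i => a[i]?) l := by
      rw [List.filterMap_cons_some]
      exact List.getElem?_eq_getElem hj
    rw [e, List.length_cons, List.length_cons, ih hl']

private theorem B1_pick_append {A : Type} (a : List A) (c : A) (l : List ℕ)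
    (hl : ∀ i ∈ l, i < a.length) (n : ℕ) (hn : a.length = n) :
    ((l ++ [n]).filterMap fun i => (a ++ [c])[i]?) = (l.filterMap fun i => a[i]?) ++ [c] := by
  subst hn
  rw [List.filterMap_append]
  congr 1
  · apply List.filterMap_congr
    intro i hi
    exact List.getElem?_append_left (hl i hi)
  · simp

private theorem B1_sub_aux (h : BF M N α a b) (l : List ℕ) (hl : ∀ i ∈ l, i < a.length) :
    BF M N α (l.filterMap fun i => a[i]?) (l.filterMap fun i => b[i]?) := by
  induction α using WellFoundedLT.induction generalizing a b l with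
  | ind α ih =>
    have hab := bf_length h
    have hlb : ∀ i ∈ l, i < b.length := fun i hi => hab ▸ hl i hi
    rw [bf_iff] at h ⊢
    obtain ⟨⟨h1, h2, h3⟩, h4⟩ := h
    refine ⟨⟨?_, fun i j => ?_, fun k m => ?_⟩, fun β hβ => ⟨fun c => ?_, fun d => ?_⟩⟩
    · rw [B1_pick_length a l hl, B1_pick_length b l hlb]
    · rw [B1_pick_get a l hl, B1_pick_get a l hl, B1_pick_get b l hlb, B1_pick_get b l hlb, ← hab]
      exact h2 _ _
    · rw [B1_pick_pick a l hl _ rfl, B1_pick_pick b l hlb _ hab.symm]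
      exact h3 k _
    · obtain ⟨d, hd⟩ := (h4 β hβ).1 c
      refine ⟨d, ?_⟩
      have := ih β hβ hd (l ++ [a.length]) (by
        intro i hi
        rw [List.mem_append, List.mem_singleton] at hi
        rw [List.length_append, List.length_singleton]
        rcases hi with hi | hi
        · have := hl i hi
          omega
        · omega)
      rwa [B1_pick_append a c l hl _ rfl, B1_pick_append b d l hlb _ hab.symm] at this
    · obtain ⟨c, hc⟩ := (h4 β hβ).2 d
      refine ⟨c, ?_⟩
      have := ih β hβ hc (l ++ [a.length]) (by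
        intro i hi
        rw [List.mem_append, List.mem_singleton] at hi
        rw [List.length_append, List.length_singleton]
        rcases hi with hi | hi
        · have := hl i hi
          omega
        · omega)
      rwa [B1_pick_append a c l hl _ rfl, B1_pick_append b d l hlb _ hab.symm] at this

theorem bf_sub (l : List ℕ) (h : BF M N α a b) :
    BF M N α (l.filterMap fun i => a[i]?) (l.filterMap fun i => b[i]?) := by
  have hab := bf_length h
  rw [B1_pick_filter a l a.length rfl, B1_pick_filter b l a.length hab.symm]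
  apply B1_sub_aux h
  intro i hi
  simpa using (List.mem_filter.1 hi).2

/-- parts of a concatenation -/
theorem bf_append_left {a' : List A} {b' : List B} (hl : a.length = b.length)
    (h : BF M N α (a ++ a') (b ++ b')) : BF M N α a b := by
  have key : ∀ {D : Type} (s s' : List D) (n : ℕ), s.length = n →
      ((List.range n).filterMap fun i => (s ++ s')[i]?) = s := by
    intro D s s' n hn
    subst hn
    apply List.ext_getElem?
    intro i
    rw [B1_pick_get]
    · by_cases hi : i < s.length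
      · rw [List.getElem?_range hi, Option.getD_some, List.getElem?_append_left hi]
      · rw [List.getElem?_eq_none (l := List.range s.length) (by simpa using hi), Option.getD_none,
          List.getElem?_eq_none (le_refl _), List.getElem?_eq_none (by omega)]
    · intro i hi
      rw [List.mem_range] at hi
      rw [List.length_append]
      omega
  have := bf_sub (List.range a.length) h
  rwa [key a a' _ rfl, key b b' _ hl.symm] at this

theorem bf_append_right {a' : List A} {b' : List B} (hl : a.length = b.length)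
    (h : BF M N α (a ++ a') (b ++ b')) : BF M N α a' b' := by
  have hl' : a'.length = b'.length := by
    have := bf_length h
    rw [List.length_append, List.length_append] at this
    omega
  have key : ∀ {D : Type} (s s' : List D) (n m : ℕ), s.length = n → s'.length = m →
      (((List.range m).map (fun i => n + i)).filterMap fun i => (s ++ s')[i]?) = s' := by
    intro D s s' n m hn hm
    subst hn hm
    apply List.ext_getElem?
    intro i
    rw [B1_pick_get]
    · by_cases hi : i < s'.length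
      · rw [List.getElem?_map, List.getElem?_range hi, Option.map_some, Option.getD_some,
          List.getElem?_append_right (by omega), Nat.add_sub_cancel_left]
      · rw [List.getElem?_eq_none (l := (List.range s'.length).map _) (by simpa using hi),
          Option.getD_none,
          List.getElem?_eq_none (le_refl _), List.getElem?_eq_none (by omega)]
    · intro i hi
      rw [List.mem_map] at hi
      obtain ⟨j, hj, rfl⟩ := hi
      rw [List.mem_range] at hj
      rw [List.length_append]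
      omega
  have := bf_sub ((List.range a'.length).map (fun i => a.length + i)) h
  rwa [key a a' _ _ rfl rfl, key b b' _ _ hl.symm hl'.symm] at this

private theorem B1_sr_aux {f : A ≃ B} (hf : IsIso M N f) (α : Ordinal.{0})
    (h : ∀ a b : List A, BF M M α a b → ∃ f : A ≃ A, IsIso M M f ∧ a.map f = b) :
    ∀ a b : List B, BF N N α a b → ∃ f : B ≃ B, IsIso N N f ∧ a.map f = b := by
  intro a b hab
  have hf' := isIso_symm hf
  have e1 : BF M N α (a.map f.symm) a := bf_symm (bf_iso hf' α a)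
  have e2 : BF N M α b (b.map f.symm) := bf_iso hf' α b
  obtain ⟨g, hg, hgab⟩ := h _ _ (bf_trans e1 (bf_trans hab e2))
  refine ⟨f.symm.trans (g.trans f), isIso_trans hf' (isIso_trans hg hf), ?_⟩
  have : a.map (f.symm.trans (g.trans f)) = ((a.map f.symm).map g).map f := by
    simp
  rw [this, hgab]
  simp

theorem sr_iso {f : A ≃ B} (hf : IsIso M N f) : SR M = SR N := by
  unfold SR
  congr 1
  ext α
  exact ⟨fun h => B1_sr_aux hf α h, fun h => B1_sr_aux (isIso_symm hf) α h⟩

/-- `SR M` has its defining property as soon as some ordinal has it -/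
theorem sr_spec (h : ∃ α, ∀ a b : List A, BF M M α a b → ∃ f : A ≃ A, IsIso M M f ∧ a.map f = b) :
    ∀ a b : List A, BF M M (SR M) a b → ∃ f : A ≃ A, IsIso M M f ∧ a.map f = b :=
  csInf_mem (s := {α | ∀ a b : List A, BF M M α a b → ∃ f : A ≃ A, IsIso M M f ∧ a.map f = b}) h

end BW
end

section

/-!
# BW.B2 : back-and-forth systems give isomorphisms

PROOF.  Let `A`, `B` be countable.  If `A` is empty, then `B` is empty by `back` and the lists are
empty; similarly for `B`.  Otherwise let `e : ℕ → A`, `e' : ℕ → B` be surjective.  Starting with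
`(a, b)`, build longer and longer pairs of lists in `Z`: at even steps append `e n` to the first list
(and an answer to the second one), at odd steps append `e' n` to the second list.  The union of the
graphs `{(a_n[i], b_n[i])}` is the graph of a bijection by the equality clause of `AtEq`, and an
isomorphism by the relation clause: for a list `l` of elements of `A` take `n` so large that all of
them occur in `a_n`, at the positions `i₁, i₂, ..`; then `l` is the tuple picked by this list of
positions.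
-/

namespace BW

theorem iso_of_system {A B : Type} [Countable A] [Countable B] {M : Str A} {N : Str B}
    (Z : List A → List B → Prop) (hat : ∀ a b, Z a b → AtEq M N a b)
    (forth : ∀ a b, Z a b → ∀ c, ∃ d, Z (a ++ [c]) (b ++ [d]))
    (back : ∀ a b, Z a b → ∀ d, ∃ c, Z (a ++ [c]) (b ++ [d])) {a : List A} {b : List B}
    (h : Z a b) : ∃ f : A ≃ B, IsIso M N f ∧ a.map f = b := by
  classical
  obtain ⟨eA, heA⟩ := Countable.exists_injective_nat A
  obtain ⟨eB, heB⟩ := Countable.exists_injective_nat B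
  have step : ∀ (n : ℕ) (p : {p : List A × List B // Z p.1 p.2}),
      ∃ q : {p : List A × List B // Z p.1 p.2}, p.1.1 <+: q.1.1 ∧ p.1.2 <+: q.1.2 ∧
        (∀ c, eA c = n → c ∈ q.1.1) ∧ (∀ d, eB d = n → d ∈ q.1.2) := by
    rintro n ⟨⟨a, b⟩, hab⟩
    obtain ⟨a', b', hab', h1, h2, h3⟩ : ∃ a' b', Z a' b' ∧ a <+: a' ∧ b <+: b' ∧
        ∀ c, eA c = n → c ∈ a' := by
      by_cases hc : ∃ c, eA c = n
      · obtain ⟨c, hc⟩ := hc
        obtain ⟨d, hd⟩ := forth a b hab c
        refine ⟨a ++ [c], b ++ [d], hd, List.prefix_append _ _, List.prefix_append _ _, ?_⟩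
        intro c' hc'
        have : c' = c := heA (hc'.trans hc.symm)
        simp [this]
      · exact ⟨a, b, hab, List.prefix_rfl, List.prefix_rfl, fun c hc' => absurd ⟨c, hc'⟩ hc⟩
    by_cases hd : ∃ d, eB d = n
    · obtain ⟨d, hd⟩ := hd
      obtain ⟨c, hc⟩ := back a' b' hab' d
      refine ⟨⟨(a' ++ [c], b' ++ [d]), hc⟩, h1.trans (List.prefix_append _ _),
        h2.trans (List.prefix_append _ _), fun c' hc' => ?_, fun d' hd' => ?_⟩
      · exact List.mem_append_left _ (h3 c' hc')
      · have : d' = d := heB (hd'.trans hd.symm)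
        simp [this]
    · exact ⟨⟨(a', b'), hab'⟩, h1, h2, h3, fun d hd' => absurd ⟨d, hd'⟩ hd⟩
  choose nxt hn1 hn2 hn3 hn4 using step
  let p : ℕ → {p : List A × List B // Z p.1 p.2} := fun n =>
    Nat.rec ⟨(a, b), h⟩ (fun n q => nxt n q) n
  have hp0 : p 0 = ⟨(a, b), h⟩ := rfl
  have hps : ∀ n, p (n + 1) = nxt n (p n) := fun n => rfl
  have m1 : ∀ n k, (p n).1.1 <+: (p (n + k)).1.1 := by
    intro n k
    induction k with
    | zero => exact List.prefix_rfl
    | succ k ih =>
      refine ih.trans ?_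
      rw [← Nat.add_assoc, hps]
      exact hn1 _ _
  have m2 : ∀ n k, (p n).1.2 <+: (p (n + k)).1.2 := by
    intro n k
    induction k with
    | zero => exact List.prefix_rfl
    | succ k ih =>
      refine ih.trans ?_
      rw [← Nat.add_assoc, hps]
      exact hn2 _ _
  have s1 : ∀ (n m i : ℕ) (c : A), n ≤ m → (p n).1.1[i]? = some c → (p m).1.1[i]? = some c := by
    intro n m i c hnm hc
    obtain ⟨k, rfl⟩ := Nat.exists_eq_add_of_le hnm
    obtain ⟨t, ht⟩ := m1 n k
    rw [← ht, List.getElem?_append_left]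
    · exact hc
    · exact (List.getElem?_eq_some_iff.mp hc).1
  have s2 : ∀ (n m i : ℕ) (c : B), n ≤ m → (p n).1.2[i]? = some c → (p m).1.2[i]? = some c := by
    intro n m i c hnm hc
    obtain ⟨k, rfl⟩ := Nat.exists_eq_add_of_le hnm
    obtain ⟨t, ht⟩ := m2 n k
    rw [← ht, List.getElem?_append_left]
    · exact hc
    · exact (List.getElem?_eq_some_iff.mp hc).1
  have onA : ∀ c : A, c ∈ (p (eA c + 1)).1.1 := fun c => by
    rw [hps]
    exact hn3 _ _ c rfl
  have onB : ∀ d : B, d ∈ (p (eB d + 1)).1.2 := fun d => by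
    rw [hps]
    exact hn4 _ _ d rfl
  -- the graph
  let G : A → B → Prop := fun c d => ∃ (n i : ℕ), (p n).1.1[i]? = some c ∧ (p n).1.2[i]? = some d
  have GA : ∀ c, ∃ d, G c d := by
    intro c
    obtain ⟨i, hi, hic⟩ := List.getElem_of_mem (onA c)
    have hl := (hat _ _ (p (eA c + 1)).2).1
    have hi' : i < (p (eA c + 1)).1.2.length := by rw [← hl]; exact hi
    exact ⟨(p (eA c + 1)).1.2[i], eA c + 1, i, List.getElem?_eq_some_iff.mpr ⟨hi, hic⟩,
      List.getElem?_eq_some_iff.mpr ⟨hi', rfl⟩⟩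
  have GB : ∀ d, ∃ c, G c d := by
    intro d
    obtain ⟨i, hi, hic⟩ := List.getElem_of_mem (onB d)
    have hl := (hat _ _ (p (eB d + 1)).2).1
    have hi' : i < (p (eB d + 1)).1.1.length := by rw [hl]; exact hi
    exact ⟨(p (eB d + 1)).1.1[i], eB d + 1, i, List.getElem?_eq_some_iff.mpr ⟨hi', rfl⟩,
      List.getElem?_eq_some_iff.mpr ⟨hi, hic⟩⟩
  have Gu : ∀ c d c' d', G c d → G c' d' → (c = c' ↔ d = d') := by
    rintro c d c' d' ⟨n, i, h1, h2⟩ ⟨n', i', h3, h4⟩
    have e1 := s1 n (max n n') i c (le_max_left _ _) h1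
    have e2 := s2 n (max n n') i d (le_max_left _ _) h2
    have e3 := s1 n' (max n n') i' c' (le_max_right _ _) h3
    have e4 := s2 n' (max n n') i' d' (le_max_right _ _) h4
    have e5 := (hat _ _ (p (max n n')).2).2.1 i i'
    rw [e1, e2, e3, e4] at e5
    simpa using e5
  choose F hF using GA
  have hbij : Function.Bijective F := by
    constructor
    · intro c c' hcc
      exact (Gu c (F c) c' (F c') (hF c) (hF c')).mpr hcc
    · intro d
      obtain ⟨c, hc⟩ := GB d
      exact ⟨c, (Gu c (F c) c d (hF c) hc).mp rfl⟩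
  have key : ∀ (n i : ℕ) (c : A), (p n).1.1[i]? = some c → (p n).1.2[i]? = some (F c) := by
    intro n i c hc
    have hl := (hat _ _ (p n).2).1
    have hi := (List.getElem?_eq_some_iff.mp hc).1
    have hi' : i < (p n).1.2.length := by rw [← hl]; exact hi
    have e1 : (p n).1.2[i]? = some ((p n).1.2[i]) := List.getElem?_eq_some_iff.mpr ⟨hi', rfl⟩
    have e2 : G c ((p n).1.2[i]) := ⟨n, i, hc, e1⟩
    have e3 := (Gu c (F c) c _ (hF c) e2).mp rfl
    rw [e1, e3]
  have monA : ∀ (n m : ℕ) (c : A), n ≤ m → c ∈ (p n).1.1 → c ∈ (p m).1.1 := by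
    intro n m c hnm hc
    obtain ⟨k, rfl⟩ := Nat.exists_eq_add_of_le hnm
    exact (m1 n k).subset hc
  have fin : ∀ l : List A, ∃ n, ∀ c ∈ l, c ∈ (p n).1.1 := by
    intro l
    induction l with
    | nil => exact ⟨0, fun c hc => by simp at hc⟩
    | cons c l ih =>
      obtain ⟨n, hn⟩ := ih
      refine ⟨max n (eA c + 1), fun c' hc' => ?_⟩
      rcases List.mem_cons.mp hc' with rfl | hc'
      · exact monA _ _ _ (le_max_right _ _) (onA c')
      · exact monA _ _ _ (le_max_left _ _) (hn c' hc')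
  have pick : ∀ (n : ℕ) (l : List A), (∀ c ∈ l, c ∈ (p n).1.1) → ∃ L : List ℕ,
      L.filterMap (fun i => (p n).1.1[i]?) = l ∧ L.filterMap (fun i => (p n).1.2[i]?) = l.map F := by
    intro n l
    induction l with
    | nil => exact fun _ => ⟨[], rfl, rfl⟩
    | cons c l ih =>
      intro hl
      obtain ⟨L, hL1, hL2⟩ := ih (fun c' hc' => hl c' (List.mem_cons_of_mem _ hc'))
      obtain ⟨i, hi, hic⟩ := List.getElem_of_mem (hl c List.mem_cons_self)
      have e1 : (p n).1.1[i]? = some c := List.getElem?_eq_some_iff.mpr ⟨hi, hic⟩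
      have e2 := key n i c e1
      refine ⟨i :: L, ?_, ?_⟩
      · rw [List.filterMap_cons_some e1, hL1]
      · rw [List.filterMap_cons_some e2, hL2]
        rfl
  refine ⟨Equiv.ofBijective F hbij, ?_, ?_⟩
  · intro k l
    obtain ⟨n, hn⟩ := fin l
    obtain ⟨L, hL1, hL2⟩ := pick n l hn
    have e := (hat _ _ (p n).2).2.2 k L
    rw [hL1, hL2] at e
    exact e
  · apply List.ext_getElem?
    intro i
    rw [List.getElem?_map]
    have hl := (hat _ _ h).1
    rcases hai : a[i]? with _ | c
    · have hi : a.length ≤ i := List.getElem?_eq_none_iff.mp hai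
      have hi' : b.length ≤ i := by rw [← hl]; exact hi
      rw [List.getElem?_eq_none_iff.mpr hi']
      rfl
    · have e := key 0 i c hai
      exact e.symm

end BW
end

section

/-!
# BW.Fm3 : coded back-and-forth systems (definitions)
-/

namespace BW

open Encodable

/-- the lists `s` over `dom y₁` and `t` over `dom y₂` satisfy the same atomic formulas in the
structures coded by `y₁` and `y₂` -/
def AtC (y₁ y₂ : ℕ → ℕ) (s t : List ℕ) : Prop :=
  s.length = t.length ∧ (∀ i j : ℕ, s[i]? = s[j]? ↔ t[i]? = t[j]?) ∧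
    ∀ (k : ℕ) (l : List ℕ),
      y₁ (Nat.pair (k + 1) (encode (l.filterMap fun i => s[i]?))) = 1 ↔
        y₂ (Nat.pair (k + 1) (encode (l.filterMap fun i => t[i]?))) = 1

/-- codes of triples -/
def tr (u : ℕ) (s t : List ℕ) : ℕ := Nat.pair u (Nat.pair (encode s) (encode t))

/-- the real `Z` is the back-and-forth system of the coded structures along the relation `R` -/
def BSys (y₁ y₂ Z : ℕ → ℕ) (R : ℕ → ℕ → Prop) : Prop :=
  ∀ u s t, R u u → (Z (tr u s t) = 1 ↔
    (∀ a ∈ s, dom y₁ a) ∧ (∀ b ∈ t, dom y₂ b) ∧ AtC y₁ y₂ s t ∧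
      ∀ u', strict R u' u →
        (∀ c, dom y₁ c → ∃ d, dom y₂ d ∧ Z (tr u' (s ++ [c]) (t ++ [d])) = 1) ∧
          ∀ d, dom y₂ d → ∃ c, dom y₁ c ∧ Z (tr u' (s ++ [c]) (t ++ [d])) = 1)

end BW
end

section

/-!
# BW.Defs2 : more definitions (isomorphisms and embeddings of orders, approximations)
-/

namespace BW

/-- the relations `R` and `S` are isomorphic (as orders of their fields) -/
def IsoR (R S : ℕ → ℕ → Prop) : Prop :=
  ∃ h : ℕ → ℕ, (∀ a, R a a → S (h a) (h a)) ∧
    (∀ a b, R a a → R b b → (R a b ↔ S (h a) (h b))) ∧ ∀ b, S b b → ∃ a, R a a ∧ h a = b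

/-- there is a strictly monotone map of the field of `R` into the field of `S` -/
def EmbR (R S : ℕ → ℕ → Prop) : Prop :=
  ∃ h : ℕ → ℕ, (∀ a, R a a → S (h a) (h a)) ∧ ∀ a b, strict R a b → strict S (h a) (h b)

/-- partial functions with a monotone primitive recursive approximation along the oracle `x` -/
def Apx (x : ℕ → ℕ) (f : ℕ →. ℕ) : Prop :=
  ∃ g : ℕ → List ℕ → Option ℕ, Primrec₂ g ∧
    (∀ n s t y, g n s = some y → g n (s ++ t) = some y) ∧
    ∀ n m, m ∈ f n ↔ ∃ k, g n (pre x k) = some m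

/-- `T` is closed under prefixes -/
def Pfx (T : List ℕ → Prop) : Prop := ∀ s t, T (s ++ t) → T s

/-- the initial segment of `R` strictly below `c` -/
def seg (R : ℕ → ℕ → Prop) (c : ℕ) (a b : ℕ) : Prop := R a b ∧ strict R b c

end BW
end

section

/-!
# BW.O1 : order types of relations

PROOFS.  All by elementary manipulation of the functions `f : ℕ → Ordinal` of `HasType`.
* `hasType_unique` : by well-founded induction the two isomorphisms agree on the field (each value
  is the least ordinal above the values below), so the images agree; or use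
  `Ordinal.type` of the field and `RelIso`.
* `exists_type` : `f a` = the rank of `a` in the well-founded relation `strict R`
  (`WellFounded.rank`) : for a linear order the ranks are exactly the ordinals below a certain `α`
  (the range of `f` on the field is downward closed: if `β < f a` then, by induction on `a`, some
  `b` below `a` has rank `β`); or use `Ordinal.typein`.
* `hasType_isWO`: the order is linear by assumption, well-founded since `f` is strictly monotone.
* `hasType_iso`, `iso_of_type`: compose.  (`h` is injective on the field because `R a b`, `R b a`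
  imply `f a = f b`.)
* `emb_of_type` : `a ↦` the element of the field of `S` with the same ordinal (outside the field:
  anything).  `wf_of_emb`: `InvImage`.  Note that `strict R a b` implies that `a`, `b` are in the
  field by `IsLin.fld`.
* `le_of_emb` : by induction `f_R a ≤ f_S (h a)`, hence `α ≤ β`.
* `hasType_seg` : take `c` in the field with `f c = β`.
-/

namespace BW

variable {R S : ℕ → ℕ → Prop} {α β : Ordinal.{0}}

private theorem O1_agree_aux {f g : ℕ → Ordinal.{0}}
    (f1 : ∀ a b, R a a → R b b → (R a b ↔ f a ≤ f b))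
    (f2 : ∀ a b, R a a → R b b → f a = f b → a = b)
    (f4 : ∀ γ < α, ∃ a, R a a ∧ f a = γ) (f3 : ∀ a, R a a → f a < α)
    (g1 : ∀ a b, R a a → R b b → (R a b ↔ g a ≤ g b))
    (g2 : ∀ a b, R a a → R b b → g a = g b → a = b)
    (g3 : ∀ a, R a a → g a < β) (g4 : ∀ γ < β, ∃ a, R a a ∧ g a = γ) :
    ∀ γ : Ordinal.{0}, ∀ a, R a a → f a = γ → g a = γ := by
  intro γ
  induction γ using WellFoundedLT.induction with
  | ind γ ih =>
    intro a ha hfa
    have hγα : γ < α := hfa ▸ f3 a ha
    apply le_antisymm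
    · by_contra hlt
      push Not at hlt
      obtain ⟨c, hc, hgc⟩ := g4 γ (hlt.trans (g3 a ha))
      have hca : R c a := (g1 c a hc ha).2 (by rw [hgc]; exact hlt.le)
      have hle : f c ≤ f a := (f1 c a hc ha).1 hca
      have hne : f c ≠ f a := by
        intro h
        have := f2 c a hc ha h
        rw [this] at hgc
        rw [hgc] at hlt
        exact lt_irrefl _ hlt
      have hlt2 : f c < γ := hfa ▸ lt_of_le_of_ne hle hne
      have := ih (f c) hlt2 c hc rfl
      rw [this] at hgc
      rw [hgc] at hlt2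
      exact lt_irrefl _ hlt2
    · apply le_of_forall_lt
      intro δ hδ
      obtain ⟨b, hb, hfb⟩ := f4 δ (hδ.trans hγα)
      have hgb := ih δ hδ b hb hfb
      have hba : R b a := (f1 b a hb ha).2 (by rw [hfb, hfa]; exact hδ.le)
      have hle : g b ≤ g a := (g1 b a hb ha).1 hba
      have hne : g b ≠ g a := by
        intro h
        have := g2 b a hb ha h
        rw [this, hfa] at hfb
        rw [hfb] at hδ
        exact lt_irrefl _ hδ
      rw [← hgb]
      exact lt_of_le_of_ne hle hne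

theorem hasType_unique (h : HasType R α) (h' : HasType R β) : α = β := by
  obtain ⟨f, f1, f2, f3, f4⟩ := h
  obtain ⟨g, g1, g2, g3, g4⟩ := h'
  apply le_antisymm
  · apply le_of_forall_lt
    intro γ hγ
    obtain ⟨a, ha, hfa⟩ := f4 γ hγ
    rw [← O1_agree_aux f1 f2 f4 f3 g1 g2 g3 g4 γ a ha hfa]
    exact g3 a ha
  · apply le_of_forall_lt
    intro γ hγ
    obtain ⟨a, ha, hga⟩ := g4 γ hγ
    rw [← O1_agree_aux g1 g2 g4 g3 f1 f2 f3 f4 γ a ha hga]
    exact f3 a ha

theorem exists_type (h : IsWO R) : ∃ α, HasType R α := by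
  classical
  let F := {a : ℕ // R a a}
  let r : F → F → Prop := fun a b => strict R a.1 b.1
  have : IsWellOrder F r :=
    { trichotomous := by
        intro a b h1 h2
        by_contra hne
        have hne' : a.1 ≠ b.1 := fun h => hne (Subtype.ext h)
        rcases h.total a.1 b.1 a.2 b.2 with hab | hba
        · exact h1 ⟨hab, hne'⟩
        · exact h2 ⟨hba, Ne.symm hne'⟩
      wf := InvImage.wf (fun a : F => a.1) h.wf }
  refine ⟨Ordinal.type r, fun a => if ha : R a a then Ordinal.typein r ⟨a, ha⟩ else 0, ?_, ?_, ?_, ?_⟩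
  · intro a b ha hb
    simp only [ha, hb, dif_pos]
    rw [← not_lt, Ordinal.typein_lt_typein]
    constructor
    · rintro hab ⟨hba, hne⟩
      exact hne (h.antisymm _ _ hba hab)
    · intro hn
      rcases h.total a b ha hb with hab | hba
      · exact hab
      · by_cases hne : b = a
        · subst hne; exact ha
        · exact absurd ⟨hba, hne⟩ hn
  · intro a b ha hb hab
    simp only [ha, hb, dif_pos] at hab
    have := (Ordinal.typein_inj r).1 hab
    exact congrArg Subtype.val this
  · intro a ha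
    simp only [ha, dif_pos]
    exact Ordinal.typein_lt_type r _
  · intro β hβ
    obtain ⟨a, ha⟩ := Ordinal.typein_surj r hβ
    refine ⟨a.1, a.2, ?_⟩
    simp only [a.2, dif_pos]
    exact ha

private theorem O1_strict_lt {f : ℕ → Ordinal.{0}} (hl : IsLin R)
    (f1 : ∀ a b, R a a → R b b → (R a b ↔ f a ≤ f b))
    (f2 : ∀ a b, R a a → R b b → f a = f b → a = b) {a b : ℕ} (h : strict R a b) :
    f a < f b := by
  obtain ⟨hab, hne⟩ := h
  obtain ⟨ha, hb⟩ := hl.fld a b hab
  exact lt_of_le_of_ne ((f1 a b ha hb).1 hab) (fun h => hne (f2 a b ha hb h))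

theorem hasType_isWO (h : IsLin R) (h' : HasType R α) : IsWO R := by
  obtain ⟨f, f1, f2, f3, f4⟩ := h'
  refine { toIsLin := h, wf := ?_ }
  have hsub : Subrelation (strict R) (InvImage (· < ·) f) := by
    intro a b hab
    exact O1_strict_lt h f1 f2 hab
  exact hsub.wf (InvImage.wf f Ordinal.lt_wf)

theorem hasType_iso (h : IsoR R S) (hR : HasType R α) : HasType S α := by
  classical
  obtain ⟨h, h1, h2, h3⟩ := h
  obtain ⟨f, f1, f2, f3, f4⟩ := hR
  have hinj : ∀ a b, R a a → R b b → h a = h b → a = b := by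
    intro a b ha hb hab
    have e1 : R a b := (h2 a b ha hb).2 (by rw [← hab]; exact h1 a ha)
    have e2 : R b a := (h2 b a hb ha).2 (by rw [hab]; exact h1 b hb)
    exact f2 a b ha hb (le_antisymm ((f1 a b ha hb).1 e1) ((f1 b a hb ha).1 e2))
  choose! k hk1 hk2 using h3
  refine ⟨fun b => f (k b), ?_, ?_, ?_, ?_⟩
  · intro a b ha hb
    rw [← f1 (k a) (k b) (hk1 a ha) (hk1 b hb), h2 (k a) (k b) (hk1 a ha) (hk1 b hb), hk2 a ha,
      hk2 b hb]
  · intro a b ha hb hab
    have := f2 _ _ (hk1 a ha) (hk1 b hb) hab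
    rw [← hk2 a ha, ← hk2 b hb, this]
  · intro a ha
    exact f3 _ (hk1 a ha)
  · intro γ hγ
    obtain ⟨a, ha, hfa⟩ := f4 γ hγ
    refine ⟨h a, h1 a ha, ?_⟩
    have : k (h a) = a := hinj _ _ (hk1 _ (h1 a ha)) ha (hk2 _ (h1 a ha))
    simp only [this, hfa]

theorem iso_of_type (hR : HasType R α) (hS : HasType S α) : IsoR R S := by
  classical
  obtain ⟨f, f1, f2, f3, f4⟩ := hR
  obtain ⟨g, g1, g2, g3, g4⟩ := hS
  have hex : ∀ a, R a a → ∃ b, S b b ∧ g b = f a := fun a ha => g4 _ (f3 a ha)
  choose! k hk1 hk2 using hex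
  refine ⟨k, hk1, ?_, ?_⟩
  · intro a b ha hb
    rw [f1 a b ha hb, g1 _ _ (hk1 a ha) (hk1 b hb), hk2 a ha, hk2 b hb]
  · intro b hb
    obtain ⟨a, ha, hfa⟩ := f4 _ (g3 b hb)
    exact ⟨a, ha, g2 _ _ (hk1 a ha) hb (by rw [hk2 a ha, hfa])⟩

theorem emb_of_type (hl : IsLin R) (hR : HasType R α) (hS : HasType S β) (h : α ≤ β) :
    EmbR R S := by
  classical
  obtain ⟨f, f1, f2, f3, f4⟩ := hR
  obtain ⟨g, g1, g2, g3, g4⟩ := hS
  have hex : ∀ a, R a a → ∃ b, S b b ∧ g b = f a := fun a ha => g4 _ ((f3 a ha).trans_le h)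
  choose! k hk1 hk2 using hex
  refine ⟨k, hk1, ?_⟩
  intro a b hab
  have hlt := O1_strict_lt hl f1 f2 hab
  obtain ⟨ha, hb⟩ := hl.fld a b hab.1
  refine ⟨(g1 _ _ (hk1 a ha) (hk1 b hb)).2 (by rw [hk2 a ha, hk2 b hb]; exact hlt.le), ?_⟩
  intro hkk
  rw [← hk2 a ha, ← hk2 b hb, hkk] at hlt
  exact lt_irrefl _ hlt

theorem wf_of_emb (h : EmbR R S) (hS : WellFounded (strict S)) : WellFounded (strict R) := by
  obtain ⟨k, _, hk⟩ := h
  have hsub : Subrelation (strict R) (InvImage (strict S) k) := by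
    intro a b hab
    exact hk a b hab
  exact hsub.wf (InvImage.wf k hS)

theorem le_of_emb (h : EmbR R S) (hl : IsLin R) (hR : HasType R α) (hS : HasType S β) :
    α ≤ β := by
  obtain ⟨k, hk1, hk2⟩ := h
  obtain ⟨f, f1, f2, f3, f4⟩ := hR
  obtain ⟨g, g1, g2, g3, g4⟩ := hS
  have key : ∀ γ : Ordinal.{0}, ∀ a, R a a → f a = γ → f a ≤ g (k a) := by
    intro γ
    induction γ using WellFoundedLT.induction with
    | ind γ ih =>
      intro a ha hfa
      apply le_of_forall_lt
      intro δ hδ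
      obtain ⟨b, hb, hfb⟩ := f4 δ (hδ.trans (f3 a ha))
      have hba : strict R b a := by
        refine ⟨(f1 b a hb ha).2 (by rw [hfb]; exact hδ.le), ?_⟩
        intro h
        rw [← h, hfb] at hδ
        exact lt_irrefl _ hδ
      have h1 : f b ≤ g (k b) := ih δ (hfa ▸ hδ) b hb hfb
      obtain ⟨hS1, hS2⟩ := hk2 b a hba
      have h2 : g (k b) ≤ g (k a) := (g1 _ _ (hk1 b hb) (hk1 a ha)).1 hS1
      have h3 : g (k b) ≠ g (k a) := fun h => hS2 (g2 _ _ (hk1 b hb) (hk1 a ha) h)
      rw [← hfb]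
      exact h1.trans_lt (lt_of_le_of_ne h2 h3)
  apply le_of_forall_lt
  intro γ hγ
  obtain ⟨a, ha, hfa⟩ := f4 γ hγ
  rw [← hfa]
  exact (key γ a ha hfa).trans_lt (g3 _ (hk1 a ha))

private theorem O1_seg {f : ℕ → Ordinal.{0}} (hl : IsLin R)
    (f1 : ∀ a b, R a a → R b b → (R a b ↔ f a ≤ f b))
    (f2 : ∀ a b, R a a → R b b → f a = f b → a = b)
    (f3 : ∀ a, R a a → f a < α) (f4 : ∀ γ < α, ∃ a, R a a ∧ f a = γ) {c : ℕ} (hc : R c c) :
    HasType (seg R c) (f c) := by
  refine ⟨f, ?_, ?_, ?_, ?_⟩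
  · intro a b ha hb
    have hab := f1 a b ha.1 hb.1
    constructor
    · intro h
      exact hab.1 h.1
    · intro h
      exact ⟨hab.2 h, hb.2⟩
  · intro a b ha hb h
    exact f2 a b ha.1 hb.1 h
  · intro a ha
    exact O1_strict_lt hl f1 f2 ha.2
  · intro γ hγ
    obtain ⟨a, ha, hfa⟩ := f4 γ (hγ.trans (f3 c hc))
    refine ⟨a, ⟨ha, (f1 a c ha hc).2 (by rw [hfa]; exact hγ.le), ?_⟩, hfa⟩
    intro h
    rw [h] at hfa
    rw [hfa] at hγ
    exact lt_irrefl _ hγ

theorem hasType_seg (hl : IsLin R) (hR : HasType R α) (h : β < α) :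
    ∃ c, R c c ∧ HasType (seg R c) β := by
  obtain ⟨f, f1, f2, f3, f4⟩ := hR
  obtain ⟨c, hc, hfc⟩ := f4 β h
  refine ⟨c, hc, ?_⟩
  rw [← hfc]
  exact O1_seg hl f1 f2 f3 f4 hc

theorem hasType_seg_lt (hl : IsLin R) (hR : HasType R α) {c : ℕ} (hc : R c c) :
    ∃ β < α, HasType (seg R c) β := by
  obtain ⟨f, f1, f2, f3, f4⟩ := hR
  exact ⟨f c, f3 c hc, O1_seg hl f1 f2 f3 f4 hc⟩

theorem seg_isLin (hl : IsLin R) (c : ℕ) : IsLin (seg R c) where
  fld := by
    rintro a b ⟨hab, hbc, hne⟩
    obtain ⟨ha, hb⟩ := hl.fld a b hab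
    refine ⟨⟨ha, hl.trans _ _ _ hab hbc, ?_⟩, ⟨hb, hbc, hne⟩⟩
    rintro rfl
    exact hne (hl.antisymm _ _ hbc hab)
  antisymm := by
    rintro a b ⟨hab, _⟩ ⟨hba, _⟩
    exact hl.antisymm _ _ hab hba
  trans := by
    rintro a b d ⟨hab, _⟩ ⟨hbd, hdc⟩
    exact ⟨hl.trans _ _ _ hab hbd, hdc⟩
  total := by
    rintro a b ⟨ha, hac⟩ ⟨hb, hbc⟩
    rcases hl.total a b ha hb with h | h
    · exact Or.inl ⟨h, hbc⟩
    · exact Or.inr ⟨h, hac⟩

/-- the types are countable ordinals -/
theorem hasType_countable (h : HasType R α) : α < Ordinal.omega 1 := by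
  obtain ⟨f, f1, f2, f3, f4⟩ := h
  have hsub : Set.Iio α ⊆ Set.range f := by
    intro γ hγ
    obtain ⟨a, _, hfa⟩ := f4 γ hγ
    exact ⟨a, hfa⟩
  have hc : (Set.Iio α).Countable := (Set.countable_range f).mono hsub
  have h1 : Cardinal.mk (Set.Iio α) ≤ Cardinal.aleph0 := hc.le_aleph0
  rw [Cardinal.mk_Iio_ordinal] at h1
  have h2 : α.card ≤ Cardinal.aleph0 := by
    rw [← Cardinal.lift_aleph0.{1, 0}] at h1
    exact Cardinal.lift_le.1 h1
  rw [← Cardinal.ord_aleph, Cardinal.lt_ord]
  exact lt_of_le_of_lt h2 Cardinal.aleph0_lt_aleph_one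

/-- every countable ordinal is the type of a relation on `ℕ` which is a well-order -/
theorem exists_rel_type (h : α < Ordinal.omega 1) : ∃ R, IsWO R ∧ HasType R α := by
  classical
  rw [← Cardinal.ord_aleph, Cardinal.lt_ord] at h
  have h1 : α.card ≤ Cardinal.aleph0 := by
    rw [← Cardinal.succ_aleph0] at h
    exact Order.lt_succ_iff.1 h
  have h2 : Cardinal.mk (Set.Iio α) ≤ Cardinal.aleph0 := by
    rw [Cardinal.mk_Iio_ordinal, ← Cardinal.lift_aleph0.{1, 0}]
    exact Cardinal.lift_le.2 h1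
  have : Countable (Set.Iio α) := Cardinal.mk_le_aleph0_iff.1 h2
  obtain ⟨e, he⟩ := exists_injective_nat (Set.Iio α)
  let Q : ℕ → ℕ → Prop := fun m n => ∃ γ δ : Set.Iio α, e γ = m ∧ e δ = n ∧ γ ≤ δ
  have hQf : ∀ m, Q m m → ∃ γ : Set.Iio α, e γ = m := by
    rintro m ⟨γ, _, h, _⟩
    exact ⟨γ, h⟩
  have hlin : IsLin Q := by
    refine ⟨?_, ?_, ?_, ?_⟩
    · rintro a b ⟨γ, δ, h1, h2, _⟩
      exact ⟨⟨γ, γ, h1, h1, le_rfl⟩, ⟨δ, δ, h2, h2, le_rfl⟩⟩
    · rintro a b ⟨γ, δ, h1, h2, h3⟩ ⟨γ', δ', h1', h2', h3'⟩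
      have e1 : γ' = δ := he (h1'.trans h2.symm)
      have e2 : δ' = γ := he (h2'.trans h1.symm)
      rw [e1, e2] at h3'
      rw [← h1, ← h2, le_antisymm h3 h3']
    · rintro a b c ⟨γ, δ, h1, h2, h3⟩ ⟨γ', δ', h1', h2', h3'⟩
      have e1 : γ' = δ := he (h1'.trans h2.symm)
      rw [e1] at h3'
      exact ⟨γ, δ', h1, h2', h3.trans h3'⟩
    · rintro a b ⟨γ, _, h1, _, _⟩ ⟨γ', _, h1', _, _⟩
      rcases le_total γ γ' with h | h
      · exact Or.inl ⟨γ, γ', h1, h1', h⟩
      · exact Or.inr ⟨γ', γ, h1', h1, h⟩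
  have hty : HasType Q α := by
    have hex : ∀ m : ℕ, ∃ δ : Ordinal.{0}, ∀ γ : Set.Iio α, e γ = m → δ = γ.1 := by
      intro m
      by_cases hm : ∃ γ : Set.Iio α, e γ = m
      · obtain ⟨γ, hγ⟩ := hm
        refine ⟨γ.1, fun γ' hγ' => ?_⟩
        rw [he (hγ.trans hγ'.symm)]
      · exact ⟨0, fun γ hγ => absurd ⟨γ, hγ⟩ hm⟩
    choose f hf using hex
    refine ⟨f, ?_, ?_, ?_, ?_⟩
    · intro a b ha hb
      obtain ⟨γ, hγ⟩ := hQf a ha
      obtain ⟨δ, hδ⟩ := hQf b hb
      rw [hf a γ hγ, hf b δ hδ]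
      constructor
      · rintro ⟨γ', δ', h1, h2, h3⟩
        rw [he (hγ.trans h1.symm), he (hδ.trans h2.symm)]
        exact h3
      · intro hle
        exact ⟨γ, δ, hγ, hδ, hle⟩
    · intro a b ha hb hab
      obtain ⟨γ, hγ⟩ := hQf a ha
      obtain ⟨δ, hδ⟩ := hQf b hb
      rw [hf a γ hγ, hf b δ hδ] at hab
      rw [← hγ, ← hδ, Subtype.ext hab]
    · intro a ha
      obtain ⟨γ, hγ⟩ := hQf a ha
      rw [hf a γ hγ]
      exact γ.2
    · intro γ hγ
      refine ⟨e ⟨γ, hγ⟩, ⟨⟨γ, hγ⟩, ⟨γ, hγ⟩, rfl, rfl, le_rfl⟩, ?_⟩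
      exact hf _ ⟨γ, hγ⟩ rfl
  exact ⟨Q, hasType_isWO hlin hty, hty⟩

end BW
end

section

/-!
# BW.B3 : coded back-and-forth systems and the relations `BF`

PROOFS.
* `atC_iff` : for lists of elements of the domains, `AtEq (strOf y₁) (strOf y₂) a b` is
  `AtC y₁ y₂ (a.map val) (b.map val)` (`val` is injective, `List.map_filterMap`,
  `List.getElem?_map`).
* `bsys_iff` : by induction on the ordinal `α` (for all `u`, `a`, `b`): `HasType (seg R u) α`; the ordinals
  `β < α` are exactly the types of the segments below the `u'` with `strict R u' u`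
  (`hasType_seg`, `hasType_seg_lt` for the linear order `seg R u`, whose segments
  `seg (seg R u) u'` are equal to `seg R u'`).  Then compare `BSys` with `bf_iff`.
* `exists_bsys` : `Z (tr u s t) = 1` iff `s`, `t` are lists of elements of the domains and `BF` holds for
  them at the type of `seg R u` (for `u` in the field); it is a system by the same comparison.
* `iso_of_bsys` : let `u 0, u 1, ..` be descending in `strict R`.  The relation
  `Z' a b :⇔ ∃ i, Z (tr (u i) (a.map val) (b.map val)) = 1` satisfies the hypotheses of `iso_of_system`.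
-/

namespace BW

open Encodable

variable {y₁ y₂ Z : ℕ → ℕ} {R : ℕ → ℕ → Prop} {α : Ordinal.{0}}

theorem atC_iff (a : List {n : ℕ // dom y₁ n}) (b : List {n : ℕ // dom y₂ n}) :
    AtEq (strOf y₁) (strOf y₂) a b ↔ AtC y₁ y₂ (a.map Subtype.val) (b.map Subtype.val) := by
  have key : ∀ (y : ℕ → ℕ) (s : List {n : ℕ // dom y n}) (l : List ℕ),
      (l.filterMap fun i => s[i]?).map Subtype.val =
        l.filterMap fun i => (s.map Subtype.val)[i]? := by
    intro y s l
    rw [List.map_filterMap]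
    congr 1
    funext i
    rw [List.getElem?_map]
  have kget : ∀ (y : ℕ → ℕ) (s : List {n : ℕ // dom y n}) (i j : ℕ),
      (s.map Subtype.val)[i]? = (s.map Subtype.val)[j]? ↔ s[i]? = s[j]? := by
    intro y s i j
    rw [List.getElem?_map, List.getElem?_map]
    exact (Option.map_injective Subtype.val_injective).eq_iff
  unfold AtEq AtC
  simp only [List.length_map, kget, strOf, key]

private theorem B3_segseg (hR : IsLin R) {u u' : ℕ} (h : strict R u' u) :
    seg (seg R u) u' = seg R u' := by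
  funext a b
  apply propext
  unfold seg strict
  constructor
  · rintro ⟨⟨h1, h2⟩, ⟨⟨h3, h4⟩, h5⟩⟩
    exact ⟨h1, h3, h5⟩
  · rintro ⟨h1, h2, h3⟩
    refine ⟨⟨h1, hR.trans _ _ _ h2 h.1, ?_⟩, ⟨⟨h2, h.1, h.2⟩, h3⟩⟩
    rintro rfl
    exact h.2 (hR.antisymm _ _ h.1 h2)

private theorem B3_down (hR : IsLin R) {u : ℕ} (hα : HasType (seg R u) α) {β : Ordinal.{0}}
    (hβ : β < α) : ∃ u', strict R u' u ∧ HasType (seg R u') β := by
  obtain ⟨c, hc, hc'⟩ := hasType_seg (seg_isLin hR u) hα hβ
  have hs : strict R c u := hc.2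
  rw [B3_segseg hR hs] at hc'
  exact ⟨c, hs, hc'⟩

private theorem B3_up (hR : IsLin R) {u u' : ℕ} (hα : HasType (seg R u) α)
    (hu : strict R u' u) : ∃ β < α, HasType (seg R u') β := by
  obtain ⟨β, hβ, h⟩ := hasType_seg_lt (seg_isLin hR u) hα (c := u') ⟨(hR.fld _ _ hu.1).1, hu⟩
  rw [B3_segseg hR hu] at h
  exact ⟨β, hβ, h⟩

/-- the comparison of the clauses -/
private theorem B3_step (hR : IsLin R) {u : ℕ} (hα : HasType (seg R u) α)
    (W : ℕ → List ℕ → List ℕ → Prop)
    (hW : ∀ β < α, ∀ u', R u' u' → HasType (seg R u') β →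
      ∀ (a : List {n : ℕ // dom y₁ n}) (b : List {n : ℕ // dom y₂ n}),
        (W u' (a.map Subtype.val) (b.map Subtype.val) ↔ BF (strOf y₁) (strOf y₂) β a b))
    (a : List {n : ℕ // dom y₁ n}) (b : List {n : ℕ // dom y₂ n}) :
    BF (strOf y₁) (strOf y₂) α a b ↔
      ((∀ n ∈ a.map Subtype.val, dom y₁ n) ∧ (∀ n ∈ b.map Subtype.val, dom y₂ n) ∧
        AtC y₁ y₂ (a.map Subtype.val) (b.map Subtype.val) ∧
        ∀ u', strict R u' u →
        (∀ c, dom y₁ c → ∃ d, dom y₂ d ∧
          W u' (a.map Subtype.val ++ [c]) (b.map Subtype.val ++ [d])) ∧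
          ∀ d, dom y₂ d → ∃ c, dom y₁ c ∧
            W u' (a.map Subtype.val ++ [c]) (b.map Subtype.val ++ [d])) := by
  have e : ∀ (y : ℕ → ℕ) (s : List {n : ℕ // dom y n}) (c : {n : ℕ // dom y n}),
      s.map Subtype.val ++ [c.1] = (s ++ [c]).map Subtype.val := by
    intro y s c
    simp
  have hm : ∀ (y : ℕ → ℕ) (s : List {n : ℕ // dom y n}), ∀ n ∈ s.map Subtype.val, dom y n := by
    intro y s n hn
    rw [List.mem_map] at hn
    obtain ⟨m, -, rfl⟩ := hn
    exact m.2
  rw [bf_iff, atC_iff]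
  constructor
  · rintro ⟨h1, h2⟩
    refine ⟨hm _ a, hm _ b, h1, fun u' hu' => ?_⟩
    obtain ⟨β, hβ, ht⟩ := B3_up hR hα hu'
    have hu2 : R u' u' := (hR.fld _ _ hu'.1).1
    refine ⟨fun c hc => ?_, fun d hd => ?_⟩
    · obtain ⟨d, hd⟩ := (h2 β hβ).1 ⟨c, hc⟩
      refine ⟨d.1, d.2, ?_⟩
      rw [e _ b d, e _ a ⟨c, hc⟩]
      exact (hW β hβ u' hu2 ht _ _).2 hd
    · obtain ⟨c, hc⟩ := (h2 β hβ).2 ⟨d, hd⟩
      refine ⟨c.1, c.2, ?_⟩
      rw [e _ a c, e _ b ⟨d, hd⟩]
      exact (hW β hβ u' hu2 ht _ _).2 hc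
  · rintro ⟨-, -, h1, h2⟩
    refine ⟨h1, fun β hβ => ?_⟩
    obtain ⟨u', hu', ht⟩ := B3_down hR hα hβ
    have hu2 : R u' u' := (hR.fld _ _ hu'.1).1
    refine ⟨fun c => ?_, fun d => ?_⟩
    · obtain ⟨d, hd, hd'⟩ := (h2 u' hu').1 c.1 c.2
      refine ⟨⟨d, hd⟩, ?_⟩
      rw [e _ b ⟨d, hd⟩, e _ a c] at hd'
      exact (hW β hβ u' hu2 ht _ _).1 hd'
    · obtain ⟨c, hc, hc'⟩ := (h2 u' hu').2 d.1 d.2
      refine ⟨⟨c, hc⟩, ?_⟩
      rw [e _ a ⟨c, hc⟩, e _ b d] at hc'
      exact (hW β hβ u' hu2 ht _ _).1 hc'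

theorem bsys_iff (hR : IsWO R) (hZ : BSys y₁ y₂ Z R) {u : ℕ} (hu : R u u)
    (hα : HasType (seg R u) α) (a : List {n : ℕ // dom y₁ n}) (b : List {n : ℕ // dom y₂ n}) :
    Z (tr u (a.map Subtype.val) (b.map Subtype.val)) = 1 ↔ BF (strOf y₁) (strOf y₂) α a b := by
  induction α using WellFoundedLT.induction generalizing u a b with
  | ind α ih =>
    rw [B3_step hR.toIsLin hα (fun u s t => Z (tr u s t) = 1)
      (fun β hβ u' hu' ht a b => ih β hβ hu' ht a b) a b]
    exact hZ u _ _ hu

private theorem B3_seg_isWO (hR : IsWO R) (u : ℕ) : IsWO (seg R u) := by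
  refine ⟨seg_isLin hR.toIsLin u, ?_⟩
  have : Subrelation (strict (seg R u)) (strict R) := by
    intro a b h
    exact ⟨h.1.1, h.2⟩
  exact this.wf hR.wf

theorem exists_bsys (y₁ y₂ : ℕ → ℕ) (hR : IsWO R) : ∃ Z, BSys y₁ y₂ Z R := by
  classical
  choose ty hty using fun u => exists_type (B3_seg_isWO hR u)
  let W : ℕ → List ℕ → List ℕ → Prop := fun u s t =>
    ∃ (a : List {n : ℕ // dom y₁ n}) (b : List {n : ℕ // dom y₂ n}),
      s = a.map Subtype.val ∧ t = b.map Subtype.val ∧ BF (strOf y₁) (strOf y₂) (ty u) a b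
  have hWW : ∀ u (a : List {n : ℕ // dom y₁ n}) (b : List {n : ℕ // dom y₂ n}),
      W u (a.map Subtype.val) (b.map Subtype.val) ↔ BF (strOf y₁) (strOf y₂) (ty u) a b := by
    intro u a b
    constructor
    · rintro ⟨a', b', h1, h2, h3⟩
      have e1 := List.map_injective_iff.2 Subtype.val_injective h1
      have e2 := List.map_injective_iff.2 Subtype.val_injective h2
      rw [e1, e2]
      exact h3
    · intro h
      exact ⟨a, b, rfl, rfl, h⟩
  let Z : ℕ → ℕ := fun n => if ∃ u s t, n = tr u s t ∧ W u s t then 1 else 0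
  have hZ : ∀ u s t, Z (tr u s t) = 1 ↔ W u s t := by
    intro u s t
    have : (∃ u' s' t', tr u s t = tr u' s' t' ∧ W u' s' t') ↔ W u s t := by
      constructor
      · rintro ⟨u', s', t', h, hW⟩
        unfold tr at h
        rw [Nat.pair_eq_pair, Nat.pair_eq_pair, encode_inj, encode_inj] at h
        obtain ⟨rfl, rfl, rfl⟩ := h
        exact hW
      · intro h
        exact ⟨u, s, t, rfl, h⟩
    show (if ∃ u' s' t', tr u s t = tr u' s' t' ∧ W u' s' t' then 1 else 0) = 1 ↔ _
    rw [← this]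
    by_cases hc : ∃ u' s' t', tr u s t = tr u' s' t' ∧ W u' s' t'
    · simp [hc]
    · simp [hc]
  refine ⟨Z, fun u s t hu => ?_⟩
  simp only [hZ]
  have hW : ∀ β < ty u, ∀ u', R u' u' → HasType (seg R u') β →
      ∀ (a : List {n : ℕ // dom y₁ n}) (b : List {n : ℕ // dom y₂ n}),
        (W u' (a.map Subtype.val) (b.map Subtype.val) ↔ BF (strOf y₁) (strOf y₂) β a b) := by
    intro β _ u' _ ht a b
    rw [hasType_unique ht (hty u')]
    exact hWW u' a b
  constructor
  · rintro ⟨a, b, rfl, rfl, h⟩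
    exact (B3_step hR.toIsLin (hty u) W hW a b).1 h
  · intro h
    have ha : ∃ a : List {n : ℕ // dom y₁ n}, s = a.map Subtype.val := by
      refine ⟨s.attach.map fun x => ⟨x.1, h.1 x.1 x.2⟩, ?_⟩
      rw [List.map_map]
      exact (List.attach_map_subtype_val s).symm
    have hb : ∃ b : List {n : ℕ // dom y₂ n}, t = b.map Subtype.val := by
      refine ⟨t.attach.map fun x => ⟨x.1, h.2.1 x.1 x.2⟩, ?_⟩
      rw [List.map_map]
      exact (List.attach_map_subtype_val t).symm
    obtain ⟨a, rfl⟩ := ha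
    obtain ⟨b, rfl⟩ := hb
    exact ⟨a, b, rfl, rfl, (B3_step hR.toIsLin (hty u) W hW a b).2 h⟩

theorem iso_of_bsys (hR : IsLin R) (hw : ¬ WellFounded (strict R)) (hZ : BSys y₁ y₂ Z R)
    (a : List {n : ℕ // dom y₁ n}) (b : List {n : ℕ // dom y₂ n})
    (h : ∀ u, R u u → Z (tr u (a.map Subtype.val) (b.map Subtype.val)) = 1) :
    ∃ f : {n : ℕ // dom y₁ n} ≃ {n : ℕ // dom y₂ n},
      IsIso (strOf y₁) (strOf y₂) f ∧ a.map f = b := by
  rw [wellFounded_iff_isEmpty_descending_chain, not_isEmpty_iff] at hw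
  obtain ⟨u, hu⟩ := hw
  have hfld : ∀ i, R (u i) (u i) := fun i => (hR.fld _ _ (hu i).1).2
  refine iso_of_system (fun a b => ∃ i, Z (tr (u i) (a.map Subtype.val) (b.map Subtype.val)) = 1)
    ?_ ?_ ?_ ⟨0, h _ (hfld 0)⟩
  · rintro a b ⟨i, hi⟩
    rw [atC_iff]
    exact ((hZ _ _ _ (hfld i)).1 hi).2.2.1
  · rintro a b ⟨i, hi⟩ c
    obtain ⟨d, hd, hd'⟩ := (((hZ _ _ _ (hfld i)).1 hi).2.2.2 _ (hu i)).1 c.1 c.2
    refine ⟨⟨d, hd⟩, i + 1, ?_⟩
    rw [List.map_append, List.map_append]
    exact hd'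
  · rintro a b ⟨i, hi⟩ d
    obtain ⟨c, hc, hc'⟩ := (((hZ _ _ _ (hfld i)).1 hi).2.2.2 _ (hu i)).2 d.1 d.2
    refine ⟨⟨c, hc⟩, i + 1, ?_⟩
    rw [List.map_append, List.map_append]
    exact hc'

end BW
end

section

/-!
# BW.Rc1 : restrictions of reals and the first closure properties of `Rec`

PROOFS.  Everything is direct.  For `Rec G` and `Rec H` with approximations `g`, `h`:
* `rec_subst` : `fun n s => (g n s).bind (fun a => h a s)`; for the value take the maximum of the
  two `k` and use monotonicity (`pre x k' = pre x k ++ _` for `k ≤ k'`);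
* `rec_app` : `fun n s => (g n s).bind (fun a => s[a]?)`; for the value take `k` above the `k` of
  `G n x` and above `G n x`;
* `rec_pair`, `rec_comp₂` : `(g n s).bind fun a => (h n s).map fun b => f a b`.
All are primitive recursive by the closure lemmas of `Primrec` (`Primrec.option_bind`,
`Primrec.option_map`, `Primrec.list_getElem?`).
-/

namespace BW

open Encodable

theorem pre_length (x : ℕ → ℕ) (k : ℕ) : (pre x k).length = k := by
  simp [pre]

theorem pre_getElem (x : ℕ → ℕ) (k i : ℕ) (h : i < (pre x k).length) : (pre x k)[i] = x i := by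
  simp [pre]

theorem pre_getElem? (x : ℕ → ℕ) {k i : ℕ} (h : i < k) : (pre x k)[i]? = some (x i) := by
  have h1 : i < (pre x k).length := by rw [pre_length]; exact h
  rw [List.getElem?_eq_getElem h1, pre_getElem]

theorem pre_succ (x : ℕ → ℕ) (k : ℕ) : pre x (k + 1) = pre x k ++ [x k] := by
  simp [pre, List.range_succ]

theorem pre_take (x : ℕ → ℕ) {j k : ℕ} (h : j ≤ k) : (pre x k).take j = pre x j := by
  apply List.ext_getElem
  · rw [List.length_take, pre_length, pre_length]
    omega
  · intro i h1 h2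
    rw [List.getElem_take, pre_getElem, pre_getElem]

theorem pre_append (x : ℕ → ℕ) {j k : ℕ} (h : j ≤ k) : ∃ t, pre x k = pre x j ++ t := by
  exact ⟨(pre x k).drop j, by rw [← pre_take x h, List.take_append_drop]⟩

theorem pre_congr {x y : ℕ → ℕ} {k : ℕ} (h : ∀ i < k, x i = y i) : pre x k = pre y k := by
  apply List.map_congr_left
  intro i hi
  exact h i (List.mem_range.1 hi)

theorem eq_of_pre {x y : ℕ → ℕ} {k : ℕ} (h : pre x k = pre y k) : ∀ i < k, x i = y i := by
  intro i hi
  have h1 := pre_getElem? x hi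
  rw [h, pre_getElem? y hi] at h1
  exact (Option.some.inj h1).symm

/-- every list is a restriction of a real -/
theorem exists_pre (s : List ℕ) : ∃ x : ℕ → ℕ, pre x s.length = s := by
  refine ⟨fun i => s.getD i 0, ?_⟩
  apply List.ext_getElem
  · rw [pre_length]
  · intro i h1 h2
    rw [pre_getElem, List.getD_eq_getElem _ _ h2]

theorem p1_jn (x y : ℕ → ℕ) : p1 (jn x y) = x := by
  funext k
  simp [p1, jn]

theorem p2_jn (x y : ℕ → ℕ) : p2 (jn x y) = y := by
  funext k
  simp [p2, jn]

theorem jn_p (x : ℕ → ℕ) : jn (p1 x) (p2 x) = x := by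
  funext k
  simp [p1, p2, jn]

theorem dl_encode (l : List ℕ) : dl (encode l) = l := by
  simp [dl]

theorem encode_dl (q : ℕ) : encode (dl q) = q := by
  unfold dl
  rw [Denumerable.decode_eq_ofNat, Option.getD_some, Denumerable.encode_ofNat]

theorem primrec_dl : Primrec dl := by
  exact Primrec.option_getD.comp Primrec.decode (Primrec.const [])

/-- the value found by a monotone approximation is the right one -/
theorem rec_unique {g : List ℕ → Option ℕ} {v : ℕ} {x : ℕ → ℕ}
    (hm : ∀ s t y, g s = some y → g (s ++ t) = some y)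
    (hv : ∃ k, g (pre x k) = some v) {k y : ℕ} (h : g (pre x k) = some y) : y = v := by
  obtain ⟨k₀, hk₀⟩ := hv
  rcases le_total k k₀ with hle | hle
  · obtain ⟨t, ht⟩ := pre_append x hle
    have h1 := hm _ t _ h
    rw [← ht, hk₀] at h1
    exact (Option.some.inj h1).symm
  · obtain ⟨t, ht⟩ := pre_append x hle
    have h1 := hm _ t _ hk₀
    rw [← ht, h] at h1
    exact Option.some.inj h1

theorem rec_const (c : ℕ) : Rec (fun _ _ => c) := by
  exact ⟨fun _ _ => some c, Primrec₂.const _, fun _ _ _ _ h => h, fun _ _ => ⟨0, rfl⟩⟩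

theorem rec_id : Rec (fun n _ => n) := by
  exact ⟨fun n _ => some n, Primrec.option_some.comp Primrec.fst, fun _ _ _ _ h => h,
    fun _ _ => ⟨0, rfl⟩⟩

theorem rec_comp {f : ℕ → ℕ} {G : ℕ → (ℕ → ℕ) → ℕ} (hf : Primrec f) (hG : Rec G) :
    Rec (fun n x => f (G n x)) := by
  obtain ⟨g, h1, h2, h3⟩ := hG
  refine ⟨fun n s => (g n s).map f, Primrec.option_map h1 (hf.comp Primrec.snd).to₂, ?_, ?_⟩
  · intro n s t y h
    rw [Option.map_eq_some_iff] at h ⊢
    obtain ⟨a, ha, hb⟩ := h
    exact ⟨a, h2 n s t a ha, hb⟩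
  · intro n x
    obtain ⟨k, hk⟩ := h3 n x
    exact ⟨k, by simp only [hk, Option.map_some]⟩

theorem rec_comp₂ {f : ℕ → ℕ → ℕ} {G H : ℕ → (ℕ → ℕ) → ℕ} (hf : Primrec₂ f) (hG : Rec G)
    (hH : Rec H) : Rec (fun n x => f (G n x) (H n x)) := by
  obtain ⟨g, h1, h2, h3⟩ := hG
  obtain ⟨h, k1, k2, k3⟩ := hH
  refine ⟨fun n s => (g n s).bind fun a => (h n s).map fun b => f a b, ?_, ?_, ?_⟩
  · refine Primrec.option_bind h1 ?_
    refine Primrec.option_map (k1.comp₂ (Primrec.fst.comp Primrec.fst).to₂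
      (Primrec.snd.comp Primrec.fst).to₂) ?_
    exact hf.comp (Primrec.snd.comp Primrec.fst) Primrec.snd
  · intro n s t y hy
    simp only [Option.bind_eq_some_iff, Option.map_eq_some_iff] at hy ⊢
    obtain ⟨a, ha, b, hb, hab⟩ := hy
    exact ⟨a, h2 n s t a ha, b, k2 n s t b hb, hab⟩
  · intro n x
    obtain ⟨k, hk⟩ := h3 n x
    obtain ⟨l, hl⟩ := k3 n x
    obtain ⟨t, ht⟩ := pre_append x (le_max_left k l)
    obtain ⟨u, hu⟩ := pre_append x (le_max_right k l)
    refine ⟨max k l, ?_⟩
    have e1 : g n (pre x (max k l)) = some (G n x) := by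
      rw [ht]
      exact h2 _ _ _ _ hk
    have e2 : h n (pre x (max k l)) = some (H n x) := by
      rw [hu]
      exact k2 _ _ _ _ hl
    simp only [e1, e2, Option.bind_some, Option.map_some]

theorem rec_pair {G H : ℕ → (ℕ → ℕ) → ℕ} (hG : Rec G) (hH : Rec H) :
    Rec (fun n x => Nat.pair (G n x) (H n x)) := by
  exact rec_comp₂ Primrec₂.natPair hG hH

theorem rec_fst {G : ℕ → (ℕ → ℕ) → ℕ} (hG : Rec G) : Rec (fun n x => (Nat.unpair (G n x)).1) := by
  exact rec_comp (f := fun a => (Nat.unpair a).1) (Primrec.fst.comp Primrec.unpair) hG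

theorem rec_snd {G : ℕ → (ℕ → ℕ) → ℕ} (hG : Rec G) : Rec (fun n x => (Nat.unpair (G n x)).2) := by
  exact rec_comp (f := fun a => (Nat.unpair a).2) (Primrec.snd.comp Primrec.unpair) hG

/-- any primitive recursive function of the number argument -/
theorem rec_of_primrec {f : ℕ → ℕ} (hf : Primrec f) : Rec (fun n _ => f n) := by
  exact rec_comp hf rec_id

/-- evaluation of the oracle -/
theorem rec_app {G : ℕ → (ℕ → ℕ) → ℕ} (hG : Rec G) : Rec (fun n x => x (G n x)) := by
  obtain ⟨g, h1, h2, h3⟩ := hG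
  refine ⟨fun n s => (g n s).bind fun a => s[a]?, ?_, ?_, ?_⟩
  · refine Primrec.option_bind h1 ?_
    exact Primrec.list_getElem?.comp (Primrec.snd.comp Primrec.fst) Primrec.snd
  · intro n s t y hy
    simp only [Option.bind_eq_some_iff] at hy ⊢
    obtain ⟨a, ha, hb⟩ := hy
    refine ⟨a, h2 n s t a ha, ?_⟩
    obtain ⟨hlt, _⟩ := List.getElem?_eq_some_iff.1 hb
    rw [List.getElem?_append_left hlt]
    exact hb
  · intro n x
    obtain ⟨k, hk⟩ := h3 n x
    obtain ⟨t, ht⟩ := pre_append x (le_max_left k (G n x + 1))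
    refine ⟨max k (G n x + 1), ?_⟩
    have e1 : g n (pre x (max k (G n x + 1))) = some (G n x) := by
      rw [ht]
      exact h2 _ _ _ _ hk
    simp only [e1, Option.bind_some]
    exact pre_getElem? x (lt_of_lt_of_le (Nat.lt_succ_self _) (le_max_right _ _))

/-- substitution for the number argument -/
theorem rec_subst {H G : ℕ → (ℕ → ℕ) → ℕ} (hH : Rec H) (hG : Rec G) :
    Rec (fun n x => H (G n x) x) := by
  obtain ⟨h, k1, k2, k3⟩ := hH
  obtain ⟨g, h1, h2, h3⟩ := hG
  refine ⟨fun n s => (g n s).bind fun a => h a s, ?_, ?_, ?_⟩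
  · refine Primrec.option_bind h1 ?_
    exact k1.comp Primrec.snd (Primrec.snd.comp Primrec.fst)
  · intro n s t y hy
    simp only [Option.bind_eq_some_iff] at hy ⊢
    obtain ⟨a, ha, hb⟩ := hy
    exact ⟨a, h2 n s t a ha, k2 a s t y hb⟩
  · intro n x
    obtain ⟨k, hk⟩ := h3 n x
    obtain ⟨l, hl⟩ := k3 (G n x) x
    obtain ⟨t, ht⟩ := pre_append x (le_max_left k l)
    obtain ⟨u, hu⟩ := pre_append x (le_max_right k l)
    refine ⟨max k l, ?_⟩
    have e1 : g n (pre x (max k l)) = some (G n x) := by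
      rw [ht]
      exact h2 _ _ _ _ hk
    have e2 : h (G n x) (pre x (max k l)) = some (H (G n x) x) := by
      rw [hu]
      exact k2 _ _ _ _ hl
    simp only [e1, Option.bind_some, e2]

end BW
end

section

/-!
# BW.G0 : functions recursive in `x` have monotone approximations

PROOF.  Induction on `Nat.RecursiveIn`.  `zero`, `succ`, `left`, `right`: constant approximations.
`oracle`: `g n s = s[n]?`.  `pair`: both are defined.  `comp`: `(g₂ n s).bind (fun a => g₁ a s)`.
`prec`: `Nat.rec (g₁ a s) (fun y o => o.bind fun i => g₂ (pair a (pair y i)) s) n`.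
`rfind`: the least `m ≤ s.length` such that `g (pair a j) s = some (v+1)` for some `v`, all `j < m`,
and `g (pair a m) s = some 0`.  In each case: the approximation is primitive recursive, monotone, and
`m ∈ f n ↔ ∃ k, g n (pre x k) = some m`; for `→` take the maximum of finitely many `k`
(monotonicity along `pre x k' = pre x k ++ _`); for `←` read off.  Uniqueness of values of `Part`.
-/

namespace BW

private theorem G0_le {x : ℕ → ℕ} {g : ℕ → List ℕ → Option ℕ}
    (hm : ∀ n s t y, g n s = some y → g n (s ++ t) = some y) {n k k' y : ℕ} (hk : k ≤ k')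
    (h : g n (pre x k) = some y) : g n (pre x k') = some y := by
  obtain ⟨t, ht⟩ := pre_append x hk
  rw [ht]
  exact hm _ _ _ _ h

private theorem G0_all {P : ℕ → ℕ → Prop} (hP : ∀ j k k', k ≤ k' → P j k → P j k') (m : ℕ)
    (h : ∀ j < m, ∃ k, P j k) : ∃ K, ∀ j < m, P j K := by
  induction m with
  | zero => exact ⟨0, fun j hj => absurd hj (Nat.not_lt_zero j)⟩
  | succ m ih =>
    obtain ⟨K, hK⟩ := ih fun j hj => h j (by omega)
    obtain ⟨k, hk⟩ := h m (by omega)
    refine ⟨max K k, fun j hj => ?_⟩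
    rcases Nat.lt_succ_iff_lt_or_eq.1 hj with h1 | h1
    · exact hP _ _ _ (le_max_left K k) (hK j h1)
    · rw [h1]
      exact hP _ _ _ (le_max_right K k) hk

private theorem G0_tot {x : ℕ → ℕ} {f : ℕ → ℕ} (hf : Primrec f) : Apx x (fun n => Part.some (f n)) := by
  refine ⟨fun n _ => some (f n), ?_, fun n s t y h => h, fun n m => ?_⟩
  · exact (Primrec.option_some.comp (hf.comp Primrec.fst)).to₂
  · rw [Part.mem_some_iff]
    constructor
    · rintro rfl
      exact ⟨0, rfl⟩
    · rintro ⟨k, hk⟩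
      exact (Option.some.inj hk).symm

private theorem G0_oracle (x : ℕ → ℕ) : Apx x (fun n => Part.some (x n)) := by
  refine ⟨fun n s => s[n]?, ?_, fun n s t y h => ?_, fun n m => ?_⟩
  · exact (Primrec.list_getElem?.comp Primrec.snd Primrec.fst).to₂
  · rw [List.getElem?_eq_some_iff] at h ⊢
    obtain ⟨h1, h2⟩ := h
    refine ⟨by rw [List.length_append]; omega, ?_⟩
    rw [List.getElem_append_left h1]
    exact h2
  · rw [Part.mem_some_iff]
    constructor
    · rintro rfl
      exact ⟨n + 1, pre_getElem? x (Nat.lt_succ_self n)⟩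
    · rintro ⟨k, hk⟩
      rw [List.getElem?_eq_some_iff] at hk
      obtain ⟨h1, h2⟩ := hk
      rw [pre_getElem] at h2
      exact h2.symm

private theorem G0_pair {x : ℕ → ℕ} {f h : ℕ →. ℕ} (hf : Apx x f) (hh : Apx x h) :
    Apx x (fun n => (Nat.pair <$> f n <*> h n)) := by
  obtain ⟨g₁, p₁, m₁, s₁⟩ := hf
  obtain ⟨g₂, p₂, m₂, s₂⟩ := hh
  refine ⟨fun n s => (g₁ n s).bind fun a => (g₂ n s).map fun b => Nat.pair a b, ?_, ?_, ?_⟩
  · have h1 : Primrec fun q : ℕ × List ℕ =>
        (g₁ q.1 q.2).bind fun a => (g₂ q.1 q.2).map fun b => Nat.pair a b := by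
      refine Primrec.option_bind (p₁.comp Primrec.fst Primrec.snd) ?_
      have h2 : Primrec fun w : (ℕ × List ℕ) × ℕ =>
          (g₂ w.1.1 w.1.2).map fun b => Nat.pair w.2 b := by
        refine Primrec.option_map (p₂.comp (Primrec.fst.comp Primrec.fst)
          (Primrec.snd.comp Primrec.fst)) ?_
        exact (Primrec₂.natPair.comp (Primrec.snd.comp Primrec.fst) Primrec.snd).to₂
      exact h2.to₂
    exact h1.to₂
  · intro n s t y hy
    simp only [Option.bind_eq_some_iff, Option.map_eq_some_iff] at hy ⊢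
    obtain ⟨a, ha, b, hb, hab⟩ := hy
    exact ⟨a, m₁ _ _ _ _ ha, b, m₂ _ _ _ _ hb, hab⟩
  · intro n m
    have hmem : m ∈ (Nat.pair <$> f n <*> h n) ↔ ∃ a ∈ f n, ∃ b ∈ h n, Nat.pair a b = m := by
      simp [Seq.seq]
    rw [show (fun n => (Nat.pair <$> f n <*> h n)) n = (Nat.pair <$> f n <*> h n) from rfl, hmem]
    simp only [Option.bind_eq_some_iff, Option.map_eq_some_iff]
    constructor
    · rintro ⟨a, ha, b, hb, hab⟩
      obtain ⟨k, hk⟩ := (s₁ n a).1 ha
      obtain ⟨k', hk'⟩ := (s₂ n b).1 hb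
      exact ⟨max k k', a, G0_le m₁ (le_max_left _ _) hk, b, G0_le m₂ (le_max_right _ _) hk', hab⟩
    · rintro ⟨k, a, ha, b, hb, hab⟩
      exact ⟨a, (s₁ n a).2 ⟨k, ha⟩, b, (s₂ n b).2 ⟨k, hb⟩, hab⟩

private theorem G0_comp {x : ℕ → ℕ} {f h : ℕ →. ℕ} (hf : Apx x f) (hh : Apx x h) :
    Apx x (fun n => h n >>= f) := by
  obtain ⟨g₁, p₁, m₁, s₁⟩ := hf
  obtain ⟨g₂, p₂, m₂, s₂⟩ := hh
  refine ⟨fun n s => (g₂ n s).bind fun a => g₁ a s, ?_, ?_, ?_⟩
  · have h1 : Primrec fun q : ℕ × List ℕ => (g₂ q.1 q.2).bind fun a => g₁ a q.2 := by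
      refine Primrec.option_bind (p₂.comp Primrec.fst Primrec.snd) ?_
      exact (p₁.comp Primrec.snd (Primrec.snd.comp Primrec.fst)).to₂
    exact h1.to₂
  · intro n s t y hy
    simp only [Option.bind_eq_some_iff] at hy ⊢
    obtain ⟨a, ha, hb⟩ := hy
    exact ⟨a, m₂ _ _ _ _ ha, m₁ _ _ _ _ hb⟩
  · intro n m
    have hmem : m ∈ (h n >>= f) ↔ ∃ a ∈ h n, m ∈ f a := Part.mem_bind_iff
    rw [show (fun n => h n >>= f) n = (h n >>= f) from rfl, hmem]
    simp only [Option.bind_eq_some_iff]
    constructor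
    · rintro ⟨a, ha, hb⟩
      obtain ⟨k, hk⟩ := (s₂ n a).1 ha
      obtain ⟨k', hk'⟩ := (s₁ a m).1 hb
      exact ⟨max k k', a, G0_le m₂ (le_max_left _ _) hk, G0_le m₁ (le_max_right _ _) hk'⟩
    · rintro ⟨k, a, ha, hb⟩
      exact ⟨a, (s₂ n a).2 ⟨k, ha⟩, (s₁ a m).2 ⟨k, hb⟩⟩

/-- the approximation for the primitive recursion -/
private def G0_pr (g₁ g₂ : ℕ → List ℕ → Option ℕ) (a : ℕ) (s : List ℕ) (n : ℕ) : Option ℕ :=
  Nat.rec (g₁ a s) (fun y o => o.bind fun i => g₂ (Nat.pair a (Nat.pair y i)) s) n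

private theorem G0_pr_mono {g₁ g₂ : ℕ → List ℕ → Option ℕ}
    (m₁ : ∀ n s t y, g₁ n s = some y → g₁ n (s ++ t) = some y)
    (m₂ : ∀ n s t y, g₂ n s = some y → g₂ n (s ++ t) = some y) (a : ℕ) (s t : List ℕ) (n y : ℕ)
    (h : G0_pr g₁ g₂ a s n = some y) : G0_pr g₁ g₂ a (s ++ t) n = some y := by
  induction n generalizing y with
  | zero => exact m₁ _ _ _ _ h
  | succ n ih =>
    have h' : (G0_pr g₁ g₂ a s n).bind (fun i => g₂ (Nat.pair a (Nat.pair n i)) s) = some y := h
    have goal : (G0_pr g₁ g₂ a (s ++ t) n).bind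
        (fun i => g₂ (Nat.pair a (Nat.pair n i)) (s ++ t)) = some y := by
      rw [Option.bind_eq_some_iff] at h' ⊢
      obtain ⟨i, hi, hi2⟩ := h'
      exact ⟨i, ih _ hi, m₂ _ _ _ _ hi2⟩
    exact goal

private theorem G0_prec {x : ℕ → ℕ} {f h : ℕ →. ℕ} (hf : Apx x f) (hh : Apx x h) :
    Apx x (fun p => (Nat.unpair p).2.rec (f (Nat.unpair p).1) fun y IH =>
      IH.bind fun i => h (Nat.pair (Nat.unpair p).1 (Nat.pair y i))) := by
  obtain ⟨g₁, p₁, m₁, s₁⟩ := hf
  obtain ⟨g₂, p₂, m₂, s₂⟩ := hh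
  refine ⟨fun p s => G0_pr g₁ g₂ (Nat.unpair p).1 s (Nat.unpair p).2, ?_,
    fun p s t y hy => G0_pr_mono m₁ m₂ _ _ _ _ _ hy, ?_⟩
  · have hu1 : Primrec fun q : ℕ × List ℕ => (Nat.unpair q.1).1 :=
      Primrec.fst.comp (Primrec.unpair.comp Primrec.fst)
    have hu2 : Primrec fun q : ℕ × List ℕ => (Nat.unpair q.1).2 :=
      Primrec.snd.comp (Primrec.unpair.comp Primrec.fst)
    have hstep : Primrec₂ fun (q : ℕ × List ℕ) (z : ℕ × Option ℕ) =>
        z.2.bind fun i => g₂ (Nat.pair (Nat.unpair q.1).1 (Nat.pair z.1 i)) q.2 := by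
      have h1 : Primrec fun w : (ℕ × List ℕ) × (ℕ × Option ℕ) =>
          w.2.2.bind fun i => g₂ (Nat.pair (Nat.unpair w.1.1).1 (Nat.pair w.2.1 i)) w.1.2 := by
        refine Primrec.option_bind (Primrec.snd.comp Primrec.snd) ?_
        exact (p₂.comp (Primrec₂.natPair.comp (hu1.comp (Primrec.fst.comp Primrec.fst))
          (Primrec₂.natPair.comp (Primrec.fst.comp (Primrec.snd.comp Primrec.fst)) Primrec.snd))
          (Primrec.snd.comp (Primrec.fst.comp Primrec.fst))).to₂
      exact h1.to₂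
    exact (Primrec.nat_rec' hu2 (p₁.comp hu1 Primrec.snd) hstep).to₂
  · intro p m
    beta_reduce
    generalize (Nat.unpair p).1 = a
    generalize (Nat.unpair p).2 = n
    induction n generalizing m with
    | zero => exact s₁ a m
    | succ n ih =>
      have e1 : ∀ s, G0_pr g₁ g₂ a s (n + 1) =
          (G0_pr g₁ g₂ a s n).bind (fun i => g₂ (Nat.pair a (Nat.pair n i)) s) := fun s => rfl
      simp only [e1, Option.bind_eq_some_iff, Part.mem_bind_iff]
      constructor
      · rintro ⟨i, hi, hm⟩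
        obtain ⟨k, hk⟩ := (ih i).1 hi
        obtain ⟨k', hk'⟩ := (s₂ _ _).1 hm
        refine ⟨max k k', i, ?_, G0_le m₂ (le_max_right _ _) hk'⟩
        obtain ⟨t, ht⟩ := pre_append x (le_max_left k k')
        rw [ht]
        exact G0_pr_mono m₁ m₂ _ _ _ _ _ hk
      · rintro ⟨k, i, hi, hm⟩
        exact ⟨i, (ih i).2 ⟨k, hi⟩, (s₂ _ _).2 ⟨k, hm⟩⟩

/-- the value is not positive or not defined -/
private def G0_np (o : Option ℕ) : Bool := decide (¬ (0 < o.getD 0))

private theorem G0_np_false {o : Option ℕ} : G0_np o = false ↔ ∃ v, o = some (v + 1) := by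
  rcases o with _ | _ | v
  · simp [G0_np]
  · simp [G0_np]
  · simp [G0_np]

private def G0_ix (g : ℕ → List ℕ → Option ℕ) (a : ℕ) (s : List ℕ) : ℕ :=
  (List.range (s.length + 1)).findIdx fun j => G0_np (g (Nat.pair a j) s)

private def G0_rf (g : ℕ → List ℕ → Option ℕ) (a : ℕ) (s : List ℕ) : Option ℕ :=
  if G0_ix g a s ≤ s.length ∧ g (Nat.pair a (G0_ix g a s)) s = some 0 then some (G0_ix g a s)
  else none

private theorem G0_rf_iff (g : ℕ → List ℕ → Option ℕ) (a : ℕ) (s : List ℕ) (m : ℕ) :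
    G0_rf g a s = some m ↔ m ≤ s.length ∧ (∀ j < m, ∃ v, g (Nat.pair a j) s = some (v + 1)) ∧
      g (Nat.pair a m) s = some 0 := by
  constructor
  · intro h
    unfold G0_rf at h
    split_ifs at h with h1
    have h2 : G0_ix g a s = m := Option.some.inj h
    rw [h2] at h1
    refine ⟨h1.1, fun j hj => ?_, h1.2⟩
    have hlen : j < (List.range (s.length + 1)).length := by
      rw [List.length_range]
      omega
    have h3 := List.not_of_lt_findIdx (xs := List.range (s.length + 1))
      (p := fun j => G0_np (g (Nat.pair a j) s)) (i := j) (by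
        have h5 : (List.range (s.length + 1)).findIdx (fun j => G0_np (g (Nat.pair a j) s)) = m := h2
        rw [h5]
        exact hj)
    rw [List.getElem_range] at h3
    exact G0_np_false.1 (by simpa using h3)
  · rintro ⟨h1, h2, h3⟩
    have hlen : m < (List.range (s.length + 1)).length := by
      rw [List.length_range]
      omega
    have h4 : G0_ix g a s = m := by
      unfold G0_ix
      rw [List.findIdx_eq hlen]
      refine ⟨?_, fun j hj => ?_⟩
      · rw [List.getElem_range, h3]
        rfl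
      · rw [List.getElem_range]
        exact G0_np_false.2 (h2 j hj)
    unfold G0_rf
    rw [if_pos]
    · rw [h4]
    · rw [h4]
      exact ⟨h1, h3⟩

private theorem G0_rf_prim {g : ℕ → List ℕ → Option ℕ} (hg : Primrec₂ g) : Primrec₂ (G0_rf g) := by
  have hnp : Primrec G0_np := by
    have h1 : PrimrecPred fun o : Option ℕ => ¬ (0 < o.getD 0) :=
      (Primrec.nat_lt.comp (Primrec.const 0) (Primrec.option_getD.comp Primrec.id (Primrec.const 0))).not
    exact PrimrecPred.decide h1
  have hix : Primrec fun q : ℕ × List ℕ => G0_ix g q.1 q.2 := by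
    refine Primrec.list_findIdx (Primrec.list_range.comp (Primrec.succ.comp
      (Primrec.list_length.comp Primrec.snd))) ?_
    exact (hnp.comp (hg.comp (Primrec₂.natPair.comp (Primrec.fst.comp Primrec.fst) Primrec.snd)
      (Primrec.snd.comp Primrec.fst))).to₂
  refine (Primrec.ite (c := fun q : ℕ × List ℕ => G0_ix g q.1 q.2 ≤ q.2.length ∧
      g (Nat.pair q.1 (G0_ix g q.1 q.2)) q.2 = some 0) ?_ (Primrec.option_some.comp hix)
    (Primrec.const none)).to₂
  refine PrimrecPred.and ?_ ?_
  · exact Primrec.nat_le.comp hix (Primrec.list_length.comp Primrec.snd)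
  · exact Primrec.eq.comp (hg.comp (Primrec₂.natPair.comp Primrec.fst hix) Primrec.snd)
      (Primrec.const (some 0))

private theorem G0_rfind {x : ℕ → ℕ} {f : ℕ →. ℕ} (hf : Apx x f) :
    Apx x (fun a => Nat.rfind fun n => (fun m => decide (m = 0)) <$> f (Nat.pair a n)) := by
  obtain ⟨g, p, hm, hs⟩ := hf
  refine ⟨G0_rf g, G0_rf_prim p, ?_, ?_⟩
  · intro a s t y hy
    rw [G0_rf_iff] at hy ⊢
    refine ⟨?_, fun j hj => ?_, hm _ _ _ _ hy.2.2⟩
    · rw [List.length_append]
      omega
    · obtain ⟨v, hv⟩ := hy.2.1 j hj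
      exact ⟨v, hm _ _ _ _ hv⟩
  · intro a m
    refine (Nat.mem_rfind (p := fun n => (fun m => decide (m = 0)) <$> f (Nat.pair a n))
      (n := m)).trans ?_
    have ht : (true ∈ (fun m => decide (m = 0)) <$> f (Nat.pair a m)) ↔ 0 ∈ f (Nat.pair a m) := by
      simp
    have hfl : ∀ j, (false ∈ (fun m => decide (m = 0)) <$> f (Nat.pair a j)) ↔
        ∃ v, (v + 1) ∈ f (Nat.pair a j) := by
      intro j
      simp only [Part.map_eq_map, Part.mem_map_iff, decide_eq_false_iff_not]
      constructor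
      · rintro ⟨v, hv, h0⟩
        exact ⟨v - 1, by rwa [Nat.sub_add_cancel (by omega)]⟩
      · rintro ⟨v, hv⟩
        exact ⟨v + 1, hv, by omega⟩
    rw [ht]
    simp only [G0_rf_iff]
    constructor
    · rintro ⟨h0, h1⟩
      obtain ⟨k, hk⟩ := (hs _ _).1 h0
      have h2 : ∀ j < m, ∃ k, ∃ v, g (Nat.pair a j) (pre x k) = some (v + 1) := by
        intro j hj
        obtain ⟨v, hv⟩ := (hfl j).1 (h1 hj)
        obtain ⟨k, hk⟩ := (hs _ _).1 hv
        exact ⟨k, v, hk⟩
      obtain ⟨K, hK⟩ := G0_all (P := fun j k => ∃ v, g (Nat.pair a j) (pre x k) = some (v + 1))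
        (fun j k k' hkk hv => by
          obtain ⟨v, hv⟩ := hv
          exact ⟨v, G0_le hm hkk hv⟩) m h2
      refine ⟨max m (max k K), ?_, fun j hj => ?_, ?_⟩
      · rw [pre_length]
        exact le_max_left _ _
      · obtain ⟨v, hv⟩ := hK j hj
        exact ⟨v, G0_le hm ((le_max_right _ _).trans (le_max_right _ _)) hv⟩
      · exact G0_le hm ((le_max_left _ _).trans (le_max_right _ _)) hk
    · rintro ⟨k, -, h1, h2⟩
      refine ⟨(hs _ _).2 ⟨k, h2⟩, fun {j} hj => ?_⟩
      obtain ⟨v, hv⟩ := h1 j hj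
      exact (hfl j).2 ⟨v, (hs _ _).2 ⟨k, hv⟩⟩

theorem apx_of_recursiveIn {x : ℕ → ℕ} {f : ℕ →. ℕ}
    (h : Nat.RecursiveIn {(x : ℕ →. ℕ)} f) : Apx x f := by
  induction h with
  | zero => exact G0_tot (Primrec.const 0)
  | succ => exact G0_tot Primrec.succ
  | left => exact G0_tot (Primrec.fst.comp Primrec.unpair)
  | right => exact G0_tot (Primrec.snd.comp Primrec.unpair)
  | oracle g hg =>
    rw [Set.mem_singleton_iff] at hg
    rw [hg]
    exact G0_oracle x
  | pair _ _ ihf ihg => exact G0_pair ihf ihg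
  | comp _ _ ihf ihg => exact G0_comp ihf ihg
  | prec _ _ ihf ihg => exact G0_prec ihf ihg
  | rfind _ ihf => exact G0_rfind ihf

end BW
end

section

/-!
# BW.Rc2 : substitution of real valued recursive functionals

PROOF of `rec_substR`.  Let `h` approximate `H`, `g` approximate `G`, `f` approximate
`fun m x => F (unpair m).1 x (unpair m).2`.  Approximation of the composition at `(n, s)`:
if `g n s = some a`, look for the least `k ≤ s.length` such that all `f (pair n i) s`, `i < k`, are
defined and, `l` being the list of their values, `h a l` is defined; the value is then `h a l`.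
Monotone: for `s ++ t` the same lists are found for all `k' ≤ k` (monotonicity of `f`, `g`), so the
least `k` is the same (the range `k ≤ s.length` only grows).  Value: take `k` with
`h (G n x) (pre (F n x) k)` defined, and then a large enough prefix of `x`; the `k'` found may be
smaller, but then `h (G n x) (pre (F n x) k')` is defined and the value is right by `rec_unique`.
Primitive recursive: a fold over `List.range (s.length + 1)`; it is convenient to write the list of
values as `(List.range k).foldl (fun o i => o.bind fun l => (f (pair n i) s).map fun v => l ++ [v]) (some [])`.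
The other statements are special cases of `rec_substR`, `rec_subst`, `rec_comp₂`:
`F n x (G n x)` is `H (G' n x) x` with `H m x = F (unpair m).1 x (unpair m).2` and `G' n x = pair n (G n x)`.
-/

namespace BW

/-- the list of the values found for the inputs `Nat.pair n i`, `i < k` -/
private def Rc2_L (f : ℕ → List ℕ → Option ℕ) (n : ℕ) (s : List ℕ) : ℕ → Option (List ℕ)
  | 0 => some []
  | i + 1 => (Rc2_L f n s i).bind fun l => (f (Nat.pair n i) s).map fun v => l ++ [v]

/-- a value found by `h` on one of the first lists -/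
private def Rc2_S (h f : ℕ → List ℕ → Option ℕ) (n a : ℕ) (s : List ℕ) : ℕ → Option ℕ
  | 0 => none
  | k + 1 => (Rc2_S h f n a s k) <|> ((Rc2_L f n s k).bind fun l => h a l)

private theorem Rc2_primrec_L {f : ℕ → List ℕ → Option ℕ} (hf : Primrec₂ f) :
    Primrec (fun p : (ℕ × List ℕ) × ℕ => Rc2_L f p.1.1 p.1.2 p.2) := by
  have hh : Primrec₂ (fun (p : (ℕ × List ℕ) × ℕ) (q : ℕ × Option (List ℕ)) =>
      q.2.bind fun l => (f (Nat.pair p.1.1 q.1) p.1.2).map fun v => l ++ [v]) := by
    refine Primrec.option_bind (Primrec.snd.comp Primrec.snd) ?_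
    refine Primrec.option_map ?_ ?_
    · exact hf.comp (Primrec₂.natPair.comp
        (Primrec.fst.comp (Primrec.fst.comp (Primrec.fst.comp Primrec.fst)))
        (Primrec.fst.comp (Primrec.snd.comp Primrec.fst)))
        (Primrec.snd.comp (Primrec.fst.comp (Primrec.fst.comp Primrec.fst)))
    · exact Primrec.list_concat.comp (Primrec.snd.comp Primrec.fst) Primrec.snd
  refine (Primrec.nat_rec' Primrec.snd (Primrec.const (some [])) hh).of_eq fun p => ?_
  obtain ⟨⟨n, s⟩, k⟩ := p
  induction k with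
  | zero => rfl
  | succ k ih =>
    simp only [Rc2_L]
    simp only at ih
    rw [ih]

private theorem Rc2_primrec_S {h f : ℕ → List ℕ → Option ℕ} (hh : Primrec₂ h) (hf : Primrec₂ f) :
    Primrec (fun p : (ℕ × ℕ × List ℕ) × ℕ => Rc2_S h f p.1.1 p.1.2.1 p.1.2.2 p.2) := by
  have hs : Primrec₂ (fun (p : (ℕ × ℕ × List ℕ) × ℕ) (q : ℕ × Option ℕ) =>
      (q.2 <|> ((Rc2_L f p.1.1 p.1.2.2 q.1).bind fun l => h p.1.2.1 l) : Option ℕ)) := by
    refine Primrec.option_orElse.comp (Primrec.snd.comp Primrec.snd) ?_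
    refine Primrec.option_bind ?_ ?_
    · exact (Rc2_primrec_L hf).comp (Primrec.pair (Primrec.pair
        (Primrec.fst.comp (Primrec.fst.comp Primrec.fst))
        (Primrec.snd.comp (Primrec.snd.comp (Primrec.fst.comp Primrec.fst))))
        (Primrec.fst.comp Primrec.snd))
    · exact hh.comp (Primrec.fst.comp (Primrec.snd.comp (Primrec.fst.comp
        (Primrec.fst.comp Primrec.fst)))) Primrec.snd
  refine (Primrec.nat_rec' Primrec.snd (Primrec.const none) hs).of_eq fun p => ?_
  obtain ⟨⟨n, a, s⟩, k⟩ := p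
  induction k with
  | zero => rfl
  | succ k ih =>
    simp only [Rc2_S]
    simp only at ih
    rw [ih]

private theorem Rc2_L_mono {f : ℕ → List ℕ → Option ℕ}
    (hm : ∀ n s t y, f n s = some y → f n (s ++ t) = some y) (n : ℕ) (s t : List ℕ) :
    ∀ (k : ℕ) (l : List ℕ), Rc2_L f n s k = some l → Rc2_L f n (s ++ t) k = some l := by
  intro k
  induction k with
  | zero => intro l hl; exact hl
  | succ k ih =>
    intro l hl
    simp only [Rc2_L, Option.bind_eq_some_iff, Option.map_eq_some_iff] at hl ⊢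
    obtain ⟨l', h1, v, h2, h3⟩ := hl
    exact ⟨l', ih l' h1, v, hm _ _ _ _ h2, h3⟩

private theorem Rc2_L_pre {f : ℕ → List ℕ → Option ℕ} (n : ℕ) (s : List ℕ) (k : ℕ) :
    ∀ (j : ℕ) (l l' : List ℕ), Rc2_L f n s k = some l → Rc2_L f n s (k + j) = some l' →
      ∃ t, l' = l ++ t := by
  intro j
  induction j with
  | zero =>
    intro l l' h h'
    rw [Nat.add_zero, h] at h'
    exact ⟨[], by rw [List.append_nil]; exact (Option.some.inj h').symm⟩
  | succ j ih =>
    intro l l' h h'
    rw [← Nat.add_assoc] at h'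
    simp only [Rc2_L, Option.bind_eq_some_iff, Option.map_eq_some_iff] at h'
    obtain ⟨l'', h1, v, h2, h3⟩ := h'
    obtain ⟨t, ht⟩ := ih l l'' h h1
    exact ⟨t ++ [v], by rw [← h3, ht, List.append_assoc]⟩

private theorem Rc2_agree {h f : ℕ → List ℕ → Option ℕ}
    (hm : ∀ n s t y, h n s = some y → h n (s ++ t) = some y) (n a : ℕ) (s : List ℕ) {k k' : ℕ}
    (hk : k ≤ k') {v v' : ℕ} (h1 : ((Rc2_L f n s k).bind fun l => h a l) = some v)
    (h2 : ((Rc2_L f n s k').bind fun l => h a l) = some v') : v = v' := by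
  obtain ⟨j, rfl⟩ := Nat.exists_eq_add_of_le hk
  rw [Option.bind_eq_some_iff] at h1 h2
  obtain ⟨l, hl, hv⟩ := h1
  obtain ⟨l', hl', hv'⟩ := h2
  obtain ⟨t, ht⟩ := Rc2_L_pre n s k j l l' hl hl'
  have := hm a l t v hv
  rw [← ht, hv'] at this
  exact (Option.some.inj this).symm

private theorem Rc2_agree' {h f : ℕ → List ℕ → Option ℕ}
    (hm : ∀ n s t y, h n s = some y → h n (s ++ t) = some y) (n a : ℕ) (s : List ℕ) {k k' : ℕ}
    {v v' : ℕ} (h1 : ((Rc2_L f n s k).bind fun l => h a l) = some v)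
    (h2 : ((Rc2_L f n s k').bind fun l => h a l) = some v') : v = v' := by
  rcases le_total k k' with hk | hk
  · exact Rc2_agree hm n a s hk h1 h2
  · exact (Rc2_agree hm n a s hk h2 h1).symm

private theorem Rc2_S_some {h f : ℕ → List ℕ → Option ℕ} (n a : ℕ) (s : List ℕ) :
    ∀ (K : ℕ) (v : ℕ), Rc2_S h f n a s K = some v →
      ∃ k, k < K ∧ ((Rc2_L f n s k).bind fun l => h a l) = some v := by
  intro K
  induction K with
  | zero => intro v hv; simp [Rc2_S] at hv
  | succ K ih =>
    intro v hv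
    simp only [Rc2_S] at hv
    cases hS : Rc2_S h f n a s K with
    | some w =>
      rw [hS] at hv
      obtain ⟨k, hk, hkv⟩ := ih w hS
      have hwv : w = v := by simpa using hv
      exact ⟨k, Nat.lt_succ_of_lt hk, hwv ▸ hkv⟩
    | none =>
      rw [hS] at hv
      exact ⟨K, Nat.lt_succ_self K, by simpa using hv⟩

private theorem Rc2_S_exists {h f : ℕ → List ℕ → Option ℕ} (n a : ℕ) (s : List ℕ) :
    ∀ (K : ℕ) {k v : ℕ}, k < K → ((Rc2_L f n s k).bind fun l => h a l) = some v →
      ∃ v', Rc2_S h f n a s K = some v' := by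
  intro K
  induction K with
  | zero => intro k v hk; exact absurd hk (Nat.not_lt_zero k)
  | succ K ih =>
    intro k v hk hv
    simp only [Rc2_S]
    cases hS : Rc2_S h f n a s K with
    | some w => exact ⟨w, by simp⟩
    | none =>
      rcases Nat.lt_succ_iff_lt_or_eq.1 hk with hk' | hk'
      · obtain ⟨v', hv'⟩ := ih hk' hv
        rw [hS] at hv'
        exact absurd hv' (by simp)
      · subst hk'
        exact ⟨v, by rw [hv]; simp⟩

private theorem Rc2_S_eq {h f : ℕ → List ℕ → Option ℕ}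
    (hm : ∀ n s t y, h n s = some y → h n (s ++ t) = some y) (n a : ℕ) (s : List ℕ)
    (K : ℕ) {k v : ℕ} (hk : k < K) (hv : ((Rc2_L f n s k).bind fun l => h a l) = some v) :
    Rc2_S h f n a s K = some v := by
  obtain ⟨v', hv'⟩ := Rc2_S_exists n a s K hk hv
  obtain ⟨k', _, hk'⟩ := Rc2_S_some n a s K v' hv'
  rw [hv', Rc2_agree' hm n a s hk' hv]

private theorem Rc2_L_val {f : ℕ → List ℕ → Option ℕ} {x : ℕ → ℕ} {y : ℕ → ℕ} (n : ℕ)
    (hm : ∀ n s t y, f n s = some y → f n (s ++ t) = some y)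
    (hv : ∀ i, ∃ k, f (Nat.pair n i) (pre x k) = some (y i)) (k : ℕ) :
    ∃ M, ∀ K, M ≤ K → Rc2_L f n (pre x K) k = some (pre y k) := by
  induction k with
  | zero => exact ⟨0, fun K _ => rfl⟩
  | succ k ih =>
    obtain ⟨M, hM⟩ := ih
    obtain ⟨m, hm'⟩ := hv k
    refine ⟨max M m, fun K hK => ?_⟩
    have h1 := hM K (le_trans (le_max_left _ _) hK)
    obtain ⟨t, ht⟩ := pre_append x (le_trans (le_max_right M m) hK)
    have h2 : f (Nat.pair n k) (pre x K) = some (y k) := by
      rw [ht]; exact hm _ _ _ _ hm'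
    simp only [Rc2_L]
    rw [h1, h2, pre_succ]
    rfl

theorem rec_substR {H G : ℕ → (ℕ → ℕ) → ℕ} {F : ℕ → (ℕ → ℕ) → ℕ → ℕ}
    (hH : Rec H) (hG : Rec G) (hF : RecR F) : Rec (fun n x => H (G n x) (F n x)) := by
  obtain ⟨h, hhp, hhm, hhv⟩ := hH
  obtain ⟨g, hgp, hgm, hgv⟩ := hG
  obtain ⟨f, hfp, hfm, hfv⟩ := hF
  refine ⟨fun n s => (g n s).bind fun a => Rc2_S h f n a s (s.length + 1), ?_, ?_, ?_⟩
  · refine Primrec.option_bind hgp ?_
    exact (Rc2_primrec_S hhp hfp).comp (Primrec.pair
      (Primrec.pair (Primrec.fst.comp Primrec.fst)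
        (Primrec.pair Primrec.snd (Primrec.snd.comp Primrec.fst)))
      (Primrec.succ.comp (Primrec.list_length.comp (Primrec.snd.comp Primrec.fst))))
  · intro n s t y hy
    simp only [Option.bind_eq_some_iff] at hy ⊢
    obtain ⟨a, ha, hS⟩ := hy
    refine ⟨a, hgm _ _ _ _ ha, ?_⟩
    obtain ⟨k, hk, hv⟩ := Rc2_S_some n a s _ y hS
    rw [Option.bind_eq_some_iff] at hv
    obtain ⟨l, hl, hlv⟩ := hv
    refine Rc2_S_eq hhm n a (s ++ t) _ (k := k) ?_ ?_
    · rw [List.length_append]; omega
    · rw [Rc2_L_mono hfm n s t k l hl]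
      exact hlv
  · intro n x
    obtain ⟨k1, h1⟩ := hgv n x
    obtain ⟨k2, h2⟩ := hhv (G n x) (F n x)
    have hv : ∀ i, ∃ k, f (Nat.pair n i) (pre x k) = some (F n x i) := by
      intro i
      obtain ⟨k, hk⟩ := hfv (Nat.pair n i) x
      refine ⟨k, ?_⟩
      simpa only [Nat.unpair_pair] using hk
    obtain ⟨M, hM⟩ := Rc2_L_val n hfm hv k2
    refine ⟨max M (max k1 k2), ?_⟩
    have hL := hM (max M (max k1 k2)) (le_max_left _ _)
    have hk1 : k1 ≤ max M (max k1 k2) := le_trans (le_max_left _ _) (le_max_right _ _)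
    have hk2 : k2 ≤ max M (max k1 k2) := le_trans (le_max_right _ _) (le_max_right _ _)
    obtain ⟨t, ht⟩ := pre_append x hk1
    have hg : g n (pre x (max M (max k1 k2))) = some (G n x) := by
      rw [ht]; exact hgm _ _ _ _ h1
    simp only [hg, Option.bind_some]
    refine Rc2_S_eq hhm n (G n x) _ _ (k := k2) ?_ ?_
    · rw [pre_length]; omega
    · rw [hL]
      exact h2

/-- application of a real valued functional -/
theorem recR_app {F : ℕ → (ℕ → ℕ) → ℕ → ℕ} {G : ℕ → (ℕ → ℕ) → ℕ} (hF : RecR F) (hG : Rec G) :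
    Rec (fun n x => F n x (G n x)) := by
  have := rec_subst hF (rec_pair rec_id hG)
  simpa only [Nat.unpair_pair] using this

theorem recR_id : RecR (fun _ x => x) := rec_app (rec_snd rec_id)

/-- a real valued functional given by a `Rec` functional of the pair (number, argument) -/
theorem recR_mk {G : ℕ → (ℕ → ℕ) → ℕ} (hG : Rec G) : RecR (fun n x k => G (Nat.pair n k) x) := by
  unfold RecR
  simpa only [Nat.pair_unpair] using hG

/-- a fixed primitive recursive real -/
theorem recR_primrec {f : ℕ → ℕ} (hf : Primrec f) : RecR (fun _ _ => f) :=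
  rec_of_primrec (hf.comp (Primrec.snd.comp Primrec.unpair))

theorem recR_jn {F G : ℕ → (ℕ → ℕ) → ℕ → ℕ} (hF : RecR F) (hG : RecR G) :
    RecR (fun n x => jn (F n x) (G n x)) := rec_pair hF hG

theorem recR_p1 {F : ℕ → (ℕ → ℕ) → ℕ → ℕ} (hF : RecR F) : RecR (fun n x => p1 (F n x)) :=
  rec_fst hF

theorem recR_p2 {F : ℕ → (ℕ → ℕ) → ℕ → ℕ} (hF : RecR F) : RecR (fun n x => p2 (F n x)) :=
  rec_snd hF

theorem recR_col {F : ℕ → (ℕ → ℕ) → ℕ → ℕ} {G : ℕ → (ℕ → ℕ) → ℕ} (hF : RecR F) (hG : Rec G) :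
    RecR (fun n x => col (F n x) (G n x)) := by
  have := rec_subst hF (rec_pair (rec_fst rec_id)
    (rec_pair (rec_subst hG (rec_fst rec_id)) (rec_snd rec_id)))
  simp only [Nat.unpair_pair] at this
  exact this

/-- substitution of a number and of a real into a real valued functional -/
theorem recR_subst {F H : ℕ → (ℕ → ℕ) → ℕ → ℕ} {G : ℕ → (ℕ → ℕ) → ℕ} (hF : RecR F)
    (hG : Rec G) (hH : RecR H) : RecR (fun n x => F (G n x) (H n x)) := by
  have h1 : RecR (fun m x => H (Nat.unpair m).1 x) := by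
    have := rec_subst hH (rec_pair (rec_fst (rec_fst rec_id)) (rec_snd rec_id))
    simp only [Nat.unpair_pair] at this
    exact this
  have h2 : Rec (fun m x => Nat.pair (G (Nat.unpair m).1 x) (Nat.unpair m).2) :=
    rec_pair (rec_subst hG (rec_fst rec_id)) (rec_snd rec_id)
  have := rec_substR hF h2 h1
  simp only [Nat.unpair_pair] at this
  exact this

end BW
end

section

/-!
# BW.Rc3 : primitive recursion, codes of restrictions, search

PROOFS.
* `rec_prec` : with approximations `a`, `b` of `A`, `B`: `fun n s => Nat.rec (a n₁ s) (fun y o =>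
  o.bind fun v => b (pair n₁ (pair y v)) s) n₂`, `n₁ n₂` the components of `n`
  (`Primrec.nat_rec`).  Monotone by induction on `n₂`; value: take the maximum of the
  finitely many prefixes which are needed (induction on `n₂`).
* `rec_pre` : apply `rec_prec` to the function which appends one value: `encode (pre x (k+1))` is a
  primitive recursive function of `encode (pre x k)` and `x k`; then `rec_subst`.
* `rec_find` : `fun n s =>` search the least `m ≤ s.length` such that `g (pair n j) s` is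
  `some (v+1)` for all `j < m` and `g (pair n m) s = some 0`; result `m`.  Monotone: the least such
  `m` is the same for `s ++ t`.  Value: take the maximum of the prefixes needed for `j ≤ m₀ =
  Nat.find` and of `m₀`.
-/

namespace BW

open Encodable

private theorem Rc3_up {g : List ℕ → Option ℕ} {x : ℕ → ℕ}
    (hm : ∀ s t y, g s = some y → g (s ++ t) = some y) {k k' y : ℕ} (hk : k ≤ k')
    (h : g (pre x k) = some y) : g (pre x k') = some y := by
  obtain ⟨t, ht⟩ := pre_append x hk
  rw [ht]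
  exact hm _ _ _ h

/-- finitely many values are found by one prefix -/
private theorem Rc3_unif {g : ℕ → List ℕ → Option ℕ} {x : ℕ → ℕ} {v : ℕ → ℕ}
    (hm : ∀ n s t y, g n s = some y → g n (s ++ t) = some y)
    (hv : ∀ n, ∃ k, g n (pre x k) = some (v n)) (f : ℕ → ℕ) (m : ℕ) :
    ∃ K, ∀ j < m, g (f j) (pre x K) = some (v (f j)) := by
  induction m with
  | zero => exact ⟨0, fun j hj => absurd hj (Nat.not_lt_zero _)⟩
  | succ m ih =>
    obtain ⟨K, hK⟩ := ih
    obtain ⟨k, hk⟩ := hv (f m)
    refine ⟨max K k, fun j hj => ?_⟩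
    rcases Nat.lt_succ_iff_lt_or_eq.mp hj with h | h
    · exact Rc3_up (hm _) (le_max_left _ _) (hK j h)
    · rw [h]
      exact Rc3_up (hm _) (le_max_right _ _) hk

/-- the step of the primitive recursion -/
private def Rc3_it (a b : ℕ → List ℕ → Option ℕ) (n : ℕ) (s : List ℕ) (m : ℕ) : Option ℕ :=
  Nat.rec (a n s) (fun y (o : Option ℕ) => o.bind fun v => b (Nat.pair n (Nat.pair y v)) s) m

theorem rec_prec {A B : ℕ → (ℕ → ℕ) → ℕ} (hA : Rec A) (hB : Rec B) :
    Rec (fun n x => Nat.rec (A (Nat.unpair n).1 x)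
      (fun y v => B (Nat.pair (Nat.unpair n).1 (Nat.pair y v)) x) (Nat.unpair n).2) := by
  obtain ⟨a, ha, ham, hav⟩ := hA
  obtain ⟨b, hb, hbm, hbv⟩ := hB
  refine ⟨fun n s => Rc3_it a b (Nat.unpair n).1 s (Nat.unpair n).2, ?_, ?_, ?_⟩
  · unfold Primrec₂
    have h1 : Primrec (fun p : ℕ × List ℕ => (Nat.unpair p.1).2) :=
      Primrec.snd.comp (Primrec.unpair.comp Primrec.fst)
    have h1' : Primrec (fun p : ℕ × List ℕ => (Nat.unpair p.1).1) :=
      Primrec.fst.comp (Primrec.unpair.comp Primrec.fst)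
    have h2 : Primrec (fun p : ℕ × List ℕ => a (Nat.unpair p.1).1 p.2) :=
      ha.comp h1' Primrec.snd
    have h3 : Primrec₂ (fun (p : ℕ × List ℕ) (q : ℕ × Option ℕ) =>
        q.2.bind fun v => b (Nat.pair (Nat.unpair p.1).1 (Nat.pair q.1 v)) p.2) := by
      unfold Primrec₂
      refine Primrec.option_bind (f := fun r : (ℕ × List ℕ) × (ℕ × Option ℕ) => r.2.2)
        (g := fun r v => b (Nat.pair (Nat.unpair r.1.1).1 (Nat.pair r.2.1 v)) r.1.2)
        (Primrec.snd.comp Primrec.snd) ?_
      unfold Primrec₂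
      refine Primrec₂.comp (f := b) (α := ((ℕ × List ℕ) × (ℕ × Option ℕ)) × ℕ)
        (g := fun r => Nat.pair (Nat.unpair r.1.1.1).1 (Nat.pair r.1.2.1 r.2))
        (h := fun r => r.1.1.2) hb ?_ ?_
      · refine Primrec₂.natPair.comp ?_ ?_
        · exact Primrec.fst.comp (Primrec.unpair.comp
            (Primrec.fst.comp (Primrec.fst.comp Primrec.fst)))
        · exact Primrec₂.natPair.comp (Primrec.fst.comp (Primrec.snd.comp Primrec.fst))
            Primrec.snd
      · exact Primrec.snd.comp (Primrec.fst.comp Primrec.fst)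
    exact Primrec.nat_rec' h1 h2 h3
  · intro n s t
    show ∀ y, Rc3_it a b (Nat.unpair n).1 s (Nat.unpair n).2 = some y →
      Rc3_it a b (Nat.unpair n).1 (s ++ t) (Nat.unpair n).2 = some y
    generalize (Nat.unpair n).1 = n1
    generalize (Nat.unpair n).2 = n2
    induction n2 with
    | zero => exact fun y h => ham _ _ _ _ h
    | succ m ih =>
      intro y h
      have h' : (Rc3_it a b n1 s m).bind
        (fun v => b (Nat.pair n1 (Nat.pair m v)) s) = some y := h
      show (Rc3_it a b n1 (s ++ t) m).bind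
        (fun v => b (Nat.pair n1 (Nat.pair m v)) (s ++ t)) = some y
      rw [Option.bind_eq_some_iff] at h' ⊢
      obtain ⟨v, hv, hv'⟩ := h'
      exact ⟨v, ih v hv, hbm _ _ _ _ hv'⟩
  · intro n x
    show ∃ k, Rc3_it a b (Nat.unpair n).1 (pre x k) (Nat.unpair n).2 =
      some (Nat.rec (A (Nat.unpair n).1 x)
      (fun y v => B (Nat.pair (Nat.unpair n).1 (Nat.pair y v)) x) (Nat.unpair n).2)
    generalize (Nat.unpair n).1 = n1
    generalize (Nat.unpair n).2 = n2
    have hmono : ∀ (m k k' y : ℕ), k ≤ k' → Rc3_it a b n1 (pre x k) m = some y →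
        Rc3_it a b n1 (pre x k') m = some y := by
      intro m k k' y hk h
      induction m generalizing y with
      | zero => exact Rc3_up (g := fun s => a n1 s) (ham _) hk h
      | succ m ih =>
        have h' : (Rc3_it a b n1 (pre x k) m).bind
          (fun v => b (Nat.pair n1 (Nat.pair m v)) (pre x k)) = some y := h
        show (Rc3_it a b n1 (pre x k') m).bind
          (fun v => b (Nat.pair n1 (Nat.pair m v)) (pre x k')) = some y
        rw [Option.bind_eq_some_iff] at h' ⊢
        obtain ⟨v, hv, hv'⟩ := h'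
        exact ⟨v, ih v hv, Rc3_up (hbm _) hk hv'⟩
    induction n2 with
    | zero => exact hav n1 x
    | succ m ih =>
      obtain ⟨k, hk⟩ := ih
      obtain ⟨k', hk'⟩ := hbv (Nat.pair n1 (Nat.pair m (Nat.rec (A n1 x)
        (fun y v => B (Nat.pair n1 (Nat.pair y v)) x) m))) x
      refine ⟨max k k', ?_⟩
      show (Rc3_it a b n1 (pre x (max k k')) m).bind
          (fun v => b (Nat.pair n1 (Nat.pair m v)) (pre x (max k k'))) = some _
      rw [hmono m k _ _ (le_max_left _ _) hk]
      exact Rc3_up (hbm _) (le_max_right _ _) hk'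

/-- append one value to a coded list -/
private def Rc3_snoc (q v : ℕ) : ℕ := encode (dl q ++ [v])

private theorem Rc3_snoc_primrec : Primrec₂ Rc3_snoc := by
  unfold Primrec₂ Rc3_snoc
  refine Primrec.encode.comp ?_
  refine Primrec.list_append.comp (primrec_dl.comp Primrec.fst) ?_
  exact Primrec.list_cons.comp Primrec.snd (Primrec.const [])

private theorem Rc3_pre (x : ℕ → ℕ) (k : ℕ) :
    encode (pre x k) = Nat.rec (encode ([] : List ℕ)) (fun y v => Rc3_snoc v (x y)) k := by
  induction k with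
  | zero => rfl
  | succ k ih =>
    show encode (pre x (k + 1)) = Rc3_snoc (Nat.rec (encode ([] : List ℕ))
      (fun y v => Rc3_snoc v (x y)) k) (x k)
    rw [← ih, Rc3_snoc, dl_encode, pre_succ]

theorem rec_pre {G : ℕ → (ℕ → ℕ) → ℕ} (hG : Rec G) :
    Rec (fun n x => encode (pre x (G n x))) := by
  have hB : Rec (fun n x => Rc3_snoc (Nat.unpair (Nat.unpair n).2).2
      (x (Nat.unpair (Nat.unpair n).2).1)) :=
    rec_comp₂ Rc3_snoc_primrec (rec_snd (rec_snd rec_id)) (rec_app (rec_fst (rec_snd rec_id)))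
  have h := rec_prec (rec_const (encode ([] : List ℕ))) hB
  have h2 := rec_subst h (rec_pair (rec_const 0) hG)
  have e : (fun (n : ℕ) (x : ℕ → ℕ) => encode (pre x (G n x))) = (fun n x =>
      Nat.rec (encode ([] : List ℕ))
      (fun y v => Rc3_snoc (Nat.unpair (Nat.unpair (Nat.pair (Nat.unpair
        (Nat.pair 0 (G n x))).1 (Nat.pair y v))).2).2
        (x (Nat.unpair (Nat.unpair (Nat.pair (Nat.unpair
        (Nat.pair 0 (G n x))).1 (Nat.pair y v))).2).1)) (Nat.unpair (Nat.pair 0 (G n x))).2) := by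
    funext n x
    simp only [Nat.unpair_pair]
    exact Rc3_pre x (G n x)
  rw [e]
  exact h2

/-- test whether the search stops -/
private def Rc3_stop (o : Option ℕ) : Bool :=
  Option.casesOn o true (fun v => Nat.casesOn v true (fun _ => false))

private theorem Rc3_stop_primrec : Primrec Rc3_stop := by
  unfold Rc3_stop
  refine Primrec.option_casesOn Primrec.id (Primrec.const true) ?_
  unfold Primrec₂
  refine Primrec.nat_casesOn (f := fun p : Option ℕ × ℕ => p.2) Primrec.snd
    (Primrec.const true) ?_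
  exact Primrec.const false

/-- the list of the attempts -/
private def Rc3_L (g : ℕ → List ℕ → Option ℕ) (n : ℕ) (s : List ℕ) : List (Option ℕ) :=
  (List.range (s.length + 1)).map (fun j => g (Nat.pair n j) s)

private theorem Rc3_L_primrec {g : ℕ → List ℕ → Option ℕ} (hg : Primrec₂ g) :
    Primrec₂ (Rc3_L g) := by
  unfold Primrec₂ Rc3_L
  refine Primrec.list_map ?_ ?_
  · exact Primrec.list_range.comp (Primrec.succ.comp (Primrec.list_length.comp Primrec.snd))
  · unfold Primrec₂
    exact hg.comp (Primrec₂.natPair.comp (Primrec.fst.comp Primrec.fst) Primrec.snd)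
      (Primrec.snd.comp Primrec.fst)

/-- the search -/
private def Rc3_F (g : ℕ → List ℕ → Option ℕ) (n : ℕ) (s : List ℕ) : Option ℕ :=
  ((Rc3_L g n s)[(Rc3_L g n s).findIdx Rc3_stop]?).bind fun o => o.bind fun v =>
    Nat.casesOn v (some ((Rc3_L g n s).findIdx Rc3_stop)) (fun _ => none)

private theorem Rc3_F_primrec {g : ℕ → List ℕ → Option ℕ} (hg : Primrec₂ g) :
    Primrec₂ (Rc3_F g) := by
  have hL := Rc3_L_primrec hg
  unfold Primrec₂ at hL ⊢
  unfold Rc3_F
  have hi : Primrec (fun p : ℕ × List ℕ => (Rc3_L g p.1 p.2).findIdx Rc3_stop) := by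
    refine Primrec.list_findIdx (p := fun _ o => Rc3_stop o) hL ?_
    exact Rc3_stop_primrec.comp Primrec.snd
  refine Primrec.option_bind (Primrec.list_getElem?.comp hL hi) ?_
  unfold Primrec₂
  refine Primrec.option_bind Primrec.snd ?_
  unfold Primrec₂
  refine Primrec.nat_casesOn
    (f := fun p : ((ℕ × List ℕ) × Option ℕ) × ℕ => p.2) Primrec.snd ?_ ?_
  · exact Primrec.option_some.comp (hi.comp (Primrec.fst.comp Primrec.fst))
  · exact Primrec.const none

private theorem Rc3_L_getElem? (g : ℕ → List ℕ → Option ℕ) (n : ℕ) (s : List ℕ) (m : ℕ) :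
    (Rc3_L g n s)[m]? = if m < s.length + 1 then some (g (Nat.pair n m) s) else none := by
  unfold Rc3_L
  rw [List.getElem?_map]
  split_ifs with h
  · rw [List.getElem?_range h]
    rfl
  · rw [List.getElem?_eq_none (by simpa using h)]
    rfl

private theorem Rc3_F_iff (g : ℕ → List ℕ → Option ℕ) (n : ℕ) (s : List ℕ) (m : ℕ) :
    Rc3_F g n s = some m ↔ m < s.length + 1 ∧ g (Nat.pair n m) s = some 0 ∧
      ∀ j < m, ∃ v, g (Nat.pair n j) s = some (v + 1) := by
  have hlen : (Rc3_L g n s).length = s.length + 1 := by simp [Rc3_L]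
  have hget : ∀ (i : ℕ) (hi : i < (Rc3_L g n s).length),
      (Rc3_L g n s)[i] = g (Nat.pair n i) s := by
    intro i hi
    simp [Rc3_L]
  constructor
  · intro h
    unfold Rc3_F at h
    rw [Option.bind_eq_some_iff] at h
    obtain ⟨o, ho, h⟩ := h
    rw [Option.bind_eq_some_iff] at h
    obtain ⟨v, hv, h⟩ := h
    cases v with
    | succ v => exact absurd h (by simp)
    | zero =>
      have hm : (Rc3_L g n s).findIdx Rc3_stop = m := by simpa using h
      rw [hm] at ho
      rw [Rc3_L_getElem?] at ho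
      split_ifs at ho with hlt
      · have ho' : g (Nat.pair n m) s = o := by simpa using ho
        refine ⟨hlt, by rw [ho', hv], ?_⟩
        intro j hj
        have hlt' : m < (Rc3_L g n s).length := by rw [hlen]; exact hlt
        have hc := ((List.findIdx_eq hlt').mp hm).2 j hj
        rw [hget] at hc
        cases hgj : g (Nat.pair n j) s with
        | none => rw [hgj] at hc; exact absurd hc (by simp [Rc3_stop])
        | some w =>
          rw [hgj] at hc
          cases w with
          | zero => exact absurd hc (by simp [Rc3_stop])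
          | succ w => exact ⟨w, rfl⟩
  · rintro ⟨hlt, h0, hj⟩
    have hlt' : m < (Rc3_L g n s).length := by rw [hlen]; exact hlt
    have hm : (Rc3_L g n s).findIdx Rc3_stop = m := by
      rw [List.findIdx_eq hlt']
      refine ⟨?_, ?_⟩
      · rw [hget, h0]
        rfl
      · intro j hjm
        obtain ⟨v, hv⟩ := hj j hjm
        rw [hget, hv]
        rfl
    unfold Rc3_F
    rw [hm, Rc3_L_getElem?, if_pos hlt, h0]
    rfl

theorem rec_find {G : ℕ → (ℕ → ℕ) → ℕ} (hG : Rec G)
    (h : ∀ n x, ∃ m, G (Nat.pair n m) x = 0) : Rec (fun n x => Nat.find (h n x)) := by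
  obtain ⟨g, hg, hm, hv⟩ := hG
  refine ⟨Rc3_F g, Rc3_F_primrec hg, ?_, ?_⟩
  · intro n s t y hy
    rw [Rc3_F_iff] at hy ⊢
    obtain ⟨h1, h2, h3⟩ := hy
    refine ⟨?_, hm _ _ _ _ h2, fun j hj => ?_⟩
    · rw [List.length_append]
      omega
    · obtain ⟨v, hv'⟩ := h3 j hj
      exact ⟨v, hm _ _ _ _ hv'⟩
  · intro n x
    obtain ⟨K, hK⟩ := Rc3_unif (x := x) (v := fun n => G n x) hm (fun n => hv n x)
      (fun j => Nat.pair n j) (Nat.find (h n x) + 1)
    refine ⟨max K (Nat.find (h n x)), ?_⟩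
    show Rc3_F g n (pre x (max K (Nat.find (h n x)))) = some (Nat.find (h n x))
    rw [Rc3_F_iff]
    refine ⟨?_, ?_, ?_⟩
    · rw [pre_length]
      omega
    · have := Rc3_up (hm _) (le_max_left K (Nat.find (h n x))) (hK (Nat.find (h n x))
        (Nat.lt_succ_self _))
      rw [this]
      exact congrArg some (Nat.find_spec (h n x))
    · intro j hj
      have h1 := Rc3_up (hm _) (le_max_left K (Nat.find (h n x))) (hK j
        (Nat.lt_succ_of_lt hj))
      have h2 : G (Nat.pair n j) x ≠ 0 := Nat.find_min (h n x) hj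
      obtain ⟨v, hv'⟩ := Nat.exists_eq_succ_of_ne_zero h2
      refine ⟨v, ?_⟩
      rw [h1]
      exact congrArg some hv'

end BW
end

section

/-!
# BW.Rc4 : recursive predicates

PROOFS.  The characteristic functional of a predicate built from recursive ones is obtained from
`rec_comp₂` and `rec_comp` (not, and, or, `ite`); bounded quantifiers by primitive recursion
(`rec_prec`, then `rec_subst`): the product (minimum) of the characteristic values for `m < B n x`.
`recP_find`: `rec_find` for the functional `if P (pair n m) x then 0 else 1`.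
-/

namespace BW

open Classical

variable {P Q : ℕ → (ℕ → ℕ) → Prop} {G H : ℕ → (ℕ → ℕ) → ℕ} {F : ℕ → (ℕ → ℕ) → ℕ → ℕ}

theorem recP_congr (hP : RecP P) (h : ∀ n x, P n x ↔ Q n x) : RecP Q := by
  have e : P = Q := by
    funext n x
    exact propext (h n x)
  rwa [← e]

private theorem Rc4_congr {G H : ℕ → (ℕ → ℕ) → ℕ} (hG : Rec G) (h : ∀ n x, G n x = H n x) : Rec H := by
  have e : G = H := by
    funext n x
    exact h n x
  rwa [← e]

theorem recP_not (hP : RecP P) : RecP (fun n x => ¬ P n x) := by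
  have h1 : Primrec (fun a : ℕ => 1 - a) := Primrec.nat_sub.comp (Primrec.const 1) Primrec.id
  refine Rc4_congr (rec_comp h1 hP) fun n x => ?_
  by_cases h : P n x <;> simp [h]

theorem recP_and (hP : RecP P) (hQ : RecP Q) : RecP (fun n x => P n x ∧ Q n x) := by
  refine Rc4_congr (rec_comp₂ Primrec.nat_mul hP hQ) fun n x => ?_
  by_cases h : P n x <;> by_cases h' : Q n x <;> simp [h, h']

theorem recP_or (hP : RecP P) (hQ : RecP Q) : RecP (fun n x => P n x ∨ Q n x) := by
  refine recP_congr (recP_not (recP_and (recP_not hP) (recP_not hQ))) fun n x => ?_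
  tauto

theorem recP_imp (hP : RecP P) (hQ : RecP Q) : RecP (fun n x => P n x → Q n x) := by
  refine recP_congr (recP_or (recP_not hP) hQ) fun n x => ?_
  tauto

theorem recP_iff (hP : RecP P) (hQ : RecP Q) : RecP (fun n x => (P n x ↔ Q n x)) := by
  refine recP_congr (recP_and (recP_imp hP hQ) (recP_imp hQ hP)) fun n x => ?_
  tauto

theorem recP_true : RecP (fun _ _ => True) := by
  refine Rc4_congr (rec_const 1) fun n x => ?_
  simp

theorem recP_false : RecP (fun _ _ => False) := by
  refine Rc4_congr (rec_const 0) fun n x => ?_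
  simp

private theorem Rc4_rel {p : ℕ → ℕ → Prop} (hp : PrimrecRel p) (hG : Rec G) (hH : Rec H) :
    RecP (fun n x => p (G n x) (H n x)) := by
  have h1 : Primrec₂ (fun a b : ℕ => if p a b then 1 else 0) :=
    Primrec.ite (c := fun q : ℕ × ℕ => p q.1 q.2) hp (Primrec.const 1) (Primrec.const 0)
  refine Rc4_congr (rec_comp₂ h1 hG hH) fun n x => ?_
  by_cases h : p (G n x) (H n x) <;> simp [h]

theorem recP_eq (hG : Rec G) (hH : Rec H) : RecP (fun n x => G n x = H n x) :=
  Rc4_rel (p := fun a b => a = b) Primrec.eq hG hH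

theorem recP_lt (hG : Rec G) (hH : Rec H) : RecP (fun n x => G n x < H n x) :=
  Rc4_rel (p := fun a b => a < b) Primrec.nat_lt hG hH

theorem recP_le (hG : Rec G) (hH : Rec H) : RecP (fun n x => G n x ≤ H n x) :=
  Rc4_rel (p := fun a b => a ≤ b) Primrec.nat_le hG hH

/-- a primitive recursive predicate of the number argument -/
theorem recP_of_primrec {p : ℕ → Prop} [DecidablePred p] (hp : PrimrecPred p) :
    RecP (fun n _ => p n) := by
  have h1 : Primrec (fun a : ℕ => if p a then 1 else 0) :=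
    Primrec.ite hp (Primrec.const 1) (Primrec.const 0)
  refine Rc4_congr (rec_of_primrec h1) fun n x => ?_
  by_cases h : p n <;> simp [h]

/-- a primitive recursive boolean function of a recursive functional -/
theorem recP_bool {f : ℕ → Bool} (hf : Primrec f) (hG : Rec G) :
    RecP (fun n x => f (G n x) = true) := by
  have h1 : Primrec (fun a : ℕ => cond (f a) 1 0) :=
    Primrec.cond hf (Primrec.const 1) (Primrec.const 0)
  refine Rc4_congr (rec_comp h1 hG) fun n x => ?_
  cases h : f (G n x) <;> simp [h]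

theorem recP_subst (hP : RecP P) (hG : Rec G) : RecP (fun n x => P (G n x) x) :=
  rec_subst hP hG

theorem recP_substR (hP : RecP P) (hG : Rec G) (hF : RecR F) :
    RecP (fun n x => P (G n x) (F n x)) :=
  rec_substR hP hG hF

theorem rec_ite (hP : RecP P) (hG : Rec G) (hH : Rec H) :
    Rec (fun n x => if P n x then G n x else H n x) := by
  have h1 : Primrec₂ (fun a b : ℕ => if a = 1 then (Nat.unpair b).1 else (Nat.unpair b).2) := by
    refine Primrec.ite (c := fun q : ℕ × ℕ => q.1 = 1) ?_ ?_ ?_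
    · exact Primrec.eq.comp Primrec.fst (Primrec.const 1)
    · exact Primrec.fst.comp (Primrec.unpair.comp Primrec.snd)
    · exact Primrec.snd.comp (Primrec.unpair.comp Primrec.snd)
  refine Rc4_congr (rec_comp₂ h1 hP (rec_pair hG hH)) fun n x => ?_
  by_cases h : P n x <;> simp [h]

theorem recP_ball (hP : RecP P) (hG : Rec G) :
    RecP (fun n x => ∀ m < G n x, P (Nat.pair n m) x) := by
  have hB : Rec (fun w x => (Nat.unpair (Nat.unpair w).2).2 *
      (if P (Nat.pair (Nat.unpair w).1 (Nat.unpair (Nat.unpair w).2).1) x then 1 else 0)) := by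
    refine rec_comp₂ Primrec.nat_mul (rec_snd (rec_snd rec_id)) ?_
    exact recP_subst hP (rec_pair (rec_fst rec_id) (rec_fst (rec_snd rec_id)))
  have key : ∀ (n : ℕ) (x : ℕ → ℕ) (k : ℕ), Nat.rec (motive := fun _ => ℕ) 1
      (fun y v => v * (if P (Nat.pair n y) x then 1 else 0)) k =
      if ∀ m < k, P (Nat.pair n m) x then 1 else 0 := by
    intro n x k
    induction k with
    | zero => simp
    | succ k ih =>
      show (Nat.rec (motive := fun _ => ℕ) 1
        (fun y v => v * (if P (Nat.pair n y) x then 1 else 0)) k) *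
          (if P (Nat.pair n k) x then 1 else 0) = _
      rw [ih]
      by_cases h : ∀ m < k, P (Nat.pair n m) x
      · by_cases h' : P (Nat.pair n k) x
        · have h3 : ∀ m < k + 1, P (Nat.pair n m) x := by
            intro m hm
            rcases Nat.lt_succ_iff_lt_or_eq.1 hm with h4 | h4
            · exact h m h4
            · rw [h4]; exact h'
          rw [if_pos h, if_pos h', if_pos h3]
        · have h3 : ¬ ∀ m < k + 1, P (Nat.pair n m) x := fun h4 => h' (h4 k (Nat.lt_succ_self k))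
          rw [if_neg h', if_neg h3, mul_zero]
      · have h3 : ¬ ∀ m < k + 1, P (Nat.pair n m) x := fun h4 =>
          h fun m hm => h4 m (Nat.lt_succ_of_lt hm)
        rw [if_neg h, if_neg h3, zero_mul]
  have h1 := rec_prec (rec_const 1) hB
  have h2 := rec_subst h1 (rec_pair rec_id hG)
  refine Rc4_congr h2 fun n x => ?_
  simp only [Nat.unpair_pair]
  refine Eq.trans (Eq.trans ?_ (key n x (G n x))) ?_
  · rfl
  · congr

theorem recP_bex (hP : RecP P) (hG : Rec G) :
    RecP (fun n x => ∃ m < G n x, P (Nat.pair n m) x) := by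
  refine recP_congr (recP_not (recP_ball (recP_not hP) hG)) fun n x => ?_
  constructor
  · intro h1
    by_contra h2
    exact h1 fun m hm hP => h2 ⟨m, hm, hP⟩
  · rintro ⟨m, hm, hP⟩ h1
    exact h1 m hm hP

theorem recP_find (hP : RecP P) (h : ∀ n x, ∃ m, P (Nat.pair n m) x) :
    Rec (fun n x => Nat.find (h n x)) := by
  have h1 : Rec (fun n x => if P n x then 0 else 1) := by
    have h2 : Primrec (fun a : ℕ => 1 - a) := Primrec.nat_sub.comp (Primrec.const 1) Primrec.id
    refine Rc4_congr (rec_comp h2 hP) fun n x => ?_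
    by_cases h : P n x <;> simp [h]
  have h3 : ∀ n x, ∃ m, (if P (Nat.pair n m) x then 0 else 1) = 0 := by
    intro n x
    obtain ⟨m, hm⟩ := h n x
    exact ⟨m, by simp [hm]⟩
  refine Rc4_congr (rec_find h1 h3) fun n x => ?_
  apply le_antisymm
  · apply Nat.find_min'
    have := Nat.find_spec (h n x)
    simp [this]
  · apply Nat.find_min'
    have := Nat.find_spec (h3 n x)
    by_contra h4
    rw [if_neg h4] at this
    exact absurd this one_ne_zero

end BW
end

section

/-!
# BW.G1 : indices of the functions recursive in `x`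

PROOFS.
* `gr_of_apx` : the partial function on numbers `encode (n, s) ↦ g n s` (undefined for `none`) is
  partial recursive, let `c` be a code; `evaln k c (encode (n, pre x j)) = some m` for some `k ≥ j` iff
  `g n (pre x j) = some m` (`Nat.Partrec.Code.evaln_complete`, `evaln_mono`, `evaln_sound`).
* `recursiveIn_of_apx` : `k ↦ encode (pre x k)` is recursive in `x` (primitive recursion `prec` and
  the oracle), so is the search for the least `k` with `g n (pre x k) ≠ none` (`rfind`), then compose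
  with `g`.  The lemmas `RecursiveIn.comp`, `ComputableIn` ... of
  `Mathlib/Computability/RecursiveIn.lean` help.
* `funIn_iff` : from the two, with `g` extracted from a code `c` for the direction `←`: the relation
  `Gr c x n m`, if it is the graph of a function `f`, is the graph of the partial function found by
  searching for the least `k` such that some `j ≤ k` has `evaln k c (encode (n, pre x j)) ≠ none`,
  with the value for the least such `j`; so the monotone approximation is: the value for the least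
  such `(k, j)` with `k ≤ s.length`, using `s.take j`.
* `gr_smn` : `G` has a monotone approximation `g`; code of `encode (n, s) ↦ g (pair a n) s` uniformly in
  `a`: `Nat.Partrec.Code.curry` and `encode` (`Primrec`), as in `Nat.Partrec.Code.smn`.
* `gr_comp` : the functions with an index relative to `F a x` have an index relative to `x`,
  uniformly: approximation at `(n, s)`: with the list `l` of the values of `F a x` which can be computed
  from `s`, search `(k, j)`, `j ≤ k ≤ l.length`.  All values found by `Gr c (F a x)` are found;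
  here `Gr` may be multivalued, so code the output as the input: the new index accepts `(n, m)` ...
  it is enough to enumerate `(k, j)` with `k ≤ s.length`: `Gr (f p) x n m ↔ ∃ k j, j ≤ k ∧ evaln k
  (ofNatCode c) (encode (n, pre (F a x) j)) = some m`.  Because `evaln` with a code can return only one
  value for each input, and inputs `encode (n, s)` for different `s` are independent, let the new code
  on the input `encode (n, s)` decode `s.length = pair k j'` (all pairs `(k,j)` occur), compute the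
  list of the first `j` values of `F a x` from `s` if possible, and return `evaln k c (..)`
  (undefined if not possible or `none`).  To have every pair `(k, j)` with arbitrarily long `s` use
  `s.length = pair (pair k j) i`, `i` large.
-/

namespace BW

open Encodable Nat.Partrec

private theorem G1_gr {c : ℕ} {x : ℕ → ℕ} {n m : ℕ} :
    Gr c x n m ↔ ∃ j, m ∈ (Code.ofNatCode c).eval (encode (n, pre x j)) := by
  constructor
  · rintro ⟨k, j, _, h⟩
    exact ⟨j, Code.evaln_sound (Option.mem_def.2 h)⟩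
  · rintro ⟨j, h⟩
    obtain ⟨k, hk⟩ := Code.evaln_complete.1 h
    exact ⟨max k j, j, le_max_right _ _, Option.mem_def.1 (Code.evaln_mono (le_max_left _ _) hk)⟩

private theorem G1_code {G : ℕ → ℕ → List ℕ → Option ℕ}
    (hG : Primrec (fun p : ℕ × ℕ × List ℕ => G p.1 p.2.1 p.2.2)) :
    ∃ f : ℕ → ℕ, Primrec f ∧ ∀ a x n m, Gr (f a) x n m ↔ ∃ j, G a n (pre x j) = some m := by
  have h1 : Primrec fun z : ℕ => (decode (α := ℕ × List ℕ) (Nat.unpair z).2).bind
      fun q => G (Nat.unpair z).1 q.1 q.2 := by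
    refine Primrec.option_bind (Primrec.decode.comp (Primrec.snd.comp Primrec.unpair)) ?_
    exact hG.comp ((Primrec.fst.comp (Primrec.unpair.comp Primrec.fst)).pair
      ((Primrec.fst.comp Primrec.snd).pair (Primrec.snd.comp Primrec.snd)))
  obtain ⟨c, hc⟩ := Code.exists_code.1 (Partrec.nat_iff.1 (Computable.ofOption h1.to_comp))
  refine ⟨fun a => encode (Code.curry c a), Primrec.encode.comp
    (Code.primrec₂_curry.comp (Primrec.const c) Primrec.id), fun a x n m => ?_⟩
  rw [G1_gr]
  refine exists_congr fun j => ?_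
  rw [← Code.ofNatCode_eq, Denumerable.ofNat_encode, Code.eval_curry, hc]
  simp

theorem gr_of_apx {x : ℕ → ℕ} {f : ℕ →. ℕ} (h : Apx x f) :
    ∃ c, ∀ n m, Gr c x n m ↔ m ∈ f n := by
  obtain ⟨g, hg, _, hv⟩ := h
  obtain ⟨F, _, hF⟩ := G1_code (G := fun _ n s => g n s)
    (hg.comp (Primrec.fst.comp Primrec.snd) (Primrec.snd.comp Primrec.snd))
  exact ⟨F 0, fun n m => by rw [hF, hv]⟩

private theorem G1_prim {x f : ℕ → ℕ} (hf : Primrec f) : FunIn x f :=
  Nat.Primrec.recursiveIn (Primrec.nat_iff.1 hf)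

private theorem G1_comp {x f g : ℕ → ℕ} (hf : FunIn x f) (hg : FunIn x g) :
    FunIn x (fun n => f (g n)) := by
  refine Nat.RecursiveIn.of_eq (Nat.RecursiveIn.comp hf hg) fun n => ?_
  show (Part.some (g n)).bind (fun a => Part.some (f a)) = Part.some (f (g n))
  rw [Part.bind_some]

private theorem G1_pair {x f g : ℕ → ℕ} (hf : FunIn x f) (hg : FunIn x g) :
    FunIn x (fun n => Nat.pair (f n) (g n)) :=
  Nat.RecursiveIn.of_eq (Nat.RecursiveIn.pair hf hg) fun n => by simp [Seq.seq]

theorem funIn_refl (x : ℕ → ℕ) : FunIn x x :=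
  Nat.RecursiveIn.oracle _ (Set.mem_singleton _)

private theorem G1_prec {x a b : ℕ → ℕ} (ha : FunIn x a) (hb : FunIn x b) :
    FunIn x (fun p => Nat.rec (a (Nat.unpair p).1)
      (fun y i => b (Nat.pair (Nat.unpair p).1 (Nat.pair y i))) (Nat.unpair p).2) := by
  have key : ∀ a' n : ℕ, (Nat.rec (Part.some (a a')) (fun y IH => IH >>= fun i =>
      Part.some (b (Nat.pair a' (Nat.pair y i)))) n : Part ℕ) =
      Part.some (Nat.rec (a a') (fun y i => b (Nat.pair a' (Nat.pair y i))) n) := by
    intro a' n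
    induction n with
    | zero => rfl
    | succ n ih =>
      show (Nat.rec (Part.some (a a')) (fun y IH => IH >>= fun i =>
        Part.some (b (Nat.pair a' (Nat.pair y i)))) n : Part ℕ).bind _ = _
      rw [ih, Part.bind_some]
  exact Nat.RecursiveIn.of_eq (Nat.RecursiveIn.prec ha hb) fun p =>
    key (Nat.unpair p).1 (Nat.unpair p).2

private theorem G1_search {x t v : ℕ → ℕ} (ht : FunIn x t) (hv : FunIn x v) :
    Nat.RecursiveIn {(x : ℕ →. ℕ)} (fun n =>
      (Nat.rfind fun k => Part.some (decide (t (Nat.pair n k) = 0))).map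
        fun k => v (Nat.pair n k)) := by
  have h1 := Nat.RecursiveIn.comp hv
    (Nat.RecursiveIn.pair (G1_prim (x := x) Primrec.id) (Nat.RecursiveIn.rfind ht))
  refine Nat.RecursiveIn.of_eq h1 fun n => ?_
  have h2 : (fun k => (fun m => decide (m = 0)) <$> (t : ℕ →. ℕ) (Nat.pair n k)) =
      fun k => (Part.some (decide (t (Nat.pair n k) = 0)) : Part Bool) := by
    funext k
    show (Part.some (t (Nat.pair n k))).map (fun m => decide (m = 0)) = _
    rw [Part.map_some]
  have h3 : (Nat.rfind fun k => (fun m => decide (m = 0)) <$> (t : ℕ →. ℕ) (Nat.pair n k)) =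
      Nat.rfind fun k => (Part.some (decide (t (Nat.pair n k) = 0)) : Part Bool) :=
    congrArg Nat.rfind h2
  show ((Nat.pair <$> Part.some n <*> Nat.rfind fun k => (fun m => decide (m = 0)) <$>
    (t : ℕ →. ℕ) (Nat.pair n k)) : Part ℕ).bind (fun a => Part.some (v a)) = _
  rw [h3]
  generalize (Nat.rfind fun k => (Part.some (decide (t (Nat.pair n k) = 0)) : Part Bool)) = r
  refine Part.ext fun m => ?_
  simp [Seq.seq, eq_comm]

private theorem G1_pre (x : ℕ → ℕ) : FunIn x (fun k => encode (pre x k)) := by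
  have hst : Primrec fun z : ℕ => encode (dl (Nat.unpair z).1 ++ [(Nat.unpair z).2]) :=
    Primrec.encode.comp (Primrec.list_concat.comp (primrec_dl.comp
      (Primrec.fst.comp Primrec.unpair)) (Primrec.snd.comp Primrec.unpair))
  have h1 : Primrec fun z : ℕ => (Nat.unpair (Nat.unpair z).2).1 :=
    Primrec.fst.comp (Primrec.unpair.comp (Primrec.snd.comp Primrec.unpair))
  have h2 : Primrec fun z : ℕ => (Nat.unpair (Nat.unpair z).2).2 :=
    Primrec.snd.comp (Primrec.unpair.comp (Primrec.snd.comp Primrec.unpair))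
  have h3 : FunIn x fun z => encode (dl (Nat.unpair (Nat.unpair z).2).2 ++
      [x (Nat.unpair (Nat.unpair z).2).1]) := by
    have h := G1_comp (G1_prim (x := x) hst) (G1_pair (G1_prim h2)
      (G1_comp (funIn_refl x) (G1_prim h1)))
    simpa only [Nat.unpair_pair] using h
  have h4 := G1_prec (G1_prim (x := x) (Primrec.const (encode ([] : List ℕ)))) h3
  have h5 := G1_comp h4 (G1_pair (G1_prim (x := x) (Primrec.const 0)) (G1_prim Primrec.id))
  have h6 : (fun k => encode (pre x k)) = fun k => (Nat.rec (encode ([] : List ℕ)) (fun y i =>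
      encode (dl i ++ [x y])) k : ℕ) := by
    funext k
    induction k with
    | zero => rfl
    | succ k ih =>
      show _ = encode (dl (Nat.rec (encode ([] : List ℕ)) (fun y i =>
        encode (dl i ++ [x y])) k : ℕ) ++ [x k])
      rw [← ih, dl_encode, pre_succ]
  rw [h6]
  simpa only [Nat.unpair_pair, id] using h5

theorem recursiveIn_of_apx {x : ℕ → ℕ} {f : ℕ →. ℕ} (h : Apx x f) :
    Nat.RecursiveIn {(x : ℕ →. ℕ)} f := by
  obtain ⟨g, hg, hm, hv⟩ := h
  have ht : Primrec fun z : ℕ => if (g (Nat.unpair z).1 (dl (Nat.unpair z).2)).isSome = true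
      then 0 else 1 := by
    refine Primrec.ite ?_ (Primrec.const 0) (Primrec.const 1)
    exact Primrec.eq.comp (Primrec.option_isSome.comp (hg.comp (Primrec.fst.comp Primrec.unpair)
      (primrec_dl.comp (Primrec.snd.comp Primrec.unpair)))) (Primrec.const true)
  have hw : Primrec fun z : ℕ => (g (Nat.unpair z).1 (dl (Nat.unpair z).2)).getD 0 :=
    Primrec.option_getD.comp (hg.comp (Primrec.fst.comp Primrec.unpair)
      (primrec_dl.comp (Primrec.snd.comp Primrec.unpair))) (Primrec.const 0)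
  have hp : FunIn x fun z => Nat.pair (Nat.unpair z).1 (encode (pre x (Nat.unpair z).2)) :=
    G1_pair (G1_prim (Primrec.fst.comp Primrec.unpair))
      (G1_comp (G1_pre x) (G1_prim (Primrec.snd.comp Primrec.unpair)))
  refine Nat.RecursiveIn.of_eq (G1_search (G1_comp (G1_prim (x := x) ht) hp)
    (G1_comp (G1_prim (x := x) hw) hp)) fun n => ?_
  simp only [Nat.unpair_pair, dl_encode]
  have hmem : ∀ k, k ∈ (Nat.rfind fun k => (Part.some (decide
      ((if (g n (pre x k)).isSome = true then 0 else 1) = 0)) : Part Bool)) ↔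
      (g n (pre x k)).isSome = true ∧ ∀ j < k, ¬ (g n (pre x j)).isSome = true := by
    intro k
    refine Nat.mem_rfind.trans ?_
    simp
    intro _
    exact Option.isSome_iff_ne_none.symm
  refine Part.ext fun m => ?_
  rw [Part.mem_map_iff, hv]
  constructor
  · rintro ⟨k, hk, rfl⟩
    obtain ⟨h1, -⟩ := (hmem k).1 hk
    obtain ⟨v, hv'⟩ := Option.isSome_iff_exists.1 h1
    exact ⟨k, by rw [hv']; rfl⟩
  · rintro ⟨k, hk⟩
    have hex : ∃ k, (g n (pre x k)).isSome = true := ⟨k, by rw [hk]; rfl⟩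
    classical
    refine ⟨Nat.find hex, (hmem _).2 ⟨Nat.find_spec hex, fun j hj => Nat.find_min hex hj⟩, ?_⟩
    obtain ⟨v, hv'⟩ := Option.isSome_iff_exists.1 (Nat.find_spec hex)
    have h1 : v ∈ f n := (hv n v).2 ⟨_, hv'⟩
    have h2 : m ∈ f n := (hv n m).2 ⟨_, hk⟩
    rw [hv']
    exact Part.mem_unique h1 h2

/-- the approximation belonging to a code -/
private def G1_ap (c : Code) (n : ℕ) (s : List ℕ) : List ℕ :=
  (List.range (s.length + 1)).filterMap fun N =>
    Code.evaln (Nat.unpair N).1 c (encode (n, s.take (Nat.unpair N).2))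

private theorem G1_ap_primrec (c : Code) : Primrec₂ (G1_ap c) := by
  have h1 : Primrec fun q : (ℕ × List ℕ) × ℕ => Code.evaln (Nat.unpair q.2).1 c
      (encode (q.1.1, q.1.2.take (Nat.unpair q.2).2)) := by
    refine Code.primrec_evaln.comp (((Primrec.fst.comp (Primrec.unpair.comp Primrec.snd)).pair
      (Primrec.const c)).pair (Primrec.encode.comp ((Primrec.fst.comp Primrec.fst).pair
      (Primrec.list_take.comp (Primrec.snd.comp (Primrec.unpair.comp Primrec.snd))
      (Primrec.snd.comp Primrec.fst)))))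
  exact Primrec.listFilterMap (Primrec.list_range.comp (Primrec.succ.comp
    (Primrec.list_length.comp Primrec.snd))) h1

private theorem G1_ap_append (c : Code) (n : ℕ) (s t : List ℕ) :
    ∃ u, G1_ap c n (s ++ t) = G1_ap c n s ++ u := by
  unfold G1_ap
  rw [List.length_append, show s.length + t.length + 1 = (s.length + 1) + t.length by omega,
    List.range_add, List.filterMap_append]
  refine ⟨_, congrArg (· ++ _) (List.filterMap_congr fun N hN => ?_)⟩
  have h1 := List.mem_range.1 hN
  have h2 := Nat.unpair_right_le N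
  rw [List.take_append_of_le_length (by omega)]

private theorem G1_apx {x f : ℕ → ℕ} {c : ℕ} (h : ∀ n m, Gr c x n m ↔ f n = m) :
    Apx x (f : ℕ →. ℕ) := by
  have hmem : ∀ n k m, m ∈ G1_ap (Code.ofNatCode c) n (pre x k) → f n = m := by
    intro n k m hm
    obtain ⟨N, hN, hN'⟩ := List.mem_filterMap.1 hm
    rw [List.mem_range, pre_length] at hN
    have h2 := Nat.unpair_right_le N
    rw [pre_take x (by omega)] at hN'
    exact (h n m).1 (G1_gr.2 ⟨_, Code.evaln_sound (Option.mem_def.2 hN')⟩)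
  refine ⟨fun n s => (G1_ap (Code.ofNatCode c) n s).head?,
    Primrec.list_head?.comp (G1_ap_primrec _), ?_, ?_⟩
  · intro n s t y hy
    obtain ⟨u, hu⟩ := G1_ap_append (Code.ofNatCode c) n s t
    show (G1_ap (Code.ofNatCode c) n (s ++ t)).head? = some y
    have hy' : (G1_ap (Code.ofNatCode c) n s).head? = some y := hy
    rw [hu]
    cases hl : G1_ap (Code.ofNatCode c) n s with
    | nil => rw [hl] at hy'; exact absurd hy' (by simp)
    | cons a l => rw [hl] at hy'; exact hy'
  · intro n m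
    have h0 : m ∈ (f : ℕ →. ℕ) n ↔ f n = m := by
      show m ∈ Part.some (f n) ↔ _
      rw [Part.mem_some_iff, eq_comm]
    rw [h0]
    constructor
    · rintro rfl
      obtain ⟨j, hj⟩ := G1_gr.1 ((h n (f n)).2 rfl)
      obtain ⟨k, hk⟩ := Code.evaln_complete.1 hj
      refine ⟨Nat.pair k j, ?_⟩
      have h1 : f n ∈ G1_ap (Code.ofNatCode c) n (pre x (Nat.pair k j)) := by
        refine List.mem_filterMap.2 ⟨Nat.pair k j, ?_, ?_⟩
        · rw [List.mem_range, pre_length]
          omega
        · rw [Nat.unpair_pair, pre_take x (Nat.right_le_pair k j)]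
          exact hk
      cases hl : G1_ap (Code.ofNatCode c) n (pre x (Nat.pair k j)) with
      | nil => rw [hl] at h1; exact absurd h1 (by simp)
      | cons a l =>
        have h2 := hmem n (Nat.pair k j) a (by rw [hl]; simp)
        show (G1_ap (Code.ofNatCode c) n (pre x (Nat.pair k j))).head? = _
        rw [h2, hl]
        rfl
    · rintro ⟨k, hk⟩
      exact hmem n k m (List.mem_of_mem_head? (Option.mem_def.2 hk))

theorem funIn_iff {x f : ℕ → ℕ} : FunIn x f ↔ ∃ c, ∀ n m, Gr c x n m ↔ f n = m := by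
  constructor
  · intro h
    obtain ⟨c, hc⟩ := gr_of_apx (apx_of_recursiveIn h)
    refine ⟨c, fun n m => (hc n m).trans ?_⟩
    show m ∈ Part.some (f n) ↔ _
    rw [Part.mem_some_iff, eq_comm]
  · rintro ⟨c, hc⟩
    exact recursiveIn_of_apx (G1_apx hc)

/-- a total index gives a function recursive in `x` -/
theorem funIn_of_tot {x : ℕ → ℕ} {c : ℕ} (h : Tot c x) :
    ∃ f, FunIn x f ∧ ∀ n m, Gr c x n m ↔ f n = m := by
  choose f hf hf' using h
  have h1 : ∀ n m, Gr c x n m ↔ f n = m := fun n m =>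
    ⟨fun h => (hf' n m h).symm, fun h => h ▸ hf n⟩
  exact ⟨f, funIn_iff.2 ⟨c, h1⟩, h1⟩

theorem funIn_trans {x y f : ℕ → ℕ} (h : FunIn x y) (h' : FunIn y f) : FunIn x f := by
  refine Nat.RecursiveIn.subst h' fun g hg => ?_
  rw [Set.mem_singleton_iff.1 hg]
  exact h

theorem funIn_of_rec {G : ℕ → (ℕ → ℕ) → ℕ} (hG : Rec G) (x : ℕ → ℕ) (a : ℕ) :
    FunIn x (fun n => G (Nat.pair a n) x) := by
  obtain ⟨g, hg, hm, hv⟩ := hG
  refine recursiveIn_of_apx ⟨fun n s => g (Nat.pair a n) s,
    hg.comp (Primrec₂.natPair.comp (Primrec.const a) Primrec.fst) Primrec.snd,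
    fun n s t y h => hm _ s t y h, fun n m => ?_⟩
  show m ∈ Part.some _ ↔ _
  rw [Part.mem_some_iff]
  constructor
  · rintro rfl
    exact hv _ _
  · rintro ⟨k, hk⟩
    exact rec_unique (hm _) (hv _ _) hk

theorem funIn_of_recR {F : ℕ → (ℕ → ℕ) → ℕ → ℕ} (hF : RecR F) (x : ℕ → ℕ) (a : ℕ) :
    FunIn x (F a x) := by
  have h := funIn_of_rec hF x a
  simpa only [Nat.unpair_pair] using h

theorem gr_smn {G : ℕ → (ℕ → ℕ) → ℕ} (hG : Rec G) :
    ∃ f : ℕ → ℕ, Primrec f ∧ ∀ a x n m, Gr (f a) x n m ↔ G (Nat.pair a n) x = m := by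
  obtain ⟨g, hg, hm, hv⟩ := hG
  obtain ⟨f, hf, hf'⟩ := G1_code (G := fun a n s => g (Nat.pair a n) s)
    (hg.comp (Primrec₂.natPair.comp Primrec.fst (Primrec.fst.comp Primrec.snd))
      (Primrec.snd.comp Primrec.snd))
  refine ⟨f, hf, fun a x n m => (hf' a x n m).trans ⟨?_, ?_⟩⟩
  · rintro ⟨k, hk⟩
    exact (rec_unique (hm _) (hv _ _) hk).symm
  · rintro rfl
    exact hv _ _

/-- the list of the first `j` values, if they can be computed -/
private def G1_vals (g : ℕ → List ℕ → Option ℕ) (a : ℕ) (s : List ℕ) (j : ℕ) :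
    Option (List ℕ) :=
  Nat.rec (some []) (fun i o => o.bind fun l => (g (Nat.pair a i) s).map fun v => l ++ [v]) j

private theorem G1_vals_primrec {g : ℕ → List ℕ → Option ℕ} (hg : Primrec₂ g) :
    Primrec fun p : (ℕ × List ℕ) × ℕ => G1_vals g p.1.1 p.1.2 p.2 := by
  have h1 : Primrec fun q : (((ℕ × List ℕ) × ℕ) × ℕ × Option (List ℕ)) × List ℕ =>
      g (Nat.pair q.1.1.1.1 q.1.2.1) q.1.1.1.2 :=
    hg.comp (Primrec₂.natPair.comp (Primrec.fst.comp (Primrec.fst.comp
      (Primrec.fst.comp Primrec.fst))) (Primrec.fst.comp (Primrec.snd.comp Primrec.fst)))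
      (Primrec.snd.comp (Primrec.fst.comp (Primrec.fst.comp Primrec.fst)))
  have h2 : Primrec₂ fun (q : (((ℕ × List ℕ) × ℕ) × ℕ × Option (List ℕ)) × List ℕ) (v : ℕ) =>
      q.2 ++ [v] := Primrec.list_concat.comp (Primrec.snd.comp Primrec.fst) Primrec.snd
  have h3 : Primrec₂ fun (q : ((ℕ × List ℕ) × ℕ) × ℕ × Option (List ℕ)) (l : List ℕ) =>
      (g (Nat.pair q.1.1.1 q.2.1) q.1.1.2).map fun v => l ++ [v] := Primrec.option_map h1 h2
  have h4 : Primrec₂ fun (p : (ℕ × List ℕ) × ℕ) (q : ℕ × Option (List ℕ)) =>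
      q.2.bind fun l => (g (Nat.pair p.1.1 q.1) p.1.2).map fun v => l ++ [v] :=
    Primrec.option_bind (Primrec.snd.comp Primrec.snd) h3
  exact Primrec.nat_rec' (f := fun p : (ℕ × List ℕ) × ℕ => p.2) (g := fun _ => some [])
    Primrec.snd (Primrec.const _) h4

private theorem G1_vals_eq {g : ℕ → List ℕ → Option ℕ} {y : ℕ → ℕ} {a : ℕ} {s : List ℕ}
    (h : ∀ i v, g (Nat.pair a i) s = some v → v = y i) (j : ℕ) (l : List ℕ)
    (hl : G1_vals g a s j = some l) : l = pre y j := by
  induction j generalizing l with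
  | zero => exact (Option.some_injective _ hl).symm
  | succ j ih =>
    obtain ⟨l', h1, h2⟩ := Option.bind_eq_some_iff.1 hl
    obtain ⟨v, h3, h4⟩ := Option.map_eq_some_iff.1 h2
    rw [pre_succ, ← ih l' h1, ← h v |> fun _ => h _ v h3]
    exact h4.symm

private theorem G1_vals_ex {g : ℕ → List ℕ → Option ℕ} {y x : ℕ → ℕ} {a : ℕ}
    (hm : ∀ n s t y, g n s = some y → g n (s ++ t) = some y)
    (hv : ∀ i, ∃ k, g (Nat.pair a i) (pre x k) = some (y i)) (j : ℕ) :
    ∃ K, ∀ k, K ≤ k → G1_vals g a (pre x k) j = some (pre y j) := by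
  induction j with
  | zero => exact ⟨0, fun k _ => rfl⟩
  | succ j ih =>
    obtain ⟨K, hK⟩ := ih
    obtain ⟨K', hK'⟩ := hv j
    refine ⟨max K K', fun k hk => ?_⟩
    obtain ⟨t, ht⟩ := pre_append x (le_of_max_le_right hk)
    show (G1_vals g a (pre x k) j).bind (fun l => (g (Nat.pair a j) (pre x k)).map
      fun v => l ++ [v]) = _
    rw [hK k (le_of_max_le_left hk), ht, hm _ _ t _ hK', pre_succ]
    rfl

theorem gr_comp {F : ℕ → (ℕ → ℕ) → ℕ → ℕ} (hF : RecR F) :
    ∃ f : ℕ → ℕ, Primrec f ∧ ∀ c a x n m,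
      Gr (f (Nat.pair c a)) x n m ↔ Gr c (F a x) n m := by
  obtain ⟨g, hg, hm, hv⟩ := hF
  have hv' : ∀ a i x, ∃ k, g (Nat.pair a i) (pre x k) = some (F a x i) := by
    intro a i x
    have h := hv (Nat.pair a i) x
    simpa only [Nat.unpair_pair] using h
  have hG : Primrec (fun p : ℕ × ℕ × List ℕ =>
      (G1_vals g (Nat.unpair p.1).2 p.2.2 (Nat.unpair (Nat.unpair p.2.2.length).1).2).bind
      fun l => Code.evaln (Nat.unpair (Nat.unpair p.2.2.length).1).1
        (Code.ofNatCode (Nat.unpair p.1).1) (encode (p.2.1, l))) := by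
    have hlen : Primrec fun p : ℕ × ℕ × List ℕ => (Nat.unpair p.2.2.length).1 :=
      Primrec.fst.comp (Primrec.unpair.comp (Primrec.list_length.comp
        (Primrec.snd.comp Primrec.snd)))
    have hcode : Primrec fun n : ℕ => Code.ofNatCode n := by
      rw [← Code.ofNatCode_eq]
      exact Primrec.ofNat Code
    refine Primrec.option_bind ?_ ?_
    · exact (G1_vals_primrec hg).comp (((Primrec.snd.comp (Primrec.unpair.comp
        Primrec.fst)).pair (Primrec.snd.comp Primrec.snd)).pair
        (Primrec.snd.comp (Primrec.unpair.comp hlen)))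
    · exact Code.primrec_evaln.comp (((Primrec.fst.comp (Primrec.unpair.comp
        (hlen.comp Primrec.fst))).pair (hcode.comp (Primrec.fst.comp (Primrec.unpair.comp
        (Primrec.fst.comp Primrec.fst))))).pair (Primrec.encode.comp
        ((Primrec.fst.comp (Primrec.snd.comp Primrec.fst)).pair Primrec.snd)))
  obtain ⟨f, hf, hf'⟩ := G1_code (G := fun p n s =>
    (G1_vals g (Nat.unpair p).2 s (Nat.unpair (Nat.unpair s.length).1).2).bind
      fun l => Code.evaln (Nat.unpair (Nat.unpair s.length).1).1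
        (Code.ofNatCode (Nat.unpair p).1) (encode (n, l))) hG
  refine ⟨f, hf, fun c a x n m => (hf' _ x n m).trans ?_⟩
  rw [G1_gr]
  simp only [Nat.unpair_pair, pre_length]
  constructor
  · rintro ⟨J, hJ⟩
    obtain ⟨l, h1, h2⟩ := Option.bind_eq_some_iff.1 hJ
    have h3 := G1_vals_eq (y := F a x) (fun i v h => rec_unique (hm _) (hv' a i x) h) _ l h1
    rw [h3] at h2
    exact ⟨_, Code.evaln_sound (Option.mem_def.2 h2)⟩
  · rintro ⟨j, hj⟩
    obtain ⟨k, hk⟩ := Code.evaln_complete.1 hj
    obtain ⟨K, hK⟩ := G1_vals_ex hm (fun i => hv' a i x) j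
    refine ⟨Nat.pair (Nat.pair k j) K, ?_⟩
    simp only [Nat.unpair_pair]
    rw [hK _ (Nat.right_le_pair _ _)]
    exact hk

end BW
end

section

/-!
# BW.O2 : the ordinals recursive in `x` and `ω₁^x`

PROOFS.
* normalisation: if `OrdIn x α` then there is a relation recursive in `x` with type `α` which is
  moreover `IsLin`: replace `R` by `R a b ∧ R a a ∧ R b b` (recursive in `x` : `funIn_iff`/`Nat.RecursiveIn`
  closure, or `Rec` closure: `funIn_of_rec` with the oracle `f` and `funIn_trans`).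
* `ordIn_down` : `hasType_seg`, and `seg R c` is recursive in `x`.
* `ordIn_iff` : the set of recursive ordinals is downward closed; it is not everything since all
  its members are countable (`hasType_countable`); so it is `{α | α < sInf of the complement}`.
* `exists_index` : `ordIn_iff`, the normalisation and `funIn_iff`: index `c` of the function `f`
  with `R a b ↔ f (pair a b) = 1`; then `Tot c x`, `Rl c x a b ↔ R a b`.
* `lt_of_index` : `funIn_of_tot`.
* `omega1_mono` : a relation recursive in `y` is recursive in `x` (`funIn_trans`).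
* `omega1_pos`, `omega0_le` : finite orders and the order of `ℕ` are recursive.
* `ordIn_rl` : the relation coded by a real recursive in `x` (or by `x` itself).
-/

namespace BW

variable {x y : ℕ → ℕ} {α β : Ordinal.{0}}

/-- relations defined from a relation recursive in `x` are recursive in `x` -/
private theorem O2_relIn {R S : ℕ → ℕ → Prop} (hR : RelIn x R) {P : ℕ → (ℕ → ℕ) → Prop}
    (hP : RecP P) (h : ∀ f : ℕ → ℕ, (∀ a b, R a b ↔ f (Nat.pair a b) = 1) →
      ∀ a b, S a b ↔ P (Nat.pair a b) f) : RelIn x S := by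
  classical
  obtain ⟨f, hf, hfR⟩ := hR
  have h1 : Rec (fun m z => if P (Nat.unpair m).2 z then 1 else 0) :=
    rec_ite (recP_subst hP (rec_snd rec_id)) (rec_const 1) (rec_const 0)
  have h2 := funIn_of_rec h1 f 0
  simp only [Nat.unpair_pair] at h2
  refine ⟨fun n => if P n f then 1 else 0, funIn_trans hf h2, fun a b => ?_⟩
  rw [h f hfR a b]
  by_cases hp : P (Nat.pair a b) f
  · simp [hp]
  · simp [hp]

private theorem O2_norm (h : OrdIn x α) : ∃ R, RelIn x R ∧ IsLin R ∧ HasType R α := by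
  obtain ⟨R, hR, f, f1, f2, f3, f4⟩ := h
  refine ⟨fun a b => R a b ∧ R a a ∧ R b b, ?_, ?_, f, ?_, ?_, ?_, ?_⟩
  · have hP : RecP (fun m z : _ => z m = 1 ∧ (z (Nat.pair (Nat.unpair m).1 (Nat.unpair m).1) = 1 ∧
        z (Nat.pair (Nat.unpair m).2 (Nat.unpair m).2) = 1)) :=
      recP_and (recP_eq (rec_app rec_id) (rec_const 1))
        (recP_and (recP_eq (rec_app (rec_pair (rec_fst rec_id) (rec_fst rec_id))) (rec_const 1))
          (recP_eq (rec_app (rec_pair (rec_snd rec_id) (rec_snd rec_id))) (rec_const 1)))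
    refine O2_relIn hR hP ?_
    intro f hf a b
    simp only [Nat.unpair_pair]
    rw [hf, hf, hf]
  · refine ⟨?_, ?_, ?_, ?_⟩
    · rintro a b ⟨h1, h2, h3⟩
      exact ⟨⟨h2, h2, h2⟩, ⟨h3, h3, h3⟩⟩
    · rintro a b ⟨h1, h2, h3⟩ ⟨h4, _, _⟩
      exact f2 a b h2 h3 (le_antisymm ((f1 a b h2 h3).1 h1) ((f1 b a h3 h2).1 h4))
    · rintro a b c ⟨h1, h2, h3⟩ ⟨h4, _, h5⟩
      exact ⟨(f1 a c h2 h5).2 (le_trans ((f1 a b h2 h3).1 h1) ((f1 b c h3 h5).1 h4)), h2, h5⟩
    · rintro a b ⟨h1, _, _⟩ ⟨h2, _, _⟩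
      rcases le_total (f a) (f b) with hle | hle
      · exact Or.inl ⟨(f1 a b h1 h2).2 hle, h1, h2⟩
      · exact Or.inr ⟨(f1 b a h2 h1).2 hle, h2, h1⟩
  · rintro a b ⟨ha, _, _⟩ ⟨hb, _, _⟩
    rw [← f1 a b ha hb]
    exact ⟨fun h => h.1, fun h => ⟨h, ha, hb⟩⟩
  · rintro a b ⟨ha, _, _⟩ ⟨hb, _, _⟩ he
    exact f2 a b ha hb he
  · rintro a ⟨ha, _, _⟩
    exact f3 a ha
  · intro γ hγ
    obtain ⟨a, ha, hfa⟩ := f4 γ hγ
    exact ⟨a, ⟨ha, ha, ha⟩, hfa⟩

theorem ordIn_down (h : OrdIn x α) (hb : β ≤ α) : OrdIn x β := by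
  obtain ⟨R, hR, hl, hT⟩ := O2_norm h
  rcases hb.lt_or_eq with hlt | rfl
  · obtain ⟨c, hc, hseg⟩ := hasType_seg hl hT hlt
    refine ⟨seg R c, ?_, hseg⟩
    have hP : RecP (fun m z : _ => z m = 1 ∧ (z (Nat.pair (Nat.unpair m).2 c) = 1 ∧
        ¬ ((Nat.unpair m).2 = c))) :=
      recP_and (recP_eq (rec_app rec_id) (rec_const 1))
        (recP_and (recP_eq (rec_app (rec_pair (rec_snd rec_id) (rec_const c))) (rec_const 1))
          (recP_not (recP_eq (rec_snd rec_id) (rec_const c))))
    refine O2_relIn hR hP ?_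
    intro f hf a b
    simp only [Nat.unpair_pair]
    unfold seg strict
    rw [hf, hf]
  · exact ⟨R, hR, hT⟩

theorem ordIn_iff : OrdIn x α ↔ α < omega1 x := by
  constructor
  · intro h
    by_contra hlt
    push Not at hlt
    have h1 : OrdIn x (omega1 x) := ordIn_down h hlt
    have hne : {γ : Ordinal.{0} | ¬ OrdIn x γ}.Nonempty := by
      refine ⟨Ordinal.omega 1, ?_⟩
      rintro ⟨R, _, hT⟩
      exact lt_irrefl _ (hasType_countable hT)
    exact csInf_mem hne h1
  · intro h
    by_contra hn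
    have h1 : omega1 x ≤ α := csInf_le' hn
    exact absurd (lt_of_lt_of_le h h1) (lt_irrefl _)

theorem exists_index (h : α < omega1 x) :
    ∃ c, Tot c x ∧ IsWO (Rl c x) ∧ HasType (Rl c x) α := by
  obtain ⟨R, ⟨f, hf, hfR⟩, hl, hT⟩ := O2_norm (ordIn_iff.2 h)
  obtain ⟨c, hc⟩ := funIn_iff.1 hf
  have hRl : Rl c x = R := by
    funext a b
    apply propext
    unfold Rl
    rw [hc, hfR]
  refine ⟨c, fun n => ⟨f n, (hc n _).2 rfl, fun m hm => ((hc n m).1 hm).symm⟩, ?_, ?_⟩
  · rw [hRl]; exact hasType_isWO hl hT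
  · rw [hRl]; exact hT

theorem lt_of_index {c : ℕ} (h : Tot c x) (h' : HasType (Rl c x) α) : α < omega1 x := by
  obtain ⟨f, hf, hc⟩ := funIn_of_tot h
  exact ordIn_iff.1 ⟨Rl c x, ⟨f, hf, fun a b => hc _ _⟩, h'⟩

theorem omega1_mono (h : FunIn x y) : omega1 y ≤ omega1 x := by
  apply le_of_forall_lt
  intro γ hγ
  obtain ⟨R, ⟨f, hf, hfR⟩, hT⟩ := ordIn_iff.2 hγ
  exact ordIn_iff.1 ⟨R, ⟨f, funIn_trans h hf, hfR⟩, hT⟩

theorem omega1_pos : 0 < omega1 x := by
  refine ordIn_iff.1 ⟨fun _ _ => False, ⟨fun _ => 0, funIn_of_rec (rec_const 0) x 0, ?_⟩, ?_⟩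
  · intro a b; simp
  · refine ⟨fun _ => 0, ?_, ?_, ?_, ?_⟩
    · intro a b ha; exact ha.elim
    · intro a b ha; exact ha.elim
    · intro a ha; exact ha.elim
    · intro γ hγ; exact absurd hγ (not_lt.2 (bot_le))

theorem omega0_lt : Ordinal.omega0 < omega1 x := by
  have hP : RecP (fun m _ => (Nat.unpair (Nat.unpair m).2).1 ≤ (Nat.unpair (Nat.unpair m).2).2) :=
    recP_le (rec_fst (rec_snd rec_id)) (rec_snd (rec_snd rec_id))
  have hG := funIn_of_rec (rec_ite hP (rec_const 1) (rec_const 0)) x 0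
  simp only [Nat.unpair_pair] at hG
  refine ordIn_iff.1 ⟨fun a b => a ≤ b, ⟨_, hG, fun a b => ?_⟩, fun a => (a : Ordinal.{0}), ?_⟩
  · by_cases hab : a ≤ b
    · simp [hab]
    · simp [hab]
  · refine ⟨?_, ?_, ?_, ?_⟩
    · intro a b _ _; exact Nat.cast_le.symm
    · intro a b _ _ he; exact Nat.cast_injective he
    · intro a _; exact Ordinal.natCast_lt_omega0 a
    · intro γ hγ
      obtain ⟨n, rfl⟩ := Ordinal.lt_omega0.1 hγ
      exact ⟨n, le_refl n, rfl⟩

theorem succ_lt_omega1 (h : α < omega1 x) : Order.succ α < omega1 x := by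
  obtain ⟨R, hR, f, f1, f2, f3, f4⟩ := ordIn_iff.2 h
  have hP : RecP (fun m z : _ => ((Nat.unpair m).2 = 0 ∧ ((Nat.unpair m).1 = 0 ∨
      z (Nat.pair ((Nat.unpair m).1 - 1) ((Nat.unpair m).1 - 1)) = 1)) ∨
      (0 < (Nat.unpair m).1 ∧ (0 < (Nat.unpair m).2 ∧
        z (Nat.pair ((Nat.unpair m).1 - 1) ((Nat.unpair m).2 - 1)) = 1))) := by
    have p1 : Rec (fun m _ => (Nat.unpair m).1 - 1) :=
      rec_comp Primrec.pred (rec_fst rec_id)
    have p2 : Rec (fun m _ => (Nat.unpair m).2 - 1) :=
      rec_comp Primrec.pred (rec_snd rec_id)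
    exact recP_or (recP_and (recP_eq (rec_snd rec_id) (rec_const 0))
        (recP_or (recP_eq (rec_fst rec_id) (rec_const 0))
          (recP_eq (rec_app (rec_pair p1 p1)) (rec_const 1))))
      (recP_and (recP_lt (rec_const 0) (rec_fst rec_id))
        (recP_and (recP_lt (rec_const 0) (rec_snd rec_id))
          (recP_eq (rec_app (rec_pair p1 p2)) (rec_const 1))))
  have hS := O2_relIn (S := fun a b => (b = 0 ∧ (a = 0 ∨ R (a - 1) (a - 1))) ∨
      (0 < a ∧ (0 < b ∧ R (a - 1) (b - 1)))) hR hP (by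
    intro g hg a b
    simp only [Nat.unpair_pair]
    rw [hg, hg])
  refine ordIn_iff.1 ⟨_, hS, ?_⟩
  refine ⟨fun a => if a = 0 then α else f (a - 1), ?_, ?_, ?_, ?_⟩
  · intro a b ha hb
    rcases Nat.eq_zero_or_pos a with rfl | ha0
    · rcases Nat.eq_zero_or_pos b with rfl | hb0
      · simp
      · have hb1 : R (b - 1) (b - 1) := by
          rcases hb with hb | hb
          · omega
          · exact hb.2.2
        have := f3 _ hb1
        simp [hb0.ne', this]
    · have ha1 : R (a - 1) (a - 1) := by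
        rcases ha with ha | ha
        · omega
        · exact ha.2.2
      rcases Nat.eq_zero_or_pos b with rfl | hb0
      · have := (f3 _ ha1).le
        simp [ha0.ne', ha1, this]
      · have hb1 : R (b - 1) (b - 1) := by
          rcases hb with hb | hb
          · omega
          · exact hb.2.2
        have := f1 _ _ ha1 hb1
        simp [ha0.ne', hb0.ne', ha0, hb0, this]
  · intro a b ha hb he
    rcases Nat.eq_zero_or_pos a with rfl | ha0
    · rcases Nat.eq_zero_or_pos b with rfl | hb0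
      · rfl
      · have hb1 : R (b - 1) (b - 1) := by
          rcases hb with hb | hb
          · omega
          · exact hb.2.2
        have := f3 _ hb1
        simp [hb0.ne'] at he
        exact absurd he this.ne'
    · have ha1 : R (a - 1) (a - 1) := by
        rcases ha with ha | ha
        · omega
        · exact ha.2.2
      rcases Nat.eq_zero_or_pos b with rfl | hb0
      · have := f3 _ ha1
        simp [ha0.ne'] at he
        exact absurd he this.ne
      · have hb1 : R (b - 1) (b - 1) := by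
          rcases hb with hb | hb
          · omega
          · exact hb.2.2
        simp [ha0.ne', hb0.ne'] at he
        have := f2 _ _ ha1 hb1 he
        omega
  · intro a ha
    rcases Nat.eq_zero_or_pos a with rfl | ha0
    · simp
    · have ha1 : R (a - 1) (a - 1) := by
        rcases ha with ha | ha
        · omega
        · exact ha.2.2
      have := f3 _ ha1
      simp only [ha0.ne', if_false]
      exact lt_trans this (Order.lt_succ α)
  · intro γ hγ
    rcases (Order.lt_succ_iff.1 hγ).lt_or_eq with hlt | rfl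
    · obtain ⟨a, ha, hfa⟩ := f4 γ hlt
      refine ⟨a + 1, Or.inr ⟨Nat.succ_pos _, Nat.succ_pos _, by simpa using ha⟩, by simpa using hfa⟩
    · exact ⟨0, Or.inl ⟨rfl, Or.inl rfl⟩, by simp⟩

theorem omega1_countable : omega1 x < Ordinal.omega 1 := by
  classical
  let g : ℕ → Ordinal.{0} := fun c =>
    if h : ∃ γ, HasType (Rl c x) γ then Order.succ h.choose else 0
  have hg : ∀ c, g c < Ordinal.omega 1 := by
    intro c
    by_cases h : ∃ γ, HasType (Rl c x) γ
    · have e : g c = Order.succ h.choose := by simp only [g]; rw [dif_pos h]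
      rw [e]
      exact (Cardinal.isSuccLimit_omega 1).succ_lt (hasType_countable h.choose_spec)
    · have e : g c = 0 := by simp only [g]; rw [dif_neg h]
      rw [e]
      exact Ordinal.omega_pos 1
  have hsup : (⨆ c, g c) < Ordinal.omega 1 := Ordinal.iSup_lt_omega_one hg
  refine lt_of_le_of_lt ?_ hsup
  apply le_of_forall_lt
  intro γ hγ
  obtain ⟨c, _, _, hT⟩ := exists_index hγ
  have h : ∃ γ, HasType (Rl c x) γ := ⟨γ, hT⟩
  have e : g c = Order.succ h.choose := by simp only [g]; rw [dif_pos h]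
  have e2 : h.choose = γ := hasType_unique h.choose_spec hT
  have h3 : γ < g c := by rw [e, e2]; exact Order.lt_succ γ
  exact lt_of_lt_of_le h3 (Ordinal.le_iSup g c)

theorem lt_of_rl (h : HasType (rl x) α) : α < omega1 x := by
  exact ordIn_iff.1 ⟨rl x, ⟨x, funIn_refl x, fun a b => Iff.rfl⟩, h⟩

/-- every countable ordinal is recursive in some real -/
theorem exists_real_gt (h : α < Ordinal.omega 1) : ∃ x, α < omega1 x := by
  classical
  obtain ⟨R, _, hT⟩ := exists_rel_type h
  refine ⟨fun n => if R (Nat.unpair n).1 (Nat.unpair n).2 then 1 else 0, lt_of_rl ?_⟩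
  have e : rl (fun n => if R (Nat.unpair n).1 (Nat.unpair n).2 then 1 else 0) = R := by
    funext a b
    apply propext
    unfold rl
    simp only [Nat.unpair_pair]
    by_cases hr : R a b
    · simp [hr]
    · simp [hr]
  rw [e]; exact hT

end BW
end

section

/-!
# BW.S1 : `Σ¹₁` predicates: recursive predicates, substitution, and, or

PROOFS.
* `s11_of_rec` : take `Q' (pair n k) (jn x w) := Q n x`, i.e. the predicate
  `fun m u => Q (unpair m).1 (p1 u)` (`recP_substR`).
* `s11_subst` : `P (G n x) (F n x) ↔ ∃ w ∀ k Q (pair (G n x) k) (jn (F n x) w)`; the predicate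
  `fun m u => Q (pair (G (unpair m).1 (p1 u)) (unpair m).2) (jn (F (unpair m).1 (p1 u)) (p2 u))`
  is recursive (`recP_substR`, `recR_jn`, `recR_subst`).
* `s11_and` : the witness codes a pair `w = jn w₁ w₂`: `fun m u => Q₁ m (jn (p1 u) (p1 (p2 u))) ∧
  Q₂ m (jn (p1 u) (p2 (p2 u)))`; from `w` go to `p1 w`, `p2 w`; conversely to `jn w₁ w₂`.
* `s11_or` : as for `and`, with the first value of the witness choosing the side: the predicate
  `if (p2 u) 0 = 0 then Q₁ m (jn (p1 u) (shift (p2 u))) else Q₂ ..`, `shift w k = w (k+1)`.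
-/

namespace BW

variable {P Q : ℕ → (ℕ → ℕ) → Prop} {G : ℕ → (ℕ → ℕ) → ℕ} {F : ℕ → (ℕ → ℕ) → ℕ → ℕ}

theorem s11_congr (hP : S11 P) (h : ∀ n x, P n x ↔ Q n x) : S11 Q := by
  obtain ⟨R, hR, hh⟩ := hP
  exact ⟨R, hR, fun n x => (h n x).symm.trans (hh n x)⟩

theorem s11_of_rec (hQ : RecP Q) : S11 Q := by
  refine ⟨fun m u => Q (Nat.unpair m).1 (p1 u),
    recP_substR hQ (rec_fst rec_id) (recR_p1 recR_id), fun n x => ?_⟩
  constructor
  · intro h
    refine ⟨fun _ => 0, fun k => ?_⟩
    simp only [Nat.unpair_pair, p1_jn]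
    exact h
  · rintro ⟨w, hw⟩
    have h := hw 0
    simp only [Nat.unpair_pair, p1_jn] at h
    exact h

theorem s11_subst (hP : S11 P) (hG : Rec G) (hF : RecR F) :
    S11 (fun n x => P (G n x) (F n x)) := by
  obtain ⟨R, hR, hh⟩ := hP
  refine ⟨fun m u => R (Nat.pair (G (Nat.unpair m).1 (p1 u)) (Nat.unpair m).2)
      (jn (F (Nat.unpair m).1 (p1 u)) (p2 u)), ?_, fun n x => ?_⟩
  · exact recP_substR hR
      (rec_pair (rec_substR hG (rec_fst rec_id) (recR_p1 recR_id)) (rec_snd rec_id))
      (recR_jn (recR_subst hF (rec_fst rec_id) (recR_p1 recR_id)) (recR_p2 recR_id))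
  · beta_reduce
    rw [hh]
    refine exists_congr fun w => forall_congr' fun k => ?_
    simp only [Nat.unpair_pair, p1_jn, p2_jn]

theorem s11_and (hP : S11 P) (hQ : S11 Q) : S11 (fun n x => P n x ∧ Q n x) := by
  obtain ⟨R, hR, hh⟩ := hP
  obtain ⟨R', hR', hh'⟩ := hQ
  refine ⟨fun m u => R m (jn (p1 u) (p1 (p2 u))) ∧ R' m (jn (p1 u) (p2 (p2 u))), ?_, fun n x => ?_⟩
  · exact recP_and
      (recP_substR hR rec_id (recR_jn (recR_p1 recR_id) (recR_p1 (recR_p2 recR_id))))
      (recP_substR hR' rec_id (recR_jn (recR_p1 recR_id) (recR_p2 (recR_p2 recR_id))))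
  · beta_reduce
    rw [hh, hh']
    constructor
    · rintro ⟨⟨w, hw⟩, ⟨w', hw'⟩⟩
      refine ⟨jn w w', fun k => ?_⟩
      simp only [p1_jn, p2_jn]
      exact ⟨hw k, hw' k⟩
    · rintro ⟨w, hw⟩
      simp only [p1_jn, p2_jn] at hw
      exact ⟨⟨p1 w, fun k => (hw k).1⟩, ⟨p2 w, fun k => (hw k).2⟩⟩

private theorem S1_shift : RecR (fun _ u k => (p2 u) (k + 1)) := by
  have h : Rec (fun m u => (p2 u) ((Nat.unpair m).2 + 1)) :=
    recR_app (recR_p2 recR_id) (rec_comp Primrec.succ (rec_snd rec_id))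
  have h2 := recR_mk h
  simpa only [Nat.unpair_pair] using h2

theorem s11_or (hP : S11 P) (hQ : S11 Q) : S11 (fun n x => P n x ∨ Q n x) := by
  obtain ⟨R, hR, hh⟩ := hP
  obtain ⟨R', hR', hh'⟩ := hQ
  refine ⟨fun m u => ((p2 u) 0 = 0 ∧ R m (jn (p1 u) (fun k => (p2 u) (k + 1)))) ∨
    (¬ (p2 u) 0 = 0 ∧ R' m (jn (p1 u) (fun k => (p2 u) (k + 1)))), ?_, fun n x => ?_⟩
  · have h0 : RecP (fun _ u => (p2 u) 0 = 0) :=
      recP_eq (recR_app (recR_p2 recR_id) (rec_const 0)) (rec_const 0)
    exact recP_or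
      (recP_and h0 (recP_substR hR rec_id (recR_jn (recR_p1 recR_id) S1_shift)))
      (recP_and (recP_not h0) (recP_substR hR' rec_id (recR_jn (recR_p1 recR_id) S1_shift)))
  · beta_reduce
    rw [hh, hh']
    constructor
    · rintro (⟨w, hw⟩ | ⟨w, hw⟩)
      · refine ⟨fun k => Nat.casesOn k 0 w, fun k => ?_⟩
        simp only [p1_jn, p2_jn]
        exact Or.inl ⟨rfl, hw k⟩
      · refine ⟨fun k => Nat.casesOn k 1 w, fun k => ?_⟩
        simp only [p1_jn, p2_jn]
        exact Or.inr ⟨one_ne_zero, hw k⟩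
    · rintro ⟨w, hw⟩
      simp only [p1_jn, p2_jn] at hw
      by_cases h0 : w 0 = 0
      · left
        refine ⟨fun k => w (k + 1), fun k => ?_⟩
        rcases hw k with h | h
        · exact h.2
        · exact absurd h0 h.1
      · right
        refine ⟨fun k => w (k + 1), fun k => ?_⟩
        rcases hw k with h | h
        · exact absurd h.1 h0
        · exact h.2

/-- recursive hypotheses -/
theorem s11_imp (hP : RecP P) (hQ : S11 Q) : S11 (fun n x => P n x → Q n x) :=
  s11_congr (s11_or (s11_of_rec (recP_not hP)) hQ) (fun n x => by tauto)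

end BW
end
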