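import Pool.Agent.Lib.MP_62bfd3_lc.Mg.G001
import Pool.Agent.Lib.MP_62bfd3_lc.BW.Fm2
import Pool.Agent.Lib.MP_62bfd3_lc.BW.M1

section

/-!
# BW.A0 : structures coded by reals, their images and pull-backs

PROOFS.  Every number is `Nat.pair k (encode l)` (`encode_dl`, `Nat.pair_unpair`), so equalities of
reals are checked on such numbers with `img_apply`, `pbE_zero`, `pbE_succ`.
* `pbE_img` : for an injective `h`: `h (g a) = h (g b) ↔ g a = g b`.
* `recR_img` : `l ↦ l.map h` on codes: `encode (l.map (H n x))` is a recursive functional of `n`, the code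
  `q` of `l` and `x`: the entries of `l` are `< q + 1` or so, hence it is a primitive recursive function of
  `q` and `encode (pre (H n x) (q + 1))` (`Encodable` lists of numbers: every entry `a ∈ dl q` satisfies
  `a ≤ q`, by `Nat.left_le_pair` and induction); then `rec_pre`, `rec_substR`, `recR_app`.  Or by
  primitive recursion on the length of the list (`rec_prec`).
* `recR_pbE` : the same, with a case distinction (`rec_ite`) for the relation number `0`.
* `omega1S` : the set `{α | ∃ y, Cp x y ∧ omega1 y = α}` is nonempty (`y = x`, `cp_refl`), so the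
  infimum is attained (`csInf_mem`); it depends only on the class of `x` (`cp_symm`, `cp_trans`).
-/

namespace BW

open Encodable

variable {x y : ℕ → ℕ} {F H : ℕ → (ℕ → ℕ) → ℕ → ℕ}

private theorem A0_mem_le (l : List ℕ) (a : ℕ) (h : a ∈ l) : a ≤ encode l := by
  induction l with
  | nil => simp at h
  | cons b l ih =>
    rw [Encodable.encode_list_cons]
    rcases List.mem_cons.1 h with rfl | h
    · exact le_trans (Nat.left_le_pair _ _) (Nat.le_succ _)
    · exact le_trans (ih h) (le_trans (Nat.right_le_pair _ _) (Nat.le_succ _))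

theorem mem_dl_le {q a : ℕ} (h : a ∈ dl q) : a ≤ q := by
  have h1 := A0_mem_le (dl q) a h
  rwa [encode_dl] at h1

private theorem A0_ext {f g : ℕ → ℕ}
    (h : ∀ (k : ℕ) (l : List ℕ), f (Nat.pair k (encode l)) = g (Nat.pair k (encode l))) : f = g := by
  funext n
  have h1 := h (Nat.unpair n).1 (dl (Nat.unpair n).2)
  rwa [encode_dl, Nat.pair_unpair] at h1

theorem img_apply (h x : ℕ → ℕ) (k : ℕ) (l : List ℕ) :
    img h x (Nat.pair k (encode l)) = x (Nat.pair k (encode (l.map h))) := by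
  simp only [img, Nat.unpair_pair, dl_encode]

theorem pbE_zero (x g : ℕ → ℕ) (l : List ℕ) :
    pbE x g (Nat.pair 0 (encode l)) = (match l with
      | [a, b] => if g a = g b then 1 else 0
      | _ => 0) := by
  simp only [pbE, Nat.unpair_pair, dl_encode]
  rcases l with _ | ⟨a, _ | ⟨b, _ | ⟨c, l⟩⟩⟩ <;> rfl

theorem pbE_succ (x g : ℕ → ℕ) (k : ℕ) (l : List ℕ) :
    pbE x g (Nat.pair (k + 1) (encode l)) = x (Nat.pair k (encode (l.map g))) := by
  simp only [pbE, Nat.unpair_pair, dl_encode]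

theorem img_id (x : ℕ → ℕ) : img id x = x := by
  refine A0_ext fun k l => ?_
  rw [img_apply, List.map_id]

theorem img_img (g h x : ℕ → ℕ) : img g (img h x) = img (h ∘ g) x := by
  refine A0_ext fun k l => ?_
  rw [img_apply, img_apply, img_apply, List.map_map]

theorem pbE_img {h : ℕ → ℕ} (hh : Function.Injective h) (g x : ℕ → ℕ) :
    pbE (img h x) g = pbE x (h ∘ g) := by
  refine A0_ext fun k l => ?_
  cases k with
  | zero =>
    rw [pbE_zero, pbE_zero]
    rcases l with _ | ⟨a, _ | ⟨b, _ | ⟨c, l⟩⟩⟩ <;> simp [hh.eq_iff]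
  | succ k =>
    rw [pbE_succ, pbE_succ, img_apply, List.map_map]

theorem cp_refl (x : ℕ → ℕ) : Cp x x := ⟨Equiv.refl ℕ, (img_id x).symm⟩

theorem cp_symm (h : Cp x y) : Cp y x := by
  obtain ⟨h, rfl⟩ := h
  refine ⟨h.symm, ?_⟩
  rw [img_img, Equiv.self_comp_symm, img_id]

theorem cp_trans {w : ℕ → ℕ} (h : Cp x y) (h' : Cp y w) : Cp x w := by
  obtain ⟨h, rfl⟩ := h
  obtain ⟨h', rfl⟩ := h'
  refine ⟨h'.trans h, ?_⟩
  rw [img_img]
  rfl

/-- the code of the image of a list -/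
private def A0_map (q : ℕ) (x : ℕ → ℕ) : ℕ := encode ((dl q).map x)

private theorem A0_rec_map : Rec A0_map := by
  have hp : Primrec₂ (fun q e : ℕ => encode ((dl q).map (fun a => (dl e).getD a 0))) := by
    refine Primrec.encode.comp ?_
    refine Primrec.list_map (primrec_dl.comp Primrec.fst) ?_
    exact (Primrec.list_getD 0).comp₂
      ((primrec_dl.comp (Primrec.snd.comp Primrec.fst)).to₂) Primrec₂.right
  have h := rec_comp₂ hp rec_id (rec_pre (rec_of_primrec Primrec.succ))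
  have he : (fun (n : ℕ) (x : ℕ → ℕ) => encode ((dl n).map
      (fun a => (dl (encode (pre x (Nat.succ n)))).getD a 0))) = A0_map := by
    funext q x
    unfold A0_map
    congr 1
    refine List.map_congr_left fun a ha => ?_
    have ha' := mem_dl_le ha
    rw [dl_encode, List.getD_eq_getElem?_getD, pre_getElem? x (Nat.lt_succ_of_le ha')]
    rfl
  rw [← he]
  exact h

private theorem A0_rec_mapH (hH : RecR H) :
    Rec (fun m x => A0_map (Nat.unpair (Nat.unpair m).2).2 (H (Nat.unpair m).1 x)) :=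
  rec_substR A0_rec_map (rec_snd (rec_snd rec_id)) (recR_subst hH (rec_fst rec_id) recR_id)

theorem recR_img (hH : RecR H) (hF : RecR F) : RecR (fun n x => img (H n x) (F n x)) := by
  have h := recR_app (recR_subst hF (rec_fst rec_id) recR_id)
    (rec_pair (rec_fst (rec_snd rec_id)) (A0_rec_mapH hH))
  exact h

private def A0_t (e : ℕ) : ℕ :=
  if (dl e).length = 2 ∧ (dl e).getD 0 0 = (dl e).getD 1 0 then 1 else 0

private theorem A0_primrec_t : Primrec A0_t := by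
  refine Primrec.ite (PrimrecPred.and ?_ ?_) (Primrec.const 1) (Primrec.const 0)
  · exact Primrec.eq.comp (Primrec.list_length.comp primrec_dl) (Primrec.const 2)
  · exact Primrec.eq.comp ((Primrec.list_getD 0).comp primrec_dl (Primrec.const 0))
      ((Primrec.list_getD 0).comp primrec_dl (Primrec.const 1))

theorem recR_pbE (hF : RecR F) (hH : RecR H) : RecR (fun n x => pbE (F n x) (H n x)) := by
  have h0 : Rec (fun m x => A0_t (A0_map (Nat.unpair (Nat.unpair m).2).2 (H (Nat.unpair m).1 x))) :=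
    rec_comp A0_primrec_t (A0_rec_mapH hH)
  have h1 := recR_app (recR_subst hF (rec_fst rec_id) recR_id)
    (rec_pair (rec_comp Primrec.pred (rec_fst (rec_snd rec_id))) (A0_rec_mapH hH))
  have h2 := rec_ite (recP_eq (rec_fst (rec_snd rec_id)) (rec_const 0)) h0 h1
  have he : (fun (m : ℕ) (x : ℕ → ℕ) => pbE (F (Nat.unpair m).1 x) (H (Nat.unpair m).1 x)
      (Nat.unpair m).2) = fun m x => if (Nat.unpair (Nat.unpair m).2).1 = 0 then
        A0_t (A0_map (Nat.unpair (Nat.unpair m).2).2 (H (Nat.unpair m).1 x)) else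
        F (Nat.unpair m).1 x (Nat.pair (Nat.pred (Nat.unpair (Nat.unpair m).2).1)
          (A0_map (Nat.unpair (Nat.unpair m).2).2 (H (Nat.unpair m).1 x))) := by
    funext m x
    generalize (Nat.unpair m).2 = b
    generalize H (Nat.unpair m).1 x = hh
    unfold pbE
    rcases hk : (Nat.unpair b).1 with _ | k
    · simp only [if_true]
      unfold A0_t A0_map
      rw [dl_encode]
      rcases dl (Nat.unpair b).2 with _ | ⟨a, _ | ⟨c, _ | ⟨d, l⟩⟩⟩ <;> simp
    · simp only [Nat.succ_ne_zero, if_false, Nat.pred_succ]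
      rfl
  unfold RecR
  rw [he]
  convert h2 using 3
  split_ifs <;> rfl

theorem omega1S_le (x : ℕ → ℕ) : omega1S x ≤ omega1 x :=
  csInf_le' ⟨x, cp_refl x, rfl⟩

theorem omega1S_le_cp (h : Cp x y) : omega1S x ≤ omega1 y :=
  csInf_le' ⟨y, h, rfl⟩

theorem exists_copy (x : ℕ → ℕ) : ∃ y, Cp x y ∧ omega1 y = omega1S x := by
  have h : omega1S x ∈ {α | ∃ y, Cp x y ∧ omega1 y = α} :=
    csInf_mem ⟨omega1 x, x, cp_refl x, rfl⟩
  exact h

theorem omega1S_congr (h : Cp x y) : omega1S x = omega1S y := by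
  refine le_antisymm ?_ ?_
  · obtain ⟨w, hw, he⟩ := exists_copy y
    rw [← he]
    exact omega1S_le_cp (cp_trans h hw)
  · obtain ⟨w, hw, he⟩ := exists_copy x
    rw [← he]
    exact omega1S_le_cp (cp_trans (cp_symm h) hw)

theorem le_omega1S {α : Ordinal.{0}} (h : ∀ y, Cp x y → α ≤ omega1 y) : α ≤ omega1S x := by
  obtain ⟨y, hy, he⟩ := exists_copy x
  rw [← he]
  exact h y hy

end BW
end

section

/-!
# BW.S2 : `Σ¹₁` predicates: number quantifiers and real quantifiers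

PROOFS.  Let `P n x ↔ ∃ w, ∀ k, Q (pair n k) (jn x w)`.
* `s11_ex` : the witness is `w'` with `w' 0 = m` and `w' (k+1) = w k`:
  `∃ m, P (pair n m) x ↔ ∃ w', ∀ k, Q (pair (pair n (w' 0)) k) (jn x (shift w'))`.
* `s11_all` : by choice `∀ m, P (pair n m) x ↔ ∃ w', ∀ m k, Q (pair (pair n m) k) (jn x (col w' m))`,
  and the quantifier `∀ m k` becomes one quantifier over `pair m k`.
* `s11_exR` : `∃ y, P n (jn x y) ↔ ∃ w', ∀ k, Q (pair n k) (jn (jn x (p1 w')) (p2 w'))`.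
All the matrices are recursive by `recP_substR`, `recR_jn`, `recR_p1`, `recR_p2`, `recR_col`,
`recR_mk` and `rec_app`.  In the matrices the first component of the real argument `u` is `x`, the
second one is the witness.
-/

namespace BW

variable {P : ℕ → (ℕ → ℕ) → Prop}

private theorem S2_shift : RecR (fun _ u k => (p2 u) (k + 1)) := by
  have h : Rec (fun m u => (p2 u) ((Nat.unpair m).2 + 1)) :=
    recR_app (recR_p2 recR_id) (rec_comp Primrec.succ (rec_snd rec_id))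
  have h2 := recR_mk h
  simpa only [Nat.unpair_pair] using h2

theorem s11_ex (hP : S11 P) : S11 (fun n x => ∃ m, P (Nat.pair n m) x) := by
  obtain ⟨Q, hQ, hh⟩ := hP
  refine ⟨fun m u => Q (Nat.pair (Nat.pair (Nat.unpair m).1 ((p2 u) 0)) (Nat.unpair m).2)
    (jn (p1 u) (fun k => (p2 u) (k + 1))), ?_, fun n x => ?_⟩
  · exact recP_substR hQ
      (rec_pair (rec_pair (rec_fst rec_id) (recR_app (recR_p2 recR_id) (rec_const 0)))
        (rec_snd rec_id))
      (recR_jn (recR_p1 recR_id) S2_shift)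
  · constructor
    · rintro ⟨m, hm⟩
      obtain ⟨w, hw⟩ := (hh _ _).1 hm
      refine ⟨fun k => Nat.casesOn k m w, fun k => ?_⟩
      simp only [p1_jn, p2_jn, Nat.unpair_pair]
      exact hw k
    · rintro ⟨w, hw⟩
      simp only [p1_jn, p2_jn, Nat.unpair_pair] at hw
      exact ⟨w 0, (hh _ _).2 ⟨fun k => w (k + 1), hw⟩⟩

theorem s11_all (hP : S11 P) : S11 (fun n x => ∀ m, P (Nat.pair n m) x) := by
  obtain ⟨Q, hQ, hh⟩ := hP
  refine ⟨fun m u => Q (Nat.pair (Nat.pair (Nat.unpair m).1 (Nat.unpair (Nat.unpair m).2).1)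
      (Nat.unpair (Nat.unpair m).2).2)
    (jn (p1 u) (col (p2 u) (Nat.unpair (Nat.unpair m).2).1)), ?_, fun n x => ?_⟩
  · exact recP_substR hQ
      (rec_pair (rec_pair (rec_fst rec_id) (rec_fst (rec_snd rec_id)))
        (rec_snd (rec_snd rec_id)))
      (recR_jn (recR_p1 recR_id) (recR_col (recR_p2 recR_id) (rec_fst (rec_snd rec_id))))
  · constructor
    · intro h
      have h' : ∀ m, ∃ w : ℕ → ℕ, ∀ k, Q (Nat.pair (Nat.pair n m) k) (jn x w) :=
        fun m => (hh _ _).1 (h m)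
      choose w hw using h'
      refine ⟨fun k => w (Nat.unpair k).1 (Nat.unpair k).2, fun k => ?_⟩
      simp only [p1_jn, p2_jn, Nat.unpair_pair]
      have hc : col (fun k => w (Nat.unpair k).1 (Nat.unpair k).2) (Nat.unpair k).1 =
          w (Nat.unpair k).1 := by
        funext i
        simp only [col, Nat.unpair_pair]
      rw [hc]
      exact hw _ _
    · rintro ⟨w, hw⟩ m
      refine (hh _ _).2 ⟨col w m, fun k => ?_⟩
      have h := hw (Nat.pair m k)
      simp only [p1_jn, p2_jn, Nat.unpair_pair] at h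
      exact h

theorem s11_exR (hP : S11 P) : S11 (fun n x => ∃ y : ℕ → ℕ, P n (jn x y)) := by
  obtain ⟨Q, hQ, hh⟩ := hP
  refine ⟨fun m u => Q m (jn (jn (p1 u) (p1 (p2 u))) (p2 (p2 u))), ?_, fun n x => ?_⟩
  · exact recP_substR hQ rec_id
      (recR_jn (recR_jn (recR_p1 recR_id) (recR_p1 (recR_p2 recR_id)))
        (recR_p2 (recR_p2 recR_id)))
  · constructor
    · rintro ⟨y, hy⟩
      obtain ⟨w, hw⟩ := (hh _ _).1 hy
      refine ⟨jn y w, fun k => ?_⟩
      simp only [p1_jn, p2_jn]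
      exact hw k
    · rintro ⟨w, hw⟩
      simp only [p1_jn, p2_jn] at hw
      exact ⟨p1 w, (hh _ _).2 ⟨p2 w, hw⟩⟩

/-- bounded quantifier -/
theorem s11_ball {G : ℕ → (ℕ → ℕ) → ℕ} (hP : S11 P) (hG : Rec G) :
    S11 (fun n x => ∀ m < G n x, P (Nat.pair n m) x) := by
  have h1 : S11 (fun m x => (Nat.unpair m).2 < G (Nat.unpair m).1 x → P m x) :=
    s11_imp (recP_lt (rec_snd rec_id) (rec_subst hG (rec_fst rec_id))) hP
  have h2 := s11_all h1
  refine s11_congr h2 fun n x => ?_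
  simp only [Nat.unpair_pair]

end BW
end

section

/-!
# BW.G2 : complexity of the basic relations

PROOFS.  `Gr c y a b` is `∃ k, (recursive predicate of (c, a, b, k) and y)`: the matrix
`∃ j ≤ k, evaln k (ofNatCode c) (encode (a, pre y j)) = some b` is recursive
(`Nat.Partrec.Code.primrec_evaln`, `rec_pre`, `recP_bex`, `recP_substR`).  So `Gr` is `Σ⁰₁` and
`¬ Gr` is `Π⁰₁`, both are `S11` (`s11_ex`, `s11_all`, `s11_of_rec`).  It is best to prove first the
versions for the predicates of `n = pair c (pair a b)` and the real `y`, and then to substitute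
(`s11_subst`).  `Tot c y`: `∀ n ∃ m Gr` and `∀ n m m', Gr → Gr → m = m'` (disjunction of negations).
`¬ Tot`: `∃ n, (∀ m ¬ Gr) ∨ ∃ m m', Gr ∧ Gr ∧ m ≠ m'`.  `IsLin`: conjunction of universal number
quantifiers over Boolean combinations of `Rl = Gr .. 1`.  `¬ IsLin`: the negations.
`¬ (Tot ∧ IsWO)`: `¬ Tot ∨ ¬ IsLin ∨ ∃ d real, ∀ i, strict (Rl c y) (d (i+1)) (d i)` (a relation is
well-founded iff there is no infinite descending sequence, `RelEmbedding.wellFounded_iff_isEmpty`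
or `WellFounded.wellFounded_iff_no_descending_seq`).
`IsoR`, `EmbR`: one real quantifier `h`, then number quantifiers; write `h` as `p2 u` and the old
real as `p1 u`.
-/

namespace BW

variable {A B C D : ℕ → (ℕ → ℕ) → ℕ} {F H : ℕ → (ℕ → ℕ) → ℕ → ℕ}

open Encodable

/-- `P` and its negation are `Σ¹₁`. -/
private def G2_D (P : ℕ → (ℕ → ℕ) → Prop) : Prop := S11 P ∧ S11 (fun n x => ¬ P n x)

private theorem G2_congr {P Q : ℕ → (ℕ → ℕ) → Prop} (hP : G2_D P) (h : ∀ n x, P n x ↔ Q n x) :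
    G2_D Q := ⟨s11_congr hP.1 h, s11_congr hP.2 fun n x => not_congr (h n x)⟩

private theorem G2_rec {P : ℕ → (ℕ → ℕ) → Prop} (hP : RecP P) : G2_D P :=
  ⟨s11_of_rec hP, s11_of_rec (recP_not hP)⟩

private theorem G2_not {P : ℕ → (ℕ → ℕ) → Prop} (hP : G2_D P) : G2_D (fun n x => ¬ P n x) :=
  ⟨hP.2, s11_congr hP.1 fun _ _ => not_not.symm⟩

private theorem G2_and {P Q : ℕ → (ℕ → ℕ) → Prop} (hP : G2_D P) (hQ : G2_D Q) :
    G2_D (fun n x => P n x ∧ Q n x) :=
  ⟨s11_and hP.1 hQ.1, s11_congr (s11_or hP.2 hQ.2) fun _ _ => not_and_or.symm⟩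

private theorem G2_or {P Q : ℕ → (ℕ → ℕ) → Prop} (hP : G2_D P) (hQ : G2_D Q) :
    G2_D (fun n x => P n x ∨ Q n x) :=
  ⟨s11_or hP.1 hQ.1, s11_congr (s11_and hP.2 hQ.2) fun _ _ => not_or.symm⟩

private theorem G2_imp {P Q : ℕ → (ℕ → ℕ) → Prop} (hP : G2_D P) (hQ : G2_D Q) :
    G2_D (fun n x => P n x → Q n x) :=
  G2_congr (G2_or (G2_not hP) hQ) fun _ _ => imp_iff_not_or.symm

private theorem G2_iff {P Q : ℕ → (ℕ → ℕ) → Prop} (hP : G2_D P) (hQ : G2_D Q) :
    G2_D (fun n x => (P n x ↔ Q n x)) :=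
  G2_congr (G2_and (G2_imp hP hQ) (G2_imp hQ hP)) fun _ _ => iff_iff_implies_and_implies.symm

private theorem G2_sex {P : ℕ → (ℕ → ℕ) → ℕ → Prop}
    (h : S11 (fun k x => P (Nat.unpair k).1 x (Nat.unpair k).2)) :
    S11 (fun n x => ∃ m, P n x m) :=
  s11_congr (s11_ex h) fun n x => by simp only [Nat.unpair_pair]

private theorem G2_sall {P : ℕ → (ℕ → ℕ) → ℕ → Prop}
    (h : S11 (fun k x => P (Nat.unpair k).1 x (Nat.unpair k).2)) :
    S11 (fun n x => ∀ m, P n x m) :=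
  s11_congr (s11_all h) fun n x => by simp only [Nat.unpair_pair]

private theorem G2_ex {P : ℕ → (ℕ → ℕ) → ℕ → Prop}
    (h : G2_D (fun k x => P (Nat.unpair k).1 x (Nat.unpair k).2)) :
    G2_D (fun n x => ∃ m, P n x m) :=
  ⟨G2_sex h.1, s11_congr (G2_sall (P := fun n x m => ¬ P n x m) h.2) fun _ _ => not_exists.symm⟩

private theorem G2_all {P : ℕ → (ℕ → ℕ) → ℕ → Prop}
    (h : G2_D (fun k x => P (Nat.unpair k).1 x (Nat.unpair k).2)) :
    G2_D (fun n x => ∀ m, P n x m) :=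
  ⟨G2_sall h.1, s11_congr (G2_sex (P := fun n x m => ¬ P n x m) h.2) fun _ _ => not_forall.symm⟩

private theorem G2_sexR {P : ℕ → (ℕ → ℕ) → (ℕ → ℕ) → Prop}
    (h : S11 (fun n u => P n (p1 u) (p2 u))) : S11 (fun n x => ∃ y, P n x y) :=
  s11_congr (s11_exR h) fun n x => by simp only [p1_jn, p2_jn]

/-- the innermost variable -/
private theorem G2_v : Rec (fun n _ => (Nat.unpair n).2) := rec_snd rec_id

private theorem G2_w {G : ℕ → (ℕ → ℕ) → ℕ} (h : Rec G) :
    Rec (fun n x => G (Nat.unpair n).1 x) := rec_subst h (rec_fst rec_id)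

private theorem G2_wR {G : ℕ → (ℕ → ℕ) → ℕ → ℕ} (h : RecR G) :
    RecR (fun n x => G (Nat.unpair n).1 x) := recR_subst h (rec_fst rec_id) recR_id

private theorem G2_primrec : Primrec fun q : ℕ =>
    decide (Nat.Partrec.Code.evaln (Nat.unpair q).1
      (Nat.Partrec.Code.ofNatCode (Nat.unpair (Nat.unpair q).2).1)
      (Nat.unpair (Nat.unpair (Nat.unpair q).2).2).1 =
        some (Nat.unpair (Nat.unpair (Nat.unpair q).2).2).2) := by
  have h0 : Primrec fun q : ℕ => (Nat.unpair q).1 := Primrec.fst.comp Primrec.unpair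
  have h1 : Primrec fun q : ℕ => (Nat.unpair q).2 := Primrec.snd.comp Primrec.unpair
  have hc : Primrec fun q : ℕ => (Nat.Partrec.Code.ofNatCode (Nat.unpair (Nat.unpair q).2).1) :=
    (Primrec.ofNat Nat.Partrec.Code).comp (h0.comp h1)
  have he := Nat.Partrec.Code.primrec_evaln.comp
    ((h0.pair hc).pair (h0.comp (h1.comp h1)))
  exact (Primrec.eq.comp he (Primrec.option_some.comp (h1.comp (h1.comp h1)))).decide

private theorem G2_mat {K C A J B : ℕ → (ℕ → ℕ) → ℕ} {F : ℕ → (ℕ → ℕ) → ℕ → ℕ} (hK : Rec K)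
    (hC : Rec C) (hF : RecR F) (hA : Rec A) (hJ : Rec J) (hB : Rec B) :
    RecP (fun n x => Nat.Partrec.Code.evaln (K n x) (Nat.Partrec.Code.ofNatCode (C n x))
      (Encodable.encode (A n x, pre (F n x) (J n x))) = some (B n x)) := by
  have hp : Rec (fun n x => encode (pre (F n x) (J n x))) :=
    rec_substR (H := fun m y => encode (pre y m)) (rec_pre rec_id) hJ hF
  have h := recP_bool G2_primrec (rec_pair hK (rec_pair hC (rec_pair (rec_pair hA hp) hB)))
  refine recP_congr h fun n x => ?_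
  simp only [Nat.unpair_pair, decide_eq_true_eq]
  rfl

private theorem G2_gr {C A B : ℕ → (ℕ → ℕ) → ℕ} {F : ℕ → (ℕ → ℕ) → ℕ → ℕ} (hC : Rec C)
    (hF : RecR F) (hA : Rec A) (hB : Rec B) :
    G2_D (fun n x => Gr (C n x) (F n x) (A n x) (B n x)) := by
  have hm := G2_mat (G2_w G2_v) (G2_w (G2_w hC)) (G2_wR (G2_wR hF)) (G2_w (G2_w hA)) G2_v
    (G2_w (G2_w hB))
  exact G2_ex (P := fun n x k => ∃ j, j ≤ k ∧
      Nat.Partrec.Code.evaln k (Nat.Partrec.Code.ofNatCode (C n x))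
        (Encodable.encode (A n x, pre (F n x) j)) = some (B n x))
    (G2_ex (P := fun q x j => j ≤ (Nat.unpair q).2 ∧
      Nat.Partrec.Code.evaln (Nat.unpair q).2
        (Nat.Partrec.Code.ofNatCode (C (Nat.unpair q).1 x))
        (Encodable.encode (A (Nat.unpair q).1 x, pre (F (Nat.unpair q).1 x) j)) =
          some (B (Nat.unpair q).1 x))
      (G2_rec (recP_and (recP_le G2_v (G2_w G2_v)) hm)))

/-- relations which are `Δ¹₁`, closed under substitution -/
private def G2_DR (R : ℕ → (ℕ → ℕ) → ℕ → ℕ → Prop) : Prop :=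
  ∀ (N : ℕ → (ℕ → ℕ) → ℕ) (Y : ℕ → (ℕ → ℕ) → ℕ → ℕ) (A B : ℕ → (ℕ → ℕ) → ℕ),
    Rec N → RecR Y → Rec A → Rec B → G2_D (fun q u => R (N q u) (Y q u) (A q u) (B q u))

private theorem G2_Rl {C : ℕ → (ℕ → ℕ) → ℕ} {F : ℕ → (ℕ → ℕ) → ℕ → ℕ} (hC : Rec C)
    (hF : RecR F) : G2_DR (fun n x => Rl (C n x) (F n x)) := fun _ _ _ _ hN hY hA hB =>
  G2_gr (rec_substR hC hN hY) (recR_subst hF hN hY) (rec_pair hA hB) (rec_const 1)

private theorem G2_rl {F : ℕ → (ℕ → ℕ) → ℕ → ℕ} (hF : RecR F) :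
    G2_DR (fun n x => rl (F n x)) := fun _ _ _ _ hN hY hA hB =>
  G2_rec (recP_eq (recR_app (recR_subst hF hN hY) (rec_pair hA hB)) (rec_const 1))

private theorem G2_tot {C : ℕ → (ℕ → ℕ) → ℕ} {F : ℕ → (ℕ → ℕ) → ℕ → ℕ} (hC : Rec C)
    (hF : RecR F) : G2_D (fun n x => Tot (C n x) (F n x)) := by
  have v2 := G2_w G2_v
  have v3 := G2_w v2
  have c2 := G2_w (G2_w hC)
  have c3 := G2_w c2
  have f2 := G2_wR (G2_wR hF)
  have f3 := G2_wR f2
  have g2 := G2_gr c2 f2 v2 G2_v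
  have g3 := G2_gr c3 f3 v3 G2_v
  have e3 := G2_rec (recP_eq G2_v v2)
  have i3 := G2_imp g3 e3
  exact G2_all (P := fun n x a => ∃ m, Gr (C n x) (F n x) a m ∧
      ∀ m', Gr (C n x) (F n x) a m' → m' = m)
    (G2_ex (P := fun q x m => Gr (C (Nat.unpair q).1 x) (F (Nat.unpair q).1 x) (Nat.unpair q).2 m ∧
        ∀ m', Gr (C (Nat.unpair q).1 x) (F (Nat.unpair q).1 x) (Nat.unpair q).2 m' → m' = m)
      (G2_and g2 (G2_all (P := fun r x m' =>
        Gr (C (Nat.unpair (Nat.unpair r).1).1 x) (F (Nat.unpair (Nat.unpair r).1).1 x)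
          (Nat.unpair (Nat.unpair r).1).2 m' → m' = (Nat.unpair r).2) i3)))

private theorem G2_isLin {R : ℕ → (ℕ → ℕ) → ℕ → ℕ → Prop} (hR : G2_DR R) :
    G2_D (fun n x => IsLin (R n x)) := by
  have h1 : G2_D (fun n x => ∀ a b, R n x a b → R n x a a ∧ R n x b b) :=
    G2_all (G2_all (G2_imp (hR _ _ _ _ (G2_w (G2_w rec_id)) recR_id (G2_w G2_v) G2_v)
      (G2_and (hR _ _ _ _ (G2_w (G2_w rec_id)) recR_id (G2_w G2_v) (G2_w G2_v))
        (hR _ _ _ _ (G2_w (G2_w rec_id)) recR_id G2_v G2_v))))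
  have h2 : G2_D (fun n x => ∀ a b, R n x a b → R n x b a → a = b) :=
    G2_all (G2_all (G2_imp (hR _ _ _ _ (G2_w (G2_w rec_id)) recR_id (G2_w G2_v) G2_v)
      (G2_imp (hR _ _ _ _ (G2_w (G2_w rec_id)) recR_id G2_v (G2_w G2_v))
        (G2_rec (recP_eq (G2_w G2_v) G2_v)))))
  have h3 : G2_D (fun n x => ∀ a b c, R n x a b → R n x b c → R n x a c) :=
    G2_all (G2_all (G2_all
      (G2_imp (hR _ _ _ _ (G2_w (G2_w (G2_w rec_id))) recR_id (G2_w (G2_w G2_v)) (G2_w G2_v))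
      (G2_imp (hR _ _ _ _ (G2_w (G2_w (G2_w rec_id))) recR_id (G2_w G2_v) G2_v)
        (hR _ _ _ _ (G2_w (G2_w (G2_w rec_id))) recR_id (G2_w (G2_w G2_v)) G2_v)))))
  have h4 : G2_D (fun n x => ∀ a b, R n x a a → R n x b b → R n x a b ∨ R n x b a) :=
    G2_all (G2_all (G2_imp (hR _ _ _ _ (G2_w (G2_w rec_id)) recR_id (G2_w G2_v) (G2_w G2_v))
      (G2_imp (hR _ _ _ _ (G2_w (G2_w rec_id)) recR_id G2_v G2_v)
        (G2_or (hR _ _ _ _ (G2_w (G2_w rec_id)) recR_id (G2_w G2_v) G2_v)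
          (hR _ _ _ _ (G2_w (G2_w rec_id)) recR_id G2_v (G2_w G2_v))))))
  exact G2_congr (G2_and h1 (G2_and h2 (G2_and h3 h4))) fun n x =>
    ⟨fun h => ⟨h.1, h.2.1, h.2.2.1, h.2.2.2⟩, fun h => ⟨h.1, h.2, h.3, h.4⟩⟩

/-- composition with the new real -/
private theorem G2_h {G : ℕ → (ℕ → ℕ) → ℕ} (hG : Rec G) : Rec (fun n u => p2 u (G n u)) :=
  recR_app (recR_p2 recR_id) hG

private theorem G2_iso {R T : ℕ → (ℕ → ℕ) → ℕ → ℕ → Prop} (hR : G2_DR R) (hT : G2_DR T) :
    S11 (fun n x => IsoR (R n x) (T n x)) := by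
  refine G2_sexR (P := fun n x h => (∀ a, R n x a a → T n x (h a) (h a)) ∧
    (∀ a b, R n x a a → R n x b b → (R n x a b ↔ T n x (h a) (h b))) ∧
      ∀ b, T n x b b → ∃ a, R n x a a ∧ h a = b) ?_
  have hx : RecR (fun (_ : ℕ) (u : ℕ → ℕ) => p1 u) := recR_p1 recR_id
  have h1 : G2_D (fun n u => ∀ a, R n (p1 u) a a → T n (p1 u) (p2 u a) (p2 u a)) :=
    G2_all (G2_imp (hR _ _ _ _ (G2_w rec_id) hx G2_v G2_v)
      (hT _ _ _ _ (G2_w rec_id) hx (G2_h G2_v) (G2_h G2_v)))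
  have h2 : G2_D (fun n u => ∀ a b, R n (p1 u) a a → R n (p1 u) b b →
      (R n (p1 u) a b ↔ T n (p1 u) (p2 u a) (p2 u b))) :=
    G2_all (G2_all (G2_imp (hR _ _ _ _ (G2_w (G2_w rec_id)) hx (G2_w G2_v) (G2_w G2_v))
      (G2_imp (hR _ _ _ _ (G2_w (G2_w rec_id)) hx G2_v G2_v)
        (G2_iff (hR _ _ _ _ (G2_w (G2_w rec_id)) hx (G2_w G2_v) G2_v)
          (hT _ _ _ _ (G2_w (G2_w rec_id)) hx (G2_h (G2_w G2_v)) (G2_h G2_v))))))
  have h3 : G2_D (fun n u => ∀ b, T n (p1 u) b b → ∃ a, R n (p1 u) a a ∧ p2 u a = b) :=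
    G2_all (G2_imp (hT _ _ _ _ (G2_w rec_id) hx G2_v G2_v)
      (G2_ex (G2_and (hR _ _ _ _ (G2_w (G2_w rec_id)) hx G2_v G2_v)
        (G2_rec (recP_eq (G2_h G2_v) (G2_w G2_v))))))
  exact (G2_and h1 (G2_and h2 h3)).1

private theorem G2_emb {R T : ℕ → (ℕ → ℕ) → ℕ → ℕ → Prop} (hR : G2_DR R) (hT : G2_DR T) :
    S11 (fun n x => EmbR (R n x) (T n x)) := by
  refine G2_sexR (P := fun n x h => (∀ a, R n x a a → T n x (h a) (h a)) ∧
    ∀ a b, strict (R n x) a b → strict (T n x) (h a) (h b)) ?_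
  have hx : RecR (fun (_ : ℕ) (u : ℕ → ℕ) => p1 u) := recR_p1 recR_id
  have h1 : G2_D (fun n u => ∀ a, R n (p1 u) a a → T n (p1 u) (p2 u a) (p2 u a)) :=
    G2_all (G2_imp (hR _ _ _ _ (G2_w rec_id) hx G2_v G2_v)
      (hT _ _ _ _ (G2_w rec_id) hx (G2_h G2_v) (G2_h G2_v)))
  have h2 : G2_D (fun n u => ∀ a b, (R n (p1 u) a b ∧ ¬ a = b) →
      (T n (p1 u) (p2 u a) (p2 u b) ∧ ¬ p2 u a = p2 u b)) :=
    G2_all (G2_all (G2_imp
      (G2_and (hR _ _ _ _ (G2_w (G2_w rec_id)) hx (G2_w G2_v) G2_v)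
        (G2_not (G2_rec (recP_eq (G2_w G2_v) G2_v))))
      (G2_and (hT _ _ _ _ (G2_w (G2_w rec_id)) hx (G2_h (G2_w G2_v)) (G2_h G2_v))
        (G2_not (G2_rec (recP_eq (G2_h (G2_w G2_v)) (G2_h G2_v)))))))
  exact (G2_and h1 h2).1

private theorem G2_desc {R : ℕ → (ℕ → ℕ) → ℕ → ℕ → Prop} (hR : G2_DR R) :
    S11 (fun n x => ∃ d : ℕ → ℕ, ∀ i, strict (R n x) (d (i + 1)) (d i)) := by
  refine G2_sexR (P := fun n x d => ∀ i, strict (R n x) (d (i + 1)) (d i)) ?_
  have hx : RecR (fun (_ : ℕ) (u : ℕ → ℕ) => p1 u) := recR_p1 recR_id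
  have hs : Rec (fun n (_ : ℕ → ℕ) => (Nat.unpair n).2 + 1) := rec_comp Primrec.succ G2_v
  have h1 : G2_D (fun n u => ∀ i, (R n (p1 u) (p2 u (i + 1)) (p2 u i) ∧
      ¬ p2 u (i + 1) = p2 u i)) :=
    G2_all (G2_and (hR _ _ _ _ (G2_w rec_id) hx (G2_h hs) (G2_h G2_v))
      (G2_not (G2_rec (recP_eq (G2_h hs) (G2_h G2_v)))))
  exact h1.1

theorem s11_gr (hC : Rec C) (hF : RecR F) (hA : Rec A) (hB : Rec B) :
    S11 (fun n x => Gr (C n x) (F n x) (A n x) (B n x)) :=
  (G2_gr hC hF hA hB).1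

theorem s11_not_gr (hC : Rec C) (hF : RecR F) (hA : Rec A) (hB : Rec B) :
    S11 (fun n x => ¬ Gr (C n x) (F n x) (A n x) (B n x)) :=
  (G2_gr hC hF hA hB).2

theorem s11_tot (hC : Rec C) (hF : RecR F) : S11 (fun n x => Tot (C n x) (F n x)) :=
  (G2_tot hC hF).1

theorem s11_not_tot (hC : Rec C) (hF : RecR F) : S11 (fun n x => ¬ Tot (C n x) (F n x)) :=
  (G2_tot hC hF).2

theorem s11_isLin (hC : Rec C) (hF : RecR F) :
    S11 (fun n x => IsLin (Rl (C n x) (F n x))) :=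
  (G2_isLin (G2_Rl hC hF)).1

theorem s11_not_isLin (hC : Rec C) (hF : RecR F) :
    S11 (fun n x => ¬ IsLin (Rl (C n x) (F n x))) :=
  (G2_isLin (G2_Rl hC hF)).2

/-- not being a recursive well-order is `Σ¹₁` -/
theorem s11_not_wo (hC : Rec C) (hF : RecR F) :
    S11 (fun n x => ¬ (Tot (C n x) (F n x) ∧ IsWO (Rl (C n x) (F n x)))) := by
  refine s11_congr (s11_or (G2_tot hC hF).2 (s11_or (G2_isLin (G2_Rl hC hF)).2
    (G2_desc (G2_Rl hC hF)))) fun n x => ?_
  have hwf : (∃ d : ℕ → ℕ, ∀ i, strict (Rl (C n x) (F n x)) (d (i + 1)) (d i)) ↔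
      ¬ WellFounded (strict (Rl (C n x) (F n x))) := by
    rw [wellFounded_iff_isEmpty_descending_chain, not_isEmpty_iff]
    exact ⟨fun ⟨d, hd⟩ => ⟨⟨d, hd⟩⟩, fun ⟨d⟩ => ⟨d.1, d.2⟩⟩
  rw [hwf]
  constructor
  · rintro (h | h | h) ⟨h1, h2⟩
    · exact h h1
    · exact h h2.toIsLin
    · exact h h2.wf
  · intro h
    by_cases h1 : Tot (C n x) (F n x)
    · by_cases h2 : IsLin (Rl (C n x) (F n x))
      · exact Or.inr (Or.inr fun h3 => h ⟨h1, ⟨h2, h3⟩⟩)
      · exact Or.inr (Or.inl h2)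
    · exact Or.inl h1

theorem s11_iso (hC : Rec C) (hF : RecR F) (hD : Rec D) (hH : RecR H) :
    S11 (fun n x => IsoR (Rl (C n x) (F n x)) (Rl (D n x) (H n x))) :=
  G2_iso (G2_Rl hC hF) (G2_Rl hD hH)

theorem s11_emb (hC : Rec C) (hF : RecR F) (hD : Rec D) (hH : RecR H) :
    S11 (fun n x => EmbR (Rl (C n x) (F n x)) (Rl (D n x) (H n x))) :=
  G2_emb (G2_Rl hC hF) (G2_Rl hD hH)

/-- the same for relations coded by reals -/
theorem s11_iso_rl (hF : RecR F) (hD : Rec D) (hH : RecR H) :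
    S11 (fun n x => IsoR (rl (F n x)) (Rl (D n x) (H n x))) :=
  G2_iso (G2_rl hF) (G2_Rl hD hH)

end BW
end

section

/-!
# BW.G3 : complexity of the basic relations, for relations coded by reals

PROOFS.  `rl (F n x) a b` is `F n x (pair a b) = 1`, a recursive predicate of `pair n (pair a b)` and
`x` (`recR_app`, `recP_eq`).  `IsLin` and its negation are built from it with number quantifiers
(`s11_ex`, `s11_all`, `s11_and`, `s11_or`, `recP_not`, ...).  `s11_not_wf_rl`: a relation `S` on `ℕ` is not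
well-founded iff there is a real `d` with `S (d (i+1)) (d i)` for all `i`
(`RelEmbedding.wellFounded_iff_isEmpty`, or `WellFounded.wellFounded_iff_no_descending_seq`, or
directly).  `IsoR`, `EmbR`: one real quantifier `h` (`s11_exR`), then number quantifiers; the
predicates of the real `u = jn x h` are written with `p1 u` and `p2 u`.
`s11_eqR`: equality of two reals is a number quantifier over a recursive predicate.
-/

namespace BW

variable {A : ℕ → (ℕ → ℕ) → ℕ} {F H : ℕ → (ℕ → ℕ) → ℕ → ℕ}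

private theorem G3_all {Φ : ℕ → ℕ → (ℕ → ℕ) → Prop}
    (h : S11 (fun n x => Φ (Nat.unpair n).1 (Nat.unpair n).2 x)) : S11 (fun n x => ∀ m, Φ n m x) := by
  refine s11_congr (s11_all h) fun n x => ?_
  simp only [Nat.unpair_pair]

private theorem G3_ex {Φ : ℕ → ℕ → (ℕ → ℕ) → Prop}
    (h : S11 (fun n x => Φ (Nat.unpair n).1 (Nat.unpair n).2 x)) : S11 (fun n x => ∃ m, Φ n m x) := by
  refine s11_congr (s11_ex h) fun n x => ?_
  simp only [Nat.unpair_pair]

private theorem G3_exR {Φ : ℕ → (ℕ → ℕ) → (ℕ → ℕ) → Prop}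
    (h : S11 (fun n u => Φ n (p1 u) (p2 u))) : S11 (fun n x => ∃ y : ℕ → ℕ, Φ n x y) := by
  refine s11_congr (s11_exR h) fun n x => ?_
  simp only [p1_jn, p2_jn]

private theorem G3_rl {F : ℕ → (ℕ → ℕ) → ℕ → ℕ} {A B : ℕ → (ℕ → ℕ) → ℕ} (hF : RecR F) (hA : Rec A)
    (hB : Rec B) : RecP (fun n x => rl (F n x) (A n x) (B n x)) :=
  recP_eq (recR_app hF (rec_pair hA hB)) (rec_const 1)

private theorem G3_st {F : ℕ → (ℕ → ℕ) → ℕ → ℕ} {A B : ℕ → (ℕ → ℕ) → ℕ} (hF : RecR F) (hA : Rec A)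
    (hB : Rec B) : RecP (fun n x => strict (rl (F n x)) (A n x) (B n x)) :=
  recP_and (G3_rl hF hA hB) (recP_not (recP_eq hA hB))

private theorem G3_id : Rec (fun n _ => n) := rec_id

/-- The number argument replaced by a recursive functional. -/
private theorem G3_F {F : ℕ → (ℕ → ℕ) → ℕ → ℕ} {G : ℕ → (ℕ → ℕ) → ℕ} (hF : RecR F) (hG : Rec G) :
    RecR (fun n x => F (G n x) x) := recR_subst hF hG recR_id

/-- The number argument replaced by a recursive functional, the real by its first component. -/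
private theorem G3_Fp {F : ℕ → (ℕ → ℕ) → ℕ → ℕ} {G : ℕ → (ℕ → ℕ) → ℕ} (hF : RecR F) (hG : Rec G) :
    RecR (fun n u => F (G n u) (p1 u)) := recR_subst hF hG (recR_p1 recR_id)

private theorem G3_ap {G : ℕ → (ℕ → ℕ) → ℕ} (hG : Rec G) : Rec (fun n u => p2 u (G n u)) :=
  recR_app (recR_p2 recR_id) hG

/-- The matrix of `IsLin`. -/
private def G3_L (R : ℕ → ℕ → Prop) (a b c : ℕ) : Prop :=
  (R a b → R a a ∧ R b b) ∧ (R a b → R b a → a = b) ∧ (R a b → R b c → R a c) ∧
    (R a a → R b b → R a b ∨ R b a)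

private theorem G3_lin_iff (R : ℕ → ℕ → Prop) : IsLin R ↔ ∀ a b c, G3_L R a b c := by
  constructor
  · intro h a b c
    exact ⟨h.fld a b, h.antisymm a b, h.trans a b c, h.total a b⟩
  · intro h
    exact ⟨fun a b => (h a b 0).1, fun a b => (h a b 0).2.1, fun a b c => (h a b c).2.2.1,
      fun a b => (h a b 0).2.2.2⟩

private theorem G3_recL {F : ℕ → (ℕ → ℕ) → ℕ → ℕ} {A B C : ℕ → (ℕ → ℕ) → ℕ} (hF : RecR F) (hA : Rec A)
    (hB : Rec B) (hC : Rec C) : RecP (fun n x => G3_L (rl (F n x)) (A n x) (B n x) (C n x)) := by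
  refine recP_and (recP_imp (G3_rl hF hA hB) (recP_and (G3_rl hF hA hA) (G3_rl hF hB hB)))
    (recP_and (recP_imp (G3_rl hF hA hB) (recP_imp (G3_rl hF hB hA) (recP_eq hA hB)))
      (recP_and (recP_imp (G3_rl hF hA hB) (recP_imp (G3_rl hF hB hC) (G3_rl hF hA hC)))
        (recP_imp (G3_rl hF hA hA) (recP_imp (G3_rl hF hB hB)
          (recP_or (G3_rl hF hA hB) (G3_rl hF hB hA))))))

private theorem G3_wf (S : ℕ → ℕ → Prop) : ¬ WellFounded S ↔ ∃ d : ℕ → ℕ, ∀ i, S (d (i + 1)) (d i) := by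
  rw [wellFounded_iff_isEmpty_descending_chain, not_isEmpty_iff]
  constructor
  · rintro ⟨⟨d, hd⟩⟩
    exact ⟨d, hd⟩
  · rintro ⟨d, hd⟩
    exact ⟨⟨d, hd⟩⟩

private theorem G3_lin {F : ℕ → (ℕ → ℕ) → ℕ → ℕ} (hF : RecR F) :
    RecP (fun n x => G3_L (rl (F (Nat.unpair (Nat.unpair (Nat.unpair n).1).1).1 x))
      (Nat.unpair (Nat.unpair (Nat.unpair n).1).1).2 (Nat.unpair (Nat.unpair n).1).2 (Nat.unpair n).2) :=
  G3_recL (G3_F hF (rec_fst (rec_fst (rec_fst rec_id)))) (rec_snd (rec_fst (rec_fst rec_id)))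
    (rec_snd (rec_fst rec_id)) (rec_snd rec_id)

theorem s11_isLin_rl (hF : RecR F) : S11 (fun n x => IsLin (rl (F n x))) := by
  refine s11_congr (P := fun n x => ∀ a b c, G3_L (rl (F n x)) a b c) ?_
    fun n x => (G3_lin_iff _).symm
  refine G3_all (Φ := fun n a x => ∀ b c, G3_L (rl (F n x)) a b c) ?_
  refine G3_all (Φ := fun n b x => ∀ c, G3_L (rl (F (Nat.unpair n).1 x)) (Nat.unpair n).2 b c) ?_
  refine G3_all (Φ := fun n c x => G3_L (rl (F (Nat.unpair (Nat.unpair n).1).1 x))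
    (Nat.unpair (Nat.unpair n).1).2 (Nat.unpair n).2 c) ?_
  exact s11_of_rec (G3_lin hF)

theorem s11_not_isLin_rl (hF : RecR F) : S11 (fun n x => ¬ IsLin (rl (F n x))) := by
  refine s11_congr (P := fun n x => ∃ a b c, ¬ G3_L (rl (F n x)) a b c) ?_ fun n x => ?_
  · refine G3_ex (Φ := fun n a x => ∃ b c, ¬ G3_L (rl (F n x)) a b c) ?_
    refine G3_ex (Φ := fun n b x => ∃ c, ¬ G3_L (rl (F (Nat.unpair n).1 x)) (Nat.unpair n).2 b c) ?_
    refine G3_ex (Φ := fun n c x => ¬ G3_L (rl (F (Nat.unpair (Nat.unpair n).1).1 x))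
      (Nat.unpair (Nat.unpair n).1).2 (Nat.unpair n).2 c) ?_
    exact s11_of_rec (recP_not (G3_lin hF))
  · rw [G3_lin_iff]
    simp only [not_forall]

theorem s11_not_wf_rl (hF : RecR F) : S11 (fun n x => ¬ WellFounded (strict (rl (F n x)))) := by
  refine s11_congr (P := fun n x => ∃ d : ℕ → ℕ, ∀ i, strict (rl (F n x)) (d (i + 1)) (d i)) ?_
    fun n x => (G3_wf _).symm
  refine G3_exR (Φ := fun n x d => ∀ i, strict (rl (F n x)) (d (i + 1)) (d i)) ?_
  refine G3_all (Φ := fun n i u => strict (rl (F n (p1 u))) (p2 u (i + 1)) (p2 u i)) ?_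
  refine s11_of_rec (G3_st (G3_Fp hF (rec_fst rec_id)) (G3_ap ?_) (G3_ap (rec_snd rec_id)))
  exact rec_comp Primrec.succ (rec_snd rec_id)

theorem s11_not_wo_rl (hF : RecR F) : S11 (fun n x => ¬ IsWO (rl (F n x))) := by
  refine s11_congr (s11_or (s11_not_isLin_rl hF) (s11_not_wf_rl hF)) fun n x => ?_
  constructor
  · rintro (h | h) h1
    · exact h h1.toIsLin
    · exact h h1.wf
  · intro h
    by_contra h1
    rw [not_or, not_not, not_not] at h1
    exact h ⟨h1.1, h1.2⟩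

theorem s11_iso_rl_rl (hF : RecR F) (hH : RecR H) :
    S11 (fun n x => IsoR (rl (F n x)) (rl (H n x))) := by
  unfold IsoR
  refine G3_exR (Φ := fun n x h => (∀ a, rl (F n x) a a → rl (H n x) (h a) (h a)) ∧
    (∀ a b, rl (F n x) a a → rl (F n x) b b → (rl (F n x) a b ↔ rl (H n x) (h a) (h b))) ∧
      ∀ b, rl (H n x) b b → ∃ a, rl (F n x) a a ∧ h a = b) ?_
  refine s11_and ?_ (s11_and ?_ ?_)
  · refine G3_all (Φ := fun n a u => rl (F n (p1 u)) a a → rl (H n (p1 u)) (p2 u a) (p2 u a)) ?_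
    have hF1 := G3_Fp hF (rec_fst rec_id)
    have hH1 := G3_Fp hH (rec_fst rec_id)
    have h2 : Rec (fun n _ => (Nat.unpair n).2) := rec_snd rec_id
    exact s11_of_rec (recP_imp (G3_rl hF1 h2 h2) (G3_rl hH1 (G3_ap h2) (G3_ap h2)))
  · refine G3_all (Φ := fun n a u => ∀ b, rl (F n (p1 u)) a a → rl (F n (p1 u)) b b →
      (rl (F n (p1 u)) a b ↔ rl (H n (p1 u)) (p2 u a) (p2 u b))) ?_
    refine G3_all (Φ := fun n b u => rl (F (Nat.unpair n).1 (p1 u)) (Nat.unpair n).2 (Nat.unpair n).2 →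
      rl (F (Nat.unpair n).1 (p1 u)) b b → (rl (F (Nat.unpair n).1 (p1 u)) (Nat.unpair n).2 b ↔
        rl (H (Nat.unpair n).1 (p1 u)) (p2 u (Nat.unpair n).2) (p2 u b))) ?_
    have hF1 := G3_Fp hF (rec_fst (rec_fst rec_id))
    have hH1 := G3_Fp hH (rec_fst (rec_fst rec_id))
    have ha : Rec (fun n _ => (Nat.unpair (Nat.unpair n).1).2) := rec_snd (rec_fst rec_id)
    have hb : Rec (fun n _ => (Nat.unpair n).2) := rec_snd rec_id
    exact s11_of_rec (recP_imp (G3_rl hF1 ha ha) (recP_imp (G3_rl hF1 hb hb)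
      (recP_iff (G3_rl hF1 ha hb) (G3_rl hH1 (G3_ap ha) (G3_ap hb)))))
  · refine G3_all (Φ := fun n b u => rl (H n (p1 u)) b b → ∃ a, rl (F n (p1 u)) a a ∧ p2 u a = b) ?_
    have hH1 := G3_Fp hH (rec_fst rec_id)
    have h2 : Rec (fun n _ => (Nat.unpair n).2) := rec_snd rec_id
    refine s11_imp (G3_rl hH1 h2 h2) ?_
    refine G3_ex (Φ := fun n a u => rl (F (Nat.unpair n).1 (p1 u)) a a ∧ p2 u a = (Nat.unpair n).2) ?_
    have hF2 := G3_Fp hF (rec_fst (rec_fst rec_id))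
    exact s11_of_rec (recP_and (G3_rl hF2 h2 h2) (recP_eq (G3_ap h2) (rec_snd (rec_fst rec_id))))

theorem s11_emb_rl_rl (hF : RecR F) (hH : RecR H) :
    S11 (fun n x => EmbR (rl (F n x)) (rl (H n x))) := by
  unfold EmbR
  refine G3_exR (Φ := fun n x h => (∀ a, rl (F n x) a a → rl (H n x) (h a) (h a)) ∧
    ∀ a b, strict (rl (F n x)) a b → strict (rl (H n x)) (h a) (h b)) ?_
  refine s11_and ?_ ?_
  · refine G3_all (Φ := fun n a u => rl (F n (p1 u)) a a → rl (H n (p1 u)) (p2 u a) (p2 u a)) ?_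
    have hF1 := G3_Fp hF (rec_fst rec_id)
    have hH1 := G3_Fp hH (rec_fst rec_id)
    have h2 : Rec (fun n _ => (Nat.unpair n).2) := rec_snd rec_id
    exact s11_of_rec (recP_imp (G3_rl hF1 h2 h2) (G3_rl hH1 (G3_ap h2) (G3_ap h2)))
  · refine G3_all (Φ := fun n a u => ∀ b, strict (rl (F n (p1 u))) a b →
      strict (rl (H n (p1 u))) (p2 u a) (p2 u b)) ?_
    refine G3_all (Φ := fun n b u => strict (rl (F (Nat.unpair n).1 (p1 u))) (Nat.unpair n).2 b →
      strict (rl (H (Nat.unpair n).1 (p1 u))) (p2 u (Nat.unpair n).2) (p2 u b)) ?_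
    have hF1 := G3_Fp hF (rec_fst (rec_fst rec_id))
    have hH1 := G3_Fp hH (rec_fst (rec_fst rec_id))
    have ha : Rec (fun n _ => (Nat.unpair (Nat.unpair n).1).2) := rec_snd (rec_fst rec_id)
    have hb : Rec (fun n _ => (Nat.unpair n).2) := rec_snd rec_id
    exact s11_of_rec (recP_imp (G3_st hF1 ha hb) (G3_st hH1 (G3_ap ha) (G3_ap hb)))

theorem s11_eqR (hF : RecR F) (hH : RecR H) : S11 (fun n x => F n x = H n x) := by
  refine s11_congr (P := fun n x => ∀ k, F n x k = H n x k) ?_ fun n x => funext_iff.symm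
  refine G3_all (Φ := fun n k x => F n x k = H n x k) ?_
  exact s11_of_rec (recP_eq (recR_app (G3_F hF (rec_fst rec_id)) (rec_snd rec_id))
    (recR_app (G3_F hH (rec_fst rec_id)) (rec_snd rec_id)))

/-- the value of a real which is `Δ¹₁`: if the graph is `Σ¹₁` then every `Σ¹₁` statement about the
value is `Σ¹₁` -/
theorem s11_of_graph {P Q : ℕ → (ℕ → ℕ) → Prop} (hP : S11 P) (hQ : S11 Q) :
    S11 (fun n x => ∃ y : ℕ → ℕ, (∀ a, P (Nat.pair n (Nat.pair a (y a))) x) ∧ Q n (jn x y)) := by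
  refine G3_exR (Φ := fun n x y => (∀ a, P (Nat.pair n (Nat.pair a (y a))) x) ∧ Q n (jn x y)) ?_
  refine s11_and ?_ ?_
  · refine G3_all (Φ := fun n a u => P (Nat.pair n (Nat.pair a (p2 u a))) (p1 u)) ?_
    have h2 : Rec (fun n _ => (Nat.unpair n).2) := rec_snd rec_id
    exact s11_subst hP (rec_pair (rec_fst rec_id) (rec_pair h2 (G3_ap h2))) (recR_p1 recR_id)
  · refine s11_congr hQ fun n u => ?_
    rw [jn_p]

end BW
end

section

/-!
# BW.B4 : coded back-and-forth systems: complexity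

PROOFS.  Closure properties of `S11` and `RecP`.  The relation `R` is given by an index and a real:
`R u v = Rl c y u v`, which is `Σ⁰₁`; to keep the predicates `Σ¹₁` both `Rl` and `¬ Rl` are used
(`s11_gr`, `s11_not_gr`), `strict R u' u` is `Rl .. ∧ u' ≠ u`.  Implications are written as
disjunctions.  Lists are quantified through their codes; the functions `s ↦ s ++ [c]`,
`l, s ↦ l.filterMap (s[·]?)` on codes are primitive recursive (`Primrec.listFilterMap`).
-/

namespace BW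

open Encodable

variable {Y₁ Y₂ Z F : ℕ → (ℕ → ℕ) → ℕ → ℕ} {C G H U : ℕ → (ℕ → ℕ) → ℕ}

private theorem B4_all {P : ℕ → ℕ → (ℕ → ℕ) → Prop}
    (h : S11 (fun m x => P (Nat.unpair m).1 (Nat.unpair m).2 x)) :
    S11 (fun n x => ∀ a, P n a x) :=
  s11_congr (s11_all h) (fun n x => by simp only [Nat.unpair_pair])

private theorem B4_ex {P : ℕ → ℕ → (ℕ → ℕ) → Prop}
    (h : S11 (fun m x => P (Nat.unpair m).1 (Nat.unpair m).2 x)) :
    S11 (fun n x => ∃ a, P n a x) :=
  s11_congr (s11_ex h) (fun n x => by simp only [Nat.unpair_pair])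

private theorem B4_sh {G : ℕ → (ℕ → ℕ) → ℕ} (h : Rec G) :
    Rec (fun m x => G (Nat.unpair m).1 x) := rec_subst h (rec_fst rec_id)

private theorem B4_shR {Y : ℕ → (ℕ → ℕ) → ℕ → ℕ} (h : RecR Y) :
    RecR (fun m x => Y (Nat.unpair m).1 x) := recR_subst h (rec_fst rec_id) recR_id

private theorem B4_snd : Rec (fun m _ => (Nat.unpair m).2) := rec_snd rec_id

private theorem B4_fst : Rec (fun m _ => (Nat.unpair m).1) := rec_fst rec_id

private theorem B4_len {G : ℕ → (ℕ → ℕ) → ℕ} (h : Rec G) :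
    Rec (fun n x => (dl (G n x)).length) :=
  rec_comp (f := fun q => (dl q).length) (Primrec.list_length.comp primrec_dl) h

private theorem B4_get {G A : ℕ → (ℕ → ℕ) → ℕ} (h : Rec G) (hA : Rec A) :
    Rec (fun n x => encode ((dl (G n x))[A n x]?)) :=
  rec_comp₂ (f := fun q a => encode ((dl q)[a]?))
    (Primrec.encode.comp (Primrec.list_getElem?.comp (primrec_dl.comp Primrec.fst) Primrec.snd))
    h hA

private theorem B4_getD {G A : ℕ → (ℕ → ℕ) → ℕ} (h : Rec G) (hA : Rec A) :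
    Rec (fun n x => ((dl (G n x))[A n x]?).getD 0) :=
  rec_comp₂ (f := fun q a => ((dl q)[a]?).getD 0)
    (Primrec.option_getD.comp
      (Primrec.list_getElem?.comp (primrec_dl.comp Primrec.fst) Primrec.snd) (Primrec.const 0))
    h hA

private theorem B4_fm {G A : ℕ → (ℕ → ℕ) → ℕ} (hA : Rec A) (h : Rec G) :
    Rec (fun n x => encode ((dl (A n x)).filterMap fun i => (dl (G n x))[i]?)) :=
  rec_comp₂ (f := fun a q => encode ((dl a).filterMap fun i => (dl q)[i]?))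
    (Primrec.encode.comp (Primrec.listFilterMap (f := fun p : ℕ × ℕ => dl p.1)
      (g := fun (p : ℕ × ℕ) (i : ℕ) => (dl p.2)[i]?) (primrec_dl.comp Primrec.fst)
      (Primrec.list_getElem?.comp (primrec_dl.comp (Primrec.snd.comp Primrec.fst)) Primrec.snd)))
    hA h

private theorem B4_app {G A : ℕ → (ℕ → ℕ) → ℕ} (h : Rec G) (hA : Rec A) :
    Rec (fun n x => encode (dl (G n x) ++ [A n x])) :=
  rec_comp₂ (f := fun q a => encode (dl q ++ [a]))
    (Primrec.encode.comp (Primrec.list_append.comp (primrec_dl.comp Primrec.fst)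
      (Primrec.list_cons.comp Primrec.snd (Primrec.const []))))
    h hA

private theorem B4_dom {Y : ℕ → (ℕ → ℕ) → ℕ → ℕ} {A : ℕ → (ℕ → ℕ) → ℕ} (hY : RecR Y)
    (hA : Rec A) : RecP (fun n x => dom (Y n x) (A n x)) := by
  unfold dom
  refine recP_eq (recR_app hY (rec_pair (rec_const 0) ?_)) (rec_const 1)
  exact rec_comp (f := fun a => encode [a])
    (Primrec.encode.comp (Primrec.list_cons.comp Primrec.id (Primrec.const []))) hA

private theorem B4_doms {Y : ℕ → (ℕ → ℕ) → ℕ → ℕ} {G : ℕ → (ℕ → ℕ) → ℕ} (hY : RecR Y)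
    (hG : Rec G) : RecP (fun n x => ∀ a ∈ dl (G n x), dom (Y n x) a) := by
  refine recP_congr (recP_ball (P := fun m x => dom (Y (Nat.unpair m).1 x)
    (((dl (G (Nat.unpair m).1 x))[(Nat.unpair m).2]?).getD 0)) (G := fun n x => (dl (G n x)).length)
    (B4_dom (B4_shR hY) (B4_getD (B4_sh hG) B4_snd)) (B4_len hG)) (fun n x => ?_)
  simp only [Nat.unpair_pair]
  constructor
  · intro h a ha
    obtain ⟨i, hi, hia⟩ := List.getElem_of_mem ha
    have h1 := h i hi
    rw [List.getElem?_eq_getElem hi, hia] at h1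
    exact h1
  · intro h i hi
    rw [List.getElem?_eq_getElem hi]
    exact h _ (List.getElem_mem hi)

/-- the matrix of `AtC` -/
private def B4_M (Y₁ Y₂ : ℕ → (ℕ → ℕ) → ℕ → ℕ) (G H : ℕ → (ℕ → ℕ) → ℕ) (n : ℕ) (q : ℕ)
    (x : ℕ → ℕ) : Prop :=
  ((dl (G n x)).length = (dl (H n x)).length ∧
    (encode ((dl (G n x))[(Nat.unpair (Nat.unpair q).1).1]?) =
        encode ((dl (G n x))[(Nat.unpair (Nat.unpair q).1).2]?) ↔
      encode ((dl (H n x))[(Nat.unpair (Nat.unpair q).1).1]?) =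
        encode ((dl (H n x))[(Nat.unpair (Nat.unpair q).1).2]?))) ∧
    (Y₁ n x (Nat.pair ((Nat.unpair (Nat.unpair q).2).1 + 1)
        (encode ((dl (Nat.unpair (Nat.unpair q).2).2).filterMap fun i => (dl (G n x))[i]?))) = 1 ↔
      Y₂ n x (Nat.pair ((Nat.unpair (Nat.unpair q).2).1 + 1)
        (encode ((dl (Nat.unpair (Nat.unpair q).2).2).filterMap fun i => (dl (H n x))[i]?))) = 1)

private theorem B4_atC_iff (Y₁ Y₂ : ℕ → (ℕ → ℕ) → ℕ → ℕ) (G H : ℕ → (ℕ → ℕ) → ℕ) (n : ℕ)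
    (x : ℕ → ℕ) :
    AtC (Y₁ n x) (Y₂ n x) (dl (G n x)) (dl (H n x)) ↔ ∀ q, B4_M Y₁ Y₂ G H n q x := by
  unfold AtC B4_M
  constructor
  · rintro ⟨h1, h2, h3⟩ q
    refine ⟨⟨h1, ?_⟩, h3 _ _⟩
    rw [encode_inj, encode_inj]
    exact h2 _ _
  · intro h
    refine ⟨(h 0).1.1, fun i j => ?_, fun k l => ?_⟩
    · have h1 := (h (Nat.pair (Nat.pair i j) 0)).1.2
      simp only [Nat.unpair_pair] at h1
      rw [encode_inj, encode_inj] at h1
      exact h1
    · have h1 := (h (Nat.pair 0 (Nat.pair k (encode l)))).2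
      simp only [Nat.unpair_pair, dl_encode] at h1
      exact h1

private theorem B4_recM (h₁ : RecR Y₁) (h₂ : RecR Y₂) (hG : Rec G) (hH : Rec H) :
    RecP (fun m x => B4_M Y₁ Y₂ G H (Nat.unpair m).1 (Nat.unpair m).2 x) := by
  unfold B4_M
  have hi := rec_fst (rec_fst B4_snd)
  have hj := rec_snd (rec_fst B4_snd)
  have hk := rec_comp (f := fun a => a + 1) Primrec.succ (rec_fst (rec_snd B4_snd))
  have hl := rec_snd (rec_snd B4_snd)
  have hG' := B4_sh hG
  have hH' := B4_sh hH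
  refine recP_and (recP_and (recP_eq (B4_len hG') (B4_len hH')) (recP_iff
    (recP_eq (B4_get hG' hi) (B4_get hG' hj)) (recP_eq (B4_get hH' hi) (B4_get hH' hj))))
    (recP_iff (recP_eq (recR_app (B4_shR h₁) (rec_pair hk (B4_fm hl hG'))) (rec_const 1))
      (recP_eq (recR_app (B4_shR h₂) (rec_pair hk (B4_fm hl hH'))) (rec_const 1)))

theorem s11_atC (h₁ : RecR Y₁) (h₂ : RecR Y₂) (hG : Rec G) (hH : Rec H) :
    S11 (fun n x => AtC (Y₁ n x) (Y₂ n x) (dl (G n x)) (dl (H n x))) := by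
  refine s11_congr (B4_all (P := fun n q x => B4_M Y₁ Y₂ G H n q x)
    (s11_of_rec (B4_recM h₁ h₂ hG hH))) (fun n x => ?_)
  exact (B4_atC_iff Y₁ Y₂ G H n x).symm

theorem s11_not_atC (h₁ : RecR Y₁) (h₂ : RecR Y₂) (hG : Rec G) (hH : Rec H) :
    S11 (fun n x => ¬ AtC (Y₁ n x) (Y₂ n x) (dl (G n x)) (dl (H n x))) := by
  refine s11_congr (B4_ex (P := fun n q x => ¬ B4_M Y₁ Y₂ G H n q x)
    (s11_of_rec (recP_not (B4_recM h₁ h₂ hG hH)))) (fun n x => ?_)
  rw [B4_atC_iff]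
  exact not_forall.symm

/-- the predicate `Z (tr u (s ++ [c]) (t ++ [d])) = 1` -/
private theorem B4_Z {A B : ℕ → (ℕ → ℕ) → ℕ} (hZ : RecR Z) (hU : Rec U) (hG : Rec G) (hH : Rec H)
    (hA : Rec A) (hB : Rec B) :
    RecP (fun n x => Z n x (tr (U n x) (dl (G n x) ++ [A n x]) (dl (H n x) ++ [B n x])) = 1) := by
  unfold tr
  exact recP_eq (recR_app hZ (rec_pair hU (rec_pair (B4_app hG hA) (B4_app hH hB)))) (rec_const 1)

private theorem B4_Z0 (hZ : RecR Z) (hU : Rec U) (hG : Rec G) (hH : Rec H) :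
    RecP (fun n x => Z n x (tr (U n x) (dl (G n x)) (dl (H n x))) = 1) := by
  unfold tr
  simp only [encode_dl]
  exact recP_eq (recR_app hZ (rec_pair hU (rec_pair hG hH))) (rec_const 1)

/-- one element of the first structure can be answered -/
private theorem B4_ans1 {A : ℕ → (ℕ → ℕ) → ℕ} (h₂ : RecR Y₂) (hZ : RecR Z) (hU : Rec U)
    (hG : Rec G) (hH : Rec H) (hA : Rec A) :
    S11 (fun n x => ∃ d, dom (Y₂ n x) d ∧
      Z n x (tr (U n x) (dl (G n x) ++ [A n x]) (dl (H n x) ++ [d])) = 1) :=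
  B4_ex (P := fun n d x => dom (Y₂ n x) d ∧
      Z n x (tr (U n x) (dl (G n x) ++ [A n x]) (dl (H n x) ++ [d])) = 1)
    (s11_of_rec (recP_and (B4_dom (B4_shR h₂) B4_snd)
      (B4_Z (B4_shR hZ) (B4_sh hU) (B4_sh hG) (B4_sh hH) (B4_sh hA) B4_snd)))

private theorem B4_ans1n {A : ℕ → (ℕ → ℕ) → ℕ} (h₂ : RecR Y₂) (hZ : RecR Z) (hU : Rec U)
    (hG : Rec G) (hH : Rec H) (hA : Rec A) :
    S11 (fun n x => ¬ ∃ d, dom (Y₂ n x) d ∧
      Z n x (tr (U n x) (dl (G n x) ++ [A n x]) (dl (H n x) ++ [d])) = 1) := by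
  refine s11_congr (B4_all (P := fun n d x => ¬ (dom (Y₂ n x) d ∧
      Z n x (tr (U n x) (dl (G n x) ++ [A n x]) (dl (H n x) ++ [d])) = 1))
    (s11_of_rec (recP_not (recP_and (B4_dom (B4_shR h₂) B4_snd)
      (B4_Z (B4_shR hZ) (B4_sh hU) (B4_sh hG) (B4_sh hH) (B4_sh hA) B4_snd))))) (fun n x => ?_)
  exact not_exists.symm

private theorem B4_ans2 {B : ℕ → (ℕ → ℕ) → ℕ} (h₁ : RecR Y₁) (hZ : RecR Z) (hU : Rec U)
    (hG : Rec G) (hH : Rec H) (hB : Rec B) :
    S11 (fun n x => ∃ c, dom (Y₁ n x) c ∧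
      Z n x (tr (U n x) (dl (G n x) ++ [c]) (dl (H n x) ++ [B n x])) = 1) :=
  B4_ex (P := fun n c x => dom (Y₁ n x) c ∧
      Z n x (tr (U n x) (dl (G n x) ++ [c]) (dl (H n x) ++ [B n x])) = 1)
    (s11_of_rec (recP_and (B4_dom (B4_shR h₁) B4_snd)
      (B4_Z (B4_shR hZ) (B4_sh hU) (B4_sh hG) (B4_sh hH) B4_snd (B4_sh hB))))

private theorem B4_ans2n {B : ℕ → (ℕ → ℕ) → ℕ} (h₁ : RecR Y₁) (hZ : RecR Z) (hU : Rec U)
    (hG : Rec G) (hH : Rec H) (hB : Rec B) :
    S11 (fun n x => ¬ ∃ c, dom (Y₁ n x) c ∧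
      Z n x (tr (U n x) (dl (G n x) ++ [c]) (dl (H n x) ++ [B n x])) = 1) := by
  refine s11_congr (B4_all (P := fun n c x => ¬ (dom (Y₁ n x) c ∧
      Z n x (tr (U n x) (dl (G n x) ++ [c]) (dl (H n x) ++ [B n x])) = 1))
    (s11_of_rec (recP_not (recP_and (B4_dom (B4_shR h₁) B4_snd)
      (B4_Z (B4_shR hZ) (B4_sh hU) (B4_sh hG) (B4_sh hH) B4_snd (B4_sh hB)))))) (fun n x => ?_)
  exact not_exists.symm

/-- the extension property of `(s, t)` at the level `u` -/
private def B4_X (y₁ y₂ z : ℕ → ℕ) (u : ℕ) (s t : List ℕ) : Prop :=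
  (∀ c, dom y₁ c → ∃ d, dom y₂ d ∧ z (tr u (s ++ [c]) (t ++ [d])) = 1) ∧
    ∀ d, dom y₂ d → ∃ c, dom y₁ c ∧ z (tr u (s ++ [c]) (t ++ [d])) = 1

private theorem B4_sX (h₁ : RecR Y₁) (h₂ : RecR Y₂) (hZ : RecR Z) (hU : Rec U)
    (hG : Rec G) (hH : Rec H) :
    S11 (fun n x => B4_X (Y₁ n x) (Y₂ n x) (Z n x) (U n x) (dl (G n x)) (dl (H n x))) := by
  unfold B4_X
  refine s11_and ?_ ?_
  · exact B4_all (P := fun n c x => dom (Y₁ n x) c → ∃ d, dom (Y₂ n x) d ∧
      Z n x (tr (U n x) (dl (G n x) ++ [c]) (dl (H n x) ++ [d])) = 1)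
      (s11_imp (B4_dom (B4_shR h₁) B4_snd)
        (B4_ans1 (B4_shR h₂) (B4_shR hZ) (B4_sh hU) (B4_sh hG) (B4_sh hH) B4_snd))
  · exact B4_all (P := fun n d x => dom (Y₂ n x) d → ∃ c, dom (Y₁ n x) c ∧
      Z n x (tr (U n x) (dl (G n x) ++ [c]) (dl (H n x) ++ [d])) = 1)
      (s11_imp (B4_dom (B4_shR h₂) B4_snd)
        (B4_ans2 (B4_shR h₁) (B4_shR hZ) (B4_sh hU) (B4_sh hG) (B4_sh hH) B4_snd))

private theorem B4_sXn (h₁ : RecR Y₁) (h₂ : RecR Y₂) (hZ : RecR Z) (hU : Rec U)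
    (hG : Rec G) (hH : Rec H) :
    S11 (fun n x => ¬ B4_X (Y₁ n x) (Y₂ n x) (Z n x) (U n x) (dl (G n x)) (dl (H n x))) := by
  refine s11_congr (s11_or
    (B4_ex (P := fun n c x => dom (Y₁ n x) c ∧ ¬ ∃ d, dom (Y₂ n x) d ∧
      Z n x (tr (U n x) (dl (G n x) ++ [c]) (dl (H n x) ++ [d])) = 1)
      (s11_and (s11_of_rec (B4_dom (B4_shR h₁) B4_snd))
        (B4_ans1n (B4_shR h₂) (B4_shR hZ) (B4_sh hU) (B4_sh hG) (B4_sh hH) B4_snd)))
    (B4_ex (P := fun n d x => dom (Y₂ n x) d ∧ ¬ ∃ c, dom (Y₁ n x) c ∧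
      Z n x (tr (U n x) (dl (G n x) ++ [c]) (dl (H n x) ++ [d])) = 1)
      (s11_and (s11_of_rec (B4_dom (B4_shR h₂) B4_snd))
        (B4_ans2n (B4_shR h₁) (B4_shR hZ) (B4_sh hU) (B4_sh hG) (B4_sh hH) B4_snd))))
    (fun n x => ?_)
  unfold B4_X
  rw [not_and_or, not_forall, not_forall]
  simp only [Classical.not_imp]

private theorem B4_strict {A B : ℕ → (ℕ → ℕ) → ℕ} (hC : Rec C) (hF : RecR F) (hA : Rec A)
    (hB : Rec B) : S11 (fun n x => strict (Rl (C n x) (F n x)) (A n x) (B n x)) :=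
  s11_and (s11_gr hC hF (rec_pair hA hB) (rec_const 1)) (s11_of_rec (recP_not (recP_eq hA hB)))

private theorem B4_strictn {A B : ℕ → (ℕ → ℕ) → ℕ} (hC : Rec C) (hF : RecR F) (hA : Rec A)
    (hB : Rec B) : S11 (fun n x => ¬ strict (Rl (C n x) (F n x)) (A n x) (B n x)) := by
  refine s11_congr (s11_or (s11_not_gr hC hF (rec_pair hA hB) (rec_const 1))
    (s11_of_rec (recP_eq hA hB))) (fun n x => ?_)
  unfold strict Rl
  rw [not_and_or, not_not]

/-- the clause of the definition of a back-and-forth system at `(u, s, t)` -/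
private def B4_K (y₁ y₂ z : ℕ → ℕ) (R : ℕ → ℕ → Prop) (u : ℕ) (s t : List ℕ) : Prop :=
  (∀ a ∈ s, dom y₁ a) ∧ (∀ b ∈ t, dom y₂ b) ∧ AtC y₁ y₂ s t ∧
    ∀ u', strict R u' u → B4_X y₁ y₂ z u' s t

private theorem B4_sK (h₁ : RecR Y₁) (h₂ : RecR Y₂) (hZ : RecR Z) (hC : Rec C) (hF : RecR F)
    (hU : Rec U) (hG : Rec G) (hH : Rec H) :
    S11 (fun n x => B4_K (Y₁ n x) (Y₂ n x) (Z n x) (Rl (C n x) (F n x)) (U n x) (dl (G n x))
      (dl (H n x))) := by
  unfold B4_K
  refine s11_and (s11_of_rec (B4_doms h₁ hG)) (s11_and (s11_of_rec (B4_doms h₂ hH))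
    (s11_and (s11_atC h₁ h₂ hG hH) ?_))
  refine B4_all (P := fun n u' x => strict (Rl (C n x) (F n x)) u' (U n x) →
    B4_X (Y₁ n x) (Y₂ n x) (Z n x) u' (dl (G n x)) (dl (H n x))) ?_
  refine s11_congr (s11_or (B4_strictn (B4_sh hC) (B4_shR hF) B4_snd (B4_sh hU))
    (B4_sX (B4_shR h₁) (B4_shR h₂) (B4_shR hZ) B4_snd (B4_sh hG) (B4_sh hH))) (fun n x => ?_)
  exact imp_iff_not_or.symm

private theorem B4_sKn (h₁ : RecR Y₁) (h₂ : RecR Y₂) (hZ : RecR Z) (hC : Rec C) (hF : RecR F)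
    (hU : Rec U) (hG : Rec G) (hH : Rec H) :
    S11 (fun n x => ¬ B4_K (Y₁ n x) (Y₂ n x) (Z n x) (Rl (C n x) (F n x)) (U n x) (dl (G n x))
      (dl (H n x))) := by
  have hX : S11 (fun n x => ∃ u', strict (Rl (C n x) (F n x)) u' (U n x) ∧
      ¬ B4_X (Y₁ n x) (Y₂ n x) (Z n x) u' (dl (G n x)) (dl (H n x))) :=
    B4_ex (P := fun n u' x => strict (Rl (C n x) (F n x)) u' (U n x) ∧
      ¬ B4_X (Y₁ n x) (Y₂ n x) (Z n x) u' (dl (G n x)) (dl (H n x)))
      (s11_and (B4_strict (B4_sh hC) (B4_shR hF) B4_snd (B4_sh hU))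
        (B4_sXn (B4_shR h₁) (B4_shR h₂) (B4_shR hZ) B4_snd (B4_sh hG) (B4_sh hH)))
  refine s11_congr (s11_or (s11_of_rec (recP_not (B4_doms h₁ hG)))
    (s11_or (s11_of_rec (recP_not (B4_doms h₂ hH))) (s11_or (s11_not_atC h₁ h₂ hG hH) hX)))
    (fun n x => ?_)
  unfold B4_K
  rw [not_and_or, not_and_or, not_and_or, not_forall (p := fun u' =>
    strict (Rl (C n x) (F n x)) u' (U n x) →
      B4_X (Y₁ n x) (Y₂ n x) (Z n x) u' (dl (G n x)) (dl (H n x)))]
  simp only [Classical.not_imp]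

private theorem B4_bsys_iff (y₁ y₂ z : ℕ → ℕ) (R : ℕ → ℕ → Prop) :
    BSys y₁ y₂ z R ↔ ∀ q, (¬ R (Nat.unpair q).1 (Nat.unpair q).1) ∨
      ((z (tr (Nat.unpair q).1 (dl (Nat.unpair (Nat.unpair q).2).1)
          (dl (Nat.unpair (Nat.unpair q).2).2)) = 1 ∧
        B4_K y₁ y₂ z R (Nat.unpair q).1 (dl (Nat.unpair (Nat.unpair q).2).1)
          (dl (Nat.unpair (Nat.unpair q).2).2)) ∨
      (¬ z (tr (Nat.unpair q).1 (dl (Nat.unpair (Nat.unpair q).2).1)
          (dl (Nat.unpair (Nat.unpair q).2).2)) = 1 ∧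
        ¬ B4_K y₁ y₂ z R (Nat.unpair q).1 (dl (Nat.unpair (Nat.unpair q).2).1)
          (dl (Nat.unpair (Nat.unpair q).2).2))) := by
  have e : BSys y₁ y₂ z R ↔ ∀ u s t, R u u → (z (tr u s t) = 1 ↔ B4_K y₁ y₂ z R u s t) := Iff.rfl
  rw [e]
  constructor
  · intro h q
    by_cases hR : R (Nat.unpair q).1 (Nat.unpair q).1
    · right
      have h1 := h _ (dl (Nat.unpair (Nat.unpair q).2).1) (dl (Nat.unpair (Nat.unpair q).2).2) hR
      by_cases hz : z (tr (Nat.unpair q).1 (dl (Nat.unpair (Nat.unpair q).2).1)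
          (dl (Nat.unpair (Nat.unpair q).2).2)) = 1
      · exact Or.inl ⟨hz, h1.mp hz⟩
      · exact Or.inr ⟨hz, fun hk => hz (h1.mpr hk)⟩
    · exact Or.inl hR
  · intro h u s t hR
    have h1 := h (Nat.pair u (Nat.pair (encode s) (encode t)))
    simp only [Nat.unpair_pair, dl_encode] at h1
    rcases h1 with h1 | ⟨h1, h2⟩ | ⟨h1, h2⟩
    · exact absurd hR h1
    · exact ⟨fun _ => h2, fun _ => h1⟩
    · exact ⟨fun h3 => absurd h3 h1, fun h3 => absurd h3 h2⟩

theorem s11_bsys (h₁ : RecR Y₁) (h₂ : RecR Y₂) (hZ : RecR Z) (hC : Rec C) (hF : RecR F) :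
    S11 (fun n x => BSys (Y₁ n x) (Y₂ n x) (Z n x) (Rl (C n x) (F n x))) := by
  have hu := B4_fst
  have hq := B4_snd
  have hU : Rec (fun m _ => (Nat.unpair (Nat.unpair m).2).1) := rec_fst B4_snd
  have hs : Rec (fun m _ => (Nat.unpair (Nat.unpair (Nat.unpair m).2).2).1) :=
    rec_fst (rec_snd B4_snd)
  have ht : Rec (fun m _ => (Nat.unpair (Nat.unpair (Nat.unpair m).2).2).2) :=
    rec_snd (rec_snd B4_snd)
  have hZ0 := B4_Z0 (B4_shR hZ) hU hs ht
  refine s11_congr (B4_all (P := fun n q x =>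
    (¬ Rl (C n x) (F n x) (Nat.unpair q).1 (Nat.unpair q).1) ∨
      ((Z n x (tr (Nat.unpair q).1 (dl (Nat.unpair (Nat.unpair q).2).1)
          (dl (Nat.unpair (Nat.unpair q).2).2)) = 1 ∧
        B4_K (Y₁ n x) (Y₂ n x) (Z n x) (Rl (C n x) (F n x)) (Nat.unpair q).1
          (dl (Nat.unpair (Nat.unpair q).2).1) (dl (Nat.unpair (Nat.unpair q).2).2)) ∨
      (¬ Z n x (tr (Nat.unpair q).1 (dl (Nat.unpair (Nat.unpair q).2).1)
          (dl (Nat.unpair (Nat.unpair q).2).2)) = 1 ∧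
        ¬ B4_K (Y₁ n x) (Y₂ n x) (Z n x) (Rl (C n x) (F n x)) (Nat.unpair q).1
          (dl (Nat.unpair (Nat.unpair q).2).1) (dl (Nat.unpair (Nat.unpair q).2).2))))
    (s11_or (s11_not_gr (B4_sh hC) (B4_shR hF) (rec_pair hU hU) (rec_const 1))
      (s11_or (s11_and (s11_of_rec hZ0)
        (B4_sK (B4_shR h₁) (B4_shR h₂) (B4_shR hZ) (B4_sh hC) (B4_shR hF) hU hs ht))
      (s11_and (s11_of_rec (recP_not hZ0))
        (B4_sKn (B4_shR h₁) (B4_shR h₂) (B4_shR hZ) (B4_sh hC) (B4_shR hF) hU hs ht)))))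
    (fun n x => ?_)
  exact (B4_bsys_iff _ _ _ _).symm

end BW
end

section

/-!
# BW.M2 : diagrams of structures, coded structures

PROOFS.  Every number is `Nat.pair k (encode l)`; `dl (encode l) = l`.
* `dgm_isCd` : the values of `dgm` are `0`, `1`; `dom (dgm ι M) a ↔ a ∈ range ι`.
* `strOf_iso` : `f a = ⟨ι a, _⟩`; `(l.map ι = l'.map ι ↔ l = l')` since `ι` is injective.
* `dgm_strOf` : by `bit` it is enough to compare the positions where the value is `1`.
* `img_dgm` : `l.map h = l'.map ι ↔ l = l'.map (h.symm ∘ ι)`.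
* `exists_perm` : extend the bijection `ι a ↦ ι' a` of the ranges by a bijection of the infinite
  countable complements.
* `funIn_double` : `dgm (2 ι) M` is obtained from `y = dgm ι M`: at `pair k (encode l)`: if all entries
  of `l` are even and `l = l'.map (2 * ·)`, the value `y (pair k (encode l'))`, otherwise `0`; this is
  `Rec` in `y` (`funIn_of_rec`), the halves being computed on codes
  (`Primrec` list map, `rec_app`, `rec_ite`).
-/

namespace BW

open Encodable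

variable {A : Type} {M : Str A} {ι ι' : A → ℕ} {x : ℕ → ℕ}

private theorem M2_form (n : ℕ) : ∃ (k : ℕ) (l : List ℕ), n = Nat.pair k (encode l) :=
  ⟨(Nat.unpair n).1, dl (Nat.unpair n).2, by rw [encode_dl, Nat.pair_unpair]⟩

open Classical in
private theorem M2_apply_zero (l : List ℕ) :
    dgm ι M (Nat.pair 0 (encode l)) = if ∃ a, l = [ι a] then 1 else 0 := by
  unfold dgm
  rw [Nat.unpair_pair, dl_encode]

open Classical in
private theorem M2_apply_succ (k : ℕ) (l : List ℕ) :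
    dgm ι M (Nat.pair (k + 1) (encode l)) =
      if ∃ l' : List A, l = l'.map ι ∧ M.rel k l' then 1 else 0 := by
  unfold dgm
  rw [Nat.unpair_pair, dl_encode]

private theorem M2_eq_of {a b : ℕ} (ha : a ≤ 1) (hb : b ≤ 1) (h : a = 1 ↔ b = 1) : a = b := by
  omega

theorem dgm_le_one (n : ℕ) : dgm ι M n ≤ 1 := by
  obtain ⟨k, l, rfl⟩ := M2_form n
  cases k with
  | zero =>
    rw [M2_apply_zero]
    split_ifs <;> omega
  | succ k =>
    rw [M2_apply_succ]
    split_ifs <;> omega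

theorem dgm_zero (l : List ℕ) : dgm ι M (Nat.pair 0 (encode l)) = 1 ↔ ∃ a, l = [ι a] := by
  rw [M2_apply_zero]
  split_ifs with h
  · exact ⟨fun _ => h, fun _ => rfl⟩
  · exact ⟨fun h' => absurd h' (by simp), fun h' => absurd h' h⟩

theorem dgm_succ (k : ℕ) (l : List ℕ) :
    dgm ι M (Nat.pair (k + 1) (encode l)) = 1 ↔ ∃ l' : List A, l = l'.map ι ∧ M.rel k l' := by
  rw [M2_apply_succ]
  split_ifs with h
  · exact ⟨fun _ => h, fun _ => rfl⟩
  · exact ⟨fun h' => absurd h' (by simp), fun h' => absurd h' h⟩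

theorem dom_dgm (a : ℕ) : dom (dgm ι M) a ↔ a ∈ Set.range ι := by
  unfold dom
  rw [dgm_zero]
  constructor
  · rintro ⟨b, hb⟩
    exact ⟨b, ((List.cons.inj hb).1).symm⟩
  · rintro ⟨b, hb⟩
    exact ⟨b, by rw [hb]⟩

theorem dgm_isCd [Nonempty A] (h : (Set.range ι)ᶜ.Infinite) : IsCd (dgm ι M) where
  bit := dgm_le_one
  zero := by
    intro l hl
    obtain ⟨a, ha⟩ := (dgm_zero l).1 hl
    exact ⟨ι a, ha⟩
  rel := by
    intro k l hl a ha
    obtain ⟨l', hl', _⟩ := (dgm_succ k l).1 hl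
    rw [hl', List.mem_map] at ha
    obtain ⟨b, _, hb⟩ := ha
    exact (dom_dgm a).2 ⟨b, hb⟩
  ne := by
    obtain ⟨a⟩ := (inferInstance : Nonempty A)
    exact ⟨ι a, (dom_dgm _).2 ⟨a, rfl⟩⟩
  coinf := by
    intro n
    obtain ⟨a, ha, hn⟩ := h.exists_gt n
    exact ⟨a, hn.le, fun hd => ha ((dom_dgm a).1 hd)⟩

theorem strOf_iso (hι : Function.Injective ι) :
    ∃ f : A ≃ {a : ℕ // dom (dgm ι M) a}, IsIso M (strOf (dgm ι M)) f ∧ ∀ a, (f a : ℕ) = ι a := by
  have hb : Function.Bijective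
      (fun a : A => (⟨ι a, (dom_dgm _).2 ⟨a, rfl⟩⟩ : {a : ℕ // dom (dgm ι M) a})) := by
    constructor
    · intro a b hab
      exact hι (congrArg Subtype.val hab)
    · rintro ⟨b, hb⟩
      obtain ⟨a, ha⟩ := (dom_dgm b).1 hb
      exact ⟨a, Subtype.ext ha⟩
  refine ⟨Equiv.ofBijective _ hb, ?_, fun a => rfl⟩
  intro k l
  show M.rel k l ↔ dgm ι M (Nat.pair (k + 1) (encode ((l.map _).map Subtype.val))) = 1
  rw [List.map_map, dgm_succ]
  constructor
  · intro h
    exact ⟨l, rfl, h⟩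
  · rintro ⟨l', hl', h⟩
    have h2 : l.map ι = l'.map ι := hl'
    rw [List.map_injective_iff.2 hι h2]
    exact h

theorem dgm_strOf (h : IsCd x) : dgm Subtype.val (strOf x) = x := by
  funext n
  refine M2_eq_of (dgm_le_one n) (h.bit n) ?_
  obtain ⟨k, l, rfl⟩ := M2_form n
  cases k with
  | zero =>
    rw [dgm_zero]
    constructor
    · rintro ⟨⟨a, ha⟩, rfl⟩
      exact ha
    · intro hx
      obtain ⟨a, rfl⟩ := h.zero l hx
      exact ⟨⟨a, hx⟩, rfl⟩
  | succ k =>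
    rw [dgm_succ]
    constructor
    · rintro ⟨l', rfl, hl'⟩
      exact hl'
    · intro hx
      have hd := h.rel k l hx
      lift l to List {a : ℕ // dom x a} using hd
      exact ⟨l, rfl, hx⟩

private theorem M2_map_perm (h : Equiv.Perm ℕ) (l m : List ℕ) : l.map h = m ↔ l = m.map h.symm := by
  constructor
  · rintro rfl
    simp
  · rintro rfl
    simp

theorem img_dgm (h : Equiv.Perm ℕ) : img h (dgm ι M) = dgm (fun a => h.symm (ι a)) M := by
  funext n
  obtain ⟨k, l, rfl⟩ := M2_form n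
  rw [img_apply]
  refine M2_eq_of (dgm_le_one _) (dgm_le_one _) ?_
  cases k with
  | zero =>
    rw [dgm_zero, dgm_zero]
    refine exists_congr fun a => ?_
    rw [M2_map_perm]
    rfl
  | succ k =>
    rw [dgm_succ, dgm_succ]
    refine exists_congr fun l' => and_congr_left fun _ => ?_
    rw [M2_map_perm, List.map_map]
    rfl

theorem exists_perm (hι : Function.Injective ι) (hι' : Function.Injective ι')
    (h : (Set.range ι)ᶜ.Infinite) (h' : (Set.range ι')ᶜ.Infinite) :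
    ∃ h : Equiv.Perm ℕ, ∀ a, h (ι a) = ι' a := by
  classical
  let e : {a : ℕ // a ∈ Set.range ι} ≃ {a : ℕ // a ∈ Set.range ι'} :=
    (Equiv.ofInjective ι hι).symm.trans (Equiv.ofInjective ι' hι')
  have : Infinite {a : ℕ // ¬ a ∈ Set.range ι} := h.to_subtype
  have : Infinite {a : ℕ // ¬ a ∈ Set.range ι'} := h'.to_subtype
  obtain ⟨d⟩ := nonempty_denumerable {a : ℕ // ¬ a ∈ Set.range ι}
  obtain ⟨d'⟩ := nonempty_denumerable {a : ℕ // ¬ a ∈ Set.range ι'}
  let f : {a : ℕ // ¬ a ∈ Set.range ι} ≃ {a : ℕ // ¬ a ∈ Set.range ι'} := Denumerable.equiv₂ _ _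
  refine ⟨Equiv.subtypeCongr e f, fun a => ?_⟩
  have hm : ι a ∈ Set.range ι := ⟨a, rfl⟩
  have h1 : (Equiv.subtypeCongr e f) (ι a) = e ⟨ι a, hm⟩ := by
    simp [Equiv.subtypeCongr, Equiv.sumCompl]
  rw [h1]
  show ((Equiv.ofInjective ι' hι') ((Equiv.ofInjective ι hι).symm ⟨ι a, hm⟩) : ℕ) = ι' a
  have h2 : (Equiv.ofInjective ι hι).symm ⟨ι a, hm⟩ = a := by
    rw [Equiv.symm_apply_eq]
    rfl
  rw [h2]
  rfl

theorem cp_dgm (hι : Function.Injective ι) (hι' : Function.Injective ι')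
    (h : (Set.range ι)ᶜ.Infinite) (h' : (Set.range ι')ᶜ.Infinite) :
    Cp (dgm ι M) (dgm ι' M) := by
  obtain ⟨g, hg⟩ := exists_perm hι hι' h h'
  refine ⟨g.symm, ?_⟩
  rw [img_dgm]
  congr 1
  funext a
  rw [Equiv.symm_symm, hg]

private theorem M2_double (n : ℕ) : dgm (fun a => 2 * ι a) M n =
    if encode ((dl (Nat.unpair n).2).map fun a => 2 * (a / 2)) = (Nat.unpair n).2 then
      dgm ι M (Nat.pair (Nat.unpair n).1 (encode ((dl (Nat.unpair n).2).map fun a => a / 2)))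
    else 0 := by
  obtain ⟨k, l, rfl⟩ := M2_form n
  rw [Nat.unpair_pair]
  simp only [dl_encode]
  have hinj : Function.Injective (fun a : ℕ => 2 * a) := fun a b hab => by
    have : 2 * a = 2 * b := hab
    omega
  split_ifs with h
  · have hl : l.map (fun a => 2 * (a / 2)) = l := encode_injective h
    have hl2 : l = (l.map fun a => a / 2).map (fun a : ℕ => 2 * a) := by
      rw [List.map_map]
      exact hl.symm
    have key : ∀ m : List ℕ, l = m.map (fun a : ℕ => 2 * a) ↔ (l.map fun a => a / 2) = m := by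
      intro m
      constructor
      · intro hm
        rw [hl2] at hm
        exact List.map_injective_iff.2 hinj hm
      · intro hm
        rw [← hm]
        exact hl2
    refine M2_eq_of (dgm_le_one _) (dgm_le_one _) ?_
    cases k with
    | zero =>
      rw [dgm_zero, dgm_zero]
      refine exists_congr fun a => ?_
      exact key [ι a]
    | succ k =>
      rw [dgm_succ, dgm_succ]
      refine exists_congr fun l' => and_congr_left fun _ => ?_
      rw [← key (l'.map ι), List.map_map]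
      rfl
  · have hne : ¬ dgm (fun a => 2 * ι a) M (Nat.pair k (encode l)) = 1 := by
      intro h1
      apply h
      have hl : ∀ a ∈ l, 2 * (a / 2) = a := by
        cases k with
        | zero =>
          obtain ⟨a, ha⟩ := (dgm_zero l).1 h1
          intro b hb
          rw [ha, List.mem_singleton] at hb
          omega
        | succ k =>
          obtain ⟨l', hl', _⟩ := (dgm_succ k l).1 h1
          intro b hb
          rw [hl', List.mem_map] at hb
          obtain ⟨a, _, ha⟩ := hb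
          omega
      congr 1
      conv_rhs => rw [← List.map_id l]
      exact List.map_congr_left fun a ha => hl a ha
    have := dgm_le_one (ι := fun a => 2 * ι a) (M := M) (Nat.pair k (encode l))
    omega

theorem funIn_double : FunIn (dgm ι M) (dgm (fun a => 2 * ι a) M) := by
  have hq : Primrec (fun n : ℕ => (Nat.unpair n).2) := Primrec.snd.comp Primrec.unpair
  have hk : Primrec (fun n : ℕ => (Nat.unpair n).1) := Primrec.fst.comp Primrec.unpair
  have hn : Rec (fun n _ => (Nat.unpair n).2) := rec_snd rec_id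
  have hd : Primrec (fun n : ℕ => dl (Nat.unpair n).2) := primrec_dl.comp hq
  have h2 : Primrec (fun n : ℕ => encode ((dl (Nat.unpair n).2).map fun a => 2 * (a / 2))) := by
    refine Primrec.encode.comp (Primrec.list_map hd ?_)
    exact (Primrec.nat_mul.comp (Primrec.const 2)
      (Primrec.nat_div.comp Primrec.snd (Primrec.const 2)))
  have h3 : Primrec (fun n : ℕ =>
      Nat.pair (Nat.unpair n).1 (encode ((dl (Nat.unpair n).2).map fun a => a / 2))) := by
    refine Primrec₂.natPair.comp hk (Primrec.encode.comp (Primrec.list_map hd ?_))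
    exact Primrec.nat_div.comp Primrec.snd (Primrec.const 2)
  have hP := recP_eq (rec_comp h2 hn) (rec_comp hq hn)
  have hG := rec_ite hP (rec_app (rec_comp h3 hn)) (rec_const 0)
  have key := funIn_of_rec hG (dgm ι M) 0
  convert key using 1
  funext n
  rw [M2_double n]
  simp only [Nat.unpair_pair]

end BW
end

section

/-!
# BW.M3 : `ω₁^M` is computed by the codes with co-infinite domain

PROOFS.
* `omega1Str_eq` : `≤`: the copies of `dgm ι M` are codes of `M` (`img_dgm`), so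
  `omega1Str M ≤ omega1S (dgm ι M)` (`exists_copy`, `csInf_le`).  `≥`: let `y = dgm ι' M` be any code;
  `dgm (2 ι') M` has a co-infinite domain, so it is a copy of `dgm ι M` (`cp_dgm`) and
  `omega1S (dgm ι M) ≤ omega1 (dgm (2 ι') M) ≤ omega1 y` (`funIn_double`, `omega1_mono`).
* `exists_code` : a countable `A` has an injection into `ℕ`; double it.
* `omega1Str_strOf` : `dgm_strOf` and `omega1Str_eq` (`Subtype.val` is injective, and its range
  is co-infinite by `IsCd.coinf`).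
-/

namespace BW

variable {A : Type} {M : Str A} {ι : A → ℕ} {x : ℕ → ℕ}

private theorem M3_range_double_infinite (κ : A → ℕ) :
    (Set.range (fun a => 2 * κ a))ᶜ.Infinite := by
  have h : Set.range (fun n : ℕ => 2 * n + 1) ⊆ (Set.range (fun a => 2 * κ a))ᶜ := by
    rintro _ ⟨n, rfl⟩ ⟨a, ha⟩
    simp only at ha
    omega
  refine Set.Infinite.mono h (Set.infinite_range_of_injective ?_)
  intro a b hab
  simp only at hab
  omega

private theorem M3_double_injective {κ : A → ℕ} (hκ : Function.Injective κ) :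
    Function.Injective (fun a => 2 * κ a) := by
  intro a b hab
  simp only at hab
  exact hκ (by omega)

theorem omega1Str_eq (hι : Function.Injective ι) (h : (Set.range ι)ᶜ.Infinite) :
    omega1Str M = omega1S (dgm ι M) := by
  apply le_antisymm
  · apply le_omega1S
    rintro y ⟨g, rfl⟩
    refine csInf_le' ⟨img g (dgm ι M), ⟨fun a => g.symm (ι a), ?_, img_dgm g⟩, rfl⟩
    exact g.symm.injective.comp hι
  · refine le_csInf ⟨_, dgm ι M, ⟨ι, hι, rfl⟩, rfl⟩ ?_
    rintro _ ⟨y, ⟨κ, hκ, rfl⟩, rfl⟩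
    have h1 : Cp (dgm ι M) (dgm (fun a => 2 * κ a) M) :=
      cp_dgm hι (M3_double_injective hκ) h (M3_range_double_infinite κ)
    exact (omega1S_le_cp h1).trans (omega1_mono funIn_double)

theorem omega1Str_le {y : ℕ → ℕ} (h : Codes y M) : omega1Str M ≤ omega1 y :=
  csInf_le' ⟨y, h, rfl⟩

theorem exists_codes_eq [Countable A] : ∃ y, Codes y M ∧ omega1 y = omega1Str M := by
  obtain ⟨κ, hκ⟩ := exists_injective_nat A
  have hne : {α | ∃ y, Codes y M ∧ α = omega1 y}.Nonempty := ⟨_, dgm κ M, ⟨κ, hκ, rfl⟩, rfl⟩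
  obtain ⟨y, hy, hα⟩ := csInf_mem hne
  exact ⟨y, hy, hα.symm⟩

theorem le_omega1Str [Countable A] {α : Ordinal.{0}} (h : ∀ y, Codes y M → α ≤ omega1 y) :
    α ≤ omega1Str M := by
  obtain ⟨y, hy, he⟩ := exists_codes_eq (M := M)
  rw [← he]
  exact h y hy

/-- every countable structure is isomorphic to a coded one -/
theorem exists_isCd [Countable A] [Nonempty A] (M : Str A) :
    ∃ x, IsCd x ∧ omega1Str M = omega1S x ∧ ∃ f : A ≃ {a : ℕ // dom x a}, IsIso M (strOf x) f := by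
  obtain ⟨κ, hκ⟩ := exists_injective_nat A
  have hi := M3_double_injective hκ
  have hc := M3_range_double_infinite κ
  obtain ⟨f, hf, -⟩ := strOf_iso (M := M) hi
  exact ⟨dgm (fun a => 2 * κ a) M, dgm_isCd hc, omega1Str_eq hi hc, f, hf⟩

theorem omega1Str_strOf (h : IsCd x) : omega1Str (strOf x) = omega1S x := by
  have hc : (Set.range (Subtype.val : {a : ℕ // dom x a} → ℕ))ᶜ.Infinite := by
    rw [Subtype.range_val_subtype, Set.infinite_iff_exists_gt]
    intro n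
    obtain ⟨a, ha, hd⟩ := h.coinf (n + 1)
    exact ⟨a, hd, by omega⟩
  rw [omega1Str_eq Subtype.val_injective hc, dgm_strOf h]

end BW
end

section

/-!
# BW.G5 : embeddings into proper initial segments

PROOF of `s11_emb_seg`.  `EmbR R (seg S b) ↔ ∃ h, (∀ a, R a a → S (h a) (h a) ∧ strict S (h a) b) ∧
∀ a a', strict R a a' → strict S (h a) (h a') ∧ strict S (h a') b` (unfold `EmbR`, `seg`, `strict`).
One real quantifier and number quantifiers over Boolean combinations of `Rl` (`s11_gr`,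
`s11_not_gr`), as in `s11_emb`.  `Ltr R S` is `∃ b, S b b ∧ EmbR R (seg S b)`.
PROOF of `ltr_iff`.  `→`: `R` embeds into `S`, so it is well-founded (`wf_of_emb`; `seg S b` is well-founded
as a part of `S`); let `α` be its type (`exists_type`), `γ < β` the type of `seg S b`
(`hasType_seg_lt`), `α ≤ γ` (`le_of_emb`).  `←`: `hasType_seg` gives `b` with `HasType (seg S b) α`;
`emb_of_type`.
-/

namespace BW

/-- `R` embeds into a proper initial segment of `S` -/
def Ltr (R S : ℕ → ℕ → Prop) : Prop := ∃ b, S b b ∧ EmbR R (seg S b)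

variable {C D : ℕ → (ℕ → ℕ) → ℕ} {F H : ℕ → (ℕ → ℕ) → ℕ → ℕ}

theorem s11_ltr (hC : Rec C) (hF : RecR F) (hD : Rec D) (hH : RecR H) :
    S11 (fun n x => Ltr (Rl (C n x) (F n x)) (Rl (D n x) (H n x))) := by
  -- projections of `pair (pair (pair n b) a) a'`
  have e1 : Rec (fun m _ => (Nat.unpair m).1) := rec_fst rec_id
  have ea' : Rec (fun m _ => (Nat.unpair m).2) := rec_snd rec_id
  have e2 : Rec (fun m _ => (Nat.unpair (Nat.unpair m).1).1) := rec_fst e1
  have ea : Rec (fun m _ => (Nat.unpair (Nat.unpair m).1).2) := rec_snd e1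
  have en : Rec (fun m _ => (Nat.unpair (Nat.unpair (Nat.unpair m).1).1).1) := rec_fst e2
  have eb : Rec (fun m _ => (Nat.unpair (Nat.unpair (Nat.unpair m).1).1).2) := rec_snd e2
  have u1 : RecR (fun (_ : ℕ) (u : ℕ → ℕ) => p1 u) := recR_p1 recR_id
  have u2 : RecR (fun (_ : ℕ) (u : ℕ → ℕ) => p2 u) := recR_p2 recR_id
  have hC' := rec_substR hC en u1
  have hD' := rec_substR hD en u1
  have hF' := recR_subst hF en u1
  have hH' := recR_subst hH en u1
  have ha := recR_app u2 ea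
  have ha' := recR_app u2 ea'
  have one : Rec (fun _ _ => 1) := rec_const 1
  have hRn : ∀ {A B : ℕ → (ℕ → ℕ) → ℕ}, Rec A → Rec B → S11 (fun m u =>
      ¬ Rl (C (Nat.unpair (Nat.unpair (Nat.unpair m).1).1).1 (p1 u))
        (F (Nat.unpair (Nat.unpair (Nat.unpair m).1).1).1 (p1 u)) (A m u) (B m u)) :=
    fun hA hB => s11_not_gr hC' hF' (rec_pair hA hB) one
  have hS : ∀ {A B : ℕ → (ℕ → ℕ) → ℕ}, Rec A → Rec B → S11 (fun m u =>
      Rl (D (Nat.unpair (Nat.unpair (Nat.unpair m).1).1).1 (p1 u))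
        (H (Nat.unpair (Nat.unpair (Nat.unpair m).1).1).1 (p1 u)) (A m u) (B m u)) :=
    fun hA hB => s11_gr hD' hH' (rec_pair hA hB) one
  have hne : ∀ {A B : ℕ → (ℕ → ℕ) → ℕ}, Rec A → Rec B → S11 (fun m u => ¬ A m u = B m u) :=
    fun hA hB => s11_of_rec (recP_not (recP_eq hA hB))
  have heq : ∀ {A B : ℕ → (ℕ → ℕ) → ℕ}, Rec A → Rec B → S11 (fun m u => A m u = B m u) :=
    fun hA hB => s11_of_rec (recP_eq hA hB)
  have k1 := s11_and
    (s11_or (hRn ea ea) (s11_and (hS ha ha) (s11_and (hS ha eb) (hne ha eb))))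
    (s11_or (s11_or (hRn ea ea') (heq ea ea'))
      (s11_and (s11_and (hS ha ha') (s11_and (hS ha' eb) (hne ha' eb))) (hne ha ha')))
  have k4 := s11_exR (s11_all (s11_all k1))
  have k0 : S11 (fun m x => Rl (D (Nat.unpair m).1 x) (H (Nat.unpair m).1 x)
      (Nat.unpair m).2 (Nat.unpair m).2) :=
    s11_gr (rec_subst hD e1) (recR_subst hH e1 recR_id) (rec_pair ea' ea') one
  refine s11_congr (s11_ex (s11_and k0 k4)) fun n x => ?_
  simp only [Nat.unpair_pair, p1_jn, p2_jn]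
  refine exists_congr fun b => and_congr Iff.rfl (exists_congr fun h => ?_)
  unfold seg strict
  constructor
  · intro hh
    refine ⟨fun a hRa => ?_, fun a a' hRa => ?_⟩
    · rcases (hh a a).1 with h1 | h1
      · exact absurd hRa h1
      · exact h1
    · rcases (hh a a').2 with (h1 | h1) | h1
      · exact absurd hRa.1 h1
      · exact absurd h1 hRa.2
      · exact h1
  · rintro ⟨h1, h2⟩ a a'
    refine ⟨?_, ?_⟩
    · by_cases hRa : Rl (C n x) (F n x) a a
      · exact Or.inr (h1 a hRa)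
      · exact Or.inl hRa
    · by_cases hRa : Rl (C n x) (F n x) a a'
      · by_cases he : a = a'
        · exact Or.inl (Or.inr he)
        · exact Or.inr (h2 a a' ⟨hRa, he⟩)
      · exact Or.inl (Or.inl hRa)

end BW
end

section

/-!
# BW.O3 : comparison of well-orders by embeddings; `ω₁^x` is closed under `α ↦ α + ω`

PROOFS.
* `ltr_wf`, `ltr_lt`, `ltr_of_lt` : see the docstring of `G5` (`wf_of_emb`, `hasType_seg_lt`,
  `le_of_emb`, `hasType_seg`, `emb_of_type`).  `seg S b` is well-founded if `S` is.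
* `add_omega_lt` : let `c` be an index with `Tot c x`, `IsWO (Rl c x)`, of type `α` (`exists_index`).
  The relation `R' (2 a) (2 b) :⇔ Rl c x a b`, `R' (2 a) (2 b + 1) :⇔ Rl c x a a`,
  `R' (2 a + 1) (2 b + 1) :⇔ a ≤ b` is recursive in `x` and of type `α + ω` (`f (2 a) = f_α a`,
  `f (2 a + 1) = α + a`); `ordIn_iff`.
-/

namespace BW

variable {R S : ℕ → ℕ → Prop} {α β : Ordinal.{0}} {x : ℕ → ℕ}

/-- relations defined from a relation recursive in `x` are recursive in `x` -/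
private theorem O3_relIn {R S : ℕ → ℕ → Prop} (hR : RelIn x R) {P : ℕ → (ℕ → ℕ) → Prop}
    (hP : RecP P) (h : ∀ f : ℕ → ℕ, (∀ a b, R a b ↔ f (Nat.pair a b) = 1) →
      ∀ a b, S a b ↔ P (Nat.pair a b) f) : RelIn x S := by
  classical
  obtain ⟨f, hf, hfR⟩ := hR
  have h1 : Rec (fun m z => if P (Nat.unpair m).2 z then 1 else 0) :=
    rec_ite (recP_subst hP (rec_snd rec_id)) (rec_const 1) (rec_const 0)
  have h2 := funIn_of_rec h1 f 0
  simp only [Nat.unpair_pair] at h2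
  refine ⟨fun n => if P n f then 1 else 0, funIn_trans hf h2, fun a b => ?_⟩
  rw [h f hfR a b]
  by_cases hp : P (Nat.pair a b) f
  · simp [hp]
  · simp [hp]

private theorem O3_seg_wf (hS : WellFounded (strict S)) (b : ℕ) :
    WellFounded (strict (seg S b)) := by
  have hsub : Subrelation (strict (seg S b)) (strict S) := by
    intro a c h
    exact ⟨h.1.1, h.2⟩
  exact hsub.wf hS

theorem ltr_wf (hS : WellFounded (strict S)) (h : Ltr R S) : WellFounded (strict R) := by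
  obtain ⟨b, _, hb⟩ := h
  exact wf_of_emb hb (O3_seg_wf hS b)

theorem ltr_lt (hR : IsLin R) (hS : IsLin S) (hα : HasType R α) (hβ : HasType S β)
    (h : Ltr R S) : α < β := by
  obtain ⟨b, hbb, hb⟩ := h
  obtain ⟨γ, hγ, hT⟩ := hasType_seg_lt hS hβ hbb
  exact lt_of_le_of_lt (le_of_emb hb hR hα hT) hγ

theorem ltr_of_lt (hR : IsLin R) (hS : IsLin S) (hα : HasType R α) (hβ : HasType S β)
    (h : α < β) : Ltr R S := by
  obtain ⟨c, hc, hT⟩ := hasType_seg hS hβ h
  exact ⟨c, hc, emb_of_type hR hα hT le_rfl⟩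

theorem add_omega_lt (h : α < omega1 x) : α + Ordinal.omega0 < omega1 x := by
  obtain ⟨R, hR, f, f1, f2, f3, f4⟩ := ordIn_iff.2 h
  have hd : Rec (fun m _ => (Nat.unpair m).1 / 2) :=
    rec_comp (Primrec.nat_div.comp Primrec.id (Primrec.const 2)) (rec_fst rec_id)
  have hd2 : Rec (fun m _ => (Nat.unpair m).2 / 2) :=
    rec_comp (Primrec.nat_div.comp Primrec.id (Primrec.const 2)) (rec_snd rec_id)
  have hm : Rec (fun m _ => (Nat.unpair m).1 % 2) :=
    rec_comp (Primrec.nat_mod.comp Primrec.id (Primrec.const 2)) (rec_fst rec_id)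
  have hm2 : Rec (fun m _ => (Nat.unpair m).2 % 2) :=
    rec_comp (Primrec.nat_mod.comp Primrec.id (Primrec.const 2)) (rec_snd rec_id)
  have hP : RecP (fun m z : _ => ((Nat.unpair m).1 % 2 = 0 ∧ ((Nat.unpair m).2 % 2 = 0 ∧
      z (Nat.pair ((Nat.unpair m).1 / 2) ((Nat.unpair m).2 / 2)) = 1)) ∨
      (((Nat.unpair m).1 % 2 = 0 ∧ ((Nat.unpair m).2 % 2 = 1 ∧
      z (Nat.pair ((Nat.unpair m).1 / 2) ((Nat.unpair m).1 / 2)) = 1)) ∨
      ((Nat.unpair m).1 % 2 = 1 ∧ ((Nat.unpair m).2 % 2 = 1 ∧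
      (Nat.unpair m).1 / 2 ≤ (Nat.unpair m).2 / 2)))) :=
    recP_or (recP_and (recP_eq hm (rec_const 0)) (recP_and (recP_eq hm2 (rec_const 0))
        (recP_eq (rec_app (rec_pair hd hd2)) (rec_const 1))))
      (recP_or (recP_and (recP_eq hm (rec_const 0)) (recP_and (recP_eq hm2 (rec_const 1))
        (recP_eq (rec_app (rec_pair hd hd)) (rec_const 1))))
        (recP_and (recP_eq hm (rec_const 1)) (recP_and (recP_eq hm2 (rec_const 1))
        (recP_le hd hd2))))
  have hS := O3_relIn (S := fun a b => (a % 2 = 0 ∧ (b % 2 = 0 ∧ R (a / 2) (b / 2))) ∨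
      ((a % 2 = 0 ∧ (b % 2 = 1 ∧ R (a / 2) (a / 2))) ∨
      (a % 2 = 1 ∧ (b % 2 = 1 ∧ a / 2 ≤ b / 2)))) hR hP (by
    intro g hg a b
    simp only [Nat.unpair_pair]
    rw [hg, hg])
  refine ordIn_iff.1 ⟨_, hS, ?_⟩
  have hfield : ∀ a, ((a % 2 = 0 ∧ (a % 2 = 0 ∧ R (a / 2) (a / 2))) ∨
      ((a % 2 = 0 ∧ (a % 2 = 1 ∧ R (a / 2) (a / 2))) ∨
      (a % 2 = 1 ∧ (a % 2 = 1 ∧ a / 2 ≤ a / 2)))) →
      (a % 2 = 0 ∧ R (a / 2) (a / 2)) ∨ a % 2 = 1 := by
    intro a ha
    rcases ha with ha | ha | ha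
    · exact Or.inl ⟨ha.1, ha.2.2⟩
    · exact Or.inl ⟨ha.1, ha.2.2⟩
    · exact Or.inr ha.1
  refine ⟨fun a => if a % 2 = 0 then f (a / 2) else α + ((a / 2 : ℕ) : Ordinal.{0}),
    ?_, ?_, ?_, ?_⟩
  · intro a b ha hb
    show (_ ∨ _) ↔ (if a % 2 = 0 then f (a / 2) else α + ((a / 2 : ℕ) : Ordinal.{0})) ≤
      (if b % 2 = 0 then f (b / 2) else α + ((b / 2 : ℕ) : Ordinal.{0}))
    rcases hfield a ha with ⟨ha0, haR⟩ | ha1
    · rcases hfield b hb with ⟨hb0, hbR⟩ | hb1
      · rw [if_pos ha0, if_pos hb0, ← f1 _ _ haR hbR]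
        constructor
        · rintro (h | h | h)
          · exact h.2.2
          · omega
          · omega
        · intro h
          exact Or.inl ⟨ha0, hb0, h⟩
      · rw [if_pos ha0, if_neg (show ¬ b % 2 = 0 by omega)]
        constructor
        · intro _
          exact ((f3 _ haR).le).trans le_self_add
        · intro _
          exact Or.inr (Or.inl ⟨ha0, hb1, haR⟩)
    · rcases hfield b hb with ⟨hb0, hbR⟩ | hb1
      · rw [if_neg (show ¬ a % 2 = 0 by omega), if_pos hb0]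
        constructor
        · rintro (h | h | h) <;> omega
        · intro h
          exact absurd (lt_of_le_of_lt h (f3 _ hbR)) (not_lt.2 le_self_add)
      · rw [if_neg (show ¬ a % 2 = 0 by omega), if_neg (show ¬ b % 2 = 0 by omega),
          add_le_add_iff_left, Nat.cast_le]
        constructor
        · rintro (h | h | h)
          · omega
          · omega
          · exact h.2.2
        · intro h
          exact Or.inr (Or.inr ⟨ha1, hb1, h⟩)
  · intro a b ha hb he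
    rcases hfield a ha with ⟨ha0, haR⟩ | ha1
    · rcases hfield b hb with ⟨hb0, hbR⟩ | hb1
      · simp only [if_pos ha0, if_pos hb0] at he
        have := f2 _ _ haR hbR he
        omega
      · simp only [if_pos ha0, if_neg (show ¬ b % 2 = 0 by omega)] at he
        have h1 := f3 _ haR
        rw [he] at h1
        exact absurd h1 (not_lt.2 le_self_add)
    · rcases hfield b hb with ⟨hb0, hbR⟩ | hb1
      · simp only [if_pos hb0, if_neg (show ¬ a % 2 = 0 by omega)] at he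
        have h1 := f3 _ hbR
        rw [← he] at h1
        exact absurd h1 (not_lt.2 le_self_add)
      · simp only [if_neg (show ¬ a % 2 = 0 by omega), if_neg (show ¬ b % 2 = 0 by omega)] at he
        have h1 := add_left_cancel he
        have h2 : a / 2 = b / 2 := Nat.cast_injective h1
        omega
  · intro a ha
    rcases hfield a ha with ⟨ha0, haR⟩ | ha1
    · simp only [if_pos ha0]
      exact (f3 _ haR).trans_le le_self_add
    · simp only [if_neg (show ¬ a % 2 = 0 by omega)]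
      exact (add_lt_add_iff_left α).2 (Ordinal.natCast_lt_omega0 _)
  · intro γ hγ
    rcases lt_or_ge γ α with hlt | hge
    · obtain ⟨a, ha, hfa⟩ := f4 γ hlt
      have e1 : 2 * a % 2 = 0 := by omega
      have e2 : 2 * a / 2 = a := by omega
      refine ⟨2 * a, Or.inl ⟨e1, e1, ?_⟩, ?_⟩
      · rw [e2]; exact ha
      · simp only [if_pos e1, e2]
        exact hfa
    · obtain ⟨δ, rfl⟩ := exists_add_of_le hge
      have hδ : δ < Ordinal.omega0 := (add_lt_add_iff_left α).1 hγ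
      obtain ⟨m, rfl⟩ := Ordinal.lt_omega0.1 hδ
      have e1 : (2 * m + 1) % 2 = 1 := by omega
      have e2 : (2 * m + 1) / 2 = m := by omega
      refine ⟨2 * m + 1, Or.inr (Or.inr ⟨e1, e1, le_rfl⟩), ?_⟩
      simp only [if_neg (show ¬ (2 * m + 1) % 2 = 0 by omega), e2]

end BW
end
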