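import Pool.Agent.Lib.MP_62bfd3_lc.Mg.G001
import Pool.Agent.Lib.MP_62bfd3_lc.Mg.G002
import Pool.Agent.Lib.MP_62bfd3_lc.BW.Fm2

section

/-!
# BW.K1 : the Kleene-Brouwer order of a tree

PROOFS.
* `kb_isLin` : for two different lists exactly one of `KBlt s t`, `KBlt t s` holds (look at the first
  difference, or one is a proper prefix of the other); transitivity by cases.  `encode` is injective.
* `kb_wf` : let `s₀, s₁, ...` be strictly descending in the order.  By induction on `k`: the sequence
  of the restrictions `sᵢ.take k` is eventually constant with value `pre w k` of length `k`: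
  eventually all `sᵢ` extend `pre w k`, at most one of them is equal to it (a node is above
  its extensions), so eventually the entries `sᵢ[k]` exist and are nonincreasing, hence eventually
  constant.  So `T (pre w k)` for all `k` by `Pfx`: an infinite path, contradiction.
* `kb_not_wf` : the restrictions `pre w k` form a descending sequence.
* `kb_ext` : definition.
-/

namespace BW

open Encodable

variable {T : List ℕ → Prop}

private theorem K1_nil (t : List ℕ) : ¬ KBlt [] t := by
  rintro (⟨u, hu, h⟩ | ⟨p, i, j, u, v, h, -, -⟩)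
  · have := List.append_eq_nil_iff.1 h.symm
    exact hu this.2
  · exact absurd h (by simp)

private theorem K1_to_nil {s : List ℕ} (h : s ≠ []) : KBlt s [] := Or.inl ⟨s, h, rfl⟩

private theorem K1_cons (i j : ℕ) (s t : List ℕ) :
    KBlt (i :: s) (j :: t) ↔ i < j ∨ (i = j ∧ KBlt s t) := by
  constructor
  · rintro (⟨u, hu, h⟩ | ⟨p, a, b, u, v, h1, h2, hab⟩)
    · rw [List.cons_append] at h
      injection h with h1 h2
      exact Or.inr ⟨h1, Or.inl ⟨u, hu, h2⟩⟩
    · cases p with
      | nil =>
        rw [List.nil_append] at h1 h2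
        injection h1 with h3 h4
        injection h2 with h5 h6
        exact Or.inl (by rw [h3, h5]; exact hab)
      | cons c p =>
        rw [List.cons_append] at h1 h2
        injection h1 with h3 h4
        injection h2 with h5 h6
        exact Or.inr ⟨h3.trans h5.symm, Or.inr ⟨p, a, b, u, v, h4, h6, hab⟩⟩
  · rintro (h | ⟨rfl, h⟩)
    · exact Or.inr ⟨[], i, j, s, t, rfl, rfl, h⟩
    · rcases h with ⟨u, hu, rfl⟩ | ⟨p, a, b, u, v, rfl, rfl, hab⟩
      · exact Or.inl ⟨u, hu, rfl⟩
      · exact Or.inr ⟨i :: p, a, b, u, v, rfl, rfl, hab⟩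

private theorem K1_irrefl (s : List ℕ) : ¬ KBlt s s := by
  induction s with
  | nil => exact K1_nil []
  | cons a s ih =>
    rw [K1_cons]
    rintro (h | ⟨-, h⟩)
    · exact lt_irrefl _ h
    · exact ih h

private theorem K1_trans {s t u : List ℕ} (h1 : KBlt s t) (h2 : KBlt t u) : KBlt s u := by
  induction s generalizing t u with
  | nil => exact absurd h1 (K1_nil t)
  | cons a s ih =>
    cases u with
    | nil => exact K1_to_nil (by simp)
    | cons c u =>
      cases t with
      | nil => exact absurd h2 (K1_nil _)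
      | cons b t =>
        rw [K1_cons] at h1 h2 ⊢
        rcases h1 with h1 | ⟨rfl, h1⟩
        · rcases h2 with h2 | ⟨rfl, h2⟩
          · exact Or.inl (h1.trans h2)
          · exact Or.inl h1
        · rcases h2 with h2 | ⟨rfl, h2⟩
          · exact Or.inl h2
          · exact Or.inr ⟨rfl, ih h1 h2⟩

private theorem K1_total (s t : List ℕ) : KBlt s t ∨ s = t ∨ KBlt t s := by
  induction s generalizing t with
  | nil =>
    cases t with
    | nil => exact Or.inr (Or.inl rfl)
    | cons b t => exact Or.inr (Or.inr (K1_to_nil (by simp)))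
  | cons a s ih =>
    cases t with
    | nil => exact Or.inl (K1_to_nil (by simp))
    | cons b t =>
      rw [K1_cons, K1_cons]
      rcases lt_trichotomy a b with h | rfl | h
      · exact Or.inl (Or.inl h)
      · rcases ih t with h | rfl | h
        · exact Or.inl (Or.inr ⟨rfl, h⟩)
        · exact Or.inr (Or.inl rfl)
        · exact Or.inr (Or.inr (Or.inr ⟨rfl, h⟩))
      · exact Or.inr (Or.inr (Or.inl h))

private theorem K1_iff {s t : List ℕ} (hs : T s) (ht : T t) :
    KB T (encode s) (encode t) ↔ (s = t ∨ KBlt s t) := by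
  constructor
  · rintro ⟨s', t', h1, h2, -, -, h⟩
    rw [encode_injective h1, encode_injective h2]
    exact h
  · intro h
    exact ⟨s, t, rfl, rfl, hs, ht, h⟩

theorem kb_isLin : IsLin (KB T) := by
  constructor
  · rintro a b ⟨s, t, rfl, rfl, hs, ht, -⟩
    exact ⟨⟨s, s, rfl, rfl, hs, hs, Or.inl rfl⟩, ⟨t, t, rfl, rfl, ht, ht, Or.inl rfl⟩⟩
  · rintro a b ⟨s, t, rfl, rfl, hs, ht, h⟩ h'
    rw [K1_iff ht hs] at h'
    rcases h with rfl | h
    · rfl
    · rcases h' with rfl | h'
      · rfl
      · exact absurd (K1_trans h h') (K1_irrefl s)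
  · rintro a b c ⟨s, t, rfl, rfl, hs, ht, h⟩ ⟨t', u, h1, rfl, -, hu, h'⟩
    have e1 := encode_injective h1
    subst e1
    rw [K1_iff hs hu]
    rcases h with rfl | h
    · exact h'
    · rcases h' with rfl | h'
      · exact Or.inr h
      · exact Or.inr (K1_trans h h')
  · rintro a b ⟨s, s', rfl, -, hs, -, -⟩ ⟨t, t', rfl, -, ht, -, -⟩
    rw [K1_iff hs ht, K1_iff ht hs]
    rcases K1_total s t with h | rfl | h
    · exact Or.inl (Or.inr h)
    · exact Or.inl (Or.inl rfl)
    · exact Or.inr (Or.inr h)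

theorem kb_iff {s t : List ℕ} (hs : T s) (ht : T t) :
    KB T (encode s) (encode t) ↔ (s = t ∨ KBlt s t) := K1_iff hs ht

private theorem K1_ext {s u : List ℕ} (hs : T s) (hu : T (s ++ u)) (hne : u ≠ []) :
    strict (KB T) (encode (s ++ u)) (encode s) := by
  refine ⟨⟨s ++ u, s, rfl, rfl, hu, hs, Or.inr (Or.inl ⟨u, hne, rfl⟩)⟩, fun h => hne ?_⟩
  have := encode_injective h
  exact List.append_right_eq_self.1 this

private theorem K1_strict {s t : List ℕ} (hs : T s) (ht : T t) (h : KBlt s t) :
    strict (KB T) (encode s) (encode t) := by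
  refine ⟨(K1_iff hs ht).2 (Or.inr h), fun e => ?_⟩
  have := encode_injective e
  subst this
  exact K1_irrefl _ h

/-- nodes below an accessible node -/
private theorem K1_acc_ext {s u : List ℕ} (hs : T s) (hu : T (s ++ u))
    (h : Acc (strict (KB T)) (encode s)) : Acc (strict (KB T)) (encode (s ++ u)) := by
  by_cases hne : u = []
  · subst hne
    rwa [List.append_nil]
  · exact h.inv (K1_ext hs hu hne)

/-- if the nodes to the left of `s` are accessible then so is `s` -/
private def K1_Q (T : List ℕ → Prop) (s : List ℕ) : Prop :=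
  (∀ t, T t → KBlt t s → ¬ s <+: t → Acc (strict (KB T)) (encode t)) →
    Acc (strict (KB T)) (encode s)

private theorem K1_step (hT : Pfx T) {s : List ℕ} (hs : T s)
    (h : ∀ i, T (s ++ [i]) → K1_Q T (s ++ [i])) : K1_Q T s := by
  intro hL
  have key : ∀ i, T (s ++ [i]) → Acc (strict (KB T)) (encode (s ++ [i])) := by
    intro i
    induction i using Nat.strong_induction_on with
    | _ i ih =>
      intro hi
      refine h i hi fun t ht hlt hpre => ?_
      rcases hlt with ⟨u, hu, rfl⟩ | ⟨p, a, b, u, v, rfl, h2, hab⟩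
      · exact absurd (List.prefix_append _ _) hpre
      · rcases List.eq_nil_or_concat v with rfl | ⟨v', x, rfl⟩
        · obtain ⟨h3, h4⟩ := List.append_inj' h2 rfl
          injection h4 with h5
          subst h3 h5
          have h6 : T (s ++ [a]) := hT (s ++ [a]) u (by rwa [List.append_assoc, List.singleton_append])
          have h7 := K1_acc_ext h6 (u := u) (by rwa [List.append_assoc, List.singleton_append])
            (ih a hab h6)
          rwa [List.append_assoc, List.singleton_append] at h7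
        · rw [List.concat_eq_append, ← List.cons_append, ← List.append_assoc] at h2
          obtain ⟨h3, -⟩ := List.append_inj' h2 rfl
          refine hL _ ht (Or.inr ⟨p, a, b, u, v', rfl, h3, hab⟩) ?_
          rw [h3]
          intro h5
          rw [List.prefix_append_right_inj, List.cons_prefix_cons] at h5
          exact absurd h5.1 (by omega)
  refine Acc.intro _ fun x hx => ?_
  obtain ⟨⟨t, s', rfl, h1, ht, -, h2⟩, hne⟩ := hx
  have e1 := encode_injective h1
  subst e1
  rcases h2 with rfl | h2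
  · exact absurd rfl hne
  by_cases hp : s <+: t
  · obtain ⟨u, rfl⟩ := hp
    cases u with
    | nil => exact absurd (by rw [List.append_nil]) hne
    | cons i u =>
      have h6 : T (s ++ [i]) := hT (s ++ [i]) u (by rwa [List.append_assoc, List.singleton_append])
      have h7 := K1_acc_ext h6 (u := u) (by rwa [List.append_assoc, List.singleton_append])
        (key i h6)
      rwa [List.append_assoc, List.singleton_append] at h7
  · exact hL t ht h2 hp

theorem kb_wf (hT : Pfx T) (h : ¬ ∃ w : ℕ → ℕ, ∀ k, T (pre w k)) :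
    WellFounded (strict (KB T)) := by
  by_cases h0 : T []
  · have hQ : K1_Q T [] := by
      by_contra hn
      apply h
      have hc : ∀ s, T s → ¬ K1_Q T s → ∃ i, T (s ++ [i]) ∧ ¬ K1_Q T (s ++ [i]) := by
        intro s hs hns
        by_contra hcon
        push Not at hcon
        exact hns (K1_step hT hs hcon)
      choose c hc1 hc2 using hc
      let g : ℕ → {s : List ℕ // T s ∧ ¬ K1_Q T s} := fun n =>
        Nat.rec ⟨[], h0, hn⟩ (fun _ s => ⟨s.1 ++ [c s.1 s.2.1 s.2.2], hc1 _ _ _, hc2 _ _ _⟩) n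
      refine ⟨fun n => c (g n).1 (g n).2.1 (g n).2.2, fun k => ?_⟩
      have hk : pre (fun n => c (g n).1 (g n).2.1 (g n).2.2) k = (g k).1 := by
        induction k with
        | zero => rfl
        | succ k ih =>
          rw [pre_succ, ih]
      rw [hk]
      exact (g k).2.1
    have hr : Acc (strict (KB T)) (encode ([] : List ℕ)) :=
      hQ fun t _ _ hp => absurd List.nil_prefix hp
    constructor
    intro a
    refine Acc.intro _ fun b hb => ?_
    obtain ⟨⟨s, t, rfl, rfl, hs, ht, -⟩, -⟩ := hb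
    exact K1_acc_ext (s := []) h0 (u := s) hs hr
  · constructor
    intro a
    refine Acc.intro _ fun b hb => ?_
    obtain ⟨⟨s, t, rfl, rfl, hs, ht, -⟩, -⟩ := hb
    exact absurd (hT [] s hs) h0

theorem kb_not_wf (h : ∃ w : ℕ → ℕ, ∀ k, T (pre w k)) :
    ¬ WellFounded (strict (KB T)) := by
  obtain ⟨w, hw⟩ := h
  intro hwf
  obtain ⟨m, ⟨k, rfl⟩, hmin⟩ := hwf.has_min (Set.range fun k => encode (pre w k)) ⟨_, 0, rfl⟩
  refine hmin _ ⟨k + 1, rfl⟩ ?_
  have h1 := hw (k + 1)
  rw [pre_succ] at h1
  show strict (KB T) (encode (pre w (k + 1))) (encode (pre w k))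
  rw [pre_succ]
  exact K1_ext (hw k) h1 (by simp)

theorem kb_ext {s u : List ℕ} (hs : T s) (hu : T (s ++ u)) (hne : u ≠ []) :
    strict (KB T) (encode (s ++ u)) (encode s) := K1_ext hs hu hne

end BW
end

section

/-!
# BW.K3 : recursive trees give recursive orders, uniformly

PROOF.  `KB (T n x) a b` is a recursive predicate of `pair n (pair a b)` and `x`: `a = encode (dl a)`
always (`encode_dl`), so `KB (T n x) a b ↔ T n x (dl a) ∧ T n x (dl b) ∧ (a = b ∨ KBlt (dl a) (dl b))`,
and `KBlt` is a primitive recursive relation of two lists (compare by recursion, or bounded search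
over the position of the first difference: `KBlt s t ↔ (t.length < s.length ∧ s.take t.length = t) ∨
∃ i < min lengths, s.take i = t.take i ∧ s[i] < t[i]`).  Apply `gr_smn` to its characteristic
functional: `Gr (f n) x m 1 ↔ value 1`, and `Tot` because the functional is total.
-/

namespace BW

open Encodable

private theorem K3_char (s t : List ℕ) : KBlt s t ↔
    ∃ i < s.length, (∀ j < i, s[j]? = t[j]?) ∧
      (t.length = i ∨ (i < t.length ∧ s.getD i 0 < t.getD i 0)) := by
  constructor
  · rintro (⟨u, hu, rfl⟩ | ⟨p, i, j, u, v, rfl, rfl, hij⟩)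
    · refine ⟨t.length, ?_, ?_, Or.inl rfl⟩
      · rw [List.length_append]
        have := List.length_pos_iff.2 hu
        omega
      · intro j hj
        rw [List.getElem?_append_left hj]
    · refine ⟨p.length, by simp, ?_, Or.inr ⟨by simp, ?_⟩⟩
      · intro k hk
        rw [List.getElem?_append_left hk, List.getElem?_append_left hk]
      · simpa [List.getD_eq_getElem?_getD] using hij
  · rintro ⟨i, hi, hpre, h⟩
    rcases h with h | ⟨h, hlt⟩
    · left
      refine ⟨s.drop i, ?_, ?_⟩
      · intro h0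
        have := congrArg List.length h0
        simp at this
        omega
      · have ht : t = s.take i := by
          apply List.ext_getElem?
          intro k
          by_cases hk : k < i
          · rw [List.getElem?_take_of_lt hk, hpre k hk]
          · rw [List.getElem?_eq_none (by omega), List.getElem?_eq_none]
            rw [List.length_take]
            omega
        rw [ht, List.take_append_drop]
    · right
      have hsi : s = s.take i ++ s[i] :: s.drop (i + 1) := by
        rw [List.getElem_cons_drop, List.take_append_drop]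
      have hti : t = t.take i ++ t[i] :: t.drop (i + 1) := by
        rw [List.getElem_cons_drop, List.take_append_drop]
      have htake : s.take i = t.take i := by
        apply List.ext_getElem?
        intro k
        by_cases hk : k < i
        · rw [List.getElem?_take_of_lt hk, List.getElem?_take_of_lt hk, hpre k hk]
        · rw [List.getElem?_eq_none, List.getElem?_eq_none]
          · rw [List.length_take]; omega
          · rw [List.length_take]; omega
      refine ⟨s.take i, s[i], t[i], s.drop (i + 1), t.drop (i + 1), hsi, ?_, ?_⟩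
      · rw [htake]; exact hti
      · simpa [List.getD_eq_getElem?_getD, hi, h] using hlt

theorem kblt_primrec : PrimrecRel (fun a b : ℕ => KBlt (dl a) (dl b)) := by
  have hs : Primrec (fun q : ℕ × ℕ => dl q.1) := primrec_dl.comp Primrec.fst
  have ht : Primrec (fun q : ℕ × ℕ => dl q.2) := primrec_dl.comp Primrec.snd
  -- equality of the entries
  have h1 : PrimrecRel (fun (j : ℕ) (q : ℕ × ℕ) => (dl q.1)[j]? = (dl q.2)[j]?) :=
    Primrec.eq.comp (Primrec.list_getElem?.comp (hs.comp Primrec.snd) Primrec.fst)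
      (Primrec.list_getElem?.comp (ht.comp Primrec.snd) Primrec.fst)
  have h2 : PrimrecRel (fun (i : ℕ) (q : ℕ × ℕ) => ∀ j < i, (dl q.1)[j]? = (dl q.2)[j]?) :=
    ((h1.forall_mem_list).comp (Primrec.list_range.comp Primrec.fst) Primrec.snd).of_eq (by simp)
  have h3 : PrimrecRel (fun (i : ℕ) (q : ℕ × ℕ) => (∀ j < i, (dl q.1)[j]? = (dl q.2)[j]?) ∧
      ((dl q.2).length = i ∨ (i < (dl q.2).length ∧ (dl q.1).getD i 0 < (dl q.2).getD i 0))) := by
    refine PrimrecPred.and h2 (PrimrecPred.or ?_ (PrimrecPred.and ?_ ?_))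
    · exact Primrec.eq.comp (Primrec.list_length.comp (ht.comp Primrec.snd)) Primrec.fst
    · exact Primrec.nat_lt.comp Primrec.fst (Primrec.list_length.comp (ht.comp Primrec.snd))
    · exact Primrec.nat_lt.comp ((Primrec.list_getD 0).comp (hs.comp Primrec.snd) Primrec.fst)
        ((Primrec.list_getD 0).comp (ht.comp Primrec.snd) Primrec.fst)
  have h4 : PrimrecPred (fun q : ℕ × ℕ => ∃ i ∈ List.range (dl q.1).length,
      ((∀ j < i, (dl q.1)[j]? = (dl q.2)[j]?) ∧
      ((dl q.2).length = i ∨ (i < (dl q.2).length ∧ (dl q.1).getD i 0 < (dl q.2).getD i 0)))) :=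
    (h3.exists_mem_list).comp (Primrec.list_range.comp (Primrec.list_length.comp hs)) Primrec.id
  refine h4.of_eq (fun q => ?_)
  have h5 := (K3_char (dl q.1) (dl q.2)).symm
  simpa only [List.mem_range] using h5

private theorem K3_kb_iff {T : List ℕ → Prop} (a b : ℕ) :
    (T (dl a) ∧ T (dl b) ∧ (a = b ∨ KBlt (dl a) (dl b))) ↔ KB T a b := by
  constructor
  · rintro ⟨h1, h2, h3⟩
    refine ⟨dl a, dl b, (encode_dl a).symm, (encode_dl b).symm, h1, h2, ?_⟩
    rcases h3 with h3 | h3
    · left; rw [h3]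
    · right; exact h3
  · rintro ⟨s, t, rfl, rfl, h1, h2, h3⟩
    rw [dl_encode, dl_encode]
    refine ⟨h1, h2, ?_⟩
    rcases h3 with h3 | h3
    · left; rw [h3]
    · right; exact h3

theorem kb_index {T : ℕ → (ℕ → ℕ) → List ℕ → Prop}
    (hT : RecP (fun n x => T (Nat.unpair n).1 x (dl (Nat.unpair n).2))) :
    ∃ f : ℕ → ℕ, Primrec f ∧ ∀ n x, Tot (f n) x ∧ ∀ a b, Rl (f n) x a b ↔ KB (T n x) a b := by
  classical
  have e1 : Rec (fun m _ => Nat.pair (Nat.unpair m).1 (Nat.unpair (Nat.unpair m).2).1) :=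
    rec_pair (rec_fst rec_id) (rec_fst (rec_snd rec_id))
  have e2 : Rec (fun m _ => Nat.pair (Nat.unpair m).1 (Nat.unpair (Nat.unpair m).2).2) :=
    rec_pair (rec_fst rec_id) (rec_snd (rec_snd rec_id))
  have a1 : Rec (fun m _ => (Nat.unpair (Nat.unpair m).2).1) := rec_fst (rec_snd rec_id)
  have a2 : Rec (fun m _ => (Nat.unpair (Nat.unpair m).2).2) := rec_snd (rec_snd rec_id)
  have t1 := recP_subst hT e1
  have t2 := recP_subst hT e2
  have hun : Primrec (fun m : ℕ => (Nat.unpair m).1) := Primrec.fst.comp Primrec.unpair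
  have hun2 : Primrec (fun m : ℕ => (Nat.unpair m).2) := Primrec.snd.comp Primrec.unpair
  have b1 : Primrec (fun m : ℕ => (Nat.unpair (Nat.unpair m).2).1) := hun.comp hun2
  have b2 : Primrec (fun m : ℕ => (Nat.unpair (Nat.unpair m).2).2) := hun2.comp hun2
  have k1 : RecP (fun m _ => KBlt (dl (Nat.unpair (Nat.unpair m).2).1)
      (dl (Nat.unpair (Nat.unpair m).2).2)) :=
    recP_of_primrec (kblt_primrec.comp b1 b2)
  have hP : RecP (fun m x => KB (T (Nat.unpair m).1 x) (Nat.unpair (Nat.unpair m).2).1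
      (Nat.unpair (Nat.unpair m).2).2) := by
    refine recP_congr (recP_and t1 (recP_and t2 (recP_or (recP_eq a1 a2) k1))) ?_
    intro m x
    simp only [Nat.unpair_pair]
    rw [K3_kb_iff]
  obtain ⟨f, hf, hG⟩ := gr_smn hP
  refine ⟨f, hf, fun n x => ⟨fun m => ⟨_, (hG n x m _).2 rfl, fun y hy => ((hG n x m y).1 hy).symm⟩,
    fun a b => ?_⟩⟩
  unfold Rl
  rw [hG]
  simp only [Nat.unpair_pair]
  split_ifs with h <;> simp [h]

end BW
end

section

/-!
# BW.T1 : the tree normal form of a `Σ¹₁` predicate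

PROOF.  Let `P n x ↔ ∃ w, ∀ k, Q (pair n k) (jn x w)`, `g` an approximation of the characteristic
functional of `Q`.  Put `R n s t = true` iff `s.length = t.length` and for all `k ≤ s.length`,
`g (pair n k) (zip s t) ≠ some 0`, where `zip s t` is the list of the `Nat.pair s_i t_i`.
Since `pre (jn x w) k = zip (pre x k) (pre w k)`: if `Q (pair n k) (jn x w)` for all `k` then no value
`0` is ever found (`rec_unique`), so `R n (pre x k) (pre w k)` for all `k`.  Conversely if `Q (pair n k)
(jn x w)` fails for some `k`, then `g (pair n k) (pre (jn x w) k') = some 0` for some `k'`, by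
monotonicity for some `k' ≥ k`, and `R n (pre x k') (pre w k')` fails.
`R` is closed under prefixes by monotonicity of `g`.
-/

namespace BW

open Encodable

/-- the list of the pairs -/
private def T1_zp (s t : List ℕ) : List ℕ :=
  (List.range s.length).map fun i => Nat.pair (s.getD i 0) (t.getD i 0)

private theorem T1_zp_pre (x w : ℕ → ℕ) (k : ℕ) : T1_zp (pre x k) (pre w k) = pre (jn x w) k := by
  unfold T1_zp
  rw [pre_length]
  refine List.map_congr_left fun i hi => ?_
  have h := List.mem_range.1 hi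
  rw [List.getD_eq_getElem?_getD, List.getD_eq_getElem?_getD, pre_getElem? x h, pre_getElem? w h]
  rfl

private theorem T1_zp_append (s t s' t' : List ℕ) (h : s.length = t.length) :
    ∃ u, T1_zp (s ++ s') (t ++ t') = T1_zp s t ++ u := by
  unfold T1_zp
  rw [List.length_append, List.range_add, List.map_append]
  refine ⟨_, congrArg (· ++ _) (List.map_congr_left fun i hi => ?_)⟩
  have h1 := List.mem_range.1 hi
  rw [List.getD_append _ _ _ _ h1, List.getD_append _ _ _ _ (h ▸ h1)]

private theorem T1_zp_primrec : Primrec (fun p : ℕ × List ℕ × List ℕ => T1_zp p.2.1 p.2.2) := by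
  have h1 : Primrec fun q : (ℕ × List ℕ × List ℕ) × ℕ => q.1.2.1.getD q.2 0 :=
    (Primrec.list_getD 0).comp (Primrec.fst.comp (Primrec.snd.comp Primrec.fst)) Primrec.snd
  have h2 : Primrec fun q : (ℕ × List ℕ × List ℕ) × ℕ => q.1.2.2.getD q.2 0 :=
    (Primrec.list_getD 0).comp (Primrec.snd.comp (Primrec.snd.comp Primrec.fst)) Primrec.snd
  exact Primrec.list_map (Primrec.list_range.comp (Primrec.list_length.comp
    (Primrec.fst.comp Primrec.snd))) (Primrec₂.natPair.comp h1 h2)

private theorem T1_dec {p : Prop} : @decide p (Classical.propDecidable p) = true ↔ p :=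
  @decide_eq_true_iff p (Classical.propDecidable p)

theorem s11_tree {P : ℕ → (ℕ → ℕ) → Prop} (hP : S11 P) :
    ∃ R : ℕ → List ℕ → List ℕ → Bool,
      Primrec (fun p : ℕ × List ℕ × List ℕ => R p.1 p.2.1 p.2.2) ∧
      (∀ n s t s' t', s.length = t.length → R n (s ++ s') (t ++ t') = true → R n s t = true) ∧
      ∀ n x, P n x ↔ ∃ w : ℕ → ℕ, ∀ k, R n (pre x k) (pre w k) = true := by
  obtain ⟨Q, ⟨g, hg, hm, hv'⟩, hPQ⟩ := hP
  have hv : ∀ n x, ∃ k, g n (pre x k) = some (@ite _ (Q n x) (Classical.propDecidable _) 1 0) := hv'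
  refine ⟨fun n s t => @decide (s.length = t.length ∧
    ∀ k ∈ List.range (s.length + 1), g (Nat.pair n k) (T1_zp s t) ≠ some 0)
    (Classical.propDecidable _), ?_, ?_, ?_⟩
  · have h1 : PrimrecRel fun (k : ℕ) (y : ℕ × List ℕ) => g (Nat.pair y.1 k) y.2 ≠ some 0 := by
      refine PrimrecPred.not ?_
      exact Primrec.eq.comp (hg.comp (Primrec₂.natPair.comp (Primrec.fst.comp Primrec.snd)
        Primrec.fst) (Primrec.snd.comp Primrec.snd)) (Primrec.const _)
    have h4 : PrimrecRel fun (L : List ℕ) (y : ℕ × List ℕ) =>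
        ∀ k ∈ L, g (Nat.pair y.1 k) y.2 ≠ some 0 := PrimrecRel.forall_mem_list h1
    have h2 : PrimrecPred fun p : ℕ × List ℕ × List ℕ => ∀ k ∈ List.range (p.2.1.length + 1),
        g (Nat.pair p.1 k) (T1_zp p.2.1 p.2.2) ≠ some 0 :=
      h4.comp (f := fun p : ℕ × List ℕ × List ℕ => List.range (p.2.1.length + 1))
        (g := fun p : ℕ × List ℕ × List ℕ => (p.1, T1_zp p.2.1 p.2.2))
        (Primrec.list_range.comp
          (Primrec.succ.comp (Primrec.list_length.comp (Primrec.fst.comp Primrec.snd))))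
        (Primrec.fst.pair T1_zp_primrec)
    have h3 : PrimrecPred fun p : ℕ × List ℕ × List ℕ => p.2.1.length = p.2.2.length :=
      Primrec.eq.comp (Primrec.list_length.comp (Primrec.fst.comp Primrec.snd))
        (Primrec.list_length.comp (Primrec.snd.comp Primrec.snd))
    exact @PrimrecPred.decide _ _ _ (fun _ => Classical.propDecidable _) (h3.and h2)
  · intro n s t s' t' hst h
    rw [T1_dec] at h ⊢
    refine ⟨hst, fun k hk h0 => ?_⟩
    obtain ⟨u, hu⟩ := T1_zp_append s t s' t' hst
    have hk' := List.mem_range.1 hk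
    refine h.2 k (List.mem_range.2 (by rw [List.length_append]; omega)) ?_
    rw [hu]
    exact hm _ _ _ _ h0
  · intro n x
    rw [hPQ]
    refine exists_congr fun w => ⟨fun h k => ?_, fun h k => ?_⟩
    · rw [T1_dec]
      refine ⟨by rw [pre_length, pre_length], fun j _ h0 => ?_⟩
      rw [T1_zp_pre] at h0
      have h1 := rec_unique (hm (Nat.pair n j)) (hv (Nat.pair n j) (jn x w)) h0
      rw [if_pos (h j)] at h1
      exact absurd h1 (by norm_num)
    · by_contra hQ
      obtain ⟨k', hk'⟩ := hv (Nat.pair n k) (jn x w)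
      rw [if_neg hQ] at hk'
      have h1 := h (max k k')
      rw [T1_dec, pre_length, T1_zp_pre] at h1
      obtain ⟨t, ht⟩ := pre_append (jn x w) (le_max_right k k')
      refine h1.2 k (List.mem_range.2 (by have := le_max_left k k'; omega)) ?_
      rw [ht]
      exact hm _ _ _ _ hk'

/-- conversely -/
theorem s11_of_tree {R : ℕ → List ℕ → List ℕ → Bool}
    (hR : Primrec (fun p : ℕ × List ℕ × List ℕ => R p.1 p.2.1 p.2.2)) :
    S11 (fun n x => ∃ w : ℕ → ℕ, ∀ k, R n (pre x k) (pre w k) = true) := by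
  have hf : Primrec fun z : ℕ => R (Nat.unpair z).1 (dl (Nat.unpair (Nat.unpair z).2).1)
      (dl (Nat.unpair (Nat.unpair z).2).2) := by
    have hu : Primrec fun z : ℕ => (Nat.unpair z).2 := Primrec.snd.comp Primrec.unpair
    have h1 : Primrec fun z : ℕ => (Nat.unpair z).1 := Primrec.fst.comp Primrec.unpair
    exact hR.comp (h1.pair ((primrec_dl.comp (h1.comp hu)).pair (primrec_dl.comp (hu.comp hu))))
  have hpre : Rec fun n x => encode (pre x n) := rec_pre rec_id
  have hsnd : Rec fun n _ => (Nat.unpair n).2 := rec_snd rec_id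
  have h1 : Rec fun n y => encode (pre (p1 y) (Nat.unpair n).2) :=
    rec_substR hpre hsnd (recR_p1 recR_id)
  have h2 : Rec fun n y => encode (pre (p2 y) (Nat.unpair n).2) :=
    rec_substR hpre hsnd (recR_p2 recR_id)
  have h3 := recP_bool hf (rec_pair (rec_fst rec_id) (rec_pair h1 h2))
  refine ⟨_, h3, fun n x => exists_congr fun w => forall_congr' fun k => ?_⟩
  simp only [Nat.unpair_pair, p1_jn, p2_jn, dl_encode]

end BW
end

section

/-!
# BW.U1 : the universal `Σ¹₁` predicate

PROOFS.
* `s11_index` : by `s11_tree`, `P n x ↔ ∃ w ∀ k R n (pre x k) (pre w k)`.  The partial function on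
  numbers which sends `encode (n, s, t)` to `0` if `R n s t = false` and is undefined otherwise is
  partial recursive (`Partrec`; e.g. `Nat.rfind` or `Part.assert`/`Partrec.cond`), so it has a code
  `c` (`Nat.Partrec.Code.exists_code`), and `evaln k c (encode (n,s,t)) = none` for all `k` iff
  `R n s t = true` (`Nat.Partrec.Code.evaln_complete`).  For the quantifiers `∀ k j, j ≤ k →` use
  `evaln_mono`: `∀ j, ∀ k, evaln k c (..j..) = none` is equivalent.
* `s11_U11` : the matrix `∀ j ≤ k, evaln k (ofNatCode c) (encode (n, pre x j, pre w j)) = none` is a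
  recursive predicate of `(c, n, k)` and `jn x w`: `evaln` is primitive recursive
  (`Nat.Partrec.Code.primrec_evaln`), `encode (pre (p1 u) j)` is recursive (`rec_pre`,
  `rec_substR`), bounded quantifier `recP_ball`.
* `not_s11_diag` : if `P` is `Σ¹₁` with `P n z ↔ ¬ U11 n n z` for all `n`, take an index `c` of `P`:
  `P n z ↔ U11 c n z`; contradiction for `n = c`.
-/

namespace BW

/-- the trees as partial recursive functions -/
private theorem U1_code {R : ℕ → ℕ → List ℕ → List ℕ → Bool}
    (hR : Primrec (fun p : ℕ × ℕ × List ℕ × List ℕ => R p.1 p.2.1 p.2.2.1 p.2.2.2)) :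
    ∃ f : ℕ → ℕ, Primrec f ∧ ∀ m n x,
      (∃ w : ℕ → ℕ, ∀ k, R m n (pre x k) (pre w k) = true) ↔ U11 (f m) n x := by
  classical
  -- the value of the tree at a coded argument
  let b : ℕ → Bool := fun q =>
    ((Encodable.decode (α := ℕ × List ℕ × List ℕ) (Nat.unpair q).2).map
      (fun t => R (Nat.unpair q).1 t.1 t.2.1 t.2.2)).getD true
  have hb : Primrec b := by
    refine Primrec.option_getD.comp ?_ (Primrec.const true)
    refine Primrec.option_map (Primrec.decode.comp (Primrec.snd.comp Primrec.unpair)) ?_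
    exact hR.comp (Primrec.pair (Primrec.fst.comp (Primrec.unpair.comp Primrec.fst))
      (Primrec.pair (Primrec.fst.comp Primrec.snd)
        (Primrec.pair (Primrec.fst.comp (Primrec.snd.comp Primrec.snd))
          (Primrec.snd.comp (Primrec.snd.comp Primrec.snd)))))
  let g : ℕ → Option ℕ := fun q => bif b q then none else some 0
  have hg : Primrec g := Primrec.cond hb (Primrec.const none) (Primrec.const (some 0))
  have hgp : Nat.Partrec (fun q => (Part.ofOption (g q) : Part ℕ)) :=
    Partrec.nat_iff.1 (Computable.ofOption hg.to_comp)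
  obtain ⟨c, hc⟩ := Nat.Partrec.Code.exists_code.1 hgp
  refine ⟨fun m => Nat.Partrec.Code.encodeCode (Nat.Partrec.Code.curry c m), ?_, ?_⟩
  · have : Primrec (fun m => Encodable.encode (Nat.Partrec.Code.curry c m)) :=
      Primrec.encode.comp (Nat.Partrec.Code.primrec₂_curry.comp (Primrec.const c) Primrec.id)
    exact this
  · intro m n x
    have hcode : Nat.Partrec.Code.ofNatCode (Nat.Partrec.Code.encodeCode
        (Nat.Partrec.Code.curry c m)) = Nat.Partrec.Code.curry c m := by
      rw [← Nat.Partrec.Code.ofNatCode_eq, ← Nat.Partrec.Code.encodeCode_eq]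
      exact Denumerable.ofNat_encode _
    -- key equivalence
    have key : ∀ s t : List ℕ, R m n s t = true ↔
        ∀ k, Nat.Partrec.Code.evaln k (Nat.Partrec.Code.curry c m)
          (Encodable.encode (n, s, t)) = none := by
      intro s t
      have hbv : b (Nat.pair m (Encodable.encode (n, s, t))) = R m n s t := by
        simp only [b, Nat.unpair_pair, Encodable.encodek, Option.map_some, Option.getD_some]
      constructor
      · intro h k
        by_contra hne
        obtain ⟨y, hy⟩ := Option.ne_none_iff_exists'.1 hne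
        have h1 : y ∈ Nat.Partrec.Code.eval (Nat.Partrec.Code.curry c m)
            (Encodable.encode (n, s, t)) := Nat.Partrec.Code.evaln_sound (k := k) hy
        rw [Nat.Partrec.Code.eval_curry, hc] at h1
        have h2 : g (Nat.pair m (Encodable.encode (n, s, t))) = some y := Part.mem_ofOption.1 h1
        simp only [g, hbv, h, cond_true] at h2
        cases h2
      · intro h
        by_contra hne
        have hf : R m n s t = false := by simpa using hne
        have h2 : (0 : ℕ) ∈ Nat.Partrec.Code.eval (Nat.Partrec.Code.curry c m)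
            (Encodable.encode (n, s, t)) := by
          rw [Nat.Partrec.Code.eval_curry, hc]
          refine Part.mem_ofOption.2 ?_
          simp only [g, hbv, hf, cond_false]
          rfl
        obtain ⟨k, hk⟩ := Nat.Partrec.Code.evaln_complete.1 h2
        rw [h k] at hk
        cases hk
    unfold U11
    rw [hcode]
    refine exists_congr fun w => ?_
    constructor
    · intro h k j _
      exact (key _ _).1 (h j) k
    · intro h j
      rw [key]
      intro k
      by_contra hne
      obtain ⟨y, hy⟩ := Option.ne_none_iff_exists'.1 hne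
      have h3 := Nat.Partrec.Code.evaln_mono (le_max_left k j) hy
      rw [h (max k j) j (le_max_right k j)] at h3
      cases h3

theorem s11_index {P : ℕ → (ℕ → ℕ) → Prop} (hP : S11 P) : ∃ c, ∀ n x, P n x ↔ U11 c n x := by
  obtain ⟨R, hR, -, hP'⟩ := s11_tree hP
  obtain ⟨f, -, hf⟩ := U1_code (R := fun _ n s t => R n s t) (hR.comp Primrec.snd)
  exact ⟨f 0, fun n x => (hP' n x).trans (hf 0 n x)⟩

theorem s11_U11 : S11 (fun n x => U11 (Nat.unpair n).1 (Nat.unpair n).2 x) := by
  classical
  let Q : ℕ → (ℕ × List ℕ × List ℕ) → Prop := fun j p =>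
    Nat.Partrec.Code.evaln p.2.1.length (Nat.Partrec.Code.ofNatCode (Nat.unpair p.1).1)
      (Encodable.encode ((Nat.unpair p.1).2, p.2.1.take j, p.2.2.take j)) = none
  have hQ : PrimrecRel Q := by
    have h1 : Primrec₂ (fun (j : ℕ) (p : ℕ × List ℕ × List ℕ) =>
        Nat.Partrec.Code.evaln p.2.1.length (Nat.Partrec.Code.ofNatCode (Nat.unpair p.1).1)
          (Encodable.encode ((Nat.unpair p.1).2, p.2.1.take j, p.2.2.take j))) := by
      refine Nat.Partrec.Code.primrec_evaln.comp (Primrec.pair (Primrec.pair ?_ ?_) ?_)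
      · exact Primrec.list_length.comp (Primrec.fst.comp (Primrec.snd.comp Primrec.snd))
      · have h2 : Primrec (fun p : ℕ × ℕ × List ℕ × List ℕ =>
            Denumerable.ofNat Nat.Partrec.Code (Nat.unpair p.2.1).1) :=
          (Primrec.ofNat Nat.Partrec.Code).comp
            (Primrec.fst.comp (Primrec.unpair.comp (Primrec.fst.comp Primrec.snd)))
        rw [Nat.Partrec.Code.ofNatCode_eq] at h2
        exact h2
      · refine Primrec.encode.comp (Primrec.pair
          (Primrec.snd.comp (Primrec.unpair.comp (Primrec.fst.comp Primrec.snd)))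
          (Primrec.pair ?_ ?_))
        · exact Primrec.list_take.comp Primrec.fst
            (Primrec.fst.comp (Primrec.snd.comp Primrec.snd))
        · exact Primrec.list_take.comp Primrec.fst
            (Primrec.snd.comp (Primrec.snd.comp Primrec.snd))
    exact Primrec.eq.comp₂ h1 (Primrec₂.const none)
  have hQ2 : PrimrecPred (fun p : ℕ × List ℕ × List ℕ =>
      ∀ j ∈ List.range (p.2.1.length + 1), Q j p) :=
    hQ.forall_mem_list.comp (Primrec.list_range.comp (Primrec.succ.comp
      (Primrec.list_length.comp (Primrec.fst.comp Primrec.snd)))) Primrec.id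
  obtain ⟨R, hR, hRd⟩ : ∃ R : ℕ → List ℕ → List ℕ → Bool,
      Primrec (fun p : ℕ × List ℕ × List ℕ => R p.1 p.2.1 p.2.2) ∧
      ∀ n s t, R n s t = true ↔ ∀ j ∈ List.range (s.length + 1), Q j (n, s, t) := by
    obtain ⟨inst, h⟩ := hQ2
    exact ⟨fun n s t => @decide (∀ j ∈ List.range (s.length + 1), Q j (n, s, t)) (inst (n, s, t)),
      h, fun n s t => @decide_eq_true_iff _ (inst (n, s, t))⟩
  refine s11_congr (s11_of_tree hR) ?_
  intro n x
  unfold U11
  refine exists_congr fun w => forall_congr' fun k => ?_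
  rw [hRd]
  simp only [List.mem_range, pre_length, Nat.lt_succ_iff, Q]
  refine forall_congr' fun j => ?_
  constructor
  · intro h hj
    have := h hj
    rwa [pre_take x hj, pre_take w hj] at this
  · intro h hj
    rw [pre_take x hj, pre_take w hj]
    exact h hj

theorem not_s11_diag (z : ℕ → ℕ) : ¬ ∃ P, S11 P ∧ ∀ n, P n z ↔ ¬ U11 n n z := by
  rintro ⟨P, hP, h⟩
  obtain ⟨c, hc⟩ := s11_index hP
  have h1 := h c
  rw [hc c z] at h1
  exact (iff_not_self h1).elim

/-- indices for parametrised families: a `Σ¹₁` predicate of `pair m n` gives a primitive recursive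
function `m ↦ c m` of indices (s-m-n theorem; `Nat.Partrec.Code.curry`) -/
theorem s11_smn {P : ℕ → (ℕ → ℕ) → Prop} (hP : S11 P) :
    ∃ f : ℕ → ℕ, Primrec f ∧ ∀ m n x, P (Nat.pair m n) x ↔ U11 (f m) n x := by
  obtain ⟨R, hR, -, hP'⟩ := s11_tree hP
  obtain ⟨f, hf1, hf⟩ := U1_code (R := fun m n s t => R (Nat.pair m n) s t)
    (hR.comp (Primrec.pair (Primrec₂.natPair.comp Primrec.fst (Primrec.fst.comp Primrec.snd))
      (Primrec.snd.comp Primrec.snd)))
  exact ⟨f, hf1, fun m n x => (hP' _ x).trans (hf m n x)⟩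

end BW
end

section

/-!
# BW.K2 : comparing an order with the Kleene-Brouwer order of a tree

PROOF of `type_lt_of_hom`.  Let `f` be the isomorphism of `HasType R α` and `F` the one of
`HasType (KB T) β`.  Claim: for every descending `d ++ [a]`, `f a ≤ F (encode (h (d ++ [a])))`.
Induction on `f a` (well-founded on ordinals): if `γ < f a` then `γ = f b` for some `b` in the field,
`strict R b a`, `d ++ [a] ++ [b]` is descending, so `γ = f b ≤ F (h (d ++ [a] ++ [b])) <
F (h (d ++ [a]))` because `h (d ++ [a] ++ [b])` is a proper extension of `h (d ++ [a])` (`kb_ext`).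
Hence `f a ≤ F (..)`.  For `d = []`: `f a ≤ F (h [a]) < F (h []) < β`, so `α ≤ F (h []) < β`
(if `α = 0` it is clear since `h []` is in the field).
-/

namespace BW

open Encodable

private theorem K2_desc_snoc {R : ℕ → ℕ → Prop} {d : List ℕ} {a b : ℕ} (hd : Desc R (d ++ [a]))
    (hb : R b b) (hba : strict R b a) : Desc R (d ++ [a] ++ [b]) := by
  refine ⟨fun c hc => ?_, fun i hi => ?_⟩
  · rw [List.mem_append] at hc
    rcases hc with hc | hc
    · exact hd.1 c hc
    · have : c = b := by simpa using hc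
      rw [this]; exact hb
  · have hlen : (d ++ [a] ++ [b]).length = d.length + 2 := by simp
    have hi' : i + 1 < d.length + 2 := by rw [← hlen]; exact hi
    by_cases hc : i + 1 < (d ++ [a]).length
    · have h1 := hd.2 i hc
      have h5 : i < (d ++ [a]).length := by omega
      have e1 : (d ++ [a] ++ [b])[i + 1] = (d ++ [a])[i + 1] := List.getElem_append_left hc
      have e2 : (d ++ [a] ++ [b])[i]'(by omega) = (d ++ [a])[i] := List.getElem_append_left h5
      rw [e1, e2]
      exact h1
    · have hl2 : (d ++ [a]).length = d.length + 1 := by simp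
      have hi3 : i = d.length := by omega
      subst hi3
      rw [List.getElem_append_right (by omega)]
      have e2 : (d ++ [a] ++ [b])[d.length]'(by omega) = a := by
        rw [List.getElem_append_left (by omega), List.getElem_append_right (by omega)]
        simp
      rw [e2]
      simpa using hba

theorem type_lt_of_hom {R : ℕ → ℕ → Prop} {α β : Ordinal.{0}} {T : List ℕ → Prop}
    (hR : HasType R α) (hT : HasType (KB T) β) (h : List ℕ → List ℕ)
    (h1 : ∀ d, Desc R d → T (h d))
    (h2 : ∀ d a, Desc R (d ++ [a]) → ∃ u, u ≠ [] ∧ h (d ++ [a]) = h d ++ u) : α < β := by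
  obtain ⟨f, f1, f2, f3, f4⟩ := hR
  obtain ⟨F, F1, F2, F3, F4⟩ := hT
  have fld : ∀ s, T s → KB T (encode s) (encode s) := fun s hs => ⟨s, s, rfl, rfl, hs, hs, Or.inl rfl⟩
  have step : ∀ d a, Desc R d → Desc R (d ++ [a]) →
      F (encode (h (d ++ [a]))) < F (encode (h d)) := by
    intro d a hd hda
    obtain ⟨u, hu, he⟩ := h2 d a hda
    have hT1 := h1 d hd
    have hT2 := h1 (d ++ [a]) hda
    have hT3 : T (h d ++ u) := he ▸ hT2
    have hk := kb_ext hT1 hT3 hu
    rw [← he] at hk
    have hle := (F1 _ _ (fld _ hT2) (fld _ hT1)).1 hk.1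
    exact lt_of_le_of_ne hle (fun hE => hk.2 (F2 _ _ (fld _ hT2) (fld _ hT1) hE))
  have key : ∀ γ : Ordinal.{0}, ∀ d a, f a = γ → Desc R (d ++ [a]) →
      γ ≤ F (encode (h (d ++ [a]))) := by
    intro γ
    induction γ using WellFoundedLT.induction with
    | ind γ ih =>
      intro d a ha hd
      by_contra hlt
      push Not at hlt
      have hRa : R a a := hd.1 a (by simp)
      obtain ⟨b, hb, hfb⟩ := f4 (F (encode (h (d ++ [a])))) (lt_trans hlt (ha ▸ f3 a hRa))
      have hba : strict R b a := by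
        have hlt' : f b < f a := by rw [hfb, ha]; exact hlt
        exact ⟨(f1 b a hb hRa).2 hlt'.le, fun hE => by rw [hE] at hlt'; exact lt_irrefl _ hlt'⟩
      have hdb : Desc R (d ++ [a] ++ [b]) := K2_desc_snoc hd hb hba
      have h3 := ih (f b) (by rw [hfb]; exact hlt) (d ++ [a]) b rfl hdb
      have h4 := step (d ++ [a]) b hd hdb
      rw [hfb] at h3
      exact absurd (lt_of_le_of_lt h3 h4) (lt_irrefl _)
  have hnil : Desc R [] := ⟨fun a ha => by simp at ha, fun i hi => by simp at hi⟩
  have hlast : α ≤ F (encode (h [])) := by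
    by_contra hlt
    push Not at hlt
    obtain ⟨b, hb, hfb⟩ := f4 _ hlt
    have hdb : Desc R ([] ++ [b]) := by
      refine ⟨fun a ha => ?_, fun i hi => ?_⟩
      · have : a = b := by simpa using ha
        rw [this]; exact hb
      · simp at hi
    have h3 := key (f b) [] b rfl hdb
    have h4 := step [] b hnil hdb
    rw [hfb] at h3
    exact absurd (lt_of_le_of_lt h3 h4) (lt_irrefl _)
  exact lt_of_le_of_lt hlast (F3 _ (fld _ (h1 [] hnil)))

end BW
end

section

/-!
# BW.A2 : Baire category in the space of reals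

PROOFS.  The topology of `ℕ → ℕ` is the product of the discrete topologies; `cyl q` is clopen, nonempty
(`exists_pre`, `encode_dl`), and the `cyl q` form a basis.
* `surj_comeagre` : the set is the union over `b` of the closed nowhere dense sets `{g | ∀ a, g a ≠ b}`
  (its complement is open and dense: every `cyl q` contains `g` with `g (dl q).length = b`).
* `cyl_not_meagre` : the Baire category theorem (`ℕ → ℕ` is completely metrizable,
  `BaireSpace`; `dense_of_mem_residual` and openness of `cyl q`).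
* `exists_nonmeagre` : countable unions of meagre sets are meagre (`isMeagre_iUnion`).
* `meagre_comp` : `g ↦ h ∘ g` is a homeomorphism of `ℕ → ℕ`
  (`Homeomorph.piCongrRight`/`Equiv.toHomeomorph...`; preimages of meagre sets under an open
  continuous map are meagre, `IsMeagre.preimage_of_isOpenMap` or by hand).
* `cyl_subset_iff` : `pre g k` for `g` with `pre g (dl a).length = dl a`; the case where `dl a` is shorter
  than `dl b` is excluded by taking `g` extending `dl a` with a value different from the next entry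
  of `dl b`.
-/

namespace BW

open Encodable

theorem mem_cyl_iff {g : ℕ → ℕ} {q : ℕ} : g ∈ cyl q ↔ pre g (dl q).length = dl q := Iff.rfl

private theorem A2_cyl_eq (q : ℕ) : ∃ x : ℕ → ℕ, pre x (dl q).length = dl q ∧
    cyl q = {g | ∀ i < (dl q).length, g i = x i} := by
  obtain ⟨x, hx⟩ := exists_pre (dl q)
  refine ⟨x, hx, ?_⟩
  ext g
  constructor
  · intro hg
    have h1 : pre g (dl q).length = pre x (dl q).length := (mem_cyl_iff.1 hg).trans hx.symm
    exact eq_of_pre h1
  · intro hg
    exact (pre_congr hg).trans hx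

theorem cyl_isOpen (q : ℕ) : IsOpen (cyl q) := by
  obtain ⟨x, -, hx⟩ := A2_cyl_eq q
  rw [hx]
  have h1 : {g : ℕ → ℕ | ∀ i < (dl q).length, g i = x i} =
      ⋂ i ∈ Finset.range (dl q).length, {g : ℕ → ℕ | g i = x i} := by
    ext g
    simp only [Set.mem_iInter, Finset.mem_range]
    exact Iff.rfl
  rw [h1]
  refine isOpen_biInter_finset fun i _ => ?_
  have h2 : Continuous (fun g : ℕ → ℕ => g i) := continuous_apply i
  exact (isOpen_discrete ({x i} : Set ℕ)).preimage h2

theorem cyl_nonempty (q : ℕ) : (cyl q).Nonempty := exists_pre (dl q)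

theorem cyl_nil : cyl (encode ([] : List ℕ)) = Set.univ := by
  refine Set.eq_univ_of_forall fun g => ?_
  rw [mem_cyl_iff, dl_encode]
  rfl

theorem cyl_subset_iff {a b : ℕ} : cyl a ⊆ cyl b ↔ dl b <+: dl a := by
  constructor
  · intro h
    obtain ⟨x, hx⟩ := exists_pre (dl a)
    have hxb : pre x (dl b).length = dl b := h (mem_cyl_iff.2 hx)
    rcases le_or_gt (dl b).length (dl a).length with hle | hlt
    · rw [← hxb, ← hx, ← pre_take x hle]
      exact List.take_prefix _ _
    · exfalso
      have h1 : pre (Function.update x (dl a).length (x (dl a).length + 1)) (dl a).length = dl a := by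
        rw [← hx]
        rw [pre_length]
        refine pre_congr fun i hi => ?_
        rw [Function.update_of_ne hi.ne]
      have h2 : pre (Function.update x (dl a).length (x (dl a).length + 1)) (dl b).length = dl b :=
        h (mem_cyl_iff.2 h1)
      have h3 := eq_of_pre (h2.trans hxb.symm) _ hlt
      rw [Function.update_self] at h3
      omega
  · rintro ⟨t, ht⟩ g hg
    rw [mem_cyl_iff] at hg ⊢
    have hle : (dl b).length ≤ (dl a).length := by
      rw [← ht, List.length_append]
      omega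
    rw [← pre_take g hle, hg, ← ht, List.take_left]

private theorem A2_basis {U : Set (ℕ → ℕ)} (hU : IsOpen U) {g : ℕ → ℕ} (hg : g ∈ U) :
    ∃ q, g ∈ cyl q ∧ cyl q ⊆ U := by
  obtain ⟨I, u, hu, hsub⟩ := isOpen_pi_iff.1 hU g hg
  refine ⟨encode (pre g (I.sup id + 1)), ?_, ?_⟩
  · rw [mem_cyl_iff, dl_encode, pre_length]
  · intro f hf
    rw [mem_cyl_iff, dl_encode, pre_length] at hf
    have h1 := eq_of_pre hf
    refine hsub fun i hi => ?_
    have h2 : i ≤ I.sup id := Finset.le_sup (f := id) hi
    rw [h1 i (by omega)]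
    exact (hu i hi).2

theorem surj_comeagre : IsMeagre {g : ℕ → ℕ | ¬ Function.Surjective g} := by
  have h1 : {g : ℕ → ℕ | ¬ Function.Surjective g} = ⋃ b : ℕ, {g : ℕ → ℕ | ∀ a, g a ≠ b} := by
    ext g
    simp only [Function.Surjective, Set.mem_iUnion]
    change ¬ (∀ b, ∃ a, g a = b) ↔ ∃ b, ∀ a, g a ≠ b
    push Not
    exact Iff.rfl
  rw [h1]
  refine isMeagre_iUnion fun b => ?_
  refine IsNowhereDense.isMeagre ?_
  have hcl : IsClosed {g : ℕ → ℕ | ∀ a, g a ≠ b} := by
    have h2 : {g : ℕ → ℕ | ∀ a, g a ≠ b} = ⋂ a : ℕ, {g : ℕ → ℕ | g a ≠ b} := by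
      ext g
      simp only [Set.mem_iInter]
      exact Iff.rfl
    rw [h2]
    refine isClosed_iInter fun a => ?_
    have h3 : Continuous (fun g : ℕ → ℕ => g a) := continuous_apply a
    exact (isClosed_discrete ({b}ᶜ : Set ℕ)).preimage h3
  rw [hcl.isNowhereDense_iff, Set.eq_empty_iff_forall_notMem]
  intro g hg
  obtain ⟨q, hq, hsub⟩ := A2_basis isOpen_interior hg
  have h3 : Function.update g (dl q).length b ∈ cyl q := by
    rw [mem_cyl_iff] at hq ⊢
    refine (pre_congr fun i hi => ?_).trans hq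
    rw [Function.update_of_ne hi.ne]
  have h4 := interior_subset (hsub h3)
  have h5 : Function.update g (dl q).length b (dl q).length ≠ b := h4 (dl q).length
  rw [Function.update_self] at h5
  exact h5 rfl

theorem univ_not_meagre : ¬ IsMeagre (Set.univ : Set (ℕ → ℕ)) :=
  not_isMeagre_of_isOpen isOpen_univ Set.univ_nonempty

theorem cyl_not_meagre (q : ℕ) : ¬ IsMeagre (cyl q) :=
  not_isMeagre_of_isOpen (cyl_isOpen q) (cyl_nonempty q)

theorem exists_nonmeagre {N : Set (ℕ → ℕ)} (hN : ¬ IsMeagre N) {D : ℕ → Set (ℕ → ℕ)}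
    (h : IsMeagre (N \ ⋃ i, D i)) : ∃ i, ¬ IsMeagre (N ∩ D i) := by
  by_contra hcon
  push Not at hcon
  apply hN
  refine (h.union (isMeagre_iUnion hcon)).mono fun g hg => ?_
  by_cases hgD : g ∈ ⋃ i, D i
  · right
    rw [Set.mem_iUnion] at hgD ⊢
    obtain ⟨i, hi⟩ := hgD
    exact ⟨i, hg, hi⟩
  · left
    exact ⟨hg, hgD⟩

private def A2_homeo (h : Equiv.Perm ℕ) : (ℕ → ℕ) ≃ₜ (ℕ → ℕ) where
  toFun g := (h : ℕ → ℕ) ∘ g
  invFun g := (h.symm : ℕ → ℕ) ∘ g
  left_inv g := by
    funext i
    exact h.symm_apply_apply (g i)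
  right_inv g := by
    funext i
    exact h.apply_symm_apply (g i)
  continuous_toFun := continuous_pi fun i =>
    (continuous_of_discreteTopology : Continuous (h : ℕ → ℕ)).comp (continuous_apply i)
  continuous_invFun := continuous_pi fun i =>
    (continuous_of_discreteTopology : Continuous (h.symm : ℕ → ℕ)).comp (continuous_apply i)

theorem meagre_comp (h : Equiv.Perm ℕ) {N : Set (ℕ → ℕ)} (hN : IsMeagre N) :
    IsMeagre {g : ℕ → ℕ | (h : ℕ → ℕ) ∘ g ∈ N} :=
  hN.preimage_of_isOpenMap (A2_homeo h).continuous (A2_homeo h).isOpenMap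

theorem meagre_comp_iff (h : Equiv.Perm ℕ) {N : Set (ℕ → ℕ)} :
    IsMeagre {g : ℕ → ℕ | (h : ℕ → ℕ) ∘ g ∈ N} ↔ IsMeagre N := by
  refine ⟨fun hm => ?_, meagre_comp h⟩
  have h1 := meagre_comp h.symm hm
  have h2 : {g : ℕ → ℕ | (h.symm : ℕ → ℕ) ∘ g ∈ {g : ℕ → ℕ | (h : ℕ → ℕ) ∘ g ∈ N}} = N := by
    ext g
    have h3 : (h : ℕ → ℕ) ∘ (h.symm : ℕ → ℕ) ∘ g = g := by
      funext i
      exact h.apply_symm_apply (g i)
    change (h : ℕ → ℕ) ∘ (h.symm : ℕ → ℕ) ∘ g ∈ N ↔ g ∈ N
    rw [h3]
  rw [h2] at h1
  exact h1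

end BW
end

section

/-!
# BW.Cat : category quantifiers preserve `Σ¹₁` (helper63's block)

PROOF.  Let `R` be the tree normal form of `P`.  A position is a pair of lists `(s, t)`; it is good if
`t` is not longer than `s` and `R` holds of `t` and of the join of `x` with `s`.  `P'` says that there is a set `Z`
of good positions which contains `(dl q, [])` and such that for every `(s, t)` in `Z` and every extension `s'` of
`s` there are an extension `s''` of `s'` and a value `v` with `(s'', t ++ [v])` in `Z`.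
* If `P'`, then all `g` in the cylinder outside of countably many nowhere dense sets have a branch through `Z`.
* If `P` is not meagre in the cylinder, then it is everywhere nonmeagre below some `q'`, and the set of
  all `(s, t)` such that the set of the `g` with a witness extending `t` is everywhere nonmeagre below `s` is
  such a set `Z`.
-/

namespace BW

open Encodable

/-- the join of two lists -/
private def Cat_zp (l s : List ℕ) : List ℕ :=
  (List.range l.length).map fun i => Nat.pair (l.getD i 0) (s.getD i 0)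

private theorem Cat_getD_pre (x : ℕ → ℕ) {k i : ℕ} (h : i < k) : (pre x k).getD i 0 = x i := by
  rw [List.getD_eq_getElem?_getD, pre_getElem? x h]
  rfl

private theorem Cat_zp_eq {x g : ℕ → ℕ} {s : List ℕ} {k : ℕ} (hg : pre g s.length = s)
    (hk : k ≤ s.length) : Cat_zp (pre x k) s = pre (jn x g) k := by
  unfold Cat_zp
  rw [pre_length]
  show _ = (List.range k).map (jn x g)
  refine List.map_congr_left fun i hi => ?_
  have hi' : i < k := List.mem_range.1 hi
  rw [Cat_getD_pre x hi']
  have h2 : s.getD i 0 = g i := by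
    conv_lhs => rw [← hg]
    exact Cat_getD_pre g (lt_of_lt_of_le hi' hk)
  rw [h2]
  rfl

private theorem Cat_zp_primrec : Primrec₂ Cat_zp := by
  unfold Cat_zp
  refine Primrec.list_map (Primrec.list_range.comp (Primrec.list_length.comp Primrec.fst)) ?_
  refine Primrec₂.natPair.comp₂ ?_ ?_
  · exact (Primrec.list_getD 0).comp₂ (Primrec.fst.comp Primrec.fst).to₂ Primrec.snd.to₂
  · exact (Primrec.list_getD 0).comp₂ (Primrec.snd.comp Primrec.fst).to₂ Primrec.snd.to₂

/-- good positions -/
private def Cat_ok (R : ℕ → List ℕ → List ℕ → Bool) (n : ℕ) (x : ℕ → ℕ) (a : ℕ) : Prop :=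
  (dl (Nat.unpair a).2).length ≤ (dl (Nat.unpair a).1).length ∧
    R n (Cat_zp (pre x (dl (Nat.unpair a).2).length) (dl (Nat.unpair a).1)) (dl (Nat.unpair a).2) = true

/-- closed sets of positions -/
private def Cat_cl (R : ℕ → List ℕ → List ℕ → Bool) (n : ℕ) (x : ℕ → ℕ) (Z : ℕ → ℕ) : Prop :=
  ∀ a, Z a = 1 → Cat_ok R n x a ∧ ∀ r, ∃ r', ∃ v,
    Z (Nat.pair (encode (dl (Nat.unpair a).1 ++ (dl r ++ dl r'))) (encode (dl (Nat.unpair a).2 ++ [v]))) = 1

private def Cat_P (R : ℕ → List ℕ → List ℕ → Bool) (m : ℕ) (x : ℕ → ℕ) : Prop :=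
  ∃ Z : ℕ → ℕ, Cat_cl R (Nat.unpair m).1 x Z ∧
    Z (Nat.pair (Nat.unpair m).2 (encode ([] : List ℕ))) = 1

private theorem Cat_ok_rec {R : ℕ → List ℕ → List ℕ → Bool}
    (hR : Primrec (fun p : ℕ × List ℕ × List ℕ => R p.1 p.2.1 p.2.2)) :
    RecP (fun N x => Cat_ok R (Nat.unpair (Nat.unpair N).1).1 x (Nat.unpair N).2) := by
  have hs : Primrec fun z : ℕ => dl (Nat.unpair (Nat.unpair (Nat.unpair z).1).2).1 :=
    primrec_dl.comp (Primrec.fst.comp (Primrec.unpair.comp (Primrec.snd.comp
      (Primrec.unpair.comp (Primrec.fst.comp Primrec.unpair)))))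
  have ht : Primrec fun z : ℕ => dl (Nat.unpair (Nat.unpair (Nat.unpair z).1).2).2 :=
    primrec_dl.comp (Primrec.snd.comp (Primrec.unpair.comp (Primrec.snd.comp
      (Primrec.unpair.comp (Primrec.fst.comp Primrec.unpair)))))
  have hn : Primrec fun z : ℕ => (Nat.unpair (Nat.unpair (Nat.unpair z).1).1).1 :=
    Primrec.fst.comp (Primrec.unpair.comp (Primrec.fst.comp
      (Primrec.unpair.comp (Primrec.fst.comp Primrec.unpair))))
  have hl : Primrec fun z : ℕ => dl (Nat.unpair z).2 := primrec_dl.comp (Primrec.snd.comp Primrec.unpair)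
  have hf : Primrec fun z : ℕ =>
      (decide ((dl (Nat.unpair (Nat.unpair (Nat.unpair z).1).2).2).length ≤
        (dl (Nat.unpair (Nat.unpair (Nat.unpair z).1).2).1).length) &&
      R (Nat.unpair (Nat.unpair (Nat.unpair z).1).1).1
        (Cat_zp (dl (Nat.unpair z).2) (dl (Nat.unpair (Nat.unpair (Nat.unpair z).1).2).1))
        (dl (Nat.unpair (Nat.unpair (Nat.unpair z).1).2).2)) := by
    refine Primrec.and.comp ?_ ?_
    · exact (Primrec.nat_le.comp (Primrec.list_length.comp ht) (Primrec.list_length.comp hs)).decide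
    · exact hR.comp (Primrec.pair hn (Primrec.pair (Cat_zp_primrec.comp hl hs) ht))
  have hG : Rec (fun N x => Nat.pair N (encode (pre x (dl (Nat.unpair (Nat.unpair N).2).2).length))) :=
    rec_pair rec_id (rec_pre (rec_of_primrec (Primrec.list_length.comp (primrec_dl.comp
      (Primrec.snd.comp (Primrec.unpair.comp (Primrec.snd.comp Primrec.unpair)))))))
  refine recP_congr (recP_bool hf hG) fun N x => ?_
  simp only [Nat.unpair_pair, dl_encode, Bool.and_eq_true, decide_eq_true_eq]
  rfl

private theorem Cat_s11 {R : ℕ → List ℕ → List ℕ → Bool}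
    (hR : Primrec (fun p : ℕ × List ℕ × List ℕ => R p.1 p.2.1 p.2.2)) : S11 (Cat_P R) := by
  have hZ : ∀ {G : ℕ → (ℕ → ℕ) → ℕ}, Rec G → RecP (fun N u => p2 u (G N u) = 1) := fun hG =>
    recP_eq (recR_app (recR_p2 recR_id) hG) (rec_const 1)
  -- the innermost predicate
  have hF : Primrec fun N : ℕ =>
      Nat.pair (encode (dl (Nat.unpair (Nat.unpair (Nat.unpair (Nat.unpair (Nat.unpair N).1).1).1).2).1 ++
        (dl (Nat.unpair (Nat.unpair (Nat.unpair N).1).1).2 ++ dl (Nat.unpair (Nat.unpair N).1).2)))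
      (encode (dl (Nat.unpair (Nat.unpair (Nat.unpair (Nat.unpair (Nat.unpair N).1).1).1).2).2 ++
        [(Nat.unpair N).2])) := by
    have h1 : Primrec fun N : ℕ => (Nat.unpair N).1 := Primrec.fst.comp Primrec.unpair
    have h2 : Primrec fun N : ℕ => (Nat.unpair N).2 := Primrec.snd.comp Primrec.unpair
    have ha : Primrec fun N : ℕ =>
        (Nat.unpair (Nat.unpair (Nat.unpair (Nat.unpair N).1).1).1).2 :=
      h2.comp (h1.comp (h1.comp h1))
    refine Primrec₂.natPair.comp (Primrec.encode.comp (Primrec.list_append.comp (primrec_dl.comp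
      (h1.comp ha)) (Primrec.list_append.comp (primrec_dl.comp (h2.comp (h1.comp h1)))
        (primrec_dl.comp (h2.comp h1))))) (Primrec.encode.comp (Primrec.list_append.comp
          (primrec_dl.comp (h2.comp ha)) (Primrec.list_cons.comp h2 (Primrec.const []))))
  have m1 := s11_of_rec (hZ (rec_of_primrec hF))
  have m2 := s11_ex (s11_ex m1)
  have m3 := s11_all m2
  have m4 : RecP (fun N u => Cat_ok R (Nat.unpair (Nat.unpair N).1).1 (p1 u) (Nat.unpair N).2) :=
    recP_substR (Cat_ok_rec hR) rec_id (recR_p1 recR_id)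
  have m5 := s11_and (s11_of_rec m4) m3
  have m6 : RecP (fun N u => p2 u (Nat.unpair N).2 = 1) := hZ (rec_snd rec_id)
  have m7 := s11_all (s11_imp m6 m5)
  have m8 : RecP (fun N u => p2 u (Nat.pair (Nat.unpair N).2 (encode ([] : List ℕ))) = 1) :=
    hZ (rec_pair (rec_snd rec_id) (rec_const _))
  have m9 := s11_exR (s11_and m7 (s11_of_rec m8))
  refine s11_congr m9 fun m x => ?_
  simp only [Nat.unpair_pair, p1_jn, p2_jn]
  rfl

/-- basic neighbourhoods -/
private theorem Cat_basis {O : Set (ℕ → ℕ)} (hO : IsOpen O) {g : ℕ → ℕ} (hg : g ∈ O) :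
    ∃ k, cyl (encode (pre g k)) ⊆ O := by
  rw [isOpen_pi_iff] at hO
  obtain ⟨I, u, hu, hI⟩ := hO g hg
  refine ⟨I.sup id + 1, fun g' hg' => hI ?_⟩
  intro i hi
  have hi' : i < I.sup id + 1 := Nat.lt_succ_of_le (Finset.le_sup (f := id) hi)
  rw [mem_cyl_iff, dl_encode, pre_length] at hg'
  have := eq_of_pre hg' i hi'
  rw [this]
  exact (hu i hi).2

private theorem Cat_mem_cyl {g : ℕ → ℕ} {s : List ℕ} : g ∈ cyl (encode s) ↔ pre g s.length = s := by
  rw [mem_cyl_iff, dl_encode]

private theorem Cat_cyl_pre {g : ℕ → ℕ} {k : ℕ} : g ∈ cyl (encode (pre g k)) := by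
  rw [Cat_mem_cyl, pre_length]

private theorem Cat_cyl_append (s r : List ℕ) : cyl (encode (s ++ r)) ⊆ cyl (encode s) := by
  rw [cyl_subset_iff, dl_encode, dl_encode]
  exact List.prefix_append s r

/-- a dense open subset of a cylinder has a meagre complement -/
private theorem Cat_nwd {s : List ℕ} {G : Set (List ℕ)} (h : ∀ r, ∃ r', s ++ (r ++ r') ∈ G) :
    IsMeagre (cyl (encode s) \ ⋃ u ∈ G, cyl (encode u)) := by
  refine IsNowhereDense.isMeagre ?_
  have hU : IsOpen (⋃ u ∈ G, cyl (encode u)) :=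
    isOpen_iUnion fun u => isOpen_iUnion fun _ => cyl_isOpen _
  show interior (closure _) = ∅
  rw [Set.eq_empty_iff_forall_notMem]
  intro g hg
  obtain ⟨O, hO1, hO2, hO3⟩ := mem_interior.1 hg
  -- a point of the set in O
  obtain ⟨g₁, hg₁O, hg₁⟩ := mem_closure_iff.1 (hO1 hO3) O hO2 hO3
  obtain ⟨k, hk⟩ := Cat_basis (hO2.inter (cyl_isOpen (encode s))) (g := g₁) ⟨hg₁O, hg₁.1⟩
  have hpre : s <+: pre g₁ k := by
    have := (cyl_subset_iff (a := encode (pre g₁ k)) (b := encode s)).1
      (hk.trans Set.inter_subset_right)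
    rwa [dl_encode, dl_encode] at this
  obtain ⟨r, hr⟩ := hpre
  obtain ⟨r', hr'⟩ := h r
  obtain ⟨g₂, hg₂⟩ := cyl_nonempty (encode (s ++ (r ++ r')))
  have hg₂' : g₂ ∈ cyl (encode (pre g₁ k)) := by
    rw [← hr]
    rw [← List.append_assoc] at hg₂
    exact Cat_cyl_append _ _ hg₂
  have hg₂O : g₂ ∈ O := (hk hg₂').1
  obtain ⟨g₃, hg₃, hg₃'⟩ := mem_closure_iff.1 (hO1 hg₂O) (cyl (encode (s ++ (r ++ r'))))
    (cyl_isOpen _) hg₂
  exact hg₃'.2 (Set.mem_biUnion hr' hg₃)

/-- localisation of nonmeagre sets -/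
private theorem Cat_local {s : List ℕ} {A : Set (ℕ → ℕ)} (h : ¬ IsMeagre (cyl (encode s) ∩ A)) :
    ∃ r : List ℕ, ∀ r' : List ℕ, ¬ IsMeagre (cyl (encode (s ++ (r ++ r'))) ∩ A) := by
  by_contra hc
  push Not at hc
  apply h
  have h1 := Cat_nwd (s := s) (G := {u | IsMeagre (cyl (encode u) ∩ A)}) hc
  have h2 : IsMeagre (⋃ u : List ℕ, ⋃ _ : IsMeagre (cyl (encode u) ∩ A), cyl (encode u) ∩ A) :=
    isMeagre_iUnion fun u => isMeagre_iUnion fun hu => hu
  refine (h1.union h2).mono ?_
  rintro g ⟨hg1, hg2⟩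
  by_cases hU : g ∈ ⋃ u ∈ {u : List ℕ | IsMeagre (cyl (encode u) ∩ A)}, cyl (encode u)
  · right
    simp only [Set.mem_iUnion] at hU ⊢
    obtain ⟨u, hu, hgu⟩ := hU
    exact ⟨u, hu, hgu, hg2⟩
  · left
    exact ⟨hg1, hU⟩

private theorem Cat_comeagre {R : ℕ → List ℕ → List ℕ → Bool} {n q : ℕ} {x : ℕ → ℕ}
    (h : Cat_P R (Nat.pair n q) x) :
    IsMeagre (cyl q \ {g | ∃ w : ℕ → ℕ, ∀ k, R n (pre (jn x g) k) (pre w k) = true}) := by
  obtain ⟨Z, hcl, h0⟩ := h
  rw [Nat.unpair_pair] at hcl h0
  simp only at hcl h0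
  -- the exceptional sets
  let G : ℕ → Set (List ℕ) := fun a => {u | ∃ v,
    Z (Nat.pair (encode u) (encode (dl (Nat.unpair a).2 ++ [v]))) = 1}
  have hG : ∀ a, Z a = 1 → IsMeagre (cyl (Nat.unpair a).1 \ ⋃ u ∈ G a, cyl (encode u)) := by
    intro a ha
    have := Cat_nwd (s := dl (Nat.unpair a).1) (G := G a) (by
      intro r
      obtain ⟨r', v, hv⟩ := (hcl a ha).2 (encode r)
      refine ⟨dl r', v, ?_⟩
      rwa [dl_encode] at hv)
    rwa [encode_dl] at this
  have hall : IsMeagre (⋃ a, ⋃ _ : Z a = 1, (cyl (Nat.unpair a).1 \ ⋃ u ∈ G a, cyl (encode u))) :=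
    isMeagre_iUnion fun a => isMeagre_iUnion fun ha => hG a ha
  refine hall.mono ?_
  rintro g ⟨hgq, hgP⟩
  by_contra hg
  apply hgP
  simp only [Set.mem_iUnion, not_exists] at hg
  have step : ∀ a : {a : ℕ // Z a = 1 ∧ g ∈ cyl (Nat.unpair a).1},
      ∃ b : {a : ℕ // Z a = 1 ∧ g ∈ cyl (Nat.unpair a).1}, ∃ v,
        dl (Nat.unpair b.1).2 = dl (Nat.unpair a.1).2 ++ [v] := by
    rintro ⟨a, ha, hga⟩
    have h1 := hg a ha
    rw [Set.mem_sdiff, not_and, not_not] at h1
    have h2 := h1 hga
    simp only [Set.mem_iUnion] at h2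
    obtain ⟨u, ⟨v, hv⟩, hgu⟩ := h2
    refine ⟨⟨Nat.pair (encode u) (encode (dl (Nat.unpair a).2 ++ [v])), hv, ?_⟩, v, ?_⟩
    · rw [Nat.unpair_pair]
      exact hgu
    · simp only [Nat.unpair_pair, dl_encode]
  choose nx v hv using step
  let f : ℕ → {a : ℕ // Z a = 1 ∧ g ∈ cyl (Nat.unpair a).1} := fun i =>
    Nat.rec ⟨Nat.pair q (encode ([] : List ℕ)), h0, by rw [Nat.unpair_pair]; exact hgq⟩
      (fun _ a => nx a) i
  have hf0 : (f 0).1 = Nat.pair q (encode ([] : List ℕ)) := rfl
  have hfs : ∀ i, f (i + 1) = nx (f i) := fun i => rfl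
  refine ⟨fun i => v (f i), ?_⟩
  have hw : ∀ i, pre (fun i => v (f i)) i = dl (Nat.unpair (f i).1).2 := by
    intro i
    induction i with
    | zero =>
      rw [hf0, Nat.unpair_pair]
      simp only [dl_encode]
      rfl
    | succ i ih => rw [pre_succ, ih, hfs, hv]
  intro k
  have h3 := (hcl (f k).1 (f k).2.1).1
  unfold Cat_ok at h3
  rw [← hw k, pre_length] at h3
  have h4 := (f k).2.2
  rw [mem_cyl_iff] at h4
  rw [Cat_zp_eq h4 h3.1] at h3
  exact h3.2

private theorem Cat_nonmeagre {R : ℕ → List ℕ → List ℕ → Bool} {n q : ℕ} {x : ℕ → ℕ}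
    (h : ¬ IsMeagre (cyl q ∩ {g | ∃ w : ℕ → ℕ, ∀ k, R n (pre (jn x g) k) (pre w k) = true})) :
    ∃ q', cyl q' ⊆ cyl q ∧ Cat_P R (Nat.pair n q') x := by
  classical
  let B : List ℕ → Set (ℕ → ℕ) := fun t =>
    {g | ∃ w : ℕ → ℕ, pre w t.length = t ∧ ∀ k, R n (pre (jn x g) k) (pre w k) = true}
  have hB0 : {g | ∃ w : ℕ → ℕ, ∀ k, R n (pre (jn x g) k) (pre w k) = true} = B [] := by
    ext g
    constructor
    · rintro ⟨w, hw⟩
      exact ⟨w, rfl, hw⟩
    · rintro ⟨w, _, hw⟩
      exact ⟨w, hw⟩
  rw [hB0, ← encode_dl q] at h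
  obtain ⟨r₀, hr₀⟩ := Cat_local h
  refine ⟨encode (dl q ++ r₀), ?_, ?_⟩
  · have := Cat_cyl_append (dl q) r₀
    rwa [encode_dl] at this
  let Z : ℕ → ℕ := fun a => if (dl (Nat.unpair a).2).length ≤ (dl (Nat.unpair a).1).length ∧
    ∀ r : List ℕ, ¬ IsMeagre (cyl (encode (dl (Nat.unpair a).1 ++ r)) ∩ B (dl (Nat.unpair a).2))
    then 1 else 0
  have hZ : ∀ a, Z a = 1 ↔ ((dl (Nat.unpair a).2).length ≤ (dl (Nat.unpair a).1).length ∧
    ∀ r : List ℕ, ¬ IsMeagre (cyl (encode (dl (Nat.unpair a).1 ++ r)) ∩ B (dl (Nat.unpair a).2))) := by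
    intro a
    by_cases ha : (dl (Nat.unpair a).2).length ≤ (dl (Nat.unpair a).1).length ∧
      ∀ r : List ℕ, ¬ IsMeagre (cyl (encode (dl (Nat.unpair a).1 ++ r)) ∩ B (dl (Nat.unpair a).2))
    · simp only [Z, if_pos ha, true_iff]
      exact ha
    · simp only [Z, if_neg ha]
      constructor
      · intro h0
        exact absurd h0 (by norm_num)
      · intro h0
        exact absurd h0 ha
  refine ⟨Z, ?_, ?_⟩
  · intro a ha
    rw [hZ] at ha
    obtain ⟨hlen, hnm⟩ := ha
    rw [Nat.unpair_pair]
    refine ⟨⟨hlen, ?_⟩, ?_⟩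
    · have h1 := hnm []
      rw [List.append_nil] at h1
      have h2 : (cyl (encode (dl (Nat.unpair a).1)) ∩ B (dl (Nat.unpair a).2)).Nonempty := by
        rw [Set.nonempty_iff_ne_empty]
        intro h3
        rw [h3] at h1
        exact h1 IsMeagre.empty
      obtain ⟨g, hg1, w, hw1, hw2⟩ := h2
      rw [Cat_mem_cyl] at hg1
      have h3 := hw2 (dl (Nat.unpair a).2).length
      rw [hw1] at h3
      simp only
      rw [Cat_zp_eq hg1 hlen]
      exact h3
    · intro r
      have h1 := hnm (dl r)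
      -- a value v
      have h2 : ∃ v, ¬ IsMeagre (cyl (encode (dl (Nat.unpair a).1 ++ dl r)) ∩
          B (dl (Nat.unpair a).2 ++ [v])) := by
        by_contra hc
        push Not at hc
        apply h1
        refine (isMeagre_iUnion hc).mono ?_
        rintro g ⟨hg1, w, hw1, hw2⟩
        rw [Set.mem_iUnion]
        refine ⟨w (dl (Nat.unpair a).2).length, hg1, w, ?_, hw2⟩
        rw [List.length_append, List.length_singleton, pre_succ, hw1]
      obtain ⟨v, hv⟩ := h2
      obtain ⟨r₁, hr₁⟩ := Cat_local hv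
      refine ⟨encode (r₁ ++ List.replicate ((dl (Nat.unpair a).2).length + 1) 0), v, ?_⟩
      rw [hZ]
      simp only [Nat.unpair_pair, dl_encode]
      refine ⟨?_, ?_⟩
      · simp only [List.length_append, List.length_singleton, List.length_replicate]
        omega
      · intro r'
        have h3 := hr₁ (List.replicate ((dl (Nat.unpair a).2).length + 1) 0 ++ r')
        have h4 : dl (Nat.unpair a).1 ++ (dl r ++ (r₁ ++
            List.replicate ((dl (Nat.unpair a).2).length + 1) 0)) ++ r' =
            dl (Nat.unpair a).1 ++ dl r ++ (r₁ ++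
              (List.replicate ((dl (Nat.unpair a).2).length + 1) 0 ++ r')) := by
          simp only [List.append_assoc]
        rw [h4]
        exact h3
  · rw [hZ]
    simp only [Nat.unpair_pair, dl_encode]
    refine ⟨Nat.zero_le _, fun r => ?_⟩
    rw [List.append_assoc]
    exact hr₀ r

theorem category {P : ℕ → (ℕ → ℕ) → Prop} (hP : S11 P) :
    ∃ P' : ℕ → (ℕ → ℕ) → Prop, S11 P' ∧
      (∀ n q x, P' (Nat.pair n q) x → IsMeagre (cyl q \ {g | P n (jn x g)})) ∧
      (∀ n q x, ¬ IsMeagre (cyl q ∩ {g | P n (jn x g)}) →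
        ∃ q', cyl q' ⊆ cyl q ∧ P' (Nat.pair n q') x) := by
  obtain ⟨R, hR, _, hPR⟩ := s11_tree hP
  have hset : ∀ n x, {g | P n (jn x g)} =
      {g | ∃ w : ℕ → ℕ, ∀ k, R n (pre (jn x g) k) (pre w k) = true} := by
    intro n x
    ext g
    exact hPR n (jn x g)
  refine ⟨Cat_P R, Cat_s11 hR, ?_, ?_⟩
  · intro n q x h
    rw [hset]
    exact Cat_comeagre h
  · intro n q x h
    rw [hset] at h
    exact Cat_nonmeagre h

end BW
end

section

/-!
# BW.M4 : nodes of codes of formulas

PROOFS.
* `hasCode_st` : by cases on the formula (definition of `st`, `Fml.ch`, `HasCode`).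
* `hasCode_nd` : induction on `σ` from the right (`List.foldl_append`), or generalise `c` and `φ`.
* the lists `asg`, `upd`, `rn`: `List.getD` of `List.map` on `List.range`.
* `recR_nd` : `nd c σ k` is computed from `c`: it is `c (address)`, where the address is determined
  by recursion: let `norm c σ` be the list defined by `norm c [] = []`, `norm c (σ ++ [n]) =`
  `norm c σ ++ [n]` if the tag `c (addr (norm c σ) 0)` is `3`, `norm c σ` if it is `≤ 1`, and
  `norm c σ ++ [0]` otherwise, with `addr [] k = k`, `addr (n :: τ) k = pair n (addr τ k) + 3`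
  (primitive recursive), so that `nd c σ k = c (addr (norm c σ) k)`.  The functional
  `(σ, c) ↦ encode (norm c σ)` is obtained by `rec_prec` on the length of `σ`.
* `rec_pt`, `rec_upd`, `rec_rn`, `rec_asg` : `rec_comp₂`, `rec_comp` with primitive recursive functions
  on codes of lists.
-/

namespace BW

open Encodable

variable {F : ℕ → (ℕ → ℕ) → ℕ → ℕ} {G H K : ℕ → (ℕ → ℕ) → ℕ}

theorem nd_nil (c : ℕ → ℕ) : nd c [] = c := rfl

theorem nd_append (c : ℕ → ℕ) (σ : List ℕ) (n : ℕ) : nd c (σ ++ [n]) = st (nd c σ) n := by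
  unfold nd
  rw [List.foldl_append, List.foldl_cons, List.foldl_nil]

theorem at_append (φ : Fml) (σ : List ℕ) (n : ℕ) : φ.at (σ ++ [n]) = (φ.at σ).ch n := by
  unfold Fml.at
  rw [List.foldl_append, List.foldl_cons, List.foldl_nil]

theorem at_at (φ : Fml) (σ τ : List ℕ) : φ.at (σ ++ τ) = (φ.at σ).at τ := by
  unfold Fml.at
  rw [List.foldl_append]

theorem hasCode_st {φ : Fml} {c : ℕ → ℕ} (h : HasCode φ c) (n : ℕ) : HasCode (φ.ch n) (st c n) := by
  cases φ with
  | eq i j =>
    have h0 : c 0 = 0 := h.1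
    have e : st c n = c := by
      unfold st
      rw [if_neg (by omega), if_pos (by omega)]
    rw [e]
    exact h
  | rel k l =>
    have h0 : c 0 = 1 := h.1
    have e : st c n = c := by
      unfold st
      rw [if_neg (by omega), if_pos (by omega)]
    rw [e]
    exact h
  | neg φ =>
    have h0 : c 0 = 2 := h.1
    have e : st c n = sub c 0 := by
      unfold st
      rw [if_neg (by omega), if_neg (by omega)]
    rw [e]
    exact h.2
  | conj φ =>
    have h0 : c 0 = 3 := h.1
    have e : st c n = sub c n := by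
      unfold st
      rw [if_pos h0]
    rw [e]
    exact h.2 n
  | all i φ =>
    have h0 : c 0 = 4 := h.1
    have e : st c n = sub c 0 := by
      unfold st
      rw [if_neg (by omega), if_neg (by omega)]
    rw [e]
    exact h.2.2
  | ren l φ =>
    have h0 : c 0 = 5 := h.1
    have e : st c n = sub c 0 := by
      unfold st
      rw [if_neg (by omega), if_neg (by omega)]
    rw [e]
    exact h.2.2

theorem hasCode_nd {φ : Fml} {c : ℕ → ℕ} (h : HasCode φ c) (σ : List ℕ) :
    HasCode (φ.at σ) (nd c σ) := by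
  induction σ generalizing φ c with
  | nil => exact h
  | cons a σ ih => exact ih (hasCode_st h a)

theorem hasCode_unique {φ ψ : Fml} {c : ℕ → ℕ} (h : HasCode φ c) (h' : HasCode ψ c) : φ = ψ := by
  induction φ generalizing ψ c with
  | eq i j =>
    obtain ⟨h0, h1, h2⟩ := h
    cases ψ with
    | eq i' j' =>
      obtain ⟨-, h1', h2'⟩ := h'
      rw [← h1, ← h2, ← h1', ← h2']
    | rel k l => have h0' : c 0 = 1 := h'.1; omega
    | neg ψ => have h0' : c 0 = 2 := h'.1; omega
    | conj ψ => have h0' : c 0 = 3 := h'.1; omega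
    | all i ψ => have h0' : c 0 = 4 := h'.1; omega
    | ren l ψ => have h0' : c 0 = 5 := h'.1; omega
  | rel k l =>
    obtain ⟨h0, h1, h2⟩ := h
    cases ψ with
    | rel k' l' =>
      obtain ⟨-, h1', h2'⟩ := h'
      have e : l = l' := Encodable.encode_injective (h2.symm.trans h2')
      rw [← h1, ← h1', e]
    | eq i j => have h0' : c 0 = 0 := h'.1; omega
    | neg ψ => have h0' : c 0 = 2 := h'.1; omega
    | conj ψ => have h0' : c 0 = 3 := h'.1; omega
    | all i ψ => have h0' : c 0 = 4 := h'.1; omega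
    | ren l ψ => have h0' : c 0 = 5 := h'.1; omega
  | neg φ ih =>
    obtain ⟨h0, h1⟩ := h
    cases ψ with
    | neg ψ => rw [ih h1 h'.2]
    | eq i j => have h0' : c 0 = 0 := h'.1; omega
    | rel k l => have h0' : c 0 = 1 := h'.1; omega
    | conj ψ => have h0' : c 0 = 3 := h'.1; omega
    | all i ψ => have h0' : c 0 = 4 := h'.1; omega
    | ren l ψ => have h0' : c 0 = 5 := h'.1; omega
  | conj φ ih =>
    obtain ⟨h0, h1⟩ := h
    cases ψ with
    | conj ψ =>
      have h1' := h'.2
      congr 1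
      funext n
      exact ih n (h1 n) (h1' n)
    | eq i j => have h0' : c 0 = 0 := h'.1; omega
    | rel k l => have h0' : c 0 = 1 := h'.1; omega
    | neg ψ => have h0' : c 0 = 2 := h'.1; omega
    | all i ψ => have h0' : c 0 = 4 := h'.1; omega
    | ren l ψ => have h0' : c 0 = 5 := h'.1; omega
  | all i φ ih =>
    obtain ⟨h0, h1, h2⟩ := h
    cases ψ with
    | all i' ψ =>
      obtain ⟨-, h1', h2'⟩ := h'
      rw [ih h2 h2', ← h1, ← h1']
    | eq i j => have h0' : c 0 = 0 := h'.1; omega
    | rel k l => have h0' : c 0 = 1 := h'.1; omega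
    | neg ψ => have h0' : c 0 = 2 := h'.1; omega
    | conj ψ => have h0' : c 0 = 3 := h'.1; omega
    | ren l ψ => have h0' : c 0 = 5 := h'.1; omega
  | ren l φ ih =>
    obtain ⟨h0, h1, h2⟩ := h
    cases ψ with
    | ren l' ψ =>
      obtain ⟨-, h1', h2'⟩ := h'
      have e : l = l' := Encodable.encode_injective (h1.symm.trans h1')
      rw [ih h2 h2', e]
    | eq i j => have h0' : c 0 = 0 := h'.1; omega
    | rel k l => have h0' : c 0 = 1 := h'.1; omega
    | neg ψ => have h0' : c 0 = 2 := h'.1; omega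
    | conj ψ => have h0' : c 0 = 3 := h'.1; omega
    | all i ψ => have h0' : c 0 = 4 := h'.1; omega

private theorem M4_asg_map (N : ℕ) (f : ℕ → ℕ) (j : ℕ) :
    asg ((List.range N).map f) j = if j < N then f j else 0 := by
  unfold asg
  rw [List.getD_eq_getElem?_getD, List.getElem?_map]
  split_ifs with h
  · rw [List.getElem?_range h]
    rfl
  · rw [List.getElem?_eq_none (by rw [List.length_range]; omega)]
    rfl

private theorem M4_asg_ge {m : List ℕ} {j : ℕ} (h : m.length ≤ j) : asg m j = 0 := by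
  unfold asg
  rw [List.getD_eq_getElem?_getD, List.getElem?_eq_none h]
  rfl

theorem asg_upd (m : List ℕ) (i a : ℕ) : asg (upd m i a) = Function.update (asg m) i a := by
  funext j
  unfold upd
  rw [M4_asg_map, Function.update_apply]
  by_cases h : j = i
  · rw [if_pos h, if_pos (by omega)]
  · rw [if_neg h]
    split_ifs with h1
    · rfl
    · rw [M4_asg_ge (by omega)]

theorem asg_rn (m l : List ℕ) (i : ℕ) : asg (rn m l) i = asg m (l.getD i i) := by
  unfold rn
  rw [M4_asg_map]
  split_ifs with h1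
  · rfl
  · rw [List.getD_eq_getElem?_getD, List.getElem?_eq_none (by omega)]
    rw [Option.getD_none, M4_asg_ge (by omega)]

theorem pt_inj {σ τ m l : List ℕ} : pt σ m = pt τ l ↔ σ = τ ∧ m = l := by
  unfold pt
  rw [Nat.pair_eq_pair, Encodable.encode_inj, Encodable.encode_inj]

theorem exists_pt (n : ℕ) : ∃ σ m, n = pt σ m := by
  refine ⟨dl (Nat.unpair n).1, dl (Nat.unpair n).2, ?_⟩
  unfold pt
  rw [encode_dl, encode_dl, Nat.pair_unpair]

theorem recR_st (hF : RecR F) (hG : Rec G) : RecR (fun n x => st (F n x) (G n x)) := by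
  have h1 : Rec (fun n _ => (Nat.unpair n).1) := rec_fst rec_id
  have h2 : Rec (fun n _ => (Nat.unpair n).2) := rec_snd rec_id
  have hF' : RecR (fun n x => F (Nat.unpair n).1 x) := recR_subst hF h1 recR_id
  have hG' : Rec (fun n x => G (Nat.unpair n).1 x) := rec_subst hG h1
  have h3 : Rec (fun n x => F (Nat.unpair n).1 x 0) := recR_app hF' (rec_const 0)
  have h4 : Rec (fun n x => F (Nat.unpair n).1 x (Nat.unpair n).2) := recR_app hF' h2
  have h5 : Rec (fun n x => F (Nat.unpair n).1 x (Nat.pair (G (Nat.unpair n).1 x) (Nat.unpair n).2 + 3)) :=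
    recR_app hF' (rec_comp (f := fun a => a + 3) (Primrec.nat_add.comp Primrec.id (Primrec.const 3))
      (rec_pair hG' h2))
  have h6 : Rec (fun n x => F (Nat.unpair n).1 x (Nat.pair 0 (Nat.unpair n).2 + 3)) :=
    recR_app hF' (rec_comp (f := fun a => a + 3) (Primrec.nat_add.comp Primrec.id (Primrec.const 3))
      (rec_pair (rec_const 0) h2))
  have h7 := rec_ite (recP_eq h3 (rec_const 3)) h5 (rec_ite (recP_le h3 (rec_const 1)) h4 h6)
  have e : (fun n x => st (F (Nat.unpair n).1 x) (G (Nat.unpair n).1 x) (Nat.unpair n).2) =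
      fun n x => if F (Nat.unpair n).1 x 0 = 3 then
        F (Nat.unpair n).1 x (Nat.pair (G (Nat.unpair n).1 x) (Nat.unpair n).2 + 3) else
        if F (Nat.unpair n).1 x 0 ≤ 1 then F (Nat.unpair n).1 x (Nat.unpair n).2 else
        F (Nat.unpair n).1 x (Nat.pair 0 (Nat.unpair n).2 + 3) := by
    funext n x
    unfold st
    split_ifs <;> rfl
  change Rec (fun n x => st (F (Nat.unpair n).1 x) (G (Nat.unpair n).1 x) (Nat.unpair n).2)
  rw [e]
  convert h7 using 6

/-- the address of the entry `k` of the code at the node `τ` -/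
private def M4_addr (τ : List ℕ) (k : ℕ) : ℕ := τ.foldr (fun n a => Nat.pair n a + 3) k

private theorem M4_addr_append (τ : List ℕ) (n k : ℕ) :
    M4_addr (τ ++ [n]) k = M4_addr τ (Nat.pair n k + 3) := by
  unfold M4_addr
  rw [List.foldr_append, List.foldr_cons, List.foldr_nil]

private def M4_step (τ : List ℕ) (t : ℕ) (o : Option ℕ) : List ℕ :=
  if t = 3 then τ ++ o.toList else if t ≤ 1 then τ else
    τ ++ (o.map fun _ => 0).toList

private def M4_R (c : ℕ → ℕ) (q : ℕ) : ℕ → ℕ :=
  Nat.rec (encode ([] : List ℕ)) (fun j v =>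
    encode (M4_step (dl v) (c (M4_addr (dl v) 0)) ((dl q)[j]?)))

private theorem M4_R_zero (c : ℕ → ℕ) (q : ℕ) : M4_R c q 0 = encode ([] : List ℕ) := rfl

private theorem M4_R_succ (c : ℕ → ℕ) (q j : ℕ) : M4_R c q (j + 1) =
    encode (M4_step (dl (M4_R c q j)) (c (M4_addr (dl (M4_R c q j)) 0)) ((dl q)[j]?)) := rfl

private theorem M4_R_spec (c : ℕ → ℕ) (q j k : ℕ) :
    nd c ((dl q).take j) k = c (M4_addr (dl (M4_R c q j)) k) := by
  induction j generalizing k with
  | zero =>
    rw [List.take_zero, M4_R_zero, dl_encode]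
    rfl
  | succ j ih =>
    rw [M4_R_succ, dl_encode, List.take_add_one]
    cases hj : (dl q)[j]? with
    | none =>
      rw [Option.toList_none, List.append_nil, ih]
      unfold M4_step
      split_ifs <;> simp
    | some n =>
      rw [Option.toList_some, nd_append]
      unfold st M4_step
      rw [ih]
      split_ifs with h1 h2
      · rw [Option.toList_some, M4_addr_append]
        unfold sub
        rw [ih]
      · rw [ih]
      · rw [Option.map_some, Option.toList_some, M4_addr_append]
        unfold sub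
        rw [ih]

private theorem M4_primrec_addr : Primrec₂ M4_addr := by
  unfold M4_addr
  refine Primrec.list_foldr (f := fun p : List ℕ × ℕ => p.1) (g := fun p => p.2)
    (h := fun _ b => Nat.pair b.1 b.2 + 3) Primrec.fst Primrec.snd ?_
  exact (Primrec.nat_add.comp (Primrec₂.natPair.comp (Primrec.fst.comp Primrec.snd)
    (Primrec.snd.comp Primrec.snd)) (Primrec.const 3)).to₂

private theorem M4_primrec_toList {α : Type} {f : α → Option ℕ} [Primcodable α] (hf : Primrec f) :
    Primrec fun a => (f a).toList := by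
  have h : (fun a => (f a).toList) = fun a => Option.casesOn (f a) [] (fun n => [n]) := by
    funext a
    cases f a <;> rfl
  rw [h]
  exact Primrec.option_casesOn hf (Primrec.const [])
    ((Primrec.list_cons.comp Primrec.snd (Primrec.const [])).to₂)

private theorem M4_primrec_step :
    Primrec fun p : List ℕ × ℕ × Option ℕ => M4_step p.1 p.2.1 p.2.2 := by
  unfold M4_step
  have h1 : Primrec fun p : List ℕ × ℕ × Option ℕ => p.2.1 := Primrec.fst.comp Primrec.snd
  have h2 : Primrec fun p : List ℕ × ℕ × Option ℕ => p.2.2 := Primrec.snd.comp Primrec.snd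
  have h3 : Primrec fun p : List ℕ × ℕ × Option ℕ => p.2.2.map fun _ => 0 :=
    Primrec.option_map h2 ((Primrec.const 0).to₂)
  exact Primrec.ite (Primrec.eq.comp h1 (Primrec.const 3))
    (Primrec.list_append.comp Primrec.fst (M4_primrec_toList h2))
    (Primrec.ite (Primrec.nat_le.comp h1 (Primrec.const 1)) Primrec.fst
      (Primrec.list_append.comp Primrec.fst (M4_primrec_toList h3)))

private theorem M4_rec_R : Rec (fun n c => M4_R c (Nat.unpair n).1 (Nat.unpair n).2) := by
  have hf : Primrec₂ fun m t : ℕ => encode (M4_step (dl (Nat.unpair (Nat.unpair m).2).2) t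
      ((dl (Nat.unpair m).1)[(Nat.unpair (Nat.unpair m).2).1]?)) := by
    have u1 : Primrec fun p : ℕ × ℕ => (Nat.unpair p.1).1 :=
      Primrec.fst.comp (Primrec.unpair.comp Primrec.fst)
    have u2 : Primrec fun p : ℕ × ℕ => Nat.unpair (Nat.unpair p.1).2 :=
      Primrec.unpair.comp (Primrec.snd.comp (Primrec.unpair.comp Primrec.fst))
    have u3 : Primrec fun p : ℕ × ℕ => dl (Nat.unpair (Nat.unpair p.1).2).2 :=
      primrec_dl.comp (Primrec.snd.comp u2)
    have u4 : Primrec fun p : ℕ × ℕ =>
        ((dl (Nat.unpair p.1).1)[(Nat.unpair (Nat.unpair p.1).2).1]? : Option ℕ) :=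
      Primrec.list_getElem?.comp (primrec_dl.comp u1) (Primrec.fst.comp u2)
    exact (Primrec.encode.comp (M4_primrec_step.comp (u3.pair (Primrec.snd.pair u4)))).to₂
  have hg : Primrec fun m : ℕ => M4_addr (dl (Nat.unpair (Nat.unpair m).2).2) 0 :=
    M4_primrec_addr.comp (primrec_dl.comp (Primrec.snd.comp
      (Primrec.unpair.comp (Primrec.snd.comp Primrec.unpair)))) (Primrec.const 0)
  have hB : Rec (fun m c => encode (M4_step (dl (Nat.unpair (Nat.unpair m).2).2)
      (c (M4_addr (dl (Nat.unpair (Nat.unpair m).2).2) 0))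
      ((dl (Nat.unpair m).1)[(Nat.unpair (Nat.unpair m).2).1]?))) :=
    rec_comp₂ hf rec_id (rec_app (rec_of_primrec hg))
  have h := rec_prec (rec_const (encode ([] : List ℕ))) hB
  have e : (fun n c => M4_R c (Nat.unpair n).1 (Nat.unpair n).2) =
      (fun n (x : ℕ → ℕ) => Nat.rec (encode ([] : List ℕ))
        (fun y v => encode (M4_step
          (dl (Nat.unpair (Nat.unpair (Nat.pair (Nat.unpair n).1 (Nat.pair y v))).2).2)
          (x (M4_addr (dl (Nat.unpair (Nat.unpair (Nat.pair (Nat.unpair n).1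
            (Nat.pair y v))).2).2) 0))
          ((dl (Nat.unpair (Nat.pair (Nat.unpair n).1 (Nat.pair y v))).1)[(Nat.unpair
            (Nat.unpair (Nat.pair (Nat.unpair n).1 (Nat.pair y v))).2).1]?)))
        (Nat.unpair n).2) := by
    funext n c
    unfold M4_R
    simp only [Nat.unpair_pair]
  rw [e]
  exact h

private theorem M4_recR_nd : RecR (fun q c => nd c (dl q)) := by
  have h1 : Rec (fun n c => M4_R c (Nat.unpair n).1 (dl (Nat.unpair n).1).length) := by
    have h := rec_subst M4_rec_R (G := fun n _ => Nat.pair (Nat.unpair n).1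
      (dl (Nat.unpair n).1).length) (rec_of_primrec (Primrec₂.natPair.comp
        (Primrec.fst.comp Primrec.unpair) (Primrec.list_length.comp
          (primrec_dl.comp (Primrec.fst.comp Primrec.unpair)))))
    simp only [Nat.unpair_pair] at h
    exact h
  have h2 : Rec (fun n c => M4_addr (dl (M4_R c (Nat.unpair n).1 (dl (Nat.unpair n).1).length))
      (Nat.unpair n).2) :=
    rec_comp₂ (f := fun a b => M4_addr (dl a) b)
      ((M4_primrec_addr.comp (primrec_dl.comp Primrec.fst) Primrec.snd).to₂) h1 (rec_snd rec_id)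
  have h3 := rec_app h2
  have e : (fun n (c : ℕ → ℕ) => nd c (dl (Nat.unpair n).1) (Nat.unpair n).2) =
      fun n c => c (M4_addr (dl (M4_R c (Nat.unpair n).1 (dl (Nat.unpair n).1).length))
        (Nat.unpair n).2) := by
    funext n c
    rw [← M4_R_spec c, List.take_length]
  change Rec (fun n (c : ℕ → ℕ) => nd c (dl (Nat.unpair n).1) (Nat.unpair n).2)
  rw [e]
  exact h3

theorem recR_nd (hF : RecR F) (hG : Rec G) : RecR (fun n x => nd (F n x) (dl (G n x))) :=
  recR_subst M4_recR_nd hG hF

theorem rec_snoc (hG : Rec G) (hH : Rec H) :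
    Rec (fun n x => encode (dl (G n x) ++ [H n x])) :=
  rec_comp₂ (f := fun a b => encode (dl a ++ [b]))
    ((Primrec.encode.comp (Primrec.list_concat.comp (primrec_dl.comp Primrec.fst)
      Primrec.snd)).to₂) hG hH

theorem rec_asg (hG : Rec G) (hH : Rec H) : Rec (fun n x => asg (dl (G n x)) (H n x)) :=
  rec_comp₂ (f := fun a b => asg (dl a) b)
    (((Primrec.list_getD 0).comp (primrec_dl.comp Primrec.fst) Primrec.snd).to₂) hG hH

private theorem M4_primrec_asg : Primrec₂ asg := Primrec.list_getD 0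

private theorem M4_primrec_upd : Primrec fun p : List ℕ × ℕ × ℕ => upd p.1 p.2.1 p.2.2 := by
  unfold upd
  have h1 : Primrec fun p : List ℕ × ℕ × ℕ => p.2.1 := Primrec.fst.comp Primrec.snd
  refine Primrec.list_map (Primrec.list_range.comp (Primrec.nat_max.comp
    (Primrec.list_length.comp Primrec.fst)
    (Primrec.nat_add.comp h1 (Primrec.const 1)))) ?_
  have h2 : Primrec fun q : (List ℕ × ℕ × ℕ) × ℕ => q.2 := Primrec.snd
  exact (Primrec.ite (Primrec.eq.comp h2 (h1.comp Primrec.fst))
    (Primrec.snd.comp (Primrec.snd.comp Primrec.fst))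
    (M4_primrec_asg.comp (Primrec.fst.comp Primrec.fst) h2)).to₂

private theorem M4_primrec_rn : Primrec₂ rn := by
  unfold rn
  have h : Primrec fun p : List ℕ × List ℕ =>
      (List.range (max p.1.length p.2.length)).map fun i => asg p.1 (p.2[i]?.getD i) := by
    refine Primrec.list_map (Primrec.list_range.comp (Primrec.nat_max.comp
      (Primrec.list_length.comp Primrec.fst) (Primrec.list_length.comp Primrec.snd))) ?_
    have h2 : Primrec fun q : (List ℕ × List ℕ) × ℕ => q.2 := Primrec.snd
    exact (M4_primrec_asg.comp (Primrec.fst.comp Primrec.fst) (Primrec.option_getD.comp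
      (Primrec.list_getElem?.comp (Primrec.snd.comp Primrec.fst) h2) h2)).to₂
  refine h.of_eq fun p => ?_
  simp only [List.getD_eq_getElem?_getD]

theorem rec_upd (hG : Rec G) (hH : Rec H) (hK : Rec K) :
    Rec (fun n x => encode (upd (dl (G n x)) (H n x) (K n x))) := by
  have h := rec_comp₂ (f := fun a b => encode (upd (dl a) (Nat.unpair b).1 (Nat.unpair b).2))
    ((Primrec.encode.comp (M4_primrec_upd.comp ((primrec_dl.comp Primrec.fst).pair
      (Primrec.unpair.comp Primrec.snd)))).to₂) hG (rec_pair hH hK)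
  simp only [Nat.unpair_pair] at h
  exact h

theorem rec_rn (hG : Rec G) (hH : Rec H) :
    Rec (fun n x => encode (rn (dl (G n x)) (dl (H n x)))) :=
  rec_comp₂ (f := fun a b => encode (rn (dl a) (dl b)))
    ((Primrec.encode.comp (M4_primrec_rn.comp (primrec_dl.comp Primrec.fst)
      (primrec_dl.comp Primrec.snd))).to₂) hG hH

theorem rec_map_asg (hG : Rec G) (hH : Rec H) :
    Rec (fun n x => encode ((dl (G n x)).map (asg (dl (H n x))))) :=
  rec_comp₂ (f := fun a b => encode ((dl a).map (asg (dl b))))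
    ((Primrec.encode.comp (Primrec.list_map (primrec_dl.comp Primrec.fst)
      ((M4_primrec_asg.comp (primrec_dl.comp (Primrec.snd.comp Primrec.fst))
        Primrec.snd).to₂))).to₂) hG hH

end BW
end

section

/-!
# BW.M5 : the truth lemma

PROOFS.
* `truth` : put `φ.at σ = ψ`; induction on `ψ` for all `σ`, `m`.  `HasCode ψ (nd c σ)` (`hasCode_nd`) gives the
  tag and the data of the node, and `φ.at (σ ++ [n]) = ψ.ch n` (`at_append`).  Quantifier: `h` is
  surjective and `h ∘ asg (upd m i a) = update (h ∘ asg m) i (h a)`.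
* `tru_eval`, `tru_evalAt` : the same computation for the true evaluation.
* `truth_root` : for a sentence the assignment does not matter; here only the node `[]`.
-/

namespace BW

open Encodable

variable {A : Type} {M : Str A} {φ : Fml} {c T : ℕ → ℕ} {h : ℕ → A}

private theorem M5_aux (hc : HasCode φ c) (hT : Eval c T) (hh : Function.Surjective h)
    (hA : EvalAt c T (fun a b => h a = h b) (fun k l => M.rel k (l.map h))) (ψ : Fml) :
    ∀ σ m : List ℕ, φ.at σ = ψ → (T (pt σ m) = 1 ↔ Sat M ψ (fun i => h (asg m i))) := by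
  induction ψ with
  | eq i j =>
    intro σ m hσ
    have hn := hasCode_nd hc σ
    rw [hσ] at hn
    obtain ⟨h0, h1, h2⟩ := hn
    rw [hA.eq σ m h0, h1, h2]
    exact Iff.rfl
  | rel k l =>
    intro σ m hσ
    have hn := hasCode_nd hc σ
    rw [hσ] at hn
    obtain ⟨h0, h1, h2⟩ := hn
    rw [hA.rel σ m h0, h1, h2, dl_encode, List.map_map]
    exact Iff.rfl
  | neg ψ ih =>
    intro σ m hσ
    have hn := hasCode_nd hc σ
    rw [hσ] at hn
    obtain ⟨h0, -⟩ := hn
    rw [hT.neg σ m h0, ih (σ ++ [0]) m (by rw [at_append, hσ]; rfl)]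
    exact Iff.rfl
  | conj f ih =>
    intro σ m hσ
    have hn := hasCode_nd hc σ
    rw [hσ] at hn
    obtain ⟨h0, -⟩ := hn
    rw [hT.conj σ m h0]
    exact forall_congr' fun n => ih n (σ ++ [n]) m (by rw [at_append, hσ]; rfl)
  | all i ψ ih =>
    intro σ m hσ
    have hn := hasCode_nd hc σ
    rw [hσ] at hn
    obtain ⟨h0, h1, -⟩ := hn
    rw [hT.all σ m h0, h1]
    have key : ∀ a : ℕ, (T (pt (σ ++ [0]) (upd m i a)) = 1 ↔
        Sat M ψ (Function.update (fun j => h (asg m j)) i (h a))) := by
      intro a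
      rw [ih (σ ++ [0]) (upd m i a) (by rw [at_append, hσ]; rfl)]
      have : (fun j => h (asg (upd m i a) j)) = Function.update (fun j => h (asg m j)) i (h a) := by
        funext j
        rw [asg_upd]
        by_cases hj : j = i
        · subst hj
          rw [Function.update_self, Function.update_self]
        · rw [Function.update_of_ne hj, Function.update_of_ne hj]
      rw [this]
    constructor
    · intro H a
      obtain ⟨b, rfl⟩ := hh a
      exact (key b).1 (H b)
    · intro H a
      exact (key a).2 (H (h a))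
  | ren l ψ ih =>
    intro σ m hσ
    have hn := hasCode_nd hc σ
    rw [hσ] at hn
    obtain ⟨h0, h1, -⟩ := hn
    rw [hT.ren σ m h0, h1, dl_encode, ih (σ ++ [0]) (rn m l) (by rw [at_append, hσ]; rfl)]
    have : (fun i => h (asg (rn m l) i)) = fun i => h (asg m (l.getD i i)) := by
      funext i
      rw [asg_rn]
    rw [this]
    exact Iff.rfl

theorem truth (hc : HasCode φ c) (hT : Eval c T) (hh : Function.Surjective h)
    (hA : EvalAt c T (fun a b => h a = h b) (fun k l => M.rel k (l.map h))) (σ m : List ℕ) :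
    T (pt σ m) = 1 ↔ Sat M (φ.at σ) (fun i => h (asg m i)) :=
  M5_aux hc hT hh hA (φ.at σ) σ m rfl

theorem tru_pt (M : Str A) (φ : Fml) (h : ℕ → A) (σ m : List ℕ) :
    Tru M φ h (pt σ m) = 1 ↔ Sat M (φ.at σ) (fun i => h (asg m i)) := by
  classical
  have h1 : Tru M φ h (pt σ m) = if Sat M (φ.at σ) (fun i => h (asg m i)) then 1 else 0 := by
    unfold Tru pt
    simp only [Nat.unpair_pair, dl_encode]
  rw [h1]
  split_ifs with hs
  · exact ⟨fun _ => hs, fun _ => rfl⟩
  · exact ⟨fun h0 => absurd h0 (by norm_num), fun h0 => absurd h0 hs⟩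

theorem tru_le_one (M : Str A) (φ : Fml) (h : ℕ → A) (n : ℕ) : Tru M φ h n ≤ 1 := by
  unfold Tru
  split_ifs
  · exact le_refl 1
  · exact Nat.zero_le 1

theorem tru_eval (hc : HasCode φ c) (hh : Function.Surjective h) : Eval c (Tru M φ h) := by
  have key : ∀ σ : List ℕ, HasCode (φ.at σ) (nd c σ) := fun σ => hasCode_nd hc σ
  refine ⟨tru_le_one M φ h, ?_, ?_, ?_, ?_⟩
  · intro σ m h2
    rw [tru_pt, tru_pt, at_append]
    have hn := key σ
    cases hψ : φ.at σ with
    | neg ψ => exact Iff.rfl
    | eq i j => rw [hψ] at hn; exact absurd (hn.1.symm.trans h2) (by norm_num)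
    | rel k l => rw [hψ] at hn; exact absurd (hn.1.symm.trans h2) (by norm_num)
    | conj f => rw [hψ] at hn; exact absurd (hn.1.symm.trans h2) (by norm_num)
    | all i ψ => rw [hψ] at hn; exact absurd (hn.1.symm.trans h2) (by norm_num)
    | ren l ψ => rw [hψ] at hn; exact absurd (hn.1.symm.trans h2) (by norm_num)
  · intro σ m h2
    have h3 : ∀ n, (Tru M φ h (pt (σ ++ [n]) m) = 1 ↔
        Sat M ((φ.at σ).ch n) (fun i => h (asg m i))) := fun n => by rw [tru_pt, at_append]
    rw [tru_pt, forall_congr' h3]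
    have hn := key σ
    cases hψ : φ.at σ with
    | conj f => exact Iff.rfl
    | neg ψ => rw [hψ] at hn; exact absurd (hn.1.symm.trans h2) (by norm_num)
    | eq i j => rw [hψ] at hn; exact absurd (hn.1.symm.trans h2) (by norm_num)
    | rel k l => rw [hψ] at hn; exact absurd (hn.1.symm.trans h2) (by norm_num)
    | all i ψ => rw [hψ] at hn; exact absurd (hn.1.symm.trans h2) (by norm_num)
    | ren l ψ => rw [hψ] at hn; exact absurd (hn.1.symm.trans h2) (by norm_num)
  · intro σ m h2
    have h3 : ∀ a, (Tru M φ h (pt (σ ++ [0]) (upd m (nd c σ 1) a)) = 1 ↔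
        Sat M ((φ.at σ).ch 0) (Function.update (fun j => h (asg m j)) (nd c σ 1) (h a))) := by
      intro a
      rw [tru_pt, at_append]
      have : (fun j => h (asg (upd m (nd c σ 1) a) j)) =
          Function.update (fun j => h (asg m j)) (nd c σ 1) (h a) := by
        funext j
        rw [asg_upd]
        by_cases hj : j = nd c σ 1
        · subst hj
          rw [Function.update_self, Function.update_self]
        · rw [Function.update_of_ne hj, Function.update_of_ne hj]
      rw [this]
    rw [tru_pt, forall_congr' h3]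
    have hn := key σ
    cases hψ : φ.at σ with
    | all i ψ =>
      rw [hψ] at hn
      rw [hn.2.1]
      constructor
      · intro H a
        exact H (h a)
      · intro H a
        obtain ⟨b, rfl⟩ := hh a
        exact H b
    | neg ψ => rw [hψ] at hn; exact absurd (hn.1.symm.trans h2) (by norm_num)
    | eq i j => rw [hψ] at hn; exact absurd (hn.1.symm.trans h2) (by norm_num)
    | rel k l => rw [hψ] at hn; exact absurd (hn.1.symm.trans h2) (by norm_num)
    | conj f => rw [hψ] at hn; exact absurd (hn.1.symm.trans h2) (by norm_num)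
    | ren l ψ => rw [hψ] at hn; exact absurd (hn.1.symm.trans h2) (by norm_num)
  · intro σ m h2
    rw [tru_pt, tru_pt, at_append]
    have hn := key σ
    cases hψ : φ.at σ with
    | ren l ψ =>
      rw [hψ] at hn
      rw [hn.2.1, dl_encode]
      have : (fun i => h (asg (rn m l) i)) = fun i => h (asg m (l.getD i i)) := by
        funext i
        rw [asg_rn]
      rw [this]
      exact Iff.rfl
    | neg ψ => rw [hψ] at hn; exact absurd (hn.1.symm.trans h2) (by norm_num)
    | eq i j => rw [hψ] at hn; exact absurd (hn.1.symm.trans h2) (by norm_num)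
    | rel k l => rw [hψ] at hn; exact absurd (hn.1.symm.trans h2) (by norm_num)
    | conj f => rw [hψ] at hn; exact absurd (hn.1.symm.trans h2) (by norm_num)
    | all i ψ => rw [hψ] at hn; exact absurd (hn.1.symm.trans h2) (by norm_num)

theorem tru_evalAt (hc : HasCode φ c) :
    EvalAt c (Tru M φ h) (fun a b => h a = h b) (fun k l => M.rel k (l.map h)) := by
  have key : ∀ σ : List ℕ, HasCode (φ.at σ) (nd c σ) := fun σ => hasCode_nd hc σ
  refine ⟨?_, ?_⟩
  · intro σ m h2
    rw [tru_pt]
    have hn := key σ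
    cases hψ : φ.at σ with
    | eq i j =>
      rw [hψ] at hn
      rw [hn.2.1, hn.2.2]
      exact Iff.rfl
    | neg ψ => rw [hψ] at hn; exact absurd (hn.1.symm.trans h2) (by norm_num)
    | rel k l => rw [hψ] at hn; exact absurd (hn.1.symm.trans h2) (by norm_num)
    | conj f => rw [hψ] at hn; exact absurd (hn.1.symm.trans h2) (by norm_num)
    | all i ψ => rw [hψ] at hn; exact absurd (hn.1.symm.trans h2) (by norm_num)
    | ren l ψ => rw [hψ] at hn; exact absurd (hn.1.symm.trans h2) (by norm_num)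
  · intro σ m h2
    rw [tru_pt]
    have hn := key σ
    cases hψ : φ.at σ with
    | rel k l =>
      rw [hψ] at hn
      rw [hn.2.1, hn.2.2, dl_encode, List.map_map]
      exact Iff.rfl
    | eq i j => rw [hψ] at hn; exact absurd (hn.1.symm.trans h2) (by norm_num)
    | neg ψ => rw [hψ] at hn; exact absurd (hn.1.symm.trans h2) (by norm_num)
    | conj f => rw [hψ] at hn; exact absurd (hn.1.symm.trans h2) (by norm_num)
    | all i ψ => rw [hψ] at hn; exact absurd (hn.1.symm.trans h2) (by norm_num)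
    | ren l ψ => rw [hψ] at hn; exact absurd (hn.1.symm.trans h2) (by norm_num)

/-- an evaluation is the true one -/
theorem eval_eq_tru (hc : HasCode φ c) (hT : Eval c T) (hh : Function.Surjective h)
    (hA : EvalAt c T (fun a b => h a = h b) (fun k l => M.rel k (l.map h))) : T = Tru M φ h := by
  funext n
  obtain ⟨σ, m, rfl⟩ := exists_pt n
  have h1 := truth hc hT hh hA σ m
  have h2 := tru_pt M φ h σ m
  have h3 := hT.bit (pt σ m)
  have h4 := tru_le_one M φ h (pt σ m)
  have h5 : T (pt σ m) = 1 ↔ Tru M φ h (pt σ m) = 1 := h1.trans h2.symm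
  by_cases h6 : T (pt σ m) = 1
  · rw [h6, h5.1 h6]
  · have h7 : ¬ Tru M φ h (pt σ m) = 1 := fun h8 => h6 (h5.2 h8)
    omega

end BW
end

section

/-!
# BW.Fm4 : existential theories of tuples (definitions)

A fact is a number `pair a b`: `a = pt σ m` the number of an atom (node `σ`, finite assignment `m` of
names), `b` a truth value.  `rr M φ k a` is the real which codes the set of all finite lists of facts
which hold under some `h : ℕ → A` (interpretation of the names) with `h i = a i` for `i < k`.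
-/

namespace BW

open Encodable

/-- substitution of names (`i ↦ s_i`, `i < s.length`) in the atom number `n` -/
def sbA (s : List ℕ) (n : ℕ) : ℕ :=
  pt (dl (Nat.unpair n).1) ((dl (Nat.unpair n).2).map fun i => s.getD i i)

/-- substitution of names in the fact `e` -/
def sbF (s : List ℕ) (e : ℕ) : ℕ := Nat.pair (sbA s (Nat.unpair e).1) (Nat.unpair e).2

/-- the names below `L` which are `≥ k` are moved up by `N` -/
def sh (k N L : ℕ) : List ℕ := (List.range L).map fun i => if i < k then i else i + N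

/-- a bound for the names which occur in the list of facts `p` -/
def bd (p : List ℕ) : ℕ := p.sum + 1

/-- the facts of the list `p` hold in the evaluation `T` -/
def Hol (T : ℕ → ℕ) (p : List ℕ) : Prop := ∀ e ∈ p, T (Nat.unpair e).1 = (Nat.unpair e).2

open Classical in
/-- the existential theory of the tuple `a 0, .., a (k-1)` -/
noncomputable def rr {A : Type} (M : Str A) (φ : Fml) (k : ℕ) (a : ℕ → A) : ℕ → ℕ := fun n =>
  if ∃ h : ℕ → A, (∀ i < k, h i = a i) ∧ Hol (Tru M φ h) (dl n) then 1 else 0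

open Classical in
/-- the least witnesses for failing conjunctions: at `pair (encode p) (pt σ m)` the least `n` such
that the list `p` prolonged by the fact that the child number `n` fails is in `R` (`0` if there is none) -/
noncomputable def lw (R : ℕ → ℕ) : ℕ → ℕ := fun u =>
  if h : ∃ n, R (encode (Nat.pair (pt (dl (Nat.unpair (Nat.unpair u).2).1 ++ [n])
    (dl (Nat.unpair (Nat.unpair u).2).2)) 0 :: dl (Nat.unpair u).1)) = 1 then Nat.find h else 0

/-- `R` is the existential theory of a `k`-tuple of a countable model of `φ₀`, with respect to the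
nodes of `φ` -/
def Realz (φ₀ φ : Fml) (k : ℕ) (R : ℕ → ℕ) : Prop :=
  ∃ (A : Type) (M : Str A), Countable A ∧ Nonempty A ∧ Mod M φ₀ ∧ ∃ a : ℕ → A, R = rr M φ k a

/-- `φ₀` and the atomic formulas are nodes of `φ` -/
def Rich (φ₀ φ : Fml) : Prop :=
  (∃ σ, φ.at σ = φ₀) ∧ (∃ σ, φ.at σ = .eq 0 1) ∧ ∀ k n, ∃ σ, φ.at σ = .rel k (List.range n)

end BW
end

section

/-!
# BW.E1 : properties of the existential theories of tuples

PROOFS.  `R = rr M φ k a`; `R (encode p) = 1` iff some `h` with `h i = a i` (`i < k`) has `Hol (Tru M φ h) p`.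
* `tru_sb` : if `h' i = h (s.getD i i)` for all names `i` which occur in `m` and for `i = 0`, `s.getD 0 0 = 0`, then the
  truth value of `pt σ m` under `h'` is the one of `pt σ (m.map (s.getD · ·))` under `h`, since
  `h' (asg m i) = h (asg (m.map ..) i)` for all `i` (for `i ≥ m.length` both are the value at `0`).
* `names_lt` : `i ∈ m` implies `i ≤ encode m ≤ pt σ m ≤ pair (pt σ m) b ≤ p.sum < bd p`
  (`mem_dl_le`-like: `i ≤ encode m` for `i ∈ m`; `Nat.left_le_pair`, `Nat.right_le_pair`).
* `rr_sub` : clear.  `rr_sb` : `h' i = h (s.getD i i)`.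
* `rr_am` : `h₁` for `p`, `h₂` for `q`; let `h j = h₁ j` for `j < bd p + k`... precisely: put
  `h j = h₂ (j - bd p)` if `j ≥ bd p + k`, and `h j = h₁ j` otherwise; the names of `p` are `< bd p`; the
  names of `q.map (sbF (sh k (bd p) (bd q)))` are the `i < k` and the `i + bd p`, `i ≥ k`.
* `rr_dec` : the truth value of the atom `n` under `h` is `0` or `1`.
* `rr_conj` : the conjunction fails under `h`, so some child fails under `h`.
* `rr_all` : `h'` = `h` changed at the name `bd p + k` (which does not occur in `p`, and is `≥ k`) to the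
  witness; `asg (upd m i (bd p + k)) = update (asg m) i (bd p + k)` and `m` consists of names of `p`
  (the fact `pair (pt σ m) 0` is in `p`); `m` may be empty, then the default name `0` is used, which is not
  `bd p + k`.
-/

namespace BW

open Encodable

variable {A : Type} {M : Str A} {φ : Fml} {k : ℕ} {a : ℕ → A}

theorem rr_iff (p : List ℕ) : rr M φ k a (encode p) = 1 ↔
    ∃ h : ℕ → A, (∀ i < k, h i = a i) ∧ Hol (Tru M φ h) p := by
  classical
  unfold rr
  rw [dl_encode]
  split_ifs with h
  · exact ⟨fun _ => h, fun _ => rfl⟩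
  · exact ⟨fun h1 => absurd h1 (by norm_num), fun h1 => absurd h1 h⟩

theorem rr_bit (n : ℕ) : rr M φ k a n ≤ 1 := by
  classical
  unfold rr
  split_ifs
  · exact le_rfl
  · exact Nat.zero_le _

private theorem le_encode {m : List ℕ} {i : ℕ} (hi : i ∈ m) : i ≤ encode m := by
  induction m with
  | nil => exact absurd hi (List.not_mem_nil)
  | cons x l ih =>
    rw [Encodable.encode_list_cons]
    rcases List.mem_cons.1 hi with h | h
    · subst h
      have h1 : i ≤ Nat.pair (encode i) (encode l) := Nat.left_le_pair i _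
      omega
    · have h1 := ih h
      have h2 := Nat.right_le_pair (encode x) (encode l)
      omega

theorem names_lt {p : List ℕ} {σ m : List ℕ} {b i : ℕ} (h : Nat.pair (pt σ m) b ∈ p) (hi : i ∈ m) :
    i < bd p := by
  have h1 := le_encode hi
  have h2 : encode m ≤ pt σ m := Nat.right_le_pair _ _
  have h3 := Nat.left_le_pair (pt σ m) b
  have h4 := List.le_sum_of_mem h
  unfold bd
  omega

private theorem tru_eq {h h' : ℕ → A} {n n' : ℕ} (h1 : dl (Nat.unpair n).1 = dl (Nat.unpair n').1)
    (h2 : ∀ i, h (asg (dl (Nat.unpair n).2) i) = h' (asg (dl (Nat.unpair n').2) i)) :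
    Tru M φ h n = Tru M φ h' n' := by
  classical
  unfold Tru
  rw [h1, funext h2]

private theorem asg_mem (m : List ℕ) (i : ℕ) : asg m i ∈ m ∨ asg m i = 0 := by
  unfold asg
  by_cases h : i < m.length
  · left
    rw [List.getD_eq_getElem _ _ h]
    exact List.getElem_mem h
  · right
    rw [List.getD_eq_default _ _ (not_lt.1 h)]

theorem tru_sb {h h' : ℕ → A} {s : List ℕ} {n : ℕ} (h0 : h' 0 = h 0) (hs : s.getD 0 0 = 0)
    (hi : ∀ i ∈ dl (Nat.unpair n).2, h' i = h (s.getD i i)) :
    Tru M φ h (sbA s n) = Tru M φ h' n := by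
  apply tru_eq
  · unfold sbA pt
    rw [Nat.unpair_pair, dl_encode]
  · intro i
    have e : dl (Nat.unpair (sbA s n)).2 = (dl (Nat.unpair n).2).map fun i => s.getD i i := by
      unfold sbA pt
      rw [Nat.unpair_pair, dl_encode]
    rw [e]
    unfold asg
    by_cases hl : i < (dl (Nat.unpair n).2).length
    · rw [List.getD_eq_getElem _ _ (by rwa [List.length_map]), List.getD_eq_getElem _ _ hl, List.getElem_map]
      exact (hi _ (List.getElem_mem hl)).symm
    · rw [List.getD_eq_default _ _ (by rw [List.length_map]; exact not_lt.1 hl),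
        List.getD_eq_default _ _ (not_lt.1 hl)]
      exact h0.symm

private theorem tru_cg {h h' : ℕ → A} {n : ℕ} (h0 : h' 0 = h 0)
    (hi : ∀ i ∈ dl (Nat.unpair n).2, h' i = h i) : Tru M φ h n = Tru M φ h' n := by
  apply tru_eq rfl
  intro i
  rcases asg_mem (dl (Nat.unpair n).2) i with h1 | h1
  · exact (hi _ h1).symm
  · rw [h1, h0]

private theorem nm_lt {p : List ℕ} {e i : ℕ} (he : e ∈ p) (hi : i ∈ dl (Nat.unpair (Nat.unpair e).1).2) :
    i < bd p := by
  obtain ⟨σ, m, hm⟩ := exists_pt (Nat.unpair e).1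
  have h1 : Nat.pair (pt σ m) (Nat.unpair e).2 ∈ p := by
    rw [← hm, Nat.pair_unpair]
    exact he
  refine names_lt h1 ?_
  rw [hm] at hi
  unfold pt at hi
  rw [Nat.unpair_pair, dl_encode] at hi
  exact hi

theorem rr_nil : rr M φ k a (encode ([] : List ℕ)) = 1 :=
  (rr_iff _).2 ⟨a, fun _ _ => rfl, fun _ he => absurd he List.not_mem_nil⟩

theorem rr_sub {p q : List ℕ} (h : rr M φ k a (encode p) = 1) (hq : ∀ e ∈ q, e ∈ p) :
    rr M φ k a (encode q) = 1 := by
  obtain ⟨h1, h2, h3⟩ := (rr_iff _).1 h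
  exact (rr_iff _).2 ⟨h1, h2, fun e he => h3 e (hq e he)⟩

theorem rr_sb (hk : 0 < k) {p s : List ℕ} (hs : ∀ i < k, s.getD i i = i)
    (h : rr M φ k a (encode (p.map (sbF s))) = 1) : rr M φ k a (encode p) = 1 := by
  obtain ⟨h1, h2, h3⟩ := (rr_iff _).1 h
  refine (rr_iff _).2 ⟨fun i => h1 (s.getD i i), fun i hi => ?_, fun e he => ?_⟩
  · show h1 (s.getD i i) = a i
    rw [hs i hi]
    exact h2 i hi
  · have h4 := h3 (sbF s e) (List.mem_map.2 ⟨e, he, rfl⟩)
    unfold sbF at h4
    rw [Nat.unpair_pair] at h4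
    have h5 : Tru M φ h1 (sbA s (Nat.unpair e).1) = Tru M φ (fun i => h1 (s.getD i i)) (Nat.unpair e).1 :=
      tru_sb (by show h1 (s.getD 0 0) = h1 0; rw [hs 0 hk]) (hs 0 hk) (fun i _ => rfl)
    rw [← h5]
    exact h4

theorem rr_am (hk : 0 < k) {p q : List ℕ} (hp : rr M φ k a (encode p) = 1)
    (hq : rr M φ k a (encode q) = 1) :
    rr M φ k a (encode (p ++ q.map (sbF (sh k (bd p) (bd q))))) = 1 := by
  obtain ⟨h1, h2, h3⟩ := (rr_iff _).1 hp
  obtain ⟨g1, g2, g3⟩ := (rr_iff _).1 hq
  have hsh : ∀ i < bd q, (sh k (bd p) (bd q)).getD i i = if i < k then i else i + bd p := by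
    intro i hi
    unfold sh
    rw [List.getD_eq_getElem _ _ (by rw [List.length_map, List.length_range]; exact hi),
      List.getElem_map, List.getElem_range]
  have hbq : 0 < bd q := Nat.succ_pos _
  have hbp : 0 < bd p := Nat.succ_pos _
  set h : ℕ → A := fun j => if bd p + k ≤ j then g1 (j - bd p) else h1 j with hh
  have hlt : ∀ j, j < bd p + k → h j = h1 j := by
    intro j hj
    rw [hh]
    show (if bd p + k ≤ j then g1 (j - bd p) else h1 j) = h1 j
    rw [if_neg (not_le.2 hj)]
  have hge : ∀ i, k ≤ i → h (i + bd p) = g1 i := by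
    intro i hi
    rw [hh]
    show (if bd p + k ≤ i + bd p then g1 (i + bd p - bd p) else h1 (i + bd p)) = g1 i
    rw [if_pos (by omega), Nat.add_sub_cancel]
  refine (rr_iff _).2 ⟨h, fun i hi => ?_, fun e he => ?_⟩
  · rw [hlt i (by omega)]
    exact h2 i hi
  · rcases List.mem_append.1 he with he | he
    · rw [← h3 e he]
      exact (tru_cg (hlt 0 (by omega)) (fun i hi => hlt i (by have := nm_lt he hi; omega))).symm
    · obtain ⟨e', he', rfl⟩ := List.mem_map.1 he
      unfold sbF
      rw [Nat.unpair_pair]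
      show Tru M φ h (sbA (sh k (bd p) (bd q)) (Nat.unpair e').1) = (Nat.unpair e').2
      rw [← g3 e' he']
      apply tru_sb
      · rw [hlt 0 (by omega), h2 0 hk, g2 0 hk]
      · rw [hsh 0 hbq, if_pos hk]
      · intro i hi
        rw [hsh i (nm_lt he' hi)]
        by_cases hik : i < k
        · rw [if_pos hik, hlt i (by omega), h2 i hik, g2 i hik]
        · rw [if_neg hik, hge i (not_lt.1 hik)]

private theorem rr_cons {p : List ℕ} {h : ℕ → A} (h1 : ∀ i < k, h i = a i) (h2 : Hol (Tru M φ h) p) {n b : ℕ}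
    (h3 : Tru M φ h n = b) : rr M φ k a (encode (Nat.pair n b :: p)) = 1 := by
  refine (rr_iff _).2 ⟨h, h1, fun e he => ?_⟩
  rcases List.mem_cons.1 he with he | he
  · rw [he, Nat.unpair_pair]
    exact h3
  · exact h2 e he

theorem rr_dec {p : List ℕ} (h : rr M φ k a (encode p) = 1) (n : ℕ) :
    rr M φ k a (encode (Nat.pair n 0 :: p)) = 1 ∨ rr M φ k a (encode (Nat.pair n 1 :: p)) = 1 := by
  obtain ⟨h1, h2, h3⟩ := (rr_iff _).1 h
  have h4 := tru_le_one M φ h1 n
  rcases Nat.le_one_iff_eq_zero_or_eq_one.1 h4 with h5 | h5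
  · exact Or.inl (rr_cons h2 h3 h5)
  · exact Or.inr (rr_cons h2 h3 h5)

private theorem tru_zero {h : ℕ → A} {σ m : List ℕ} :
    Tru M φ h (pt σ m) = 0 ↔ ¬ Sat M (φ.at σ) (fun i => h (asg m i)) := by
  rw [← tru_pt M φ h σ m]
  have h4 := tru_le_one M φ h (pt σ m)
  omega

theorem rr_conj {p : List ℕ} (h : rr M φ k a (encode p) = 1) {σ m : List ℕ} {ψ : ℕ → Fml}
    (hσ : φ.at σ = .conj ψ) (hm : Nat.pair (pt σ m) 0 ∈ p) :
    ∃ n, rr M φ k a (encode (Nat.pair (pt (σ ++ [n]) m) 0 :: p)) = 1 := by
  obtain ⟨h1, h2, h3⟩ := (rr_iff _).1 h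
  have h4 := h3 _ hm
  rw [Nat.unpair_pair] at h4
  have h5 := tru_zero.1 h4
  rw [hσ] at h5
  have h6 : ¬ ∀ n, Sat M (ψ n) (fun i => h1 (asg m i)) := h5
  push Not at h6
  obtain ⟨n, hn⟩ := h6
  refine ⟨n, rr_cons h2 h3 (tru_zero.2 ?_)⟩
  rw [at_append, hσ]
  exact hn

theorem rr_all {p : List ℕ} (h : rr M φ k a (encode p) = 1) {σ m : List ℕ} {i : ℕ} {ψ : Fml}
    (hσ : φ.at σ = .all i ψ) (hm : Nat.pair (pt σ m) 0 ∈ p) :
    rr M φ k a (encode (Nat.pair (pt (σ ++ [0]) (upd m i (bd p + k))) 0 :: p)) = 1 := by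
  obtain ⟨h1, h2, h3⟩ := (rr_iff _).1 h
  have h4 := h3 _ hm
  rw [Nat.unpair_pair] at h4
  have h5 := tru_zero.1 h4
  rw [hσ] at h5
  have h6 : ¬ ∀ b, Sat M ψ (Function.update (fun j => h1 (asg m j)) i b) := h5
  push Not at h6
  obtain ⟨b, hb⟩ := h6
  have hbp : 0 < bd p := Nat.succ_pos _
  have hne : ∀ j, j < bd p + k → Function.update h1 (bd p + k) b j = h1 j := fun j hj =>
    Function.update_of_ne (ne_of_lt hj) _ _
  refine rr_cons (h := Function.update h1 (bd p + k) b) (fun j hj => ?_) (fun e he => ?_) (tru_zero.2 ?_)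
  · rw [hne j (by omega)]
    exact h2 j hj
  · rw [← h3 e he]
    exact (tru_cg (hne 0 (by omega)) (fun j hj => hne j (by have := nm_lt he hj; omega))).symm
  · rw [at_append, hσ]
    have h7 : (fun j => Function.update h1 (bd p + k) b (asg (upd m i (bd p + k)) j)) =
        Function.update (fun j => h1 (asg m j)) i b := by
      funext j
      rw [asg_upd]
      by_cases hj : j = i
      · subst hj
        rw [Function.update_self, Function.update_self, Function.update_self]
      · rw [Function.update_of_ne hj, Function.update_of_ne hj]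
        apply hne
        rcases asg_mem m j with h8 | h8
        · have := names_lt hm h8
          omega
        · rw [h8]
          omega
    rw [h7]
    exact hb

/-- the witness function of a theory finds witnesses -/
theorem lw_spec {R : ℕ → ℕ} {p σ m : List ℕ}
    (h : ∃ n, R (encode (Nat.pair (pt (σ ++ [n]) m) 0 :: p)) = 1) :
    R (encode (Nat.pair (pt (σ ++ [lw R (Nat.pair (encode p) (pt σ m))]) m) 0 :: p)) = 1 := by
  classical
  have e1 : dl (Nat.unpair (Nat.unpair (Nat.pair (encode p) (pt σ m))).2).1 = σ := by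
    unfold pt
    rw [Nat.unpair_pair, Nat.unpair_pair, dl_encode]
  have e2 : dl (Nat.unpair (Nat.unpair (Nat.pair (encode p) (pt σ m))).2).2 = m := by
    unfold pt
    rw [Nat.unpair_pair, Nat.unpair_pair, dl_encode]
  have e3 : dl (Nat.unpair (Nat.pair (encode p) (pt σ m))).1 = p := by
    rw [Nat.unpair_pair, dl_encode]
  have h' : ∃ n, R (encode (Nat.pair (pt (dl (Nat.unpair (Nat.unpair (Nat.pair (encode p) (pt σ m))).2).1 ++ [n])
      (dl (Nat.unpair (Nat.unpair (Nat.pair (encode p) (pt σ m))).2).2)) 0 ::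
      dl (Nat.unpair (Nat.pair (encode p) (pt σ m))).1)) = 1 := by
    rw [e1, e2, e3]
    exact h
  have h1 : lw R (Nat.pair (encode p) (pt σ m)) = Nat.find h' := by
    unfold lw
    rw [dif_pos h']
  have h2 := Nat.find_spec h'
  rw [← h1] at h2
  simp only [e1, e2, e3] at h2
  exact h2

end BW
end

section

/-!
# BW.E2 : limits of existential theories

`Lim φ₀ φ k R W` says that the pair `(R, W)` is in the closure of the set of the pairs `(R', lw R')`, `R'` realised.
PROOFS.  Each statement mentions finitely many values of `R` and `W`; take `N` above all of the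
arguments, a realised `R'` with `R' = R`, `lw R' = W` below `N`, and apply the statement for
`R' = rr M φ k a` (file `E1`) .
* `lim_conj` : `w = W (pair (encode p) (pt σ m))`; the arguments are `encode p`, this pair, and
  `encode (pair (pt (σ ++ [w]) m) 0 :: p)`; `rr_conj` and `lw_spec`.
* `lim_sat` : a finite list of facts in `R` holds under some `h` in some countable model of `φ₀`
  (with `h i = a i` for `i < k`).
* `lim_lw` : `W = lw R`.  Let `u = pair (encode p) (pt σ m)` and `E n = encode (pair (pt (σ ++ [n]) m) 0 :: p)`.  If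
  `R (E n) = 1` for some `n`, let `n` be the least one; for a realised `R'` which agrees with `R` at
  `E 0, .., E n` and `lw R' u = W u`: `lw R' u = n`, so `W u = n = lw R u`.  If there is no such `n`: let `w = W u`
  and take `R'` which agrees at `E w` and `u`: `R' (E w) ≠ 1`, but if some `n'` had `R' (E n') = 1` then
  `R' (E (lw R' u)) = 1` with `lw R' u = w`; so there is none, and `w = lw R' u = 0 = lw R u`.
-/

namespace BW

open Encodable

/-- limits of realised theories together with their witness functions -/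
def Lim (φ₀ φ : Fml) (k : ℕ) (R W : ℕ → ℕ) : Prop :=
  ∀ N, ∃ R', Realz φ₀ φ k R' ∧ (∀ n < N, R' n = R n) ∧ ∀ n < N, lw R' n = W n

variable {φ₀ φ : Fml} {k : ℕ} {R W : ℕ → ℕ}

private theorem E2_get (h : Lim φ₀ φ k R W) (N : ℕ) :
    ∃ (A : Type) (M : Str A) (a : ℕ → A), Mod M φ₀ ∧ (∀ n < N, rr M φ k a n = R n) ∧
      ∀ n < N, lw (rr M φ k a) n = W n := by
  obtain ⟨R', ⟨A, M, -, -, hM, a, rfl⟩, h1, h2⟩ := h N
  exact ⟨A, M, a, hM, h1, h2⟩

theorem lim_bit (h : Lim φ₀ φ k R W) (n : ℕ) : R n ≤ 1 := by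
  obtain ⟨A, M, a, -, h1, -⟩ := E2_get h (n + 1)
  rw [← h1 n (Nat.lt_succ_self n)]
  exact rr_bit n

theorem lim_nil (h : Lim φ₀ φ k R W) : R (encode ([] : List ℕ)) = 1 := by
  obtain ⟨A, M, a, -, h1, -⟩ := E2_get h (encode ([] : List ℕ) + 1)
  rw [← h1 _ (Nat.lt_succ_self _)]
  exact rr_nil

theorem lim_sub (h : Lim φ₀ φ k R W) {p q : List ℕ} (hp : R (encode p) = 1)
    (hq : ∀ e ∈ q, e ∈ p) : R (encode q) = 1 := by
  obtain ⟨A, M, a, -, h1, -⟩ := E2_get h (encode p + encode q + 1)
  rw [← h1 _ (by omega)] at hp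
  rw [← h1 _ (by omega)]
  exact rr_sub hp hq

theorem lim_sb (h : Lim φ₀ φ k R W) (hk : 0 < k) {p s : List ℕ} (hs : ∀ i < k, s.getD i i = i)
    (hp : R (encode (p.map (sbF s))) = 1) : R (encode p) = 1 := by
  obtain ⟨A, M, a, -, h1, -⟩ := E2_get h (encode p + encode (p.map (sbF s)) + 1)
  rw [← h1 _ (by omega)] at hp
  rw [← h1 _ (by omega)]
  exact rr_sb hk hs hp

theorem lim_am (h : Lim φ₀ φ k R W) (hk : 0 < k) {p q : List ℕ} (hp : R (encode p) = 1)
    (hq : R (encode q) = 1) :
    R (encode (p ++ q.map (sbF (sh k (bd p) (bd q))))) = 1 := by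
  obtain ⟨A, M, a, -, h1, -⟩ := E2_get h (encode p + encode q +
    encode (p ++ q.map (sbF (sh k (bd p) (bd q)))) + 1)
  rw [← h1 _ (by omega)] at hp hq
  rw [← h1 _ (by omega)]
  exact rr_am hk hp hq

theorem lim_dec (h : Lim φ₀ φ k R W) {p : List ℕ} (hp : R (encode p) = 1) (n : ℕ) :
    R (encode (Nat.pair n 0 :: p)) = 1 ∨ R (encode (Nat.pair n 1 :: p)) = 1 := by
  obtain ⟨A, M, a, -, h1, -⟩ := E2_get h (encode p + encode (Nat.pair n 0 :: p) +
    encode (Nat.pair n 1 :: p) + 1)
  rw [← h1 _ (by omega)] at hp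
  rw [← h1 _ (by omega), ← h1 (encode (Nat.pair n 1 :: p)) (by omega)]
  exact rr_dec hp n

theorem lim_conj (h : Lim φ₀ φ k R W) {p : List ℕ} (hp : R (encode p) = 1) {σ m : List ℕ}
    {ψ : ℕ → Fml} (hσ : φ.at σ = .conj ψ) (hm : Nat.pair (pt σ m) 0 ∈ p) :
    ∃ n, R (encode (Nat.pair (pt (σ ++ [n]) m) 0 :: p)) = 1 := by
  obtain ⟨w, hw⟩ : ∃ w, w = W (Nat.pair (encode p) (pt σ m)) := ⟨_, rfl⟩
  obtain ⟨A, M, a, -, h1, h2⟩ := E2_get h (encode p + Nat.pair (encode p) (pt σ m) +
    encode (Nat.pair (pt (σ ++ [w]) m) 0 :: p) + 1)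
  rw [← h1 _ (by omega)] at hp
  have h3 := lw_spec (rr_conj hp hσ hm)
  rw [h2 _ (by omega), ← hw, h1 _ (by omega)] at h3
  exact ⟨w, h3⟩

theorem lim_all (h : Lim φ₀ φ k R W) {p : List ℕ} (hp : R (encode p) = 1) {σ m : List ℕ} {i : ℕ}
    {ψ : Fml} (hσ : φ.at σ = .all i ψ) (hm : Nat.pair (pt σ m) 0 ∈ p) :
    R (encode (Nat.pair (pt (σ ++ [0]) (upd m i (bd p + k))) 0 :: p)) = 1 := by
  obtain ⟨A, M, a, -, h1, -⟩ := E2_get h (encode p +
    encode (Nat.pair (pt (σ ++ [0]) (upd m i (bd p + k))) 0 :: p) + 1)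
  rw [← h1 _ (by omega)] at hp
  rw [← h1 _ (by omega)]
  exact rr_all hp hσ hm

theorem lim_sat (h : Lim φ₀ φ k R W) {p : List ℕ} (hp : R (encode p) = 1) :
    ∃ (A : Type) (M : Str A) (g : ℕ → A), Mod M φ₀ ∧ Hol (Tru M φ g) p := by
  obtain ⟨A, M, a, hM, h1, -⟩ := E2_get h (encode p + 1)
  rw [← h1 _ (by omega), rr_iff] at hp
  obtain ⟨g, -, hg⟩ := hp
  exact ⟨A, M, g, hM, hg⟩

open Classical in
private theorem E2_lw (R : ℕ → ℕ) (v : ℕ) : lw R v =
    if h : ∃ n, R (encode (Nat.pair (pt (dl (Nat.unpair (Nat.unpair v).2).1 ++ [n])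
      (dl (Nat.unpair (Nat.unpair v).2).2)) 0 :: dl (Nat.unpair v).1)) = 1 then Nat.find h else 0 :=
  rfl

theorem lim_lw (h : Lim φ₀ φ k R W) : W = lw R := by
  classical
  funext v
  rw [E2_lw]
  obtain ⟨E, hE⟩ : ∃ E : ℕ → ℕ, ∀ n, encode (Nat.pair
      (pt (dl (Nat.unpair (Nat.unpair v).2).1 ++ [n]) (dl (Nat.unpair (Nat.unpair v).2).2)) 0 ::
        dl (Nat.unpair v).1) = E n := ⟨_, fun _ => rfl⟩
  simp only [hE]
  have hlw : ∀ R' : ℕ → ℕ, lw R' v = if h : ∃ n, R' (E n) = 1 then Nat.find h else 0 := by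
    intro R'
    rw [E2_lw]
    simp only [hE]
  by_cases hex : ∃ n, R (E n) = 1
  · rw [dif_pos hex]
    obtain ⟨A, M, a, -, h1, h2⟩ := E2_get h
      (v + (Finset.range (Nat.find hex + 1)).sup E + 1)
    have h3 : ∀ n ≤ Nat.find hex, rr M φ k a (E n) = R (E n) := fun n hn => h1 _ (by
      have : E n ≤ (Finset.range (Nat.find hex + 1)).sup E :=
        Finset.le_sup (Finset.mem_range.2 (by omega))
      omega)
    have h4 : ∃ n, rr M φ k a (E n) = 1 :=
      ⟨Nat.find hex, by rw [h3 _ le_rfl]; exact Nat.find_spec hex⟩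
    rw [← h2 v (by omega), hlw, dif_pos h4, Nat.find_eq_iff]
    refine ⟨by rw [h3 _ le_rfl]; exact Nat.find_spec hex, fun n hn => ?_⟩
    rw [h3 n hn.le]
    exact Nat.find_min hex hn
  · rw [dif_neg hex]
    obtain ⟨w, hw⟩ : ∃ w, w = W v := ⟨_, rfl⟩
    obtain ⟨A, M, a, -, h1, h2⟩ := E2_get h (v + E w + 1)
    have h3 := h2 v (by omega)
    rw [hlw] at h3
    by_cases h4 : ∃ n, rr M φ k a (E n) = 1
    · exfalso
      rw [dif_pos h4, ← hw] at h3
      have h5 := Nat.find_spec h4
      rw [h3, h1 _ (by omega)] at h5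
      exact hex ⟨w, h5⟩
    · rw [dif_neg h4] at h3
      exact h3.symm

end BW
end

section

/-!
# BW.N4 : `Π¹₁` predicates as sets of indices of well-orders

PROOF.  As `exists_wo_index` in `N2`: `s11_tree` for `P` gives `R` with
`P n x ↔ ∃ w, ∀ k, R n (pre x k) (pre w k) = true`.  The tree `T n x t :⇔ R n (pre x t.length) t = true`
is closed under prefixes (`Pfx`) and recursive; `kb_index` gives a primitive recursive `f`
with `Tot (f n) x`, `Rl (f n) x a b ↔ KB (T n x) a b`, so `Rl (f n) x = KB (T n x)` as relations.  `kb_isLin`,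
`kb_wf`, `kb_not_wf`.
-/

namespace BW

private theorem N4_recP {R : ℕ → List ℕ → List ℕ → Bool}
    (hR : Primrec (fun p : ℕ × List ℕ × List ℕ => R p.1 p.2.1 p.2.2)) :
    RecP (fun n x => R (Nat.unpair n).1
      (pre x (dl (Nat.unpair n).2).length) (dl (Nat.unpair n).2) = true) := by
  have h1 : Primrec (fun q : ℕ => R (Nat.unpair q).1
      (dl (Nat.unpair (Nat.unpair q).2).1) (dl (Nat.unpair (Nat.unpair q).2).2)) := by
    have hu1 : Primrec (fun q : ℕ => (Nat.unpair q).1) := Primrec.fst.comp Primrec.unpair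
    have hu2 : Primrec (fun q : ℕ => (Nat.unpair q).2) := Primrec.snd.comp Primrec.unpair
    exact hR.comp (Primrec.pair hu1
      (Primrec.pair (primrec_dl.comp (hu1.comp hu2)) (primrec_dl.comp (hu2.comp hu2))))
  have h2 : Rec (fun n x => Nat.pair (Nat.unpair n).1
      (Nat.pair (Encodable.encode (pre x (dl (Nat.unpair n).2).length)) (Nat.unpair n).2)) := by
    refine rec_pair (rec_fst rec_id) (rec_pair (rec_pre (rec_of_primrec ?_)) (rec_snd rec_id))
    exact Primrec.list_length.comp (primrec_dl.comp (Primrec.snd.comp Primrec.unpair))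
  refine recP_congr (recP_bool h1 h2) fun n x => ?_
  simp only [Nat.unpair_pair, dl_encode]

theorem wo_index {P : ℕ → (ℕ → ℕ) → Prop} (hP : S11 P) :
    ∃ f : ℕ → ℕ, Primrec f ∧ ∀ n x, Tot (f n) x ∧ IsLin (Rl (f n) x) ∧
      (WellFounded (strict (Rl (f n) x)) ↔ ¬ P n x) := by
  obtain ⟨R, hR, hR2, hR3⟩ := s11_tree hP
  obtain ⟨f, hf, hf2⟩ := kb_index
    (T := fun n x t => R n (pre x t.length) t = true) (N4_recP hR)
  refine ⟨f, hf, fun n x => ?_⟩
  obtain ⟨hT, hRl⟩ := hf2 n x
  have he : Rl (f n) x = KB (fun t => R n (pre x t.length) t = true) := by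
    funext a b
    exact propext (hRl a b)
  have hU : P n x ↔ ∃ w : ℕ → ℕ, ∀ k,
      R n (pre x (pre w k).length) (pre w k) = true := by
    simp only [pre_length]
    exact hR3 n x
  have hPf : Pfx (fun t => R n (pre x t.length) t = true) := by
    intro s t hst
    obtain ⟨u, hu⟩ := pre_append x (j := s.length) (k := (s ++ t).length)
      (by rw [List.length_append]; exact Nat.le_add_right _ _)
    refine hR2 n (pre x s.length) s u t (pre_length _ _) ?_
    rw [← hu]
    exact hst
  refine ⟨hT, ?_, ?_⟩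
  · rw [he]
    exact kb_isLin
  · rw [he, hU]
    constructor
    · intro h1 h2
      exact kb_not_wf h2 h1
    · intro h1
      exact kb_wf hPf h1

end BW
end
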