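import Pool.Agent.Lib.MP_62bfd3_lc.Mg.G003
import Pool.Agent.Lib.MP_62bfd3_lc.Mg.G002
import Pool.Agent.Lib.MP_62bfd3_lc.Mg.G001
import Pool.Agent.Lib.MP_62bfd3_lc.BW.M1

section

/-!
# BW.N2 : the set of indices of well-orders recursive in `z` is not `Σ¹₁ (z)`; overspill

PROOF of `exists_wo_index`.  `s11_tree` applied to `s11_U11` gives `R` with
`U11 n n x ↔ ∃ w, ∀ k, R (pair n n) (pre x k) (pre w k) = true`.  The tree `T n x t :⇔
R (pair n n) (pre x t.length) t = true` is closed under prefixes and recursive, so by `kb_index` there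
is a primitive recursive `f` with `Tot (f n) x`, `Rl (f n) x a b ↔ KB (T n x) a b`.  `KB` is linear
(`kb_isLin`); it is well-founded iff `T n x` has no path (`kb_wf`, `kb_not_wf`), iff `¬ U11 n n x`.
PROOF of `overspill`.  Suppose not.  Then for `n : ℕ`, `¬ U11 n n z ↔ Tot (f n) z ∧ IsLin (Rl (f n) z) ∧
S (f n) z`: `→` by `h`; `←`: otherwise `Rl (f n) z` is not well-founded, and `f n` would be as wanted.
The right-hand side is a `Σ¹₁` predicate of `n` and `z` (`s11_tot`, `s11_isLin`, `s11_subst`),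
contradicting `not_s11_diag`.
-/

namespace BW

private theorem N2_recP {R : ℕ → List ℕ → List ℕ → Bool}
    (hR : Primrec (fun p : ℕ × List ℕ × List ℕ => R p.1 p.2.1 p.2.2)) :
    RecP (fun n x => R (Nat.pair (Nat.unpair n).1 (Nat.unpair n).1)
      (pre x (dl (Nat.unpair n).2).length) (dl (Nat.unpair n).2) = true) := by
  have h1 : Primrec (fun q : ℕ => R (Nat.pair (Nat.unpair q).1 (Nat.unpair q).1)
      (dl (Nat.unpair (Nat.unpair q).2).1) (dl (Nat.unpair (Nat.unpair q).2).2)) := by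
    have hu1 : Primrec (fun q : ℕ => (Nat.unpair q).1) := Primrec.fst.comp Primrec.unpair
    have hu2 : Primrec (fun q : ℕ => (Nat.unpair q).2) := Primrec.snd.comp Primrec.unpair
    exact hR.comp (Primrec.pair (Primrec₂.natPair.comp hu1 hu1)
      (Primrec.pair (primrec_dl.comp (hu1.comp hu2)) (primrec_dl.comp (hu2.comp hu2))))
  have h2 : Rec (fun n x => Nat.pair (Nat.unpair n).1
      (Nat.pair (Encodable.encode (pre x (dl (Nat.unpair n).2).length)) (Nat.unpair n).2)) := by
    refine rec_pair (rec_fst rec_id) (rec_pair (rec_pre (rec_of_primrec ?_)) (rec_snd rec_id))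
    exact Primrec.list_length.comp (primrec_dl.comp (Primrec.snd.comp Primrec.unpair))
  refine recP_congr (recP_bool h1 h2) fun n x => ?_
  simp only [Nat.unpair_pair, dl_encode]

theorem exists_wo_index :
    ∃ f : ℕ → ℕ, Primrec f ∧ ∀ n x, Tot (f n) x ∧ IsLin (Rl (f n) x) ∧
      (WellFounded (strict (Rl (f n) x)) ↔ ¬ U11 n n x) := by
  obtain ⟨R, hR, hR2, hR3⟩ := s11_tree s11_U11
  obtain ⟨f, hf, hf2⟩ := kb_index
    (T := fun n x t => R (Nat.pair n n) (pre x t.length) t = true) (N2_recP hR)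
  refine ⟨f, hf, fun n x => ?_⟩
  obtain ⟨hT, hRl⟩ := hf2 n x
  have he : Rl (f n) x = KB (fun t => R (Nat.pair n n) (pre x t.length) t = true) := by
    funext a b
    exact propext (hRl a b)
  have hU : U11 n n x ↔ ∃ w : ℕ → ℕ, ∀ k,
      R (Nat.pair n n) (pre x (pre w k).length) (pre w k) = true := by
    have h1 := hR3 (Nat.pair n n) x
    rw [Nat.unpair_pair] at h1
    simp only [pre_length]
    exact h1
  have hP : Pfx (fun t => R (Nat.pair n n) (pre x t.length) t = true) := by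
    intro s t hst
    obtain ⟨u, hu⟩ := pre_append x (j := s.length) (k := (s ++ t).length)
      (by rw [List.length_append]; exact Nat.le_add_right _ _)
    refine hR2 (Nat.pair n n) (pre x s.length) s u t (pre_length _ _) ?_
    rw [← hu]
    exact hst
  refine ⟨hT, ?_, ?_⟩
  · rw [he]
    exact kb_isLin
  · rw [he, hU]
    constructor
    · intro h1 h2
      exact kb_not_wf h2 h1
    · intro h1
      exact kb_wf hP h1

theorem overspill {S : ℕ → (ℕ → ℕ) → Prop} (hS : S11 S) (z : ℕ → ℕ)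
    (h : ∀ c, Tot c z → IsWO (Rl c z) → S c z) :
    ∃ c, Tot c z ∧ IsLin (Rl c z) ∧ ¬ WellFounded (strict (Rl c z)) ∧ S c z := by
  obtain ⟨f, hf, hf2⟩ := exists_wo_index
  by_contra hcon
  refine not_s11_diag z ⟨fun n x => (Tot (f n) x ∧ IsLin (Rl (f n) x)) ∧ S (f n) x,
    s11_and (s11_and (s11_tot (C := fun n _ => f n) (F := fun _ x => x) (rec_of_primrec hf) recR_id)
      (s11_isLin (C := fun n _ => f n) (F := fun _ x => x) (rec_of_primrec hf) recR_id))
      (s11_subst (G := fun n _ => f n) (F := fun _ x => x) hS (rec_of_primrec hf) recR_id),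
    fun n => ?_⟩
  obtain ⟨h1, h2, h3⟩ := hf2 n z
  constructor
  · rintro ⟨_, h4⟩ h5
    exact hcon ⟨f n, h1, h2, fun h6 => h3.1 h6 h5, h4⟩
  · intro h4
    exact ⟨⟨h1, h2⟩, h (f n) h1 ⟨h2, h3.2 h4⟩⟩

end BW
end

section

/-!
# BW.B5 : Nadel's theorem: the Scott rank of `M` is at most `ω₁^M`

PROOFS.
* `nadel2` : let `s = a.map val`, `t = b.map val` and
  `S c x := ∃ Z, BSys (p1 x) (p2 x) Z (Rl c x) ∧ ∀ u, ¬ Rl c x u u ∨ Z (tr u s t) = 1`
  (`Σ¹₁` by `s11_bsys`, `s11_not_gr`; the lists `s`, `t` enter as constants).  For a well-order `Rl c x`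
  recursive in `x = jn y₁ y₂` the type of each segment is `< omega1 x` (the type of `Rl c x` is,
  `lt_of_index`, and segments have smaller types), so `exists_bsys`, `bsys_iff` and the hypothesis give `S c x`.
  By `overspill` there is `c` with `S c x` and `Rl c x` a linear order which is not well-founded;
  conclude by `iso_of_bsys`.
* `nadel` : `y = dgm ι M`; `strOf y` is isomorphic to `M` by `strOf_iso` (`f a = ι a`); apply `nadel2` to
  `y₁ = y₂ = y` and transport (`bf_iso`, `bf_trans`); `omega1 (jn y y) ≤ omega1 y` (`omega1_mono`).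
* `sr_le` : take a code `y` with `omega1 y = omega1Str M` (`exists_codes_eq`); by `nadel` and `bf_mono`
  the ordinal `omega1 y` belongs to the set whose infimum is `SR M`.
* `sr_prop` : `sr_spec`.
-/

namespace BW

variable {A : Type} {M : Str A}

private theorem b5_s11 (s t : List ℕ) :
    S11 (fun c x => ∃ Z : ℕ → ℕ, BSys (p1 x) (p2 x) Z (Rl c x) ∧
      ∀ u, ¬ Rl c x u u ∨ Z (tr u s t) = 1) := by
  have h1 : S11 (fun n v => BSys (p1 (p1 v)) (p2 (p1 v)) (p2 v) (Rl n (p1 v))) :=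
    s11_bsys (Y₁ := fun _ v => p1 (p1 v)) (Y₂ := fun _ v => p2 (p1 v)) (Z := fun _ v => p2 v)
      (C := fun n _ => n) (F := fun _ v => p1 v)
      (recR_p1 (recR_p1 recR_id)) (recR_p2 (recR_p1 recR_id)) (recR_p2 recR_id) rec_id
      (recR_p1 recR_id)
  have h2 : S11 (fun m v => ¬ Gr (Nat.unpair m).1 (p1 v)
      (Nat.pair (Nat.unpair m).2 (Nat.unpair m).2) 1 ∨
      (p2 v) (Nat.pair (Nat.unpair m).2 (Nat.pair (Encodable.encode s) (Encodable.encode t))) = 1) := by
    refine s11_or ?_ ?_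
    · exact s11_not_gr (C := fun m _ => (Nat.unpair m).1) (F := fun _ v => p1 v)
        (A := fun m _ => Nat.pair (Nat.unpair m).2 (Nat.unpair m).2) (B := fun _ _ => 1)
        (rec_fst rec_id) (recR_p1 recR_id) (rec_pair (rec_snd rec_id) (rec_snd rec_id))
        (rec_const 1)
    · refine s11_of_rec (recP_eq (G := fun m v => (p2 v) (Nat.pair (Nat.unpair m).2
        (Nat.pair (Encodable.encode s) (Encodable.encode t)))) (H := fun _ _ => 1) ?_ (rec_const 1))
      exact recR_app (F := fun _ v => p2 v)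
        (G := fun m _ => Nat.pair (Nat.unpair m).2
          (Nat.pair (Encodable.encode s) (Encodable.encode t)))
        (recR_p2 recR_id) (rec_pair (rec_snd rec_id) (rec_const _))
  have h3 := s11_exR (s11_and h1 (s11_all h2))
  refine s11_congr h3 fun n x => ?_
  simp only [p1_jn, p2_jn, Nat.unpair_pair, Rl, tr]

theorem nadel2 {y₁ y₂ : ℕ → ℕ} {a : List {n : ℕ // dom y₁ n}} {b : List {n : ℕ // dom y₂ n}}
    (h : ∀ β < omega1 (jn y₁ y₂), BF (strOf y₁) (strOf y₂) β a b) :
    ∃ f : {n : ℕ // dom y₁ n} ≃ {n : ℕ // dom y₂ n},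
      IsIso (strOf y₁) (strOf y₂) f ∧ a.map f = b := by
  have hS := b5_s11 (a.map Subtype.val) (b.map Subtype.val)
  obtain ⟨c, -, hlin, hnw, Z, hZ, hu⟩ := overspill hS (jn y₁ y₂) (by
    intro c htot hwo
    rw [p1_jn, p2_jn]
    obtain ⟨Z, hZ⟩ := exists_bsys y₁ y₂ hwo
    refine ⟨Z, hZ, fun u => ?_⟩
    by_cases hu : Rl c (jn y₁ y₂) u u
    · right
      obtain ⟨α, hα⟩ := exists_type hwo
      obtain ⟨β, hβ, hβt⟩ := hasType_seg_lt hwo.toIsLin hα hu
      exact (bsys_iff hwo hZ hu hβt a b).2 (h β (hβ.trans (lt_of_index htot hα)))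
    · exact Or.inl hu)
  rw [p1_jn, p2_jn] at hZ
  exact iso_of_bsys hlin hnw hZ a b fun u hu' => (hu u).resolve_left (not_not.2 hu')

theorem nadel {y : ℕ → ℕ} (hy : Codes y M) {a b : List A}
    (h : ∀ β < omega1 y, BF M M β a b) : ∃ f : A ≃ A, IsIso M M f ∧ a.map f = b := by
  obtain ⟨ι, hι, rfl⟩ := hy
  obtain ⟨f, hf, -⟩ := strOf_iso (M := M) hι
  have hle : omega1 (jn (dgm ι M) (dgm ι M)) ≤ omega1 (dgm ι M) :=
    omega1_mono (funIn_of_recR (F := fun _ x => jn x x) (recR_jn recR_id recR_id) (dgm ι M) 0)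
  obtain ⟨g, hg, hgab⟩ := nadel2 (y₁ := dgm ι M) (y₂ := dgm ι M) (a := a.map f) (b := b.map f)
    (fun β hβ => bf_trans (bf_symm (bf_iso hf β a))
      (bf_trans (h β (hβ.trans_le hle)) (bf_iso hf β b)))
  refine ⟨f.trans (g.trans f.symm), isIso_trans hf (isIso_trans hg (isIso_symm hf)), ?_⟩
  have h1 : a.map (f.trans (g.trans f.symm)) = ((a.map f).map g).map f.symm := by
    simp [List.map_map, Function.comp_def]
  rw [h1, hgab]
  simp [List.map_map, Function.comp_def]

private theorem b5_mem [Countable A] (M : Str A) :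
    ∀ a b : List A, BF M M (omega1Str M) a b → ∃ f : A ≃ A, IsIso M M f ∧ a.map f = b := by
  intro a b h
  obtain ⟨y, hy, hyo⟩ := exists_codes_eq (M := M)
  exact nadel hy fun β hβ => bf_mono (hyo ▸ hβ.le) h

theorem sr_le [Countable A] (M : Str A) : SR M ≤ omega1Str M := by
  exact csInf_le (OrderBot.bddBelow _) (b5_mem M)

theorem sr_prop [Countable A] (M : Str A) {a b : List A} (h : BF M M (SR M) a b) :
    ∃ f : A ≃ A, IsIso M M f ∧ a.map f = b := by
  exact sr_spec ⟨_, b5_mem M⟩ a b h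

end BW
end

section

/-!
# BW.G4 : uniform composition of oracle functions

PROOF of `gr_sub` (generalises `gr_comp`, the proof is the same).  Let `γ`, `φ` be primitive recursive
monotone approximations of `C` and of `fun m x => F (unpair m).1 x (unpair m).2`.  Consider the (not total)
recursive function of `a` and the number `encode (n, s)` which does the following: it writes
`s.length = pair (pair k j) i`; if `j ≤ k`, `γ a s = some c` and all the values `φ (pair a i') s`,
`i' < j`, are defined, `l` the list of these values, then it returns `evaln k (ofNatCode c)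
(encode (n, l))` (undefined if this is `none`, or in the other cases).  Let `c₀` be a code of this
(not total) recursive function of `pair a (encode (n, s))` (`Nat.Partrec.Code.exists_code`) and
`f a = encode (curry c₀ a)` (`Nat.Partrec.Code.curry`, `eval_curry`; primitive recursive:
`Nat.Partrec.Code.primrec₂_curry`).  `Gr (f a) x n m` holds iff for some `s = pre x j'` the function
returns `m` on `(a, encode (n, s))` (`evaln_complete`, `evaln_mono`: the bound `k' ≥ j'` is harmless),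
iff for some `j ≤ k`: `evaln k (ofNatCode (C a x)) (encode (n, pre (F a x) j)) = some m` (`←`: choose `i`
so large that all the approximations are defined at the length `pair (pair k j) i ≥ i`
(`Nat.right_le_pair`), and they have the right values by `rec_unique`).
-/

namespace BW

open Encodable Nat.Partrec

private theorem G4_gr {c : ℕ} {x : ℕ → ℕ} {n m : ℕ} :
    Gr c x n m ↔ ∃ j, m ∈ (Code.ofNatCode c).eval (encode (n, pre x j)) := by
  constructor
  · rintro ⟨k, j, _, h⟩
    exact ⟨j, Code.evaln_sound (Option.mem_def.2 h)⟩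
  · rintro ⟨j, h⟩
    obtain ⟨k, hk⟩ := Code.evaln_complete.1 h
    exact ⟨max k j, j, le_max_right _ _, Option.mem_def.1 (Code.evaln_mono (le_max_left _ _) hk)⟩

private theorem G4_code {G : ℕ → ℕ → List ℕ → Option ℕ}
    (hG : Primrec (fun p : ℕ × ℕ × List ℕ => G p.1 p.2.1 p.2.2)) :
    ∃ f : ℕ → ℕ, Primrec f ∧ ∀ a x n m, Gr (f a) x n m ↔ ∃ j, G a n (pre x j) = some m := by
  have h1 : Primrec fun z : ℕ => (decode (α := ℕ × List ℕ) (Nat.unpair z).2).bind
      fun q => G (Nat.unpair z).1 q.1 q.2 := by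
    refine Primrec.option_bind (Primrec.decode.comp (Primrec.snd.comp Primrec.unpair)) ?_
    exact hG.comp ((Primrec.fst.comp (Primrec.unpair.comp Primrec.fst)).pair
      ((Primrec.fst.comp Primrec.snd).pair (Primrec.snd.comp Primrec.snd)))
  obtain ⟨c, hc⟩ := Code.exists_code.1 (Partrec.nat_iff.1 (Computable.ofOption h1.to_comp))
  refine ⟨fun a => encode (Code.curry c a), Primrec.encode.comp
    (Code.primrec₂_curry.comp (Primrec.const c) Primrec.id), fun a x n m => ?_⟩
  rw [G4_gr]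
  refine exists_congr fun j => ?_
  rw [← Code.ofNatCode_eq, Denumerable.ofNat_encode, Code.eval_curry, hc]
  simp

/-- the list of the first `j` values, if they can be computed -/
private def G4_vals (g : ℕ → List ℕ → Option ℕ) (a : ℕ) (s : List ℕ) (j : ℕ) :
    Option (List ℕ) :=
  Nat.rec (some []) (fun i o => o.bind fun l => (g (Nat.pair a i) s).map fun v => l ++ [v]) j

private theorem G4_vals_primrec {g : ℕ → List ℕ → Option ℕ} (hg : Primrec₂ g) :
    Primrec fun p : (ℕ × List ℕ) × ℕ => G4_vals g p.1.1 p.1.2 p.2 := by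
  have h1 : Primrec fun q : (((ℕ × List ℕ) × ℕ) × ℕ × Option (List ℕ)) × List ℕ =>
      g (Nat.pair q.1.1.1.1 q.1.2.1) q.1.1.1.2 :=
    hg.comp (Primrec₂.natPair.comp (Primrec.fst.comp (Primrec.fst.comp
      (Primrec.fst.comp Primrec.fst))) (Primrec.fst.comp (Primrec.snd.comp Primrec.fst)))
      (Primrec.snd.comp (Primrec.fst.comp (Primrec.fst.comp Primrec.fst)))
  have h2 : Primrec₂ fun (q : (((ℕ × List ℕ) × ℕ) × ℕ × Option (List ℕ)) × List ℕ) (v : ℕ) =>
      q.2 ++ [v] := Primrec.list_concat.comp (Primrec.snd.comp Primrec.fst) Primrec.snd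
  have h3 : Primrec₂ fun (q : ((ℕ × List ℕ) × ℕ) × ℕ × Option (List ℕ)) (l : List ℕ) =>
      (g (Nat.pair q.1.1.1 q.2.1) q.1.1.2).map fun v => l ++ [v] := Primrec.option_map h1 h2
  have h4 : Primrec₂ fun (p : (ℕ × List ℕ) × ℕ) (q : ℕ × Option (List ℕ)) =>
      q.2.bind fun l => (g (Nat.pair p.1.1 q.1) p.1.2).map fun v => l ++ [v] :=
    Primrec.option_bind (Primrec.snd.comp Primrec.snd) h3
  exact Primrec.nat_rec' (f := fun p : (ℕ × List ℕ) × ℕ => p.2) (g := fun _ => some [])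
    Primrec.snd (Primrec.const _) h4

private theorem G4_vals_eq {g : ℕ → List ℕ → Option ℕ} {y : ℕ → ℕ} {a : ℕ} {s : List ℕ}
    (h : ∀ i v, g (Nat.pair a i) s = some v → v = y i) (j : ℕ) (l : List ℕ)
    (hl : G4_vals g a s j = some l) : l = pre y j := by
  induction j generalizing l with
  | zero => exact (Option.some_injective _ hl).symm
  | succ j ih =>
    obtain ⟨l', h1, h2⟩ := Option.bind_eq_some_iff.1 hl
    obtain ⟨v, h3, h4⟩ := Option.map_eq_some_iff.1 h2
    rw [pre_succ, ← ih l' h1, ← h _ v h3]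
    exact h4.symm

private theorem G4_vals_ex {g : ℕ → List ℕ → Option ℕ} {y x : ℕ → ℕ} {a : ℕ}
    (hm : ∀ n s t y, g n s = some y → g n (s ++ t) = some y)
    (hv : ∀ i, ∃ k, g (Nat.pair a i) (pre x k) = some (y i)) (j : ℕ) :
    ∃ K, ∀ k, K ≤ k → G4_vals g a (pre x k) j = some (pre y j) := by
  induction j with
  | zero => exact ⟨0, fun k _ => rfl⟩
  | succ j ih =>
    obtain ⟨K, hK⟩ := ih
    obtain ⟨K', hK'⟩ := hv j
    refine ⟨max K K', fun k hk => ?_⟩
    obtain ⟨t, ht⟩ := pre_append x (le_of_max_le_right hk)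
    show (G4_vals g a (pre x k) j).bind (fun l => (g (Nat.pair a j) (pre x k)).map
      fun v => l ++ [v]) = _
    rw [hK k (le_of_max_le_left hk), ht, hm _ _ t _ hK', pre_succ]
    rfl

theorem gr_sub {C : ℕ → (ℕ → ℕ) → ℕ} {F : ℕ → (ℕ → ℕ) → ℕ → ℕ} (hC : Rec C) (hF : RecR F) :
    ∃ f : ℕ → ℕ, Primrec f ∧ ∀ a x n m,
      Gr (f a) x n m ↔ Gr (C a x) (F a x) n m := by
  obtain ⟨γ, hγ, hγm, hγv⟩ := hC
  obtain ⟨g, hg, hm, hv⟩ := hF
  have hv' : ∀ a i x, ∃ k, g (Nat.pair a i) (pre x k) = some (F a x i) := by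
    intro a i x
    have h := hv (Nat.pair a i) x
    simpa only [Nat.unpair_pair] using h
  have hG : Primrec (fun p : ℕ × ℕ × List ℕ =>
      (G4_vals g p.1 p.2.2 (Nat.unpair (Nat.unpair p.2.2.length).1).2).bind
      fun l => (γ p.1 p.2.2).bind fun c => Code.evaln (Nat.unpair (Nat.unpair p.2.2.length).1).1
        (Code.ofNatCode c) (encode (p.2.1, l))) := by
    have hlen : Primrec fun p : ℕ × ℕ × List ℕ => (Nat.unpair p.2.2.length).1 :=
      Primrec.fst.comp (Primrec.unpair.comp (Primrec.list_length.comp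
        (Primrec.snd.comp Primrec.snd)))
    have hcode : Primrec fun n : ℕ => Code.ofNatCode n := by
      rw [← Code.ofNatCode_eq]
      exact Primrec.ofNat Code
    refine Primrec.option_bind ?_ ?_
    · exact (G4_vals_primrec hg).comp ((Primrec.fst.pair (Primrec.snd.comp Primrec.snd)).pair
        (Primrec.snd.comp (Primrec.unpair.comp hlen)))
    · have hin : Primrec fun q : (ℕ × ℕ × List ℕ) × List ℕ => γ q.1.1 q.1.2.2 :=
        hγ.comp (Primrec.fst.comp Primrec.fst)
          (Primrec.snd.comp (Primrec.snd.comp Primrec.fst))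
      have h2 : Primrec₂ fun (q : (ℕ × ℕ × List ℕ) × List ℕ) (c : ℕ) =>
          Code.evaln (Nat.unpair (Nat.unpair q.1.2.2.length).1).1 (Code.ofNatCode c)
            (encode (q.1.2.1, q.2)) :=
        Code.primrec_evaln.comp (((Primrec.fst.comp (Primrec.unpair.comp
          (hlen.comp (Primrec.fst.comp Primrec.fst)))).pair (hcode.comp Primrec.snd)).pair
          (Primrec.encode.comp ((Primrec.fst.comp (Primrec.snd.comp (Primrec.fst.comp
            Primrec.fst))).pair (Primrec.snd.comp Primrec.fst))))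
      exact Primrec.option_bind hin h2
  obtain ⟨f, hf, hf'⟩ := G4_code (G := fun a n s =>
    (G4_vals g a s (Nat.unpair (Nat.unpair s.length).1).2).bind
      fun l => (γ a s).bind fun c => Code.evaln (Nat.unpair (Nat.unpair s.length).1).1
        (Code.ofNatCode c) (encode (n, l))) hG
  refine ⟨f, hf, fun a x n m => (hf' _ x n m).trans ?_⟩
  rw [G4_gr]
  simp only [pre_length]
  constructor
  · rintro ⟨J, hJ⟩
    obtain ⟨l, h1, h2⟩ := Option.bind_eq_some_iff.1 hJ
    obtain ⟨c, h4, h5⟩ := Option.bind_eq_some_iff.1 h2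
    have h3 := G4_vals_eq (y := F a x) (fun i v h => rec_unique (hm _) (hv' a i x) h) _ l h1
    have h6 : c = C a x := rec_unique (hγm a) (hγv a x) h4
    rw [h3, h6] at h5
    exact ⟨_, Code.evaln_sound (Option.mem_def.2 h5)⟩
  · rintro ⟨j, hj⟩
    obtain ⟨k, hk⟩ := Code.evaln_complete.1 hj
    obtain ⟨K, hK⟩ := G4_vals_ex hm (fun i => hv' a i x) j
    obtain ⟨K', hK'⟩ := hγv a x
    refine ⟨Nat.pair (Nat.pair k j) (max K K'), ?_⟩
    have hle : max K K' ≤ Nat.pair (Nat.pair k j) (max K K') := Nat.right_le_pair _ _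
    obtain ⟨t, ht⟩ := pre_append x ((le_max_right K K').trans hle)
    have hc : γ a (pre x (Nat.pair (Nat.pair k j) (max K K'))) = some (C a x) := by
      rw [ht]
      exact hγm _ _ t _ hK'
    simp only [Nat.unpair_pair]
    rw [hK _ ((le_max_left K K').trans hle), hc]
    exact hk

/-- index of evaluation -/
theorem gr_eval {F : ℕ → (ℕ → ℕ) → ℕ → ℕ} (hF : RecR F) :
    ∃ f : ℕ → ℕ, Primrec f ∧ ∀ a x n m, Gr (f a) x n m ↔ F a x n = m := by
  obtain ⟨f, hf, hf'⟩ := gr_smn hF
  refine ⟨f, hf, fun a x n m => (hf' a x n m).trans ?_⟩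
  rw [Nat.unpair_pair]

end BW
end

section

/-!
# BW.N1 : the `Σ¹₁` bounding theorem

PROOF of `bounding`.  By `s11_tree`, `P n u ↔ ∃ w, ∀ k, R n (pre u k) (pre w k) = true`.
Consider the tree `T` of the lists `l` of numbers (codes of quadruples `(x_i, w_i, d_i, v_i)`;
`k = l.length`, `s` the list of the `x_i`, `t` the list of the `w_i`, `σ` the list
`Nat.pair (z i) x_i`, `i < k`, which is `pre (jn z x) k` when `s = pre x k`) such that
(a) `R n σ t = true`, more precisely `R n (σ.take j) (t.take j) = true` for all `j ≤ k`, and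
(b) for all `i` with `i + 1 < k`: `d_{i+1} ≠ d_i`, and with `v_{i+1} = pair k' j'` : `j' ≤ k'`, and if `j' ≤ k`
then `evaln k' (ofNatCode c) (encode (pair d_{i+1} d_i, σ.take j')) = some 1`.
`T` is closed under prefixes (`Pfx`; for (b) note that `σ.take j'` does not change) and recursive in
`z` (as a predicate `RecP (fun _ z => T z (dl ..))`: everything is primitive recursive in `l` and
`pre z k`).  `T` has no infinite path: a path gives reals `x, w, d, v` with `R n (pre (jn z x) k) (pre w k)`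
for all `k`, so `P n (jn z x)`, and `Gr c (jn z x) (pair d_{i+1} d_i) 1`, i.e. `strict (Rl c (jn z x))
(d (i+1)) (d i)` for all `i`: an infinite descending sequence, contradicting `h`.
So `KB T` is a well-order (`kb_wf`, `kb_isLin`), it has an index relative to `z` (`kb_index`), so its
type `α` is `< omega1 z` (`lt_of_index`, `exists_type`).
Let `P n (jn z x)` with witness `w` and `HasType (Rl c (jn z x)) β`.  Choose for each pair `(a, b)` with
`Rl c (jn z x) a b` a number `v a b = pair k' j'` with `j' ≤ k'` and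
`evaln k' .. (encode (pair a b, pre (jn z x) j')) = some 1`.  Send the descending list `d = [d_0, ..]` to the
list of the `(x i, w i, d_i, v d_i d_{i-1})` (`v_0 = 0`).  This is a node of `T` and the map adds one
entry when `d` is prolonged by one entry, so `β < α` by `type_lt_of_hom`.
-/

namespace BW

/-- first component -/
private def N1x (e : ℕ) : ℕ := e.unpair.1.unpair.1
/-- second component -/
private def N1w (e : ℕ) : ℕ := e.unpair.1.unpair.2
/-- third component -/
private def N1d (e : ℕ) : ℕ := e.unpair.2.unpair.1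
/-- fourth component -/
private def N1v (e : ℕ) : ℕ := e.unpair.2.unpair.2

private theorem N1x_primrec : Primrec N1x :=
  Primrec.fst.comp (Primrec.unpair.comp (Primrec.fst.comp Primrec.unpair))
private theorem N1w_primrec : Primrec N1w :=
  Primrec.snd.comp (Primrec.unpair.comp (Primrec.fst.comp Primrec.unpair))
private theorem N1d_primrec : Primrec N1d :=
  Primrec.fst.comp (Primrec.unpair.comp (Primrec.snd.comp Primrec.unpair))
private theorem N1v_primrec : Primrec N1v :=
  Primrec.snd.comp (Primrec.unpair.comp (Primrec.snd.comp Primrec.unpair))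

/-- the condition (b) at the place `i` -/
private def N1C (c : ℕ) (z : ℕ → ℕ) (l : List ℕ) (i : ℕ) : Prop :=
  N1d (l.getD (i + 1) 0) ≠ N1d (l.getD i 0) ∧
  (N1v (l.getD (i + 1) 0)).unpair.2 ≤ (N1v (l.getD (i + 1) 0)).unpair.1 ∧
  ((N1v (l.getD (i + 1) 0)).unpair.2 ≤ l.length →
    Nat.Partrec.Code.evaln (N1v (l.getD (i + 1) 0)).unpair.1 (Nat.Partrec.Code.ofNatCode c)
      (Encodable.encode (Nat.pair (N1d (l.getD (i + 1) 0)) (N1d (l.getD i 0)),
        pre (jn z (fun k => N1x (l.getD k 0))) (N1v (l.getD (i + 1) 0)).unpair.2)) = some 1)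

/-- the tree -/
private def N1T (R : ℕ → List ℕ → List ℕ → Bool) (n c : ℕ) (z : ℕ → ℕ) (l : List ℕ) : Prop :=
  R n (pre (jn z (fun k => N1x (l.getD k 0))) l.length)
    (pre (fun k => N1w (l.getD k 0)) l.length) = true ∧
  ∀ i, i + 1 < l.length → N1C c z l i

private theorem N1_enc (a : ℕ) (l : List ℕ) :
    Encodable.encode (a, l) = Nat.pair a (Encodable.encode l) := by
  rw [Encodable.encode_prod_val]
  rfl

private theorem N1_ev (c : ℕ) {K A J : ℕ → ℕ} {F : ℕ → (ℕ → ℕ) → ℕ → ℕ} (hK : Primrec K)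
    (hA : Primrec A) (hE : Rec (fun m x => Encodable.encode (pre (F m x) (J m)))) :
    RecP (fun m x => Nat.Partrec.Code.evaln (K m) (Nat.Partrec.Code.ofNatCode c)
      (Encodable.encode (A m, pre (F m x) (J m))) = some 1) := by
  have hf : Primrec (fun y : ℕ => decide (Nat.Partrec.Code.evaln y.unpair.1
      (Nat.Partrec.Code.ofNatCode c) y.unpair.2 = some 1)) := by
    have h : Primrec (fun y : ℕ => Nat.Partrec.Code.evaln y.unpair.1
        (Nat.Partrec.Code.ofNatCode c) y.unpair.2) :=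
      Nat.Partrec.Code.primrec_evaln.comp
        (((Primrec.fst.comp Primrec.unpair).pair (Primrec.const _)).pair
          (Primrec.snd.comp Primrec.unpair))
    exact (PrimrecRel.comp Primrec.eq h (Primrec.const (some 1))).decide
  refine recP_congr (recP_bool hf (rec_pair (rec_of_primrec hK)
    (rec_pair (rec_of_primrec hA) hE))) fun m x => ?_
  rw [N1_enc, Nat.unpair_pair, decide_eq_true_eq]

private theorem N1_recG (c : ℕ) {D1 D0 K J L : ℕ → ℕ} {F : ℕ → (ℕ → ℕ) → ℕ → ℕ}
    (h1 : Primrec D1) (h0 : Primrec D0) (hK : Primrec K) (hJ : Primrec J) (hL : Primrec L)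
    (hF : RecR F) :
    RecP (fun m x => D1 m ≠ D0 m ∧ J m ≤ K m ∧ (J m ≤ L m →
      Nat.Partrec.Code.evaln (K m) (Nat.Partrec.Code.ofNatCode c)
        (Encodable.encode (Nat.pair (D1 m) (D0 m), pre (F m x) (J m))) = some 1)) := by
  have hE : Rec (fun (m : ℕ) (x : ℕ → ℕ) => Encodable.encode (pre (F m x) (J m))) :=
    rec_substR (H := fun j y => Encodable.encode (pre y j)) (rec_pre rec_id)
      (rec_of_primrec hJ) hF
  exact recP_and (recP_not (recP_eq (rec_of_primrec h1) (rec_of_primrec h0)))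
    (recP_and (recP_le (rec_of_primrec hJ) (rec_of_primrec hK))
      (recP_imp (recP_le (rec_of_primrec hJ) (rec_of_primrec hL))
        (N1_ev c hK (Primrec₂.natPair.comp h1 h0) hE)))

private theorem N1_recC (c : ℕ) :
    RecP (fun m x => N1C c x (dl m.unpair.1.unpair.2) m.unpair.2) := by
  have hl : Primrec (fun m : ℕ => dl m.unpair.1.unpair.2) :=
    primrec_dl.comp (Primrec.snd.comp (Primrec.unpair.comp (Primrec.fst.comp Primrec.unpair)))
  have hi : Primrec (fun m : ℕ => m.unpair.2) := Primrec.snd.comp Primrec.unpair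
  have hi1 : Primrec (fun m : ℕ => m.unpair.2 + 1) := Primrec.succ.comp hi
  have h1 : Primrec (fun m : ℕ => (dl m.unpair.1.unpair.2).getD (m.unpair.2 + 1) 0) :=
    (Primrec.list_getD 0).comp hl hi1
  have h0 : Primrec (fun m : ℕ => (dl m.unpair.1.unpair.2).getD m.unpair.2 0) :=
    (Primrec.list_getD 0).comp hl hi
  have hv := N1v_primrec.comp h1
  have hF : RecR (fun (m : ℕ) (x : ℕ → ℕ) =>
      jn x (fun k => N1x ((dl m.unpair.1.unpair.2).getD k 0))) := by
    refine recR_jn recR_id ?_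
    have hp : Primrec (fun q : ℕ =>
        N1x ((dl q.unpair.1.unpair.1.unpair.2).getD q.unpair.2 0)) :=
      N1x_primrec.comp ((Primrec.list_getD 0).comp
        (hl.comp (Primrec.fst.comp Primrec.unpair)) hi)
    exact rec_of_primrec hp
  exact N1_recG c (N1d_primrec.comp h1) (N1d_primrec.comp h0)
    (Primrec.fst.comp (Primrec.unpair.comp hv)) (Primrec.snd.comp (Primrec.unpair.comp hv))
    (Primrec.list_length.comp hl) hF

private theorem N1_recT {R : ℕ → List ℕ → List ℕ → Bool}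
    (hR : Primrec (fun p : ℕ × List ℕ × List ℕ => R p.1 p.2.1 p.2.2)) (n c : ℕ) :
    RecP (fun m x => N1T R n c x (dl m.unpair.2)) := by
  have hl : Primrec (fun m : ℕ => dl m.unpair.2) :=
    primrec_dl.comp (Primrec.snd.comp Primrec.unpair)
  have hlen : Primrec (fun m : ℕ => (dl m.unpair.2).length) :=
    Primrec.list_length.comp hl
  have hF : RecR (fun (m : ℕ) (x : ℕ → ℕ) =>
      jn x (fun k => N1x ((dl m.unpair.2).getD k 0))) := by
    refine recR_jn recR_id ?_
    have hp : Primrec (fun q : ℕ => N1x ((dl q.unpair.1.unpair.2).getD q.unpair.2 0)) :=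
      N1x_primrec.comp ((Primrec.list_getD 0).comp
        (hl.comp (Primrec.fst.comp Primrec.unpair)) (Primrec.snd.comp Primrec.unpair))
    exact rec_of_primrec hp
  have hW : RecR (fun (m : ℕ) (_ : ℕ → ℕ) => (fun k => N1w ((dl m.unpair.2).getD k 0))) := by
    have hp : Primrec (fun q : ℕ => N1w ((dl q.unpair.1.unpair.2).getD q.unpair.2 0)) :=
      N1w_primrec.comp ((Primrec.list_getD 0).comp
        (hl.comp (Primrec.fst.comp Primrec.unpair)) (Primrec.snd.comp Primrec.unpair))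
    exact rec_of_primrec hp
  have hE : Rec (fun (m : ℕ) (x : ℕ → ℕ) => Encodable.encode
      (pre (jn x (fun k => N1x ((dl m.unpair.2).getD k 0))) (dl m.unpair.2).length)) :=
    rec_substR (H := fun j y => Encodable.encode (pre y j)) (rec_pre rec_id)
      (rec_of_primrec hlen) hF
  have hE' : Rec (fun (m : ℕ) (_ : ℕ → ℕ) => Encodable.encode
      (pre (fun k => N1w ((dl m.unpair.2).getD k 0)) (dl m.unpair.2).length)) :=
    rec_substR (H := fun j y => Encodable.encode (pre y j)) (rec_pre rec_id)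
      (rec_of_primrec hlen) hW
  have hf : Primrec (fun y : ℕ => R n (dl y.unpair.1) (dl y.unpair.2)) :=
    hR.comp ((Primrec.const n).pair ((primrec_dl.comp (Primrec.fst.comp Primrec.unpair)).pair
      (primrec_dl.comp (Primrec.snd.comp Primrec.unpair))))
  refine recP_and ?_ ?_
  · refine recP_congr (recP_bool hf (rec_pair hE hE')) fun m x => ?_
    simp only [Nat.unpair_pair, dl_encode]
  · have hlen1 : Primrec (fun m : ℕ => (dl m.unpair.2).length - 1) :=
      Primrec.nat_sub.comp hlen (Primrec.const 1)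
    refine recP_congr (recP_ball (N1_recC c) (rec_of_primrec hlen1)) fun m x => ?_
    simp only [Nat.unpair_pair]
    constructor
    · intro h i hi
      exact h i (by omega)
    · intro h i hi
      exact h i (by omega)

private theorem N1_getD_pre (F : ℕ → ℕ) {k i : ℕ} (h : i < k) : (pre F k).getD i 0 = F i := by
  rw [List.getD_eq_getElem?_getD, pre_getElem? F h]
  rfl

private theorem N1_getD_append (s t : List ℕ) {i : ℕ} (h : i < s.length) :
    (s ++ t).getD i 0 = s.getD i 0 := by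
  rw [List.getD_eq_getElem?_getD, List.getD_eq_getElem?_getD, List.getElem?_append_left h]

private theorem N1_pfx {R : ℕ → List ℕ → List ℕ → Bool}
    (hcl : ∀ n s t s' t', s.length = t.length → R n (s ++ s') (t ++ t') = true →
      R n s t = true) (n c : ℕ) (z : ℕ → ℕ) : Pfx (N1T R n c z) := by
  intro s t ⟨h1, h2⟩
  have hx : ∀ j ≤ s.length, pre (jn z (fun k => N1x ((s ++ t).getD k 0))) j =
      pre (jn z (fun k => N1x (s.getD k 0))) j := by
    intro j hj
    refine pre_congr fun i hi => ?_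
    simp only [jn]
    rw [N1_getD_append s t (by omega)]
  have hw : pre (fun k => N1w ((s ++ t).getD k 0)) s.length =
      pre (fun k => N1w (s.getD k 0)) s.length := by
    refine pre_congr fun i hi => ?_
    rw [N1_getD_append s t (by omega)]
  constructor
  · have hle : s.length ≤ (s ++ t).length := by simp
    obtain ⟨s', hs'⟩ := pre_append (jn z (fun k => N1x ((s ++ t).getD k 0))) hle
    obtain ⟨t', ht'⟩ := pre_append (fun k => N1w ((s ++ t).getD k 0)) hle
    rw [hs', ht'] at h1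
    have h3 := hcl n _ _ s' t' (by rw [pre_length, pre_length]) h1
    rw [hx _ le_rfl, hw] at h3
    exact h3
  · intro i hi
    obtain ⟨a1, a2, a3⟩ := h2 i (by simp; omega)
    rw [N1_getD_append s t hi, N1_getD_append s t (by omega : i < s.length)] at a1 a3
    rw [N1_getD_append s t hi] at a2
    refine ⟨a1, a2, fun h => ?_⟩
    have h4 := a3 (h.trans (by simp))
    rw [hx _ h] at h4
    exact h4

private theorem N1_no_desc {S : ℕ → ℕ → Prop} (hS : WellFounded S) (d : ℕ → ℕ)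
    (h : ∀ i, S (d (i + 1)) (d i)) : False := by
  have hne : (Set.range d).Nonempty := ⟨d 0, 0, rfl⟩
  obtain ⟨m, ⟨i, rfl⟩, hm⟩ := hS.has_min (Set.range d) hne
  exact hm (d (i + 1)) ⟨i + 1, rfl⟩ (h i)

private theorem N1_path {R : ℕ → List ℕ → List ℕ → Bool} {n c : ℕ} {z : ℕ → ℕ} {u : ℕ → ℕ}
    (hu : ∀ k, N1T R n c z (pre u k)) :
    (∀ k, R n (pre (jn z (fun i => N1x (u i))) k) (pre (fun i => N1w (u i)) k) = true) ∧
    ∀ i, strict (Rl c (jn z (fun i => N1x (u i)))) (N1d (u (i + 1))) (N1d (u i)) := by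
  have hx : ∀ k j, j ≤ k → pre (jn z (fun i => N1x ((pre u k).getD i 0))) j =
      pre (jn z (fun i => N1x (u i))) j := by
    intro k j hj
    refine pre_congr fun i hi => ?_
    simp only [jn]
    rw [N1_getD_pre u (by omega)]
  constructor
  · intro k
    have h := (hu k).1
    have hw : pre (fun i => N1w ((pre u k).getD i 0)) k = pre (fun i => N1w (u i)) k := by
      refine pre_congr fun i hi => ?_
      rw [N1_getD_pre u hi]
    rw [pre_length, hx k k le_rfl, hw] at h
    exact h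
  · intro i
    set j' := (N1v (u (i + 1))).unpair.2 with hj'
    set k' := (N1v (u (i + 1))).unpair.1 with hk'
    obtain ⟨a1, a2, a3⟩ := (hu (i + 2 + j')).2 i (by rw [pre_length]; omega)
    rw [N1_getD_pre u (by omega : i + 1 < i + 2 + j'),
      N1_getD_pre u (by omega : i < i + 2 + j')] at a1 a3
    rw [N1_getD_pre u (by omega : i + 1 < i + 2 + j')] at a2
    rw [pre_length] at a3
    have a4 := a3 (by omega)
    rw [hx _ _ (by omega)] at a4
    exact ⟨⟨_, _, a2, a4⟩, a1⟩

open Classical in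
/-- the numbers `v a b` -/
private noncomputable def N1V (c : ℕ) (y : ℕ → ℕ) (a b : ℕ) : ℕ :=
  if h : Rl c y a b then Nat.pair h.choose h.choose_spec.choose else 0

private theorem N1V_spec {c : ℕ} {y : ℕ → ℕ} {a b : ℕ} (h : Rl c y a b) :
    (N1V c y a b).unpair.2 ≤ (N1V c y a b).unpair.1 ∧
    Nat.Partrec.Code.evaln (N1V c y a b).unpair.1 (Nat.Partrec.Code.ofNatCode c)
      (Encodable.encode (Nat.pair a b, pre y (N1V c y a b).unpair.2)) = some 1 := by
  rw [N1V, dif_pos h, Nat.unpair_pair]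
  exact h.choose_spec.choose_spec

/-- the value of the map at the descending list `d` and the place `i` -/
private noncomputable def N1F (c : ℕ) (z x w : ℕ → ℕ) (d : List ℕ) (i : ℕ) : ℕ :=
  Nat.pair (Nat.pair (x i) (w i))
    (Nat.pair (d.getD i 0) (N1V c (jn z x) (d.getD i 0) (d.getD (i - 1) 0)))

private theorem N1_node {R : ℕ → List ℕ → List ℕ → Bool} {n c : ℕ} {z x w : ℕ → ℕ}
    (hw : ∀ k, R n (pre (jn z x) k) (pre w k) = true) {d : List ℕ}
    (hd : Desc (Rl c (jn z x)) d) : N1T R n c z (pre (N1F c z x w d) d.length) := by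
  have hx : ∀ j ≤ d.length,
      pre (jn z (fun k => N1x ((pre (N1F c z x w d) d.length).getD k 0))) j =
      pre (jn z x) j := by
    intro j hj
    refine pre_congr fun i hi => ?_
    simp only [jn]
    rw [N1_getD_pre _ (by omega)]
    simp [N1F, N1x]
  constructor
  · rw [pre_length, hx _ le_rfl]
    have hw' : pre (fun k => N1w ((pre (N1F c z x w d) d.length).getD k 0)) d.length =
        pre w d.length := by
      refine pre_congr fun i hi => ?_
      rw [N1_getD_pre _ hi]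
      simp [N1F, N1w]
    rw [hw']
    exact hw _
  · intro i hi
    rw [pre_length] at hi
    have hs := hd.2 i hi
    have e1 : d.getD (i + 1) 0 = d[i + 1] := List.getD_eq_getElem d 0 hi
    have e0 : d.getD i 0 = d[i] := List.getD_eq_getElem d 0 (by omega)
    obtain ⟨b1, b2⟩ := N1V_spec hs.1
    have f1 : N1d ((pre (N1F c z x w d) d.length).getD (i + 1) 0) = d[i + 1] := by
      rw [N1_getD_pre _ hi]
      simp only [N1F, N1d, Nat.unpair_pair, e1]
    have f0 : N1d ((pre (N1F c z x w d) d.length).getD i 0) = d[i] := by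
      rw [N1_getD_pre _ (by omega : i < d.length)]
      simp only [N1F, N1d, Nat.unpair_pair, e0]
    have fv : N1v ((pre (N1F c z x w d) d.length).getD (i + 1) 0) =
        N1V c (jn z x) d[i + 1] d[i] := by
      rw [N1_getD_pre _ hi]
      simp only [N1F, N1v, Nat.unpair_pair, e1, Nat.add_sub_cancel, e0]
    refine ⟨?_, ?_, ?_⟩
    · rw [f1, f0]
      exact hs.2
    · rw [fv]
      exact b1
    · rw [f1, f0, fv, pre_length]
      intro hle
      rw [hx _ hle]
      exact b2

/-- `Σ¹₁` bounding -/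
theorem bounding {P : ℕ → (ℕ → ℕ) → Prop} (hP : S11 P) (n c : ℕ) (z : ℕ → ℕ)
    (h : ∀ x, P n (jn z x) → WellFounded (strict (Rl c (jn z x)))) :
    ∃ α < omega1 z, ∀ x β, P n (jn z x) → HasType (Rl c (jn z x)) β → β < α := by
  obtain ⟨R, hR, hcl, hPR⟩ := s11_tree hP
  obtain ⟨f, -, hf⟩ := kb_index (T := fun _ x l => N1T R n c x l) (N1_recT hR n c)
  obtain ⟨htot, hidx⟩ := hf 0 z
  have hnp : ¬ ∃ u : ℕ → ℕ, ∀ k, N1T R n c z (pre u k) := by
    rintro ⟨u, hu⟩
    obtain ⟨h1, h2⟩ := N1_path hu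
    have hp : P n (jn z (fun i => N1x (u i))) := (hPR _ _).2 ⟨_, h1⟩
    exact N1_no_desc (h _ hp) (fun i => N1d (u i)) h2
  have hwo : IsWO (KB (N1T R n c z)) :=
    ⟨kb_isLin, kb_wf (N1_pfx hcl n c z) hnp⟩
  obtain ⟨α, hα⟩ := exists_type hwo
  have heq : Rl (f 0) z = KB (N1T R n c z) := by
    funext a b
    exact propext (hidx a b)
  refine ⟨α, lt_of_index htot (by rw [heq]; exact hα), fun x β hPx hβ => ?_⟩
  obtain ⟨w, hw⟩ := (hPR _ _).1 hPx
  refine type_lt_of_hom hβ hα (fun d => pre (N1F c z x w d) d.length)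
    (fun d hd => N1_node hw hd) fun d a _ => ?_
  refine ⟨[N1F c z x w (d ++ [a]) d.length], by simp, ?_⟩
  simp only [List.length_append, List.length_singleton]
  rw [pre_succ]
  congr 1
  refine pre_congr fun i hi => ?_
  simp only [N1F]
  rw [N1_getD_append d [a] hi, N1_getD_append d [a] (by omega : i - 1 < d.length)]

end BW
end

section

/-!
# BW.H1 : `ω₁` of a real which is hyperarithmetic in `x`

PROOF.  Let `P` be `Σ¹₁` with `P (pair n m) x ↔ y n = m`, and suppose `α < omega1 y`; take `c` with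
`Tot c y`, `IsWO (Rl c y)`, `HasType (Rl c y) α` (`exists_index`).  Apply `bounding` (with `z = x`) to the
`Σ¹₁` predicate `P' n u := ∀ a, P (pair a (p2 u a)) (p1 u)` (`s11_all`, `s11_subst`; it says that the second
component is `y`) and to an index `e` with `Gr e (jn x v) n m ↔ Gr c v n m` (`gr_sub` or `gr_comp` with
`F a u = p2 u`): the hypothesis holds since `P' n (jn x v)` implies `v = y`.  So `α < α' < omega1 x`.
Hence `omega1 y ≤ omega1 x` (otherwise take `α = omega1 x`).
-/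

namespace BW

theorem omega1_le_of_hypIn {x y : ℕ → ℕ} (h : HypIn x y) : omega1 y ≤ omega1 x := by
  obtain ⟨P, hP, hxy⟩ := h
  by_contra hcon
  rw [not_le] at hcon
  obtain ⟨c, _, hwo, hty⟩ := exists_index hcon
  have hP1 : S11 (fun m u => P (Nat.pair (Nat.unpair m).2 (p2 u (Nat.unpair m).2)) (p1 u)) :=
    s11_subst hP (rec_pair (rec_snd rec_id) (recR_app (recR_p2 recR_id) (rec_snd rec_id))) (recR_p1 recR_id)
  have hP' : S11 (fun _ u => ∀ a, P (Nat.pair a (p2 u a)) (p1 u)) :=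
    s11_congr (s11_all hP1) fun n u => by simp only [Nat.unpair_pair]
  have hF : RecR (fun _ u => p2 u) := recR_p2 recR_id
  obtain ⟨f, _, hf⟩ := gr_comp hF
  have hRl : ∀ v, Rl (f (Nat.pair c 0)) (jn x v) = Rl c v := by
    intro v
    funext a b
    unfold Rl
    rw [eq_iff_iff, hf, p2_jn]
  have hv : ∀ v, (∀ a, P (Nat.pair a (p2 (jn x v) a)) (p1 (jn x v))) → v = y := by
    intro v hv
    funext a
    have h1 := hv a
    rw [p2_jn, p1_jn, hxy] at h1
    exact h1.symm
  obtain ⟨α, hα, hb⟩ := bounding hP' 0 (f (Nat.pair c 0)) x (fun v h => by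
    rw [hRl, hv v h]
    exact hwo.wf)
  have h1 := hb y (omega1 x) (fun a => by rw [p2_jn, p1_jn, hxy]) (by rw [hRl]; exact hty)
  exact absurd (h1.trans hα) (lt_irrefl _)

theorem hypIn_of_funIn {x y : ℕ → ℕ} (h : FunIn x y) : HypIn x y := by
  obtain ⟨c, hc⟩ := funIn_iff.1 h
  refine ⟨fun k u => Gr c u (Nat.unpair k).1 (Nat.unpair k).2,
    s11_gr (rec_const c) recR_id (rec_fst rec_id) (rec_snd rec_id), fun n m => ?_⟩
  simp only [Nat.unpair_pair]
  exact hc n m

theorem H1_graph {x y : ℕ → ℕ} {P : ℕ → (ℕ → ℕ) → Prop} (hxy : ∀ n m, P (Nat.pair n m) x ↔ y n = m)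
    {Q : (ℕ → ℕ) → Prop} :
    (∃ v : ℕ → ℕ, (∀ a, P (Nat.pair a (v a)) x) ∧ Q v) ↔ Q y := by
  constructor
  · rintro ⟨v, hv, hQ⟩
    have : v = y := by
      funext a
      exact ((hxy a (v a)).1 (hv a)).symm
    rwa [← this]
  · intro hQ
    exact ⟨y, fun a => (hxy a (y a)).2 rfl, hQ⟩

theorem hypIn_trans {x y w : ℕ → ℕ} (h : HypIn x y) (h' : HypIn y w) : HypIn x w := by
  obtain ⟨P, hP, hxy⟩ := h
  obtain ⟨P2, hP2, hyw⟩ := h'
  have h1 : S11 (fun k u => P (Nat.unpair k).2 u) := s11_subst hP (rec_snd rec_id) recR_id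
  have h2 : S11 (fun n u => P2 n (p2 u)) := s11_subst hP2 rec_id (recR_p2 recR_id)
  refine ⟨_, s11_of_graph h1 h2, fun n m => ?_⟩
  simp only [Nat.unpair_pair, p2_jn]
  rw [H1_graph hxy (Q := fun v => P2 (Nat.pair n m) v)]
  exact hyw n m

/-- a `Σ¹₁` statement about reals which are `Δ¹₁` in `x` is `Σ¹₁` in `x` -/
theorem hypIn_subst {x y : ℕ → ℕ} (h : HypIn x y) {P : ℕ → (ℕ → ℕ) → Prop} (hP : S11 P) :
    ∃ Q, S11 Q ∧ ∀ n, Q n x ↔ P n (jn x y) := by
  obtain ⟨P1, hP1, hxy⟩ := h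
  have h1 : S11 (fun k u => P1 (Nat.unpair k).2 u) := s11_subst hP1 (rec_snd rec_id) recR_id
  refine ⟨_, s11_of_graph h1 hP, fun n => ?_⟩
  simp only [Nat.unpair_pair]
  exact H1_graph hxy (Q := fun v => P n (jn x v))

end BW
end

section

/-!
# BW.A1 : quotient codes compute copies

PROOF.  Let `g : ℕ → ℕ` be surjective and `y = pbE x g`.  `y (pair 0 (encode [a, b])) = 1 ↔ g a = g b`.
The set `Z = {a | ∀ b < a, g b ≠ g a}` of the least representatives is infinite (`g` is surjective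
onto `ℕ`, and `g` is injective on `Z`, and onto from `Z`), let `r` enumerate it increasingly
(`Nat.nth`).  Then `h = g ∘ r` is a bijection of `ℕ`; `y' = img h x` is a copy of `x` and
`y' (pair k (encode l)) = x (pair k (encode (l.map (g ∘ r)))) = y (pair (k+1) (encode (l.map r)))`
is recursive in `y` and `r`, and `r` is recursive in `y`.  So `omega1S x ≤ omega1 y' ≤ omega1 y`.
The estimate `omega1 y' ≤ omega1 y` is easiest by `omega1_le_of_hypIn`: the graph of `y'` is `Σ¹₁` in `y`: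
`y' n = m ↔ ∃ r : ℕ → ℕ, (∀ i, r i < r (i+1)) ∧ (∀ a, a ∈ Z ↔ ∃ i, r i = a) ∧ the value of
y (pair (k+1) (encode (l.map r))) is m`, where `n = pair k (encode l)`; the right-hand side is `Σ¹₁`
in `y` by the closure properties (`s11_exR`, `s11_and`, `s11_all`, `s11_ex`, `s11_of_rec`), and the
last clause is `pair (k+1) (dl-map)`: it is `img r (fun n => y (pair ((unpair n).1 + 1) (unpair n).2)) n = m`,
which is recursive by `recR_img`.
-/

namespace BW

open Encodable

/-- `a` is a least representative, read off from the code `u` -/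
private def A1_Z (a : ℕ) (u : ℕ → ℕ) : Prop := ∀ b < a, ¬ u (Nat.pair 0 (encode [b, a])) = 1

private theorem A1_recP_Z : RecP A1_Z := by
  have hf : Primrec (fun k : ℕ => Nat.pair 0 (encode [(Nat.unpair k).2, (Nat.unpair k).1])) := by
    refine Primrec₂.natPair.comp (Primrec.const 0) (Primrec.encode.comp ?_)
    exact Primrec.list_cons.comp (Primrec.snd.comp Primrec.unpair)
      (Primrec.list_cons.comp (Primrec.fst.comp Primrec.unpair) (Primrec.const []))
  have h1 : RecP (fun k u => ¬ u (Nat.pair 0 (encode [(Nat.unpair k).2, (Nat.unpair k).1])) = 1) :=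
    recP_not (recP_eq (rec_app (rec_of_primrec hf)) (rec_const 1))
  have h2 := recP_ball h1 rec_id
  refine recP_congr h2 fun n x => ?_
  simp only [Nat.unpair_pair]
  rfl

/-- the shifted structure -/
private def A1_sh (u : ℕ → ℕ) : ℕ → ℕ := fun k =>
  u (Nat.pair ((Nat.unpair k).1 + 1) (Nat.unpair k).2)

private theorem A1_recR_sh : RecR (fun _ v => A1_sh (p1 v)) := by
  have hf : Primrec (fun j : ℕ => Nat.pair ((Nat.unpair (Nat.unpair j).2).1 + 1)
      (Nat.unpair (Nat.unpair j).2).2) := by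
    have h0 : Primrec (fun j : ℕ => Nat.unpair (Nat.unpair j).2) :=
      Primrec.unpair.comp (Primrec.snd.comp Primrec.unpair)
    exact Primrec₂.natPair.comp (Primrec.succ.comp (Primrec.fst.comp h0)) (Primrec.snd.comp h0)
  have h1 := recR_mk (recR_app (recR_p1 recR_id) (rec_of_primrec hf))
  have e : (fun (n : ℕ) (x : ℕ → ℕ) (k : ℕ) => p1 x (Nat.pair
      ((Nat.unpair (Nat.unpair (Nat.pair n k)).2).1 + 1)
      (Nat.unpair (Nat.unpair (Nat.pair n k)).2).2)) = fun _ v => A1_sh (p1 v) := by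
    funext n x k
    simp only [Nat.unpair_pair]
    rfl
  rw [← e]
  exact h1

/-- the matrix of the definition of the copy -/
private def A1_Φ (q : ℕ) (v : ℕ → ℕ) : Prop :=
  (∀ i, p2 v i < p2 v (i + 1)) ∧ (∀ i, A1_Z (p2 v i) (p1 v)) ∧
    (∀ a, A1_Z a (p1 v) → ∃ i < a + 1, p2 v i = a) ∧
    img (p2 v) (A1_sh (p1 v)) (Nat.unpair q).1 = (Nat.unpair q).2

private theorem A1_s11_Φ : S11 A1_Φ := by
  have hsnd : Rec (fun k _ => (Nat.unpair k).2) :=
    rec_of_primrec (Primrec.snd.comp Primrec.unpair)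
  have hfst : Rec (fun k _ => (Nat.unpair k).1) :=
    rec_of_primrec (Primrec.fst.comp Primrec.unpair)
  have hp2 : RecR (fun _ v => p2 v) := recR_p2 recR_id
  have hp1 : RecR (fun _ v => p1 v) := recR_p1 recR_id
  have a1 : S11 (fun _ v => ∀ i, p2 v i < p2 v (i + 1)) := by
    have h1 : RecP (fun k v => p2 v (Nat.unpair k).2 < p2 v ((Nat.unpair k).2 + 1)) :=
      recP_lt (recR_app hp2 hsnd)
        (recR_app hp2 (rec_of_primrec (Primrec.succ.comp (Primrec.snd.comp Primrec.unpair))))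
    refine s11_congr (s11_all (s11_of_rec h1)) fun n x => ?_
    simp only [Nat.unpair_pair]
  have a2 : S11 (fun _ v => ∀ i, A1_Z (p2 v i) (p1 v)) := by
    have h1 : RecP (fun k v => A1_Z (p2 v (Nat.unpair k).2) (p1 v)) :=
      recP_substR A1_recP_Z (recR_app hp2 hsnd) hp1
    refine s11_congr (s11_all (s11_of_rec h1)) fun n x => ?_
    simp only [Nat.unpair_pair]
  have a3 : S11 (fun _ v => ∀ a, A1_Z a (p1 v) → ∃ i < a + 1, p2 v i = a) := by
    have h1 : RecP (fun k v => A1_Z (Nat.unpair k).2 (p1 v)) := recP_substR A1_recP_Z hsnd hp1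
    have h2 : RecP (fun j v => p2 v (Nat.unpair j).2 = (Nat.unpair (Nat.unpair j).1).2) :=
      recP_eq (recR_app hp2 hsnd) (rec_of_primrec (Primrec.snd.comp (Primrec.unpair.comp
        (Primrec.fst.comp Primrec.unpair))))
    have h3 := recP_bex h2 (rec_of_primrec (Primrec.succ.comp (Primrec.snd.comp Primrec.unpair)))
    refine s11_congr (s11_all (s11_of_rec (recP_imp h1 h3))) fun n x => ?_
    simp only [Nat.unpair_pair]
  have a4 : S11 (fun q v => img (p2 v) (A1_sh (p1 v)) (Nat.unpair q).1 = (Nat.unpair q).2) :=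
    s11_of_rec (recP_eq (recR_app (recR_img hp2 A1_recR_sh) hfst) hsnd)
  exact s11_and a1 (s11_and a2 (s11_and a3 a4))

theorem omega1S_le_pbE {x g : ℕ → ℕ} (hg : Function.Surjective g) :
    omega1S x ≤ omega1 (pbE x g) := by
  classical
  set Z : ℕ → Prop := fun a => ∀ b < a, g b ≠ g a with hZ
  -- every value has a least representative
  have hrep : ∀ m, ∃ a, Z a ∧ g a = m := by
    intro m
    refine ⟨Nat.find (hg m), ?_, Nat.find_spec (hg m)⟩
    intro b hb hgb
    exact Nat.find_min (hg m) hb (hgb.trans (Nat.find_spec (hg m)))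
  have hinf : (setOf Z).Infinite := by
    intro hfin
    have h1 : (g '' setOf Z) = Set.univ := by
      ext m
      simp only [Set.mem_image, Set.mem_univ, iff_true]
      obtain ⟨a, ha, hm⟩ := hrep m
      exact ⟨a, ha, hm⟩
    have h2 := hfin.image g
    rw [h1] at h2
    exact Set.infinite_univ h2
  set r : ℕ → ℕ := Nat.nth Z with hr
  have hrm : StrictMono r := Nat.nth_strictMono hinf
  have hrange : Set.range r = setOf Z := Nat.range_nth_of_infinite hinf
  have hrZ : ∀ i, Z (r i) := fun i => Nat.nth_mem_of_infinite hinf i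
  have hbij : Function.Bijective (g ∘ r) := by
    constructor
    · intro i j hij
      by_contra hne
      rcases lt_or_gt_of_ne hne with h | h
      · exact hrZ j (r i) (hrm h) hij
      · exact hrZ i (r j) (hrm h) hij.symm
    · intro m
      obtain ⟨a, ha, hm⟩ := hrep m
      have h1 : a ∈ Set.range r := by rw [hrange]; exact ha
      obtain ⟨i, hi⟩ := h1
      exact ⟨i, by show g (r i) = m; rw [hi, hm]⟩
  -- the copy
  have hcp : Cp x (img (g ∘ r) x) := ⟨Equiv.ofBijective _ hbij, rfl⟩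
  refine (omega1S_le_cp hcp).trans (omega1_le_of_hypIn ?_)
  -- the least representatives are read off from the code
  have hZiff : ∀ a, A1_Z a (pbE x g) ↔ Z a := by
    intro a
    unfold A1_Z
    rw [hZ]
    refine forall_congr' fun b => forall_congr' fun _ => not_congr ?_
    rw [pbE_zero]
    show (if g b = g a then 1 else 0) = 1 ↔ g b = g a
    by_cases h : g b = g a <;> simp [h]
  have hval : img r (A1_sh (pbE x g)) = img (g ∘ r) x := by
    funext n
    obtain ⟨k, l, rfl⟩ : ∃ k l, n = Nat.pair k (encode (l : List ℕ)) :=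
      ⟨(Nat.unpair n).1, dl (Nat.unpair n).2, by rw [encode_dl, Nat.pair_unpair]⟩
    rw [img_apply, img_apply]
    show pbE x g (Nat.pair ((Nat.unpair (Nat.pair k (encode (l.map r)))).1 + 1)
      (Nat.unpair (Nat.pair k (encode (l.map r)))).2) = _
    rw [Nat.unpair_pair]
    show pbE x g (Nat.pair (k + 1) (encode (l.map r))) = _
    rw [pbE_succ, List.map_map]
  refine ⟨fun q u => ∃ w : ℕ → ℕ, A1_Φ q (jn u w), s11_exR A1_s11_Φ, fun n m => ?_⟩
  constructor
  · rintro ⟨w, h1, h2, h3, h4⟩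
    rw [p1_jn, p2_jn] at h4
    simp only [p1_jn, p2_jn] at h1 h2 h3
    have hwm : StrictMono w := strictMono_nat_of_lt_succ h1
    have hwr : Set.range w = Set.range r := by
      rw [hrange]
      ext a
      constructor
      · rintro ⟨i, rfl⟩
        exact (hZiff _).1 (h2 i)
      · intro ha
        obtain ⟨i, -, hi⟩ := h3 a ((hZiff a).2 ha)
        exact ⟨i, hi⟩
    have hw : w = r := (hwm.range_inj hrm).1 hwr
    rw [hw, hval, Nat.unpair_pair] at h4
    exact h4
  · intro h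
    refine ⟨r, ?_, ?_, ?_, ?_⟩
    · intro i
      rw [p2_jn]
      exact hrm (Nat.lt_succ_self i)
    · intro i
      rw [p1_jn, p2_jn]
      exact (hZiff _).2 (hrZ i)
    · intro a ha
      rw [p1_jn] at ha
      have h1 : a ∈ Set.range r := by rw [hrange]; exact (hZiff a).1 ha
      obtain ⟨i, hi⟩ := h1
      refine ⟨i, ?_, by rw [p2_jn]; exact hi⟩
      have h2 : i ≤ r i := hrm.le_apply
      omega
    · rw [p1_jn, p2_jn, hval, Nat.unpair_pair]
      exact h

end BW
end

section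

/-!
# BW.A3 : a lower bound for `ω₁` of all copies of a structure

PROOF.  Let `y = img h x` (`h` a permutation) be a copy of `x` and suppose `omega1 y ≤ β`.
(1) By `pbE_img`, `pbE y g = pbE x (h ∘ g)`, so the set `N = {g | Tot i (pbE y g) ∧ IsoR (Rl i (pbE y g))
(Rl e z)}` is the preimage of the set in `hq` under the homeomorphism `g ↦ h ∘ g`.  Hence `N` is not
meagre: `cyl q` is not meagre, so the set in `hq` is not meagre (`hq`), and `meagre_comp_iff`.
(2) `N` is the set of the `g` with `P₀ 0 (jn (jn y z) g)` for a `Σ¹₁` predicate `P₀` (`s11_tot`, `s11_iso`,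
`recR_pbE`, ...).  By `category` for `P₀` (part 2 with the code of the empty list, `cyl_nil`; then
part 1) there is `q'` such that `cyl q' \ N` is meagre.
(3) Let `P₁ c u := Tot i (pbE (p1 u) (p2 u)) ∧ EmbR (Rl c (p1 u)) (Rl i (pbE (p1 u) (p2 u)))`, `Σ¹₁`, and
`P₁'` from `category` for `P₁`.  Let `S c y := ∃ q'', cyl q'' ⊆ cyl q' ∧ P₁' (pair c q'') y`, `Σ¹₁` (`s11_ex`,
the condition `cyl q'' ⊆ cyl q'` is primitive recursive by `cyl_subset_iff`).
(4) If `Tot c y` and `IsWO (Rl c y)` then `S c y`: the type of `Rl c y` is `< omega1 y ≤ β`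
(`lt_of_index`, `exists_type`), so for each `g ∈ N`: `Rl i (pbE y g)` has the type `β` (`hasType_iso`; `IsoR`
can be reversed, or use the isomorphism from `Rl e z`), and `EmbR (Rl c y) (Rl i (pbE y g))`
(`emb_of_type`).  So `N ⊆ {g | P₁ c (jn y g)}`, and `cyl q' ∩ {g | P₁ c (jn y g)}` is not meagre
(`cyl q'` is not, `cyl q' \ N` is).  Apply part 2 of `category`.
(5) By `overspill` there is `c` with `Tot c y`, `¬ WellFounded (strict (Rl c y))`, `S c y`.  So there is `q''` with
`cyl q'' ⊆ cyl q'` and `cyl q'' \ {g | P₁ c (jn y g)}` meagre; also `cyl q'' \ N` is meagre.  As `cyl q''`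
is not meagre there is `g ∈ N` with `P₁ c (jn y g)`: `EmbR (Rl c y) (Rl i (pbE y g))` and
`Rl i (pbE y g)` is well-founded (isomorphic to `Rl e z`; `wf_of_emb`; `IsWO` of `Rl i ..` is not needed, only
that `strict` of it is well-founded; note `EmbR` follows from `IsoR` in the field, and `IsLin` of
`Rl i ..` is not known: see the remark).  So `Rl c y` is well-founded, contradiction.
REMARK.  `IsoR R S` with `S` a well-order does not imply that `R` is a linear order in the sense of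
`IsLin` (pairs outside of the field).  Therefore the predicates contain `IsLin (Rl i (pbE x g))`.
-/

namespace BW

open Encodable

/-- a linear relation isomorphic to a well-order of type `β` is a well-order of type `β` -/
private theorem A3_type {R S : ℕ → ℕ → Prop} {β : Ordinal.{0}} (hl : IsLin R) (hS : IsWO S)
    (hβ : HasType S β) (h : IsoR R S) : IsWO R ∧ HasType R β := by
  obtain ⟨φ, h1, h2, h3⟩ := h
  have hemb : EmbR R S := by
    refine ⟨φ, h1, ?_⟩
    rintro a b ⟨hab, hne⟩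
    obtain ⟨ha, hb⟩ := hl.fld a b hab
    refine ⟨(h2 a b ha hb).1 hab, fun heq => hne ?_⟩
    refine hl.antisymm a b hab ((h2 b a hb ha).2 ?_)
    rw [heq]
    exact h1 b hb
  have hwf : WellFounded (strict R) := wf_of_emb hemb hS.wf
  have hwo : IsWO R := ⟨hl, hwf⟩
  obtain ⟨γ, hγ⟩ := exists_type hwo
  have h4 : HasType S γ := hasType_iso ⟨φ, h1, h2, h3⟩ hγ
  rw [hasType_unique hβ h4]
  exact ⟨hwo, hγ⟩

private theorem A3_union {A B C : Set (ℕ → ℕ)} (hA : IsMeagre A) (hB : IsMeagre B)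
    (h : C ⊆ A ∪ B) : IsMeagre C := (hA.union hB).mono h

private theorem A3_cyl_primrec (q' : ℕ) : RecP (fun n _ => cyl (Nat.unpair n).2 ⊆ cyl q') := by
  have hp : PrimrecPred (fun n : ℕ => dl q' = (dl (Nat.unpair n).2).take (dl q').length) := by
    refine Primrec.eq.comp (Primrec.const (dl q')) ?_
    exact Primrec.list_take.comp (Primrec.const (dl q').length)
      (primrec_dl.comp (Primrec.snd.comp Primrec.unpair))
  refine recP_congr (recP_of_primrec hp) fun n _ => ?_
  rw [cyl_subset_iff, List.prefix_iff_eq_take]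

theorem lower {x z : ℕ → ℕ} {i e q : ℕ} {β : Ordinal.{0}} (he : Tot e z) (hw : IsWO (Rl e z))
    (hβ : HasType (Rl e z) β)
    (hq : IsMeagre (cyl q \ {g | (Tot i (pbE x g) ∧ IsLin (Rl i (pbE x g))) ∧
      IsoR (Rl i (pbE x g)) (Rl e z)})) :
    β < omega1S x := by
  by_contra hcon
  rw [not_lt] at hcon
  obtain ⟨y, ⟨h, hy⟩, hom⟩ := exists_copy x
  rw [← hom] at hcon
  -- the set `N`
  set M : Set (ℕ → ℕ) := {g | (Tot i (pbE x g) ∧ IsLin (Rl i (pbE x g))) ∧
      IsoR (Rl i (pbE x g)) (Rl e z)} with hM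
  set N : Set (ℕ → ℕ) := {g | (Tot i (pbE y g) ∧ IsLin (Rl i (pbE y g))) ∧
      IsoR (Rl i (pbE y g)) (Rl e z)} with hN
  have hMn : ¬ IsMeagre M := by
    intro hm
    refine cyl_not_meagre q (A3_union hq hm ?_)
    intro g hg
    by_cases hgM : g ∈ M
    · exact Or.inr hgM
    · exact Or.inl ⟨hg, hgM⟩
  have hNM : N = {g : ℕ → ℕ | (h : ℕ → ℕ) ∘ g ∈ M} := by
    ext g
    have h1 : pbE y g = pbE x ((h : ℕ → ℕ) ∘ g) := by
      rw [hy]
      exact pbE_img h.injective g x
    simp only [hN, hM, Set.mem_ofPred_eq, h1]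
  have hNn : ¬ IsMeagre N := by
    rw [hNM, meagre_comp_iff]
    exact hMn
  -- the first predicate
  have hR1 : RecR (fun _ u => pbE (p1 (p1 u)) (p2 u)) :=
    recR_pbE (recR_p1 (recR_p1 recR_id)) (recR_p2 recR_id)
  have hP0 : S11 (fun _ u => (Tot i (pbE (p1 (p1 u)) (p2 u)) ∧
      IsLin (Rl i (pbE (p1 (p1 u)) (p2 u)))) ∧
      IsoR (Rl i (pbE (p1 (p1 u)) (p2 u))) (Rl e (p2 (p1 u)))) :=
    s11_and (s11_and (s11_tot (rec_const i) hR1) (s11_isLin (rec_const i) hR1))
      (s11_iso (rec_const i) hR1 (rec_const e) (recR_p2 (recR_p1 recR_id)))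
  obtain ⟨P0', -, hc1, hc2⟩ := category hP0
  have hset0 : {g : ℕ → ℕ | (Tot i (pbE (p1 (p1 (jn (jn y z) g))) (p2 (jn (jn y z) g))) ∧
      IsLin (Rl i (pbE (p1 (p1 (jn (jn y z) g))) (p2 (jn (jn y z) g))))) ∧
      IsoR (Rl i (pbE (p1 (p1 (jn (jn y z) g))) (p2 (jn (jn y z) g))))
        (Rl e (p2 (p1 (jn (jn y z) g))))} = N := by
    ext g
    simp only [hN, Set.mem_ofPred_eq, p1_jn, p2_jn]
  have hc2' := hc2 0 (encode ([] : List ℕ)) (jn y z)
  rw [hset0, cyl_nil, Set.univ_inter] at hc2'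
  obtain ⟨q', -, hq'⟩ := hc2' hNn
  have hmq' : IsMeagre (cyl q' \ N) := by
    have h1 := hc1 0 q' (jn y z) hq'
    rwa [hset0] at h1
  -- the second predicate
  have hR2 : RecR (fun _ u => pbE (p1 u) (p2 u)) := recR_pbE (recR_p1 recR_id) (recR_p2 recR_id)
  have hP1 : S11 (fun c u => EmbR (Rl c (p1 u)) (Rl i (pbE (p1 u) (p2 u)))) :=
    s11_emb rec_id (recR_p1 recR_id) (rec_const i) hR2
  obtain ⟨P1', hP1', hd1, hd2⟩ := category hP1
  have hset1 : ∀ c, {g : ℕ → ℕ | EmbR (Rl c (p1 (jn y g))) (Rl i (pbE (p1 (jn y g)) (p2 (jn y g))))} =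
      {g : ℕ → ℕ | EmbR (Rl c y) (Rl i (pbE y g))} := by
    intro c
    ext g
    simp only [Set.mem_ofPred_eq, p1_jn, p2_jn]
  have hS : S11 (fun c u => ∃ q'', cyl q'' ⊆ cyl q' ∧ P1' (Nat.pair c q'') u) := by
    have h1 : S11 (fun n u => cyl (Nat.unpair n).2 ⊆ cyl q' ∧ P1' n u) :=
      s11_and (s11_of_rec (A3_cyl_primrec q')) hP1'
    refine s11_congr (s11_ex h1) fun c u => ?_
    simp only [Nat.unpair_pair]
  have hall : ∀ c, Tot c y → IsWO (Rl c y) →
      ∃ q'', cyl q'' ⊆ cyl q' ∧ P1' (Nat.pair c q'') y := by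
    intro c hct hcw
    obtain ⟨α, hα⟩ := exists_type hcw
    have hαβ : α ≤ β := (lt_of_index hct hα).le.trans hcon
    have hsub : N ⊆ {g : ℕ → ℕ | EmbR (Rl c y) (Rl i (pbE y g))} := by
      rintro g ⟨⟨_, hlin⟩, hiso⟩
      exact emb_of_type hcw.toIsLin hα (A3_type hlin hw hβ hiso).2 hαβ
    refine hd2 c q' y ?_
    rw [hset1]
    intro hm
    refine cyl_not_meagre q' (A3_union hmq' hm ?_)
    intro g hg
    by_cases hgN : g ∈ N
    · exact Or.inr ⟨hg, hsub hgN⟩
    · exact Or.inl ⟨hg, hgN⟩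
  obtain ⟨c, _, _, hnwf, q'', hsub, hP⟩ := overspill hS y hall
  have hm1 : IsMeagre (cyl q'' \ {g : ℕ → ℕ | EmbR (Rl c y) (Rl i (pbE y g))}) := by
    have h1 := hd1 c q'' y hP
    rwa [hset1] at h1
  have hm2 : IsMeagre (cyl q'' \ N) := hmq'.mono (show cyl q'' \ N ⊆ cyl q' \ N from fun g hg => ⟨hsub hg.1, hg.2⟩)
  refine cyl_not_meagre q'' (A3_union hm1 hm2 ?_)
  intro g hg
  by_cases hgN : g ∈ N
  · refine Or.inl ⟨hg, fun hemb => hnwf ?_⟩
    obtain ⟨⟨_, hlin⟩, hiso⟩ := hgN
    exact wf_of_emb hemb (A3_type hlin hw hβ hiso).1.wf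
  · exact Or.inr ⟨hg, hgN⟩

end BW
end

section

/-!
# BW.F1 : forcing with `Σ¹₁ (z)` sets: conditions and fusion

PROOFS.
* `exists_cnd` : `s11_smn` applied to `fun m x => P (unpair m).1 x` (with `m = pair n 0`).
* `cnd_inter` : `exists_cnd` and `s11_and`, `s11_U11`.
* `cnd_ext` : the set `{x | pre x k = s}` and the set `{x | ∃ w, pre w t.length = t ∧ ∀ k j, j ≤ k → evaln k
  (ofNatCode c') (encode (0, pre (jn z x) j, pre w j)) = none}` are `Σ¹₁ (z)`
  (`s11_exR`, `s11_of_rec`, ...).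
* `fusion` : write `V c' u t := ∀ k, t.length ≤ k → evaln k (ofNatCode c') (encode (0, u, t)) = none`, so
  `x ∈ cnd z c' ↔ ∃ w, ∀ j, V c' (pre (jn z x) j) (pre w j)`.  Let
  `W c' t x := ∃ w, pre w t.length = t ∧ ∀ j, V c' (pre (jn z x) j) (pre w j)`.
  Build by recursion on `i`: a condition `a_i` with `cnd z a_i` nonempty, a list `s_i` of length `i`,
  numbers `c_0, .., c_i` (`c_0 = c`, `D (k-1) (cnd z c_k)` for `k ≥ 1`) and lists `t_{0,i}, .., t_{i,i}`, `t_{k,i}`
  of length `i - k`, such that every `x ∈ cnd z a_i` satisfies `pre x i = s_i` and `W c_k t_{k,i} x` for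
  all `k ≤ i`, `s_{i+1}` extends `s_i`, `t_{k,i+1}` extends `t_{k,i}`.  Step: take `x ∈ cnd z a_i`,
  with witnesses `w_k` of `W c_k t_{k,i} x`; put `s_{i+1} = pre x (i+1)`, `t_{k,i+1} = pre w_k (i+1-k)`.
  The set `{x' ∈ cnd z a_i | pre x' (i+1) = s_{i+1} ∧ ∀ k ≤ i, W c_k t_{k,i+1} x'}` is `Σ¹₁ (z)`
  (`cnd_ext`, induction on `k`), contains `x`; by `hD` it has a nonempty subset `cnd z c_{i+1}` with
  `D i (cnd z c_{i+1})`; put `a_{i+1} = c_{i+1}`, `t_{i+1,i+1} = []`.
  Let `x` be the union of the `s_i` and `w_k` the union of the `t_{k,i}`.  Then `V c_k (pre (jn z x) j)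
  (pre w_k j)` for all `k`, `j` (look at a stage `i ≥ k + j`, `i ≥ j`, and any member `x'` of `cnd z a_i`:
  it agrees with `x` up to `i` and its witness agrees with `w_k` up to `i - k`).  So `x ∈ cnd z c_k` for
  all `k`.
  (A convenient state for the recursion: a condition `a` together with `s : List ℕ` and a list `L` of
  pairs (index, list); the invariant is a predicate of the state; the step exists by the argument
  above; use `Classical.choice` and a sequence of states.)
-/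

namespace BW

open Encodable

theorem exists_cnd {P : ℕ → (ℕ → ℕ) → Prop} (hP : S11 P) (n : ℕ) (z : ℕ → ℕ) :
    ∃ c, cnd z c = {x | P n (jn z x)} := by
  have h1 : S11 (fun m x => P (Nat.unpair m).1 x) := s11_subst hP (rec_fst rec_id) recR_id
  obtain ⟨f, -, hf⟩ := s11_smn h1
  refine ⟨f n, ?_⟩
  ext x
  have h2 := hf n 0 (jn z x)
  simp only [Nat.unpair_pair] at h2
  exact h2.symm

theorem cnd_inter {P : ℕ → (ℕ → ℕ) → Prop} (hP : S11 P) (n c : ℕ) (z : ℕ → ℕ) :
    ∃ c', cnd z c' = {x | x ∈ cnd z c ∧ P n (jn z x)} := by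
  have h1 : S11 (fun m x => U11 c 0 x) :=
    s11_congr (s11_subst s11_U11 (rec_const (Nat.pair c 0)) recR_id) (by
      intro m x
      simp only [Nat.unpair_pair])
  obtain ⟨c', hc'⟩ := exists_cnd (s11_and h1 hP) n z
  exact ⟨c', hc'⟩

/-- the matrix of the universal predicate -/
private def F1_wit (c : ℕ) (u w : ℕ → ℕ) : Prop :=
  ∀ k j, j ≤ k →
    Nat.Partrec.Code.evaln k (Nat.Partrec.Code.ofNatCode c)
      (encode (0, pre u j, pre w j)) = none

private theorem F1_rec_pre {F : ℕ → (ℕ → ℕ) → ℕ → ℕ} {G : ℕ → (ℕ → ℕ) → ℕ} (hF : RecR F)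
    (hG : Rec G) : Rec (fun n x => encode (pre (F n x) (G n x))) :=
  rec_substR (H := fun m x => encode (pre x m)) (rec_pre rec_id) hG hF

private theorem F1_primrec (c : ℕ) : Primrec (fun q : ℕ =>
    !(Nat.Partrec.Code.evaln (Nat.unpair q).1 (Nat.Partrec.Code.ofNatCode c)
      (Nat.pair 0 (Nat.unpair q).2)).isSome) := by
  refine Primrec.not.comp ?_
  refine Primrec.option_isSome.comp ?_
  have h := Nat.Partrec.Code.primrec_evaln
  refine h.comp (Primrec.pair (Primrec.pair ?_ (Primrec.const _)) ?_)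
  · exact Primrec.fst.comp Primrec.unpair
  · exact Primrec₂.natPair.comp (Primrec.const 0) (Primrec.snd.comp Primrec.unpair)

private theorem F1_s11_wit (c : ℕ) : S11 (fun _ v => F1_wit c (p1 v) (p2 v)) := by
  have h0 : RecP (fun m v =>
      Nat.Partrec.Code.evaln (Nat.unpair (Nat.unpair m).1).2 (Nat.Partrec.Code.ofNatCode c)
        (encode (0, pre (p1 v) (Nat.unpair m).2, pre (p2 v) (Nat.unpair m).2)) = none) := by
    refine recP_congr (recP_bool (F1_primrec c)
      (rec_pair (rec_snd (rec_fst rec_id))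
        (rec_pair (F1_rec_pre (recR_p1 recR_id) (rec_snd rec_id))
          (F1_rec_pre (recR_p2 recR_id) (rec_snd rec_id))))) ?_
    intro m v
    simp only [Nat.unpair_pair, Bool.not_eq_true', Option.isSome_eq_false_iff,
      Option.isNone_iff_eq_none]
    exact Iff.rfl
  have h1 : RecP (fun m v => ∀ j < Nat.succ (Nat.unpair m).2,
      Nat.Partrec.Code.evaln (Nat.unpair m).2 (Nat.Partrec.Code.ofNatCode c)
        (encode (0, pre (p1 v) j, pre (p2 v) j)) = none) := by
    refine recP_congr (recP_ball h0 (rec_comp Primrec.succ (rec_snd rec_id))) ?_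
    intro m v
    simp only [Nat.unpair_pair]
  refine s11_congr (s11_all (s11_of_rec h1)) ?_
  intro n v
  simp only [Nat.unpair_pair]
  constructor
  · intro h k j hjk
    exact h k j (Nat.lt_succ_of_le hjk)
  · intro h k j hjk
    exact h k j (Nat.le_of_lt_succ hjk)

private theorem F1_s11_pre {F : ℕ → (ℕ → ℕ) → ℕ → ℕ} (hF : RecR F) (s : List ℕ) :
    S11 (fun n x => pre (F n x) s.length = s) := by
  refine s11_congr (s11_of_rec (recP_eq (F1_rec_pre hF (rec_const s.length))
    (rec_const (encode s)))) ?_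
  intro n x
  exact ⟨fun h => encode_injective h, fun h => congrArg encode h⟩

/-- one more constraint on the witnesses -/
theorem cnd_ext (z : ℕ → ℕ) (c c' : ℕ) (s t : List ℕ) :
    ∃ c'', cnd z c'' = {x | x ∈ cnd z c ∧ pre x s.length = s ∧
      ∃ w : ℕ → ℕ, pre w t.length = t ∧ ∀ k j, j ≤ k →
        Nat.Partrec.Code.evaln k (Nat.Partrec.Code.ofNatCode c')
          (encode (0, pre (jn z x) j, pre w j)) = none} := by
  have h1 : S11 (fun n u => ∃ w : ℕ → ℕ, pre w t.length = t ∧ F1_wit c' u w) := by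
    refine s11_congr (s11_exR (s11_and (F1_s11_pre (recR_p2 recR_id) t) (F1_s11_wit c'))) ?_
    intro n u
    simp only [p1_jn, p2_jn]
  have h2 := s11_and (F1_s11_pre (recR_p2 recR_id) s) h1
  obtain ⟨d, hd⟩ := cnd_inter h2 0 c z
  refine ⟨d, ?_⟩
  rw [hd]
  ext x
  simp only [Set.mem_ofPred_eq, p2_jn]
  exact Iff.rfl

private theorem F1_mem (z : ℕ → ℕ) (c : ℕ) (x : ℕ → ℕ) :
    x ∈ cnd z c ↔ ∃ w, F1_wit c (jn z x) w := Iff.rfl

private theorem F1_ext (z : ℕ → ℕ) (a : ℕ) (C : ℕ → ℕ) (s : List ℕ) (T : ℕ → List ℕ) (m : ℕ) :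
    ∃ c'', cnd z c'' = {x | x ∈ cnd z a ∧ pre x s.length = s ∧
      ∀ k ≤ m, ∃ w : ℕ → ℕ, pre w (T k).length = T k ∧ F1_wit (C k) (jn z x) w} := by
  induction m with
  | zero =>
    obtain ⟨d, hd⟩ := cnd_ext z a (C 0) s (T 0)
    refine ⟨d, ?_⟩
    rw [hd]
    ext x
    constructor
    · rintro ⟨h1, h2, h3⟩
      refine ⟨h1, h2, fun k hk => ?_⟩
      rw [Nat.le_zero.1 hk]
      exact h3
    · rintro ⟨h1, h2, h3⟩
      exact ⟨h1, h2, h3 0 le_rfl⟩
  | succ m ih =>
    obtain ⟨e, he⟩ := ih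
    obtain ⟨d, hd⟩ := cnd_ext z e (C (m + 1)) s (T (m + 1))
    refine ⟨d, ?_⟩
    rw [hd]
    ext x
    constructor
    · rintro ⟨h1, h2, h3⟩
      rw [he] at h1
      refine ⟨h1.1, h2, fun k hk => ?_⟩
      rcases Nat.lt_or_ge m k with h | h
      · have : k = m + 1 := le_antisymm hk h
        rw [this]
        exact h3
      · exact h1.2.2 k h
    · rintro ⟨h1, h2, h3⟩
      refine ⟨?_, h2, h3 (m + 1) le_rfl⟩
      rw [he]
      exact ⟨h1, h2, fun k hk => h3 k (Nat.le_succ_of_le hk)⟩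

/-- the state of the fusion: a condition, the indices, a point and its witnesses -/
private structure F1_St where
  a : ℕ
  C : ℕ → ℕ
  x : ℕ → ℕ
  W : ℕ → ℕ → ℕ

private structure F1_Inv (z : ℕ → ℕ) (D : ℕ → Set (ℕ → ℕ) → Prop) (c : ℕ) (i : ℕ) (σ : F1_St) :
    Prop where
  zero : σ.C 0 = c
  dd : ∀ k < i, D k (cnd z (σ.C (k + 1)))
  mem : σ.x ∈ cnd z σ.a
  wit : ∀ k ≤ i, F1_wit (σ.C k) (jn z σ.x) (σ.W k)
  sub : ∀ y ∈ cnd z σ.a, pre y i = pre σ.x i ∧
    ∀ k ≤ i, ∃ w, pre w (i - k) = pre (σ.W k) (i - k) ∧ F1_wit (σ.C k) (jn z y) w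

private structure F1_Rel (i : ℕ) (σ τ : F1_St) : Prop where
  hC : ∀ k ≤ i, τ.C k = σ.C k
  hx : pre τ.x (i + 1) = pre σ.x (i + 1)
  hW : ∀ k ≤ i, pre (τ.W k) (i + 1 - k) = pre (σ.W k) (i + 1 - k)

private theorem F1_step (z : ℕ → ℕ) (D : ℕ → Set (ℕ → ℕ) → Prop)
    (hD : ∀ i c, (cnd z c).Nonempty →
      ∃ c', (cnd z c').Nonempty ∧ cnd z c' ⊆ cnd z c ∧ D i (cnd z c'))
    (c i : ℕ) (σ : F1_St) (hσ : F1_Inv z D c i σ) :
    ∃ τ, F1_Inv z D c (i + 1) τ ∧ F1_Rel i σ τ := by
  obtain ⟨b, hb⟩ := F1_ext z σ.a σ.C (pre σ.x (i + 1)) (fun k => pre (σ.W k) (i + 1 - k)) i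
  have hx : σ.x ∈ cnd z b := by
    rw [hb]
    refine ⟨hσ.mem, by rw [pre_length], fun k hk => ⟨σ.W k, by rw [pre_length], hσ.wit k hk⟩⟩
  obtain ⟨d, ⟨y, hy⟩, hdb, hDd⟩ := hD i b ⟨σ.x, hx⟩
  have hyb := hdb hy
  rw [hb] at hyb
  obtain ⟨-, hy1, hy2⟩ := hyb
  rw [pre_length] at hy1
  have hy2' : ∀ k, ∃ w : ℕ → ℕ, k ≤ i → (pre w (i + 1 - k) = pre (σ.W k) (i + 1 - k) ∧
      F1_wit (σ.C k) (jn z y) w) := by
    intro k
    by_cases hk : k ≤ i
    · obtain ⟨w, hw1, hw2⟩ := hy2 k hk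
      rw [pre_length] at hw1
      exact ⟨w, fun _ => ⟨hw1, hw2⟩⟩
    · exact ⟨fun _ => 0, fun h => absurd h hk⟩
  choose W hW using hy2'
  obtain ⟨v, hv⟩ := (F1_mem z d y).1 hy
  refine ⟨⟨d, Function.update σ.C (i + 1) d, y, Function.update W (i + 1) v⟩, ?_, ?_⟩
  · refine ⟨?_, ?_, hy, ?_, ?_⟩
    · show Function.update σ.C (i + 1) d 0 = c
      rw [Function.update_of_ne (by omega)]
      exact hσ.zero
    · intro k hk
      show D k (cnd z (Function.update σ.C (i + 1) d (k + 1)))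
      rcases Nat.lt_or_ge k i with h | h
      · rw [Function.update_of_ne (by omega)]
        exact hσ.dd k h
      · have : k = i := by omega
        rw [this, Function.update_self]
        exact hDd
    · intro k hk
      show F1_wit (Function.update σ.C (i + 1) d k) (jn z y) (Function.update W (i + 1) v k)
      rcases Nat.lt_or_ge i k with h | h
      · have : k = i + 1 := by omega
        rw [this, Function.update_self, Function.update_self]
        exact hv
      · rw [Function.update_of_ne (by omega), Function.update_of_ne (by omega)]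
        exact (hW k h).2
    · intro y' hy'
      have h1 := hdb hy'
      rw [hb] at h1
      obtain ⟨-, h2, h3⟩ := h1
      rw [pre_length] at h2
      refine ⟨h2.trans hy1.symm, ?_⟩
      intro k hk
      show ∃ w, pre w (i + 1 - k) = pre (Function.update W (i + 1) v k) (i + 1 - k) ∧
        F1_wit (Function.update σ.C (i + 1) d k) (jn z y') w
      rcases Nat.lt_or_ge i k with h | h
      · have : k = i + 1 := by omega
        subst this
        rw [Function.update_self, Function.update_self, Nat.sub_self]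
        obtain ⟨w, hw⟩ := (F1_mem z d y').1 hy'
        exact ⟨w, rfl, hw⟩
      · rw [Function.update_of_ne (by omega), Function.update_of_ne (by omega)]
        obtain ⟨w, hw1, hw2⟩ := h3 k h
        rw [pre_length] at hw1
        exact ⟨w, hw1.trans (hW k h).1.symm, hw2⟩
  · refine ⟨?_, hy1, ?_⟩
    · intro k hk
      show Function.update σ.C (i + 1) d k = σ.C k
      rw [Function.update_of_ne (by omega)]
    · intro k hk
      show pre (Function.update W (i + 1) v k) (i + 1 - k) = pre (σ.W k) (i + 1 - k)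
      rw [Function.update_of_ne (by omega)]
      exact (hW k hk).1

/-- the fusion lemma (the Gandy-Harrington topology is strongly Choquet) -/
theorem fusion (z : ℕ → ℕ) (D : ℕ → Set (ℕ → ℕ) → Prop)
    (hD : ∀ i c, (cnd z c).Nonempty →
      ∃ c', (cnd z c').Nonempty ∧ cnd z c' ⊆ cnd z c ∧ D i (cnd z c'))
    (c : ℕ) (hc : (cnd z c).Nonempty) :
    ∃ x ∈ cnd z c, ∀ i, ∃ c', D i (cnd z c') ∧ x ∈ cnd z c' := by
  obtain ⟨x0, hx0⟩ := hc
  obtain ⟨w0, hw0⟩ := (F1_mem z c x0).1 hx0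
  have h0 : F1_Inv z D c 0 ⟨c, fun _ => c, x0, fun _ => w0⟩ := by
    refine ⟨rfl, fun k hk => absurd hk (Nat.not_lt_zero k), hx0, fun k _ => hw0, ?_⟩
    intro y hy
    refine ⟨rfl, fun k hk => ?_⟩
    obtain ⟨w, hw⟩ := (F1_mem z c y).1 hy
    refine ⟨w, ?_, hw⟩
    rw [Nat.zero_sub]
    rfl
  let f : (i : ℕ) → {σ : F1_St // F1_Inv z D c i σ} := fun i =>
    Nat.rec ⟨_, h0⟩ (fun i σ => ⟨Classical.choose (F1_step z D hD c i σ.1 σ.2),
      (Classical.choose_spec (F1_step z D hD c i σ.1 σ.2)).1⟩) i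
  have hf : ∀ i, F1_Rel i (f i).1 (f (i + 1)).1 := fun i =>
    (Classical.choose_spec (F1_step z D hD c i (f i).1 (f i).2)).2
  have hC : ∀ k i, (f (k + i)).1.C k = (f k).1.C k := by
    intro k i
    induction i with
    | zero => rfl
    | succ i ih => exact ((hf (k + i)).hC k (Nat.le_add_right _ _)).trans ih
  have hx : ∀ j i, (f (j + i)).1.x j = (f j).1.x j := by
    intro j i
    induction i with
    | zero => rfl
    | succ i ih =>
      exact (eq_of_pre (hf (j + i)).hx j (by omega)).trans ih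
  have hW : ∀ k j i, (f (k + j + i)).1.W k j = (f (k + j)).1.W k j := by
    intro k j i
    induction i with
    | zero => rfl
    | succ i ih =>
      exact (eq_of_pre ((hf (k + j + i)).hW k (by omega)) j (by omega)).trans ih
  let X : ℕ → ℕ := fun j => (f j).1.x j
  let V : ℕ → ℕ → ℕ := fun k j => (f (k + j)).1.W k j
  have key : ∀ k, X ∈ cnd z ((f k).1.C k) := by
    intro k
    refine (F1_mem z _ X).2 ⟨V k, ?_⟩
    intro K j hjK
    have e1 : pre (jn z X) j = pre (jn z (f (k + j)).1.x) j := by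
      refine pre_congr (fun l hl => ?_)
      show Nat.pair (z l) (X l) = Nat.pair (z l) ((f (k + j)).1.x l)
      have := hx l (k + j - l)
      rw [show l + (k + j - l) = k + j by omega] at this
      rw [this]
    have e2 : pre (V k) j = pre ((f (k + j)).1.W k) j := by
      refine pre_congr (fun l hl => ?_)
      have := hW k l (j - l)
      rw [show k + l + (j - l) = k + j by omega] at this
      exact this.symm
    rw [e1, e2, ← hC k j]
    exact (f (k + j)).2.wit k (Nat.le_add_right _ _) K j hjK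
  refine ⟨X, ?_, fun i => ⟨(f (i + 1)).1.C (i + 1), ?_, key (i + 1)⟩⟩
  · have := key 0
    rwa [(f 0).2.zero] at this
  · exact (f (i + 1)).2.dd i (Nat.lt_succ_self i)

end BW
end

section

/-!
# BW.Ga : the Gandy basis theorem

PROOF.  Put `W e x :⇔ Tot e (jn z x) ∧ IsWO (Rl e (jn z x))`.  Apply `fusion` with
`D e S :⇔ (∀ x ∈ S, ¬ W e x) ∨ ∃ α < omega1 z, ∀ x ∈ S, ∀ β, HasType (Rl e (jn z x)) β → β < α`.
Density: let `cnd z c` be nonempty.  If `cnd z c ∩ {x | ¬ W e x}` is nonempty it is a condition with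
`D e` (`s11_not_wo`, `cnd_inter`).  Otherwise `W e x` for all `x ∈ cnd z c`, and `cnd z c` itself satisfies
the second alternative by `bounding` (applied to `fun n u => U11 n 0 u`, obtained from `s11_U11` by
`s11_subst`).
The set `{x | P n (jn z x)}` is a condition (`exists_cnd`), so there is `x` in it with: for all `e` some `S`
with `D e S`, `x ∈ S`.  Then `omega1 (jn z x) ≤ omega1 z`: otherwise `omega1 z < omega1 (jn z x)` is the
type of some `Rl e (jn z x)` with `W e x` (`exists_index`), but `D e` gives `omega1 z < α < omega1 z`.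
-/

namespace BW

/-- the Gandy basis theorem -/
theorem gandy {P : ℕ → (ℕ → ℕ) → Prop} (hP : S11 P) (n : ℕ) (z : ℕ → ℕ)
    (h : ∃ x, P n (jn z x)) : ∃ x, P n (jn z x) ∧ omega1 (jn z x) ≤ omega1 z := by
  obtain ⟨c, hc⟩ := exists_cnd hP n z
  have hU : S11 (fun n x => U11 n 0 x) := by
    have h1 := s11_subst s11_U11 (rec_pair rec_id (rec_const 0)) recR_id
    simpa only [Nat.unpair_pair] using h1
  have hW : S11 (fun n x => ¬ (Tot n x ∧ IsWO (Rl n x))) := s11_not_wo rec_id recR_id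
  have hne : (cnd z c).Nonempty := by
    obtain ⟨x, hx⟩ := h
    exact ⟨x, by rw [hc]; exact hx⟩
  obtain ⟨x, hx, hD⟩ := fusion z (fun e S => (∀ x ∈ S, ¬ (Tot e (jn z x) ∧ IsWO (Rl e (jn z x)))) ∨
    ∃ α < omega1 z, ∀ x ∈ S, ∀ β, HasType (Rl e (jn z x)) β → β < α) (fun e c hc => by
      by_cases h1 : ∃ x ∈ cnd z c, ¬ (Tot e (jn z x) ∧ IsWO (Rl e (jn z x)))
      · obtain ⟨x, hx, hx'⟩ := h1
        obtain ⟨c', hc'⟩ := cnd_inter hW e c z
        refine ⟨c', ?_, ?_, Or.inl ?_⟩
        · rw [hc']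
          exact ⟨x, hx, hx'⟩
        · rw [hc']
          exact fun y hy => hy.1
        · rw [hc']
          exact fun y hy => hy.2
      · refine ⟨c, hc, subset_rfl, Or.inr ?_⟩
        obtain ⟨α, hα, hα'⟩ := bounding hU c e z (fun x hx => by
          by_contra h2
          exact h1 ⟨x, hx, fun h3 => h2 h3.2.wf⟩)
        exact ⟨α, hα, fun x hx β hβ => hα' x β hx hβ⟩) c hne
  rw [hc] at hx
  refine ⟨x, hx, ?_⟩
  by_contra hlt
  obtain ⟨e, he1, he2, he3⟩ := exists_index (not_le.1 hlt)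
  obtain ⟨c', hc' | ⟨α, hα, hα'⟩, hx'⟩ := hD e
  · exact hc' x hx' ⟨he1, he2⟩
  · exact absurd (hα.trans (hα' x hx' _ he3)) (lt_irrefl _)

/-- the same without the parameter: low solutions of `Σ¹₁` problems -/
theorem gandy0 {P : ℕ → (ℕ → ℕ) → Prop} (hP : S11 P) (n : ℕ) (h : ∃ x, P n x) :
    ∃ x, P n x ∧ omega1 x = omega1 (fun _ => 0) := by
  have hP' : S11 (fun n u => P n (p2 u)) := s11_subst hP rec_id (recR_p2 recR_id)
  obtain ⟨x, hx, hx'⟩ := gandy hP' n (fun _ => 0) (by
    obtain ⟨x, hx⟩ := h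
    exact ⟨x, by rw [p2_jn]; exact hx⟩)
  rw [p2_jn] at hx
  refine ⟨x, hx, le_antisymm ((omega1_mono ?_).trans hx') (omega1_mono ?_)⟩
  · have h1 := funIn_of_recR (recR_p2 recR_id) (jn (fun _ => 0) x) 0
    rwa [p2_jn] at h1
  · exact funIn_of_recR (recR_primrec (Primrec.const 0)) x 0

end BW
end

section

/-!
# BW.A4 : the core theorem: going down in the spectrum of a `Σ¹₁` class

PROOF.  Let `P₀ (pair i e) u := (Tot i y' ∧ IsLin (Rl i y')) ∧ IsoR (Rl i y') (Rl e z')` where `u` stands for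
`jn (jn z' x') g` and `y' = pbE x' g` (i.e. `z' = p1 (p1 u)`, `x' = p2 (p1 u)`, `g = p2 u`).  It is `Σ¹₁`; let `P₀'`
be given by `category`.  Put
`X (n, jn z' x') :⇔ K n (jn z' x') ∧ ∀ e, (¬ (Tot e z' ∧ IsWO (Rl e z')) ∨ ∃ i q, P₀' (pair (pair i e) q) (jn z' x'))`,
a `Σ¹₁` predicate (`s11_not_wo`, `s11_or`, `s11_all`, `s11_ex`, `s11_subst`).
(1) `X (n, jn z x)`: let `Tot e z`, `IsWO (Rl e z)`, of type `β < omega1 z` (`lt_of_index`).  For every
surjective `g`, `β < omega1 z ≤ omega1S x ≤ omega1 (pbE x g)` (`omega1S_le_pbE`), so there is `i` with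
`Tot i (pbE x g)`, `IsWO (Rl i ..)`, `HasType (Rl i ..) β` (`exists_index`), so `P₀ (pair i e) (jn (jn z x) g)`
(`iso_of_type`).  By `surj_comeagre` and `exists_nonmeagre` there is `i` such that
`{g | P₀ (pair i e) (jn (jn z x) g)}` is not meagre; `category` part 2 with `cyl_nil` gives `q`.
(2) By `gandy` there is `x'` with `X (n, jn z x')` and `omega1 (jn z x') ≤ omega1 z`.
(3) `omega1S x' ≤ omega1 x' ≤ omega1 (jn z x') ≤ omega1 z` (`omega1_mono`).
(4) `omega1 z ≤ omega1S x'`: otherwise `β = omega1S x' < omega1 z` is the type of some `Rl e z`, `Tot e z`,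
`IsWO` (`exists_index`); `X` gives `i`, `q` with `P₀' (pair (pair i e) q) (jn z x')`, part 1 of `category` and
`lower` give `β < omega1S x' = β`, a contradiction.
-/

namespace BW

/-- the `Σ¹₁` predicate to which the category quantifier is applied -/
private theorem A4_s11 : S11 (fun n v =>
    (Tot (Nat.unpair n).1 (pbE (p2 (p1 v)) (p2 v)) ∧
      IsLin (Rl (Nat.unpair n).1 (pbE (p2 (p1 v)) (p2 v)))) ∧
    IsoR (Rl (Nat.unpair n).1 (pbE (p2 (p1 v)) (p2 v))) (Rl (Nat.unpair n).2 (p1 (p1 v)))) := by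
  have hC : Rec (fun n _ => (Nat.unpair n).1) := rec_fst rec_id
  have hD : Rec (fun n _ => (Nat.unpair n).2) := rec_snd rec_id
  have hF : RecR (fun _ v => pbE (p2 (p1 v)) (p2 v)) :=
    recR_pbE (recR_p2 (recR_p1 recR_id)) (recR_p2 recR_id)
  have hH : RecR (fun _ v => p1 (p1 v)) := recR_p1 (recR_p1 recR_id)
  exact s11_and (s11_and (s11_tot hC hF) (s11_isLin hC hF)) (s11_iso hC hF hD hH)

/-- the `Σ¹₁` predicate to which the Gandy basis theorem is applied -/
private theorem A4_s11_all {K P' : ℕ → (ℕ → ℕ) → Prop} (hK : S11 K) (hP' : S11 P') :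
    S11 (fun m u => K m u ∧ ∀ e, (¬ (Tot e (p1 u) ∧ IsWO (Rl e (p1 u))) ∨
      ∃ a, P' (Nat.pair (Nat.pair (Nat.unpair a).1 e) (Nat.unpair a).2) u)) := by
  have hD : Rec (fun n _ => (Nat.unpair n).2) := rec_snd rec_id
  have hZ : RecR (fun _ u => p1 u) := recR_p1 recR_id
  have h1 : S11 (fun n u => ¬ (Tot (Nat.unpair n).2 (p1 u) ∧ IsWO (Rl (Nat.unpair n).2 (p1 u)))) :=
    s11_not_wo hD hZ
  have hG : Rec (fun n _ => Nat.pair (Nat.pair (Nat.unpair (Nat.unpair n).2).1
      (Nat.unpair (Nat.unpair n).1).2) (Nat.unpair (Nat.unpair n).2).2) :=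
    rec_pair (rec_pair (rec_fst (rec_snd rec_id)) (rec_snd (rec_fst rec_id)))
      (rec_snd (rec_snd rec_id))
  have h2 := s11_ex (s11_subst hP' hG recR_id)
  have h3 := s11_all (s11_or h1 h2)
  refine s11_congr (s11_and hK h3) (fun n u => ?_)
  simp only [Nat.unpair_pair]

theorem core {K : ℕ → (ℕ → ℕ) → Prop} (hK : S11 K) (n : ℕ) {z x : ℕ → ℕ} (h : K n (jn z x))
    (hz : omega1 z ≤ omega1S x) : ∃ x', K n (jn z x') ∧ omega1S x' = omega1 z := by
  obtain ⟨P', hP', hc1, hc2⟩ := category A4_s11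
  have h1 : K n (jn z x) ∧ ∀ e, (¬ (Tot e (p1 (jn z x)) ∧ IsWO (Rl e (p1 (jn z x)))) ∨
      ∃ a, P' (Nat.pair (Nat.pair (Nat.unpair a).1 e) (Nat.unpair a).2) (jn z x)) := by
    refine ⟨h, fun e => ?_⟩
    by_cases hw : Tot e (p1 (jn z x)) ∧ IsWO (Rl e (p1 (jn z x)))
    · right
      rw [p1_jn] at hw
      obtain ⟨β, hβ⟩ := exists_type hw.2
      have hβz : β < omega1 z := lt_of_index hw.1 hβ
      have hD : IsMeagre ((Set.univ : Set (ℕ → ℕ)) \ ⋃ i : ℕ, {g : ℕ → ℕ |
          (Tot i (pbE x g) ∧ IsLin (Rl i (pbE x g))) ∧ IsoR (Rl i (pbE x g)) (Rl e z)}) := by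
        refine surj_comeagre.mono ?_
        rintro g ⟨-, hg⟩ hs
        apply hg
        obtain ⟨i, hi1, hi2, hi3⟩ :=
          exists_index (lt_of_lt_of_le hβz (hz.trans (omega1S_le_pbE hs)))
        rw [Set.mem_iUnion]
        exact ⟨i, ⟨⟨hi1, hi2.toIsLin⟩, iso_of_type hi3 hβ⟩⟩
      obtain ⟨i, hi⟩ := exists_nonmeagre univ_not_meagre hD
      obtain ⟨q', -, hq'⟩ := hc2 (Nat.pair i e) (Encodable.encode ([] : List ℕ)) (jn z x) (by
        rw [cyl_nil]
        simpa only [Nat.unpair_pair, p1_jn, p2_jn] using hi)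
      refine ⟨Nat.pair i q', ?_⟩
      simpa only [Nat.unpair_pair] using hq'
    · exact Or.inl hw
  obtain ⟨x', hx', hω⟩ := gandy (A4_s11_all hK hP') n z ⟨x, h1⟩
  refine ⟨x', hx'.1, le_antisymm ?_ ?_⟩
  · have h3 : FunIn (jn z x') x' := by
      have h4 := funIn_of_recR (recR_p2 recR_id) (jn z x') 0
      rwa [p2_jn] at h4
    exact (omega1S_le x').trans ((omega1_mono h3).trans hω)
  · by_contra hlt
    rw [not_le] at hlt
    obtain ⟨e, he, hw, hβ⟩ := exists_index hlt
    rcases hx'.2 e with h' | ⟨a, ha⟩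
    · rw [p1_jn] at h'
      exact h' ⟨he, hw⟩
    · have h5 := hc1 _ _ _ ha
      simp only [Nat.unpair_pair, p1_jn, p2_jn] at h5
      exact lt_irrefl _ (lower he hw hβ h5)

end BW
end

section

/-!
# BW.M6 : the class of the models of a hyperarithmetic sentence is `Σ¹₁`

PROOFS.
* `s11_eval` : all the clauses are built from recursive predicates by `∀` number quantifiers;
  the clause `conj`: `T .. = 1 ↔ ∀ n, ..` is the conjunction of `T .. = 1 → ∀ n, ..` and
  `T .. = 1 ∨ ∃ n, ¬ ..` (`s11_imp`, `s11_or`, `s11_ex`, `s11_all`).  Lists are quantified through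
  their codes (`∀ σ m` is `∀ a b : ℕ`, with `σ = dl a`, `m = dl b`; `encode_dl`).
* `s11_evalAt` : here the names are given by a real `h`: `E a b :⇔ h a = h b`,
  `R k l :⇔ x (pair (k+1) (encode (l.map h))) = 1`.
* `s11_isCd` : five clauses.
* `s11_truth` : `Sat (strOf x) (φ.at σ) (names by h)` for a formula `φ` with the code `c`, as a `Σ¹₁`
  predicate of `pt σ m` and the real `jn c (jn x h)`, when `h` maps `ℕ` onto `dom x`: there is an
  evaluation `T` (a real) with `Eval c T`, `EvalAt ..` and `T (pt σ m) = 1` (`truth`, `tru_eval`).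
* `s11_mod` : `IsCd x ∧ ∃ h T, (h maps ℕ onto dom x) ∧ Eval c T ∧ EvalAt .. ∧ T (pt [] []) = 1`;
  `c` is hyperarithmetic, so it is eliminated by `hypIn_subst` (at the real `0`): more precisely
  use that `Σ¹₁` in `jn x c` with `c` hyperarithmetic is `Σ¹₁` in `x`: the quantifier `∃ c', (∀ a, P (pair a
  (c' a)) 0) ∧ ..`, where `P` defines the graph of `c` (`P` is applied to the constant real
  `fun _ => 0`: `s11_subst` with `recR_primrec`).
-/

namespace BW

open Encodable

variable {C T X H : ℕ → (ℕ → ℕ) → ℕ → ℕ}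

private theorem M6_all {Φ : ℕ → ℕ → (ℕ → ℕ) → Prop}
    (h : S11 (fun n x => Φ (Nat.unpair n).1 (Nat.unpair n).2 x)) : S11 (fun n x => ∀ m, Φ n m x) := by
  refine s11_congr (s11_all h) fun n x => ?_
  simp only [Nat.unpair_pair]

private theorem M6_ex {Φ : ℕ → ℕ → (ℕ → ℕ) → Prop}
    (h : S11 (fun n x => Φ (Nat.unpair n).1 (Nat.unpair n).2 x)) : S11 (fun n x => ∃ m, Φ n m x) := by
  refine s11_congr (s11_ex h) fun n x => ?_
  simp only [Nat.unpair_pair]

private theorem M6_exR {Φ : ℕ → (ℕ → ℕ) → (ℕ → ℕ) → Prop}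
    (h : S11 (fun n u => Φ n (p1 u) (p2 u))) : S11 (fun n x => ∃ y : ℕ → ℕ, Φ n x y) := by
  refine s11_congr (s11_exR h) fun n x => ?_
  simp only [p1_jn, p2_jn]

/-- The number argument replaced by a recursive functional. -/
private theorem M6_F {F : ℕ → (ℕ → ℕ) → ℕ → ℕ} {G : ℕ → (ℕ → ℕ) → ℕ} (hF : RecR F) (hG : Rec G) :
    RecR (fun n x => F (G n x) x) := recR_subst hF hG recR_id

private theorem M6_lists {Φ : List ℕ → List ℕ → Prop} :
    (∀ σ m, Φ σ m) ↔ ∀ a b : ℕ, Φ (dl a) (dl b) := by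
  constructor
  · exact fun h a b => h _ _
  · intro h σ m
    have := h (encode σ) (encode m)
    rwa [dl_encode, dl_encode] at this

private theorem M6_2 {Φ : ℕ → ℕ → ℕ → (ℕ → ℕ) → Prop}
    (h : S11 (fun n x => Φ (Nat.unpair (Nat.unpair n).1).1 (Nat.unpair (Nat.unpair n).1).2
      (Nat.unpair n).2 x)) : S11 (fun n x => ∀ a b, Φ n a b x) := by
  refine M6_all (Φ := fun n a x => ∀ b, Φ n a b x) ?_
  exact M6_all (Φ := fun n b x => Φ (Nat.unpair n).1 (Nat.unpair n).2 b x) h

private theorem M6_n : Rec (fun n _ => (Nat.unpair (Nat.unpair n).1).1) := rec_fst (rec_fst rec_id)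

private theorem M6_a : Rec (fun n _ => (Nat.unpair (Nat.unpair n).1).2) := rec_snd (rec_fst rec_id)

private theorem M6_b : Rec (fun n _ => (Nat.unpair n).2) := rec_snd rec_id

/-- The value `T (pt (dl a) (dl b))`. -/
private theorem M6_T0 {T : ℕ → (ℕ → ℕ) → ℕ → ℕ} {A B : ℕ → (ℕ → ℕ) → ℕ} (hT : RecR T) (hA : Rec A)
    (hB : Rec B) : RecP (fun n x => T n x (pt (dl (A n x)) (dl (B n x))) = 1) := by
  refine recP_congr (recP_eq (recR_app hT (rec_pair hA hB)) (rec_const 1)) fun n x => ?_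
  simp only [pt, encode_dl]

private theorem M6_T1 {T : ℕ → (ℕ → ℕ) → ℕ → ℕ} {S M : ℕ → (ℕ → ℕ) → List ℕ} (hT : RecR T)
    (hS : Rec (fun n x => encode (S n x))) (hM : Rec (fun n x => encode (M n x))) :
    RecP (fun n x => T n x (pt (S n x) (M n x)) = 1) :=
  recP_eq (recR_app hT (rec_pair hS hM)) (rec_const 1)

private theorem M6_dl {A : ℕ → (ℕ → ℕ) → ℕ} (hA : Rec A) : Rec (fun n x => encode (dl (A n x))) := by
  have h : (fun n x => encode (dl (A n x))) = A := by
    funext n x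
    rw [encode_dl]
  rw [h]
  exact hA

/-- The tag and the data of a node. -/
private theorem M6_nd {C : ℕ → (ℕ → ℕ) → ℕ → ℕ} {A : ℕ → (ℕ → ℕ) → ℕ} (hC : RecR C) (hA : Rec A) (k : ℕ) :
    Rec (fun n x => nd (C n x) (dl (A n x)) k) :=
  recR_app (recR_nd hC hA) (rec_const k)

private theorem M6_eval_iff (c T : ℕ → ℕ) : Eval c T ↔
    (∀ k, T k ≤ 1) ∧
    (∀ a b, nd c (dl a) 0 = 2 → (T (pt (dl a) (dl b)) = 1 ↔ ¬ T (pt (dl a ++ [0]) (dl b)) = 1)) ∧
    (∀ a b, nd c (dl a) 0 = 3 →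
      (T (pt (dl a) (dl b)) = 1 → ∀ k, T (pt (dl a ++ [k]) (dl b)) = 1) ∧
      (T (pt (dl a) (dl b)) = 1 ∨ ∃ k, ¬ T (pt (dl a ++ [k]) (dl b)) = 1)) ∧
    (∀ a b, nd c (dl a) 0 = 4 →
      (T (pt (dl a) (dl b)) = 1 → ∀ k, T (pt (dl a ++ [0]) (upd (dl b) (nd c (dl a) 1) k)) = 1) ∧
      (T (pt (dl a) (dl b)) = 1 ∨ ∃ k, ¬ T (pt (dl a ++ [0]) (upd (dl b) (nd c (dl a) 1) k)) = 1)) ∧
    (∀ a b, nd c (dl a) 0 = 5 →
      (T (pt (dl a) (dl b)) = 1 ↔ T (pt (dl a ++ [0]) (rn (dl b) (dl (nd c (dl a) 1)))) = 1)) := by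
  constructor
  · intro h
    refine ⟨h.bit, fun a b => h.neg _ _, fun a b h0 => ?_, fun a b h0 => ?_, fun a b => h.ren _ _⟩
    · have h1 := h.conj (dl a) (dl b) h0
      refine ⟨h1.mp, ?_⟩
      by_cases h2 : T (pt (dl a) (dl b)) = 1
      · exact Or.inl h2
      · right
        by_contra h3
        push Not at h3
        exact h2 (h1.mpr h3)
    · have h1 := h.all (dl a) (dl b) h0
      refine ⟨h1.mp, ?_⟩
      by_cases h2 : T (pt (dl a) (dl b)) = 1
      · exact Or.inl h2
      · right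
        by_contra h3
        push Not at h3
        exact h2 (h1.mpr h3)
  · rintro ⟨h0, h1, h2, h3, h4⟩
    refine ⟨h0, M6_lists.mpr h1, M6_lists.mpr fun a b he => ?_, M6_lists.mpr fun a b he => ?_,
      M6_lists.mpr h4⟩
    · obtain ⟨h5, h6⟩ := h2 a b he
      refine ⟨h5, fun h7 => ?_⟩
      rcases h6 with h6 | ⟨k, hk⟩
      · exact h6
      · exact absurd (h7 k) hk
    · obtain ⟨h5, h6⟩ := h3 a b he
      refine ⟨h5, fun h7 => ?_⟩
      rcases h6 with h6 | ⟨k, hk⟩
      · exact h6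
      · exact absurd (h7 k) hk

/-- A recursive equivalence with a universal quantifier, as two clauses. -/
private theorem M6_clause {D A : ℕ → (ℕ → ℕ) → Prop} {B : ℕ → ℕ → (ℕ → ℕ) → Prop} (hD : RecP D)
    (hA : RecP A) (hB : RecP (fun n x => B (Nat.unpair n).1 (Nat.unpair n).2 x)) :
    S11 (fun n x => D n x → (A n x → ∀ k, B n k x) ∧ (A n x ∨ ∃ k, ¬ B n k x)) := by
  refine s11_imp hD (s11_and (s11_imp hA (M6_all (s11_of_rec hB))) (s11_or (s11_of_rec hA) ?_))
  exact M6_ex (Φ := fun n k x => ¬ B n k x) (s11_of_rec (recP_not hB))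

theorem s11_eval (hC : RecR C) (hT : RecR T) : S11 (fun n x => Eval (C n x) (T n x)) := by
  refine s11_congr ?_ fun n x => (M6_eval_iff (C n x) (T n x)).symm
  have hC1 := M6_F hC M6_n
  have hT1 := M6_F hT M6_n
  have hC2 := M6_F hC (rec_fst M6_n)
  have hT2 := M6_F hT (rec_fst M6_n)
  refine s11_and ?_ (s11_and ?_ (s11_and ?_ (s11_and ?_ ?_)))
  · refine M6_all (Φ := fun n k x => T n x k ≤ 1) (s11_of_rec ?_)
    exact recP_le (recR_app (M6_F hT (rec_fst rec_id)) (rec_snd rec_id)) (rec_const 1)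
  · refine M6_2 (Φ := fun n a b x => nd (C n x) (dl a) 0 = 2 →
      (T n x (pt (dl a) (dl b)) = 1 ↔ ¬ T n x (pt (dl a ++ [0]) (dl b)) = 1)) (s11_of_rec ?_)
    exact recP_imp (recP_eq (M6_nd hC1 M6_a 0) (rec_const 2)) (recP_iff (M6_T0 hT1 M6_a M6_b)
      (recP_not (M6_T1 hT1 (rec_snoc M6_a (rec_const 0)) (M6_dl M6_b))))
  · refine M6_2 (Φ := fun n a b x => nd (C n x) (dl a) 0 = 3 →
      (T n x (pt (dl a) (dl b)) = 1 → ∀ k, T n x (pt (dl a ++ [k]) (dl b)) = 1) ∧
      (T n x (pt (dl a) (dl b)) = 1 ∨ ∃ k, ¬ T n x (pt (dl a ++ [k]) (dl b)) = 1)) ?_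
    refine M6_clause (B := fun n k x => T (Nat.unpair (Nat.unpair n).1).1 x
      (pt (dl (Nat.unpair (Nat.unpair n).1).2 ++ [k]) (dl (Nat.unpair n).2)) = 1)
      (recP_eq (M6_nd hC1 M6_a 0) (rec_const 3)) (M6_T0 hT1 M6_a M6_b) ?_
    exact M6_T1 (M6_F hT (rec_fst (rec_fst (rec_fst rec_id))))
      (rec_snoc (rec_snd (rec_fst (rec_fst rec_id))) (rec_snd rec_id)) (M6_dl (rec_snd (rec_fst rec_id)))
  · refine M6_2 (Φ := fun n a b x => nd (C n x) (dl a) 0 = 4 →
      (T n x (pt (dl a) (dl b)) = 1 →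
        ∀ k, T n x (pt (dl a ++ [0]) (upd (dl b) (nd (C n x) (dl a) 1) k)) = 1) ∧
      (T n x (pt (dl a) (dl b)) = 1 ∨
        ∃ k, ¬ T n x (pt (dl a ++ [0]) (upd (dl b) (nd (C n x) (dl a) 1) k)) = 1)) ?_
    refine M6_clause (B := fun n k x => T (Nat.unpair (Nat.unpair n).1).1 x
      (pt (dl (Nat.unpair (Nat.unpair n).1).2 ++ [0]) (upd (dl (Nat.unpair n).2)
        (nd (C (Nat.unpair (Nat.unpair n).1).1 x) (dl (Nat.unpair (Nat.unpair n).1).2) 1) k)) = 1)
      (recP_eq (M6_nd hC1 M6_a 0) (rec_const 4)) (M6_T0 hT1 M6_a M6_b) ?_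
    exact M6_T1 (M6_F hT (rec_fst (rec_fst (rec_fst rec_id))))
      (rec_snoc (rec_snd (rec_fst (rec_fst rec_id))) (rec_const 0))
      (rec_upd (rec_snd (rec_fst rec_id))
        (M6_nd (M6_F hC (rec_fst (rec_fst (rec_fst rec_id)))) (rec_snd (rec_fst (rec_fst rec_id))) 1)
        (rec_snd rec_id))
  · refine M6_2 (Φ := fun n a b x => nd (C n x) (dl a) 0 = 5 → (T n x (pt (dl a) (dl b)) = 1 ↔
      T n x (pt (dl a ++ [0]) (rn (dl b) (dl (nd (C n x) (dl a) 1)))) = 1)) (s11_of_rec ?_)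
    exact recP_imp (recP_eq (M6_nd hC1 M6_a 0) (rec_const 5)) (recP_iff (M6_T0 hT1 M6_a M6_b)
      (M6_T1 hT1 (rec_snoc M6_a (rec_const 0)) (rec_rn M6_b (M6_nd hC1 M6_a 1))))

theorem s11_evalAt (hC : RecR C) (hT : RecR T) (hX : RecR X) (hH : RecR H) :
    S11 (fun n x => EvalAt (C n x) (T n x) (fun a b => H n x a = H n x b)
      (fun k l => X n x (Nat.pair (k + 1) (encode (l.map (H n x)))) = 1)) := by
  have hC1 := M6_F hC M6_n
  have hT1 := M6_F hT M6_n
  have hX1 := M6_F hX M6_n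
  have hH1 := M6_F hH M6_n
  refine s11_congr (P := fun n x =>
    (∀ a b, nd (C n x) (dl a) 0 = 0 → (T n x (pt (dl a) (dl b)) = 1 ↔
      H n x (asg (dl b) (nd (C n x) (dl a) 1)) = H n x (asg (dl b) (nd (C n x) (dl a) 2)))) ∧
    (∀ a b, nd (C n x) (dl a) 0 = 1 → (T n x (pt (dl a) (dl b)) = 1 ↔
      X n x (Nat.pair (nd (C n x) (dl a) 1 + 1)
        (encode (((dl (nd (C n x) (dl a) 2)).map (asg (dl b))).map (H n x)))) = 1))) ?_ fun n x => ?_
  · refine s11_and ?_ ?_
    · refine M6_2 (Φ := fun n a b x => nd (C n x) (dl a) 0 = 0 → (T n x (pt (dl a) (dl b)) = 1 ↔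
        H n x (asg (dl b) (nd (C n x) (dl a) 1)) = H n x (asg (dl b) (nd (C n x) (dl a) 2))))
        (s11_of_rec ?_)
      exact recP_imp (recP_eq (M6_nd hC1 M6_a 0) (rec_const 0)) (recP_iff (M6_T0 hT1 M6_a M6_b)
        (recP_eq (recR_app hH1 (rec_asg M6_b (M6_nd hC1 M6_a 1)))
          (recR_app hH1 (rec_asg M6_b (M6_nd hC1 M6_a 2)))))
    · refine M6_2 (Φ := fun n a b x => nd (C n x) (dl a) 0 = 1 → (T n x (pt (dl a) (dl b)) = 1 ↔
        X n x (Nat.pair (nd (C n x) (dl a) 1 + 1)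
          (encode (((dl (nd (C n x) (dl a) 2)).map (asg (dl b))).map (H n x)))) = 1)) (s11_of_rec ?_)
      refine recP_imp (recP_eq (M6_nd hC1 M6_a 0) (rec_const 1)) (recP_iff (M6_T0 hT1 M6_a M6_b) ?_)
      refine recP_congr (recP_eq (recR_app (recR_img hH1 hX1)
        (rec_pair (rec_comp Primrec.succ (M6_nd hC1 M6_a 1)) (rec_map_asg (M6_nd hC1 M6_a 2) M6_b)))
        (rec_const 1)) fun n x => ?_
      rw [img_apply]
  · constructor
    · rintro ⟨h1, h2⟩
      exact ⟨M6_lists.mpr h1, M6_lists.mpr h2⟩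
    · intro h
      exact ⟨fun a b => h.eq _ _, fun a b => h.rel _ _⟩

private theorem M6_enc1 : Primrec (fun a : ℕ => encode [a]) :=
  Primrec.encode.comp (Primrec.list_cons.comp Primrec.id (Primrec.const []))

private theorem M6_len {A : ℕ → (ℕ → ℕ) → ℕ} (hA : Rec A) : Rec (fun n x => (dl (A n x)).length) :=
  rec_comp (f := fun q => (dl q).length) (Primrec.list_length.comp primrec_dl) hA

private theorem M6_dom {X : ℕ → (ℕ → ℕ) → ℕ → ℕ} {A : ℕ → (ℕ → ℕ) → ℕ} (hX : RecR X) (hA : Rec A) :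
    RecP (fun n x => dom (X n x) (A n x)) :=
  recP_eq (recR_app hX (rec_pair (rec_const 0) (rec_comp (f := fun a : ℕ => encode [a]) M6_enc1 hA))) (rec_const 1)

private theorem M6_isCd_iff (x : ℕ → ℕ) : IsCd x ↔ (∀ n, x n ≤ 1) ∧
    (∀ q, x (Nat.pair 0 q) = 1 → ∃ a : ℕ, q = encode [a]) ∧
    (∀ k q, ∀ i, x (Nat.pair (k + 1) q) = 1 → i < (dl q).length → dom x (asg (dl q) i)) ∧
    (∃ a, dom x a) ∧ ∀ n, ∃ a, n ≤ a ∧ ¬ dom x a := by
  constructor
  · intro h
    refine ⟨h.bit, fun q hq => ?_, fun k q i h1 h2 => ?_, h.ne, h.coinf⟩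
    · have h1 := h.zero (dl q) (by rw [encode_dl]; exact hq)
      obtain ⟨a, ha⟩ := h1
      refine ⟨a, ?_⟩
      rw [← ha, encode_dl]
    · have h3 := h.rel k (dl q) (by rw [encode_dl]; exact h1)
      refine h3 _ ?_
      unfold asg
      rw [List.getD_eq_getElem _ _ h2]
      exact List.getElem_mem h2
  · rintro ⟨h0, h1, h2, h3, h4⟩
    refine ⟨h0, fun l hl => ?_, fun k l hl a ha => ?_, h3, h4⟩
    · obtain ⟨a, ha⟩ := h1 _ hl
      exact ⟨a, encode_injective ha⟩
    · obtain ⟨i, hi, rfl⟩ := List.getElem_of_mem ha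
      have h5 := h2 k (encode l) i hl (by rw [dl_encode]; exact hi)
      rw [dl_encode] at h5
      unfold asg at h5
      rw [List.getD_eq_getElem _ _ hi] at h5
      exact h5

theorem s11_isCd (hX : RecR X) : S11 (fun n x => IsCd (X n x)) := by
  refine s11_congr ?_ fun n x => (M6_isCd_iff (X n x)).symm
  have hX1 := M6_F hX (rec_fst rec_id)
  have h2 : Rec (fun n _ => (Nat.unpair n).2) := rec_snd rec_id
  refine s11_and ?_ (s11_and ?_ (s11_and ?_ (s11_and ?_ ?_)))
  · refine M6_all (Φ := fun n k x => X n x k ≤ 1) (s11_of_rec ?_)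
    exact recP_le (recR_app hX1 h2) (rec_const 1)
  · refine M6_all (Φ := fun n q x => X n x (Nat.pair 0 q) = 1 → ∃ a : ℕ, q = encode [a]) ?_
    refine s11_imp (recP_eq (recR_app hX1 (rec_pair (rec_const 0) h2)) (rec_const 1)) ?_
    refine M6_ex (Φ := fun n a _ => (Nat.unpair n).2 = encode [a]) (s11_of_rec ?_)
    exact recP_eq (rec_snd (rec_fst rec_id)) (rec_comp (f := fun a : ℕ => encode [a]) M6_enc1 h2)
  · refine M6_2 (Φ := fun n k q x => ∀ i, X n x (Nat.pair (k + 1) q) = 1 → i < (dl q).length →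
      dom (X n x) (asg (dl q) i)) ?_
    refine M6_all (Φ := fun n i x => X (Nat.unpair (Nat.unpair n).1).1 x
      (Nat.pair ((Nat.unpair (Nat.unpair n).1).2 + 1) (Nat.unpair n).2) = 1 →
      i < (dl (Nat.unpair n).2).length →
      dom (X (Nat.unpair (Nat.unpair n).1).1 x) (asg (dl (Nat.unpair n).2) i)) (s11_of_rec ?_)
    have hX3 := M6_F hX (rec_fst (rec_fst (rec_fst rec_id)))
    have hq : Rec (fun n _ => (Nat.unpair (Nat.unpair n).1).2) := rec_snd (rec_fst rec_id)
    exact recP_imp (recP_eq (recR_app hX3 (rec_pair (rec_comp Primrec.succ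
      (rec_snd (rec_fst (rec_fst rec_id)))) hq)) (rec_const 1))
      (recP_imp (recP_lt h2 (M6_len hq)) (M6_dom hX3 (rec_asg hq h2)))
  · exact M6_ex (Φ := fun n a x => dom (X n x) a) (s11_of_rec (M6_dom hX1 h2))
  · refine M6_all (Φ := fun n k x => ∃ a, k ≤ a ∧ ¬ dom (X n x) a) ?_
    refine M6_ex (Φ := fun n a x => (Nat.unpair n).2 ≤ a ∧ ¬ dom (X (Nat.unpair n).1 x) a)
      (s11_of_rec ?_)
    exact recP_and (recP_le (rec_snd (rec_fst rec_id)) h2)
      (recP_not (M6_dom (M6_F hX (rec_fst (rec_fst rec_id))) h2))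

/-- elimination of a hyperarithmetic parameter -/
theorem s11_hyp {c : ℕ → ℕ} (hc : Hyp c) {P : ℕ → (ℕ → ℕ) → Prop} (hP : S11 P) :
    S11 (fun n x => P n (jn c x)) := by
  obtain ⟨P0, hP0, hc0⟩ := hc
  refine s11_congr (P := fun n x => ∃ c' : ℕ → ℕ,
    (∀ a, P0 (Nat.pair a (c' a)) (fun _ => 0)) ∧ P n (jn c' x)) ?_ fun n x => ?_
  · refine M6_exR (Φ := fun n x c' => (∀ a, P0 (Nat.pair a (c' a)) (fun _ => 0)) ∧ P n (jn c' x)) ?_
    refine s11_and ?_ ?_
    · refine M6_all (Φ := fun n a u => P0 (Nat.pair a (p2 u a)) (fun _ => 0)) ?_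
      have h2 : Rec (fun n _ => (Nat.unpair n).2) := rec_snd rec_id
      exact s11_subst hP0 (rec_pair h2 (recR_app (recR_p2 recR_id) h2))
        (recR_primrec (f := fun _ => 0) (Primrec.const 0))
    · exact s11_subst hP rec_id (recR_jn (recR_p2 recR_id) (recR_p1 recR_id))
  · constructor
    · rintro ⟨c', h1, h2⟩
      have h3 : c' = c := funext fun a => ((hc0 a (c' a)).mp (h1 a)).symm
      rw [← h3]
      exact h2
    · intro h
      exact ⟨c, fun a => (hc0 a (c a)).mpr rfl, h⟩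

/-- names of the elements of the domain -/
def Names (x h : ℕ → ℕ) : Prop := (∀ i, dom x (h i)) ∧ ∀ a, dom x a → ∃ i, h i = a

theorem s11_names (hX : RecR X) (hH : RecR H) : S11 (fun n x => Names (X n x) (H n x)) := by
  have hX1 := M6_F hX (rec_fst rec_id)
  have hH1 := M6_F hH (rec_fst rec_id)
  have h2 : Rec (fun n _ => (Nat.unpair n).2) := rec_snd rec_id
  unfold Names
  refine s11_and ?_ ?_
  · refine M6_all (Φ := fun n i x => dom (X n x) (H n x i)) (s11_of_rec ?_)
    exact M6_dom hX1 (recR_app hH1 h2)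
  · refine M6_all (Φ := fun n a x => dom (X n x) a → ∃ i, H n x i = a) ?_
    refine s11_imp (M6_dom hX1 h2) ?_
    refine M6_ex (Φ := fun n i x => H (Nat.unpair n).1 x i = (Nat.unpair n).2) (s11_of_rec ?_)
    exact recP_eq (recR_app (M6_F hH (rec_fst (rec_fst rec_id))) h2) (rec_snd (rec_fst rec_id))

private theorem M6_at {x h c T : ℕ → ℕ} (hn : Names x h) :
    EvalAt c T (fun a b => h a = h b) (fun k l => x (Nat.pair (k + 1) (encode (l.map h))) = 1) ↔
      EvalAt c T (fun a b => (⟨h a, hn.1 a⟩ : {a : ℕ // dom x a}) = ⟨h b, hn.1 b⟩)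
        (fun k l => (strOf x).rel k (l.map fun i => (⟨h i, hn.1 i⟩ : {a : ℕ // dom x a}))) := by
  have h1 : (fun a b => (⟨h a, hn.1 a⟩ : {a : ℕ // dom x a}) = ⟨h b, hn.1 b⟩) =
      fun a b => h a = h b := by
    funext a b
    simp only [Subtype.mk.injEq]
  have h2 : (fun k (l : List ℕ) => (strOf x).rel k (l.map fun i => (⟨h i, hn.1 i⟩ : {a : ℕ // dom x a}))) =
      fun k l => x (Nat.pair (k + 1) (encode (l.map h))) = 1 := by
    funext k l
    show (x (Nat.pair (k + 1) (encode ((l.map fun i => (⟨h i, hn.1 i⟩ : {a : ℕ // dom x a})).map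
      Subtype.val))) = 1) = _
    rw [List.map_map]
    rfl
  rw [h1, h2]

/-- truth in the coded structure, with names given by a real -/
theorem s11_truth :
    ∃ Q, S11 Q ∧ ∀ (φ : Fml) (c x h : ℕ → ℕ) (hn : Names x h) (σ m : List ℕ), HasCode φ c →
      (Q (pt σ m) (jn c (jn x h)) ↔
        Sat (strOf x) (φ.at σ) (fun i => ⟨h (asg m i), hn.1 (asg m i)⟩)) := by
  refine ⟨fun n u => ∃ T : ℕ → ℕ, Eval (p1 u) T ∧
    EvalAt (p1 u) T (fun a b => p2 (p2 u) a = p2 (p2 u) b)
      (fun k l => p1 (p2 u) (Nat.pair (k + 1) (encode (l.map (p2 (p2 u))))) = 1) ∧ T n = 1, ?_, ?_⟩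
  · refine M6_exR (Φ := fun n u T => Eval (p1 u) T ∧
      EvalAt (p1 u) T (fun a b => p2 (p2 u) a = p2 (p2 u) b)
        (fun k l => p1 (p2 u) (Nat.pair (k + 1) (encode (l.map (p2 (p2 u))))) = 1) ∧ T n = 1) ?_
    have h1 : RecR (fun _ u => p1 (p1 u)) := recR_p1 (recR_p1 recR_id)
    have h2 : RecR (fun _ u => p2 u) := recR_p2 recR_id
    have h3 : RecR (fun _ u => p2 (p2 (p1 u))) := recR_p2 (recR_p2 (recR_p1 recR_id))
    have h4 : RecR (fun _ u => p1 (p2 (p1 u))) := recR_p1 (recR_p2 (recR_p1 recR_id))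
    exact s11_and (s11_eval h1 h2) (s11_and (s11_evalAt h1 h2 h4 h3)
      (s11_of_rec (recP_eq (recR_app h2 rec_id) (rec_const 1))))
  · intro φ c x h hn σ m hc
    simp only [p1_jn, p2_jn]
    have hh : Function.Surjective (fun i => (⟨h i, hn.1 i⟩ : {a : ℕ // dom x a})) := by
      rintro ⟨a, ha⟩
      obtain ⟨i, hi⟩ := hn.2 a ha
      exact ⟨i, Subtype.ext hi⟩
    constructor
    · rintro ⟨T, hT, hA, h1⟩
      exact (truth (h := fun i => (⟨h i, hn.1 i⟩ : {a : ℕ // dom x a})) hc hT hh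
        ((M6_at hn).mp hA) σ m).mp h1
    · intro h1
      refine ⟨Tru (strOf x) φ (fun i => (⟨h i, hn.1 i⟩ : {a : ℕ // dom x a})), tru_eval hc hh,
        (M6_at hn).mpr (tru_evalAt hc), ?_⟩
      exact (tru_pt _ _ _ σ m).mpr h1

theorem s11_mod {φ : Fml} (hs : φ.free = ∅) (hc : HypFml φ) :
    ∃ K, S11 K ∧ ∀ n x, K n x ↔ IsCd x ∧ Mod (strOf x) φ := by
  obtain ⟨c, hc, hcode⟩ := hc
  obtain ⟨Q, hQ, hQt⟩ := s11_truth
  refine ⟨fun n x => IsCd x ∧ ∃ h : ℕ → ℕ, Names x h ∧ Q (pt [] []) (jn c (jn x h)), ?_, ?_⟩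
  · refine s11_and (s11_isCd recR_id) ?_
    refine M6_exR (Φ := fun n x h => Names x h ∧ Q (pt [] []) (jn c (jn x h))) ?_
    refine s11_and (s11_names (recR_p1 recR_id) (recR_p2 recR_id)) ?_
    exact s11_subst (P := fun n x => Q n (jn c x)) (F := fun _ u => jn (p1 u) (p2 u)) (s11_hyp hc hQ)
      (rec_const (pt [] []))
      (recR_jn (recR_p1 recR_id) (recR_p2 recR_id))
  · intro n x
    have key : ∀ h : ℕ → ℕ, ∀ hn : Names x h, (Q (pt [] []) (jn c (jn x h)) ↔ Mod (strOf x) φ) := by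
      intro h hn
      rw [hQt φ c x h hn [] [] hcode]
      exact (mod_iff hs _).symm
    constructor
    · rintro ⟨h1, h, hn, h2⟩
      exact ⟨h1, (key h hn).mp h2⟩
    · rintro ⟨h1, h2⟩
      obtain ⟨a0, ha0⟩ := h1.ne
      classical
      have hn : Names x (fun i => if dom x i then i else a0) := by
        constructor
        · intro i
          by_cases hi : dom x i
          · simp only [if_pos hi]
            exact hi
          · simp only [if_neg hi]
            exact ha0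
        · intro a ha
          exact ⟨a, if_pos ha⟩
      exact ⟨h1, _, hn, (key _ hn).mpr h2⟩

end BW
end

section

/-!
# BW.B7 : structures which are `(SR M + ω)`-equivalent to `M`

PROOF.  Let `δ = SR M`.  Apply `iso_of_system` to `Z a' b' :⇔ BF M N δ a' b'`, which contains the pair `([], [])`
(`bf_append_left`).  Let `BF M N δ a' b'`.
(*) There is a tuple `a''` with `BF M N (δ + 1) a'' b'`: by induction on `n = b'.length` one gets from
`BF M N (δ + 1 + n) a b` (`bf_mono`; `δ + 1 + n < δ + ω`) a tuple `a''` with `BF M N (δ + 1) (a ++ a'') (b ++ b')`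
(answer the elements of `b'` one after the other); then `bf_append_right`.
So `BF M M δ a' a''` (`bf_trans`, `bf_symm`, `bf_mono`), so there is an automorphism `g` with `a'.map g = a''`
(`sr_prop`), so `BF M M (δ + 1) a' a''` (`bf_iso`), so `BF M N (δ + 1) a' b'` (`bf_trans`).  Hence for every `c` there is
`d` with `BF M N δ (a' ++ [c]) (b' ++ [d])`, and for every `d` there is such a `c`.
-/

namespace BW

private theorem b7_ext {A B : Type} {M : Str A} {N : Str B} (δ : Ordinal.{0}) (l : List B) :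
    ∀ (a : List A) (b : List B), BF M N (δ + 1 + l.length) a b →
      ∃ a'' : List A, BF M N (δ + 1) (a ++ a'') (b ++ l) := by
  induction l with
  | nil =>
    intro a b h
    refine ⟨[], ?_⟩
    rw [List.append_nil, List.append_nil]
    simpa using h
  | cons d l ih =>
    intro a b h
    have hlt : δ + 1 + (l.length : Ordinal.{0}) < δ + 1 + ((d :: l).length : Ordinal.{0}) := by
      rw [List.length_cons]
      push_cast
      rw [← add_assoc]
      exact Order.lt_add_one_iff.mpr le_rfl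
    obtain ⟨c, hc⟩ := ((bf_iff.1 h).2 _ hlt).2 d
    obtain ⟨a'', ha''⟩ := ih _ _ hc
    refine ⟨c :: a'', ?_⟩
    simpa using ha''

theorem iso_of_bf {A B : Type} [Countable A] [Countable B] {M : Str A} {N : Str B} {a : List A}
    {b : List B} (h : BF M N (SR M + Ordinal.omega0) a b) : ∃ f : A ≃ B, IsIso M N f := by
  have hδ1 : ∀ n : ℕ, SR M + 1 + (n : Ordinal.{0}) ≤ SR M + Ordinal.omega0 := by
    intro n
    rw [add_assoc]
    refine add_le_add_right ?_ _
    have h1 : (1 : Ordinal.{0}) + (n : Ordinal.{0}) = ((1 + n : ℕ) : Ordinal.{0}) := by push_cast; rfl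
    rw [h1]
    exact (Ordinal.natCast_lt_omega0 _).le
  have hδ : SR M ≤ SR M + Ordinal.omega0 := le_self_add
  have hδ' : SR M < SR M + 1 := Order.lt_add_one_iff.mpr le_rfl
  have up : ∀ (a' : List A) (b' : List B), BF M N (SR M) a' b' → BF M N (SR M + 1) a' b' := by
    intro a' b' h'
    obtain ⟨a'', ha''⟩ := b7_ext (M := M) (N := N) (SR M) b' a b (bf_mono (hδ1 _) h)
    have h2 : BF M N (SR M + 1) a'' b' := bf_append_right (bf_length h) ha''
    have h3 : BF M M (SR M) a' a'' := bf_trans h' (bf_symm (bf_mono hδ'.le h2))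
    obtain ⟨g, hg, hg2⟩ := sr_prop M h3
    have h4 := bf_iso hg (SR M + 1) a'
    rw [hg2] at h4
    exact bf_trans h4 h2
  have h0 : BF M N (SR M) [] [] := by
    refine bf_append_left (a' := a) (b' := b) rfl ?_
    exact bf_mono hδ h
  obtain ⟨f, hf, -⟩ := iso_of_system (M := M) (N := N) (fun a' b' => BF M N (SR M) a' b')
    (fun a' b' h' => (bf_iff.1 h').1)
    (fun a' b' h' c => ((bf_iff.1 (up a' b' h')).2 _ hδ').1 c)
    (fun a' b' h' d => ((bf_iff.1 (up a' b' h')).2 _ hδ').2 d) h0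
  exact ⟨f, hf⟩

end BW
end
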