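import Pool.Agent.Lib.MP_62bfd3_lc.Mg.G002
import Pool.Agent.Lib.MP_62bfd3_lc.Mg.G004
import Pool.Agent.Lib.MP_62bfd3_lc.BW.Fm5
import Pool.Agent.Lib.MP_62bfd3_lc.Mg.G001
import Pool.Agent.Lib.MP_62bfd3_lc.Mg.G003
import Pool.Agent.Lib.MP_62bfd3_lc.BW.M1

section

/-!
# BW.M7 : the spectrum is an initial segment of the countable admissible ordinals

PROOF.  `spec_sub` : `exists_codes_eq`.
`spec_down` : let `α = omega1Str M`, `M` a countable model.  `exists_isCd` gives a code `x`, `IsCd x`,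
`omega1S x = α`, and `Mod (strOf x) φ` (`mod_iso`).  Apply `core` to the class `K` of `s11_mod` (as
`fun n u => K n (p2 u)`): there is `x'` with `IsCd x'`, `Mod (strOf x') φ`, `omega1S x' = omega1 z`.  The structure
`strOf x'` is a countable model and `omega1Str (strOf x') = omega1S x'` (`omega1Str_strOf`).
-/

namespace BW

theorem spec_sub (φ : Fml) : Spec φ ⊆ Set.range omega1 := by
  rintro α ⟨A, M, hA, _, _, rfl⟩
  obtain ⟨y, _, hy⟩ := exists_codes_eq (M := M)
  exact ⟨y, hy⟩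

theorem spec_down {φ : Fml} (hs : φ.free = ∅) (hc : HypFml φ) {α : Ordinal.{0}} (h : α ∈ Spec φ)
    (z : ℕ → ℕ) (hz : omega1 z ≤ α) : omega1 z ∈ Spec φ := by
  obtain ⟨A, M, hA, hne, hM, rfl⟩ := h
  obtain ⟨x, hx, hom, f, hf⟩ := exists_isCd M
  obtain ⟨K, hK, hKx⟩ := s11_mod hs hc
  have hK' : S11 (fun n u => K n (p2 u)) := s11_subst hK rec_id (recR_p2 recR_id)
  have h1 : K 0 (p2 (jn z x)) := by
    rw [p2_jn, hKx]
    exact ⟨hx, (mod_iso hf φ).1 hM⟩
  obtain ⟨x', hx', hom'⟩ := core hK' 0 h1 (by rw [← hom]; exact hz)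
  have h2 : K 0 (p2 (jn z x')) := hx'
  rw [p2_jn, hKx] at h2
  obtain ⟨h3, h4⟩ := h2
  refine ⟨{a : ℕ // dom x' a}, strOf x', inferInstance, ?_, h4, ?_⟩
  · obtain ⟨a, ha⟩ := h3.ne
    exact ⟨⟨a, ha⟩⟩
  · rw [omega1Str_strOf h3, hom']

end BW
end

section

/-!
# BW.M8 : truth in coded structures is `Δ¹₁`, for arbitrary names

PROOF.  Here `a` is a real with `dom x (a i)` for all `i` (not necessarily onto `dom x`).
`Tru (strOf x) φ a (pt σ m) = 1` iff there are reals `h`, `r` and an evaluation `T` such that `Names x h`, `h (r i) = a i`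
for all `i`, `r 0 = 0`, `Eval c T`, `EvalAt c T (names by h)` (see `s11_eval`, `s11_evalAt`) and
`T (pt σ (m.map r)) = 1`: by `truth` the last condition says `Sat (strOf x) (φ.at σ) (fun i => h (asg (m.map r) i))`,
and `h (asg (m.map r) i) = a (asg m i)` (for `i ≥ m.length`: `h 0 = h (r 0) = a 0`).  Such `h`, `r`, `T` exist: take
`h 0 = a 0` and let `h (i+1)` enumerate `dom x`; `tru_eval`, `tru_evalAt`.
`m.map r` on codes is a recursive functional (as `recR_img`; or by `rec_prec` on the length).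
For `¬ (.. = 1)` replace the last condition by `T (..) = 0`.
-/

namespace BW

open Encodable

private theorem M8_rec_map {G : ℕ → (ℕ → ℕ) → ℕ} {F : ℕ → (ℕ → ℕ) → ℕ → ℕ} (hG : Rec G)
    (hF : RecR F) : Rec (fun n x => encode ((dl (G n x)).map (F n x))) := by
  have h1 : Rec (fun n x => img (F n x) (fun k => k) (Nat.pair 0 (G n x))) :=
    recR_app (recR_img hF (recR_primrec Primrec.id)) (rec_pair (rec_const 0) hG)
  have h2 := rec_snd h1
  have e : (fun n x => encode ((dl (G n x)).map (F n x))) =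
      fun n x => (Nat.unpair (img (F n x) (fun k => k) (Nat.pair 0 (G n x)))).2 := by
    funext n x
    have : Nat.pair 0 (G n x) = Nat.pair 0 (encode (dl (G n x))) := by rw [encode_dl]
    rw [this, img_apply, Nat.unpair_pair]
  rw [e]
  exact h2

/-- the statement about the witnesses, with the last condition `T (..) = b` -/
private def M8_W (b n : ℕ) (c x a h r T : ℕ → ℕ) : Prop :=
  Names x h ∧ (∀ i, h (r i) = a i) ∧ h 0 = a 0 ∧ Eval c T ∧
    EvalAt c T (fun a b => h a = h b)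
      (fun k l => x (Nat.pair (k + 1) (encode (l.map h))) = 1) ∧
    T (Nat.pair (Nat.unpair n).1 (encode ((dl (Nat.unpair n).2).map r))) = b

private theorem M8_s11 (b : ℕ) : S11 (fun n v => ∃ w : ℕ → ℕ,
    M8_W b n (p1 v) (p1 (p2 v)) (p2 (p2 v)) (p1 w) (p1 (p2 w)) (p2 (p2 w))) := by
  have hc : RecR (fun _ u => p1 (p1 u)) := recR_p1 (recR_p1 recR_id)
  have hx : RecR (fun _ u => p1 (p2 (p1 u))) := recR_p1 (recR_p2 (recR_p1 recR_id))
  have ha : RecR (fun _ u => p2 (p2 (p1 u))) := recR_p2 (recR_p2 (recR_p1 recR_id))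
  have hh : RecR (fun _ u => p1 (p2 u)) := recR_p1 (recR_p2 recR_id)
  have hr : RecR (fun _ u => p1 (p2 (p2 u))) := recR_p1 (recR_p2 (recR_p2 recR_id))
  have hT : RecR (fun _ u => p2 (p2 (p2 u))) := recR_p2 (recR_p2 (recR_p2 recR_id))
  have h2 : S11 (fun (_ : ℕ) u => ∀ i, p1 (p2 u) (p1 (p2 (p2 u)) i) = p2 (p2 (p1 u)) i) := by
    have : RecP (fun n u => p1 (p2 u) (p1 (p2 (p2 u)) (Nat.unpair n).2) =
        p2 (p2 (p1 u)) (Nat.unpair n).2) :=
      recP_eq (recR_app hh (recR_app hr (rec_snd rec_id))) (recR_app ha (rec_snd rec_id))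
    refine s11_congr (s11_all (s11_of_rec this)) fun n x => ?_
    simp only [Nat.unpair_pair]
  have h3 : S11 (fun (_ : ℕ) u => p1 (p2 u) 0 = p2 (p2 (p1 u)) 0) :=
    s11_of_rec (recP_eq (recR_app hh (rec_const 0)) (recR_app ha (rec_const 0)))
  have h6 : S11 (fun n u => p2 (p2 (p2 u)) (Nat.pair (Nat.unpair n).1
      (encode ((dl (Nat.unpair n).2).map (p1 (p2 (p2 u)))))) = b) :=
    s11_of_rec (recP_eq (recR_app hT (rec_pair (rec_fst rec_id)
      (M8_rec_map (rec_snd rec_id) hr))) (rec_const b))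
  have key := s11_exR (s11_and (s11_names hx hh) (s11_and h2 (s11_and h3
    (s11_and (s11_eval hc hT) (s11_and (s11_evalAt hc hT hx hh) h6)))))
  refine s11_congr key fun n v => ?_
  simp only [p1_jn, p2_jn, M8_W]

private theorem M8_main {φ : Fml} {c x a h r T : ℕ → ℕ} (ha : ∀ i, dom x (a i))
    (hc : HasCode φ c) {b n : ℕ} (hW : M8_W b n c x a h r T) :
    (T (Nat.pair (Nat.unpair n).1 (encode ((dl (Nat.unpair n).2).map r))) = 1 ↔
      Tru (strOf x) φ (fun i => ⟨a i, ha i⟩) n = 1) := by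
  obtain ⟨hn, h2, h3, h4, h5, -⟩ := hW
  have hn' : n = pt (dl (Nat.unpair n).1) (dl (Nat.unpair n).2) := by
    unfold pt
    rw [encode_dl, encode_dl, Nat.pair_unpair]
  generalize hσ : dl (Nat.unpair n).1 = σ at hn'
  generalize hm : dl (Nat.unpair n).2 = m at hn'
  have e1 : Nat.pair (Nat.unpair n).1 (encode (m.map r)) = pt σ (m.map r) := by
    unfold pt
    rw [← hσ, encode_dl]
  rw [e1, hn', tru_pt]
  let H : ℕ → {n : ℕ // dom x n} := fun i => ⟨h i, hn.1 i⟩
  have hH : Function.Surjective H := by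
    rintro ⟨y, hy⟩
    obtain ⟨i, hi⟩ := hn.2 y hy
    exact ⟨i, Subtype.ext hi⟩
  have hmap : ∀ l : List ℕ, l.map h = (l.map H).map Subtype.val := by
    intro l
    rw [List.map_map]
    rfl
  have hA : EvalAt c T (fun a b => H a = H b) (fun k l => (strOf x).rel k (l.map H)) := by
    refine ⟨fun σ m hs => ?_, fun σ m hs => ?_⟩
    · rw [h5.eq σ m hs]
      exact ⟨fun q => Subtype.ext q, fun q => congrArg Subtype.val q⟩
    · rw [h5.rel σ m hs, hmap]
      exact Iff.rfl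
  rw [truth hc h4 hH hA σ (m.map r)]
  have e2 : (fun i => H (asg (m.map r) i)) = fun i => (⟨a (asg m i), ha (asg m i)⟩ :
      {n : ℕ // dom x n}) := by
    funext i
    apply Subtype.ext
    show h (asg (m.map r) i) = a (asg m i)
    unfold asg
    by_cases hi : i < m.length
    · rw [List.getD_eq_getElem _ _ (by simpa using hi), List.getD_eq_getElem _ _ hi,
        List.getElem_map]
      exact h2 _
    · rw [List.getD_eq_default _ _ (by simpa using hi), List.getD_eq_default _ _ (by omega)]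
      exact h3
  rw [e2]

/-- the witnesses exist -/
private theorem M8_exists {φ : Fml} {c x a : ℕ → ℕ} (ha : ∀ i, dom x (a i))
    (hc : HasCode φ c) (n : ℕ) : ∃ h r T : ℕ → ℕ, ∀ b,
      T (Nat.pair (Nat.unpair n).1 (encode ((dl (Nat.unpair n).2).map r))) = b →
        M8_W b n c x a h r T := by
  have : Nonempty {n : ℕ // dom x n} := ⟨⟨a 0, ha 0⟩⟩
  obtain ⟨e, he⟩ := exists_surjective_nat {n : ℕ // dom x n}
  let h : ℕ → ℕ := fun i => Nat.casesOn i (a 0) (fun j => (e j).1)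
  have hd : ∀ i, dom x (h i) := by
    intro i
    cases i with
    | zero => exact ha 0
    | succ j => exact (e j).2
  have hs : ∀ y, dom x y → ∃ i, h i = y := by
    intro y hy
    obtain ⟨j, hj⟩ := he ⟨y, hy⟩
    refine ⟨j + 1, ?_⟩
    show (e j).1 = y
    rw [hj]
  choose r hr using fun i => hs (a i) (ha i)
  let H : ℕ → {n : ℕ // dom x n} := fun i => ⟨h i, hd i⟩
  have hH : Function.Surjective H := by
    rintro ⟨y, hy⟩
    obtain ⟨i, hi⟩ := hs y hy
    exact ⟨i, Subtype.ext hi⟩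
  have hmap : ∀ l : List ℕ, l.map h = (l.map H).map Subtype.val := by
    intro l
    rw [List.map_map]
    rfl
  refine ⟨h, r, Tru (strOf x) φ H, fun b hb => ⟨⟨hd, hs⟩, hr, rfl, tru_eval hc hH, ?_, hb⟩⟩
  have h5 : EvalAt c (Tru (strOf x) φ H) (fun a b => H a = H b)
    (fun k l => (strOf x).rel k (l.map H)) := tru_evalAt hc
  refine ⟨fun σ m hs => ?_, fun σ m hs => ?_⟩
  · rw [h5.eq σ m hs]
    exact ⟨fun q => congrArg Subtype.val q, fun q => Subtype.ext q⟩
  · rw [h5.rel σ m hs, hmap]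
    exact Iff.rfl

theorem s11_tru : ∃ Q, S11 Q ∧ ∀ (φ : Fml) (c x a : ℕ → ℕ) (ha : ∀ i, dom x (a i)), HasCode φ c →
    ∀ n, (Q n (jn c (jn x a)) ↔ Tru (strOf x) φ (fun i => ⟨a i, ha i⟩) n = 1) := by
  refine ⟨_, M8_s11 1, fun φ c x a ha hc n => ?_⟩
  simp only [p1_jn, p2_jn]
  constructor
  · rintro ⟨w, hw⟩
    exact (M8_main ha hc hw).1 hw.2.2.2.2.2
  · intro ht
    obtain ⟨h, r, T, hW⟩ := M8_exists ha hc n
    refine ⟨jn h (jn r T), ?_⟩
    simp only [p1_jn, p2_jn]
    apply hW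
    exact (M8_main ha hc (hW _ rfl)).2 ht

theorem s11_tru0 : ∃ Q, S11 Q ∧ ∀ (φ : Fml) (c x a : ℕ → ℕ) (ha : ∀ i, dom x (a i)), HasCode φ c →
    ∀ n, (Q n (jn c (jn x a)) ↔ ¬ Tru (strOf x) φ (fun i => ⟨a i, ha i⟩) n = 1) := by
  refine ⟨_, M8_s11 0, fun φ c x a ha hc n => ?_⟩
  simp only [p1_jn, p2_jn]
  constructor
  · rintro ⟨w, hw⟩
    rw [← M8_main ha hc hw, hw.2.2.2.2.2]
    exact Nat.zero_ne_one
  · intro ht
    obtain ⟨h, r, T, hW⟩ := M8_exists ha hc n
    refine ⟨jn h (jn r T), ?_⟩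
    simp only [p1_jn, p2_jn]
    apply hW
    rw [← M8_main ha hc (hW _ rfl)] at ht
    have h1 := (hW _ rfl).2.2.2.1.bit
      (Nat.pair (Nat.unpair n).1 (encode ((dl (Nat.unpair n).2).map r)))
    omega

/-- evaluation under an isomorphism -/
theorem tru_iso {A B : Type} {M : Str A} {N : Str B} {f : A ≃ B} (hf : IsIso M N f) (φ : Fml)
    (h : ℕ → A) : Tru M φ h = Tru N φ (fun i => f (h i)) := by
  funext n
  unfold Tru
  congr 1
  exact propext (sat_iso hf _ _)

end BW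
end

section

/-!
# BW.D1 : codes of the formulas used in the construction

PROOFS.  Let `mkC a b d ch : ℕ → ℕ` be the real with the values `a, b, d` at `0, 1, 2` and
`ch (unpair k).1 (unpair k).2` at `k + 3`; `sub (mkC a b d ch) n = ch n`.  It is a recursive functional if
`ch` is (`rec_ite`, `recR_mk`).  A real which is recursive in a hyperarithmetic one is hyperarithmetic
(`hypIn_of_funIn`, `hypIn_trans`, `funIn_of_recR`).
* `hypFml_conj` : code `mkC 3 0 0 (col y)`.
* `hypFml_eq`, `hypFml_rel`, `hypFml_mk3`, `hypFml_atomsF`, `hypFml_mkRich`, `hypFml_at`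
  (code `nd c σ`, `recR_nd`).
* `hypFml_stepAll` : from a code `c` of `φ` and from `y`: the child number `n = pair i k` is coded by
  `mkC 2 0 0 (fun _ => mkC 4 k 0 (fun _ => mkC 2 0 0 (fun _ => mkC 3 0 0 (fun j => if col y i j = 1 then
  mkC 5 (encode (padL ..)) 0 (fun _ => nd c (dl (unpair j).1)) else mkC 2 0 0 (fun _ => mkC 5 .. ..)))))`.
-/

namespace BW

open Encodable

/-- codes from data and children -/
private def mkC (a b d : ℕ) (ch : ℕ → ℕ → ℕ) : ℕ → ℕ := fun k =>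
  if k = 0 then a else if k = 1 then b else if k = 2 then d
  else ch (Nat.unpair (k - 3)).1 (Nat.unpair (k - 3)).2

private theorem mkC_0 (a b d : ℕ) (ch : ℕ → ℕ → ℕ) : mkC a b d ch 0 = a := rfl
private theorem mkC_1 (a b d : ℕ) (ch : ℕ → ℕ → ℕ) : mkC a b d ch 1 = b := rfl
private theorem mkC_2 (a b d : ℕ) (ch : ℕ → ℕ → ℕ) : mkC a b d ch 2 = d := rfl

private theorem sub_mkC (a b d : ℕ) (ch : ℕ → ℕ → ℕ) (n : ℕ) : sub (mkC a b d ch) n = ch n := by
  funext k
  simp [sub, mkC]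

private theorem hc_eq (i j : ℕ) (ch : ℕ → ℕ → ℕ) : HasCode (.eq i j) (mkC 0 i j ch) :=
  ⟨rfl, rfl, rfl⟩

private theorem hc_rel (k : ℕ) (l : List ℕ) (ch : ℕ → ℕ → ℕ) :
    HasCode (.rel k l) (mkC 1 k (encode l) ch) :=
  ⟨rfl, rfl, rfl⟩

private theorem hc_neg {φ : Fml} {b d : ℕ} {ch : ℕ → ℕ → ℕ} (h : HasCode φ (ch 0)) :
    HasCode (.neg φ) (mkC 2 b d ch) :=
  ⟨rfl, by rw [sub_mkC]; exact h⟩

private theorem hc_conj {φ : ℕ → Fml} {b d : ℕ} {ch : ℕ → ℕ → ℕ} (h : ∀ n, HasCode (φ n) (ch n)) :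
    HasCode (.conj φ) (mkC 3 b d ch) :=
  ⟨rfl, fun n => by rw [sub_mkC]; exact h n⟩

private theorem hc_all {φ : Fml} {i d : ℕ} {ch : ℕ → ℕ → ℕ} (h : HasCode φ (ch 0)) :
    HasCode (.all i φ) (mkC 4 i d ch) :=
  ⟨rfl, rfl, by rw [sub_mkC]; exact h⟩

private theorem hc_ren {φ : Fml} {l : List ℕ} {d : ℕ} {ch : ℕ → ℕ → ℕ} (h : HasCode φ (ch 0)) :
    HasCode (.ren l φ) (mkC 5 (encode l) d ch) :=
  ⟨rfl, rfl, by rw [sub_mkC]; exact h⟩

section
open Classical

private theorem recR_ite' {P : ℕ → (ℕ → ℕ) → Prop} {F G : ℕ → (ℕ → ℕ) → ℕ → ℕ} (hP : RecP P)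
    (hF : RecR F) (hG : RecR G) : RecR (fun n x => if P n x then F n x else G n x) := by
  have h := rec_ite (P := fun m x => P (Nat.unpair m).1 x)
    (G := fun m x => F (Nat.unpair m).1 x (Nat.unpair m).2)
    (H := fun m x => G (Nat.unpair m).1 x (Nat.unpair m).2)
    (recP_subst (G := fun m _ => (Nat.unpair m).1) hP (rec_fst rec_id)) hF hG
  have e : (fun (m : ℕ) (x : ℕ → ℕ) => (if P (Nat.unpair m).1 x then F (Nat.unpair m).1 x
      else G (Nat.unpair m).1 x) (Nat.unpair m).2) =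
      fun m x => if P (Nat.unpair m).1 x then F (Nat.unpair m).1 x (Nat.unpair m).2
        else G (Nat.unpair m).1 x (Nat.unpair m).2 := by
    funext m x
    split_ifs <;> rfl
  unfold RecR
  rw [e]
  exact h

private theorem recR_mkC {A B D : ℕ → (ℕ → ℕ) → ℕ} {F : ℕ → (ℕ → ℕ) → ℕ → ℕ} (hA : Rec A)
    (hB : Rec B) (hD : Rec D) (hF : RecR F) :
    RecR (fun n x => mkC (A n x) (B n x) (D n x) (fun i => F (Nat.pair n i) x)) := by
  have h1 : Rec (fun m _ => (Nat.unpair m).1) := rec_fst rec_id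
  have h2 : Rec (fun m _ => (Nat.unpair m).2) := rec_snd rec_id
  have h3 : Rec (fun m _ => (Nat.unpair m).2 - 3) :=
    rec_of_primrec (Primrec.nat_sub.comp (Primrec.snd.comp Primrec.unpair) (Primrec.const 3))
  have hl : Rec (fun m x => F (Nat.pair (Nat.unpair m).1 (Nat.unpair ((Nat.unpair m).2 - 3)).1) x
      (Nat.unpair ((Nat.unpair m).2 - 3)).2) := by
    have := rec_subst (H := fun q x => F (Nat.unpair q).1 x (Nat.unpair q).2)
      (G := fun m _ => Nat.pair (Nat.pair (Nat.unpair m).1 (Nat.unpair ((Nat.unpair m).2 - 3)).1)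
        (Nat.unpair ((Nat.unpair m).2 - 3)).2) hF
      (rec_pair (rec_pair h1 (rec_fst h3)) (rec_snd h3))
    simpa only [Nat.unpair_pair] using this
  have h := rec_ite (recP_eq h2 (rec_const 0)) (rec_subst hA h1)
    (rec_ite (recP_eq h2 (rec_const 1)) (rec_subst hB h1)
      (rec_ite (recP_eq h2 (rec_const 2)) (rec_subst hD h1) hl))
  unfold RecR
  have e : (fun (m : ℕ) (x : ℕ → ℕ) => mkC (A (Nat.unpair m).1 x) (B (Nat.unpair m).1 x)
      (D (Nat.unpair m).1 x) (fun i => F (Nat.pair (Nat.unpair m).1 i) x) (Nat.unpair m).2) =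
      fun m x => if (Nat.unpair m).2 = 0 then A (Nat.unpair m).1 x
        else if (Nat.unpair m).2 = 1 then B (Nat.unpair m).1 x
        else if (Nat.unpair m).2 = 2 then D (Nat.unpair m).1 x
        else F (Nat.pair (Nat.unpair m).1 (Nat.unpair ((Nat.unpair m).2 - 3)).1) x
          (Nat.unpair ((Nat.unpair m).2 - 3)).2 := by
    funext m x
    unfold mkC
    split_ifs <;> rfl
  rw [e]
  convert h

private theorem recR_mkC1 {A B D : ℕ → (ℕ → ℕ) → ℕ} {F : ℕ → (ℕ → ℕ) → ℕ → ℕ} (hA : Rec A)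
    (hB : Rec B) (hD : Rec D) (hF : RecR F) :
    RecR (fun n x => mkC (A n x) (B n x) (D n x) (fun _ => F n x)) := by
  have h := recR_mkC (F := fun m x => F (Nat.unpair m).1 x) hA hB hD
    (recR_subst (G := fun m _ => (Nat.unpair m).1) (H := fun _ x => x) hF (rec_fst rec_id) recR_id)
  simpa only [Nat.unpair_pair] using h

end

private theorem hyp_rec {F : ℕ → (ℕ → ℕ) → ℕ → ℕ} (hF : RecR F) {x : ℕ → ℕ} (hx : Hyp x) (a : ℕ) :
    Hyp (F a x) :=
  hypIn_trans hx (hypIn_of_funIn (funIn_of_recR hF x a))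

private theorem hyp_zero : Hyp (fun _ => 0) := hypIn_of_funIn (funIn_refl _)

private theorem hyp_jn {R W : ℕ → ℕ} (hR : Hyp R) (hW : Hyp W) : Hyp (jn R W) := by
  obtain ⟨P, hP, hPi⟩ := hR
  obtain ⟨Q, hQ, hQi⟩ := hW
  refine ⟨fun q x => P (Nat.pair (Nat.unpair q).1 (Nat.unpair (Nat.unpair q).2).1) x ∧
    Q (Nat.pair (Nat.unpair q).1 (Nat.unpair (Nat.unpair q).2).2) x, ?_, ?_⟩
  · refine s11_and ?_ ?_
    · exact s11_subst (G := fun q _ => Nat.pair (Nat.unpair q).1 (Nat.unpair (Nat.unpair q).2).1)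
        (F := fun _ x => x) hP (rec_pair (rec_fst rec_id) (rec_fst (rec_snd rec_id))) recR_id
    · exact s11_subst (G := fun q _ => Nat.pair (Nat.unpair q).1 (Nat.unpair (Nat.unpair q).2).2)
        (F := fun _ x => x) hQ (rec_pair (rec_fst rec_id) (rec_snd (rec_snd rec_id))) recR_id
  · intro n m
    simp only [Nat.unpair_pair, hPi, hQi, jn]
    constructor
    · rintro ⟨h1, h2⟩
      rw [h1, h2, Nat.pair_unpair]
    · intro h
      rw [← h]
      simp

private theorem recR_zero : RecR (fun _ _ => fun _ => 0) :=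
  recR_primrec (Primrec.const 0)

theorem hypFml_eq (i j : ℕ) : HypFml (.eq i j) := by
  exact ⟨_, hyp_rec (recR_mkC1 (rec_const 0) (rec_const i) (rec_const j) recR_zero) hyp_zero 0,
    hc_eq i j _⟩

theorem hypFml_rel (k : ℕ) (l : List ℕ) : HypFml (.rel k l) := by
  exact ⟨_, hyp_rec (recR_mkC1 (rec_const 1) (rec_const k) (rec_const (encode l)) recR_zero)
    hyp_zero 0, hc_rel k l _⟩

theorem hypFml_conj {ψ : ℕ → Fml} {y : ℕ → ℕ} (hy : Hyp y) (h : ∀ n, HasCode (ψ n) (col y n)) :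
    HypFml (.conj ψ) := by
  have hF : RecR (fun n x => col x (Nat.unpair n).2) :=
    recR_col (F := fun _ x => x) (G := fun n _ => (Nat.unpair n).2) recR_id (rec_snd rec_id)
  refine ⟨_, hyp_rec (recR_mkC (rec_const 3) (rec_const 0) (rec_const 0) hF) hy 0, hc_conj ?_⟩
  intro n
  simp only [Nat.unpair_pair]
  exact h n

theorem hypFml_mk3 {φ ψ χ : Fml} (h₁ : HypFml φ) (h₂ : HypFml ψ) (h₃ : HypFml χ) :
    HypFml (mk3 φ ψ χ) := by
  classical
  obtain ⟨c₁, hc₁, hc₁'⟩ := h₁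
  obtain ⟨c₂, hc₂, hc₂'⟩ := h₂
  obtain ⟨c₃, hc₃, hc₃'⟩ := h₃
  have h2 : Rec (fun m _ => (Nat.unpair m).2) := rec_snd rec_id
  have hF := recR_ite' (recP_eq h2 (rec_const 0)) (recR_p1 recR_id)
    (recR_ite' (recP_eq h2 (rec_const 1)) (recR_p1 (recR_p2 recR_id)) (recR_p2 (recR_p2 recR_id)))
  refine ⟨_, hyp_rec (recR_mkC (rec_const 3) (rec_const 0) (rec_const 0) hF)
    (hyp_jn hc₁ (hyp_jn hc₂ hc₃)) 0, hc_conj ?_⟩
  intro n
  simp only [Nat.unpair_pair, p1_jn, p2_jn]
  match n with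
  | 0 => simpa using hc₁'
  | 1 => simpa using hc₂'
  | n + 2 => simpa using hc₃'

theorem hypFml_atomsF : HypFml atomsF := by
  have h2 : Rec (fun m _ => (Nat.unpair m).2) := rec_snd rec_id
  have hr : Rec (fun m _ => encode (List.range (Nat.unpair (Nat.unpair m).2).2)) :=
    rec_comp (f := fun k => encode (List.range k)) (Primrec.encode.comp Primrec.list_range)
      (rec_snd h2)
  have hF := recR_mkC1 (rec_const 1) (rec_fst h2) hr recR_zero
  refine ⟨_, hyp_rec (recR_mkC (rec_const 3) (rec_const 0) (rec_const 0) hF) hyp_zero 0,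
    hc_conj ?_⟩
  intro n
  simp only [Nat.unpair_pair]
  exact hc_rel _ _ _

theorem hypFml_mkRich {φ₀ φ : Fml} (h₀ : HypFml φ₀) (h : HypFml φ) : HypFml (mkRich φ₀ φ) := by
  exact hypFml_mk3 h₀ h (hypFml_mk3 (hypFml_eq 0 1) hypFml_atomsF (hypFml_eq 0 1))

private theorem rec_padL {G H : ℕ → (ℕ → ℕ) → ℕ} (hG : Rec G) (hH : Rec H) :
    Rec (fun n x => encode (padL (G n x + 1) (dl (H n x)))) := by
  refine rec_comp₂ (f := fun k q => encode (padL (k + 1) (dl q))) ?_ hG hH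
  have h1 : Primrec (fun p : ℕ × ℕ => List.range (max (p.1 + 1) (dl p.2).length)) :=
    Primrec.list_range.comp (Primrec.nat_max.comp (Primrec.succ.comp Primrec.fst)
      (Primrec.list_length.comp (primrec_dl.comp Primrec.snd)))
  have h2 : Primrec₂ (fun (p : ℕ × ℕ) (i : ℕ) => (dl p.2).getD i 0) :=
    (Primrec.list_getD 0).comp (primrec_dl.comp (Primrec.snd.comp Primrec.fst)) Primrec.snd
  exact Primrec.encode.comp (Primrec.list_map h1 h2)

theorem hypFml_stepAll {φ : Fml} {y : ℕ → ℕ} (h : HypFml φ) (hy : Hyp y) :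
    HypFml (stepAll φ y) := by
  classical
  obtain ⟨c, hc, hc'⟩ := h
  have h1 : Rec (fun m _ => (Nat.unpair m).1) := rec_fst rec_id
  have h2 : Rec (fun m _ => (Nat.unpair m).2) := rec_snd rec_id
  -- the innermost codes; `q = pair (pair 0 (pair i k)) j`
  have hi : Rec (fun q _ => (Nat.unpair (Nat.unpair (Nat.unpair q).1).2).1) :=
    rec_fst (rec_snd h1)
  have hk : Rec (fun q _ => (Nat.unpair (Nat.unpair (Nat.unpair q).1).2).2) :=
    rec_snd (rec_snd h1)
  have hp : Rec (fun q (_ : ℕ → ℕ) => encode (padL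
      ((Nat.unpair (Nat.unpair (Nat.unpair q).1).2).2 + 1) (dl (Nat.unpair (Nat.unpair q).2).2))) :=
    rec_padL hk (rec_snd h2)
  have hn : RecR (fun q x => nd (p1 x) (dl (Nat.unpair (Nat.unpair q).2).1)) :=
    recR_nd (F := fun _ x => p1 x) (G := fun q _ => (Nat.unpair (Nat.unpair q).2).1)
      (recR_p1 recR_id) (rec_fst h2)
  have hren := recR_mkC1 (rec_const 5) hp (rec_const 0) hn
  have hneg := recR_mkC1 (rec_const 2) (rec_const 0) (rec_const 0) hren
  have hv : Rec (fun q x => col (p2 x) (Nat.unpair (Nat.unpair (Nat.unpair q).1).2).1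
      (Nat.unpair q).2) :=
    recR_app (recR_col (recR_p2 recR_id) hi) h2
  have h5 := recR_ite' (recP_eq hv (rec_const 1)) hren hneg
  have h4 := recR_mkC (rec_const 3) (rec_const 0) (rec_const 0) h5
  have h3 := recR_mkC1 (rec_const 2) (rec_const 0) (rec_const 0) h4
  have h22 := recR_mkC1 (rec_const 4) (rec_snd h2) (rec_const 0) h3
  have h11 := recR_mkC1 (rec_const 2) (rec_const 0) (rec_const 0) h22
  refine ⟨_, hyp_rec (recR_mkC (rec_const 3) (rec_const 0) (rec_const 0) h11)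
    (hyp_jn hc hy) 0, hc_conj ?_⟩
  intro n
  refine hc_neg ?_
  simp only [Nat.unpair_pair, p1_jn, p2_jn]
  refine hc_all (hc_neg (hc_conj ?_))
  intro j
  by_cases hj : col y (Nat.unpair n).1 j = 1
  · simp only [hj, if_true]
    exact hc_ren (hasCode_nd hc' _)
  · simp only [hj, if_false]
    exact hc_neg (hc_ren (hasCode_nd hc' _))

end BW
end

section

/-!
# BW.D2 : types with respect to the nodes of a formula

PROOFS.
* `tp_at` : `Tru M (φ.at σ) h (pt τ m) = Tru M φ h (pt (σ ++ τ) m)` (`at_at`); every number is some `pt`.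
* `tp_iso` : `tru_iso`, `f (ext a₀ l i) = ext (f a₀) (l.map f) i`.
* `sat_of_tp` : the atom `pt σ (List.range (l.length + 1))`: `ext a₀ l (asg (List.range k) i) = ext a₀ l i`
  for `k = l.length + 1` (for `i ≥ k` both are `a₀`).
* `sat_stepF` : unfold: `∃ a, ∀ n, (t n = 1 ↔ Sat M (φ.at σ_n) (fun i => v' ((padL (k+1) m_n).getD i i)))`,
  with `v' = update (ext a₀ l) k a = ext a₀ (l ++ [a])` since `k = l.length + 1`, and
  `v' ((padL (k+1) m).getD i i) = v' (asg m i)` for all `i`: for `i < max (k+1) m.length` by definition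
  of `padL`, for larger `i` both sides are `a₀` (`asg m i = 0`, `v' 0 = a₀`).
* `step` : let `t = Tp M φ a₀ (l ++ [c])`, `t = col y i`, `k = l.length + 1`.  `M` satisfies `stepF φ t k` at
  `ext a₀ l` (witness `c`).  It is the node `[pair i k]` of `stepAll φ y`, so `N` satisfies it at `ext b₀ r`
  (`sat_of_tp`), which gives `d` with `t n = 1 ↔ Tp N φ b₀ (r ++ [d]) n = 1`; values of types are `0`, `1`.
* `atEq_of_tp` : equality of the entries number `i, j` of the tuple: the atom `pt σE [i, j]`; relation: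
  `l'' = l'.filter (· < k)` picks the same tuple as `l'`; the atom `pt (σR j n) l''`, `n = l''.length`;
  `(List.range n).map (fun i => ext a₀ l (asg l'' i)) = l''.map (ext a₀ l)`.
-/

namespace BW

open Encodable

variable {A B : Type} {M : Str A} {N : Str B} {φ : Fml} {a₀ : A} {l : List A} {b₀ : B}
  {r : List B}

theorem tp_le_one (n : ℕ) : Tp M φ a₀ l n ≤ 1 := by
  unfold Tp Tru
  split_ifs <;> simp

private theorem D2_tp_iff (n : ℕ) : Tp M φ a₀ l n = 1 ↔
    Sat M (φ.at (dl (Nat.unpair n).1)) (fun i => ext a₀ l (asg (dl (Nat.unpair n).2) i)) := by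
  unfold Tp Tru
  split_ifs with h
  · simp [h]
  · simp [h]

private theorem D2_tp_pt (σ m : List ℕ) : Tp M φ a₀ l (pt σ m) = 1 ↔
    Sat M (φ.at σ) (fun i => ext a₀ l (asg m i)) := by
  rw [D2_tp_iff, pt, Nat.unpair_pair, dl_encode, dl_encode]

private theorem D2_tp_eq {ψ : Fml} (h : ∀ n, Tp M φ a₀ l n = 1 ↔ Tp N ψ b₀ r n = 1) :
    Tp M φ a₀ l = Tp N ψ b₀ r := by
  funext n
  have h1 := tp_le_one (M := M) (φ := φ) (a₀ := a₀) (l := l) n
  have h2 := tp_le_one (M := N) (φ := ψ) (a₀ := b₀) (l := r) n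
  have h3 := h n
  omega

private theorem D2_at_at (σ τ : List ℕ) : (φ.at σ).at τ = φ.at (σ ++ τ) := by
  unfold Fml.at
  rw [List.foldl_append]

theorem tp_at (σ : List ℕ) (h : Tp M φ a₀ l = Tp N φ b₀ r) :
    Tp M (φ.at σ) a₀ l = Tp N (φ.at σ) b₀ r := by
  apply D2_tp_eq
  intro n
  rw [D2_tp_iff, D2_tp_iff, D2_at_at]
  have h1 := D2_tp_pt (M := M) (φ := φ) (a₀ := a₀) (l := l) (σ ++ dl (Nat.unpair n).1)
    (dl (Nat.unpair n).2)
  have h2 := D2_tp_pt (M := N) (φ := φ) (a₀ := b₀) (l := r) (σ ++ dl (Nat.unpair n).1)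
    (dl (Nat.unpair n).2)
  rw [← h1, ← h2, h]

theorem tp_iso {f : A ≃ B} (hf : IsIso M N f) : Tp M φ a₀ l = Tp N φ (f a₀) (l.map f) := by
  unfold Tp
  rw [tru_iso hf φ (ext a₀ l)]
  congr 1
  funext i
  unfold ext
  rw [← List.map_cons, List.getD_map]

private theorem D2_ext_lt {i : ℕ} (h : i < l.length + 1) :
    (a₀ :: l)[i]? = some (ext a₀ l i) := by
  unfold ext
  rw [List.getD_eq_getElem?_getD]
  have h1 : i < (a₀ :: l).length := by simpa using h
  rw [List.getElem?_eq_getElem h1]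
  rfl

private theorem D2_ext_ge {i : ℕ} (h : l.length + 1 ≤ i) : ext a₀ l i = a₀ := by
  unfold ext
  rw [List.getD_eq_getElem?_getD, List.getElem?_eq_none (by simpa using h)]
  rfl

private theorem D2_ext_zero : ext a₀ l 0 = a₀ := rfl

private theorem D2_asg_lt {m : List ℕ} {i : ℕ} (h : i < m.length) : asg m i = m[i] := by
  unfold asg
  rw [List.getD_eq_getElem?_getD, List.getElem?_eq_getElem h]
  rfl

private theorem D2_asg_ge {m : List ℕ} {i : ℕ} (h : m.length ≤ i) : asg m i = 0 := by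
  unfold asg
  rw [List.getD_eq_getElem?_getD, List.getElem?_eq_none h]
  rfl

private theorem D2_ext_range (i : ℕ) :
    ext a₀ l (asg (List.range (l.length + 1)) i) = ext a₀ l i := by
  by_cases h : i < l.length + 1
  · rw [D2_asg_lt (by simpa using h)]
    simp
  · rw [D2_asg_ge (by simpa using h), D2_ext_ge (i := i) (by omega), D2_ext_zero]

theorem sat_of_tp (hl : l.length = r.length) (h : Tp M φ a₀ l = Tp N φ b₀ r) (σ : List ℕ) :
    Sat M (φ.at σ) (ext a₀ l) ↔ Sat N (φ.at σ) (ext b₀ r) := by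
  have h1 := D2_tp_pt (M := M) (φ := φ) (a₀ := a₀) (l := l) σ (List.range (l.length + 1))
  have h2 := D2_tp_pt (M := N) (φ := φ) (a₀ := b₀) (l := r) σ (List.range (l.length + 1))
  have e1 : (fun i => ext a₀ l (asg (List.range (l.length + 1)) i)) = ext a₀ l := by
    funext i
    exact D2_ext_range i
  have e2 : (fun i => ext b₀ r (asg (List.range (l.length + 1)) i)) = ext b₀ r := by
    funext i
    rw [hl]
    exact D2_ext_range i
  rw [e1] at h1
  rw [e2] at h2
  rw [← h1, ← h2, h]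

private theorem D2_upd (a : A) (j : ℕ) :
    Function.update (ext a₀ l) (l.length + 1) a j = ext a₀ (l ++ [a]) j := by
  by_cases hj : j = l.length + 1
  · subst hj
    rw [Function.update_self]
    have h1 := D2_ext_lt (a₀ := a₀) (l := l ++ [a]) (i := l.length + 1) (by simp)
    rw [List.getElem?_cons_succ, List.getElem?_append_right (le_refl _)] at h1
    simpa using h1
  · rw [Function.update_of_ne hj]
    by_cases h2 : j < l.length + 1
    · have h3 := D2_ext_lt (a₀ := a₀) (l := l) (i := j) h2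
      have h4 := D2_ext_lt (a₀ := a₀) (l := l ++ [a]) (i := j) (by simp; omega)
      have h5 : (a₀ :: (l ++ [a]))[j]? = (a₀ :: l)[j]? := by
        rw [← List.cons_append, List.getElem?_append_left (by simpa using h2)]
      rw [h5, h3] at h4
      exact Option.some.inj h4
    · rw [D2_ext_ge (by omega), D2_ext_ge (by simp; omega)]

private theorem D2_pad (a : A) (m : List ℕ) (i : ℕ) :
    Function.update (ext a₀ l) (l.length + 1) a ((padL (l.length + 1 + 1) m).getD i i) =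
      ext a₀ (l ++ [a]) (asg m i) := by
  rw [D2_upd]
  unfold padL
  by_cases hi : i < max (l.length + 1 + 1) m.length
  · rw [List.getD_eq_getElem?_getD, List.getElem?_map, List.getElem?_range hi]
    rfl
  · rw [List.getD_eq_getElem?_getD, List.getElem?_eq_none (by simpa using hi)]
    have h1 : max (l.length + 1 + 1) m.length ≤ i := not_lt.1 hi
    have h2 : m.length ≤ i := (le_max_right _ _).trans h1
    have h3 : l.length + 1 + 1 ≤ i := (le_max_left _ _).trans h1
    rw [D2_asg_ge h2, D2_ext_zero]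
    exact D2_ext_ge (by simpa using h3)

theorem sat_stepF (t : ℕ → ℕ) :
    Sat M (stepF φ t (l.length + 1)) (ext a₀ l) ↔
      ∃ a, ∀ n, (t n = 1 ↔ Tp M φ a₀ (l ++ [a]) n = 1) := by
  unfold stepF
  simp only [Sat]
  push Not
  apply exists_congr
  intro a
  apply forall_congr'
  intro n
  have h0 : (fun i => Function.update (ext a₀ l) (l.length + 1) a
      ((padL (l.length + 1 + 1) (dl (Nat.unpair n).2)).getD i i)) =
      fun i => ext a₀ (l ++ [a]) (asg (dl (Nat.unpair n).2) i) := by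
    funext i
    exact D2_pad a _ i
  split_ifs with ht
  · simp only [Sat]
    rw [h0, D2_tp_iff]
    simp [ht]
  · simp only [Sat]
    rw [h0, D2_tp_iff]
    simp [ht]

theorem step {φ₀ : Fml} {y : ℕ → ℕ} [Countable A] (hy : ∀ t ∈ TT φ₀ φ, ∃ i, col y i = t)
    (hM : Mod M φ₀) (hl : l.length = r.length)
    (h : Tp M (stepAll φ y) a₀ l = Tp N (stepAll φ y) b₀ r) (c : A) :
    ∃ d, Tp M φ a₀ (l ++ [c]) = Tp N φ b₀ (r ++ [d]) := by
  obtain ⟨i, hi⟩ := hy (Tp M φ a₀ (l ++ [c])) ⟨A, M, inferInstance, hM, a₀, l ++ [c], rfl⟩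
  have h1 := sat_of_tp hl h [Nat.pair i (l.length + 1)]
  have h2 : (stepAll φ y).at [Nat.pair i (l.length + 1)] = stepF φ (col y i) (l.length + 1) := by
    simp [Fml.at, stepAll, Fml.ch]
  rw [h2, hi] at h1
  have h3 := h1.1 ((sat_stepF _).2 ⟨c, fun n => Iff.rfl⟩)
  rw [hl] at h3
  obtain ⟨d, hd⟩ := (sat_stepF _).1 h3
  exact ⟨d, D2_tp_eq hd⟩

private theorem D2_fm (l' : List ℕ) : (l'.filterMap fun i => (a₀ :: l)[i]?) =
    (l'.filter (fun i => decide (i < l.length + 1))).map (ext a₀ l) := by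
  induction l' with
  | nil => rfl
  | cons x l' ih =>
    by_cases hx : x < l.length + 1
    · rw [List.filterMap_cons_some (D2_ext_lt hx), ih, List.filter_cons_of_pos (by simpa using hx)]
      rfl
    · rw [List.filterMap_cons_none (List.getElem?_eq_none (by simpa using hx)), ih,
        List.filter_cons_of_neg (by simpa using hx)]

private theorem D2_map_range (m : List ℕ) :
    (List.range m.length).map (fun i => ext a₀ l (asg m i)) = m.map (ext a₀ l) := by
  apply List.ext_getElem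
  · simp
  · intro i h1 h2
    have h3 : i < m.length := by simpa using h1
    rw [List.getElem_map, List.getElem_map, List.getElem_range, D2_asg_lt h3]

theorem atEq_of_tp (hl : l.length = r.length) (h : Tp M φ a₀ l = Tp N φ b₀ r)
    (hE : ∃ σ, φ.at σ = .eq 0 1) (hR : ∀ k n, ∃ σ, φ.at σ = .rel k (List.range n)) :
    AtEq M N (a₀ :: l) (b₀ :: r) := by
  refine ⟨by simp [hl], fun i j => ?_, fun k l' => ?_⟩
  · obtain ⟨σ, hσ⟩ := hE
    have h1 := D2_tp_pt (M := M) (φ := φ) (a₀ := a₀) (l := l) σ [i, j]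
    have h2 := D2_tp_pt (M := N) (φ := φ) (a₀ := b₀) (l := r) σ [i, j]
    have h3 : (ext a₀ l i = ext a₀ l j) ↔ (ext b₀ r i = ext b₀ r j) := by
      rw [hσ] at h1 h2
      simp only [Sat, asg, List.getD_cons_zero, List.getD_cons_succ] at h1 h2
      rw [← h1, ← h2, h]
    have hnone : ∀ {i : ℕ}, ¬ i < l.length + 1 → (a₀ :: l)[i]? = none ∧ (b₀ :: r)[i]? = none := by
      intro i hi
      exact ⟨List.getElem?_eq_none (by simpa using hi),
        List.getElem?_eq_none (by rw [List.length_cons]; omega)⟩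
    have hsome : ∀ {i : ℕ}, i < l.length + 1 →
        (a₀ :: l)[i]? = some (ext a₀ l i) ∧ (b₀ :: r)[i]? = some (ext b₀ r i) := by
      intro i hi
      exact ⟨D2_ext_lt hi, D2_ext_lt (by omega)⟩
    by_cases hi : i < l.length + 1
    · by_cases hj : j < l.length + 1
      · rw [(hsome hi).1, (hsome hi).2, (hsome hj).1, (hsome hj).2]
        simpa using h3
      · rw [(hsome hi).1, (hsome hi).2, (hnone hj).1, (hnone hj).2]
        simp
    · by_cases hj : j < l.length + 1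
      · rw [(hnone hi).1, (hnone hi).2, (hsome hj).1, (hsome hj).2]
        simp
      · rw [(hnone hi).1, (hnone hi).2, (hnone hj).1, (hnone hj).2]
        simp
  · rw [D2_fm, D2_fm, ← hl]
    obtain ⟨σ, hσ⟩ := hR k (l'.filter (fun i => decide (i < l.length + 1))).length
    have h1 := D2_tp_pt (M := M) (φ := φ) (a₀ := a₀) (l := l) σ
      (l'.filter (fun i => decide (i < l.length + 1)))
    have h2 := D2_tp_pt (M := N) (φ := φ) (a₀ := b₀) (l := r) σ
      (l'.filter (fun i => decide (i < l.length + 1)))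
    rw [hσ] at h1 h2
    simp only [Sat] at h1 h2
    rw [D2_map_range] at h1 h2
    rw [← h1, ← h2, h]

end BW
end

section

/-!
# BW.E3 : the generic evaluation

PROOF.  Build a sequence of lists of facts `p_0 = []`, `p_{i+1} ⊇ p_i` with `R (encode p_i) = 1` which meets all
the tasks (an enumeration of the tasks in which each task occurs infinitely often):
(a) for an atom `n`: `p_{i+1} = pair n b :: p_i` for some `b ≤ 1` (`lim_dec`);
(b) for `σ`, `m` with `φ.at σ = .conj ψ` and `pair (pt σ m) 0 ∈ p_i`: add `pair (pt (σ ++ [n]) m) 0` (`lim_conj`);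
(c) for `σ`, `m` with `φ.at σ = .all i ψ` and `pair (pt σ m) 0 ∈ p_i`: add
`pair (pt (σ ++ [0]) (upd m i (bd p_i + k))) 0` (`lim_all`);
(d) for `q` with `R (encode q) = 1`: add `q.map (sbF s)`, `s = sh k (bd p_i) (bd q)` (`lim_am`);
`s.getD i i = i` for `i < k`.
Two facts `pair n b`, `pair n b'` of one `p_i` have `b = b' ≤ 1` by `lim_sat` (the values of `Tru` are `≤ 1`).
Let `T n` be the `b` with `pair n b ∈ p_i` for some `i`.  Then a list `p` with `Hol T p` is a part of some `p_i`, so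
`R (encode p) = 1` (`lim_sub`).
-/

namespace BW

open Encodable

variable {φ₀ φ : Fml} {k : ℕ} {R W : ℕ → ℕ}

/-- the list `p'` prolongs `p` and meets the tasks number `j` -/
private structure E3_Step (φ : Fml) (k : ℕ) (R : ℕ → ℕ) (j : ℕ) (p p' : List ℕ) : Prop where
  sub : ∀ e ∈ p, e ∈ p'
  one : R (encode p') = 1
  dec : ∃ b ≤ 1, Nat.pair j b ∈ p'
  cj : ∀ σ m ψ, φ.at σ = .conj ψ → j = pt σ m → Nat.pair j 0 ∈ p →
    ∃ n, Nat.pair (pt (σ ++ [n]) m) 0 ∈ p'
  al : ∀ σ m i ψ, φ.at σ = .all i ψ → j = pt σ m → Nat.pair j 0 ∈ p →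
    ∃ a, Nat.pair (pt (σ ++ [0]) (upd m i a)) 0 ∈ p'
  am : R j = 1 → ∃ s : List ℕ, (∀ i < k, s.getD i i = i) ∧ ∀ e ∈ (dl j).map (sbF s), e ∈ p'

private theorem E3_sh (k N L : ℕ) : ∀ i < k, (sh k N L).getD i i = i := by
  intro i hi
  unfold sh
  by_cases h : i < L
  · have h1 : i < ((List.range L).map fun i => if i < k then i else i + N).length := by
      simpa using h
    rw [List.getD_eq_getElem _ _ h1]
    simp [hi]
  · rw [List.getD_eq_default]
    simpa using h

private theorem E3_step (h : Lim φ₀ φ k R W) (hk : 0 < k) (j : ℕ) (p : List ℕ)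
    (hp : R (encode p) = 1) : ∃ p', E3_Step φ k R j p p' := by
  obtain ⟨b, hb, h1⟩ : ∃ b ≤ 1, R (encode (Nat.pair j b :: p)) = 1 := by
    rcases lim_dec h hp j with h1 | h1
    · exact ⟨0, by omega, h1⟩
    · exact ⟨1, le_rfl, h1⟩
  obtain ⟨p2, s2, o2, c2⟩ : ∃ p2 : List ℕ, (∀ e ∈ Nat.pair j b :: p, e ∈ p2) ∧
      R (encode p2) = 1 ∧ ∀ σ m ψ, φ.at σ = .conj ψ → j = pt σ m → Nat.pair j 0 ∈ p →
        ∃ n, Nat.pair (pt (σ ++ [n]) m) 0 ∈ p2 := by
    by_cases hc : ∃ σ m ψ, φ.at σ = .conj ψ ∧ j = pt σ m ∧ Nat.pair j 0 ∈ p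
    · obtain ⟨σ, m, ψ, h2, h3, h4⟩ := hc
      have h5 : Nat.pair (pt σ m) 0 ∈ Nat.pair j b :: p := by
        rw [← h3]
        exact List.mem_cons_of_mem _ h4
      obtain ⟨n, hn⟩ := lim_conj h h1 h2 h5
      refine ⟨_, fun e he => List.mem_cons_of_mem _ he, hn, ?_⟩
      intro σ' m' ψ' _ h7 _
      obtain ⟨h8, h9⟩ := pt_inj.1 (h3.symm.trans h7)
      subst h8
      subst h9
      exact ⟨n, List.mem_cons_self ..⟩
    · exact ⟨_, fun e he => he, h1, fun σ m ψ h2 h3 h4 => (hc ⟨σ, m, ψ, h2, h3, h4⟩).elim⟩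
  obtain ⟨p3, s3, o3, c3⟩ : ∃ p3 : List ℕ, (∀ e ∈ p2, e ∈ p3) ∧
      R (encode p3) = 1 ∧ ∀ σ m i ψ, φ.at σ = .all i ψ → j = pt σ m → Nat.pair j 0 ∈ p →
        ∃ a, Nat.pair (pt (σ ++ [0]) (upd m i a)) 0 ∈ p3 := by
    by_cases hc : ∃ σ m i ψ, φ.at σ = .all i ψ ∧ j = pt σ m ∧ Nat.pair j 0 ∈ p
    · obtain ⟨σ, m, i, ψ, h2, h3, h4⟩ := hc
      have h5 : Nat.pair (pt σ m) 0 ∈ p2 := by
        rw [← h3]
        exact s2 _ (List.mem_cons_of_mem _ h4)
      have hn := lim_all h o2 h2 h5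
      refine ⟨_, fun e he => List.mem_cons_of_mem _ he, hn, ?_⟩
      intro σ' m' i' ψ' h6 h7 _
      obtain ⟨h8, h9⟩ := pt_inj.1 (h3.symm.trans h7)
      subst h8
      subst h9
      have h10 : (Fml.all i ψ) = Fml.all i' ψ' := h2.symm.trans h6
      injection h10 with h11 h12
      subst h11
      exact ⟨_, List.mem_cons_self ..⟩
    · exact ⟨_, fun e he => he, o2, fun σ m i ψ h2 h3 h4 => (hc ⟨σ, m, i, ψ, h2, h3, h4⟩).elim⟩
  obtain ⟨p4, s4, o4, c4⟩ : ∃ p4 : List ℕ, (∀ e ∈ p3, e ∈ p4) ∧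
      R (encode p4) = 1 ∧ (R j = 1 → ∃ s : List ℕ, (∀ i < k, s.getD i i = i) ∧
        ∀ e ∈ (dl j).map (sbF s), e ∈ p4) := by
    by_cases hc : R j = 1
    · have h2 : R (encode (dl j)) = 1 := by rw [encode_dl]; exact hc
      refine ⟨_, fun e he => List.mem_append_left _ he, lim_am h hk o3 h2, fun _ =>
        ⟨_, E3_sh k (bd p3) (bd (dl j)), fun e he => List.mem_append_right _ he⟩⟩
    · exact ⟨_, fun e he => he, o3, fun h2 => (hc h2).elim⟩
  refine ⟨p4, ⟨fun e he => s4 _ (s3 _ (s2 _ (List.mem_cons_of_mem _ he))), o4,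
    ⟨b, hb, s4 _ (s3 _ (s2 _ (List.mem_cons_self ..)))⟩, ?_, ?_, c4⟩⟩
  · intro σ m ψ h2 h3 h4
    obtain ⟨n, hn⟩ := c2 σ m ψ h2 h3 h4
    exact ⟨n, s4 _ (s3 _ hn)⟩
  · intro σ m i ψ h2 h3 h4
    obtain ⟨n, hn⟩ := c3 σ m i ψ h2 h3 h4
    exact ⟨n, s4 _ hn⟩

private theorem E3_cons (h : Lim φ₀ φ k R W) {p : List ℕ} (hp : R (encode p) = 1) {n b b' : ℕ}
    (h1 : Nat.pair n b ∈ p) (h2 : Nat.pair n b' ∈ p) : b = b' := by
  obtain ⟨A, M, g, _, hg⟩ := lim_sat h hp
  have h3 := hg _ h1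
  have h4 := hg _ h2
  simp only [Nat.unpair_pair] at h3 h4
  exact h3.symm.trans h4

theorem exists_generic (h : Lim φ₀ φ k R W) (hk : 0 < k) :
    ∃ T : ℕ → ℕ, (∀ n, T n ≤ 1) ∧ (∀ p : List ℕ, Hol T p → R (encode p) = 1) ∧
      (∀ σ m ψ, φ.at σ = .conj ψ → T (pt σ m) = 0 → ∃ n, T (pt (σ ++ [n]) m) = 0) ∧
      (∀ σ m i ψ, φ.at σ = .all i ψ → T (pt σ m) = 0 → ∃ a, T (pt (σ ++ [0]) (upd m i a)) = 0) ∧
      ∀ q : List ℕ, R (encode q) = 1 → ∃ s : List ℕ, (∀ i < k, s.getD i i = i) ∧ Hol T (q.map (sbF s)) := by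
  classical
  choose F hF using E3_step h hk
  obtain ⟨S, hS⟩ : ∃ S : ℕ → {p : List ℕ // R (encode p) = 1},
      ∀ i, E3_Step φ k R (Nat.unpair i).1 (S i).1 (S (i + 1)).1 :=
    ⟨fun i => Nat.rec (⟨[], lim_nil h⟩ : {p : List ℕ // R (encode p) = 1})
      (fun i q => ⟨F (Nat.unpair i).1 q.1 q.2, (hF (Nat.unpair i).1 q.1 q.2).one⟩) i,
      fun i => hF (Nat.unpair i).1 _ _⟩
  have hmono : ∀ i j, i ≤ j → ∀ e ∈ (S i).1, e ∈ (S j).1 := by
    intro i j hij
    induction j, hij using Nat.le_induction with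
    | base => exact fun e he => he
    | succ j _ ih => exact fun e he => (hS j).sub e (ih e he)
  let T : ℕ → ℕ := fun n => if ∃ i, Nat.pair n 1 ∈ (S i).1 then 1 else 0
  have hTb : ∀ n, T n ≤ 1 := by
    intro n
    show (if _ then 1 else 0) ≤ 1
    split_ifs <;> omega
  have hdec : ∀ n, ∃ i, ∃ b ≤ 1, Nat.pair n b ∈ (S i).1 := by
    intro n
    have h1 := (hS (Nat.pair n 0)).dec
    rw [Nat.unpair_pair] at h1
    exact ⟨Nat.pair n 0 + 1, h1⟩
  have hT : ∀ i n b, Nat.pair n b ∈ (S i).1 → T n = b := by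
    intro i n b hb
    obtain ⟨i', b', hb1, hb'⟩ := hdec n
    have h1 : b = b' := E3_cons h (S (max i i')).2
      (hmono i _ (le_max_left _ _) _ hb) (hmono i' _ (le_max_right _ _) _ hb')
    show (if ∃ i, Nat.pair n 1 ∈ (S i).1 then 1 else 0) = b
    split_ifs with hc
    · obtain ⟨j, hj⟩ := hc
      exact E3_cons h (S (max i j)).2 (hmono j _ (le_max_right _ _) _ hj)
        (hmono i _ (le_max_left _ _) _ hb)
    · have h2 : b ≠ 1 := fun hb2 => hc ⟨i, hb2 ▸ hb⟩
      omega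
  have hTm : ∀ n, ∃ i, Nat.pair n (T n) ∈ (S i).1 := by
    intro n
    obtain ⟨i, b, _, hb⟩ := hdec n
    exact ⟨i, by rw [hT i n b hb]; exact hb⟩
  have hlist : ∀ p : List ℕ, Hol T p → ∃ i, ∀ e ∈ p, e ∈ (S i).1 := by
    intro p
    induction p with
    | nil => exact fun _ => ⟨0, fun e he => absurd he (by simp)⟩
    | cons a p ih =>
      intro hp
      obtain ⟨i, hi⟩ := ih fun e he => hp e (List.mem_cons_of_mem _ he)
      obtain ⟨j, hj⟩ := hTm (Nat.unpair a).1
      rw [hp a (List.mem_cons_self ..), Nat.pair_unpair] at hj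
      refine ⟨max i j, fun e he => ?_⟩
      rcases List.mem_cons.1 he with rfl | he
      · exact hmono j _ (le_max_right _ _) _ hj
      · exact hmono i _ (le_max_left _ _) _ (hi e he)
  refine ⟨T, hTb, ?_, ?_, ?_, ?_⟩
  · intro p hp
    obtain ⟨i, hi⟩ := hlist p hp
    exact lim_sub h (S i).2 hi
  · intro σ m ψ h1 h2
    obtain ⟨i, hi⟩ := hTm (pt σ m)
    rw [h2] at hi
    have h3 := (hS (Nat.pair (pt σ m) i)).cj
    rw [Nat.unpair_pair] at h3
    obtain ⟨n, hn⟩ := h3 σ m ψ h1 rfl (hmono i _ (Nat.right_le_pair _ _) _ hi)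
    exact ⟨n, hT (Nat.pair (pt σ m) i + 1) _ _ hn⟩
  · intro σ m i' ψ h1 h2
    obtain ⟨i, hi⟩ := hTm (pt σ m)
    rw [h2] at hi
    have h3 := (hS (Nat.pair (pt σ m) i)).al
    rw [Nat.unpair_pair] at h3
    obtain ⟨a, ha⟩ := h3 σ m i' ψ h1 rfl (hmono i _ (Nat.right_le_pair _ _) _ hi)
    exact ⟨a, hT (Nat.pair (pt σ m) i + 1) _ _ ha⟩
  · intro q hq
    have h3 := (hS (Nat.pair (encode q) 0)).am
    rw [Nat.unpair_pair] at h3
    obtain ⟨s, hs, hs'⟩ := h3 hq
    refine ⟨s, hs, fun e he => ?_⟩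
    have h4 := hs' e (by rw [dl_encode]; exact he)
    rw [← Nat.pair_unpair e] at h4
    exact hT (Nat.pair (encode q) 0 + 1) _ _ h4

end BW
end

section

/-!
# BW.E4 : limits of realised theories are realised

PROOF.  Let `T` be the generic evaluation of `E3`.  (1) Every finite list of facts of `T` is in `R`, so by
`lim_sat` it holds under some `g` in some model `M` of `φ₀` (`tru_pt`).  So every implication between
finitely many facts which holds for all true evaluations holds for `T`: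
negation nodes: `T (pt σ m) = 1 ↔ ¬ T (pt (σ ++ [0]) m) = 1`; conjunction nodes: `T (pt σ m) = 1` implies
`T (pt (σ ++ [n]) m) = 1`; the converse by the third property of `T` (values are `0`, `1`); quantifier nodes:
the same with `upd m i a`; substitution nodes: `T (pt σ m) = T (pt (σ ++ [0]) (rn m l))`.  So `Eval c T`
(`hasCode_nd` relates the tags of `nd c σ` and the formula `φ.at σ`).
(2) Let `φ.at σE = .eq 0 1`, `E a b :⇔ T (pt σE [a, b]) = 1`; an equivalence relation by (1).  Let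
`φ.at (σR j n) = .rel j (List.range n)`; `Rn j l :⇔ T (pt (σR j l.length) l) = 1` is invariant under `E` by (1).
`EvalAt c T E Rn` by (1): e.g. if `φ.at σ = .rel j l'` then `pt σ m` and `pt (σR j l.length) l`,
`l = l'.map (asg m)`, have the same truth value in every model (`asg l i = l[i]` for `i < l.length`, and
`(List.range l.length).map (asg l) = l`).
(3) Let `A` be the quotient of `ℕ` by `E`, `g : ℕ → A` the quotient map, `M.rel j l :⇔ ∃ l', l = l'.map g ∧ Rn j l'`.
By `truth` and (2), `T = Tru M φ g` (`eval_eq_tru`).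
(4) `Mod M φ₀`: let `φ.at σ₀ = φ₀`; `T (pt σ₀ []) = 1` since the fact `pair (pt σ₀ []) 0` holds in no model of
`φ₀` (`Mod M' φ₀` gives `Sat M' φ₀ v` for all `v`); so `Sat M φ₀ (fun i => g (asg [] i))` and `mod_iff`.
(5) `R = rr M φ k g`.  Values are `0`, `1`.  If `R (encode p) = 1` take `s` as in the last property of `T`:
`Hol T (p.map (sbF s))`, `T = Tru M φ g`; put `h i = g (s.getD i i)`: `Hol (Tru M φ h) p` (`tru_sb`), `h i = g i` for `i < k`.
Conversely let `Hol (Tru M φ h) p`, `h i = g i` for `i < k`.  For each `i` choose `s' i` with `h i = g (s' i)`,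
`s' i = i` for `i < k`, and let `s = (List.range L).map s'`, `L = bd p + k`.  All names of `p` are `< L`, so
`Hol (Tru M φ g) (p.map (sbF s))` (`tru_sb`), i.e. `Hol T (p.map (sbF s))`, so `R (encode (p.map (sbF s))) = 1` and
`R (encode p) = 1` (`lim_sb`).
-/

namespace BW

open Encodable

variable {φ₀ φ : Fml} {k : ℕ} {R W : ℕ → ℕ}

private theorem E4_transfer {T : ℕ → ℕ} (h : Lim φ₀ φ k R W)
    (hR : ∀ p : List ℕ, Hol T p → R (encode p) = 1) (ns : List ℕ) :
    ∃ (A : Type) (M : Str A) (g : ℕ → A), Mod M φ₀ ∧ ∀ n ∈ ns, Tru M φ g n = T n := by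
  have h1 : Hol T (ns.map fun n => Nat.pair n (T n)) := by
    intro e he
    obtain ⟨n, -, rfl⟩ := List.mem_map.1 he
    simp only [Nat.unpair_pair]
  obtain ⟨A, M, g, hM, hg⟩ := lim_sat h (hR _ h1)
  refine ⟨A, M, g, hM, fun n hn => ?_⟩
  have h2 := hg _ (List.mem_map.2 ⟨n, hn, rfl⟩)
  simpa only [Nat.unpair_pair] using h2

private theorem E4_eval {T : ℕ → ℕ} (h : Lim φ₀ φ k R W) {c : ℕ → ℕ} (hc : HasCode φ c)
    (hbit : ∀ n, T n ≤ 1) (hR : ∀ p : List ℕ, Hol T p → R (encode p) = 1)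
    (hconj : ∀ σ m ψ, φ.at σ = .conj ψ → T (pt σ m) = 0 → ∃ n, T (pt (σ ++ [n]) m) = 0)
    (hall : ∀ σ m i ψ, φ.at σ = .all i ψ → T (pt σ m) = 0 → ∃ a, T (pt (σ ++ [0]) (upd m i a)) = 0) :
    Eval c T := by
  have key : ∀ σ : List ℕ, HasCode (φ.at σ) (nd c σ) := fun σ => hasCode_nd hc σ
  have hz : ∀ n, ¬ T n = 1 → T n = 0 := fun n hn => by
    have := hbit n
    omega
  refine ⟨hbit, ?_, ?_, ?_, ?_⟩
  · intro σ m h2
    have hn := key σ
    obtain ⟨A, M, g, -, hg⟩ := E4_transfer h hR [pt σ m, pt (σ ++ [0]) m]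
    rw [← hg (pt σ m) (by simp), ← hg (pt (σ ++ [0]) m) (by simp), tru_pt, tru_pt, at_append]
    cases hψ : φ.at σ with
    | neg ψ => exact Iff.rfl
    | eq i j => rw [hψ] at hn; exact absurd (hn.1.symm.trans h2) (by norm_num)
    | rel k l => rw [hψ] at hn; exact absurd (hn.1.symm.trans h2) (by norm_num)
    | conj f => rw [hψ] at hn; exact absurd (hn.1.symm.trans h2) (by norm_num)
    | all i ψ => rw [hψ] at hn; exact absurd (hn.1.symm.trans h2) (by norm_num)
    | ren l ψ => rw [hψ] at hn; exact absurd (hn.1.symm.trans h2) (by norm_num)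
  · intro σ m h2
    have hn := key σ
    cases hψ : φ.at σ with
    | conj f =>
      constructor
      · intro h3 n
        obtain ⟨A, M, g, -, hg⟩ := E4_transfer h hR [pt σ m, pt (σ ++ [n]) m]
        rw [← hg (pt σ m) (by simp), tru_pt, hψ] at h3
        rw [← hg (pt (σ ++ [n]) m) (by simp), tru_pt, at_append, hψ]
        exact h3 n
      · intro h3
        by_contra h4
        obtain ⟨n, hn'⟩ := hconj σ m f hψ (hz _ h4)
        rw [h3 n] at hn'
        exact absurd hn' (by norm_num)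
    | neg ψ => rw [hψ] at hn; exact absurd (hn.1.symm.trans h2) (by norm_num)
    | eq i j => rw [hψ] at hn; exact absurd (hn.1.symm.trans h2) (by norm_num)
    | rel k l => rw [hψ] at hn; exact absurd (hn.1.symm.trans h2) (by norm_num)
    | all i ψ => rw [hψ] at hn; exact absurd (hn.1.symm.trans h2) (by norm_num)
    | ren l ψ => rw [hψ] at hn; exact absurd (hn.1.symm.trans h2) (by norm_num)
  · intro σ m h2
    have hn := key σ
    cases hψ : φ.at σ with
    | all i ψ =>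
      rw [hψ] at hn
      rw [hn.2.1]
      constructor
      · intro h3 a
        obtain ⟨A, M, g, -, hg⟩ := E4_transfer h hR [pt σ m, pt (σ ++ [0]) (upd m i a)]
        rw [← hg (pt σ m) (by simp), tru_pt, hψ] at h3
        rw [← hg (pt (σ ++ [0]) (upd m i a)) (by simp), tru_pt, at_append, hψ]
        have h4 : (fun j => g (asg (upd m i a) j)) =
            Function.update (fun j => g (asg m j)) i (g a) := by
          funext j
          rw [asg_upd]
          by_cases hj : j = i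
          · subst hj
            rw [Function.update_self, Function.update_self]
          · rw [Function.update_of_ne hj, Function.update_of_ne hj]
        rw [h4]
        exact h3 (g a)
      · intro h3
        by_contra h4
        obtain ⟨a, ha⟩ := hall σ m i ψ hψ (hz _ h4)
        rw [h3 a] at ha
        exact absurd ha (by norm_num)
    | neg ψ => rw [hψ] at hn; exact absurd (hn.1.symm.trans h2) (by norm_num)
    | eq i j => rw [hψ] at hn; exact absurd (hn.1.symm.trans h2) (by norm_num)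
    | rel k l => rw [hψ] at hn; exact absurd (hn.1.symm.trans h2) (by norm_num)
    | conj f => rw [hψ] at hn; exact absurd (hn.1.symm.trans h2) (by norm_num)
    | ren l ψ => rw [hψ] at hn; exact absurd (hn.1.symm.trans h2) (by norm_num)
  · intro σ m h2
    have hn := key σ
    cases hψ : φ.at σ with
    | ren l ψ =>
      rw [hψ] at hn
      rw [hn.2.1, dl_encode]
      obtain ⟨A, M, g, -, hg⟩ := E4_transfer h hR [pt σ m, pt (σ ++ [0]) (rn m l)]
      rw [← hg (pt σ m) (by simp), ← hg (pt (σ ++ [0]) (rn m l)) (by simp), tru_pt, tru_pt,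
        at_append, hψ]
      have h4 : (fun i => g (asg (rn m l) i)) = fun i => g (asg m (l.getD i i)) := by
        funext i
        rw [asg_rn]
      rw [h4]
      exact Iff.rfl
    | neg ψ => rw [hψ] at hn; exact absurd (hn.1.symm.trans h2) (by norm_num)
    | eq i j => rw [hψ] at hn; exact absurd (hn.1.symm.trans h2) (by norm_num)
    | rel k l => rw [hψ] at hn; exact absurd (hn.1.symm.trans h2) (by norm_num)
    | conj f => rw [hψ] at hn; exact absurd (hn.1.symm.trans h2) (by norm_num)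
    | all i ψ => rw [hψ] at hn; exact absurd (hn.1.symm.trans h2) (by norm_num)

private theorem E4_eq {A : Type} {M : Str A} {g : ℕ → A} {σE : List ℕ} (hE : φ.at σE = .eq 0 1)
    (a b : ℕ) : Tru M φ g (pt σE [a, b]) = 1 ↔ g a = g b := by
  rw [tru_pt, hE]
  exact Iff.rfl

private theorem E4_map {A : Type} (g : ℕ → A) (l : List ℕ) :
    (List.range l.length).map (fun i => g (asg l i)) = l.map g := by
  apply List.ext_getElem
  · simp
  · intro i h1 h2
    have h3 : i < l.length := by simpa using h1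
    simp [asg, h3]

private theorem E4_rel {A : Type} {M : Str A} {g : ℕ → A} {σR : List ℕ} {j : ℕ} {l : List ℕ}
    (hσ : φ.at σR = .rel j (List.range l.length)) :
    Tru M φ g (pt σR l) = 1 ↔ M.rel j (l.map g) := by
  rw [tru_pt, hσ]
  show M.rel j ((List.range l.length).map (fun i => g (asg l i))) ↔ M.rel j (l.map g)
  rw [E4_map]

theorem realz_of_lim (hs : φ₀.free = ∅) (hr : Rich φ₀ φ) {c : ℕ → ℕ} (hc : HasCode φ c)
    (hk : 0 < k) (h : Lim φ₀ φ k R W) : Realz φ₀ φ k R := by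
  classical
  obtain ⟨T, hbit, hR, hconj, hall, hsb⟩ := exists_generic h hk
  have hev : Eval c T := E4_eval h hc hbit hR hconj hall
  obtain ⟨⟨σ₀, hσ₀⟩, ⟨σE, hσE⟩, hrel⟩ := hr
  choose σR hσR using hrel
  -- the equality
  have hErefl : ∀ a, T (pt σE [a, a]) = 1 := by
    intro a
    obtain ⟨A, M, g, -, hg⟩ := E4_transfer h hR [pt σE [a, a]]
    rw [← hg _ (by simp), E4_eq hσE]
  have hEsymm : ∀ a b, T (pt σE [a, b]) = 1 → T (pt σE [b, a]) = 1 := by
    intro a b hab
    obtain ⟨A, M, g, -, hg⟩ := E4_transfer h hR [pt σE [a, b], pt σE [b, a]]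
    rw [← hg _ (by simp), E4_eq hσE] at hab ⊢
    exact hab.symm
  have hEtrans : ∀ a b d, T (pt σE [a, b]) = 1 → T (pt σE [b, d]) = 1 →
      T (pt σE [a, d]) = 1 := by
    intro a b d hab hbd
    obtain ⟨A, M, g, -, hg⟩ := E4_transfer h hR [pt σE [a, b], pt σE [b, d], pt σE [a, d]]
    rw [← hg _ (by simp), E4_eq hσE] at hab hbd ⊢
    exact hab.trans hbd
  let S : Setoid ℕ := ⟨fun a b => T (pt σE [a, b]) = 1, hErefl, fun {a b} => hEsymm a b,
    fun {a b d} => hEtrans a b d⟩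
  let g : ℕ → Quotient S := fun a => Quotient.mk S a
  have hgE : ∀ a b, g a = g b ↔ T (pt σE [a, b]) = 1 := fun a b => Quotient.eq
  have hgs : Function.Surjective g := Quotient.mk_surjective
  let Rn : ℕ → List ℕ → Prop := fun j l => T (pt (σR j l.length) l) = 1
  have hRn : ∀ j l l', l.map g = l'.map g → Rn j l' → Rn j l := by
    intro j l l' hll hl'
    have hlen : l.length = l'.length := by
      have := congrArg List.length hll
      simpa using this
    obtain ⟨A, M, g', -, hg'⟩ := E4_transfer h hR (pt (σR j l.length) l :: pt (σR j l'.length) l' ::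
      (List.range l.length).map (fun i => pt σE [asg l i, asg l' i]))
    have h1 : l.map g' = l'.map g' := by
      apply List.ext_getElem
      · simpa using hlen
      · intro i h1 h2
        have h3 : i < l.length := by simpa using h1
        have h4 : i < l'.length := by simpa using h2
        have h5 : g (l[i]) = g (l'[i]) := by
          have h6 : (l.map g)[i]'(by simpa using h3) = (l'.map g)[i]'(by simpa using h4) := by
            simp only [hll]
          simpa using h6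
        rw [hgE] at h5
        have h7 : asg l i = l[i] := by simp [asg, h3]
        have h8 : asg l' i = l'[i] := by simp [asg, h4]
        have h9 := hg' (pt σE [asg l i, asg l' i]) (by
          refine List.mem_cons_of_mem _ (List.mem_cons_of_mem _ ?_)
          exact List.mem_map.2 ⟨i, List.mem_range.2 h3, rfl⟩)
        rw [h7, h8, h5, E4_eq hσE] at h9
        simpa using h9
    show T (pt (σR j l.length) l) = 1
    have hl2 : T (pt (σR j l'.length) l') = 1 := hl'
    rw [← hg' _ (by simp), E4_rel (hσR j l'.length)] at hl2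
    rw [← hg' _ (by simp), E4_rel (hσR j l.length), h1]
    exact hl2
  let M : Str (Quotient S) := ⟨fun j l => ∃ l', l = l'.map g ∧ Rn j l'⟩
  have hMR : ∀ j l, M.rel j (l.map g) ↔ Rn j l := by
    intro j l
    constructor
    · rintro ⟨l', hl, hl'⟩
      exact hRn j l l' hl hl'
    · intro hl
      exact ⟨l, rfl, hl⟩
  have hEv : EvalAt c T (fun a b => g a = g b) (fun j l => M.rel j (l.map g)) := by
    have key : ∀ σ : List ℕ, HasCode (φ.at σ) (nd c σ) := fun σ => hasCode_nd hc σ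
    refine ⟨?_, ?_⟩
    · intro σ m h2
      have hn := key σ
      cases hψ : φ.at σ with
      | eq i j =>
        rw [hψ] at hn
        rw [hn.2.1, hn.2.2]
        show T (pt σ m) = 1 ↔ g (asg m i) = g (asg m j)
        rw [hgE]
        obtain ⟨A, M', g', -, hg'⟩ := E4_transfer h hR [pt σ m, pt σE [asg m i, asg m j]]
        rw [← hg' (pt σ m) (by simp), ← hg' (pt σE [asg m i, asg m j]) (by simp), E4_eq hσE,
          tru_pt, hψ]
        exact Iff.rfl
      | neg ψ => rw [hψ] at hn; exact absurd (hn.1.symm.trans h2) (by norm_num)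
      | rel k l => rw [hψ] at hn; exact absurd (hn.1.symm.trans h2) (by norm_num)
      | conj f => rw [hψ] at hn; exact absurd (hn.1.symm.trans h2) (by norm_num)
      | all i ψ => rw [hψ] at hn; exact absurd (hn.1.symm.trans h2) (by norm_num)
      | ren l ψ => rw [hψ] at hn; exact absurd (hn.1.symm.trans h2) (by norm_num)
    · intro σ m h2
      have hn := key σ
      cases hψ : φ.at σ with
      | rel j l =>
        rw [hψ] at hn
        rw [hn.2.1, hn.2.2, dl_encode]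
        show T (pt σ m) = 1 ↔ M.rel j ((l.map (asg m)).map g)
        rw [hMR]
        show T (pt σ m) = 1 ↔ T (pt (σR j (l.map (asg m)).length) (l.map (asg m))) = 1
        obtain ⟨A, M', g', -, hg'⟩ := E4_transfer h hR
          [pt σ m, pt (σR j (l.map (asg m)).length) (l.map (asg m))]
        rw [← hg' (pt σ m) (by simp),
          ← hg' (pt (σR j (l.map (asg m)).length) (l.map (asg m))) (by simp),
          E4_rel (hσR j (l.map (asg m)).length), tru_pt, hψ, List.map_map]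
        exact Iff.rfl
      | eq i j => rw [hψ] at hn; exact absurd (hn.1.symm.trans h2) (by norm_num)
      | neg ψ => rw [hψ] at hn; exact absurd (hn.1.symm.trans h2) (by norm_num)
      | conj f => rw [hψ] at hn; exact absurd (hn.1.symm.trans h2) (by norm_num)
      | all i ψ => rw [hψ] at hn; exact absurd (hn.1.symm.trans h2) (by norm_num)
      | ren l ψ => rw [hψ] at hn; exact absurd (hn.1.symm.trans h2) (by norm_num)
  have hTM : T = Tru M φ g := eval_eq_tru hc hev hgs hEv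
  refine ⟨Quotient S, M, ?_, ⟨g 0⟩, ?_, g, ?_⟩
  · exact hgs.countable
  · have h1 : T (pt σ₀ []) = 1 := by
      obtain ⟨A, M', g', hM', hg'⟩ := E4_transfer h hR [pt σ₀ []]
      rw [← hg' _ (by simp), tru_pt, hσ₀]
      exact hM' _
    rw [hTM, tru_pt, hσ₀] at h1
    exact (mod_iff hs _).2 h1
  · funext n
    obtain ⟨p, rfl⟩ : ∃ p : List ℕ, n = encode p := ⟨Denumerable.ofNat (List ℕ) n, by simp⟩
    have h1 : R (encode p) = 1 ↔ rr M φ k g (encode p) = 1 := by
      rw [rr_iff]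
      constructor
      · intro hp
        obtain ⟨s, hsk, hs1⟩ := hsb p hp
        refine ⟨fun i => g (s.getD i i), fun i hi => ?_, ?_⟩
        · show g (s.getD i i) = g i
          rw [hsk i hi]
        · intro e he
          have h2 := hs1 (sbF s e) (List.mem_map.2 ⟨e, he, rfl⟩)
          rw [hTM] at h2
          unfold sbF at h2
          simp only [Nat.unpair_pair] at h2
          rw [← h2]
          refine (tru_sb (h := g) (h' := fun i => g (s.getD i i)) ?_ (hsk 0 hk) fun i hi => rfl).symm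
          show g (s.getD 0 0) = g 0
          rw [hsk 0 hk]
      · rintro ⟨h', hk', hp⟩
        have hch : ∀ i, ∃ j, g j = h' i ∧ (i < k → j = i) := by
          intro i
          by_cases hi : i < k
          · exact ⟨i, (hk' i hi).symm, fun _ => rfl⟩
          · obtain ⟨j, hj⟩ := hgs (h' i)
            exact ⟨j, hj, fun h0 => absurd h0 hi⟩
        choose s' hs' hs'k using hch
        have hget : ∀ i, i < bd p + k → ((List.range (bd p + k)).map s').getD i i = s' i := by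
          intro i hi
          simp [List.getD_eq_getElem?_getD, hi]
        have hsk : ∀ i < k, ((List.range (bd p + k)).map s').getD i i = i := by
          intro i hi
          rw [hget i (by omega), hs'k i hi]
        apply lim_sb h hk hsk
        apply hR
        intro e' he'
        obtain ⟨e, he, rfl⟩ := List.mem_map.1 he'
        rw [hTM]
        unfold sbF
        simp only [Nat.unpair_pair]
        rw [← hp e he]
        refine tru_sb (h := g) (h' := h') (hk' 0 hk) (hsk 0 hk) fun i hi => ?_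
        obtain ⟨σ, m, hm⟩ := exists_pt (Nat.unpair e).1
        rw [hm] at hi
        unfold pt at hi
        simp only [Nat.unpair_pair, dl_encode] at hi
        have hb : i < bd p := by
          refine names_lt (σ := σ) (m := m) (b := (Nat.unpair e).2) ?_ hi
          rw [← hm, Nat.pair_unpair]
          exact he
        rw [hget i (by omega), hs' i]
    have h2 := lim_bit h (encode p)
    have h3 := rr_bit (M := M) (φ := φ) (k := k) (a := g) (encode p)
    by_cases h4 : R (encode p) = 1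
    · rw [h4, h1.1 h4]
    · have h5 : ¬ rr M φ k g (encode p) = 1 := fun h6 => h4 (h1.2 h6)
      omega

end BW
end

section

/-!
# BW.U2 : the perfect kernel of a closed `Σ¹₁` set

PROOF.  Let `C = {u | P n (jn z u)}`, closed and uncountable.
Put `K₀ (encode s) z :⇔ ∃ p : ℕ → ℕ, (the set 𝒯 = {t | p (encode t) = 1} is closed under prefixes, every
t ∈ 𝒯 has two incomparable extensions in 𝒯) ∧ p (encode s) = 1 ∧ ∀ t, p (encode t) = 1 → ∃ u, pre u t.length = t
∧ P n (jn z u)`.  It is `Σ¹₁` (real quantifiers `p`, `u`, number quantifiers; lists are quantified through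
codes; prefixes `List.take`, primitive recursive).
(1) `Perf`: if `s ∈ 𝒯` as in the definition then its prefixes and its extensions in `𝒯` satisfy the
definition with the same `p`.
(2) If all `pre u k` are in `K₀` then for all `k` there is `u_k ∈ C` with `pre u_k k = pre u k`, so `u ∈ C` as
`C` is closed.
(3) `[]` is in `K₀`: let `𝒯 = {s | the set {u ∈ C | pre u s.length = s} is uncountable}`.  It contains `[]`,
is closed under prefixes, and if `s ∈ 𝒯` had no two incomparable extensions in `𝒯`, then the elements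
`u` of `C` which extend `s` would be: at most one `u` with all `pre u k ∈ 𝒯` for `k ≥ s.length`, and the
elements of the countably many countable sets `{u ∈ C | pre u t.length = t}`, `t ∉ 𝒯`: a countable set.
-/

namespace BW

open Encodable

/-- perfect trees -/
structure Perf (K : List ℕ → Prop) : Prop where
  pfx : Pfx K
  split : ∀ s, K s → ∃ t u : List ℕ, K t ∧ K u ∧ s <+: t ∧ s <+: u ∧ ¬ t <+: u ∧ ¬ u <+: t

/-- closed sets of reals, in terms of restrictions -/
def Clo (C : Set (ℕ → ℕ)) : Prop :=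
  ∀ u, (∀ k, ∃ v ∈ C, pre v k = pre u k) → u ∈ C

/-- prefixes on codes -/
private def U2_pf (a b : ℕ) : Prop := encode ((dl b).take (dl a).length) = a

private theorem U2_pf_iff (a b : ℕ) : U2_pf a b ↔ dl a <+: dl b := by
  unfold U2_pf
  rw [List.prefix_iff_eq_take]
  constructor
  · intro h
    have := congrArg dl h
    rw [dl_encode] at this
    exact this.symm
  · intro h
    rw [← h, encode_dl]

private def U2_c1 (c : ℕ) (p : ℕ → ℕ) : Prop :=
  p (Nat.unpair c).1 = 1 → p (encode ((dl (Nat.unpair c).1).take (Nat.unpair c).2)) = 1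

private def U2_c2 (q c : ℕ) (p : ℕ → ℕ) : Prop :=
  p (Nat.unpair c).1 = 1 ∧ p (Nat.unpair c).2 = 1 ∧ U2_pf q (Nat.unpair c).1 ∧
    U2_pf q (Nat.unpair c).2 ∧ ¬ U2_pf (Nat.unpair c).1 (Nat.unpair c).2 ∧
    ¬ U2_pf (Nat.unpair c).2 (Nat.unpair c).1

private def U2_Q (P : ℕ → (ℕ → ℕ) → Prop) (n m : ℕ) (x p : ℕ → ℕ) : Prop :=
  (∀ c, U2_c1 c p) ∧ (∀ q, p q = 1 → ∃ c, U2_c2 q c p) ∧ p m = 1 ∧
    ∀ q, p q = 1 → ∃ u : ℕ → ℕ, encode (pre u (dl q).length) = q ∧ P n (jn x u)

private theorem U2_rec_app {f : ℕ → ℕ} (hf : Primrec f) : Rec (fun n v => p2 v (f n)) :=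
  recR_app (recR_p2 recR_id) (rec_of_primrec hf)

private theorem U2_recP_pf {f g : ℕ → ℕ} (hf : Primrec f) (hg : Primrec g) :
    RecP (fun n _ => U2_pf (f n) (g n)) := by
  refine recP_eq (rec_of_primrec ?_) (rec_of_primrec hf)
  exact Primrec.encode.comp (Primrec.list_take.comp
    (Primrec.list_length.comp (primrec_dl.comp hf)) (primrec_dl.comp hg))

private theorem U2_s11 {P : ℕ → (ℕ → ℕ) → Prop} (hP : S11 P) (n : ℕ) :
    S11 (fun m x => ∃ p : ℕ → ℕ, U2_Q P n m x p) := by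
  have h1 : Primrec (fun w : ℕ => (Nat.unpair w).1) := Primrec.fst.comp Primrec.unpair
  have h2 : Primrec (fun w : ℕ => (Nat.unpair w).2) := Primrec.snd.comp Primrec.unpair
  have h21 := h1.comp h2
  have h22 := h2.comp h2
  have h12 := h2.comp h1
  -- clause 1
  have a1 : RecP (fun w v => U2_c1 (Nat.unpair w).2 (p2 v)) := by
    refine recP_imp (recP_eq (U2_rec_app h21) (rec_const 1)) (recP_eq (U2_rec_app ?_) (rec_const 1))
    exact Primrec.encode.comp (Primrec.list_take.comp h22 (primrec_dl.comp h21))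
  have b1 : S11 (fun _ v => ∀ c, U2_c1 c (p2 v)) := by
    refine s11_congr (s11_all (s11_of_rec a1)) ?_
    intro m v
    refine forall_congr' fun c => ?_
    rw [Nat.unpair_pair]
  -- clause 2
  have a2 : RecP (fun w v => U2_c2 (Nat.unpair (Nat.unpair w).1).2 (Nat.unpair w).2 (p2 v)) := by
    refine recP_and (recP_eq (U2_rec_app h21) (rec_const 1)) ?_
    refine recP_and (recP_eq (U2_rec_app h22) (rec_const 1)) ?_
    refine recP_and (U2_recP_pf h12 h21) ?_
    refine recP_and (U2_recP_pf h12 h22) ?_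
    exact recP_and (recP_not (U2_recP_pf h21 h22)) (recP_not (U2_recP_pf h22 h21))
  have b2 : S11 (fun _ v => ∀ q, p2 v q = 1 → ∃ c, U2_c2 q c (p2 v)) := by
    refine s11_congr (s11_all (s11_imp (recP_eq (U2_rec_app h2) (rec_const 1))
      (s11_ex (s11_of_rec a2)))) ?_
    intro m v
    refine forall_congr' fun q => ?_
    simp only [Nat.unpair_pair]
  -- clause 3
  have b3 : S11 (fun m v => p2 v m = 1) :=
    s11_of_rec (recP_eq (U2_rec_app (f := fun m => m) Primrec.id) (rec_const 1))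
  -- clause 4
  have a4 : S11 (fun w v => ∃ u : ℕ → ℕ,
      encode (pre u (dl (Nat.unpair w).2).length) = (Nat.unpair w).2 ∧ P n (jn (p1 v) u)) := by
    have hr : RecP (fun w y => encode (pre (p2 y) (dl (Nat.unpair w).2).length) =
        (Nat.unpair w).2) := by
      refine recP_eq ?_ (rec_of_primrec h2)
      exact rec_substR (H := fun m x => encode (pre x m)) (rec_pre rec_id)
        (rec_of_primrec (Primrec.list_length.comp (primrec_dl.comp h2))) (recR_p2 recR_id)
    have hs : S11 (fun (_ : ℕ) y => P n (jn (p1 (p1 y)) (p2 y))) :=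
      s11_subst hP (rec_const n) (recR_jn (recR_p1 (recR_p1 recR_id)) (recR_p2 recR_id))
    refine s11_congr (s11_exR (s11_and (s11_of_rec hr) hs)) ?_
    intro w v
    refine exists_congr fun u => ?_
    simp only [p1_jn, p2_jn]
  have b4 : S11 (fun _ v => ∀ q, p2 v q = 1 → ∃ u : ℕ → ℕ,
      encode (pre u (dl q).length) = q ∧ P n (jn (p1 v) u)) := by
    refine s11_congr (s11_all (s11_imp (recP_eq (U2_rec_app h2) (rec_const 1)) a4)) ?_
    intro m v
    refine forall_congr' fun q => ?_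
    simp only [Nat.unpair_pair]
  refine s11_congr (s11_exR (s11_and b1 (s11_and b2 (s11_and b3 b4)))) ?_
  intro m x
  refine exists_congr fun p => ?_
  simp only [p1_jn, p2_jn]
  rfl

private theorem U2_pre_prefix (u : ℕ → ℕ) {j k : ℕ} (h : j ≤ k) : pre u j <+: pre u k := by
  obtain ⟨t, ht⟩ := pre_append u h
  exact ⟨t, ht.symm⟩

/-- the tree of the lists with uncountably many extensions in `C` has incomparable extensions -/
private theorem U2_split (C : Set (ℕ → ℕ)) (s : List ℕ)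
    (hs : ¬ {u ∈ C | pre u s.length = s}.Countable) :
    ∃ t u : List ℕ, (¬ {v ∈ C | pre v t.length = t}.Countable) ∧
      (¬ {v ∈ C | pre v u.length = u}.Countable) ∧ s <+: t ∧ s <+: u ∧ ¬ t <+: u ∧ ¬ u <+: t := by
  by_contra hcon
  apply hs
  have hcmp : ∀ t u : List ℕ, (¬ {v ∈ C | pre v t.length = t}.Countable) →
      (¬ {v ∈ C | pre v u.length = u}.Countable) → s <+: t → s <+: u → t <+: u ∨ u <+: t := by
    intro t u ht hu hst hsu
    by_contra hno
    rw [not_or] at hno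
    exact hcon ⟨t, u, ht, hu, hst, hsu, hno.1, hno.2⟩
  have hsub : {u ∈ C | pre u s.length = s} ⊆
      {u | pre u s.length = s ∧ ∀ k, s.length ≤ k →
        ¬ {v ∈ C | pre v (pre u k).length = pre u k}.Countable} ∪
      ⋃ t ∈ {t : List ℕ | {v ∈ C | pre v t.length = t}.Countable},
        {v ∈ C | pre v t.length = t} := by
    rintro u ⟨huC, hus⟩
    by_cases hk : ∀ k, s.length ≤ k → ¬ {v ∈ C | pre v (pre u k).length = pre u k}.Countable
    · exact Or.inl ⟨hus, hk⟩
    · push Not at hk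
      obtain ⟨k, _, hkc⟩ := hk
      refine Or.inr ?_
      refine Set.mem_biUnion (x := pre u k) hkc ?_
      exact ⟨huC, by rw [pre_length]⟩
  refine Set.Countable.mono hsub (Set.Countable.union ?_ ?_)
  · refine Set.Subsingleton.countable ?_
    rintro u ⟨hus, hu⟩ v ⟨hvs, hv⟩
    have hkey : ∀ k, s.length ≤ k → pre u k = pre v k := by
      intro k hk
      have h1 : s <+: pre u k := by
        conv_lhs => rw [← hus]
        exact U2_pre_prefix u hk
      have h2 : s <+: pre v k := by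
        conv_lhs => rw [← hvs]
        exact U2_pre_prefix v hk
      have hl : (pre u k).length = (pre v k).length := by rw [pre_length, pre_length]
      rcases hcmp _ _ (hu k hk) (hv k hk) h1 h2 with h | h
      · exact h.eq_of_length hl
      · exact (h.eq_of_length hl.symm).symm
    funext i
    exact eq_of_pre (hkey (max s.length (i + 1)) (le_max_left _ _)) i
      (lt_of_lt_of_le (Nat.lt_succ_self i) (le_max_right _ _))
  · exact Set.Countable.biUnion (Set.to_countable _) fun t ht => ht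

theorem exists_kernel {P : ℕ → (ℕ → ℕ) → Prop} (hP : S11 P) (n : ℕ) (z : ℕ → ℕ)
    (hcl : Clo {u | P n (jn z u)}) (hu : ¬ {u | P n (jn z u)}.Countable) :
    ∃ K₀ : ℕ → (ℕ → ℕ) → Prop, S11 K₀ ∧ Perf (fun s => K₀ (encode s) z) ∧
      K₀ (encode ([] : List ℕ)) z ∧
      ∀ u, (∀ k, K₀ (encode (pre u k)) z) → P n (jn z u) := by
  classical
  refine ⟨fun m x => ∃ p : ℕ → ℕ, U2_Q P n m x p, U2_s11 hP n, ⟨?_, ?_⟩, ?_, ?_⟩
  · rintro s t ⟨p, h1, h2, h3, h4⟩
    refine ⟨p, h1, h2, ?_, h4⟩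
    have := h1 (Nat.pair (encode (s ++ t)) s.length)
    unfold U2_c1 at this
    rw [Nat.unpair_pair] at this
    simp only [dl_encode] at this
    have h5 := this h3
    rwa [List.take_left] at h5
  · rintro s ⟨p, h1, h2, h3, h4⟩
    obtain ⟨c, hc1, hc2, hc3, hc4, hc5, hc6⟩ := h2 _ h3
    rw [U2_pf_iff, dl_encode] at hc3 hc4
    rw [U2_pf_iff] at hc5 hc6
    refine ⟨dl (Nat.unpair c).1, dl (Nat.unpair c).2, ⟨p, h1, h2, ?_, h4⟩, ⟨p, h1, h2, ?_, h4⟩,
      hc3, hc4, hc5, hc6⟩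
    · rw [encode_dl]; exact hc1
    · rw [encode_dl]; exact hc2
  · let T : List ℕ → Prop := fun s =>
      ¬ {u ∈ {u | P n (jn z u)} | pre u s.length = s}.Countable
    have hT : ∀ s, (if T s then 1 else 0 : ℕ) = 1 ↔ T s := by
      intro s
      by_cases h : T s
      · simp [h]
      · simp [h]
    refine ⟨fun q => if T (dl q) then 1 else 0, ?_, ?_, ?_, ?_⟩
    · intro c
      unfold U2_c1
      simp only [hT, dl_encode]
      intro h hc
      apply h
      refine hc.mono ?_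
      rintro u ⟨huC, hus⟩
      refine ⟨huC, ?_⟩
      have h1 : (dl (Nat.unpair c).1).take (Nat.unpair c).2 =
          (pre u (dl (Nat.unpair c).1).length).take (Nat.unpair c).2 := by rw [hus]
      rw [h1]
      rcases le_total (Nat.unpair c).2 (dl (Nat.unpair c).1).length with hle | hle
      · rw [pre_take u hle, pre_length]
      · rw [List.take_of_length_le (by rw [pre_length]; exact hle), pre_length]
    · intro q hq
      rw [hT] at hq
      obtain ⟨t, v, ht, hv, hst, hsv, htv, hvt⟩ := U2_split _ _ hq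
      refine ⟨Nat.pair (encode t) (encode v), ?_⟩
      unfold U2_c2
      simp only [Nat.unpair_pair, hT, dl_encode, U2_pf_iff]
      exact ⟨ht, hv, hst, hsv, htv, hvt⟩
    · rw [hT, dl_encode]
      intro hc
      apply hu
      refine hc.mono ?_
      intro u hu'
      exact ⟨hu', rfl⟩
    · intro q hq
      rw [hT] at hq
      have hne : {u ∈ {u | P n (jn z u)} | pre u (dl q).length = dl q}.Nonempty := by
        by_contra hno
        rw [Set.not_nonempty_iff_eq_empty] at hno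
        apply hq
        rw [hno]
        exact Set.countable_empty
      obtain ⟨u, huC, hus⟩ := hne
      exact ⟨u, by rw [hus, encode_dl], huC⟩
  · intro u hK
    refine hcl u fun k => ?_
    obtain ⟨p, _, _, h3, h4⟩ := hK k
    obtain ⟨v, hv1, hv2⟩ := h4 _ h3
    refine ⟨v, hv2, ?_⟩
    have := encode_injective hv1
    rwa [dl_encode, pre_length] at this

end BW
end

section

/-!
# BW.E5 : the set of the realised theories with their witness functions is closed

PROOF.  Suppose that for all `N` there is `v ∈ C` with `pre v N = pre u N`; put `R = p1 u`, `W = p2 u`.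
`v = jn R' (lw R')` with `R'` realised agrees with `u` below `N`, so `Lim φ₀ φ k R W`.  By `realz_of_lim`,
`R` is realised, and `W = lw R` by `lim_lw`.
-/

namespace BW

/-- realised theories together with their witness functions -/
def CC (φ₀ φ : Fml) (k : ℕ) (u : ℕ → ℕ) : Prop := ∃ R, Realz φ₀ φ k R ∧ u = jn R (lw R)

theorem clo_CC {φ₀ φ : Fml} {k : ℕ} (hs : φ₀.free = ∅) (hr : Rich φ₀ φ) {c : ℕ → ℕ}
    (hc : HasCode φ c) (hk : 0 < k) : Clo {u | CC φ₀ φ k u} := by
  intro u hu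
  have hlim : Lim φ₀ φ k (p1 u) (p2 u) := by
    intro N
    obtain ⟨v, ⟨R', hR', hv⟩, hpre⟩ := hu N
    have hag : ∀ n < N, v n = u n := by
      intro n hn
      have h1 := congrArg (fun l : List ℕ => l[n]?) hpre
      simpa [pre, hn] using h1
    refine ⟨R', hR', fun n hn => ?_, fun n hn => ?_⟩
    · have h := hag n hn
      rw [hv] at h
      simp only [p1, ← h, jn, Nat.unpair_pair]
    · have h := hag n hn
      rw [hv] at h
      simp only [p2, ← h, jn, Nat.unpair_pair]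
  have hW : p2 u = lw (p1 u) := lim_lw hlim
  refine ⟨p1 u, realz_of_lim hs hr hc hk hlim, ?_⟩
  rw [← hW]
  funext n
  simp only [jn, p1, p2, Nat.pair_unpair]

end BW
end

section

/-!
# BW.E6 : complexity of the realised theories

PROOFS.
* `rr_fin` : take for `t` the first `bd p + k` values of `h` (the names of `p` are `< bd p`, `names_lt`); conversely
  `h i = t.getD i (a i)`.
* `rr_congr`, `rr_iso` : definition (`tru_iso`).
* `s11_rr` : by `rr_fin`, with the list `t` of elements of `dom x` given by its code, the names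
  `i ↦ t.getD i (a i)` are a recursive functional of the code of `t` and `a`; `Hol` is a bounded
  quantifier over facts; a fact `e` has the truth value `(unpair e).2 = 1` and `Tru .. = 1`, or
  `(unpair e).2 = 0` and `¬ Tru .. = 1` (values are `≤ 1`): `s11_tru`, `s11_tru0`.  `s11_not_rr`: the
  negation `∀ t, ¬ (..)` is `Σ¹₁` in the same way.
* `hypIn_rr` : let `y = dgm ι M`, `f` the isomorphism of `M` onto `strOf y` (`strOf_iso`), `b i = ι (a i)` for
  `i < k`, `b i = ι (a 0)` for `i ≥ k`, an eventually constant, hence primitive recursive real.  By `rr_iso`,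
  `rr_congr`: `rr M φ k a = rr (strOf y) φ k b`.  The code `c` of `φ` is hyperarithmetic (`s11_hyp`).
* `hypIn_lw` : `lw R` is arithmetical in `R`.
* `realz_iff` : `→` `exists_isCd`, `mod_iso`, `rr_iso`.
* `s11_CC` : `CC φ₀ φ k u ↔ ∃ x a, IsCd x ∧ Mod (strOf x) φ₀ ∧ (∀ i, dom x (a i)) ∧ p1 u = rr (strOf x) φ k a ∧
  p2 u = lw (p1 u)`: use `s11_mod`, `s11_rr`, `s11_not_rr` (values of `p1 u` are `0` or `1`), and an
  arithmetical definition of `lw`.
-/

namespace BW

open Encodable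

variable {A B : Type} {M : Str A} {N : Str B} {φ φ₀ : Fml} {k : ℕ} {a : ℕ → A}

/-- asg is a member or the default -/
private theorem E6_asg (m : List ℕ) (i : ℕ) : asg m i ∈ m ∨ asg m i = 0 := by
  unfold asg
  rw [List.getD_eq_getElem?_getD]
  by_cases h : i < m.length
  · left
    rw [List.getElem?_eq_getElem h, Option.getD_some]
    exact List.getElem_mem h
  · right
    rw [List.getElem?_eq_none (not_lt.1 h), Option.getD_none]

/-- the truth value depends only on the values at the names -/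
private theorem E6_tru_congr {h h' : ℕ → A} {p : List ℕ} {e : ℕ} (he : e ∈ p)
    (hh : ∀ i < bd p, h i = h' i) :
    Tru M φ h (Nat.unpair e).1 = Tru M φ h' (Nat.unpair e).1 := by
  have h0 : h 0 = h' 0 := hh 0 (by unfold bd; omega)
  have e1 : (fun i => h (asg (dl (Nat.unpair (Nat.unpair e).1).2) i)) =
      (fun i => h' (asg (dl (Nat.unpair (Nat.unpair e).1).2) i)) := by
    funext i
    rcases E6_asg (dl (Nat.unpair (Nat.unpair e).1).2) i with h1 | h1
    · refine hh _ (names_lt (p := p) (σ := dl (Nat.unpair (Nat.unpair e).1).1)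
        (m := dl (Nat.unpair (Nat.unpair e).1).2) (b := (Nat.unpair e).2) ?_ h1)
      unfold pt
      rw [encode_dl, encode_dl, Nat.pair_unpair, Nat.pair_unpair]
      exact he
    · rw [h1, h0]
  unfold Tru
  rw [e1]

/-- universal number quantifier in a convenient form -/
private theorem E6_all {F : ℕ → ℕ → (ℕ → ℕ) → Prop}
    (h : S11 (fun v x => F (Nat.unpair v).1 (Nat.unpair v).2 x)) :
    S11 (fun n x => ∀ m, F n m x) := by
  refine s11_congr (s11_all h) ?_
  intro n x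
  simp only [Nat.unpair_pair]

private theorem E6_ex {F : ℕ → ℕ → (ℕ → ℕ) → Prop}
    (h : S11 (fun v x => F (Nat.unpair v).1 (Nat.unpair v).2 x)) :
    S11 (fun n x => ∃ m, F n m x) := by
  refine s11_congr (s11_ex h) ?_
  intro n x
  simp only [Nat.unpair_pair]

private theorem E6_ball {F : ℕ → ℕ → (ℕ → ℕ) → Prop} {G : ℕ → (ℕ → ℕ) → ℕ}
    (h : RecP (fun v x => F (Nat.unpair v).1 (Nat.unpair v).2 x)) (hG : Rec G) :
    RecP (fun n x => ∀ m < G n x, F n m x) := by
  refine recP_congr (recP_ball h hG) ?_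
  intro n x
  simp only [Nat.unpair_pair]

private theorem E6_rec_l {G : ℕ → (ℕ → ℕ) → ℕ} (hG : Rec G) :
    Rec (fun v x => G (Nat.unpair v).1 x) := rec_subst hG (rec_fst rec_id)

private theorem E6_recR_l {F : ℕ → (ℕ → ℕ) → ℕ → ℕ} (hF : RecR F) :
    RecR (fun v x => F (Nat.unpair v).1 x) := recR_subst hF (rec_fst rec_id) recR_id

private theorem E6_recP_dom {X : ℕ → (ℕ → ℕ) → ℕ → ℕ} {G : ℕ → (ℕ → ℕ) → ℕ} (hX : RecR X)
    (hG : Rec G) : RecP (fun n x => dom (X n x) (G n x)) := by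
  unfold dom
  refine recP_eq (recR_app hX (rec_pair (rec_const 0) ?_)) (rec_const 1)
  exact rec_comp (f := fun b => encode [b])
    (Primrec.encode.comp (Primrec.list_cons.comp Primrec.id (Primrec.const []))) hG

private theorem E6_recP_mem {G H : ℕ → (ℕ → ℕ) → ℕ} (hG : Rec G) (hH : Rec H) :
    RecP (fun n x => G n x ∈ dl (H n x)) := by
  have h1 : PrimrecPred (fun v : ℕ => (Nat.unpair v).1 ∈ dl (Nat.unpair v).2) := by
    have h2 : PrimrecPred (fun v : ℕ =>
        List.idxOf (Nat.unpair v).1 (dl (Nat.unpair v).2) < (dl (Nat.unpair v).2).length) := by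
      have h3 : Primrec (fun v : ℕ => dl (Nat.unpair v).2) :=
        primrec_dl.comp (Primrec.snd.comp Primrec.unpair)
      exact Primrec.nat_lt.comp (Primrec.list_idxOf.comp (Primrec.fst.comp Primrec.unpair) h3)
        (Primrec.list_length.comp h3)
    refine h2.of_eq ?_
    intro v
    exact List.idxOf_lt_length_iff
  refine recP_congr (recP_subst (recP_of_primrec h1) (rec_pair hG hH)) ?_
  intro n x
  simp only [Nat.unpair_pair]

/-- the names given by the list with the code `q`, and by `a` beyond it -/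
private def E6_b (q : ℕ) (a : ℕ → ℕ) : ℕ → ℕ := fun i => (dl q).getD i (a i)

private theorem E6_recR_b {G : ℕ → (ℕ → ℕ) → ℕ} {F : ℕ → (ℕ → ℕ) → ℕ → ℕ} (hG : Rec G)
    (hF : RecR F) : RecR (fun n x => E6_b (G n x) (F n x)) := by
  have h1 : RecR E6_b := by
    have hf : Primrec₂ (fun (v z : ℕ) => ((dl (Nat.unpair v).1)[(Nat.unpair v).2]?).getD z) := by
      have h3 : Primrec (fun w : ℕ × ℕ => (dl (Nat.unpair w.1).1)[(Nat.unpair w.1).2]?) :=
        Primrec.list_getElem?.comp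
          (primrec_dl.comp (Primrec.fst.comp (Primrec.unpair.comp Primrec.fst)))
          (Primrec.snd.comp (Primrec.unpair.comp Primrec.fst))
      exact Primrec.option_getD.comp h3 Primrec.snd
    have h2 := rec_comp₂ hf rec_id (rec_app (rec_snd rec_id))
    unfold RecR E6_b
    simpa only [List.getD_eq_getElem?_getD] using h2
  exact recR_subst h1 hG hF

private def E6_good (Q₁ Q₀ : ℕ → (ℕ → ℕ) → Prop) (e : ℕ) (w : ℕ → ℕ) : Prop :=
  ((Nat.unpair e).2 = 1 ∧ Q₁ (Nat.unpair e).1 w) ∨ ((Nat.unpair e).2 = 0 ∧ Q₀ (Nat.unpair e).1 w)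

private def E6_bad (Q₁ Q₀ : ℕ → (ℕ → ℕ) → Prop) (e : ℕ) (w : ℕ → ℕ) : Prop :=
  ((Nat.unpair e).2 = 1 ∧ Q₀ (Nat.unpair e).1 w) ∨
    (((Nat.unpair e).2 = 0 ∧ Q₁ (Nat.unpair e).1 w) ∨ 2 ≤ (Nat.unpair e).2)

private theorem E6_s11_good {Q₁ Q₀ : ℕ → (ℕ → ℕ) → Prop} (h₁ : S11 Q₁) (h₀ : S11 Q₀)
    {G : ℕ → (ℕ → ℕ) → ℕ} {F : ℕ → (ℕ → ℕ) → ℕ → ℕ} (hG : Rec G) (hF : RecR F) :
    S11 (fun n x => E6_good Q₁ Q₀ (G n x) (F n x)) := by
  unfold E6_good
  exact s11_or (s11_and (s11_of_rec (recP_eq (rec_snd hG) (rec_const 1)))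
      (s11_subst h₁ (rec_fst hG) hF))
    (s11_and (s11_of_rec (recP_eq (rec_snd hG) (rec_const 0))) (s11_subst h₀ (rec_fst hG) hF))

private theorem E6_s11_bad {Q₁ Q₀ : ℕ → (ℕ → ℕ) → Prop} (h₁ : S11 Q₁) (h₀ : S11 Q₀)
    {G : ℕ → (ℕ → ℕ) → ℕ} {F : ℕ → (ℕ → ℕ) → ℕ → ℕ} (hG : Rec G) (hF : RecR F) :
    S11 (fun n x => E6_bad Q₁ Q₀ (G n x) (F n x)) := by
  unfold E6_bad
  exact s11_or (s11_and (s11_of_rec (recP_eq (rec_snd hG) (rec_const 1)))
      (s11_subst h₀ (rec_fst hG) hF))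
    (s11_or (s11_and (s11_of_rec (recP_eq (rec_snd hG) (rec_const 0)))
      (s11_subst h₁ (rec_fst hG) hF)) (s11_of_rec (recP_le (rec_const 2) (rec_snd hG))))

/-- the real argument with the names changed -/
private def E6_w (q : ℕ) (u : ℕ → ℕ) : ℕ → ℕ :=
  jn (p1 u) (jn (p1 (p2 u)) (E6_b q (p2 (p2 u))))

private theorem E6_recR_w {G : ℕ → (ℕ → ℕ) → ℕ} (hG : Rec G) :
    RecR (fun n u => E6_w (G n u) u) := by
  unfold E6_w
  exact recR_jn (recR_p1 recR_id) (recR_jn (recR_p1 (recR_p2 recR_id))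
    (E6_recR_b hG (recR_p2 (recR_p2 recR_id))))

/-- the predicate of `s11_rr` -/
private def E6_Q (Q₁ Q₀ : ℕ → (ℕ → ℕ) → Prop) (k n : ℕ) (u : ℕ → ℕ) : Prop :=
  ∃ q, (∀ i < k, E6_b q (p2 (p2 u)) i = p2 (p2 u) i) ∧
    ((∀ i, dom (p1 (p2 u)) (E6_b q (p2 (p2 u)) i)) ∧
      ∀ e, e ∈ dl n → E6_good Q₁ Q₀ e (E6_w q u))

/-- the predicate of `s11_not_rr` -/
private def E6_Qn (Q₁ Q₀ : ℕ → (ℕ → ℕ) → Prop) (k n : ℕ) (u : ℕ → ℕ) : Prop :=
  ∀ q, (¬ (∀ i < k, E6_b q (p2 (p2 u)) i = p2 (p2 u) i)) ∨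
    ((∃ i, ¬ dom (p1 (p2 u)) (E6_b q (p2 (p2 u)) i)) ∨
      ∃ e, e ∈ dl n ∧ E6_bad Q₁ Q₀ e (E6_w q u))

private theorem E6_recR_ba {G : ℕ → (ℕ → ℕ) → ℕ} (hG : Rec G) :
    RecR (fun n u => E6_b (G n u) (p2 (p2 u))) := E6_recR_b hG (recR_p2 (recR_p2 recR_id))

private theorem E6_recP_pre {G : ℕ → (ℕ → ℕ) → ℕ} (hG : Rec G) (k : ℕ) :
    RecP (fun n u => ∀ i < k, E6_b (G n u) (p2 (p2 u)) i = p2 (p2 u) i) := by
  refine E6_ball (G := fun _ _ => k)
    (F := fun n i u => E6_b (G n u) (p2 (p2 u)) i = p2 (p2 u) i) ?_ (rec_const k)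
  exact recP_eq (recR_app (E6_recR_ba (E6_rec_l hG)) (rec_snd rec_id))
    (recR_app (recR_p2 (recR_p2 recR_id)) (rec_snd rec_id))

private theorem E6_s11_Q {Q₁ Q₀ : ℕ → (ℕ → ℕ) → Prop} (h₁ : S11 Q₁) (h₀ : S11 Q₀) (k : ℕ) :
    S11 (E6_Q Q₁ Q₀ k) := by
  have hs : Rec (fun v _ => (Nat.unpair v).2) := rec_snd rec_id
  have hf : Rec (fun v _ => (Nat.unpair v).1) := rec_fst rec_id
  refine E6_ex (F := fun n q u => (∀ i < k, E6_b q (p2 (p2 u)) i = p2 (p2 u) i) ∧
    ((∀ i, dom (p1 (p2 u)) (E6_b q (p2 (p2 u)) i)) ∧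
      ∀ e, e ∈ dl n → E6_good Q₁ Q₀ e (E6_w q u))) ?_
  refine s11_and (s11_of_rec (E6_recP_pre hs k)) (s11_and ?_ ?_)
  · refine E6_all (F := fun v i u => dom (p1 (p2 u)) (E6_b (Nat.unpair v).2 (p2 (p2 u)) i)) ?_
    exact s11_of_rec (E6_recP_dom (recR_p1 (recR_p2 recR_id))
      (recR_app (E6_recR_ba (E6_rec_l hs)) hs))
  · refine E6_all (F := fun v e u => e ∈ dl (Nat.unpair v).1 →
      E6_good Q₁ Q₀ e (E6_w (Nat.unpair v).2 u)) ?_
    exact s11_imp (E6_recP_mem hs (E6_rec_l hf)) (E6_s11_good h₁ h₀ hs (E6_recR_w (E6_rec_l hs)))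

private theorem E6_s11_Qn {Q₁ Q₀ : ℕ → (ℕ → ℕ) → Prop} (h₁ : S11 Q₁) (h₀ : S11 Q₀) (k : ℕ) :
    S11 (E6_Qn Q₁ Q₀ k) := by
  have hs : Rec (fun v _ => (Nat.unpair v).2) := rec_snd rec_id
  have hf : Rec (fun v _ => (Nat.unpair v).1) := rec_fst rec_id
  refine E6_all (F := fun n q u => (¬ (∀ i < k, E6_b q (p2 (p2 u)) i = p2 (p2 u) i)) ∨
    ((∃ i, ¬ dom (p1 (p2 u)) (E6_b q (p2 (p2 u)) i)) ∨
      ∃ e, e ∈ dl n ∧ E6_bad Q₁ Q₀ e (E6_w q u))) ?_
  refine s11_or (s11_of_rec (recP_not (E6_recP_pre hs k))) (s11_or ?_ ?_)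
  · refine E6_ex (F := fun v i u => ¬ dom (p1 (p2 u)) (E6_b (Nat.unpair v).2 (p2 (p2 u)) i)) ?_
    exact s11_of_rec (recP_not (E6_recP_dom (recR_p1 (recR_p2 recR_id))
      (recR_app (E6_recR_ba (E6_rec_l hs)) hs)))
  · refine E6_ex (F := fun v e u => e ∈ dl (Nat.unpair v).1 ∧
      E6_bad Q₁ Q₀ e (E6_w (Nat.unpair v).2 u)) ?_
    exact s11_and (s11_of_rec (E6_recP_mem hs (E6_rec_l hf)))
      (E6_s11_bad h₁ h₀ hs (E6_recR_w (E6_rec_l hs)))

section

variable {Q₁ Q₀ : ℕ → (ℕ → ℕ) → Prop}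

private theorem E6_good_iff {c x : ℕ → ℕ}
    (q₁ : ∀ (b : ℕ → ℕ) (hb : ∀ i, dom x (b i)), ∀ n, (Q₁ n (jn c (jn x b)) ↔
      Tru (strOf x) φ (fun i => ⟨b i, hb i⟩) n = 1))
    (q₀ : ∀ (b : ℕ → ℕ) (hb : ∀ i, dom x (b i)), ∀ n, (Q₀ n (jn c (jn x b)) ↔
      ¬ Tru (strOf x) φ (fun i => ⟨b i, hb i⟩) n = 1))
    {b : ℕ → ℕ} (hb : ∀ i, dom x (b i)) (e : ℕ) :
    E6_good Q₁ Q₀ e (jn c (jn x b)) ↔
      Tru (strOf x) φ (fun i => ⟨b i, hb i⟩) (Nat.unpair e).1 = (Nat.unpair e).2 := by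
  unfold E6_good
  rw [q₁ b hb, q₀ b hb]
  have h1 := tru_le_one (strOf x) φ (fun i => ⟨b i, hb i⟩) (Nat.unpair e).1
  omega

private theorem E6_bad_iff {c x : ℕ → ℕ}
    (q₁ : ∀ (b : ℕ → ℕ) (hb : ∀ i, dom x (b i)), ∀ n, (Q₁ n (jn c (jn x b)) ↔
      Tru (strOf x) φ (fun i => ⟨b i, hb i⟩) n = 1))
    (q₀ : ∀ (b : ℕ → ℕ) (hb : ∀ i, dom x (b i)), ∀ n, (Q₀ n (jn c (jn x b)) ↔
      ¬ Tru (strOf x) φ (fun i => ⟨b i, hb i⟩) n = 1))
    {b : ℕ → ℕ} (hb : ∀ i, dom x (b i)) (e : ℕ) :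
    E6_bad Q₁ Q₀ e (jn c (jn x b)) ↔
      ¬ Tru (strOf x) φ (fun i => ⟨b i, hb i⟩) (Nat.unpair e).1 = (Nat.unpair e).2 := by
  unfold E6_bad
  rw [q₁ b hb, q₀ b hb]
  have h1 := tru_le_one (strOf x) φ (fun i => ⟨b i, hb i⟩) (Nat.unpair e).1
  omega

end

private theorem E6_rr_iff (n : ℕ) : rr M φ k a n = 1 ↔
    ∃ h : ℕ → A, (∀ i < k, h i = a i) ∧ Hol (Tru M φ h) (dl n) := by
  rw [← rr_iff, encode_dl]

theorem rr_fin (p : List ℕ) : rr M φ k a (encode p) = 1 ↔
    ∃ t : List A, (∀ i < k, t.getD i (a i) = a i) ∧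
      Hol (Tru M φ (fun i => t.getD i (a i))) p := by
  rw [rr_iff]
  constructor
  · rintro ⟨h, h1, h2⟩
    have key : ∀ i < bd p + k, ((List.range (bd p + k)).map h).getD i (a i) = h i := by
      intro i hi
      rw [List.getD_eq_getElem?_getD, List.getElem?_map, List.getElem?_range hi]
      rfl
    refine ⟨(List.range (bd p + k)).map h, ?_, ?_⟩
    · intro i hi
      rw [key i (by omega), h1 i hi]
    · intro e he
      rw [← h2 e he]
      exact E6_tru_congr he (fun i hi => key i (by omega))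
  · rintro ⟨t, h1, h2⟩
    exact ⟨fun i => t.getD i (a i), h1, h2⟩

theorem rr_congr {b : ℕ → A} (h : ∀ i < k, a i = b i) : rr M φ k a = rr M φ k b := by
  funext n
  have e1 : (∃ h : ℕ → A, (∀ i < k, h i = a i) ∧ Hol (Tru M φ h) (dl n)) ↔
      (∃ h : ℕ → A, (∀ i < k, h i = b i) ∧ Hol (Tru M φ h) (dl n)) := by
    constructor
    · rintro ⟨g, h1, h2⟩
      exact ⟨g, fun i hi => (h1 i hi).trans (h i hi), h2⟩
    · rintro ⟨g, h1, h2⟩
      exact ⟨g, fun i hi => (h1 i hi).trans (h i hi).symm, h2⟩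
  have b1 := rr_bit (M := M) (φ := φ) (k := k) (a := a) n
  have b2 := rr_bit (M := M) (φ := φ) (k := k) (a := b) n
  have e2 : rr M φ k a n = 1 ↔ rr M φ k b n = 1 := by
    rw [E6_rr_iff, E6_rr_iff, e1]
  omega

theorem rr_iso {f : A ≃ B} (hf : IsIso M N f) : rr M φ k a = rr N φ k (fun i => f (a i)) := by
  funext n
  have b1 := rr_bit (M := M) (φ := φ) (k := k) (a := a) n
  have b2 := rr_bit (M := N) (φ := φ) (k := k) (a := fun i => f (a i)) n
  have e2 : rr M φ k a n = 1 ↔ rr N φ k (fun i => f (a i)) n = 1 := by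
    rw [E6_rr_iff, E6_rr_iff]
    constructor
    · rintro ⟨h, h1, h2⟩
      refine ⟨fun i => f (h i), fun i hi => congrArg f (h1 i hi), ?_⟩
      rw [← tru_iso hf φ h]
      exact h2
    · rintro ⟨h, h1, h2⟩
      refine ⟨fun i => f.symm (h i), fun i hi => by
        change f.symm (h i) = a i
        rw [h1 i hi, Equiv.symm_apply_apply], ?_⟩
      rw [tru_iso hf φ (fun i => f.symm (h i))]
      simp only [Equiv.apply_symm_apply]
      exact h2
  omega

section

variable {Q₁ Q₀ : ℕ → (ℕ → ℕ) → Prop}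

private theorem E6_Q_iff {c x : ℕ → ℕ}
    (q₁ : ∀ (b : ℕ → ℕ) (hb : ∀ i, dom x (b i)), ∀ n, (Q₁ n (jn c (jn x b)) ↔
      Tru (strOf x) φ (fun i => ⟨b i, hb i⟩) n = 1))
    (q₀ : ∀ (b : ℕ → ℕ) (hb : ∀ i, dom x (b i)), ∀ n, (Q₀ n (jn c (jn x b)) ↔
      ¬ Tru (strOf x) φ (fun i => ⟨b i, hb i⟩) n = 1))
    {a : ℕ → ℕ} (ha : ∀ i, dom x (a i)) (n : ℕ) :
    E6_Q Q₁ Q₀ k n (jn c (jn x a)) ↔ rr (strOf x) φ k (fun i => ⟨a i, ha i⟩) n = 1 := by
  unfold E6_Q E6_w
  simp only [p1_jn, p2_jn]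
  constructor
  · rintro ⟨q, h1, h2, h3⟩
    rw [E6_rr_iff]
    refine ⟨fun i => ⟨E6_b q a i, h2 i⟩, fun i hi => Subtype.ext (h1 i hi), ?_⟩
    intro e he
    exact (E6_good_iff q₁ q₀ h2 e).1 (h3 e he)
  · intro h
    rw [← encode_dl n, rr_fin] at h
    obtain ⟨t, h1, h2⟩ := h
    have key : ∀ i, E6_b (encode (t.map Subtype.val)) a i =
        ((t.getD i ⟨a i, ha i⟩ : {a : ℕ // dom x a}) : ℕ) := by
      intro i
      unfold E6_b
      rw [dl_encode, List.getD_eq_getElem?_getD, List.getD_eq_getElem?_getD, List.getElem?_map]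
      cases t[i]? <;> rfl
    have hb : ∀ i, dom x (E6_b (encode (t.map Subtype.val)) a i) := by
      intro i
      rw [key i]
      exact (t.getD i ⟨a i, ha i⟩).2
    refine ⟨encode (t.map Subtype.val), ?_, hb, ?_⟩
    · intro i hi
      rw [key i, h1 i hi]
    · intro e he
      rw [E6_good_iff q₁ q₀ hb e]
      have e1 : (fun i => (⟨E6_b (encode (t.map Subtype.val)) a i, hb i⟩ : {a : ℕ // dom x a})) =
          fun i => t.getD i ⟨a i, ha i⟩ := by
        funext i
        exact Subtype.ext (key i)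
      rw [e1]
      exact h2 e he

private theorem E6_Qn_iff {c x : ℕ → ℕ}
    (q₁ : ∀ (b : ℕ → ℕ) (hb : ∀ i, dom x (b i)), ∀ n, (Q₁ n (jn c (jn x b)) ↔
      Tru (strOf x) φ (fun i => ⟨b i, hb i⟩) n = 1))
    (q₀ : ∀ (b : ℕ → ℕ) (hb : ∀ i, dom x (b i)), ∀ n, (Q₀ n (jn c (jn x b)) ↔
      ¬ Tru (strOf x) φ (fun i => ⟨b i, hb i⟩) n = 1))
    {a : ℕ → ℕ} (ha : ∀ i, dom x (a i)) (n : ℕ) :
    E6_Qn Q₁ Q₀ k n (jn c (jn x a)) ↔ ¬ rr (strOf x) φ k (fun i => ⟨a i, ha i⟩) n = 1 := by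
  rw [← E6_Q_iff q₁ q₀ ha n]
  unfold E6_Q E6_Qn E6_w
  simp only [p1_jn, p2_jn]
  constructor
  · rintro h ⟨q, h1, h2, h3⟩
    rcases h q with h4 | ⟨i, h4⟩ | ⟨e, he, h4⟩
    · exact h4 h1
    · exact h4 (h2 i)
    · exact (E6_bad_iff q₁ q₀ h2 e).1 h4 ((E6_good_iff q₁ q₀ h2 e).1 (h3 e he))
  · intro h q
    by_contra hc
    rw [not_or, not_or, not_not] at hc
    obtain ⟨h1, h2, h3⟩ := hc
    have h2' : ∀ i, dom x (E6_b q a i) := by
      intro i
      by_contra h4
      exact h2 ⟨i, h4⟩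
    refine h ⟨q, h1, h2', ?_⟩
    intro e he
    rw [E6_good_iff q₁ q₀ h2' e]
    by_contra h4
    exact h3 ⟨e, he, (E6_bad_iff q₁ q₀ h2' e).2 h4⟩

end

theorem s11_rr (k : ℕ) : ∃ Q, S11 Q ∧ ∀ (φ : Fml) (c x a : ℕ → ℕ) (ha : ∀ i, dom x (a i)),
    HasCode φ c →
      ∀ n, (Q n (jn c (jn x a)) ↔ rr (strOf x) φ k (fun i => ⟨a i, ha i⟩) n = 1) := by
  obtain ⟨Q₁, hQ₁, q₁⟩ := s11_tru
  obtain ⟨Q₀, hQ₀, q₀⟩ := s11_tru0
  refine ⟨E6_Q Q₁ Q₀ k, E6_s11_Q hQ₁ hQ₀ k, ?_⟩
  intro φ c x a ha hc n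
  exact E6_Q_iff (fun b hb n => q₁ φ c x b hb hc n) (fun b hb n => q₀ φ c x b hb hc n) ha n

theorem s11_not_rr (k : ℕ) : ∃ Q, S11 Q ∧ ∀ (φ : Fml) (c x a : ℕ → ℕ) (ha : ∀ i, dom x (a i)),
    HasCode φ c →
      ∀ n, (Q n (jn c (jn x a)) ↔ ¬ rr (strOf x) φ k (fun i => ⟨a i, ha i⟩) n = 1) := by
  obtain ⟨Q₁, hQ₁, q₁⟩ := s11_tru
  obtain ⟨Q₀, hQ₀, q₀⟩ := s11_tru0
  refine ⟨E6_Qn Q₁ Q₀ k, E6_s11_Qn hQ₁ hQ₀ k, ?_⟩
  intro φ c x a ha hc n
  exact E6_Qn_iff (fun b hb n => q₁ φ c x b hb hc n) (fun b hb n => q₀ φ c x b hb hc n) ha n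

theorem hypIn_rr (hφ : HypFml φ) {y : ℕ → ℕ} (hy : Codes y M) : HypIn y (rr M φ k a) := by
  obtain ⟨c, hc, hcode⟩ := hφ
  obtain ⟨ι, hι, rfl⟩ := hy
  obtain ⟨f, hf, hfi⟩ := strOf_iso (M := M) hι
  obtain ⟨Q, hQ, hq⟩ := s11_rr k
  obtain ⟨Q', hQ', hq'⟩ := s11_not_rr k
  have hbp : Primrec (fun i => ((List.range k).map fun j => ι (a j)).getD i (ι (a 0))) :=
    (Primrec.list_getD (ι (a 0))).comp (Primrec.const _) Primrec.id
  have hbv : ∀ i, ∃ z : A, ((List.range k).map fun j => ι (a j)).getD i (ι (a 0)) = ι z ∧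
      (i < k → z = a i) := by
    intro i
    by_cases hi : i < k
    · refine ⟨a i, ?_, fun _ => rfl⟩
      rw [List.getD_eq_getElem?_getD, List.getElem?_map, List.getElem?_range hi]
      rfl
    · refine ⟨a 0, ?_, fun h => absurd h hi⟩
      rw [List.getD_eq_getElem?_getD, List.getElem?_eq_none (by simp; omega), Option.getD_none]
  generalize hbdef : (fun i => ((List.range k).map fun j => ι (a j)).getD i (ι (a 0))) = b at hbp
  have hbv' : ∀ i, ∃ z : A, b i = ι z ∧ (i < k → z = a i) := by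
    intro i
    rw [← hbdef]
    exact hbv i
  have hb : ∀ i, dom (dgm ι M) (b i) := by
    intro i
    obtain ⟨z, hz, _⟩ := hbv' i
    rw [dom_dgm, hz]
    exact ⟨z, rfl⟩
  have hrr : rr M φ k a = rr (strOf (dgm ι M)) φ k (fun i => ⟨b i, hb i⟩) := by
    rw [rr_iso hf]
    refine rr_congr ?_
    intro i hi
    obtain ⟨z, hz, hz'⟩ := hbv' i
    refine Subtype.ext ?_
    rw [hfi, ← hz' hi, ← hz]
  have hR : RecR (fun (_ : ℕ) (u : ℕ → ℕ) => jn (p1 u) (jn (p2 u) b)) :=
    recR_jn (recR_p1 recR_id) (recR_jn (recR_p2 recR_id) (recR_primrec hbp))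
  have s1 : S11 (fun v u => Q (Nat.unpair v).1 (jn (p1 u) (jn (p2 u) b))) :=
    s11_subst hQ (rec_fst rec_id) hR
  have s2 : S11 (fun v u => Q' (Nat.unpair v).1 (jn (p1 u) (jn (p2 u) b))) :=
    s11_subst hQ' (rec_fst rec_id) hR
  have s3 : S11 (fun v u => (((Nat.unpair v).2 = 1 ∧
      Q (Nat.unpair v).1 (jn (p1 u) (jn (p2 u) b))) ∨
      ((Nat.unpair v).2 = 0 ∧ Q' (Nat.unpair v).1 (jn (p1 u) (jn (p2 u) b))))) :=
    s11_or (s11_and (s11_of_rec (recP_eq (rec_snd rec_id) (rec_const 1))) s1)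
      (s11_and (s11_of_rec (recP_eq (rec_snd rec_id) (rec_const 0))) s2)
  refine ⟨_, s11_hyp hc s3, ?_⟩
  intro n m
  simp only [Nat.unpair_pair, p1_jn, p2_jn]
  rw [hq φ c _ b hb hcode n, hq' φ c _ b hb hcode n, ← hrr]
  have h1 := rr_bit (M := M) (φ := φ) (k := k) (a := a) n
  omega

/-- the position tested by the witness function -/
private def E6_E (u n : ℕ) : ℕ :=
  encode (Nat.pair (pt (dl (Nat.unpair (Nat.unpair u).2).1 ++ [n])
    (dl (Nat.unpair (Nat.unpair u).2).2)) 0 :: dl (Nat.unpair u).1)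

private theorem E6_E_primrec : Primrec₂ E6_E := by
  unfold E6_E pt
  have h1 : Primrec (fun w : ℕ × ℕ => Nat.unpair w.1) := Primrec.unpair.comp Primrec.fst
  have h2 : Primrec (fun w : ℕ × ℕ => Nat.unpair (Nat.unpair w.1).2) :=
    Primrec.unpair.comp (Primrec.snd.comp h1)
  have h3 : Primrec (fun w : ℕ × ℕ => dl (Nat.unpair (Nat.unpair w.1).2).1 ++ [w.2]) :=
    Primrec.list_append.comp (primrec_dl.comp (Primrec.fst.comp h2))
      (Primrec.list_cons.comp Primrec.snd (Primrec.const []))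
  have h4 : Primrec (fun w : ℕ × ℕ => dl (Nat.unpair (Nat.unpair w.1).2).2) :=
    primrec_dl.comp (Primrec.snd.comp h2)
  exact Primrec.encode.comp (Primrec.list_cons.comp (Primrec₂.natPair.comp
    (Primrec₂.natPair.comp (Primrec.encode.comp h3) (Primrec.encode.comp h4)) (Primrec.const 0))
    (primrec_dl.comp (Primrec.fst.comp h1)))

private theorem E6_lw (R : ℕ → ℕ) (u m : ℕ) : lw R u = m ↔
    ((R (E6_E u m) = 1 ∧ ∀ n < m, ¬ R (E6_E u n) = 1) ∨ (m = 0 ∧ ∀ n, ¬ R (E6_E u n) = 1)) := by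
  classical
  by_cases h : ∃ n, R (E6_E u n) = 1
  · have e1 : lw R u = Nat.find h := by
      have h' := h
      unfold E6_E at h'
      unfold lw
      rw [dif_pos h']
      congr
    rw [e1, Nat.find_eq_iff]
    constructor
    · intro h1
      exact Or.inl h1
    · rintro (h1 | ⟨_, h1⟩)
      · exact h1
      · obtain ⟨n, hn⟩ := h
        exact absurd hn (h1 n)
  · have e1 : lw R u = 0 := by
      have h' := h
      unfold E6_E at h'
      unfold lw
      rw [dif_neg h']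
    rw [e1]
    constructor
    · intro h1
      exact Or.inr ⟨h1.symm, fun n hn => h ⟨n, hn⟩⟩
    · rintro (⟨h1, _⟩ | ⟨h1, _⟩)
      · exact absurd ⟨m, h1⟩ h
      · exact h1.symm

private theorem E6_lw_s11 : ∃ P, S11 P ∧ ∀ R n m, P (Nat.pair n m) R ↔ lw R n = m := by
  have hs : Rec (fun v _ => (Nat.unpair v).2) := rec_snd rec_id
  have hf : Rec (fun v _ => (Nat.unpair v).1) := rec_fst rec_id
  refine ⟨fun v R => ((R (E6_E (Nat.unpair v).1 (Nat.unpair v).2) = 1 ∧
      ∀ n < (Nat.unpair v).2, ¬ R (E6_E (Nat.unpair v).1 n) = 1) ∨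
      ((Nat.unpair v).2 = 0 ∧ ∀ n, ¬ R (E6_E (Nat.unpair v).1 n) = 1)), ?_, ?_⟩
  · refine s11_or (s11_of_rec (recP_and ?_ ?_))
      (s11_and (s11_of_rec (recP_eq hs (rec_const 0))) ?_)
    · exact recP_eq (rec_app (rec_comp₂ E6_E_primrec hf hs)) (rec_const 1)
    · refine E6_ball (G := fun v _ => (Nat.unpair v).2)
        (F := fun v n R => ¬ R (E6_E (Nat.unpair v).1 n) = 1) ?_ hs
      exact recP_not (recP_eq (rec_app (rec_comp₂ E6_E_primrec (E6_rec_l hf) hs)) (rec_const 1))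
    · refine E6_all (F := fun v n R => ¬ R (E6_E (Nat.unpair v).1 n) = 1) ?_
      exact s11_of_rec
        (recP_not (recP_eq (rec_app (rec_comp₂ E6_E_primrec (E6_rec_l hf) hs)) (rec_const 1)))
  · intro R n m
    simp only [Nat.unpair_pair]
    exact (E6_lw R n m).symm

theorem hypIn_lw (R : ℕ → ℕ) : HypIn R (lw R) := by
  obtain ⟨P, hP, h⟩ := E6_lw_s11
  exact ⟨P, hP, fun n m => h R n m⟩

theorem realz_iff {R : ℕ → ℕ} : Realz φ₀ φ k R ↔
    ∃ (x a : ℕ → ℕ) (ha : ∀ i, dom x (a i)), IsCd x ∧ Mod (strOf x) φ₀ ∧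
      R = rr (strOf x) φ k (fun i => ⟨a i, ha i⟩) := by
  constructor
  · rintro ⟨A, M, hA, hne, hM, a, rfl⟩
    obtain ⟨x, hx, _, f, hf⟩ := exists_isCd M
    exact ⟨x, fun i => (f (a i)).1, fun i => (f (a i)).2, hx, (mod_iso hf φ₀).1 hM, rr_iso hf⟩
  · rintro ⟨x, a, ha, hx, hM, rfl⟩
    obtain ⟨b, hb⟩ := hx.ne
    exact ⟨{a : ℕ // dom x a}, strOf x, inferInstance, ⟨⟨b, hb⟩⟩, hM, _, rfl⟩

theorem s11_CC (hs : φ₀.free = ∅) (h₀ : HypFml φ₀) (hφ : HypFml φ) (k : ℕ) :
    ∃ P, S11 P ∧ ∀ n u, P n u ↔ CC φ₀ φ k u := by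
  obtain ⟨c, hc, hcode⟩ := hφ
  obtain ⟨K, hK, hKx⟩ := s11_mod hs h₀
  obtain ⟨Q, hQ, hq⟩ := s11_rr k
  obtain ⟨Q', hQ', hq'⟩ := s11_not_rr k
  obtain ⟨L, hL, hl⟩ := E6_lw_s11
  have r1 : RecR (fun (_ : ℕ) (v : ℕ → ℕ) => p1 (p2 v)) := recR_p1 (recR_p2 recR_id)
  have r2 : RecR (fun (_ : ℕ) (v : ℕ → ℕ) => p2 (p2 v)) := recR_p2 (recR_p2 recR_id)
  have r3 : RecR (fun (_ : ℕ) (v : ℕ → ℕ) => jn (p1 v) (p2 (p2 v))) :=
    recR_jn (recR_p1 recR_id) r2
  have hs2 : Rec (fun v _ => (Nat.unpair v).2) := rec_snd rec_id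
  have t1 : S11 (fun (_ : ℕ) (v : ℕ → ℕ) => ∀ i, dom (p1 (p2 (p2 v))) (p2 (p2 (p2 v)) i)) := by
    refine E6_all (F := fun _ i v => dom (p1 (p2 (p2 v))) (p2 (p2 (p2 v)) i)) ?_
    exact s11_of_rec (E6_recP_dom (recR_p1 r2) (recR_app (recR_p2 r2) hs2))
  have t2 : S11 (fun (n : ℕ) (v : ℕ → ℕ) => K n (p1 (p2 (p2 v)))) :=
    s11_subst hK rec_id (recR_p1 r2)
  have t3 : S11 (fun (_ : ℕ) (v : ℕ → ℕ) => ∀ i,
      ((p1 (p1 (p2 v)) i = 1 ∧ Q i (jn (p1 v) (p2 (p2 v)))) ∨
        (p1 (p1 (p2 v)) i = 0 ∧ Q' i (jn (p1 v) (p2 (p2 v)))))) := by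
    refine E6_all (F := fun _ i v =>
      ((p1 (p1 (p2 v)) i = 1 ∧ Q i (jn (p1 v) (p2 (p2 v)))) ∨
        (p1 (p1 (p2 v)) i = 0 ∧ Q' i (jn (p1 v) (p2 (p2 v)))))) ?_
    exact s11_or (s11_and (s11_of_rec (recP_eq (recR_app (recR_p1 r1) hs2) (rec_const 1)))
        (s11_subst hQ hs2 r3))
      (s11_and (s11_of_rec (recP_eq (recR_app (recR_p1 r1) hs2) (rec_const 0)))
        (s11_subst hQ' hs2 r3))
  have t4 : S11 (fun (_ : ℕ) (v : ℕ → ℕ) => ∀ i,
      L (Nat.pair i (p2 (p1 (p2 v)) i)) (p1 (p1 (p2 v)))) := by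
    refine E6_all (F := fun _ i v => L (Nat.pair i (p2 (p1 (p2 v)) i)) (p1 (p1 (p2 v)))) ?_
    exact s11_subst hL (rec_pair hs2 (recR_app (recR_p2 r1) hs2)) (recR_p1 r1)
  have t5 := s11_exR (s11_hyp hc (s11_and t1 (s11_and t2 (s11_and t3 t4))))
  refine ⟨_, t5, ?_⟩
  intro n u
  simp only [p1_jn, p2_jn]
  constructor
  · rintro ⟨w, h1, h2, h3, h4⟩
    rw [hKx] at h2
    have hR : p1 u = rr (strOf (p1 w)) φ k (fun i => ⟨p2 w i, h1 i⟩) := by
      funext i
      have h5 := h3 i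
      rw [← jn_p w, p1_jn, p2_jn] at h1
      have h6 := hq φ c (p1 w) (p2 w) h1 hcode i
      have h7 := hq' φ c (p1 w) (p2 w) h1 hcode i
      rw [jn_p w] at h6 h7
      rw [h6, h7] at h5
      have h8 := rr_bit (M := strOf (p1 w)) (φ := φ) (k := k) (a := fun i => ⟨p2 w i, h1 i⟩) i
      omega
    have hW : p2 u = lw (p1 u) := by
      funext i
      exact ((hl (p1 u) i (p2 u i)).1 (h4 i)).symm
    refine ⟨p1 u, realz_iff.2 ⟨p1 w, p2 w, h1, h2.1, h2.2, hR⟩, ?_⟩
    rw [← hW, jn_p]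
  · rintro ⟨R, hR, rfl⟩
    obtain ⟨x, a, ha, hx, hM, rfl⟩ := realz_iff.1 hR
    refine ⟨jn x a, ?_⟩
    simp only [p1_jn, p2_jn]
    refine ⟨ha, (hKx n x).2 ⟨hx, hM⟩, ?_, ?_⟩
    · intro i
      rw [hq φ c x a ha hcode i, hq' φ c x a ha hcode i]
      have h8 := rr_bit (M := strOf x) (φ := φ) (k := k) (a := fun i => ⟨a i, ha i⟩) i
      omega
    · intro i
      rw [hl]

end BW
end

section

/-!
# BW.U4 : sparse non-leftmost branches of a perfect tree

PROOF.  Every `s` in `K` has a child in `K` (`Perf.split` and `Pfx`).  Call `s ∈ K` a splitting node if it has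
at least two children in `K`.  Let `lk s` be the least `j` with `K (s ++ [j])`, and `sk s` the second
least one, for splitting nodes.
(0) For every `s ∈ K` the leftmost branch above `s` (always the child `lk`) contains a splitting node:
otherwise all nodes of `K` above `s` are comparable (they lie on this branch), a contradiction to
`Perf.split`.
Define by recursion states `(s, k)`, `k` = the number of splitting nodes met so far: start with
`([], 0)`; from `(s, k)` go to `(s ++ [lk s], k)` if `s` is not a splitting node, to `(s ++ [sk s], k + 1)` if it is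
a splitting node and `k ∈ range M`, to `(s ++ [lk s], k + 1)` if it is one and `k ∉ range M`.
Let `x` be the union.  By (0) infinitely many splitting nodes are met; let `q k` be the level of the
splitting node number `k`.  At a level `n` which is not of the form `q (M i)` the least child is
taken, so there is no `j < x n` with `K (pre x n ++ [j])`; at the level `q (M i)` the second least child is
taken.
-/

namespace BW

private theorem U4_pre_length (x : ℕ → ℕ) (k : ℕ) : (pre x k).length = k := by simp [pre]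

private theorem U4_pre_succ (x : ℕ → ℕ) (k : ℕ) : pre x (k + 1) = pre x k ++ [x k] := by
  simp [pre, List.range_succ]

/-- splitting nodes -/
def U4_Spl (K : List ℕ → Prop) (s : List ℕ) : Prop :=
  ∃ j j' : ℕ, j ≠ j' ∧ K (s ++ [j]) ∧ K (s ++ [j'])

private theorem U4_child {K : List ℕ → Prop} (hK : Perf K) {s : List ℕ} (hs : K s) :
    ∃ j, K (s ++ [j]) := by
  obtain ⟨t, u, ht, hu, hst, hsu, htu, hut⟩ := hK.split s hs
  obtain ⟨r, rfl⟩ := hst
  cases r with
  | nil => exact absurd (by simpa using hsu) htu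
  | cons a r =>
    refine ⟨a, ?_⟩
    have : K ((s ++ [a]) ++ r) := by simpa using ht
    exact hK.pfx _ _ this

/-- least child -/
private theorem U4_least {K : List ℕ → Prop} {s : List ℕ} (h : ∃ j, K (s ++ [j])) :
    ∃ j, K (s ++ [j]) ∧ ∀ i < j, ¬ K (s ++ [i]) := by
  classical
  exact ⟨Nat.find h, Nat.find_spec h, fun i hi => Nat.find_min h hi⟩

private theorem U4_step {K : List ℕ → Prop} (hK : Perf K) (B : Prop) (s : List ℕ) :
    ∃ j, K s → K (s ++ [j]) ∧ ((∃ i < j, K (s ++ [i])) ↔ (U4_Spl K s ∧ B)) := by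
  classical
  by_cases hs : K s
  · obtain ⟨j, hj, hmin⟩ := U4_least (U4_child hK hs)
    by_cases hB : U4_Spl K s ∧ B
    · obtain ⟨a, b, hab, ha, hb⟩ := hB.1
      have h2 : ∃ i, j < i ∧ K (s ++ [i]) := by
        rcases lt_trichotomy a j with h | h | h
        · exact absurd ha (hmin a h)
        · rcases lt_trichotomy b j with h' | h' | h'
          · exact absurd hb (hmin b h')
          · exact absurd (h.trans h'.symm) hab
          · exact ⟨b, h', hb⟩
        · exact ⟨a, h, ha⟩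
      obtain ⟨i, hi, hKi⟩ := h2
      exact ⟨i, fun _ => ⟨hKi, fun _ => hB, fun _ => ⟨j, hi, hj⟩⟩⟩
    · exact ⟨j, fun _ => ⟨hj, fun ⟨i, hi, hKi⟩ => absurd hKi (hmin i hi), fun h => absurd h hB⟩⟩
  · exact ⟨0, fun h => absurd h hs⟩

private theorem U4_inf {K : List ℕ → Prop} (hK : Perf K) {x : ℕ → ℕ} (hx : ∀ k, K (pre x k))
    (n : ℕ) : ∃ m, n ≤ m ∧ U4_Spl K (pre x m) := by
  by_contra hcon
  push Not at hcon
  have key : ∀ r : List ℕ, K (pre x n ++ r) → pre x n ++ r = pre x (n + r.length) := by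
    intro r
    induction r using List.reverseRecOn with
    | nil => intro _; simp
    | append_singleton r a ih =>
      intro h
      have h1 : K (pre x n ++ r) := by
        have : K ((pre x n ++ r) ++ [a]) := by simpa using h
        exact hK.pfx _ _ this
      have h2 := ih h1
      have h3 : K (pre x (n + r.length) ++ [a]) := by
        rw [← h2]; simpa using h
      have h4 : K (pre x (n + r.length) ++ [x (n + r.length)]) := by
        rw [← U4_pre_succ]; exact hx _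
      have h5 : a = x (n + r.length) := by
        by_contra hne
        exact hcon (n + r.length) (by omega) ⟨a, _, hne, h3, h4⟩
      have h6 : pre x n ++ (r ++ [a]) = pre x (n + r.length + 1) := by
        rw [U4_pre_succ, ← h2, ← h5]; simp
      simpa [add_assoc] using h6
  obtain ⟨t, u, ht, hu, ⟨r, rfl⟩, ⟨r', rfl⟩, htu, hut⟩ := hK.split _ (hx n)
  rw [key r ht, key r' hu] at htu hut
  have hpp : ∀ a b : ℕ, a ≤ b → pre x a <+: pre x b := by
    intro a b hab
    obtain ⟨d, rfl⟩ := Nat.exists_eq_add_of_le hab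
    induction d with
    | zero => exact List.prefix_rfl
    | succ d ih =>
      refine (ih (by omega)).trans ?_
      rw [← add_assoc, U4_pre_succ]
      exact List.prefix_append _ _
  rcases le_total (n + r.length) (n + r'.length) with h | h
  · exact htu (hpp _ _ h)
  · exact hut (hpp _ _ h)

theorem exists_branch {K : List ℕ → Prop} (hK : Perf K) (h0 : K []) (M : ℕ → ℕ)
    (hM : StrictMono M) :
    ∃ x q : ℕ → ℕ, StrictMono q ∧ (∀ k, K (pre x k)) ∧
      (∀ n, (∃ j j' : ℕ, j ≠ j' ∧ K (pre x n ++ [j]) ∧ K (pre x n ++ [j'])) ↔ ∃ k, q k = n) ∧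
      (∀ n, (∃ j < x n, K (pre x n ++ [j])) ↔ ∃ i, q (M i) = n) := by
  classical
  choose c hc using fun (p : List ℕ × ℕ) => U4_step hK (p.2 ∈ Set.range M) p.1
  let st : ℕ → List ℕ × ℕ := fun n => Nat.rec ([], 0)
    (fun _ p => (p.1 ++ [c p], if U4_Spl K p.1 then p.2 + 1 else p.2)) n
  have st0 : st 0 = ([], 0) := rfl
  have st1 : ∀ n, st (n + 1) =
      ((st n).1 ++ [c (st n)], if U4_Spl K (st n).1 then (st n).2 + 1 else (st n).2) :=
    fun n => rfl
  let x : ℕ → ℕ := fun n => c (st n)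
  have hpre : ∀ n, (st n).1 = pre x n := by
    intro n
    induction n with
    | zero => simp [st0, pre]
    | succ n ih => rw [st1, U4_pre_succ, ← ih]
  have hKx : ∀ n, K (pre x n) := by
    intro n
    induction n with
    | zero => simpa [pre] using h0
    | succ n ih =>
      rw [U4_pre_succ, ← hpre]
      exact (hc (st n) (by rw [hpre]; exact ih)).1
  let S : ℕ → Prop := fun n => U4_Spl K (pre x n)
  have hcnt : ∀ n, (st n).2 = Nat.count S n := by
    intro n
    induction n with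
    | zero => simp [st0]
    | succ n ih =>
      rw [st1, Nat.count_succ]
      have : U4_Spl K (st n).1 ↔ S n := by rw [hpre]
      by_cases h : S n
      · simp [this.2 h, h, ih]
      · simp only [h, if_false, ih, add_zero]
        split_ifs with h'
        · exact absurd (this.1 h') h
        · rfl
  have hinf : (Set.ofPred S).Infinite := by
    rw [Set.infinite_iff_exists_gt]
    intro n
    obtain ⟨m, hm, hS⟩ := U4_inf hK hKx (n + 1)
    exact ⟨m, hS, by omega⟩
  have hrange : ∀ n, S n ↔ ∃ k, Nat.nth S k = n := by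
    intro n
    have := Nat.range_nth_of_infinite hinf
    have h2 : n ∈ Set.range (Nat.nth S) ↔ n ∈ Set.ofPred S := by rw [this]
    exact h2.symm
  refine ⟨x, Nat.nth S, Nat.nth_strictMono hinf, hKx, fun n => hrange n, fun n => ?_⟩
  have h1 := (hc (st n) (by rw [hpre]; exact hKx n)).2
  rw [hpre, hcnt] at h1
  refine h1.trans ?_
  constructor
  · rintro ⟨hs, i, hi⟩
    exact ⟨i, by rw [hi]; exact Nat.nth_count hs⟩
  · rintro ⟨i, hi⟩
    refine ⟨(hrange n).2 ⟨_, hi⟩, i, ?_⟩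
    rw [← hi, Nat.count_nth_of_infinite hinf]

end BW
end

section

/-!
# BW.D4 : complexity of `Det`

PROOFS.
* `isCode_iff` : `→` induction on the formula: all tags of nodes are `≤ 5` (`hasCode_nd`), and a branch `w` with
  all tags `≥ 2` would give an infinite descending sequence of proper subformulas (the tag of `nd c (pre w k)` is
  `≥ 2`, so `φ.at (pre w (k+1))` is a proper subformula of `φ.at (pre w k)`; induction on `φ` for all `c`).
  `←` if `c` is not a code, its tag is `≥ 2` (`≤ 5`) and some child `st c n` is not a code (for the tags `2, 4, 5` all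
  children are equal; note `dl (c 1)` decodes every number, `encode_dl`); repeat: a branch `w` with all tags `≥ 2`.
* `s11_not_isCode` : from `isCode_iff` (`recR_nd`).
* `exists_notDet` : `Det φ₀ φ α` fails iff it fails for coded structures (`exists_isCd`, `mod_iso`, `tp_iso`,
  `bf_iso`, `bf_symm`, `bf_trans`), with lists of elements of the domains.
  For `α` the type of `seg R u`, `R = Rl e z₀`, `z₀ = fun _ => 0` a well-order: `¬ BF .. α ..` iff there is `Z` with
  `BSys x₁ x₂ Z R` and `Z (tr u s t) ≠ 1` (`bsys_iff`, `exists_bsys`).  The predicate `D (pair e u) y`: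
  there are reals `x₁, x₂, Z` and numbers `a₀, b₀` and lists `l, r` with: `IsCd x₁`, `IsCd x₂`,
  `Mod (strOf x₁) φ₀`, `Mod (strOf x₂) φ₀` (`s11_mod`), `a₀ :: l` over `dom x₁`, `b₀ :: r` over `dom x₂`, equal lengths,
  for all `n` the truth values of the atom `n` under `ext a₀ l` and `ext b₀ r` are both `1` or both not `1`
  (`s11_tru`, `s11_tru0` with the code `y`), `BSys x₁ x₂ Z (Rl e z₀)` (`s11_bsys`) and
  `Z (tr u (a₀ :: l) (b₀ :: r)) ≠ 1`.
-/

namespace BW

open Encodable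

/-! ### codes of formulas -/

private theorem D4_pre_cons (w : ℕ → ℕ) (k : ℕ) :
    pre w (k + 1) = w 0 :: pre (fun i => w (i + 1)) k := by
  unfold pre
  rw [List.range_succ_eq_map, List.map_cons, List.map_map]
  rfl

private theorem D4_nd_cons (c : ℕ → ℕ) (a : ℕ) (σ : List ℕ) : nd c (a :: σ) = nd (st c a) σ := rfl

private theorem D4_tag {φ : Fml} {c : ℕ → ℕ} (h : HasCode φ c) : c 0 ≤ 5 := by
  cases φ with
  | eq i j => rw [h.1]; omega
  | rel k l => rw [h.1]; omega
  | neg φ => rw [h.1]; omega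
  | conj φ => rw [h.1]; omega
  | all i φ => rw [h.1]; omega
  | ren l φ => rw [h.1]

private theorem D4_branch {φ : Fml} : ∀ {c : ℕ → ℕ}, HasCode φ c →
    ¬ ∃ w : ℕ → ℕ, ∀ k, 2 ≤ nd c (pre w k) 0 := by
  induction φ with
  | eq i j =>
    rintro c h ⟨w, hw⟩
    have h1 : 2 ≤ c 0 := hw 0
    rw [h.1] at h1
    omega
  | rel k l =>
    rintro c h ⟨w, hw⟩
    have h1 : 2 ≤ c 0 := hw 0
    rw [h.1] at h1
    omega
  | neg φ ih =>
    rintro c h ⟨w, hw⟩
    refine ih (hasCode_st h (w 0)) ⟨fun i => w (i + 1), fun k => ?_⟩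
    rw [← D4_nd_cons, ← D4_pre_cons]
    exact hw (k + 1)
  | conj φ ih =>
    rintro c h ⟨w, hw⟩
    refine ih (w 0) (hasCode_st h (w 0)) ⟨fun i => w (i + 1), fun k => ?_⟩
    rw [← D4_nd_cons, ← D4_pre_cons]
    exact hw (k + 1)
  | all i φ ih =>
    rintro c h ⟨w, hw⟩
    refine ih (hasCode_st h (w 0)) ⟨fun i => w (i + 1), fun k => ?_⟩
    rw [← D4_nd_cons, ← D4_pre_cons]
    exact hw (k + 1)
  | ren l φ ih =>
    rintro c h ⟨w, hw⟩
    refine ih (hasCode_st h (w 0)) ⟨fun i => w (i + 1), fun k => ?_⟩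
    rw [← D4_nd_cons, ← D4_pre_cons]
    exact hw (k + 1)

/-- not a code, but all tags are at most five -/
private def D4_N (c : ℕ → ℕ) : Prop := ¬ IsCode c ∧ ∀ σ, nd c σ 0 ≤ 5

private theorem D4_step {c : ℕ → ℕ} (h : D4_N c) : 2 ≤ c 0 ∧ ∃ n, D4_N (st c n) := by
  obtain ⟨hn, ht⟩ := h
  have ht' : ∀ n σ, nd (st c n) σ 0 ≤ 5 := fun n σ => ht (n :: σ)
  have h5 : c 0 ≤ 5 := ht []
  have h0 : c 0 ≠ 0 := fun h0 => hn ⟨.eq (c 1) (c 2), h0, rfl, rfl⟩
  have h1 : c 0 ≠ 1 := fun h1 => hn ⟨.rel (c 1) (dl (c 2)), h1, rfl, (encode_dl _).symm⟩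
  refine ⟨by omega, ?_⟩
  by_cases h3 : c 0 = 3
  · by_contra hcon
    push Not at hcon
    have hall : ∀ n, IsCode (sub c n) := by
      intro n
      by_contra hc
      refine hcon n ⟨?_, ht' n⟩
      unfold st
      rw [if_pos h3]
      exact hc
    choose φ hφ using hall
    exact hn ⟨.conj φ, h3, hφ⟩
  · refine ⟨0, ?_, ht' 0⟩
    unfold st
    rw [if_neg h3, if_neg (by omega)]
    rintro ⟨φ, hφ⟩
    have hc : c 0 = 2 ∨ c 0 = 4 ∨ c 0 = 5 := by omega
    rcases hc with hc | hc | hc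
    · exact hn ⟨.neg φ, hc, hφ⟩
    · exact hn ⟨.all (c 1) φ, hc, rfl, hφ⟩
    · exact hn ⟨.ren (dl (c 1)) φ, hc, (encode_dl _).symm, hφ⟩

theorem isCode_iff (c : ℕ → ℕ) : IsCode c ↔
    (∀ σ, nd c σ 0 ≤ 5) ∧ ¬ ∃ w : ℕ → ℕ, ∀ k, 2 ≤ nd c (pre w k) 0 := by
  constructor
  · rintro ⟨φ, hφ⟩
    exact ⟨fun σ => D4_tag (hasCode_nd hφ σ), D4_branch hφ⟩
  · rintro ⟨ht, hb⟩
    by_contra hn
    have hN : D4_N c := ⟨hn, ht⟩
    let g : {c : ℕ → ℕ // D4_N c} → ℕ := fun s => (D4_step s.2).2.choose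
    have hg : ∀ s : {c : ℕ → ℕ // D4_N c}, D4_N (st s.1 (g s)) :=
      fun s => (D4_step s.2).2.choose_spec
    let s : ℕ → {c : ℕ → ℕ // D4_N c} :=
      fun k => Nat.rec ⟨c, hN⟩ (fun _ s => ⟨st s.1 (g s), hg s⟩) k
    refine hb ⟨fun k => g (s k), fun k => ?_⟩
    have hs : ∀ k, nd c (pre (fun k => g (s k)) k) = (s k).1 := by
      intro k
      induction k with
      | zero => rfl
      | succ k ih =>
        rw [pre_succ, nd_append, ih]
    rw [hs k]
    exact (D4_step (s k).2).1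

private theorem D4_ex {Φ : ℕ → ℕ → (ℕ → ℕ) → Prop}
    (h : S11 (fun n x => Φ (Nat.unpair n).1 (Nat.unpair n).2 x)) : S11 (fun n x => ∃ m, Φ n m x) := by
  refine s11_congr (s11_ex h) fun n x => ?_
  simp only [Nat.unpair_pair]

private theorem D4_all {Φ : ℕ → ℕ → (ℕ → ℕ) → Prop}
    (h : S11 (fun n x => Φ (Nat.unpair n).1 (Nat.unpair n).2 x)) : S11 (fun n x => ∀ m, Φ n m x) := by
  refine s11_congr (s11_all h) fun n x => ?_
  simp only [Nat.unpair_pair]

private theorem D4_exR {Φ : ℕ → (ℕ → ℕ) → (ℕ → ℕ) → Prop}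
    (h : S11 (fun n u => Φ n (p1 u) (p2 u))) : S11 (fun n x => ∃ y : ℕ → ℕ, Φ n x y) := by
  refine s11_congr (s11_exR h) fun n x => ?_
  simp only [p1_jn, p2_jn]

theorem s11_not_isCode {F : ℕ → (ℕ → ℕ) → ℕ → ℕ} (hF : RecR F) :
    S11 (fun n x => ¬ IsCode (F n x)) := by
  refine s11_congr (P := fun n x => (∃ q : ℕ, 5 < nd (F n x) (dl q) 0) ∨
    ∃ w : ℕ → ℕ, ∀ k, 2 ≤ nd (F n x) (pre w k) 0) ?_ fun n x => ?_
  · refine s11_or ?_ ?_
    · refine D4_ex (Φ := fun n q x => 5 < nd (F n x) (dl q) 0) ?_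
      exact s11_of_rec (recP_lt (rec_const 5) (recR_app (recR_nd
        (recR_subst hF (rec_fst rec_id) recR_id) (rec_snd rec_id)) (rec_const 0)))
    · refine D4_exR (Φ := fun n x w => ∀ k, 2 ≤ nd (F n x) (pre w k) 0) ?_
      refine D4_all (Φ := fun n k u => 2 ≤ nd (F n (p1 u)) (pre (p2 u) k) 0) ?_
      refine s11_of_rec (recP_le (rec_const 2) ?_)
      have hp0 : Rec (fun n x => encode (pre x n)) := rec_pre rec_id
      have hp : Rec (fun n u => encode (pre (p2 u) (Nat.unpair n).2)) :=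
        rec_substR hp0 (rec_snd rec_id) (recR_p2 recR_id)
      have h := recR_app (recR_nd (recR_subst hF (rec_fst rec_id) (recR_p1 recR_id)) hp)
        (rec_const 0)
      simpa only [dl_encode] using h
  · rw [isCode_iff]
    constructor
    · rintro (⟨q, hq⟩ | hw) ⟨h1, h2⟩
      · exact absurd (h1 (dl q)) (not_le.2 hq)
      · exact h2 hw
    · intro h
      by_contra hcon
      rw [not_or] at hcon
      refine h ⟨fun σ => ?_, hcon.2⟩
      by_contra hσ
      refine hcon.1 ⟨encode σ, ?_⟩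
      rw [dl_encode]
      exact not_le.1 hσ

/-! ### the class `¬ Det` -/

/-- the assignment given by the code of a tuple -/
private def D4_ext (q k : ℕ) : ℕ := (dl q)[k]?.getD ((dl q)[0]?.getD 0)

private theorem D4_ext_primrec : Primrec₂ D4_ext := by
  unfold Primrec₂ D4_ext
  have h1 : Primrec (fun p : ℕ × ℕ => (dl p.1)[p.2]?) :=
    Primrec.list_getElem?.comp (primrec_dl.comp Primrec.fst) Primrec.snd
  have h2 : Primrec (fun p : ℕ × ℕ => (dl p.1)[0]?) :=
    Primrec.list_getElem?.comp (primrec_dl.comp Primrec.fst) (Primrec.const 0)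
  exact Primrec.option_getD.comp h1 (Primrec.option_getD.comp h2 (Primrec.const 0))

private theorem D4_recR_ext {G : ℕ → (ℕ → ℕ) → ℕ} (hG : Rec G) :
    RecR (fun n x => D4_ext (G n x)) :=
  rec_comp₂ D4_ext_primrec (rec_subst hG (rec_fst rec_id)) (rec_snd rec_id)

private theorem D4_ext_eq {x : ℕ → ℕ} (a₀ : {a : ℕ // dom x a}) (l : List {a : ℕ // dom x a})
    (q : ℕ) (hq : dl q = (a₀ :: l).map Subtype.val) (k : ℕ) : D4_ext q k = (ext a₀ l k).val := by
  unfold D4_ext ext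
  rw [hq, List.getElem?_map, List.getElem?_map, List.getD_eq_getElem?_getD]
  cases h : (a₀ :: l)[k]? with
  | none => rfl
  | some b => rfl

private theorem D4_lift {x : ℕ → ℕ} : ∀ (L : List ℕ), (∀ a ∈ L, dom x a) →
    ∃ l : List {a : ℕ // dom x a}, l.map Subtype.val = L := by
  intro L
  induction L with
  | nil => exact fun _ => ⟨[], rfl⟩
  | cons a L ih =>
    intro h
    obtain ⟨l, hl⟩ := ih fun b hb => h b (List.mem_cons_of_mem _ hb)
    exact ⟨⟨a, h a List.mem_cons_self⟩ :: l, by rw [List.map_cons, hl]⟩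

private theorem D4_lift' {x : ℕ → ℕ} (L : List ℕ) (h : ∀ a ∈ L, dom x a) (hne : L ≠ []) :
    ∃ (a₀ : {a : ℕ // dom x a}) (l : List {a : ℕ // dom x a}),
      L = (a₀ :: l).map Subtype.val := by
  obtain ⟨l, hl⟩ := D4_lift L h
  cases l with
  | nil => exact absurd hl.symm hne
  | cons a l => exact ⟨a, l, hl.symm⟩

/-- the matrix: `x₁`, `x₂`, `Z` are the parts of `w` -/
private def D4_M (K Q Q0 : ℕ → (ℕ → ℕ) → Prop) (m : ℕ) (y x₁ x₂ Z : ℕ → ℕ) (i j : ℕ) : Prop :=
  (K 0 x₁ ∧ K 0 x₂) ∧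
  (0 < (dl i).length ∧ (dl i).length = (dl j).length) ∧
  ((∀ k, k < (dl i).length → dom x₁ (D4_ext i k)) ∧
    (∀ k, k < (dl j).length → dom x₂ (D4_ext j k))) ∧
  (∀ n, (Q n (jn y (jn x₁ (D4_ext i))) ∧ Q n (jn y (jn x₂ (D4_ext j)))) ∨
    (Q0 n (jn y (jn x₁ (D4_ext i))) ∧ Q0 n (jn y (jn x₂ (D4_ext j))))) ∧
  BSys x₁ x₂ Z (Rl (Nat.unpair m).1 (fun _ => 0)) ∧
  ¬ Z (tr (Nat.unpair m).2 (dl i) (dl j)) = 1

private theorem D4_rec_dom {X : ℕ → (ℕ → ℕ) → ℕ → ℕ} {A : ℕ → (ℕ → ℕ) → ℕ} (hX : RecR X)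
    (hA : Rec A) : RecP (fun n x => dom (X n x) (A n x)) :=
  recP_eq (recR_app hX (rec_pair (rec_const 0) (rec_comp (f := fun a : ℕ => encode [a])
    (Primrec.encode.comp (Primrec.list_cons.comp Primrec.id (Primrec.const []))) hA)))
    (rec_const 1)

private theorem D4_rec_len {A : ℕ → (ℕ → ℕ) → ℕ} (hA : Rec A) :
    Rec (fun n x => (dl (A n x)).length) :=
  rec_comp (f := fun q => (dl q).length) (Primrec.list_length.comp primrec_dl) hA

private theorem D4_s11_dom {X : ℕ → (ℕ → ℕ) → ℕ → ℕ} {A : ℕ → (ℕ → ℕ) → ℕ} (hX : RecR X)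
    (hA : Rec A) : S11 (fun n x => ∀ k, k < (dl (A n x)).length → dom (X n x) (D4_ext (A n x) k)) := by
  refine D4_all (Φ := fun n k x => k < (dl (A n x)).length → dom (X n x) (D4_ext (A n x) k)) ?_
  have hA' : Rec (fun n x => A (Nat.unpair n).1 x) := rec_subst hA (rec_fst rec_id)
  have hX' : RecR (fun n x => X (Nat.unpair n).1 x) := recR_subst hX (rec_fst rec_id) recR_id
  exact s11_of_rec (recP_imp (recP_lt (rec_snd rec_id) (D4_rec_len hA'))
    (D4_rec_dom hX' (recR_app (D4_recR_ext hA') (rec_snd rec_id))))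

private theorem D4_s11_M {K Q Q0 : ℕ → (ℕ → ℕ) → Prop} (hK : S11 K) (hQ : S11 Q) (hQ0 : S11 Q0)
    {M I J : ℕ → (ℕ → ℕ) → ℕ} {Y X₁ X₂ Z : ℕ → (ℕ → ℕ) → ℕ → ℕ} (hM : Rec M) (hI : Rec I)
    (hJ : Rec J) (hY : RecR Y) (h1 : RecR X₁) (h2 : RecR X₂) (hZ : RecR Z) :
    S11 (fun n x => D4_M K Q Q0 (M n x) (Y n x) (X₁ n x) (X₂ n x) (Z n x) (I n x) (J n x)) := by
  unfold D4_M
  refine s11_and (s11_and (s11_subst hK (rec_const 0) h1) (s11_subst hK (rec_const 0) h2)) ?_
  refine s11_and (s11_of_rec (recP_and (recP_lt (rec_const 0) (D4_rec_len hI))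
    (recP_eq (D4_rec_len hI) (D4_rec_len hJ)))) ?_
  refine s11_and (s11_and (D4_s11_dom h1 hI) (D4_s11_dom h2 hJ)) ?_
  refine s11_and ?_ (s11_and ?_ ?_)
  · refine D4_all (Φ := fun n k x =>
      (Q k (jn (Y n x) (jn (X₁ n x) (D4_ext (I n x)))) ∧
        Q k (jn (Y n x) (jn (X₂ n x) (D4_ext (J n x))))) ∨
      (Q0 k (jn (Y n x) (jn (X₁ n x) (D4_ext (I n x)))) ∧
        Q0 k (jn (Y n x) (jn (X₂ n x) (D4_ext (J n x)))))) ?_
    have hY' : RecR (fun n x => Y (Nat.unpair n).1 x) := recR_subst hY (rec_fst rec_id) recR_id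
    have h1' : RecR (fun n x => X₁ (Nat.unpair n).1 x) := recR_subst h1 (rec_fst rec_id) recR_id
    have h2' : RecR (fun n x => X₂ (Nat.unpair n).1 x) := recR_subst h2 (rec_fst rec_id) recR_id
    have hI' : Rec (fun n x => I (Nat.unpair n).1 x) := rec_subst hI (rec_fst rec_id)
    have hJ' : Rec (fun n x => J (Nat.unpair n).1 x) := rec_subst hJ (rec_fst rec_id)
    have e1 := recR_jn hY' (recR_jn h1' (D4_recR_ext hI'))
    have e2 := recR_jn hY' (recR_jn h2' (D4_recR_ext hJ'))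
    exact s11_or (s11_and (s11_subst hQ (rec_snd rec_id) e1) (s11_subst hQ (rec_snd rec_id) e2))
      (s11_and (s11_subst hQ0 (rec_snd rec_id) e1) (s11_subst hQ0 (rec_snd rec_id) e2))
  · exact s11_bsys h1 h2 hZ (rec_fst hM) (recR_primrec (Primrec.const 0))
  · refine s11_of_rec (recP_not (recP_eq ?_ (rec_const 1)))
    have h := recR_app hZ (rec_pair (rec_snd hM) (rec_pair hI hJ))
    have e : (fun (n : ℕ) (x : ℕ → ℕ) => Z n x (tr (Nat.unpair (M n x)).2 (dl (I n x))
        (dl (J n x)))) = fun n x => Z n x (Nat.pair (Nat.unpair (M n x)).2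
          (Nat.pair (I n x) (J n x))) := by
      funext n x
      rw [tr, encode_dl, encode_dl]
    rw [e]
    exact h

private theorem D4_mem_ext {q : ℕ} {p : ℕ → Prop}
    (h : ∀ k, k < (dl q).length → p (D4_ext q k)) : ∀ a ∈ dl q, p a := by
  intro a ha
  obtain ⟨k, hk, rfl⟩ := List.getElem_of_mem ha
  have h1 := h k hk
  unfold D4_ext at h1
  rw [List.getElem?_eq_getElem hk] at h1
  exact h1

theorem exists_notDet {φ₀ : Fml} (hs : φ₀.free = ∅) (h₀ : HypFml φ₀) :
    ∃ D, S11 D ∧ ∀ (e u : ℕ) (y : ℕ → ℕ) (φ : Fml) (α : Ordinal.{0}), HasCode φ y →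
      IsWO (Rl e (fun _ => 0)) → Rl e (fun _ => 0) u u →
      HasType (seg (Rl e (fun _ => 0)) u) α →
        (D (Nat.pair e u) y ↔ ¬ Det φ₀ φ α) := by
  obtain ⟨K, hK, hKx⟩ := s11_mod hs h₀
  obtain ⟨Q, hQ, hQt⟩ := s11_tru
  obtain ⟨Q0, hQ0, hQt0⟩ := s11_tru0
  refine ⟨fun m y => ∃ w : ℕ → ℕ, ∃ i j : ℕ,
    D4_M K Q Q0 m y (p1 w) (p1 (p2 w)) (p2 (p2 w)) i j, ?_, ?_⟩
  · refine D4_exR (Φ := fun m y w => ∃ i j : ℕ,
      D4_M K Q Q0 m y (p1 w) (p1 (p2 w)) (p2 (p2 w)) i j) ?_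
    refine D4_ex (Φ := fun m i u => ∃ j : ℕ,
      D4_M K Q Q0 m (p1 u) (p1 (p2 u)) (p1 (p2 (p2 u))) (p2 (p2 (p2 u))) i j) ?_
    refine D4_ex (Φ := fun m j u => 
      D4_M K Q Q0 (Nat.unpair m).1 (p1 u) (p1 (p2 u)) (p1 (p2 (p2 u))) (p2 (p2 (p2 u)))
        (Nat.unpair m).2 j) ?_
    have hp2 : RecR (fun _ u => p2 u) := recR_p2 recR_id
    exact D4_s11_M hK hQ hQ0 (rec_fst (rec_fst rec_id)) (rec_snd (rec_fst rec_id))
      (rec_snd rec_id) (recR_p1 recR_id) (recR_p1 hp2) (recR_p1 (recR_p2 hp2))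
      (recR_p2 (recR_p2 hp2))
  · intro e u y φ α hc hwo hu hα
    constructor
    · rintro ⟨w, i, j, ⟨hK1, hK2⟩, ⟨hl0, hl⟩, ⟨hd1, hd2⟩, ht, hb, hz⟩ hdet
      rw [hKx] at hK1 hK2
      simp only [Nat.unpair_pair] at hb hz
      obtain ⟨a₀, l, hi⟩ := D4_lift' (dl i) (D4_mem_ext hd1) (List.length_pos_iff.1 hl0)
      obtain ⟨b₀, r, hj⟩ := D4_lift' (dl j) (D4_mem_ext hd2)
        (List.length_pos_iff.1 (hl ▸ hl0))
      have hlen : l.length = r.length := by
        rw [hi, hj] at hl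
        simpa using hl
      have ha : ∀ k, dom (p1 w) (D4_ext i k) := fun k => by
        rw [D4_ext_eq a₀ l i hi]
        exact (ext a₀ l k).2
      have hb' : ∀ k, dom (p1 (p2 w)) (D4_ext j k) := fun k => by
        rw [D4_ext_eq b₀ r j hj]
        exact (ext b₀ r k).2
      have e1 : (fun k => (⟨D4_ext i k, ha k⟩ : {a : ℕ // dom (p1 w) a})) = ext a₀ l :=
        funext fun k => Subtype.ext (D4_ext_eq a₀ l i hi k)
      have e2 : (fun k => (⟨D4_ext j k, hb' k⟩ : {a : ℕ // dom (p1 (p2 w)) a})) = ext b₀ r :=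
        funext fun k => Subtype.ext (D4_ext_eq b₀ r j hj k)
      have hTp : Tp (strOf (p1 w)) φ a₀ l = Tp (strOf (p1 (p2 w))) φ b₀ r := by
        funext n
        have q1 := hQt φ y (p1 w) (D4_ext i) ha hc n
        have q2 := hQt φ y (p1 (p2 w)) (D4_ext j) hb' hc n
        have q3 := hQt0 φ y (p1 w) (D4_ext i) ha hc n
        have q4 := hQt0 φ y (p1 (p2 w)) (D4_ext j) hb' hc n
        rw [e1] at q1 q3
        rw [e2] at q2 q4
        have b1 := tru_le_one (strOf (p1 w)) φ (ext a₀ l) n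
        have b2 := tru_le_one (strOf (p1 (p2 w))) φ (ext b₀ r) n
        unfold Tp
        rcases ht n with ⟨t1, t2⟩ | ⟨t1, t2⟩
        · rw [q1.1 t1, q2.1 t2]
        · have t3 := q3.1 t1
          have t4 := q4.1 t2
          omega
      have hBF := hdet _ _ (strOf (p1 w)) (strOf (p1 (p2 w))) inferInstance inferInstance
        hK1.2 hK2.2 a₀ l b₀ r hlen hTp
      apply hz
      rw [hi, hj]
      exact (bsys_iff hwo hb hu hα (a₀ :: l) (b₀ :: r)).2 hBF
    · intro hnd
      unfold Det at hnd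
      push Not at hnd
      obtain ⟨A, B, M, N, hA, hB, hM, hN, a₀, l, b₀, r, hlen, hTp, hBF⟩ := hnd
      have : Nonempty A := ⟨a₀⟩
      have : Nonempty B := ⟨b₀⟩
      obtain ⟨x₁, hx₁, -, f, hf⟩ := exists_isCd M
      obtain ⟨x₂, hx₂, -, g, hg⟩ := exists_isCd N
      obtain ⟨Z, hZ⟩ := exists_bsys x₁ x₂ hwo
      refine ⟨jn x₁ (jn x₂ Z), encode ((f a₀ :: l.map f).map Subtype.val),
        encode ((g b₀ :: r.map g).map Subtype.val), ?_⟩
      rw [p1_jn, p2_jn, p1_jn, p2_jn]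
      have hi := dl_encode ((f a₀ :: l.map f).map Subtype.val)
      have hj := dl_encode ((g b₀ :: r.map g).map Subtype.val)
      generalize encode ((f a₀ :: l.map f).map Subtype.val) = i at hi ⊢
      generalize encode ((g b₀ :: r.map g).map Subtype.val) = j at hj ⊢
      have ha : ∀ k, dom x₁ (D4_ext i k) := fun k => by
        rw [D4_ext_eq (f a₀) (l.map f) i hi]
        exact (ext (f a₀) (l.map f) k).2
      have hb' : ∀ k, dom x₂ (D4_ext j k) := fun k => by
        rw [D4_ext_eq (g b₀) (r.map g) j hj]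
        exact (ext (g b₀) (r.map g) k).2
      have e1 : (fun k => (⟨D4_ext i k, ha k⟩ : {a : ℕ // dom x₁ a})) = ext (f a₀) (l.map f) :=
        funext fun k => Subtype.ext (D4_ext_eq (f a₀) (l.map f) i hi k)
      have e2 : (fun k => (⟨D4_ext j k, hb' k⟩ : {a : ℕ // dom x₂ a})) = ext (g b₀) (r.map g) :=
        funext fun k => Subtype.ext (D4_ext_eq (g b₀) (r.map g) j hj k)
      refine ⟨⟨(hKx _ _).2 ⟨hx₁, (mod_iso hf φ₀).1 hM⟩, (hKx _ _).2 ⟨hx₂, (mod_iso hg φ₀).1 hN⟩⟩,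
        ⟨?_, ?_⟩, ⟨fun k _ => ha k, fun k _ => hb' k⟩, fun n => ?_, ?_, ?_⟩
      · rw [hi]
        simp
      · rw [hi, hj]
        simp [hlen]
      · have q1 := hQt φ y x₁ (D4_ext i) ha hc n
        have q2 := hQt φ y x₂ (D4_ext j) hb' hc n
        have q3 := hQt0 φ y x₁ (D4_ext i) ha hc n
        have q4 := hQt0 φ y x₂ (D4_ext j) hb' hc n
        rw [e1] at q1 q3
        rw [e2] at q2 q4
        have t1 : Tru (strOf x₁) φ (ext (f a₀) (l.map f)) = Tru (strOf x₂) φ (ext (g b₀) (r.map g)) := by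
          have h1 := tp_iso (φ := φ) (a₀ := a₀) (l := l) hf
          have h2 := tp_iso (φ := φ) (a₀ := b₀) (l := r) hg
          have h3 := h1.symm.trans (hTp.trans h2)
          exact h3
        by_cases h1 : Tru (strOf x₁) φ (ext (f a₀) (l.map f)) n = 1
        · exact Or.inl ⟨q1.2 h1, q2.2 (by rw [← t1]; exact h1)⟩
        · exact Or.inr ⟨q3.2 h1, q4.2 (by rw [← t1]; exact h1)⟩
      · rw [Nat.unpair_pair]
        exact hZ
      · rw [Nat.unpair_pair, hi, hj]
        intro hz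
        have h1 := (bsys_iff hwo hZ hu hα (f a₀ :: l.map f) (g b₀ :: r.map g)).1 hz
        apply hBF
        have h2 : BF M (strOf x₁) α (a₀ :: l) (f a₀ :: l.map f) := bf_iso hf α (a₀ :: l)
        have h3 : BF N (strOf x₂) α (b₀ :: r) (g b₀ :: r.map g) := bf_iso hg α (b₀ :: r)
        exact bf_trans (bf_trans h2 h1) (bf_symm h3)

end BW
end
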