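import Pool.Agent.Lib.MP_62bfd3_lc.Mg.G003
import Pool.Agent.Lib.MP_62bfd3_lc.Mg.G005
import Pool.Agent.Lib.MP_62bfd3_lc.Mg.G002

section

/-!
# BW.U3 : a modulus for the complete `Σ¹₁ (z)` set

PROOF.  `s11_tree` for `s11_U11`: `U11 (unpair n).1 (unpair n).2 z ↔ ∃ w, ∀ k, R n (pre z k) (pre w k) = true`.
For the `n` where this holds let `w_n` be a witness, `f (pair n k) = w_n k` (and `0` for the other `n`).
For a real `g` let `D n g :⇔ ∀ k, ∃ t : List ℕ, t.length = k ∧ (∀ i < k, t[i] ≤ g (pair n i)) ∧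
R n (pre z k) t = true`.  If `f ≤ g` and `U11 (unpair n).1 (unpair n).2 z` then `D n g` (take `pre w_n k`).  If `D n g`
for any `g` then the tree of the lists `t` with `t[i] ≤ g (pair n i)`, `R n (pre z t.length) t = true` is infinite
and finitely branching, closed under prefixes, so by Koenig's lemma it has an infinite branch `w`
(choose recursively an entry which keeps infinitely many extensions), so
`U11 (unpair n).1 (unpair n).2 z`.  Put `B n (jn z g) :⇔ ¬ D n g`: it is `∃ k, ∀ t, ..` with a recursive matrix,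
so `Σ¹₁` (`s11_ex`, `s11_all`, `s11_of_rec`; the lists are quantified through their codes).
-/

namespace BW

/-- Koenig's lemma for a tree of lists, closed under prefixes, with bounded entries -/
private theorem U3_koenig {T : List ℕ → Prop} {b : ℕ → ℕ} (hT : ∀ s t, T (s ++ t) → T s)
    (hb : ∀ s a, T (s ++ [a]) → a ≤ b s.length) (h : ∀ m, ∃ u : List ℕ, u.length = m ∧ T u) :
    ∃ w : ℕ → ℕ, ∀ k, T (pre w k) := by
  classical
  let Good : List ℕ → Prop := fun t => ∀ m, ∃ u : List ℕ, u.length = m ∧ T (t ++ u)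
  have hnext : ∀ t, Good t → ∃ a, Good (t ++ [a]) := by
    intro t ht
    by_contra hne
    have hne' : ∀ a, ∃ m, ∀ u : List ℕ, u.length = m → ¬ T (t ++ [a] ++ u) := by
      intro a
      by_contra h1
      refine hne ⟨a, fun m => ?_⟩
      by_contra h2
      refine h1 ⟨m, fun u hu hTu => h2 ⟨u, hu, hTu⟩⟩
    choose m hm using hne'
    obtain ⟨u, hu, hTu⟩ := ht ((∑ a ∈ Finset.range (b t.length + 1), m a) + 1)
    match u, hu, hTu with
    | [], hu, _ => simp at hu
    | a :: u', hu, hTu =>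
      have h3 : u'.length = ∑ a ∈ Finset.range (b t.length + 1), m a := by simpa using hu
      have h4 : t ++ a :: u' = t ++ [a] ++ u' := by simp
      rw [h4] at hTu
      have h5 : a ≤ b t.length := hb t a (hT _ _ hTu)
      have h6 : m a ≤ u'.length := by
        rw [h3]
        exact Finset.single_le_sum (f := m) (fun i _ => Nat.zero_le _)
          (Finset.mem_range.2 (Nat.lt_succ_of_le h5))
      refine hm a (u'.take (m a)) (by rw [List.length_take]; omega) ?_
      have h7 : t ++ [a] ++ u' = t ++ [a] ++ u'.take (m a) ++ u'.drop (m a) := by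
        rw [List.append_assoc (t ++ [a]), List.take_append_drop]
      rw [h7] at hTu
      exact hT _ _ hTu
  choose nx hnx using hnext
  let L : ℕ → {t : List ℕ // Good t} := fun k =>
    Nat.rec ⟨[], fun m => by
      obtain ⟨u, hu, hTu⟩ := h m
      exact ⟨u, hu, by simpa using hTu⟩⟩ (fun _ t => ⟨t.1 ++ [nx t.1 t.2], hnx t.1 t.2⟩) k
  have hL : ∀ k, (L (k + 1)).1 = (L k).1 ++ [nx (L k).1 (L k).2] := fun k => rfl
  refine ⟨fun k => nx (L k).1 (L k).2, fun k => ?_⟩
  have hpre : pre (fun k => nx (L k).1 (L k).2) k = (L k).1 := by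
    induction k with
    | zero => rfl
    | succ k ih => rw [pre_succ, ih, hL]
  rw [hpre]
  obtain ⟨u, hu, hTu⟩ := (L k).2 0
  exact hT _ _ hTu

/-- the bounded tree has a node on every level -/
private def U3_D (R : ℕ → List ℕ → List ℕ → Bool) (n : ℕ) (u : ℕ → ℕ) : Prop :=
  ∀ k, ∃ q, (dl q).length = k ∧ (∀ i < k, (dl q).getD i 0 ≤ (p2 u) (Nat.pair n i)) ∧
    R n (pre (p1 u) k) (dl q) = true

private theorem U3_s11 {R : ℕ → List ℕ → List ℕ → Bool}
    (hR : Primrec (fun p : ℕ × List ℕ × List ℕ => R p.1 p.2.1 p.2.2)) :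
    S11 (fun n u => ¬ U3_D R n u) := by
  have hn : Rec (fun v _ => (Nat.unpair (Nat.unpair v).1).1) := rec_fst (rec_fst rec_id)
  have hk : Rec (fun v _ => (Nat.unpair (Nat.unpair v).1).2) := rec_snd (rec_fst rec_id)
  have h1 : RecP (fun v _ => (dl (Nat.unpair v).2).length = (Nat.unpair (Nat.unpair v).1).2) := by
    refine recP_eq (rec_of_primrec ?_) hk
    exact Primrec.list_length.comp (primrec_dl.comp (Primrec.snd.comp Primrec.unpair))
  have h2 : RecP (fun v u => ∀ i < (Nat.unpair (Nat.unpair v).1).2,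
      (dl (Nat.unpair v).2).getD i 0 ≤ (p2 u) (Nat.pair (Nat.unpair (Nat.unpair v).1).1 i)) := by
    have h3 : RecP (fun w u => (dl (Nat.unpair (Nat.unpair w).1).2).getD (Nat.unpair w).2 0 ≤
        (p2 u) (Nat.pair (Nat.unpair (Nat.unpair (Nat.unpair w).1).1).1 (Nat.unpair w).2)) := by
      refine recP_le (rec_of_primrec ?_) (recR_app (recR_p2 recR_id)
        (rec_pair (rec_fst (rec_fst (rec_fst rec_id))) (rec_snd rec_id)))
      exact (Primrec.list_getD 0).comp (primrec_dl.comp (Primrec.snd.comp (Primrec.unpair.comp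
        (Primrec.fst.comp Primrec.unpair)))) (Primrec.snd.comp Primrec.unpair)
    have h4 := recP_ball h3 hk
    simpa only [Nat.unpair_pair] using h4
  have h5 : RecP (fun v u => R (Nat.unpair (Nat.unpair v).1).1
      (pre (p1 u) (Nat.unpair (Nat.unpair v).1).2) (dl (Nat.unpair v).2) = true) := by
    have h6 : Rec (fun v u => Encodable.encode (pre (p1 u) (Nat.unpair (Nat.unpair v).1).2)) :=
      rec_substR (rec_pre rec_id) hk (recR_p1 recR_id)
    have h7 : Primrec (fun q : ℕ => R (Nat.unpair q).1 (dl (Nat.unpair (Nat.unpair q).2).1)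
        (dl (Nat.unpair (Nat.unpair q).2).2)) := by
      have e1 : Primrec (fun q : ℕ => (Nat.unpair q).1) := Primrec.fst.comp Primrec.unpair
      have e2 : Primrec (fun q : ℕ => (Nat.unpair q).2) := Primrec.snd.comp Primrec.unpair
      exact hR.comp (Primrec.pair e1 (Primrec.pair (primrec_dl.comp (e1.comp e2))
        (primrec_dl.comp (e2.comp e2))))
    have h8 := recP_bool h7 (rec_pair hn (rec_pair h6 (rec_snd rec_id)))
    simpa only [Nat.unpair_pair, dl_encode] using h8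
  have h9 := s11_ex (s11_all (s11_of_rec (recP_not (recP_and h1 (recP_and h2 h5)))))
  refine s11_congr h9 fun n u => ?_
  simp only [Nat.unpair_pair, U3_D]
  push Not
  rfl

private theorem U3_pfx {R : ℕ → List ℕ → List ℕ → Bool} {z g : ℕ → ℕ} {n : ℕ}
    (hpfx : ∀ n s t s' t', s.length = t.length → R n (s ++ s') (t ++ t') = true → R n s t = true)
    (s t : List ℕ) (h : (∀ i < (s ++ t).length, (s ++ t).getD i 0 ≤ g (Nat.pair n i)) ∧
      R n (pre z (s ++ t).length) (s ++ t) = true) :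
    (∀ i < s.length, s.getD i 0 ≤ g (Nat.pair n i)) ∧ R n (pre z s.length) s = true := by
  obtain ⟨h1, h2⟩ := h
  refine ⟨fun i hi => ?_, ?_⟩
  · have h3 := h1 i (by rw [List.length_append]; omega)
    rwa [List.getD_append _ _ _ _ hi] at h3
  · obtain ⟨r, hr⟩ := pre_append z (Nat.le_add_right s.length t.length)
    rw [List.length_append, hr] at h2
    exact hpfx n _ _ _ _ (pre_length z _) h2

theorem exists_modulus (z : ℕ → ℕ) :
    ∃ (f : ℕ → ℕ) (B : ℕ → (ℕ → ℕ) → Prop), S11 B ∧ ∀ g : ℕ → ℕ, (∀ k, f k ≤ g k) → ∀ n,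
      (B n (jn z g) ↔ ¬ U11 (Nat.unpair n).1 (Nat.unpair n).2 z) := by
  classical
  obtain ⟨R, hR, hpfx, hU⟩ := s11_tree s11_U11
  let f : ℕ → ℕ := fun m => if h : ∃ w : ℕ → ℕ, ∀ k, R (Nat.unpair m).1 (pre z k) (pre w k) = true
    then Classical.choose h (Nat.unpair m).2 else 0
  refine ⟨f, fun n u => ¬ U3_D R n u, U3_s11 hR, fun g hg n => ?_⟩
  refine not_congr ?_
  rw [hU]
  unfold U3_D
  rw [p1_jn, p2_jn]
  constructor
  · intro hD
    have hkoe : ∃ w : ℕ → ℕ, ∀ k, (∀ i < (pre w k).length, (pre w k).getD i 0 ≤ g (Nat.pair n i)) ∧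
        R n (pre z (pre w k).length) (pre w k) = true := by
      refine U3_koenig (T := fun t => (∀ i < t.length, t.getD i 0 ≤ g (Nat.pair n i)) ∧
        R n (pre z t.length) t = true) (b := fun i => g (Nat.pair n i)) ?_ ?_ ?_
      case refine_1 => exact U3_pfx hpfx
      case refine_2 =>
        rintro s a ⟨h1, -⟩
        have h3 := h1 s.length (by simp)
        simpa using h3
      case refine_3 =>
        intro m
        obtain ⟨q, h1, h2, h3⟩ := hD m
        exact ⟨dl q, h1, by rw [h1]; exact h2, by rw [h1]; exact h3⟩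
    obtain ⟨w, hw⟩ := hkoe
    refine ⟨w, fun k => ?_⟩
    have := (hw k).2
    rwa [pre_length] at this
  · rintro ⟨w, hw⟩ k
    have hex : ∃ w : ℕ → ℕ, ∀ k, R n (pre z k) (pre w k) = true := ⟨w, hw⟩
    have hf : ∀ i, f (Nat.pair n i) = Classical.choose hex i := by
      intro i
      have key : ∀ (a b : ℕ) (_ : a = n) (h : ∃ w : ℕ → ℕ, ∀ k, R a (pre z k) (pre w k) = true),
          Classical.choose h b = Classical.choose hex b := by
        intro a b ha h
        subst ha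
        rfl
      have h0 : ∃ w : ℕ → ℕ, ∀ k, R (Nat.unpair (Nat.pair n i)).1 (pre z k) (pre w k) = true := by
        rw [Nat.unpair_pair]
        exact hex
      have h1 : f (Nat.pair n i) = Classical.choose h0 (Nat.unpair (Nat.pair n i)).2 := dif_pos h0
      rw [h1, key _ _ (by rw [Nat.unpair_pair]) h0, Nat.unpair_pair]
    refine ⟨Encodable.encode (pre (Classical.choose hex) k), ?_, ?_, ?_⟩
    · rw [dl_encode, pre_length]
    · intro i hi
      rw [dl_encode, List.getD_eq_getElem?_getD, pre_getElem? _ hi, Option.getD_some, ← hf]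
      exact hg _
    · rw [dl_encode]
      exact Classical.choose_spec hex k

end BW
end

section

/-!
# BW.U5 : decoding

PROOFS.
* `pi_to_sigma` : let `f`, `B` be the modulus (`exists_modulus z`).  Say that the real `e` is good if it is
  strictly increasing and for all `i` there is `j < x (e i)` with `K₀ (encode (pre x (e i) ++ [j])) z`.  This is
  `Σ¹₁` in `jn (jn z x) e`.  The real `v = q ∘ M` is good.  If `e` is good then its values are values of
  `v`, so `e i ≥ v i ≥ M i ≥ f i` for all `i` (a strictly increasing enumeration of a subset of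
  `range v`; `q` and `M` are strictly increasing).  Hence for all `n`:
  `¬ U11 (unpair n).1 (unpair n).2 z ↔ ∃ e good, B n (jn z e)`, a `Σ¹₁` statement about `jn z x`.  With an
  index `c` of the `Σ¹₁` predicate `P` (`s11_index`), `¬ P n z ↔ ¬ U11 c n z ↔` this for `pair c n`.
* `decode` : by `pi_to_sigma` both `K₀ (encode s) z` and `¬ K₀ (encode s) z` are `Σ¹₁` in `jn z x`.  The real
  `q` is the only strictly increasing real with: for all `n`, `n` is a value of `q` iff `pre x n` has two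
  different children in `K`; `v = q ∘ M` is the only strictly increasing real whose values are exactly the
  `n` with `∃ j < x n, K (pre x n ++ [j])`.  So `w i = a` iff there are reals `q'`, `v'` with these properties
  and a number `m` such that `v' i = q' m` and `(unpair m).1 = a`.  Both properties are `Σ¹₁` (they are
  number quantifiers over `K₀` and `¬ K₀`).
-/

namespace BW

open Encodable

variable {K₀ : ℕ → (ℕ → ℕ) → Prop} {x q M z : ℕ → ℕ}

private theorem U5_all {Φ : ℕ → ℕ → (ℕ → ℕ) → Prop}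
    (h : S11 (fun n x => Φ (Nat.unpair n).1 (Nat.unpair n).2 x)) : S11 (fun n x => ∀ m, Φ n m x) := by
  refine s11_congr (s11_all h) fun n x => ?_
  simp only [Nat.unpair_pair]

private theorem U5_ex {Φ : ℕ → ℕ → (ℕ → ℕ) → Prop}
    (h : S11 (fun n x => Φ (Nat.unpair n).1 (Nat.unpair n).2 x)) : S11 (fun n x => ∃ m, Φ n m x) := by
  refine s11_congr (s11_ex h) fun n x => ?_
  simp only [Nat.unpair_pair]

private theorem U5_exR {Φ : ℕ → (ℕ → ℕ) → (ℕ → ℕ) → Prop}
    (h : S11 (fun n u => Φ n (p1 u) (p2 u))) : S11 (fun n x => ∃ y : ℕ → ℕ, Φ n x y) := by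
  refine s11_congr (s11_exR h) fun n x => ?_
  simp only [p1_jn, p2_jn]

private theorem U5_primrec_snoc : Primrec₂ (fun a j : ℕ => encode (dl a ++ [j])) :=
  Primrec.encode.comp₂ (Primrec.list_append.comp₂ (primrec_dl.comp₂ Primrec₂.left)
    (Primrec.list_cons.comp₂ Primrec₂.right (Primrec₂.const [])))

/-- the code of a child of a node of a real -/
private theorem U5_node {X : ℕ → (ℕ → ℕ) → ℕ → ℕ} {A J : ℕ → (ℕ → ℕ) → ℕ} (hX : RecR X)
    (hA : Rec A) (hJ : Rec J) : Rec (fun n u => encode (pre (X n u) (A n u) ++ [J n u])) := by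
  have h1 : Rec (fun n u => encode (pre u n)) := rec_pre rec_id
  have h2 : Rec (fun n u => encode (pre (X n u) (A n u))) := rec_substR h1 hA hX
  have h3 := rec_comp₂ U5_primrec_snoc h2 hJ
  simpa only [dl_encode] using h3

private theorem U5_K {P : ℕ → (ℕ → ℕ) → Prop} (hP : S11 P) {X Z : ℕ → (ℕ → ℕ) → ℕ → ℕ}
    {A J : ℕ → (ℕ → ℕ) → ℕ} (hX : RecR X) (hZ : RecR Z) (hA : Rec A) (hJ : Rec J) :
    S11 (fun n u => P (encode (pre (X n u) (A n u) ++ [J n u])) (Z n u)) :=
  s11_subst hP (U5_node hX hA hJ) hZ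

private theorem U5_ap2 {G : ℕ → (ℕ → ℕ) → ℕ} (hG : Rec G) : Rec (fun n u => p2 u (G n u)) :=
  recR_app (recR_p2 recR_id) hG

/-- the real given by a functional is strictly increasing -/
private theorem U5_inc {X : ℕ → (ℕ → ℕ) → ℕ → ℕ} (hX : RecR X) :
    S11 (fun n u => ∀ i, X n u i < X n u (i + 1)) := by
  refine U5_all (Φ := fun n i u => X n u i < X n u (i + 1)) ?_
  have h1 : RecR (fun n u => X (Nat.unpair n).1 u) := recR_subst hX (rec_fst rec_id) recR_id
  exact s11_of_rec (recP_lt (recR_app h1 (rec_snd rec_id))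
    (recR_app h1 (rec_comp Primrec.succ (rec_snd rec_id))))

/-- the level of a node at which the branch is not leftmost -/
private theorem U5_left (hK : S11 K₀) {A : ℕ → (ℕ → ℕ) → ℕ} {X Z : ℕ → (ℕ → ℕ) → ℕ → ℕ}
    (hX : RecR X) (hZ : RecR Z) (hA : Rec A) :
    S11 (fun n u => ∃ j, j < X n u (A n u) ∧ K₀ (encode (pre (X n u) (A n u) ++ [j])) (Z n u)) := by
  refine U5_ex (Φ := fun n j u => j < X n u (A n u) ∧
    K₀ (encode (pre (X n u) (A n u) ++ [j])) (Z n u)) ?_
  have h1 : RecR (fun n u => X (Nat.unpair n).1 u) := recR_subst hX (rec_fst rec_id) recR_id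
  have h2 : RecR (fun n u => Z (Nat.unpair n).1 u) := recR_subst hZ (rec_fst rec_id) recR_id
  have h3 : Rec (fun n u => A (Nat.unpair n).1 u) := rec_subst hA (rec_fst rec_id)
  exact s11_and (s11_of_rec (recP_lt (rec_snd rec_id) (recR_app h1 h3)))
    (U5_K hK h1 h2 h3 (rec_snd rec_id))

/-- the complement, if the complement of the tree is given -/
private theorem U5_nleft (hK : S11 K₀) {A : ℕ → (ℕ → ℕ) → ℕ} {X Z : ℕ → (ℕ → ℕ) → ℕ → ℕ}
    (hX : RecR X) (hZ : RecR Z) (hA : Rec A) :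
    S11 (fun n u => ∀ j, j < X n u (A n u) → K₀ (encode (pre (X n u) (A n u) ++ [j])) (Z n u)) := by
  refine U5_all (Φ := fun n j u => j < X n u (A n u) →
    K₀ (encode (pre (X n u) (A n u) ++ [j])) (Z n u)) ?_
  have h1 : RecR (fun n u => X (Nat.unpair n).1 u) := recR_subst hX (rec_fst rec_id) recR_id
  have h2 : RecR (fun n u => Z (Nat.unpair n).1 u) := recR_subst hZ (rec_fst rec_id) recR_id
  have h3 : Rec (fun n u => A (Nat.unpair n).1 u) := rec_subst hA (rec_fst rec_id)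
  exact s11_imp (recP_lt (rec_snd rec_id) (recR_app h1 h3))
    (U5_K hK h1 h2 h3 (rec_snd rec_id))

/-- the level of a splitting node -/
private theorem U5_split (hK : S11 K₀) {A : ℕ → (ℕ → ℕ) → ℕ} {X Z : ℕ → (ℕ → ℕ) → ℕ → ℕ}
    (hX : RecR X) (hZ : RecR Z) (hA : Rec A) :
    S11 (fun n u => ∃ j j' : ℕ, j ≠ j' ∧ K₀ (encode (pre (X n u) (A n u) ++ [j])) (Z n u) ∧
      K₀ (encode (pre (X n u) (A n u) ++ [j'])) (Z n u)) := by
  refine U5_ex (Φ := fun n j u => ∃ j' : ℕ, j ≠ j' ∧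
    K₀ (encode (pre (X n u) (A n u) ++ [j])) (Z n u) ∧
      K₀ (encode (pre (X n u) (A n u) ++ [j'])) (Z n u)) ?_
  refine U5_ex (Φ := fun n j' u => (Nat.unpair n).2 ≠ j' ∧
    K₀ (encode (pre (X (Nat.unpair n).1 u) (A (Nat.unpair n).1 u) ++ [(Nat.unpair n).2]))
      (Z (Nat.unpair n).1 u) ∧
    K₀ (encode (pre (X (Nat.unpair n).1 u) (A (Nat.unpair n).1 u) ++ [j']))
      (Z (Nat.unpair n).1 u)) ?_
  have h0 : Rec (fun n _ => (Nat.unpair (Nat.unpair n).1).1) := rec_fst (rec_fst rec_id)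
  have h1 : RecR (fun n u => X (Nat.unpair (Nat.unpair n).1).1 u) := recR_subst hX h0 recR_id
  have h2 : RecR (fun n u => Z (Nat.unpair (Nat.unpair n).1).1 u) := recR_subst hZ h0 recR_id
  have h3 : Rec (fun n u => A (Nat.unpair (Nat.unpair n).1).1 u) := rec_subst hA h0
  have hj : Rec (fun n _ => (Nat.unpair (Nat.unpair n).1).2) := rec_snd (rec_fst rec_id)
  have hj' : Rec (fun n _ => (Nat.unpair n).2) := rec_snd rec_id
  exact s11_and (s11_of_rec (recP_not (recP_eq hj hj')))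
    (s11_and (U5_K hK h1 h2 h3 hj) (U5_K hK h1 h2 h3 hj'))

/-- the complement, if the complement of the tree is given -/
private theorem U5_nsplit (hK : S11 K₀) {A : ℕ → (ℕ → ℕ) → ℕ} {X Z : ℕ → (ℕ → ℕ) → ℕ → ℕ}
    (hX : RecR X) (hZ : RecR Z) (hA : Rec A) :
    S11 (fun n u => ∀ j j' : ℕ, j = j' ∨ K₀ (encode (pre (X n u) (A n u) ++ [j])) (Z n u) ∨
      K₀ (encode (pre (X n u) (A n u) ++ [j'])) (Z n u)) := by
  refine U5_all (Φ := fun n j u => ∀ j' : ℕ, j = j' ∨
    K₀ (encode (pre (X n u) (A n u) ++ [j])) (Z n u) ∨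
      K₀ (encode (pre (X n u) (A n u) ++ [j'])) (Z n u)) ?_
  refine U5_all (Φ := fun n j' u => (Nat.unpair n).2 = j' ∨
    K₀ (encode (pre (X (Nat.unpair n).1 u) (A (Nat.unpair n).1 u) ++ [(Nat.unpair n).2]))
      (Z (Nat.unpair n).1 u) ∨
    K₀ (encode (pre (X (Nat.unpair n).1 u) (A (Nat.unpair n).1 u) ++ [j']))
      (Z (Nat.unpair n).1 u)) ?_
  have h0 : Rec (fun n _ => (Nat.unpair (Nat.unpair n).1).1) := rec_fst (rec_fst rec_id)
  have h1 : RecR (fun n u => X (Nat.unpair (Nat.unpair n).1).1 u) := recR_subst hX h0 recR_id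
  have h2 : RecR (fun n u => Z (Nat.unpair (Nat.unpair n).1).1 u) := recR_subst hZ h0 recR_id
  have h3 : Rec (fun n u => A (Nat.unpair (Nat.unpair n).1).1 u) := rec_subst hA h0
  have hj : Rec (fun n _ => (Nat.unpair (Nat.unpair n).1).2) := rec_snd (rec_fst rec_id)
  have hj' : Rec (fun n _ => (Nat.unpair n).2) := rec_snd rec_id
  exact s11_or (s11_of_rec (recP_eq hj hj'))
    (s11_or (U5_K hK h1 h2 h3 hj) (U5_K hK h1 h2 h3 hj'))

/-- a number is a value of a real -/
private theorem U5_val {A : ℕ → (ℕ → ℕ) → ℕ} {X : ℕ → (ℕ → ℕ) → ℕ → ℕ} (hX : RecR X)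
    (hA : Rec A) : S11 (fun n u => ∃ k, X n u k = A n u) := by
  refine U5_ex (Φ := fun n k u => X n u k = A n u) ?_
  have h1 : RecR (fun n u => X (Nat.unpair n).1 u) := recR_subst hX (rec_fst rec_id) recR_id
  have h3 : Rec (fun n u => A (Nat.unpair n).1 u) := rec_subst hA (rec_fst rec_id)
  exact s11_of_rec (recP_eq (recR_app h1 (rec_snd rec_id)) h3)

theorem pi_to_sigma (hK : S11 K₀) {f : ℕ → ℕ} {B : ℕ → (ℕ → ℕ) → Prop} (hB : S11 B)
    (hf : ∀ g : ℕ → ℕ, (∀ k, f k ≤ g k) → ∀ n,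
      (B n (jn z g) ↔ ¬ U11 (Nat.unpair n).1 (Nat.unpair n).2 z))
    (hq : StrictMono q) (hM : StrictMono M) (hfM : ∀ i, f i ≤ M i)
    (hv : ∀ n, (∃ j < x n, K₀ (encode (pre x n ++ [j])) z) ↔ ∃ i, q (M i) = n)
    {P : ℕ → (ℕ → ℕ) → Prop} (hP : S11 P) :
    ∃ Q, S11 Q ∧ ∀ n, Q n (jn z x) ↔ ¬ P n z := by
  obtain ⟨c, hc⟩ := s11_index hP
  refine ⟨fun n w => ∃ e : ℕ → ℕ, (∀ i, e i < e (i + 1)) ∧
    (∀ i, ∃ j, j < p2 w (e i) ∧ K₀ (encode (pre (p2 w) (e i) ++ [j])) (p1 w)) ∧
      B (Nat.pair c n) (jn (p1 w) e), ?_, ?_⟩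
  · refine U5_exR (Φ := fun n w e => (∀ i, e i < e (i + 1)) ∧
      (∀ i, ∃ j, j < p2 w (e i) ∧ K₀ (encode (pre (p2 w) (e i) ++ [j])) (p1 w)) ∧
        B (Nat.pair c n) (jn (p1 w) e)) ?_
    refine s11_and (U5_inc (recR_p2 recR_id)) (s11_and ?_ ?_)
    · refine U5_all (Φ := fun n i u => ∃ j, j < p2 (p1 u) (p2 u i) ∧
        K₀ (encode (pre (p2 (p1 u)) (p2 u i) ++ [j])) (p1 (p1 u))) ?_
      exact U5_left hK (X := fun _ u => p2 (p1 u)) (Z := fun _ u => p1 (p1 u))
        (A := fun n u => p2 u (Nat.unpair n).2) (recR_p2 (recR_p1 recR_id))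
        (recR_p1 (recR_p1 recR_id)) (U5_ap2 (rec_snd rec_id))
    · exact s11_subst hB (rec_pair (rec_const c) rec_id)
        (recR_jn (recR_p1 (recR_p1 recR_id)) (recR_p2 recR_id))
  · intro n
    simp only [p1_jn, p2_jn]
    rw [hc n z]
    constructor
    · rintro ⟨e, he, hge, hBe⟩
      have heS : StrictMono e := strictMono_nat_of_lt_succ he
      have hex : ∀ i, ∃ k, q (M k) = e i := fun i => (hv (e i)).1 (hge i)
      choose σ hσ using hex
      have hqM : StrictMono (fun i => q (M i)) := hq.comp hM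
      have hσS : StrictMono σ := by
        intro i j hij
        have h1 : q (M (σ i)) < q (M (σ j)) := by
          rw [hσ, hσ]
          exact heS hij
        exact hqM.lt_iff_lt.1 h1
      have hfe : ∀ k, f k ≤ e k := fun k => by
        calc f k ≤ M k := hfM k
          _ ≤ q (M k) := hq.le_apply
          _ ≤ q (M (σ k)) := hqM.monotone hσS.le_apply
          _ = e k := hσ k
      have h2 := (hf e hfe (Nat.pair c n)).1 hBe
      simpa only [Nat.unpair_pair] using h2
    · intro hn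
      refine ⟨fun i => q (M i), fun i => hq (hM (Nat.lt_succ_self i)),
        fun i => (hv _).2 ⟨i, rfl⟩, ?_⟩
      refine (hf _ (fun k => (hfM k).trans hq.le_apply) _).2 ?_
      simpa only [Nat.unpair_pair] using hn

theorem decode (hK : S11 K₀) {Q : ℕ → (ℕ → ℕ) → Prop} (hQ : S11 Q)
    (hKQ : ∀ n, Q n (jn z x) ↔ ¬ K₀ n z) (hq : StrictMono q) (hM : StrictMono M)
    (hs : ∀ n, (∃ j j' : ℕ, j ≠ j' ∧ K₀ (encode (pre x n ++ [j])) z ∧
      K₀ (encode (pre x n ++ [j'])) z) ↔ ∃ k, q k = n)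
    (hv : ∀ n, (∃ j < x n, K₀ (encode (pre x n ++ [j])) z) ↔ ∃ i, q (M i) = n) {w : ℕ → ℕ}
    (hw : ∀ i, (Nat.unpair (M i)).1 = w i) : HypIn (jn z x) w := by
  refine ⟨fun n u => ∃ y : ℕ → ℕ,
    (∀ i, p1 y i < p1 y (i + 1)) ∧ (∀ i, p2 y i < p2 y (i + 1)) ∧
    (∀ k, ∃ j j' : ℕ, j ≠ j' ∧ K₀ (encode (pre (p2 u) (p1 y k) ++ [j])) (p1 u) ∧
      K₀ (encode (pre (p2 u) (p1 y k) ++ [j'])) (p1 u)) ∧
    (∀ m, (∀ j j' : ℕ, j = j' ∨ Q (encode (pre (p2 u) m ++ [j])) u ∨
      Q (encode (pre (p2 u) m ++ [j'])) u) ∨ ∃ k, p1 y k = m) ∧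
    (∀ k, ∃ j, j < p2 u (p2 y k) ∧ K₀ (encode (pre (p2 u) (p2 y k) ++ [j])) (p1 u)) ∧
    (∀ m, (∀ j, j < p2 u m → Q (encode (pre (p2 u) m ++ [j])) u) ∨ ∃ k, p2 y k = m) ∧
    ∃ m, p2 y (Nat.unpair n).1 = p1 y m ∧ (Nat.unpair m).1 = (Nat.unpair n).2, ?_, ?_⟩
  · have hX : RecR (fun _ u => p2 (p1 u)) := recR_p2 (recR_p1 recR_id)
    have hZ : RecR (fun _ u => p1 (p1 u)) := recR_p1 (recR_p1 recR_id)
    have hU : RecR (fun _ u => p1 u) := recR_p1 recR_id
    have hA : RecR (fun _ u => p1 (p2 u)) := recR_p1 (recR_p2 recR_id)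
    have hV : RecR (fun _ u => p2 (p2 u)) := recR_p2 (recR_p2 recR_id)
    have h2 : Rec (fun n _ => (Nat.unpair n).2) := rec_snd rec_id
    refine U5_exR (Φ := fun n u y => (∀ i, p1 y i < p1 y (i + 1)) ∧ (∀ i, p2 y i < p2 y (i + 1)) ∧
      (∀ k, ∃ j j' : ℕ, j ≠ j' ∧ K₀ (encode (pre (p2 u) (p1 y k) ++ [j])) (p1 u) ∧
        K₀ (encode (pre (p2 u) (p1 y k) ++ [j'])) (p1 u)) ∧
      (∀ m, (∀ j j' : ℕ, j = j' ∨ Q (encode (pre (p2 u) m ++ [j])) u ∨
        Q (encode (pre (p2 u) m ++ [j'])) u) ∨ ∃ k, p1 y k = m) ∧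
      (∀ k, ∃ j, j < p2 u (p2 y k) ∧ K₀ (encode (pre (p2 u) (p2 y k) ++ [j])) (p1 u)) ∧
      (∀ m, (∀ j, j < p2 u m → Q (encode (pre (p2 u) m ++ [j])) u) ∨ ∃ k, p2 y k = m) ∧
      ∃ m, p2 y (Nat.unpair n).1 = p1 y m ∧ (Nat.unpair m).1 = (Nat.unpair n).2) ?_
    refine s11_and (U5_inc hA) (s11_and (U5_inc hV) (s11_and ?_ (s11_and ?_ (s11_and ?_
      (s11_and ?_ ?_)))))
    · refine U5_all (Φ := fun _ k u => ∃ j j' : ℕ, j ≠ j' ∧
        K₀ (encode (pre (p2 (p1 u)) (p1 (p2 u) k) ++ [j])) (p1 (p1 u)) ∧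
        K₀ (encode (pre (p2 (p1 u)) (p1 (p2 u) k) ++ [j'])) (p1 (p1 u))) ?_
      exact U5_split hK (A := fun n u => p1 (p2 u) (Nat.unpair n).2) hX hZ (recR_app hA h2)
    · refine U5_all (Φ := fun _ m u => (∀ j j' : ℕ, j = j' ∨
        Q (encode (pre (p2 (p1 u)) m ++ [j])) (p1 u) ∨
        Q (encode (pre (p2 (p1 u)) m ++ [j'])) (p1 u)) ∨ ∃ k, p1 (p2 u) k = m) ?_
      exact s11_or (U5_nsplit hQ (A := fun n _ => (Nat.unpair n).2) hX hU h2)
        (U5_val (A := fun n _ => (Nat.unpair n).2) hA h2)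
    · refine U5_all (Φ := fun _ k u => ∃ j, j < p2 (p1 u) (p2 (p2 u) k) ∧
        K₀ (encode (pre (p2 (p1 u)) (p2 (p2 u) k) ++ [j])) (p1 (p1 u))) ?_
      exact U5_left hK (A := fun n u => p2 (p2 u) (Nat.unpair n).2) hX hZ (recR_app hV h2)
    · refine U5_all (Φ := fun _ m u => (∀ j, j < p2 (p1 u) m →
        Q (encode (pre (p2 (p1 u)) m ++ [j])) (p1 u)) ∨ ∃ k, p2 (p2 u) k = m) ?_
      exact s11_or (U5_nleft hQ (A := fun n _ => (Nat.unpair n).2) hX hU h2)
        (U5_val (A := fun n _ => (Nat.unpair n).2) hV h2)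
    · refine U5_ex (Φ := fun n m u => p2 (p2 u) (Nat.unpair n).1 = p1 (p2 u) m ∧
        (Nat.unpair m).1 = (Nat.unpair n).2) ?_
      exact s11_of_rec (recP_and
        (recP_eq (recR_app hV (rec_fst (rec_fst rec_id))) (recR_app hA h2))
        (recP_eq (rec_fst h2) (rec_snd (rec_fst rec_id))))
  · intro i a
    simp only [p1_jn, p2_jn, Nat.unpair_pair, hKQ]
    have hqM : StrictMono (fun i => q (M i)) := hq.comp hM
    constructor
    · rintro ⟨y, hy1, hy2, hs1, hs2, hv1, hv2, m, hm, hma⟩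
      have hyq : p1 y = q := by
        refine (StrictMono.range_inj (strictMono_nat_of_lt_succ hy1) hq).1 ?_
        ext n
        constructor
        · rintro ⟨k, rfl⟩
          exact (hs _).1 (hs1 k)
        · intro hn
          rcases hs2 n with h | h
          · obtain ⟨j, j', hj, hj1, hj2⟩ := (hs n).2 hn
            rcases h j j' with h3 | h3 | h3
            · exact (hj h3).elim
            · exact (h3 hj1).elim
            · exact (h3 hj2).elim
          · exact h
      have hyv : p2 y = fun i => q (M i) := by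
        refine (StrictMono.range_inj (strictMono_nat_of_lt_succ hy2) hqM).1 ?_
        ext n
        constructor
        · rintro ⟨k, rfl⟩
          exact (hv _).1 (hv1 k)
        · intro hn
          rcases hv2 n with h | h
          · obtain ⟨j, hj, hj1⟩ := (hv n).2 hn
            exact (h j hj hj1).elim
          · exact h
      rw [hyq, hyv] at hm
      have h4 : M i = m := hq.injective hm
      rw [← hw i, h4]
      exact hma
    · intro hwa
      refine ⟨jn q (fun i => q (M i)), ?_⟩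
      simp only [p1_jn, p2_jn]
      refine ⟨fun i => hq (Nat.lt_succ_self i), fun i => hqM (Nat.lt_succ_self i),
        fun k => (hs _).2 ⟨k, rfl⟩, fun m => ?_, fun k => (hv _).2 ⟨k, rfl⟩, fun m => ?_,
        M i, rfl, ?_⟩
      · by_cases h : ∃ k, q k = m
        · exact Or.inr h
        · refine Or.inl fun j j' => ?_
          by_contra hcon
          push Not at hcon
          exact h ((hs m).1 ⟨j, j', hcon.1, hcon.2.1, hcon.2.2⟩)
      · by_cases h : ∃ k, q (M k) = m
        · exact Or.inr h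
        · refine Or.inl fun j hj hKj => ?_
          exact h ((hv m).1 ⟨j, hj, hKj⟩)
      · rw [hw i, hwa]

end BW
end
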