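import Pool.Agent.Lib.MP_62bfd3_lc.Mg.G006
import Pool.Agent.Lib.MP_62bfd3_lc.Mg.G005
import Pool.Agent.Lib.MP_62bfd3_lc.Mg.G003
import Pool.Agent.Lib.MP_62bfd3_lc.Mg.G002
import Pool.Agent.Lib.MP_62bfd3_lc.Mg.G004

section

/-!
# BW.U6 : uncountable closed `Σ¹₁` sets have members of arbitrarily high hyperdegree

PROOF.  Let `K₀` be given by `exists_kernel`, `f`, `B` by `exists_modulus z`.  Choose a strictly increasing
`M` with `(unpair (M i)).1 = w i` and `M i ≥ f i` (recursively; `pair (w i) m ≥ m` is arbitrarily large;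
`Nat.right_le_pair`, `Nat.unpair_pair`).  `exists_branch` for `K s = K₀ (encode s) z` gives `x`, `q`.  Then
`P n (jn z x)` by the last property of `K₀`; `pi_to_sigma` for `P := K₀` gives `Q`, and `decode` gives
`HypIn (jn z x) w`.  `exists_member0`: for `z = fun _ => 0`: `jn z x` is recursive in `x` (`hypIn_of_funIn`,
`hypIn_trans`); the predicate is `fun n u => P n (p2 u)`.
-/

namespace BW

/-- the levels -/
private def U6_M (w f : ℕ → ℕ) : ℕ → ℕ
  | 0 => Nat.pair (w 0) (f 0)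
  | i + 1 => Nat.pair (w (i + 1)) (U6_M w f i + 1 + f (i + 1))

private theorem U6_mono (w f : ℕ → ℕ) : StrictMono (U6_M w f) := by
  refine strictMono_nat_of_lt_succ fun i => ?_
  show U6_M w f i < Nat.pair (w (i + 1)) (U6_M w f i + 1 + f (i + 1))
  have := Nat.right_le_pair (w (i + 1)) (U6_M w f i + 1 + f (i + 1))
  omega

private theorem U6_le (w f : ℕ → ℕ) (i : ℕ) : f i ≤ U6_M w f i := by
  cases i with
  | zero => exact Nat.right_le_pair (w 0) (f 0)
  | succ i =>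
    show f (i + 1) ≤ Nat.pair (w (i + 1)) (U6_M w f i + 1 + f (i + 1))
    have := Nat.right_le_pair (w (i + 1)) (U6_M w f i + 1 + f (i + 1))
    omega

private theorem U6_fst (w f : ℕ → ℕ) (i : ℕ) : (Nat.unpair (U6_M w f i)).1 = w i := by
  cases i with
  | zero => simp [U6_M]
  | succ i => simp [U6_M]

theorem exists_member {P : ℕ → (ℕ → ℕ) → Prop} (hP : S11 P) (n : ℕ) (z : ℕ → ℕ)
    (hcl : Clo {u | P n (jn z u)}) (hu : ¬ {u | P n (jn z u)}.Countable) (w : ℕ → ℕ) :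
    ∃ x, P n (jn z x) ∧ HypIn (jn z x) w := by
  obtain ⟨K₀, hK, hperf, hnil, hlast⟩ := exists_kernel hP n z hcl hu
  obtain ⟨f, B, hB, hf⟩ := exists_modulus z
  obtain ⟨x, q, hq, hx, hs, hv⟩ := exists_branch hperf hnil (U6_M w f) (U6_mono w f)
  obtain ⟨Q, hQ, hKQ⟩ := pi_to_sigma hK hB hf hq (U6_mono w f) (U6_le w f) hv hK
  exact ⟨x, hlast x hx, decode hK hQ hKQ hq (U6_mono w f) hs hv (U6_fst w f)⟩

/-- the lightface form (Martin, Friedman) -/
theorem exists_member0 {P : ℕ → (ℕ → ℕ) → Prop} (hP : S11 P) (n : ℕ)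
    (hcl : Clo {u | P n u}) (hu : ¬ {u | P n u}.Countable) (w : ℕ → ℕ) :
    ∃ x, P n x ∧ HypIn x w := by
  have hP' : S11 (fun n u => P n (p2 u)) := s11_subst hP rec_id (recR_p2 recR_id)
  have hset : {u | (fun n u => P n (p2 u)) n (jn (fun _ => 0) u)} = {u | P n u} := by
    ext u
    show P n (p2 (jn (fun _ => 0) u)) ↔ P n u
    rw [p2_jn]
  obtain ⟨x, hx, hw⟩ := exists_member hP' n (fun _ => 0) (by rw [hset]; exact hcl)
    (by rw [hset]; exact hu) w
  have hx' : P n x := by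
    have h : P n (p2 (jn (fun _ => 0) x)) := hx
    rwa [p2_jn] at h
  have hF : FunIn x (jn (fun _ => 0) x) :=
    funIn_of_recR (F := fun _ x => jn (fun _ => 0) x) (recR_jn (recR_primrec (Primrec.const 0)) recR_id) x 0
  exact ⟨x, hx', hypIn_trans (hypIn_of_funIn hF) hw⟩

end BW
end

section

/-!
# BW.E7 : uncountably many theories give the full spectrum

PROOF.  `⊆` is `spec_sub`.  Let `z` be a real.  The set `{u | CC φ₀ φ k u}` is `Σ¹₁` (`s11_CC`), closed (`clo_CC`) and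
uncountable (`R ↦ jn R (lw R)` is injective).  By `exists_member0` it has a member `u = jn R (lw R)` with
`HypIn u z`, `R = rr M φ k a`, `M` a countable model of `φ₀`.  For every code `y` of `M`: `HypIn y R` (`hypIn_rr`),
`HypIn R (lw R)`, so `HypIn y u` (`jn` of two reals which are hyperarithmetic in `y`), so `HypIn y z`
(`hypIn_trans`) and `omega1 z ≤ omega1 y` (`omega1_le_of_hypIn`).  So `omega1 z ≤ omega1Str M` (`le_omega1Str`),
and `omega1 z ∈ Spec φ₀` by `spec_down`.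
-/

namespace BW

private theorem e7_jn {y R W : ℕ → ℕ} (hR : HypIn y R) (hW : HypIn y W) : HypIn y (jn R W) := by
  obtain ⟨P, hP, hPi⟩ := hR
  obtain ⟨Q, hQ, hQi⟩ := hW
  refine ⟨fun q x => P (Nat.pair (Nat.unpair q).1 (Nat.unpair (Nat.unpair q).2).1) x ∧
    Q (Nat.pair (Nat.unpair q).1 (Nat.unpair (Nat.unpair q).2).2) x, ?_, ?_⟩
  · refine s11_and ?_ ?_
    · exact s11_subst (G := fun q _ => Nat.pair (Nat.unpair q).1 (Nat.unpair (Nat.unpair q).2).1)
        (F := fun _ x => x) hP (rec_pair (rec_fst rec_id) (rec_fst (rec_snd rec_id))) recR_id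
    · exact s11_subst (G := fun q _ => Nat.pair (Nat.unpair q).1 (Nat.unpair (Nat.unpair q).2).2)
        (F := fun _ x => x) hQ (rec_pair (rec_fst rec_id) (rec_snd (rec_snd rec_id))) recR_id
  · intro n m
    simp only [Nat.unpair_pair, hPi, hQi, jn]
    constructor
    · rintro ⟨h1, h2⟩
      rw [h1, h2, Nat.pair_unpair]
    · intro h
      rw [← h]
      simp

theorem spec_of_uncountable {φ₀ φ : Fml} {k : ℕ} (hs : φ₀.free = ∅) (h₀ : HypFml φ₀)
    (hφ : HypFml φ) (hr : Rich φ₀ φ) (hk : 0 < k)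
    (hu : ¬ {R | Realz φ₀ φ k R}.Countable) : Spec φ₀ = Set.range omega1 := by
  refine Set.Subset.antisymm (spec_sub φ₀) ?_
  rintro _ ⟨z, rfl⟩
  obtain ⟨P, hP, hPi⟩ := s11_CC hs h₀ hφ k
  obtain ⟨c, -, hc⟩ := id hφ
  have heq : {u | P 0 u} = {u | CC φ₀ φ k u} := by
    ext u; exact hPi 0 u
  have hclo : Clo {u | P 0 u} := heq ▸ clo_CC hs hr hc hk
  have hunc : ¬ {u | P 0 u}.Countable := by
    intro h
    apply hu
    have hinj : Function.Injective fun R : ℕ → ℕ => jn R (lw R) := by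
      intro R R' h'
      have := congrArg p1 h'
      simpa [p1_jn] using this
    refine (h.preimage_of_injOn (f := fun R : ℕ → ℕ => jn R (lw R)) hinj.injOn).mono ?_
    intro R hR
    exact (hPi 0 _).2 ⟨R, hR, rfl⟩
  obtain ⟨u, hu1, hu2⟩ := exists_member0 hP 0 hclo hunc z
  obtain ⟨R, hR, rfl⟩ := (hPi 0 u).1 hu1
  obtain ⟨A, M, hA, hne, hM, a, rfl⟩ := hR
  have key : omega1 z ≤ omega1Str M := by
    refine le_omega1Str fun y hy => ?_
    have h1 : HypIn y (rr M φ k a) := hypIn_rr hφ hy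
    have h2 : HypIn y (lw (rr M φ k a)) := hypIn_trans h1 (hypIn_lw _)
    exact omega1_le_of_hypIn (hypIn_trans (e7_jn h1 h2) hu2)
  exact spec_down hs h₀ ⟨A, M, hA, hne, hM, rfl⟩ z key

end BW
end

section

/-!
# BW.Y1 : uniformisation of `Π¹₁` relations on numbers (Kreisel)

PROOF.  Let `f` be given by `wo_index` for `P`, `L n i = Rl (f (pair n i)) z`, a linear order, which is
well-founded iff `¬ P (pair n i) z`.  Put
`Q (pair n i) z :⇔ P (pair n i) z ∨ (∃ j, Ltr (L n j) (L n i)) ∨ ∃ j < i, EmbR (L n j) (L n i)`,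
a `Σ¹₁` predicate (`s11_ltr`, `s11_emb`, `s11_ex`, `s11_or`, `s11_and`, `s11_of_rec`).
(1) clear.  (2) Let `¬ Q (pair n i) z`, `¬ Q (pair n j) z`, `i < j`.  Both orders are well-orders, of types
`α_i`, `α_j` (`exists_type`); neither is smaller (`ltr_of_lt`), so `α_i = α_j`, so
`EmbR (L n i) (L n j)` (`emb_of_type`) and `Q (pair n j) z`, a contradiction.
(3) Among the `i` with `¬ P (pair n i) z` take those with the minimal type, and the smallest `i` of
them.  If `Ltr (L n j) (L n i)` then `L n j` is well-founded (`ltr_wf`), so `¬ P (pair n j) z` with a smaller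
type (`ltr_lt`), a contradiction.  If `j < i` and `EmbR (L n j) (L n i)` then `L n j` is well-founded
(`wf_of_emb`) of type `≤ α_i` (`le_of_emb`), so of the minimal type, a contradiction to the choice of `i`.
-/

namespace BW

theorem pi_uniform {P : ℕ → (ℕ → ℕ) → Prop} (hP : S11 P) :
    ∃ Q : ℕ → (ℕ → ℕ) → Prop, S11 Q ∧ ∀ z,
      (∀ n i, ¬ Q (Nat.pair n i) z → ¬ P (Nat.pair n i) z) ∧
      (∀ n i j, ¬ Q (Nat.pair n i) z → ¬ Q (Nat.pair n j) z → i = j) ∧
      (∀ n, (∃ i, ¬ P (Nat.pair n i) z) → ∃ i, ¬ Q (Nat.pair n i) z) := by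
  obtain ⟨f, hf, hw⟩ := wo_index hP
  -- the functional computing the index of `L n j` from `pair (pair n i) j`
  have hC : Rec (fun m (_ : ℕ → ℕ) =>
      f (Nat.pair (Nat.unpair (Nat.unpair m).1).1 (Nat.unpair m).2)) :=
    rec_comp hf (rec_pair (rec_fst (rec_fst rec_id)) (rec_snd rec_id))
  have hD : Rec (fun m (_ : ℕ → ℕ) => f (Nat.unpair m).1) := rec_comp hf (rec_fst rec_id)
  have hL := s11_ex (s11_ltr hC recR_id hD recR_id)
  have hE := s11_ex (s11_and
    (s11_of_rec (recP_lt (rec_snd rec_id) (rec_snd (rec_fst rec_id))))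
    (s11_emb hC recR_id hD recR_id))
  refine ⟨fun m z => P m z ∨
      (∃ j, Ltr (Rl (f (Nat.pair (Nat.unpair m).1 j)) z) (Rl (f m) z)) ∨
      ∃ j, j < (Nat.unpair m).2 ∧
        EmbR (Rl (f (Nat.pair (Nat.unpair m).1 j)) z) (Rl (f m) z), ?_, ?_⟩
  · refine s11_or hP (s11_or ?_ ?_)
    · refine s11_congr hL fun n x => ?_
      simp only [Nat.unpair_pair]
    · refine s11_congr hE fun n x => ?_
      simp only [Nat.unpair_pair]
  · intro z
    simp only [Nat.unpair_pair, not_or, not_exists, not_and]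
    have hlin : ∀ m, IsLin (Rl (f m) z) := fun m => (hw m z).2.1
    have hwf : ∀ m, WellFounded (strict (Rl (f m) z)) ↔ ¬ P m z := fun m => (hw m z).2.2
    have hty : ∀ m, ¬ P m z → ∃ α, HasType (Rl (f m) z) α := fun m hm =>
      exists_type ⟨hlin m, (hwf m).2 hm⟩
    refine ⟨fun n i h => h.1, ?_, ?_⟩
    · -- uniqueness
      have key : ∀ n i j, i < j →
          (¬ P (Nat.pair n i) z ∧
            (∀ k, ¬ Ltr (Rl (f (Nat.pair n k)) z) (Rl (f (Nat.pair n i)) z)) ∧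
            ∀ k, k < i → ¬ EmbR (Rl (f (Nat.pair n k)) z) (Rl (f (Nat.pair n i)) z)) →
          (¬ P (Nat.pair n j) z ∧
            (∀ k, ¬ Ltr (Rl (f (Nat.pair n k)) z) (Rl (f (Nat.pair n j)) z)) ∧
            ∀ k, k < j → ¬ EmbR (Rl (f (Nat.pair n k)) z) (Rl (f (Nat.pair n j)) z)) →
          False := by
        intro n i j hij hi hj
        obtain ⟨α, hα⟩ := hty _ hi.1
        obtain ⟨β, hβ⟩ := hty _ hj.1
        rcases le_or_gt α β with h | h
        · exact hj.2.2 i hij (emb_of_type (hlin _) hα hβ h)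
        · exact hi.2.1 j (ltr_of_lt (hlin _) (hlin _) hβ hα h)
      intro n i j hi hj
      rcases lt_trichotomy i j with h | h | h
      · exact (key n i j h hi hj).elim
      · exact h
      · exact (key n j i h hj hi).elim
    · intro n hex
      classical
      obtain ⟨i₀, hi₀⟩ := hex
      -- the minimal type
      let A : Set Ordinal.{0} := {α | ∃ i, ¬ P (Nat.pair n i) z ∧
        HasType (Rl (f (Nat.pair n i)) z) α}
      have hA : A.Nonempty := by
        obtain ⟨α, hα⟩ := hty _ hi₀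
        exact ⟨α, i₀, hi₀, hα⟩
      have hmem : sInf A ∈ A := csInf_mem hA
      have hle : ∀ α ∈ A, sInf A ≤ α := fun α hα => csInf_le' hα
      have hex' : ∃ i, ¬ P (Nat.pair n i) z ∧ HasType (Rl (f (Nat.pair n i)) z) (sInf A) := hmem
      refine ⟨Nat.find hex', (Nat.find_spec hex').1, ?_, ?_⟩
      · intro j hj
        have hP' : ¬ P (Nat.pair n j) z :=
          (hwf _).1 (ltr_wf ((hwf _).2 (Nat.find_spec hex').1) hj)
        obtain ⟨β, hβ⟩ := hty _ hP'
        have h1 : β < sInf A := ltr_lt (hlin _) (hlin _) hβ (Nat.find_spec hex').2 hj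
        exact absurd (hle β ⟨j, hP', hβ⟩) (not_le.2 h1)
      · intro j hj he
        have hP' : ¬ P (Nat.pair n j) z :=
          (hwf _).1 (wf_of_emb he ((hwf _).2 (Nat.find_spec hex').1))
        obtain ⟨β, hβ⟩ := hty _ hP'
        have h1 : β ≤ sInf A := le_of_emb he (hlin _) hβ (Nat.find_spec hex').2
        have h2 : β = sInf A := le_antisymm h1 (hle β ⟨j, hP', hβ⟩)
        exact Nat.find_min hex' hj ⟨hP', h2 ▸ hβ⟩

end BW
end

section

/-!
# BW.Y2 : indices of the reals which are hyperarithmetic in `z`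

PROOFS.
* `exists_univPi` : `pi_uniform` applied to `P k z := U11 d (pair n m) z`, `k = pair (pair d n) m`
  (`s11_U11`, `s11_subst`).  Let `y` be `Δ¹₁` in `z`: `P₀ (pair n m) z ↔ y n = m`.  The predicate
  `P₁ k x := ∃ m', m' ≠ (unpair k).2 ∧ P₀ (pair (unpair k).1 m') x` is `Σ¹₁`, let `d` be an index of it
  (`s11_index`).  Then `¬ U11 d (pair n m) z ↔ y n = m`.  So `¬ Q (pair (pair d n) m) z → y n = m`, and for
  each `n` some `m` has `¬ Q`, it is `y n`.
* `cmp_hypIn` : `y n = m ↔ ∀ m', m' = m ∨ V (pair (pair d n) m') z`.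
* `hypIn_of_pi` : `y n = m ↔ ∀ m', m' = m ∨ Q (pair n m') z`.
* `s11_cmpS`, `s11_not_ttl` : closure properties.
-/

namespace BW

/-- a universal system of `Π¹₁` partial functions (given by their `Σ¹₁` complements) -/
structure UnivPi (V : ℕ → (ℕ → ℕ) → Prop) : Prop where
  s11 : S11 V
  fn : ∀ z d n m m', ¬ V (Nat.pair (Nat.pair d n) m) z → ¬ V (Nat.pair (Nat.pair d n) m') z →
    m = m'
  hyp : ∀ z y, HypIn z y → ∃ d, ∀ n m, ¬ V (Nat.pair (Nat.pair d n) m) z ↔ y n = m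

/-- the function number `d` is total -/
def Ttl (V : ℕ → (ℕ → ℕ) → Prop) (d : ℕ) (z : ℕ → ℕ) : Prop :=
  ∀ n, ∃ m, ¬ V (Nat.pair (Nat.pair d n) m) z

/-- the function number `d` is the real `y` -/
def Cmp (V : ℕ → (ℕ → ℕ) → Prop) (d : ℕ) (z y : ℕ → ℕ) : Prop :=
  ∀ n, ¬ V (Nat.pair (Nat.pair d n) (y n)) z

/-- a `Σ¹₁` form of `Cmp`, for total `d` -/
def CmpS (V : ℕ → (ℕ → ℕ) → Prop) (d : ℕ) (z y : ℕ → ℕ) : Prop :=
  ∀ n m, m = y n ∨ V (Nat.pair (Nat.pair d n) m) z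

variable {V : ℕ → (ℕ → ℕ) → Prop} {d : ℕ} {y y' z : ℕ → ℕ}
  {D : ℕ → (ℕ → ℕ) → ℕ} {F G : ℕ → (ℕ → ℕ) → ℕ → ℕ}

theorem exists_univPi : ∃ V, UnivPi V := by
  have hP : S11 (fun k z => U11 (Nat.unpair (Nat.unpair k).1).1
      (Nat.pair (Nat.unpair (Nat.unpair k).1).2 (Nat.unpair k).2) z) :=
    s11_congr (s11_subst s11_U11 (rec_pair (rec_fst (rec_fst rec_id))
      (rec_pair (rec_snd (rec_fst rec_id)) (rec_snd rec_id))) recR_id)
      fun n u => by simp only [Nat.unpair_pair]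
  obtain ⟨Q, hQ, hQz⟩ := pi_uniform hP
  refine ⟨Q, hQ, fun z d n m m' h h' => (hQz z).2.1 _ _ _ h h', fun z y hy => ?_⟩
  obtain ⟨P₀, hP₀, hy⟩ := hy
  have h1 : S11 (fun q x => (Nat.unpair q).2 ≠ (Nat.unpair (Nat.unpair q).1).2 ∧
      P₀ (Nat.pair (Nat.unpair (Nat.unpair q).1).1 (Nat.unpair q).2) x) :=
    s11_and (s11_of_rec (recP_not (recP_eq (rec_snd rec_id) (rec_snd (rec_fst rec_id)))))
      (s11_subst hP₀ (rec_pair (rec_fst (rec_fst rec_id)) (rec_snd rec_id)) recR_id)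
  obtain ⟨d, hd⟩ := s11_index (s11_ex h1)
  have h2 : ∀ n m, ¬ U11 d (Nat.pair n m) z ↔ y n = m := by
    intro n m
    rw [← hd]
    simp only [Nat.unpair_pair, hy]
    constructor
    · intro h
      by_contra hne
      exact h ⟨y n, hne, rfl⟩
    · rintro h ⟨m', hm', h3⟩
      exact hm' (h3.symm.trans h)
  have h3 : ∀ n m, ¬ Q (Nat.pair (Nat.pair d n) m) z → y n = m := by
    intro n m h
    have h4 := (hQz z).1 _ _ h
    simp only [Nat.unpair_pair] at h4
    exact (h2 n m).1 h4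
  refine ⟨d, fun n m => ⟨h3 n m, fun h => ?_⟩⟩
  obtain ⟨i, hi⟩ := (hQz z).2.2 (Nat.pair d n) ⟨y n, by
    simp only [Nat.unpair_pair]
    exact (h2 n (y n)).2 rfl⟩
  have h5 := h3 n i hi
  rw [← h, h5]
  exact hi

theorem ttl_iff : Ttl V d z ↔ ∃ y, Cmp V d z y := by
  constructor
  · intro h
    choose y hy using h
    exact ⟨y, hy⟩
  · rintro ⟨y, hy⟩ n
    exact ⟨y n, hy n⟩

theorem cmp_unique (hV : UnivPi V) (h : Cmp V d z y) (h' : Cmp V d z y') : y = y' := by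
  funext n
  exact hV.fn z d n _ _ (h n) (h' n)

theorem cmpS_of_cmp (hV : UnivPi V) (h : Cmp V d z y) : CmpS V d z y := by
  intro n m
  by_cases hm : V (Nat.pair (Nat.pair d n) m) z
  · exact Or.inr hm
  · exact Or.inl (hV.fn z d n _ _ hm (h n))

theorem cmp_of_cmpS (ht : Ttl V d z) (h : CmpS V d z y) : Cmp V d z y := by
  intro n
  obtain ⟨m, hm⟩ := ht n
  rcases h n m with h1 | h1
  · rw [← h1]
    exact hm
  · exact absurd h1 hm

theorem cmp_hypIn (hV : UnivPi V) (h : Cmp V d z y) : HypIn z y := by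
  have h1 : S11 (fun q x => (Nat.unpair q).2 = (Nat.unpair (Nat.unpair q).1).2 ∨
      V (Nat.pair (Nat.pair d (Nat.unpair (Nat.unpair q).1).1) (Nat.unpair q).2) x) :=
    s11_or (s11_of_rec (recP_eq (rec_snd rec_id) (rec_snd (rec_fst rec_id))))
      (s11_subst hV.s11 (rec_pair (rec_pair (rec_const d) (rec_fst (rec_fst rec_id)))
        (rec_snd rec_id)) recR_id)
  refine ⟨_, s11_all h1, fun n m => ?_⟩
  simp only [Nat.unpair_pair]
  constructor
  · intro h2
    rcases h2 (y n) with h3 | h3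
    · exact h3
    · exact absurd h3 (h n)
  · rintro rfl m'
    by_cases hm : V (Nat.pair (Nat.pair d n) m') z
    · exact Or.inr hm
    · exact Or.inl (hV.fn z d n _ _ hm (h n))

theorem hypIn_iff_cmp (hV : UnivPi V) : HypIn z y ↔ ∃ d, Cmp V d z y := by
  constructor
  · intro h
    obtain ⟨d, hd⟩ := hV.hyp z y h
    exact ⟨d, fun n => (hd n (y n)).2 rfl⟩
  · rintro ⟨d, h⟩
    exact cmp_hypIn hV h

theorem hypIn_of_pi {Q : ℕ → (ℕ → ℕ) → Prop} (hQ : S11 Q)
    (h : ∀ n m, ¬ Q (Nat.pair n m) z ↔ y n = m) : HypIn z y := by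
  have h1 : S11 (fun q x => (Nat.unpair q).2 = (Nat.unpair (Nat.unpair q).1).2 ∨
      Q (Nat.pair (Nat.unpair (Nat.unpair q).1).1 (Nat.unpair q).2) x) :=
    s11_or (s11_of_rec (recP_eq (rec_snd rec_id) (rec_snd (rec_fst rec_id))))
      (s11_subst hQ (rec_pair (rec_fst (rec_fst rec_id)) (rec_snd rec_id)) recR_id)
  refine ⟨_, s11_all h1, fun n m => ?_⟩
  simp only [Nat.unpair_pair]
  constructor
  · intro h2
    rcases h2 (y n) with h3 | h3
    · exact h3
    · exact absurd h3 ((h n (y n)).2 rfl)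
  · rintro rfl m'
    by_cases hm : Q (Nat.pair n m') z
    · exact Or.inr hm
    · exact Or.inl ((h n m').1 hm).symm

theorem s11_not_ttl (hV : UnivPi V) (hD : Rec D) (hF : RecR F) :
    S11 (fun n x => ¬ Ttl V (D n x) (F n x)) := by
  have h1 : S11 (fun q x => V (Nat.pair (Nat.pair (D (Nat.unpair (Nat.unpair q).1).1 x)
      (Nat.unpair (Nat.unpair q).1).2) (Nat.unpair q).2) (F (Nat.unpair (Nat.unpair q).1).1 x)) :=
    s11_subst hV.s11 (rec_pair (rec_pair (rec_subst hD (rec_fst (rec_fst rec_id)))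
      (rec_snd (rec_fst rec_id))) (rec_snd rec_id))
      (recR_subst hF (rec_fst (rec_fst rec_id)) recR_id)
  refine s11_congr (s11_ex (s11_all h1)) fun n x => ?_
  simp only [Nat.unpair_pair, Ttl]
  push Not
  rfl

theorem s11_cmpS (hV : UnivPi V) (hD : Rec D) (hF : RecR F) (hG : RecR G) :
    S11 (fun n x => CmpS V (D n x) (F n x) (G n x)) := by
  have hd : ∀ {K : ℕ → (ℕ → ℕ) → ℕ}, Rec K → Rec (fun q x => K (Nat.unpair (Nat.unpair q).1).1 x) :=
    fun hK => rec_subst hK (rec_fst (rec_fst rec_id))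
  have hGn : Rec (fun q x => G (Nat.unpair (Nat.unpair q).1).1 x (Nat.unpair (Nat.unpair q).1).2) :=
    recR_app (recR_subst hG (rec_fst (rec_fst rec_id)) recR_id) (rec_snd (rec_fst rec_id))
  have h1 : S11 (fun q x => (Nat.unpair q).2 =
        G (Nat.unpair (Nat.unpair q).1).1 x (Nat.unpair (Nat.unpair q).1).2 ∨
      V (Nat.pair (Nat.pair (D (Nat.unpair (Nat.unpair q).1).1 x)
        (Nat.unpair (Nat.unpair q).1).2) (Nat.unpair q).2) (F (Nat.unpair (Nat.unpair q).1).1 x)) :=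
    s11_or (s11_of_rec (recP_eq (rec_snd rec_id) hGn))
      (s11_subst hV.s11 (rec_pair (rec_pair (hd hD) (rec_snd (rec_fst rec_id))) (rec_snd rec_id))
        (recR_subst hF (rec_fst (rec_fst rec_id)) recR_id))
  refine s11_congr (s11_all (s11_all h1)) fun n x => ?_
  simp only [Nat.unpair_pair, CmpS]

end BW
end

section

/-!
# BW.Y3 : quantification over hyperarithmetic reals

PROOF.  Let `V` be a `UnivPi` system.  `∀ y, HypIn (F n x) y → P n (jn x y)` is equivalent to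
`∀ d, ¬ Ttl V d (F n x) ∨ ∃ y, CmpS V d (F n x) y ∧ P n (jn x y)`:
`→` if `d` is total, it computes a real `y` (`ttl_iff`), which is hyperarithmetic in `F n x` (`cmp_hypIn`);
`←` if `y` is hyperarithmetic in `F n x`, take `d` with `Cmp V d (F n x) y` (`hypIn_iff_cmp`); it is total, so
there is `y'` with `CmpS` and `P n (jn x y')`, `y' = y` by `cmp_of_cmpS` and `cmp_unique`.
The second form is `Σ¹₁` (`s11_not_ttl`, `s11_cmpS`, `s11_exR`, `s11_all`).
-/

namespace BW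

theorem s11_forall_hyp {P : ℕ → (ℕ → ℕ) → Prop} {F : ℕ → (ℕ → ℕ) → ℕ → ℕ} (hP : S11 P)
    (hF : RecR F) : S11 (fun n x => ∀ y, HypIn (F n x) y → P n (jn x y)) := by
  obtain ⟨V, hV⟩ := exists_univPi
  have h1 : S11 (fun m x => ¬ Ttl V (Nat.unpair m).2 (F (Nat.unpair m).1 x)) :=
    s11_not_ttl hV (rec_snd rec_id) (recR_subst hF (rec_fst rec_id) recR_id)
  have h2 : S11 (fun m u => CmpS V (Nat.unpair m).2 (F (Nat.unpair m).1 (p1 u)) (p2 u)) :=
    s11_cmpS hV (rec_snd rec_id) (recR_subst hF (rec_fst rec_id) (recR_p1 recR_id))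
      (recR_p2 recR_id)
  have h3 : S11 (fun m u => P (Nat.unpair m).1 u) :=
    s11_subst hP (rec_fst rec_id) recR_id
  have h4 := s11_all (s11_or h1 (s11_exR (s11_and h2 h3)))
  refine s11_congr h4 fun n x => ?_
  simp only [Nat.unpair_pair, p1_jn, p2_jn]
  constructor
  · intro h y hy
    obtain ⟨d, hd⟩ := (hypIn_iff_cmp hV).1 hy
    have ht : Ttl V d (F n x) := ttl_iff.2 ⟨y, hd⟩
    rcases h d with h' | ⟨y', hc, hp⟩
    · exact absurd ht h'
    · have := cmp_unique hV (cmp_of_cmpS ht hc) hd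
      rw [← this]
      exact hp
  · intro h d
    by_cases ht : Ttl V d (F n x)
    · right
      obtain ⟨y, hy⟩ := ttl_iff.1 ht
      exact ⟨y, cmpS_of_cmp hV hy, h y (cmp_hypIn hV hy)⟩
    · left
      exact ht

end BW
end

section

/-!
# BW.Y4 : the members of a countable `Σ¹₁ (z)` set are hyperarithmetic in `z`

PROOF.  Let `A' = {x | P n (jn z x) ∧ ∀ y, HypIn z y → y ≠ x}`.  It is `Σ¹₁ (z)` (`s11_forall_hyp` with
`F n u = p1 u`; `y ≠ x` is `∃ k, y k ≠ x k`), so it is `cnd z c` for some `c` (`exists_cnd`).  Suppose that it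
is nonempty.  Let `y_i`, `i : ℕ`, be an enumeration of the countable set `{x | P n (jn z x)}`.
Apply `fusion` with `D i S :⇔ y_i ∉ S ∨ S ∩ A' = ∅`: a real `x ∈ A'` with `x ≠ y_i` for all `i`, a
contradiction.
Density: let `cnd z c₁` be nonempty.  If `cnd z c₁ ∩ A' = ∅` take `c' = c₁`.  Otherwise
`B = cnd z c₁ ∩ A'` has at least two elements: if `B = {x₁}` then `x₁` is hyperarithmetic in `z`, since
`x₁ a = b ↔ ∃ x ∈ B, x a = b` is a `Σ¹₁ (z)` definition of its graph; a contradiction to `x₁ ∈ A'`.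
So there is `x' ∈ B`, `x' ≠ y_i`, so `pre x' k ≠ pre y_i k` for some `k`; the set of all `x ∈ B` with
`pre x k = pre x' k` is a nonempty condition which does not contain `y_i` (`cnd_inter`).
-/

namespace BW

/-- membership in a condition is `Σ¹₁` -/
private theorem Y4_cnd (c : ℕ) : S11 (fun _ x => U11 c 0 x) := by
  have h := s11_subst s11_U11 (rec_const (Nat.pair c 0)) recR_id
  refine s11_congr h fun n x => ?_
  simp only [Nat.unpair_pair]

/-- the value at `k` is `b` -/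
private theorem Y4_val (k b : ℕ) : RecP (fun _ x => p2 x k = b) :=
  recP_eq (recR_app (recR_p2 recR_id) (rec_const k)) (rec_const b)

/-- the only element of a condition is hyperarithmetic in the parameter -/
private theorem Y4_single {z : ℕ → ℕ} {c : ℕ} {x : ℕ → ℕ} (h : cnd z c = {x}) : HypIn z x := by
  have h1 : S11 (fun m w => U11 c 0 w ∧ p2 w (Nat.unpair m).1 = (Nat.unpair m).2) :=
    s11_and (Y4_cnd c) (s11_of_rec (recP_eq (recR_app (recR_p2 recR_id) (rec_fst rec_id))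
      (rec_snd rec_id)))
  refine ⟨_, s11_exR h1, fun a b => ?_⟩
  simp only [Nat.unpair_pair, p2_jn]
  constructor
  · rintro ⟨y, hy, hab⟩
    have : y ∈ cnd z c := hy
    rw [h, Set.mem_singleton_iff] at this
    rw [← this]
    exact hab
  · intro hab
    refine ⟨x, ?_, hab⟩
    have : x ∈ cnd z c := by
      rw [h]
      rfl
    exact this

theorem hyp_of_countable {P : ℕ → (ℕ → ℕ) → Prop} (hP : S11 P) (n : ℕ) (z : ℕ → ℕ)
    (hc : {x | P n (jn z x)}.Countable) {x : ℕ → ℕ} (hx : P n (jn z x)) : HypIn z x := by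
  by_contra hcon
  -- the set of the members which are not hyperarithmetic
  have hne : RecP (fun m v => p2 v (Nat.unpair m).2 ≠ p2 (p1 v) (Nat.unpair m).2) :=
    recP_not (recP_eq (recR_app (recR_p2 recR_id) (rec_snd rec_id))
      (recR_app (recR_p2 (recR_p1 recR_id)) (rec_snd rec_id)))
  have hne' : S11 (fun (_ : ℕ) v => ∃ k, p2 v k ≠ p2 (p1 v) k) := by
    refine s11_congr (s11_ex (s11_of_rec hne)) fun n x => ?_
    simp only [Nat.unpair_pair]
  have hQ : S11 (fun n u => P n u ∧ ∀ y, HypIn (p1 u) y → ∃ k, y k ≠ p2 u k) := by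
    refine s11_and hP (s11_congr (s11_forall_hyp hne' (recR_p1 recR_id)) fun n x => ?_)
    simp only [p1_jn, p2_jn]
  obtain ⟨c, hcA⟩ := exists_cnd hQ n z
  simp only [p1_jn, p2_jn] at hcA
  have hxA : x ∈ cnd z c := by
    rw [hcA]
    refine ⟨hx, fun y hy => ?_⟩
    by_contra hk
    push Not at hk
    have : y = x := funext hk
    exact hcon (this ▸ hy)
  obtain ⟨f, hf⟩ := hc.exists_eq_range ⟨x, hx⟩
  have key : ∀ i c₁, (cnd z c₁).Nonempty → ∃ c', (cnd z c').Nonempty ∧ cnd z c' ⊆ cnd z c₁ ∧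
      (f i ∉ cnd z c' ∨ cnd z c' ∩ cnd z c = ∅) := by
    intro i c₁ h₁
    by_cases hB : cnd z c₁ ∩ cnd z c = ∅
    · exact ⟨c₁, h₁, le_refl _, Or.inr hB⟩
    obtain ⟨x₀, hx₀⟩ := Set.nonempty_iff_ne_empty.2 hB
    by_cases hall : ∀ x' ∈ cnd z c₁ ∩ cnd z c, x' = f i
    · exfalso
      obtain ⟨c₂, hc₂⟩ := cnd_inter hQ n c₁ z
      have h2 : cnd z c₂ = cnd z c₁ ∩ cnd z c := by
        rw [hc₂, hcA]
        simp only [p1_jn, p2_jn]
        rfl
      have h3 : cnd z c₂ = {x₀} := by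
        rw [h2]
        ext x'
        rw [Set.mem_singleton_iff]
        constructor
        · intro hx'
          rw [hall x' hx', hall x₀ hx₀]
        · rintro rfl
          exact hx₀
      have h4 := Y4_single h3
      have h5 := hx₀.2
      rw [hcA] at h5
      obtain ⟨k, hk⟩ := h5.2 x₀ h4
      exact hk rfl
    · push Not at hall
      obtain ⟨x', hx', hne⟩ := hall
      obtain ⟨k, hk⟩ : ∃ k, x' k ≠ f i k := by
        by_contra hk
        push Not at hk
        exact hne (funext hk)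
      obtain ⟨c₂, hc₂⟩ := cnd_inter (s11_of_rec (Y4_val k (x' k))) n c₁ z
      simp only [p2_jn] at hc₂
      refine ⟨c₂, ⟨x', ?_⟩, ?_, Or.inl ?_⟩
      · rw [hc₂]
        exact ⟨hx'.1, rfl⟩
      · rw [hc₂]
        exact fun y hy => hy.1
      · rw [hc₂]
        intro hy
        exact hk hy.2.symm
  obtain ⟨x₁, hx₁, hD⟩ := fusion z (fun i S => f i ∉ S ∨ S ∩ cnd z c = ∅) key c ⟨x, hxA⟩
  have hx₁' := hx₁
  rw [hcA] at hx₁'
  have hr : x₁ ∈ {x | P n (jn z x)} := hx₁'.1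
  rw [hf] at hr
  obtain ⟨i, hi⟩ := hr
  obtain ⟨c', h1 | h1, h2⟩ := hD i
  · rw [hi] at h1
    exact h1 h2
  · have : x₁ ∈ cnd z c' ∩ cnd z c := ⟨h2, hx₁⟩
    rw [h1] at this
    exact this

end BW
end

section

/-!
# BW.Y5 : separation of disjoint `Σ¹₁` sets of numbers

PROOF.  Apply `pi_uniform` to
`P (pair n j) z :⇔ (j = 1 ∧ B n z) ∨ (j = 0 ∧ A n z) ∨ 2 ≤ j`.  For every `n` some `j ≤ 1` has
`¬ P (pair n j) z` by disjointness.  Let `y n` be the unique `j` with `¬ Q (pair n j) z`.  It is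
hyperarithmetic in `z` by `hypIn_of_pi`.  If `A n z` then `P (pair n 0) z`, so `y n ≠ 0`, and `y n < 2`; so
`y n = 1`.  If `B n z` then `y n ≠ 1`, so `y n = 0`.
-/

namespace BW

theorem separation {A B : ℕ → (ℕ → ℕ) → Prop} (hA : S11 A) (hB : S11 B) (z : ℕ → ℕ)
    (h : ∀ n, ¬ (A n z ∧ B n z)) :
    ∃ y, HypIn z y ∧ (∀ n, A n z → y n = 1) ∧ ∀ n, B n z → y n = 0 := by
  have hfst : Rec (fun n (_ : ℕ → ℕ) => (Nat.unpair n).1) := rec_fst rec_id
  have hsnd : Rec (fun n (_ : ℕ → ℕ) => (Nat.unpair n).2) := rec_snd rec_id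
  have hP : S11 (fun k x => (((Nat.unpair k).2 = 1 ∧ B (Nat.unpair k).1 x) ∨
      ((Nat.unpair k).2 = 0 ∧ A (Nat.unpair k).1 x)) ∨ 2 ≤ (Nat.unpair k).2) := by
    refine s11_or (s11_or (s11_and (s11_of_rec (recP_eq hsnd (rec_const 1)))
      (s11_subst hB hfst recR_id)) (s11_and (s11_of_rec (recP_eq hsnd (rec_const 0)))
      (s11_subst hA hfst recR_id))) (s11_of_rec (recP_le (rec_const 2) hsnd))
  obtain ⟨Q, hQ, hQz⟩ := pi_uniform hP
  obtain ⟨h1, h2, h3⟩ := hQz z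
  simp only [Nat.unpair_pair] at h1 h3
  have hex : ∀ n, ∃ i, ¬ Q (Nat.pair n i) z := by
    intro n
    apply h3
    by_cases hBn : B n z
    · refine ⟨0, ?_⟩
      rintro ((⟨h0, _⟩ | ⟨_, hAn⟩) | h0)
      · omega
      · exact h n ⟨hAn, hBn⟩
      · omega
    · refine ⟨1, ?_⟩
      rintro ((⟨_, hBn'⟩ | ⟨h0, _⟩) | h0)
      · exact hBn hBn'
      · omega
      · omega
  choose y hy using hex
  refine ⟨y, ?_, ?_, ?_⟩
  · refine hypIn_of_pi hQ ?_
    intro n m
    constructor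
    · intro hm
      exact h2 n _ _ (hy n) hm
    · rintro rfl
      exact hy n
  · intro n hAn
    have h4 := h1 n (y n) (hy n)
    push Not at h4
    obtain ⟨⟨_, h6⟩, h7⟩ := h4
    have h8 : y n ≠ 0 := fun h0 => h6 h0 hAn
    omega
  · intro n hBn
    have h4 := h1 n (y n) (hy n)
    push Not at h4
    obtain ⟨⟨h5, _⟩, h7⟩ := h4
    have h8 : y n ≠ 1 := fun h0 => h5 h0 hBn
    omega

end BW
end

section

/-!
# BW.Y6 : a countable `Σ¹₁ (z)` set is covered by a sequence hyperarithmetic in `z`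

PROOF.  Let `V` be a `UnivPi` system and `g` given by `wo_index` for the `Σ¹₁` predicate `¬ Ttl V d z`:
`L d = Rl (g d) z` is a linear order, well-founded iff `d` is total.  Let
`S c z :⇔ ∃ x, P n (jn z x) ∧ ∀ d, (∃ a, V (pair (pair d a) (x a)) z) ∨ Ltr (Rl c z) (L d)`, a `Σ¹₁` predicate.
(1) There is `c` with `Tot c z`, `IsWO (Rl c z)` and `¬ S c z`.  Otherwise `overspill` gives `c` with
`S c z` such that `Rl c z` is not well-founded; let `x` be as in `S c z`; by `hyp_of_countable` it is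
hyperarithmetic in `z`, so `Cmp V d z x` for some `d`; the first alternative fails for `d`, so
`Ltr (Rl c z) (L d)`; `d` is total, so `L d` is well-founded, and `Rl c z` too (`ltr_wf`), a contradiction.
(2) So for every `x` with `P n (jn z x)` there is `d` with `Cmp V d z x` and `¬ Ltr (Rl c z) (L d)`; `L d` is a
well-order, of a type `≤` the type of `Rl c z` (`ltr_of_lt`), so `EmbR (L d) (Rl c z)` (`emb_of_type`).
(3) `A d z :⇔ EmbR (L d) (Rl c z)` (`c` is a constant) and `B d z :⇔ ¬ Ttl V d z` are `Σ¹₁` and disjoint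
(`wf_of_emb`).  By `separation` there is `y₀` hyperarithmetic in `z`, `y₀ d = 1` on `A`, `y₀ d = 0` on `B`.
(4) Let `y (pair d a)` be the value of the function number `d` at `a` if `y₀ d = 1` (then `d` is total),
and `0` otherwise.  `y (pair d a) = m ↔ (y₀ d = 1 ∧ ∀ m', m' = m ∨ V (pair (pair d a) m') z) ∨
(y₀ d ≠ 1 ∧ m = 0)` is a `Σ¹₁` statement about `z` and `y₀`, so `y` is hyperarithmetic in `z`
(`hypIn_subst`).  If `P n (jn z x)` then `col y d = x` for the `d` of (2).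
-/

namespace BW

private theorem Y6_sex {P : ℕ → (ℕ → ℕ) → ℕ → Prop}
    (h : S11 (fun k x => P (Nat.unpair k).1 x (Nat.unpair k).2)) :
    S11 (fun n x => ∃ m, P n x m) :=
  s11_congr (s11_ex h) fun n x => by simp only [Nat.unpair_pair]

private theorem Y6_sall {P : ℕ → (ℕ → ℕ) → ℕ → Prop}
    (h : S11 (fun k x => P (Nat.unpair k).1 x (Nat.unpair k).2)) :
    S11 (fun n x => ∀ m, P n x m) :=
  s11_congr (s11_all h) fun n x => by simp only [Nat.unpair_pair]

private theorem Y6_sexR {P : ℕ → (ℕ → ℕ) → (ℕ → ℕ) → Prop}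
    (h : S11 (fun n u => P n (p1 u) (p2 u))) : S11 (fun n x => ∃ y, P n x y) :=
  s11_congr (s11_exR h) fun n x => by simp only [p1_jn, p2_jn]

/-- the predicate `S c z` -/
private def Y6S (P V : ℕ → (ℕ → ℕ) → Prop) (n : ℕ) (g : ℕ → ℕ) (c : ℕ) (z : ℕ → ℕ) : Prop :=
  ∃ x : ℕ → ℕ, P n (jn z x) ∧ ∀ d, (∃ a, V (Nat.pair (Nat.pair d a) (x a)) z) ∨
    Ltr (Rl c z) (Rl (g d) z)

private theorem Y6_s11S {P V : ℕ → (ℕ → ℕ) → Prop} (hP : S11 P) (hV : S11 V) (n : ℕ) {g : ℕ → ℕ}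
    (hg : Primrec g) : S11 (Y6S P V n g) := by
  have h0 : S11 (fun (_ : ℕ) u => P n (jn (p1 u) (p2 u))) :=
    s11_subst hP (rec_const n) (recR_jn (recR_p1 recR_id) (recR_p2 recR_id))
  have hG : Rec (fun l u => Nat.pair (Nat.pair (Nat.unpair (Nat.unpair l).1).2 (Nat.unpair l).2)
      (p2 u (Nat.unpair l).2)) :=
    rec_pair (rec_pair (rec_snd (rec_fst rec_id)) (rec_snd rec_id))
      (recR_app (recR_p2 recR_id) (rec_snd rec_id))
  have h1 : S11 (fun l u => V (Nat.pair (Nat.pair (Nat.unpair (Nat.unpair l).1).2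
      (Nat.unpair l).2) (p2 u (Nat.unpair l).2)) (p1 u)) :=
    s11_subst hV hG (recR_p1 recR_id)
  have h2 : S11 (fun k u => ∃ a, V (Nat.pair (Nat.pair (Nat.unpair k).2 a) (p2 u a)) (p1 u)) :=
    Y6_sex (P := fun k u a => V (Nat.pair (Nat.pair (Nat.unpair k).2 a) (p2 u a)) (p1 u)) h1
  have h3 : S11 (fun k u => Ltr (Rl (Nat.unpair k).1 (p1 u)) (Rl (g (Nat.unpair k).2) (p1 u))) :=
    s11_ltr (rec_fst rec_id) (recR_p1 recR_id) (rec_comp hg (rec_snd rec_id)) (recR_p1 recR_id)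
  have h4 : S11 (fun c u => ∀ d, (∃ a, V (Nat.pair (Nat.pair d a) (p2 u a)) (p1 u)) ∨
      Ltr (Rl c (p1 u)) (Rl (g d) (p1 u))) :=
    Y6_sall (P := fun c u d => (∃ a, V (Nat.pair (Nat.pair d a) (p2 u a)) (p1 u)) ∨
      Ltr (Rl c (p1 u)) (Rl (g d) (p1 u))) (s11_or h2 h3)
  exact Y6_sexR (P := fun c z x => P n (jn z x) ∧
    ∀ d, (∃ a, V (Nat.pair (Nat.pair d a) (x a)) z) ∨ Ltr (Rl c z) (Rl (g d) z)) (s11_and h0 h4)

/-- the definition of `y` from `z` and `y₀` -/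
private def Y6D (V : ℕ → (ℕ → ℕ) → Prop) (k : ℕ) (u : ℕ → ℕ) : Prop :=
  (p2 u (Nat.unpair (Nat.unpair k).1).1 = 1 ∧
    ∀ m', m' = (Nat.unpair k).2 ∨ V (Nat.pair (Nat.unpair k).1 m') (p1 u)) ∨
  (¬ p2 u (Nat.unpair (Nat.unpair k).1).1 = 1 ∧ (Nat.unpair k).2 = 0)

private theorem Y6_s11D {V : ℕ → (ℕ → ℕ) → Prop} (hV : S11 V) : S11 (Y6D V) := by
  have hr : RecP (fun k u => p2 u (Nat.unpair (Nat.unpair k).1).1 = 1) :=
    recP_eq (recR_app (recR_p2 recR_id) (rec_fst (rec_fst rec_id))) (rec_const 1)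
  have h1 : S11 (fun l (_ : ℕ → ℕ) => (Nat.unpair l).2 = (Nat.unpair (Nat.unpair l).1).2) :=
    s11_of_rec (recP_eq (rec_snd rec_id) (rec_snd (rec_fst rec_id)))
  have h2 : S11 (fun l u => V (Nat.pair (Nat.unpair (Nat.unpair l).1).1 (Nat.unpair l).2) (p1 u)) :=
    s11_subst hV (rec_pair (rec_fst (rec_fst rec_id)) (rec_snd rec_id)) (recR_p1 recR_id)
  have h3 : S11 (fun k u => ∀ m', m' = (Nat.unpair k).2 ∨ V (Nat.pair (Nat.unpair k).1 m') (p1 u)) :=
    Y6_sall (P := fun k u m' => m' = (Nat.unpair k).2 ∨ V (Nat.pair (Nat.unpair k).1 m') (p1 u))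
      (s11_or h1 h2)
  exact s11_or (s11_and (s11_of_rec hr) h3) (s11_and (s11_of_rec (recP_not hr))
    (s11_of_rec (recP_eq (rec_snd rec_id) (rec_const 0))))

open Classical in
/-- the sequence `y` -/
private noncomputable def Y6y (V : ℕ → (ℕ → ℕ) → Prop) (z y₀ : ℕ → ℕ) (k : ℕ) : ℕ :=
  if h : y₀ (Nat.unpair k).1 = 1 ∧ ∃ m, ¬ V (Nat.pair k m) z then h.2.choose else 0

theorem cover {P : ℕ → (ℕ → ℕ) → Prop} (hP : S11 P) (n : ℕ) (z : ℕ → ℕ)
    (hc : {x | P n (jn z x)}.Countable) :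
    ∃ y, HypIn z y ∧ ∀ x, P n (jn z x) → ∃ i, col y i = x := by
  obtain ⟨V, hV⟩ := exists_univPi
  obtain ⟨g, hg, hg2⟩ := wo_index (P := fun d x => ¬ Ttl V d x) (s11_not_ttl hV rec_id recR_id)
  have hwf : ∀ d, WellFounded (strict (Rl (g d) z)) ↔ Ttl V d z := fun d =>
    (hg2 d z).2.2.trans not_not
  have hlin : ∀ d, IsLin (Rl (g d) z) := fun d => (hg2 d z).2.1
  have hS := Y6_s11S hP hV.s11 n hg
  -- step 1
  have h1 : ∃ c, Tot c z ∧ IsWO (Rl c z) ∧ ¬ Y6S P V n g c z := by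
    by_contra hcon
    obtain ⟨c, -, -, hnw, x, hx, hd⟩ := overspill hS z fun c hc hw => by
      by_contra h
      exact hcon ⟨c, hc, hw, h⟩
    obtain ⟨d, hd2⟩ := hV.hyp z x (hyp_of_countable hP n z hc hx)
    rcases hd d with ⟨a, ha⟩ | hl
    · exact (hd2 a (x a)).2 rfl ha
    · exact hnw (ltr_wf ((hwf d).2 fun a => ⟨x a, (hd2 a (x a)).2 rfl⟩) hl)
  obtain ⟨c, hct, hcw, hcS⟩ := h1
  -- step 2
  have h2 : ∀ x, P n (jn z x) → ∃ d, (∀ a, ¬ V (Nat.pair (Nat.pair d a) (x a)) z) ∧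
      EmbR (Rl (g d) z) (Rl c z) := by
    intro x hx
    have h3 : ¬ ∀ d, (∃ a, V (Nat.pair (Nat.pair d a) (x a)) z) ∨
        Ltr (Rl c z) (Rl (g d) z) := fun h => hcS ⟨x, hx, h⟩
    rw [not_forall] at h3
    obtain ⟨d, hd⟩ := h3
    rw [not_or] at hd
    have hV' : ∀ a, ¬ V (Nat.pair (Nat.pair d a) (x a)) z := fun a ha => hd.1 ⟨a, ha⟩
    refine ⟨d, hV', ?_⟩
    have hw : WellFounded (strict (Rl (g d) z)) := (hwf d).2 fun a => ⟨x a, hV' a⟩
    obtain ⟨α, hα⟩ := exists_type ⟨hlin d, hw⟩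
    obtain ⟨γ, hγ⟩ := exists_type hcw
    refine emb_of_type (hlin d) hα hγ (not_lt.1 fun hlt => hd.2 ?_)
    exact ltr_of_lt hcw.toIsLin (hlin d) hγ hα hlt
  -- step 3
  have hA : S11 (fun d u => EmbR (Rl (g d) u) (Rl c u)) :=
    s11_emb (C := fun d _ => g d) (F := fun _ u => u) (D := fun _ _ => c) (H := fun _ u => u)
      (rec_of_primrec hg) recR_id (rec_const c) recR_id
  have hB : S11 (fun d u => ¬ Ttl V d u) := s11_not_ttl hV rec_id recR_id
  obtain ⟨y₀, hy₀, hy1, hy0⟩ := separation hA hB z fun d h =>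
    h.2 ((hwf d).1 (wf_of_emb h.1 hcw.wf))
  have htot : ∀ k, y₀ (Nat.unpair k).1 = 1 → ∃ m, ¬ V (Nat.pair k m) z := by
    intro k hk
    have ht : Ttl V (Nat.unpair k).1 z := by
      by_contra h
      rw [hy0 _ h] at hk
      exact absurd hk (by norm_num)
    obtain ⟨m, hm⟩ := ht (Nat.unpair k).2
    rw [Nat.pair_unpair] at hm
    exact ⟨m, hm⟩
  have hyV : ∀ k, y₀ (Nat.unpair k).1 = 1 → ¬ V (Nat.pair k (Y6y V z y₀ k)) z := by
    intro k hk
    have h : y₀ (Nat.unpair k).1 = 1 ∧ ∃ m, ¬ V (Nat.pair k m) z := ⟨hk, htot k hk⟩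
    rw [Y6y, dif_pos h]
    exact h.2.choose_spec
  have hfn : ∀ k m m', ¬ V (Nat.pair k m) z → ¬ V (Nat.pair k m') z → m = m' := by
    intro k m m' hm hm'
    rw [← Nat.pair_unpair k] at hm hm'
    exact hV.fn z _ _ m m' hm hm'
  refine ⟨Y6y V z y₀, ?_, ?_⟩
  · obtain ⟨Q, hQ, hQ2⟩ := hypIn_subst hy₀ (Y6_s11D hV.s11)
    refine ⟨Q, hQ, fun k m => ?_⟩
    rw [hQ2]
    simp only [Y6D, Nat.unpair_pair, p1_jn, p2_jn]
    by_cases hk : y₀ (Nat.unpair k).1 = 1
    · constructor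
      · rintro (⟨-, h⟩ | ⟨h, -⟩)
        · rcases h (Y6y V z y₀ k) with h' | h'
          · exact h'
          · exact absurd h' (hyV k hk)
        · exact absurd hk h
      · intro h
        refine Or.inl ⟨hk, fun m' => ?_⟩
        by_cases h' : V (Nat.pair k m') z
        · exact Or.inr h'
        · exact Or.inl ((hfn k _ _ h' (hyV k hk)).trans h)
    · have h0 : Y6y V z y₀ k = 0 := dif_neg fun h => hk h.1
      rw [h0]
      constructor
      · rintro (⟨h, -⟩ | ⟨-, h⟩)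
        · exact absurd h hk
        · exact h.symm
      · intro h
        exact Or.inr ⟨hk, h.symm⟩
  · intro x hx
    obtain ⟨d, hd, he⟩ := h2 x hx
    refine ⟨d, funext fun a => ?_⟩
    have h1 : y₀ (Nat.unpair (Nat.pair d a)).1 = 1 := by
      rw [Nat.unpair_pair]
      exact hy1 d he
    exact hfn _ _ _ (hyV _ h1) (hd a)

end BW
end

section

/-!
# BW.Y7 : Kreisel's selection theorem for hyperarithmetic reals

PROOF.  Let `V` be a `UnivPi` system and
`P₁ (pair a d) z :⇔ ¬ Ttl V d z ∨ ∃ y, CmpS V d z y ∧ P a (jn z y)`, a `Σ¹₁` predicate.  For every `a` there is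
`d` with `¬ P₁ (pair a d) z`: take `y` as in `h` and `d` with `Cmp V d z y` (`hypIn_iff_cmp`); `d` is total
(`ttl_iff`), and `CmpS V d z y'` implies `y' = y`.  `pi_uniform` for `P₁` gives `Q`; let `δ a` be the
unique `d` with `¬ Q (pair a d) z`.  `δ` is hyperarithmetic in `z` (`hypIn_of_pi`).  Each `δ a` is total; let
`y (pair a n)` be the value of the function number `δ a` at `n`.  `y (pair a n) = m ↔ ∀ m', m' = m ∨
V (pair (pair (δ a) n) m') z` is `Σ¹₁` in `z` and `δ`, so `y` is hyperarithmetic in `z` (`hypIn_subst`).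
`Cmp V (δ a) z (col y a)` holds, so `CmpS`, so `¬ P a (jn z (col y a))` since `¬ P₁ (pair a (δ a)) z`.
-/

namespace BW

theorem select {P : ℕ → (ℕ → ℕ) → Prop} (hP : S11 P) (z : ℕ → ℕ)
    (h : ∀ a, ∃ y, HypIn z y ∧ ¬ P a (jn z y)) :
    ∃ y, HypIn z y ∧ ∀ a, ¬ P a (jn z (col y a)) := by
  obtain ⟨V, hV⟩ := exists_univPi
  have h1 : S11 (fun n x => ¬ Ttl V (Nat.unpair n).2 x) :=
    s11_not_ttl (D := fun n _ => (Nat.unpair n).2) (F := fun _ x => x) hV (rec_snd rec_id) recR_id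
  have h2 : S11 (fun n u => CmpS V (Nat.unpair n).2 (p1 u) (p2 u) ∧ P (Nat.unpair n).1 u) :=
    s11_and (s11_cmpS (D := fun n _ => (Nat.unpair n).2) (F := fun _ u => p1 u)
      (G := fun _ u => p2 u) hV (rec_snd rec_id) (recR_p1 recR_id) (recR_p2 recR_id))
      (s11_subst (G := fun n _ => (Nat.unpair n).1) (F := fun _ u => u) hP (rec_fst rec_id) recR_id)
  have h3 : S11 (fun n x => ¬ Ttl V (Nat.unpair n).2 x ∨
      ∃ y, CmpS V (Nat.unpair n).2 x y ∧ P (Nat.unpair n).1 (jn x y)) := by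
    refine s11_or h1 (s11_congr (s11_exR h2) fun n x => ?_)
    simp only [p1_jn, p2_jn]
  obtain ⟨Q, hQ, hz⟩ := pi_uniform h3
  obtain ⟨q1, q2, q3⟩ := hz z
  have h4 : ∀ a, ∃ i, ¬ (¬ Ttl V (Nat.unpair (Nat.pair a i)).2 z ∨
      ∃ y, CmpS V (Nat.unpair (Nat.pair a i)).2 z y ∧
        P (Nat.unpair (Nat.pair a i)).1 (jn z y)) := by
    intro a
    obtain ⟨y, hy, hPy⟩ := h a
    obtain ⟨d, hd⟩ := (hypIn_iff_cmp hV).1 hy
    refine ⟨d, ?_⟩
    rw [Nat.unpair_pair]
    have ht : Ttl V d z := ttl_iff.2 ⟨y, hd⟩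
    rintro (h5 | ⟨y', h5, h6⟩)
    · exact h5 ht
    · have h7 := cmp_unique hV (cmp_of_cmpS ht h5) hd
      rw [h7] at h6
      exact hPy h6
  choose δ hδ using fun a => q3 a (h4 a)
  have hδh : HypIn z δ := by
    refine hypIn_of_pi hQ fun n m => ⟨fun h5 => q2 n _ _ (hδ n) h5, fun h5 => ?_⟩
    rw [← h5]
    exact hδ n
  have h5 : ∀ a, Ttl V (δ a) z ∧ ∀ y, CmpS V (δ a) z y → ¬ P a (jn z y) := by
    intro a
    have h6 := q1 a _ (hδ a)
    simp only [Nat.unpair_pair] at h6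
    rw [not_or, not_not] at h6
    exact ⟨h6.1, fun y hy hPy => h6.2 ⟨y, hy, hPy⟩⟩
  choose y₀ hy₀ using fun a => ttl_iff.1 (h5 a).1
  have hcol : ∀ a, col (fun k => y₀ (Nat.unpair k).1 (Nat.unpair k).2) a = y₀ a := by
    intro a
    funext k
    simp only [col, Nat.unpair_pair]
  refine ⟨fun k => y₀ (Nat.unpair k).1 (Nat.unpair k).2, ?_, fun a => ?_⟩
  · have h6 : S11 (fun n u => (Nat.unpair n).2 = (Nat.unpair (Nat.unpair n).1).2 ∨
        V (Nat.pair (Nat.pair (p2 u (Nat.unpair (Nat.unpair (Nat.unpair n).1).1).1)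
          (Nat.unpair (Nat.unpair (Nat.unpair n).1).1).2) (Nat.unpair n).2) (p1 u)) := by
      refine s11_or (s11_of_rec (recP_eq (rec_snd rec_id) (rec_snd (rec_fst rec_id)))) ?_
      exact s11_subst (F := fun _ u => p1 u) hV.s11 (rec_pair (rec_pair
        (recR_app (F := fun _ u => p2 u) (recR_p2 recR_id) (rec_fst (rec_fst (rec_fst rec_id))))
        (rec_snd (rec_fst (rec_fst rec_id)))) (rec_snd rec_id)) (recR_p1 recR_id)
    obtain ⟨Q', hQ', hQ2⟩ := hypIn_subst hδh (s11_all h6)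
    refine ⟨Q', hQ', fun n m => ?_⟩
    rw [hQ2]
    simp only [Nat.unpair_pair, p1_jn, p2_jn]
    have hc := hy₀ (Nat.unpair n).1
    constructor
    · intro h7
      have h8 := h7 (y₀ (Nat.unpair n).1 (Nat.unpair n).2)
      exact h8.resolve_right (hc _)
    · intro h7 m'
      rw [← h7]
      exact cmpS_of_cmp hV hc _ _
  · rw [hcol]
    exact (h5 a).2 _ (cmpS_of_cmp hV (hy₀ a))

end BW
end
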