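import Pool.Agent.Lib.MP_62bfd3_lc.Mg.G005
import Pool.Agent.Lib.MP_62bfd3_lc.Mg.G007
import Pool.Agent.Lib.MP_62bfd3_lc.Mg.G004

section

/-!
# BW.D3 : the set of all types: countable if the spectrum is not full, and `Σ¹₁`

PROOFS.
* `countable_TT` : let `φ' = mkRich φ₀ φ`, a rich hyperarithmetic formula with `φ'.at (1 :: σ) = φ.at σ`.
  By `spec_of_uncountable` the set `{R | Realz φ₀ φ' k R}` is countable for all `k > 0`.
  If `t = Tp M φ a₀ l` and `k = l.length + 1`, `R = rr M φ' k (ext a₀ l)`, then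
  `t (pt σ m) = 1 ↔ R (encode [pair (pt (1 :: σ) (m.map ρ)) 1]) = 1`, with `ρ i = i` for `i < k` and `ρ i = 0` for
  `i ≥ k`: under every `h` which agrees with `ext a₀ l` below `k`: `h (asg (m.map ρ) i) = ext a₀ l (asg m i)`.
  So `t` is a function of `k` and `R` (values `0`, `1`), and `TT φ₀ φ` is contained in a countable union of
  images of countable sets.
* `s11_TT` : `t ∈ TT φ₀ φ ↔ ∃ x, IsCd x ∧ Mod (strOf x) φ₀ ∧ ∃ a₀ l over dom x, ∀ n, (t n = 1 ∧ Tp .. n = 1) ∨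
  (t n = 0 ∧ ¬ Tp .. n = 1)` (`exists_isCd`, `mod_iso`, `tp_iso`; `s11_mod`, `s11_tru`, `s11_tru0`, `s11_hyp`); the
  real `i ↦ (a₀ :: l).getD i a₀` is a recursive functional of the code of `a₀ :: l`.
-/

namespace BW

variable {φ₀ φ : Fml}

open Encodable in
/-- the node below the second part of `mkRich` -/
private theorem D3_at (σ : List ℕ) : (mkRich φ₀ φ).at (1 :: σ) = φ.at σ := rfl

private theorem D3_rich : Rich φ₀ (mkRich φ₀ φ) := by
  refine ⟨⟨[0], rfl⟩, ⟨[2, 0], rfl⟩, fun k n => ⟨[2, 1, Nat.pair k n], ?_⟩⟩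
  show Fml.rel (Nat.unpair (Nat.pair k n)).1 (List.range (Nat.unpair (Nat.pair k n)).2) = _
  rw [Nat.unpair_pair]

/-- names beyond the tuple are replaced by `0` -/
private def D3_rho (k i : ℕ) : ℕ := if i < k + 1 then i else 0

private theorem D3_asg (k : ℕ) (m : List ℕ) (i : ℕ) :
    asg (m.map (D3_rho k)) i = D3_rho k (asg m i) := by
  have h0 : D3_rho k 0 = 0 := by simp [D3_rho]
  unfold asg
  rw [List.getD_eq_getElem?_getD, List.getD_eq_getElem?_getD, List.getElem?_map]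
  cases m[i]? with
  | none => simp [h0]
  | some a => simp

private theorem D3_ext {A : Type} {a₀ : A} {l : List A} {h : ℕ → A}
    (hh : ∀ i < l.length + 1, h i = ext a₀ l i) (j : ℕ) :
    h (D3_rho l.length j) = ext a₀ l j := by
  unfold D3_rho
  split_ifs with hj
  · exact hh j hj
  · rw [hh 0 (by omega)]
    unfold ext
    rw [List.getD_eq_getElem?_getD, List.getD_eq_getElem?_getD]
    have : (a₀ :: l)[j]? = none := by
      rw [List.getElem?_eq_none_iff, List.length_cons]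
      omega
    rw [this]
    simp

open Classical in
/-- a type is determined by the existential theory -/
private noncomputable def D3_dec (k : ℕ) (R : ℕ → ℕ) : ℕ → ℕ := fun n =>
  if R (Encodable.encode [Nat.pair (pt (1 :: dl (Nat.unpair n).1)
    ((dl (Nat.unpair n).2).map (D3_rho k))) 1]) = 1 then 1 else 0

private theorem D3_dec_eq {A : Type} {M : Str A} {a₀ : A} {l : List A} :
    D3_dec l.length (rr M (mkRich φ₀ φ) (l.length + 1) (ext a₀ l)) = Tp M φ a₀ l := by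
  funext n
  obtain ⟨σ, m, rfl⟩ := exists_pt n
  have key : rr M (mkRich φ₀ φ) (l.length + 1) (ext a₀ l)
      (Encodable.encode [Nat.pair (pt (1 :: σ) (m.map (D3_rho l.length))) 1]) = 1 ↔
      Tp M φ a₀ l (pt σ m) = 1 := by
    rw [rr_iff]
    have hs : ∀ h : ℕ → A, (∀ i < l.length + 1, h i = ext a₀ l i) →
        (Hol (Tru M (mkRich φ₀ φ) h) [Nat.pair (pt (1 :: σ) (m.map (D3_rho l.length))) 1] ↔
          Tp M φ a₀ l (pt σ m) = 1) := by
      intro h hh
      have e1 : Hol (Tru M (mkRich φ₀ φ) h)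
          [Nat.pair (pt (1 :: σ) (m.map (D3_rho l.length))) 1] ↔
          Tru M (mkRich φ₀ φ) h (pt (1 :: σ) (m.map (D3_rho l.length))) = 1 := by
        unfold Hol
        simp [Nat.unpair_pair]
      rw [e1, tru_pt, D3_at]
      unfold Tp
      rw [tru_pt]
      have e2 : (fun i => h (asg (m.map (D3_rho l.length)) i)) =
          fun i => ext a₀ l (asg m i) := by
        funext i
        rw [D3_asg, D3_ext hh]
      rw [e2]
    constructor
    · rintro ⟨h, h1, h2⟩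
      exact (hs h h1).1 h2
    · intro h
      exact ⟨ext a₀ l, fun _ _ => rfl, (hs _ fun _ _ => rfl).2 h⟩
  unfold D3_dec
  have hu : Nat.unpair (pt σ m) = (Encodable.encode σ, Encodable.encode m) := by
    unfold pt
    rw [Nat.unpair_pair]
  rw [hu]
  simp only [dl_encode]
  have hle : Tp M φ a₀ l (pt σ m) ≤ 1 := tp_le_one _
  split_ifs with h
  · exact (key.1 h).symm
  · have : Tp M φ a₀ l (pt σ m) ≠ 1 := fun h' => h (key.2 h')
    omega

theorem countable_TT (hs : φ₀.free = ∅) (h₀ : HypFml φ₀) (hφ : HypFml φ)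
    (hne : Spec φ₀ ≠ Set.range omega1) : (TT φ₀ φ).Countable := by
  have hc : ∀ k : ℕ, {R | Realz φ₀ (mkRich φ₀ φ) (k + 1) R}.Countable := by
    intro k
    by_contra hu
    exact hne (spec_of_uncountable hs h₀ (hypFml_mkRich h₀ hφ) D3_rich (Nat.succ_pos k) hu)
  have hsub : TT φ₀ φ ⊆ ⋃ k : ℕ, D3_dec k '' {R | Realz φ₀ (mkRich φ₀ φ) (k + 1) R} := by
    rintro t ⟨A, M, hA, hM, a₀, l, rfl⟩
    refine Set.mem_iUnion.2 ⟨l.length, rr M (mkRich φ₀ φ) (l.length + 1) (ext a₀ l), ?_,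
      D3_dec_eq⟩
    exact ⟨A, M, hA, ⟨a₀⟩, hM, ext a₀ l, rfl⟩
  exact (Set.countable_iUnion fun k => (hc k).image _).mono hsub

/-- the tuple coded by the number `q`, as an assignment -/
private def D3_aa (q i : ℕ) : ℕ :=
  ((Nat.unpair q).1 :: dl (Nat.unpair q).2).getD i (Nat.unpair q).1

private theorem D3_primrec_aa : Primrec₂ D3_aa := by
  have h : Primrec₂ (fun q i : ℕ =>
      (((Nat.unpair q).1 :: dl (Nat.unpair q).2)[i]?).getD (Nat.unpair q).1) := by
    refine Primrec.option_getD.comp₂ ?_ ?_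
    · refine Primrec.list_getElem?.comp₂ ?_ ?_
      · exact Primrec.list_cons.comp (Primrec.fst.comp (Primrec.unpair.comp Primrec.fst))
          (primrec_dl.comp (Primrec.snd.comp (Primrec.unpair.comp Primrec.fst)))
      · exact Primrec.snd
    · exact Primrec.fst.comp (Primrec.unpair.comp Primrec.fst)
  refine h.of_eq fun q i => ?_
  unfold D3_aa
  rw [List.getD_eq_getElem?_getD]

private theorem D3_aa_pair (a : ℕ) (l : List ℕ) (i : ℕ) :
    D3_aa (Nat.pair a (Encodable.encode l)) i = (a :: l).getD i a := by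
  unfold D3_aa
  rw [Nat.unpair_pair]
  simp only [dl_encode]

theorem s11_TT (hs : φ₀.free = ∅) (h₀ : HypFml φ₀) (hφ : HypFml φ) :
    ∃ P, S11 P ∧ ∀ n t, P n t ↔ t ∈ TT φ₀ φ := by
  obtain ⟨K, hK, hK'⟩ := s11_mod hs h₀
  obtain ⟨c, hc, hcφ⟩ := hφ
  obtain ⟨Q, hQ, hQ'⟩ := s11_tru
  obtain ⟨Q0, hQ0, hQ0'⟩ := s11_tru0
  have hQc := s11_hyp hc hQ
  have hQ0c := s11_hyp hc hQ0
  -- the predicate of the number `pair (pair n q) i` and the real `jn t x`
  have rq : Rec (fun n _ => (Nat.unpair (Nat.unpair n).1).2) := rec_snd (rec_fst rec_id)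
  have ri : Rec (fun n _ => (Nat.unpair n).2) := rec_snd rec_id
  have rt : Rec (fun n u => p1 u (Nat.unpair n).2) := recR_app (recR_p1 recR_id) ri
  have raa : RecR (fun n _ => D3_aa (Nat.unpair (Nat.unpair n).1).2) := by
    have h : RecR (fun (n : ℕ) (_ : ℕ → ℕ) (k : ℕ) => D3_aa (Nat.unpair (Nat.unpair
        (Nat.unpair (Nat.pair n k)).1).1).2 (Nat.unpair (Nat.pair n k)).2) :=
      recR_mk (G := fun n _ => D3_aa (Nat.unpair (Nat.unpair (Nat.unpair n).1).1).2
        (Nat.unpair n).2)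
        (rec_comp₂ D3_primrec_aa (rec_snd (rec_fst (rec_fst rec_id))) (rec_snd rec_id))
    simpa only [Nat.unpair_pair] using h
  have hdom : RecP (fun n u => dom (p2 u)
      (D3_aa (Nat.unpair (Nat.unpair n).1).2 (Nat.unpair n).2)) := by
    unfold dom
    refine recP_eq (recR_app (recR_p2 recR_id) (rec_pair (rec_const 0) ?_)) (rec_const 1)
    refine rec_comp (f := fun a => Encodable.encode [a]) ?_ (rec_comp₂ D3_primrec_aa rq ri)
    exact Primrec.encode.comp (Primrec.list_cons.comp Primrec.id (Primrec.const []))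
  have h1 := s11_subst hQc ri (recR_jn (recR_p2 recR_id) raa)
  have h2 := s11_subst hQ0c ri (recR_jn (recR_p2 recR_id) raa)
  have h3 := s11_and (s11_of_rec hdom)
    (s11_or (s11_and (s11_of_rec (recP_eq rt (rec_const 1))) h1)
      (s11_and (s11_of_rec (recP_eq rt (rec_const 0))) h2))
  have h4 := s11_exR (s11_and (s11_subst hK rec_id (recR_p2 recR_id)) (s11_ex (s11_all h3)))
  refine ⟨_, h4, fun n t => ?_⟩
  simp only [Nat.unpair_pair, p1_jn, p2_jn]
  constructor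
  · rintro ⟨x, hKx, q, hq⟩
    have hx := (hK' _ _).1 hKx
    have hd : ∀ i, dom x (D3_aa q i) := fun i => (hq i).1
    refine ⟨{a : ℕ // dom x a}, strOf x, inferInstance, hx.2, ⟨D3_aa q 0, hd 0⟩,
      (List.range (dl (Nat.unpair q).2).length).map (fun i => ⟨D3_aa q (i + 1), hd (i + 1)⟩), ?_⟩
    have he : ext (⟨D3_aa q 0, hd 0⟩ : {a : ℕ // dom x a})
        ((List.range (dl (Nat.unpair q).2).length).map
          (fun i => ⟨D3_aa q (i + 1), hd (i + 1)⟩)) = fun i => ⟨D3_aa q i, hd i⟩ := by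
      funext i
      unfold ext
      rcases i with _ | i
      · simp
      · rw [List.getD_cons_succ, List.getD_eq_getElem?_getD, List.getElem?_map]
        by_cases hi : i < (dl (Nat.unpair q).2).length
        · rw [List.getElem?_range hi]
          simp
        · have : (List.range (dl (Nat.unpair q).2).length)[i]? = none := by
            rw [List.getElem?_eq_none_iff, List.length_range]
            omega
          rw [this]
          apply Subtype.ext
          simp only [Option.map_none, Option.getD_none]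
          unfold D3_aa
          rw [List.getD_cons_zero, List.getD_cons_succ, List.getD_eq_getElem?_getD,
            List.getElem?_eq_none (by omega), Option.getD_none]
    funext i
    unfold Tp
    rw [he]
    have hle := tru_le_one (strOf x) φ (fun i => (⟨D3_aa q i, hd i⟩ : {a : ℕ // dom x a})) i
    rcases (hq i).2 with ⟨ht, hQi⟩ | ⟨ht, hQi⟩
    · rw [ht]
      exact ((hQ' φ c x (D3_aa q) hd hcφ i).1 hQi).symm
    · have := (hQ0' φ c x (D3_aa q) hd hcφ i).1 hQi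
      omega
  · rintro ⟨A, M, hA, hM, a₀, l, rfl⟩
    have : Nonempty A := ⟨a₀⟩
    obtain ⟨x, hx, -, f, hf⟩ := exists_isCd M
    have hM' : Mod (strOf x) φ₀ := (mod_iso hf φ₀).1 hM
    refine ⟨x, (hK' _ _).2 ⟨hx, hM'⟩, Nat.pair (f a₀ : ℕ)
      (Encodable.encode (l.map fun b => (f b : ℕ))), fun i => ?_⟩
    have hv : ∀ i, D3_aa (Nat.pair (f a₀ : ℕ) (Encodable.encode (l.map fun b => (f b : ℕ)))) i =
        ((ext (f a₀) (l.map f) i : {a : ℕ // dom x a}) : ℕ) := by
      intro i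
      rw [D3_aa_pair]
      unfold ext
      rcases i with _ | i
      · simp
      · rw [List.getD_cons_succ, List.getD_cons_succ, List.getD_eq_getElem?_getD,
          List.getD_eq_getElem?_getD, List.getElem?_map, List.getElem?_map]
        cases l[i]? <;> simp
    have hd : ∀ i, dom x
        (D3_aa (Nat.pair (f a₀ : ℕ) (Encodable.encode (l.map fun b => (f b : ℕ)))) i) := by
      intro i
      rw [hv i]
      exact (ext (f a₀) (l.map f) i).2
    refine ⟨hd i, ?_⟩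
    have he : (fun i => (⟨_, hd i⟩ : {a : ℕ // dom x a})) = ext (f a₀) (l.map f) := by
      funext i
      exact Subtype.ext (hv i)
    rw [hQ' φ c x _ hd hcφ i, hQ0' φ c x _ hd hcφ i, he]
    rw [tp_iso hf]
    have hle : Tp (strOf x) φ (f a₀) (l.map f) i ≤ 1 := tp_le_one _
    unfold Tp at hle ⊢
    omega

/-- a hyperarithmetic sequence which contains all types -/
theorem cover_TT (hs : φ₀.free = ∅) (h₀ : HypFml φ₀) (hφ : HypFml φ)
    (hne : Spec φ₀ ≠ Set.range omega1) : ∃ y, Hyp y ∧ ∀ t ∈ TT φ₀ φ, ∃ i, col y i = t := by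
  obtain ⟨P, hP, hP'⟩ := s11_TT hs h₀ hφ
  have hP2 : S11 (fun n u => P n (p2 u)) := s11_subst hP rec_id (recR_p2 recR_id)
  have hc : {x | (fun n u => P n (p2 u)) 0 (jn (fun _ => 0) x)}.Countable := by
    have : {x | (fun n u => P n (p2 u)) 0 (jn (fun _ => 0) x)} = TT φ₀ φ := by
      ext x
      simp only [Set.mem_ofPred_eq, p2_jn, hP']
    rw [this]
    exact countable_TT hs h₀ hφ hne
  obtain ⟨y, hy, hy'⟩ := cover hP2 0 (fun _ => 0) hc
  refine ⟨y, hy, fun t ht => hy' t ?_⟩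
  simp only [p2_jn, hP']
  exact ht

end BW
end

section

/-!
# BW.D5 : hyperarithmetic formulas determine the back-and-forth classes

PROOF.  Strong induction on `α < omega1 z₀`, `z₀ = fun _ => 0`.  Let `e` be an index with `Tot e z₀`,
`IsWO (Rl e z₀)`, `HasType (Rl e z₀) α` (`exists_index`), `F = {u | Rl e z₀ u u}`.  For `u ∈ F` let `α_u < α` be the
type of `seg (Rl e z₀) u` (`hasType_seg_lt`); every `β < α` is some `α_u` (`hasType_seg`, `hasType_unique`).
(1) Apply `select` (with `z = z₀`) to `P u (jn z₀ y) :⇔ Rl e z₀ u u ∧ (¬ IsCode y ∨ D (pair e u) y)`, `D` from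
`exists_notDet`; `Σ¹₁` by `s11_gr`, `s11_not_isCode`.  The hypothesis: for `u ∈ F` the induction hypothesis
gives a formula `ψ` with a hyperarithmetic code `y` and `Det φ₀ ψ α_u`.  So there is a hyperarithmetic `y`
such that for all `u ∈ F`, `col y u` is a code of a formula `ψ_u` with `Det φ₀ ψ_u α_u` (`hasCode_unique`).
(2) Let `y'` be the hyperarithmetic real with `col y' u = col y u` for `u ∈ F` and `col y' u` = a code of `.eq 0 1`
otherwise (`F` is recursive: `Tot e z₀`; or `Δ¹₁`), `ψ_u = .eq 0 1` for `u ∉ F`.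
Let `φ₁ = mk3 (.eq 0 1) atomsF (.conj ψ)`, hyperarithmetic (`hypFml_conj`, `hypFml_mk3`), with the nodes
`φ₁.at [2, u] = ψ_u`.  Let `y''` be given by `cover_TT` for `φ₁`, and `φ₂ = mk3 φ₁ (stepAll φ₁ y'') (.eq 0 1)`.
(3) `Det φ₀ φ₂ α`: let `Tp M φ₂ a₀ l = Tp N φ₂ b₀ r`, equal lengths.  Then the types with respect to `φ₁` and to
`stepAll φ₁ y''` agree (`tp_at`).  `AtEq` by `atEq_of_tp` for `φ₁`.  Let `β < α`, `β = α_u`.  For `c` in `M` there is `d`
with `Tp M φ₁ a₀ (l ++ [c]) = Tp N φ₁ b₀ (r ++ [d])` (`step`), so the types with respect to `ψ_u` agree (`tp_at`), so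
`BF M N β (a₀ :: (l ++ [c])) (b₀ :: (r ++ [d]))`; symmetrically for `d` in `N` (`step` with the structures exchanged,
`bf_symm`).  So `BF M N α (a₀ :: l) (b₀ :: r)` by `bf_iff`.
-/

namespace BW

/-- the predicate of step 1 -/
private def D5P (e : ℕ) (D : ℕ → (ℕ → ℕ) → Prop) (u : ℕ) (v : ℕ → ℕ) : Prop :=
  Rl e (p1 v) u u ∧ (¬ IsCode (p2 v) ∨ D (Nat.pair e u) (p2 v))

private theorem D5_s11 (e : ℕ) {D : ℕ → (ℕ → ℕ) → Prop} (hD : S11 D) : S11 (D5P e D) := by
  have h1 : S11 (fun u v => Rl e (p1 v) u u) :=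
    s11_gr (C := fun _ _ => e) (F := fun _ v => p1 v) (A := fun u _ => Nat.pair u u)
      (B := fun _ _ => 1) (rec_const e) (recR_p1 recR_id) (rec_pair rec_id rec_id) (rec_const 1)
  have h2 : S11 (fun (_ : ℕ) v => ¬ IsCode (p2 v)) :=
    s11_not_isCode (F := fun _ v => p2 v) (recR_p2 recR_id)
  have h3 : S11 (fun u v => D (Nat.pair e u) (p2 v)) :=
    s11_subst (G := fun u _ => Nat.pair e u) (F := fun _ v => p2 v) hD
      (rec_pair (rec_const e) rec_id) (recR_p2 recR_id)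
  exact s11_and h1 (s11_or h2 h3)

open Classical in
/-- the sequence of codes of step 2 -/
private noncomputable def D5y (e : ℕ) (y c₀ : ℕ → ℕ) (k : ℕ) : ℕ :=
  if Rl e (fun _ => 0) (Nat.unpair k).1 (Nat.unpair k).1 then y k else c₀ (Nat.unpair k).2

private theorem D5_col_pos {e : ℕ} {y c₀ : ℕ → ℕ} {u : ℕ} (hu : Rl e (fun _ => 0) u u) :
    col (D5y e y c₀) u = col y u := by
  funext k
  unfold col D5y
  rw [Nat.unpair_pair]
  exact if_pos hu

private theorem D5_col_neg {e : ℕ} {y c₀ : ℕ → ℕ} {u : ℕ} (hu : ¬ Rl e (fun _ => 0) u u) :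
    col (D5y e y c₀) u = c₀ := by
  funext k
  unfold col D5y
  rw [Nat.unpair_pair]
  exact if_neg hu

private theorem D5_hyp (e : ℕ) {y c₀ : ℕ → ℕ} (hy : Hyp y) (hc : Hyp c₀) : Hyp (D5y e y c₀) := by
  obtain ⟨P₀, hP₀, hc⟩ := hc
  have hk : Rec (fun n (_ : ℕ → ℕ) => (Nat.unpair n).1) := rec_fst rec_id
  have hu : Rec (fun n (_ : ℕ → ℕ) => (Nat.unpair (Nat.unpair n).1).1) := rec_fst hk
  have hpu : Rec (fun n (_ : ℕ → ℕ) => Nat.pair (Nat.unpair (Nat.unpair n).1).1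
      (Nat.unpair (Nat.unpair n).1).1) := rec_pair hu hu
  have h1 : S11 (fun n v => Rl e (p1 v) (Nat.unpair (Nat.unpair n).1).1
      (Nat.unpair (Nat.unpair n).1).1) :=
    s11_gr (C := fun _ _ => e) (F := fun _ v => p1 v) (B := fun _ _ => 1)
      (rec_const e) (recR_p1 recR_id) hpu (rec_const 1)
  have h2 : S11 (fun n v => ¬ Rl e (p1 v) (Nat.unpair (Nat.unpair n).1).1
      (Nat.unpair (Nat.unpair n).1).1) :=
    s11_not_gr (C := fun _ _ => e) (F := fun _ v => p1 v) (B := fun _ _ => 1)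
      (rec_const e) (recR_p1 recR_id) hpu (rec_const 1)
  have h3 : S11 (fun n v => p2 v (Nat.unpair n).1 = (Nat.unpair n).2) :=
    s11_of_rec (recP_eq (recR_app (recR_p2 recR_id) hk) (rec_snd rec_id))
  have h4 : S11 (fun n v => P₀ (Nat.pair (Nat.unpair (Nat.unpair n).1).2 (Nat.unpair n).2)
      (p1 v)) :=
    s11_subst hP₀ (rec_pair (rec_snd hk) (rec_snd rec_id)) (recR_p1 recR_id)
  obtain ⟨Q, hQ, hQ2⟩ := hypIn_subst hy (s11_or (s11_and h1 h3) (s11_and h2 h4))
  refine ⟨Q, hQ, fun k m => ?_⟩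
  rw [hQ2]
  simp only [Nat.unpair_pair, p1_jn, p2_jn]
  rw [hc]
  unfold D5y
  by_cases h : Rl e (fun _ => 0) (Nat.unpair k).1 (Nat.unpair k).1
  · rw [if_pos h]
    constructor
    · rintro (⟨-, h5⟩ | ⟨h5, -⟩)
      · exact h5
      · exact absurd h h5
    · intro h5
      exact Or.inl ⟨h, h5⟩
  · rw [if_neg h]
    constructor
    · rintro (⟨h5, -⟩ | ⟨-, h5⟩)
      · exact absurd h5 h
      · exact h5
    · intro h5
      exact Or.inr ⟨h, h5⟩

private theorem D5_at {φ χ : Fml} (k n : ℕ) :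
    (mk3 φ atomsF χ).at [1, Nat.pair k n] = .rel k (List.range n) := by
  have h : (mk3 φ atomsF χ).at [1, Nat.pair k n] =
      .rel (Nat.unpair (Nat.pair k n)).1 (List.range (Nat.unpair (Nat.pair k n)).2) := rfl
  rw [h, Nat.unpair_pair]

theorem exists_det {φ₀ : Fml} (hs : φ₀.free = ∅) (h₀ : HypFml φ₀)
    (hne : Spec φ₀ ≠ Set.range omega1) (α : Ordinal.{0}) (hα : α < omega1 (fun _ => 0)) :
    ∃ φ, HypFml φ ∧ Det φ₀ φ α := by
  induction α using WellFoundedLT.induction with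
  | ind α ih =>
    obtain ⟨e, -, hWO, hty⟩ := exists_index hα
    obtain ⟨D, hD, hD2⟩ := exists_notDet hs h₀
    -- step 1
    obtain ⟨y, hy, hyP⟩ := select (D5_s11 e hD) (fun _ => 0) fun u => by
      by_cases hu : Rl e (fun _ => 0) u u
      · obtain ⟨β, hβ, hβ2⟩ := hasType_seg_lt hWO.toIsLin hty hu
        obtain ⟨ψ, ⟨c, hc, hcode⟩, hdet⟩ := ih β hβ (hβ.trans hα)
        refine ⟨c, hc, ?_⟩
        rintro ⟨-, h⟩
        rw [p2_jn] at h
        rcases h with h | h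
        · exact h ⟨ψ, hcode⟩
        · exact (hD2 e u c ψ β hcode hWO hu hβ2).1 h hdet
      · refine ⟨fun _ => 0, hypIn_of_funIn (funIn_refl _), ?_⟩
        rintro ⟨h, -⟩
        rw [p1_jn] at h
        exact hu h
    have hy1 : ∀ u, Rl e (fun _ => 0) u u → ∃ ψ, HasCode ψ (col y u) ∧
        ∀ β, HasType (seg (Rl e (fun _ => 0)) u) β → Det φ₀ ψ β := by
      intro u hu
      have h1 : ¬ (¬ IsCode (col y u) ∨ D (Nat.pair e u) (col y u)) := fun h => hyP u
        ⟨by rw [p1_jn]; exact hu, by rw [p2_jn]; exact h⟩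
      rw [not_or, not_not] at h1
      obtain ⟨⟨ψ, hψ⟩, h2⟩ := h1
      refine ⟨ψ, hψ, fun β hβ => ?_⟩
      by_contra h3
      exact h2 ((hD2 e u _ ψ β hψ hWO hu hβ).2 h3)
    -- step 2
    obtain ⟨c₀, hc₀, hcode₀⟩ := hypFml_eq 0 1
    have hy2 : ∀ u, ∃ ψ, HasCode ψ (col (D5y e y c₀) u) ∧ (Rl e (fun _ => 0) u u →
        ∀ β, HasType (seg (Rl e (fun _ => 0)) u) β → Det φ₀ ψ β) := by
      intro u
      by_cases hu : Rl e (fun _ => 0) u u
      · obtain ⟨ψ, hψ, hψ2⟩ := hy1 u hu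
        refine ⟨ψ, ?_, fun _ => hψ2⟩
        rw [D5_col_pos hu]
        exact hψ
      · refine ⟨.eq 0 1, ?_, fun h => absurd h hu⟩
        rw [D5_col_neg hu]
        exact hcode₀
    choose ψ hψ hψ2 using hy2
    have hφ₁ : HypFml (mk3 (.eq 0 1) atomsF (.conj ψ)) :=
      hypFml_mk3 (hypFml_eq 0 1) hypFml_atomsF (hypFml_conj (D5_hyp e hy hc₀) hψ)
    obtain ⟨y₂, hy₂, hcov⟩ := cover_TT hs h₀ hφ₁ hne
    refine ⟨mk3 (mk3 (.eq 0 1) atomsF (.conj ψ))
      (stepAll (mk3 (.eq 0 1) atomsF (.conj ψ)) y₂) (.eq 0 1),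
      hypFml_mk3 hφ₁ (hypFml_stepAll hφ₁ hy₂) (hypFml_eq 0 1), ?_⟩
    -- step 3
    intro A B M N hA hB hM hN a₀ l b₀ r hl h
    have e1 : Tp M (mk3 (.eq 0 1) atomsF (.conj ψ)) a₀ l =
        Tp N (mk3 (.eq 0 1) atomsF (.conj ψ)) b₀ r := tp_at [0] h
    have e2 : Tp M (stepAll (mk3 (.eq 0 1) atomsF (.conj ψ)) y₂) a₀ l =
        Tp N (stepAll (mk3 (.eq 0 1) atomsF (.conj ψ)) y₂) b₀ r := tp_at [1] h
    rw [bf_iff]
    refine ⟨atEq_of_tp hl e1 ⟨[0], rfl⟩ fun k n => ⟨[1, Nat.pair k n], D5_at k n⟩,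
      fun β hβ => ?_⟩
    obtain ⟨u, hu, hut⟩ := hasType_seg hWO.toIsLin hty hβ
    refine ⟨fun c => ?_, fun d => ?_⟩
    · obtain ⟨d, hd⟩ := step hcov hM hl e2 c
      refine ⟨d, ?_⟩
      have e3 : Tp M (ψ u) a₀ (l ++ [c]) = Tp N (ψ u) b₀ (r ++ [d]) := tp_at [2, u] hd
      exact hψ2 u hu β hut A B M N hA hB hM hN a₀ (l ++ [c]) b₀ (r ++ [d])
        (by rw [List.length_append, List.length_append, hl]; rfl) e3
    · obtain ⟨c, hc⟩ := step hcov hN hl.symm e2.symm d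
      refine ⟨c, ?_⟩
      have e3 : Tp N (ψ u) b₀ (r ++ [d]) = Tp M (ψ u) a₀ (l ++ [c]) := tp_at [2, u] hc
      exact hψ2 u hu β hut A B M N hA hB hM hN a₀ (l ++ [c]) b₀ (r ++ [d])
        (by rw [List.length_append, List.length_append, hl]; rfl) e3.symm

end BW
end

section

/-!
# BW.D7 : every countable model is `β`-equivalent to a low model, if the spectrum is not full

PROOF.  Let `z₀ = fun _ => 0`, `β < omega1 z₀`.  Let `φ` be hyperarithmetic with `Det φ₀ φ β` (`exists_det`).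
Choose `a₀ : A` and let `t = Tp M φ a₀ []`.  As `TT φ₀ φ` is a countable `Σ¹₁` set (`countable_TT`, `s11_TT`),
`t` is hyperarithmetic (`hyp_of_countable` with `z = z₀`).  The class `U` of the reals `x` with `IsCd x`,
`Mod (strOf x) φ₀` and `Tp (strOf x) φ b [] = t` for some `b` in `dom x` is `Σ¹₁` (`s11_mod`, `s11_tru`,
`s11_tru0`, `s11_hyp` for the hyperarithmetic reals `t` and a code of `φ`; the real `ext b []` is
constant).  It is nonempty: `exists_isCd M`, `tp_iso`.  By `gandy0` there is `x ∈ U` with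
`omega1 x = omega1 z₀`.  `Det` gives `BF M (strOf x) β [a₀] [b]`.  Finally `omega1 z₀ ≤ omega1 y` for every real
`y` (`omega1_mono`; a constant real is recursive in every real).
-/

namespace BW

open Encodable

private theorem D7_ext {A : Type} (b : A) : ext b [] = fun _ => b := by
  funext i
  unfold ext
  rcases i with _ | i
  · rfl
  · simp

private theorem D7_rec (k : ℕ) : Rec (fun n (_ : ℕ → ℕ) => Nat.pair k (encode [(Nat.unpair n).2])) := by
  refine rec_of_primrec (f := fun n => Nat.pair k (encode [(Nat.unpair n).2])) ?_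
  refine Primrec₂.natPair.comp (Primrec.const k) (Primrec.encode.comp ?_)
  exact Primrec.list_cons.comp (Primrec.snd.comp Primrec.unpair) (Primrec.const [])

private theorem D7_s11 {K Q Q0 : ℕ → (ℕ → ℕ) → Prop} (hK : S11 K) (hQ : S11 Q) (hQ0 : S11 Q0) :
    S11 (fun n u => K n (p2 (p2 u)) ∧ ∃ b, dom (p2 (p2 u)) b ∧ ∀ m,
      (p1 u m = 1 ∧ Q m (jn (p1 (p2 u)) (jn (p2 (p2 u)) (fun _ => b)))) ∨
      (p1 u m = 0 ∧ Q0 m (jn (p1 (p2 u)) (jn (p2 (p2 u)) (fun _ => b))))) := by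
  have r1 : RecR (fun (_ : ℕ) (u : ℕ → ℕ) => p1 u) := recR_p1 recR_id
  have r2 : RecR (fun (_ : ℕ) (u : ℕ → ℕ) => p1 (p2 u)) := recR_p1 (recR_p2 recR_id)
  have r3 : RecR (fun (_ : ℕ) (u : ℕ → ℕ) => p2 (p2 u)) := recR_p2 (recR_p2 recR_id)
  have hb : RecR (fun n (_ : ℕ → ℕ) (_ : ℕ) => (Nat.unpair (Nat.unpair n).1).2) := by
    have h := recR_mk (G := fun k (_ : ℕ → ℕ) => (Nat.unpair (Nat.unpair (Nat.unpair k).1).1).2)
      (rec_snd (rec_fst (rec_fst rec_id)))
    simpa only [Nat.unpair_pair] using h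
  have hm : Rec (fun n (_ : ℕ → ℕ) => (Nat.unpair n).2) := rec_snd rec_id
  have hF : RecR (fun n (u : ℕ → ℕ) => jn (p1 (p2 u)) (jn (p2 (p2 u))
      (fun _ => (Nat.unpair (Nat.unpair n).1).2))) := recR_jn r2 (recR_jn r3 hb)
  have h1 : S11 (fun n u =>
      (p1 u (Nat.unpair n).2 = 1 ∧ Q (Nat.unpair n).2 (jn (p1 (p2 u)) (jn (p2 (p2 u))
        (fun _ => (Nat.unpair (Nat.unpair n).1).2)))) ∨
      (p1 u (Nat.unpair n).2 = 0 ∧ Q0 (Nat.unpair n).2 (jn (p1 (p2 u)) (jn (p2 (p2 u))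
        (fun _ => (Nat.unpair (Nat.unpair n).1).2))))) := by
    refine s11_or (s11_and (s11_of_rec (recP_eq (recR_app r1 hm) (rec_const 1))) ?_)
      (s11_and (s11_of_rec (recP_eq (recR_app r1 hm) (rec_const 0))) ?_)
    · exact s11_subst hQ hm hF
    · exact s11_subst hQ0 hm hF
  have h2 := s11_all h1
  simp only [Nat.unpair_pair] at h2
  have h3 : S11 (fun n u => dom (p2 (p2 u)) (Nat.unpair n).2) := by
    unfold dom
    exact s11_of_rec (recP_eq (recR_app r3 (D7_rec 0)) (rec_const 1))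
  have h4 := s11_ex (s11_and h3 h2)
  simp only [Nat.unpair_pair] at h4
  exact s11_and (s11_subst hK rec_id r3) h4

theorem exists_low {φ₀ : Fml} (hs : φ₀.free = ∅) (h₀ : HypFml φ₀)
    (hne : Spec φ₀ ≠ Set.range omega1) {A : Type} [Countable A] [Nonempty A] (M : Str A)
    (hM : Mod M φ₀) {β : Ordinal.{0}} (hr : β < omega1 (fun _ => 0)) :
    ∃ x, IsCd x ∧ Mod (strOf x) φ₀ ∧ omega1Str (strOf x) = omega1 (fun _ => 0) ∧
      BF M (strOf x) β [] [] := by
  obtain ⟨φ, hφ, hdet⟩ := exists_det hs h₀ hne _ hr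
  obtain ⟨a₀⟩ := ‹Nonempty A›
  obtain ⟨P, hP, hPt⟩ := s11_TT (φ₀ := φ₀) (φ := φ) hs h₀ hφ
  have hcount := countable_TT (φ₀ := φ₀) (φ := φ) hs h₀ hφ hne
  set t := Tp M φ a₀ [] with ht
  have htT : t ∈ TT φ₀ φ := ⟨A, M, inferInstance, hM, a₀, [], rfl⟩
  have hP' : S11 (fun n u => P n (p2 u)) := s11_subst hP rec_id (recR_p2 recR_id)
  have hset : {x : ℕ → ℕ | P 0 (p2 (jn (fun _ => 0) x))} = TT φ₀ φ := by
    ext x
    rw [Set.mem_ofPred_eq, p2_jn, hPt]
  have htH : Hyp t := by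
    refine hyp_of_countable hP' 0 (fun _ => 0) ?_ ?_
    · rw [hset]
      exact hcount
    · show t ∈ {x : ℕ → ℕ | P 0 (p2 (jn (fun _ => 0) x))}
      rw [hset]
      exact htT
  obtain ⟨c, hc, hcode⟩ := hφ
  obtain ⟨K, hK, hKx⟩ := s11_mod hs h₀
  obtain ⟨Q, hQ, hQx⟩ := s11_tru
  obtain ⟨Q0, hQ0, hQ0x⟩ := s11_tru0
  have hU := s11_hyp (P := fun n x => _) hc (s11_hyp (P := fun n u => _) htH (D7_s11 hK hQ hQ0))
  have hU2 : S11 (fun n x => K n x ∧ ∃ b, dom x b ∧ ∀ m,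
      (t m = 1 ∧ Q m (jn c (jn x (fun _ => b)))) ∨
      (t m = 0 ∧ Q0 m (jn c (jn x (fun _ => b))))) := by
    simpa only [p1_jn, p2_jn] using hU
  have key : ∀ x (b : ℕ) (hb : dom x b), (∀ m, (t m = 1 ∧ Q m (jn c (jn x (fun _ => b)))) ∨
      (t m = 0 ∧ Q0 m (jn c (jn x (fun _ => b))))) ↔ Tp (strOf x) φ ⟨b, hb⟩ [] = t := by
    intro x b hb
    have e1 : Tp (strOf x) φ ⟨b, hb⟩ [] =
        Tru (strOf x) φ (fun i => (⟨(fun _ => b) i, hb⟩ : {a : ℕ // dom x a})) := by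
      unfold Tp
      rw [D7_ext]
    have h1 : ∀ m, Q m (jn c (jn x (fun _ => b))) ↔ Tp (strOf x) φ ⟨b, hb⟩ [] m = 1 := by
      intro m
      rw [e1]
      exact hQx φ c x (fun _ => b) (fun _ => hb) hcode m
    have h2 : ∀ m, Q0 m (jn c (jn x (fun _ => b))) ↔ ¬ Tp (strOf x) φ ⟨b, hb⟩ [] m = 1 := by
      intro m
      rw [e1]
      exact hQ0x φ c x (fun _ => b) (fun _ => hb) hcode m
    constructor
    · intro h
      funext m
      rcases h m with ⟨h3, h4⟩ | ⟨h3, h4⟩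
      · rw [h3]
        exact (h1 m).1 h4
      · have h5 := (h2 m).1 h4
        have h6 := tp_le_one (M := strOf x) (φ := φ) (a₀ := ⟨b, hb⟩) (l := []) m
        rw [h3]
        omega
    · intro h m
      have h6 := tp_le_one (M := M) (φ := φ) (a₀ := a₀) (l := []) m
      rw [← ht] at h6
      by_cases h7 : t m = 1
      · left
        refine ⟨h7, (h1 m).2 ?_⟩
        rw [h]
        exact h7
      · right
        refine ⟨by omega, (h2 m).2 ?_⟩
        rw [h]
        exact h7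
  obtain ⟨x₁, hx₁, -, f, hf⟩ := exists_isCd M
  obtain ⟨x, ⟨hx1, b, hb, hx2⟩, hx3⟩ := gandy0 hU2 0 ⟨x₁, (hKx 0 x₁).2 ⟨hx₁, (mod_iso hf φ₀).1 hM⟩,
    (f a₀).1, (f a₀).2, (key x₁ _ (f a₀).2).2 (by
      have h := tp_iso (φ := φ) (a₀ := a₀) (l := []) hf
      rw [ht, h]
      rfl)⟩
  obtain ⟨hx4, hx5⟩ := (hKx 0 x).1 hx1
  have h8 := (key x b hb).1 hx2
  have h9 : BF M (strOf x) β ([] ++ [a₀]) ([] ++ [(⟨b, hb⟩ : {a : ℕ // dom x a})]) :=
    hdet A {a : ℕ // dom x a} M (strOf x) inferInstance inferInstance hM hx5 a₀ [] ⟨b, hb⟩ [] rfl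
      (by rw [h8])
  refine ⟨x, hx4, hx5, le_antisymm ?_ ?_, bf_append_left rfl h9⟩
  · rw [omega1Str_strOf hx4, ← hx3]
    exact omega1S_le x
  · apply le_omega1Str
    intro y _
    exact omega1_mono (funIn_of_recR (recR_primrec (Primrec.const 0)) y 0)

end BW
end
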